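import Pool.Agent.H30.P6.BMir

/-!
# More bounds for virtual fans (certificates generated)
-/

set_option autoImplicit false
set_option maxRecDepth 100000

open Pool.Agent.H20.AL Pool.Agent.H63.P6

noncomputable section

namespace Pool.Agent.H30.Q

open Pool.Agent.H30.P6 (V30 V30_self V30_nonneg V30_le_iff s3 s3p nrm str_of one_le_sq Str VLe)

def rows_G0 : List Row := [
  ⟨0, 0, 0, 0, 0, 0, 0, 0, 0, 0, 0, 0, 0, 0, -24, 0, 0, 0, 0, 0, -1, 0, 0, 0, 0, 0, 0, 0, 0⟩,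
  ⟨0, 0, 0, 0, 0, 0, 0, 0, 0, 0, 0, 0, 0, 16, -16, 0, 0, 0, 0, 0, -1, 0, 0, 0, 0, 0, 0, 0, 0⟩,
  ⟨0, 0, 0, 0, 0, 0, 0, 0, 0, 0, 0, 0, 0, -16, -16, 0, 0, 0, 0, 0, -1, 0, 0, 0, 0, 0, 0, 0, 0⟩,
  ⟨0, 0, 0, 0, 0, 0, 0, 0, 0, 0, 0, 0, 0, 25, -11, 0, 0, 0, 0, 0, -1, 0, 0, 0, 0, 0, 0, 0, 0⟩,
  ⟨0, 0, 0, 0, 0, 0, 0, 0, 0, 0, 0, 0, 0, -25, -11, 0, 0, 0, 0, 0, -1, 0, 0, 0, 0, 0, 0, 0, 0⟩,
  ⟨0, 0, 0, 0, 0, 0, 0, 0, 0, 0, 0, 0, 0, 43, 0, 0, 0, 0, 0, 0, -1, 0, 0, 0, 0, 0, 0, 0, 0⟩,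
  ⟨0, 0, 0, 0, 0, 0, 0, 0, 0, 0, 0, 0, 0, -43, 0, 0, 0, 0, 0, 0, -1, 0, 0, 0, 0, 0, 0, 0, 0⟩,
  ⟨0, 0, 0, 0, 0, 0, 0, 0, 0, 0, 0, 0, 0, 75, 25, 0, 0, 0, 0, 0, -1, 0, 0, 0, 0, 0, 0, 0, 0⟩,
  ⟨0, 0, 0, 0, 0, 0, 0, 0, 0, 0, 0, 0, 0, -75, 25, 0, 0, 0, 0, 0, -1, 0, 0, 0, 0, 0, 0, 0, 0⟩,
  ⟨0, 0, 0, 0, 0, 0, 0, 0, 0, 0, 0, 0, 0, 56, 56, 0, 0, 0, 0, 0, -1, 0, 0, 0, 0, 0, 0, 0, 0⟩,
  ⟨0, 0, 0, 0, 0, 0, 0, 0, 0, 0, 0, 0, 0, -56, 56, 0, 0, 0, 0, 0, -1, 0, 0, 0, 0, 0, 0, 0, 0⟩,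
  ⟨0, 0, 0, 0, 0, 0, 0, 0, 0, 0, 0, 0, 0, 0, 112, 0, 0, 0, 0, 0, -1, 0, 0, 0, 0, 0, 0, 0, 0⟩,
  ⟨0, 0, 0, 0, 0, 0, 0, 0, 0, 0, 0, 0, 0, 0, 0, 0, -24, 0, 0, 0, 0, -1, 0, 0, 0, 0, 0, 0, 0⟩,
  ⟨0, 0, 0, 0, 0, 0, 0, 0, 0, 0, 0, 0, 0, 0, 0, 16, -16, 0, 0, 0, 0, -1, 0, 0, 0, 0, 0, 0, 0⟩,
  ⟨0, 0, 0, 0, 0, 0, 0, 0, 0, 0, 0, 0, 0, 0, 0, -16, -16, 0, 0, 0, 0, -1, 0, 0, 0, 0, 0, 0, 0⟩,
  ⟨0, 0, 0, 0, 0, 0, 0, 0, 0, 0, 0, 0, 0, 0, 0, 25, -11, 0, 0, 0, 0, -1, 0, 0, 0, 0, 0, 0, 0⟩,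
  ⟨0, 0, 0, 0, 0, 0, 0, 0, 0, 0, 0, 0, 0, 0, 0, -25, -11, 0, 0, 0, 0, -1, 0, 0, 0, 0, 0, 0, 0⟩,
  ⟨0, 0, 0, 0, 0, 0, 0, 0, 0, 0, 0, 0, 0, 0, 0, 43, 0, 0, 0, 0, 0, -1, 0, 0, 0, 0, 0, 0, 0⟩,
  ⟨0, 0, 0, 0, 0, 0, 0, 0, 0, 0, 0, 0, 0, 0, 0, -43, 0, 0, 0, 0, 0, -1, 0, 0, 0, 0, 0, 0, 0⟩,
  ⟨0, 0, 0, 0, 0, 0, 0, 0, 0, 0, 0, 0, 0, 0, 0, 75, 25, 0, 0, 0, 0, -1, 0, 0, 0, 0, 0, 0, 0⟩,
  ⟨0, 0, 0, 0, 0, 0, 0, 0, 0, 0, 0, 0, 0, 0, 0, -75, 25, 0, 0, 0, 0, -1, 0, 0, 0, 0, 0, 0, 0⟩,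
  ⟨0, 0, 0, 0, 0, 0, 0, 0, 0, 0, 0, 0, 0, 0, 0, 56, 56, 0, 0, 0, 0, -1, 0, 0, 0, 0, 0, 0, 0⟩,
  ⟨0, 0, 0, 0, 0, 0, 0, 0, 0, 0, 0, 0, 0, 0, 0, -56, 56, 0, 0, 0, 0, -1, 0, 0, 0, 0, 0, 0, 0⟩,
  ⟨0, 0, 0, 0, 0, 0, 0, 0, 0, 0, 0, 0, 0, 0, 0, 0, 112, 0, 0, 0, 0, -1, 0, 0, 0, 0, 0, 0, 0⟩,
  ⟨0, 0, 0, 0, 0, 0, 0, 0, 0, 0, 0, 0, 0, 0, 0, 0, 0, 0, 0, 0, 3, 0, 0, 0, 0, 0, 0, 0, -50⟩,
  ⟨0, 0, 0, 0, 0, 0, 0, 0, 0, 0, 0, 0, 0, 0, 0, 0, 0, 0, 0, 0, 0, 3, 0, 0, 0, 0, 0, 0, -50⟩,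
  ⟨0, 0, 0, 0, 0, 0, 0, 0, 0, 0, 0, 0, 0, 69, 0, -69, 0, 0, 0, 0, 0, 0, 0, 0, 0, 0, 0, -10, -11⟩,
  ⟨0, 0, 0, 0, 0, 0, 0, 0, 0, 0, 0, 0, 0, 68, 7, -68, -7, 0, 0, 0, 0, 0, 0, 0, 0, 0, 0, -10, -5⟩,
  ⟨0, 0, 0, 0, 0, 0, 0, 0, 0, 0, 0, 0, 0, 32, 7, -32, -7, 0, 0, 0, 0, 0, 0, 0, 0, 0, 0, -5, -1⟩,
  ⟨0, 0, 0, 0, 0, 0, 0, 0, 0, 0, 0, 0, 0, 6, 2, -6, -2, 0, 0, 0, 0, 0, 0, 0, 0, 0, 0, -1, 0⟩,
  ⟨0, 0, 0, 0, 0, 0, 0, 0, 0, 0, 0, 0, 0, 26, 13, -26, -13, 0, 0, 0, 0, 0, 0, 0, 0, 0, 0, -5, -1⟩,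
  ⟨0, 0, 0, 0, 0, 0, 0, 0, 0, 0, 0, 0, 0, 43, 31, -43, -31, 0, 0, 0, 0, 0, 0, 0, 0, 0, 0, -10, -6⟩,
  ⟨0, 0, 0, 0, 0, 0, 0, 0, 0, 0, 0, 0, 0, 35, 34, -35, -34, 0, 0, 0, 0, 0, 0, 0, 0, 0, 0, -10, -11⟩,
  ⟨0, 0, 0, 0, 0, 0, 0, 0, 0, 0, 0, 0, 0, 0, 0, 0, 0, 0, 0, 0, 0, 0, 0, 0, 0, 0, 0, 25, -94⟩,
  ⟨0, 0, 0, 0, 0, 0, 0, 0, 0, -1, 0, 0, 0, -6, -2, 6, 2, 0, 0, 0, 0, 0, 0, 0, 0, 0, 0, 0, 0⟩,
  ⟨0, 433, 0, 0, 0, 0, 0, 0, 0, 0, -125, 0, 0, 433, 433, -116, -250, 0, 0, 0, 0, 0, 0, 0, 0, 0, 0, 0, 241⟩,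
  ⟨0, 2598, 0, 0, 0, 0, 0, 0, 0, 0, -625, 0, 0, 2598, 2598, -1446, -1250, 0, 0, 0, 0, 0, 0, 0, 0, 0, 0, 0, 1796⟩,
  ⟨0, 3031, 0, 0, 0, 0, 0, 0, 0, 0, -625, 0, 0, 3031, 3031, -2312, -1250, 0, 0, 0, 0, 0, 0, 0, 0, 0, 0, 0, 2337⟩,
  ⟨0, 3464, 0, 0, 0, 0, 0, 0, 0, 0, -625, 0, 0, 3464, 3464, -3178, -1250, 0, 0, 0, 0, 0, 0, 0, 0, 0, 0, 0, 2828⟩,
  ⟨0, 75342, 0, 0, 0, 0, 0, 0, 0, 0, -12500, 0, 0, 75342, 75342, -75684, -25000, 0, 0, 0, 0, 0, 0, 0, 0, 0, 0, 0, 62839⟩,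
  ⟨0, 78806, 0, 0, 0, 0, 0, 0, 0, 0, -12500, 0, 0, 78806, 78806, -82612, -25000, 0, 0, 0, 0, 0, 0, 0, 0, 0, 0, 0, 66207⟩,
  ⟨0, 16454, 0, 0, 0, 0, 0, 0, 0, 0, -2500, 0, 0, 16454, 16454, -17908, -5000, 0, 0, 0, 0, 0, 0, 0, 0, 0, 0, 0, 13883⟩,
  ⟨0, 85734, 0, 0, 0, 0, 0, 0, 0, 0, -12500, 0, 0, 85734, 85734, -96468, -25000, 0, 0, 0, 0, 0, 0, 0, 0, 0, 0, 0, 72463⟩,
  ⟨0, 89198, 0, 0, 0, 0, 0, 0, 0, 0, -12500, 0, 0, 89198, 89198, -103396, -25000, 0, 0, 0, 0, 0, 0, 0, 0, 0, 0, 0, 75351⟩,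
  ⟨0, 92662, 0, 0, 0, 0, 0, 0, 0, 0, -12500, 0, 0, 92662, 92662, -110324, -25000, 0, 0, 0, 0, 0, 0, 0, 0, 0, 0, 0, 78079⟩,
  ⟨0, 96126, 0, 0, 0, 0, 0, 0, 0, 0, -12500, 0, 0, 96126, 96126, -117252, -25000, 0, 0, 0, 0, 0, 0, 0, 0, 0, 0, 0, 80647⟩,
  ⟨0, 19918, 0, 0, 0, 0, 0, 0, 0, 0, -2500, 0, 0, 19918, 19918, -24836, -5000, 0, 0, 0, 0, 0, 0, 0, 0, 0, 0, 0, 16611⟩,
  ⟨0, 103054, 0, 0, 0, 0, 0, 0, 0, 0, -12500, 0, 0, 103054, 103054, -131108, -25000, 0, 0, 0, 0, 0, 0, 0, 0, 0, 0, 0, 85303⟩]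

def tree_G0 : Tree := .N 2 (.N 4 (.N 2 (.N 3 (.L [(20, 2791), (25, 931), (34, 71138), (47, 4)]) (.L [(34, 9367), (45, 1)])) (.L [(0, 6774), (20, 707), (24, 2259), (25, 236), (34, 21077), (47, 2)])) (.L [(34, 14051), (40, 1)])) (.L [(34, 21077), (43, 3), (44, 1)])

def box_G0 : Box := ⟨0, 0, 0, 0, -416, 416, -720, 176, -416, 416, -720, 176, 0, 0, 0, 0⟩

theorem ok_G0 : tree_G0.check 1024 rows_G0 box_G0 = true := by decide +kernel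

theorem G0s {X2 Y2 X3 Y3 V2 V3 k : ℝ} (h2 : VLe X2 Y2 V2) (h3 : VLe X3 Y3 V3) (b2 : V2 ≤ 1 / 3) (b3 : V3 ≤ 1 / 3)
    (hk : Str (-1 + X3 - X2) (-1 + Y3 - Y2) k) (kk : k ≤ 47 / 625) (g : 4 ≤ 3 * (-1 + X3 - X2) ^ 2 + (-1 + Y3 - Y2) ^ 2)
    (hd : ∀ m : ℝ, 0 < m → 433 / 250 * m * (X2 * (1 + Y3) - (2 + Y2) * (-1 + X3))
      ≤ 1 / 2 * (3 * (-1 + X3) ^ 2 + (1 + Y3) ^ 2 + m ^ 2)) : False := by
  have hH : Hyp rows_G0 ⟨0, 0, X2, Y2, X3, Y3, 0, 0, 0, 50 * V2, 50 * V3, 0, 0, 0, 0, 0, 50 * k⟩ := by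
    refine ⟨?_, le_rfl, by have := h2.f0; simp only; linarith, by have := h3.f0; simp only; linarith, le_rfl, le_rfl, le_rfl,
      le_rfl, le_rfl, by have := hk.1; simp only; linarith⟩
    intro R hR
    simp only [rows_G0, List.mem_cons, List.not_mem_nil, or_false] at hR
    rcases hR with rfl | rfl | rfl | rfl | rfl | rfl | rfl | rfl | rfl | rfl | rfl | rfl | rfl | rfl | rfl | rfl | rfl | rfl | rfl | rfl | rfl | rfl | rfl | rfl | rfl | rfl | rfl | rfl | rfl | rfl | rfl | rfl | rfl | rfl | rfl | rfl | rfl | rfl | rfl | rfl | rfl | rfl | rfl | rfl | rfl | rfl | rfl | rfl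
    · simp only [Row.ev]; push_cast; linarith [h2.f1]
    · simp only [Row.ev]; push_cast; linarith [h2.f2]
    · simp only [Row.ev]; push_cast; linarith [h2.f3]
    · simp only [Row.ev]; push_cast; linarith [h2.f4]
    · simp only [Row.ev]; push_cast; linarith [h2.f5]
    · simp only [Row.ev]; push_cast; linarith [h2.f6]
    · simp only [Row.ev]; push_cast; linarith [h2.f7]
    · simp only [Row.ev]; push_cast; linarith [h2.f8]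
    · simp only [Row.ev]; push_cast; linarith [h2.f9]
    · simp only [Row.ev]; push_cast; linarith [h2.f10]
    · simp only [Row.ev]; push_cast; linarith [h2.f11]
    · simp only [Row.ev]; push_cast; linarith [h2.f12]
    · simp only [Row.ev]; push_cast; linarith [h3.f1]
    · simp only [Row.ev]; push_cast; linarith [h3.f2]
    · simp only [Row.ev]; push_cast; linarith [h3.f3]
    · simp only [Row.ev]; push_cast; linarith [h3.f4]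
    · simp only [Row.ev]; push_cast; linarith [h3.f5]
    · simp only [Row.ev]; push_cast; linarith [h3.f6]
    · simp only [Row.ev]; push_cast; linarith [h3.f7]
    · simp only [Row.ev]; push_cast; linarith [h3.f8]
    · simp only [Row.ev]; push_cast; linarith [h3.f9]
    · simp only [Row.ev]; push_cast; linarith [h3.f10]
    · simp only [Row.ev]; push_cast; linarith [h3.f11]
    · simp only [Row.ev]; push_cast; linarith [h3.f12]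
    · simp only [Row.ev]; push_cast; linarith [b2]
    · simp only [Row.ev]; push_cast; linarith [b3]
    · simp only [Row.ev]; push_cast; linarith [hk.2 (-69) (0) (by norm_num)]
    · simp only [Row.ev]; push_cast; linarith [hk.2 (-68) (-7) (by norm_num)]
    · simp only [Row.ev]; push_cast; linarith [hk.2 (-64) (-14) (by norm_num)]
    · simp only [Row.ev]; push_cast; linarith [hk.2 (-60) (-20) (by norm_num)]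
    · simp only [Row.ev]; push_cast; linarith [hk.2 (-52) (-26) (by norm_num)]
    · simp only [Row.ev]; push_cast; linarith [hk.2 (-43) (-31) (by norm_num)]
    · simp only [Row.ev]; push_cast; linarith [hk.2 (-35) (-34) (by norm_num)]
    · simp only [Row.ev]; push_cast; linarith [kk]
    · simp only [Row.ev]; push_cast; linarith [g]
    · simp only [Row.ev]; push_cast; linarith [hd 1 (by norm_num)]
    · simp only [Row.ev]; push_cast; linarith [hd (6 / 5) (by norm_num)]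
    · simp only [Row.ev]; push_cast; linarith [hd (7 / 5) (by norm_num)]
    · simp only [Row.ev]; push_cast; linarith [hd (8 / 5) (by norm_num)]
    · simp only [Row.ev]; push_cast; linarith [hd (87 / 50) (by norm_num)]
    · simp only [Row.ev]; push_cast; linarith [hd (91 / 50) (by norm_num)]
    · simp only [Row.ev]; push_cast; linarith [hd (19 / 10) (by norm_num)]
    · simp only [Row.ev]; push_cast; linarith [hd (99 / 50) (by norm_num)]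
    · simp only [Row.ev]; push_cast; linarith [hd (103 / 50) (by norm_num)]
    · simp only [Row.ev]; push_cast; linarith [hd (107 / 50) (by norm_num)]
    · simp only [Row.ev]; push_cast; linarith [hd (111 / 50) (by norm_num)]
    · simp only [Row.ev]; push_cast; linarith [hd (23 / 10) (by norm_num)]
    · simp only [Row.ev]; push_cast; linarith [hd (119 / 50) (by norm_num)]
  refine tree_sound (D := 1024) hH tree_G0 box_G0 ok_G0 ?_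
  constructor <;> simp only [box_G0] <;> push_cast
  · constructor <;> linarith
  · constructor <;> linarith
  · constructor <;> linarith [h2.f6, h2.f7]
  · constructor <;> linarith [h2.f1, h2.f12]
  · constructor <;> linarith [h3.f6, h3.f7]
  · constructor <;> linarith [h3.f1, h3.f12]
  · constructor <;> linarith
  · constructor <;> linarith

def rows_GP : List Row := [
  ⟨0, 0, 0, 0, 0, 0, 0, 0, 0, 0, 0, 0, 0, 0, -24, 0, 0, 0, 0, 0, -1, 0, 0, 0, 0, 0, 0, 0, 0⟩,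
  ⟨0, 0, 0, 0, 0, 0, 0, 0, 0, 0, 0, 0, 0, 16, -16, 0, 0, 0, 0, 0, -1, 0, 0, 0, 0, 0, 0, 0, 0⟩,
  ⟨0, 0, 0, 0, 0, 0, 0, 0, 0, 0, 0, 0, 0, -16, -16, 0, 0, 0, 0, 0, -1, 0, 0, 0, 0, 0, 0, 0, 0⟩,
  ⟨0, 0, 0, 0, 0, 0, 0, 0, 0, 0, 0, 0, 0, 25, -11, 0, 0, 0, 0, 0, -1, 0, 0, 0, 0, 0, 0, 0, 0⟩,
  ⟨0, 0, 0, 0, 0, 0, 0, 0, 0, 0, 0, 0, 0, -25, -11, 0, 0, 0, 0, 0, -1, 0, 0, 0, 0, 0, 0, 0, 0⟩,
  ⟨0, 0, 0, 0, 0, 0, 0, 0, 0, 0, 0, 0, 0, 43, 0, 0, 0, 0, 0, 0, -1, 0, 0, 0, 0, 0, 0, 0, 0⟩,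
  ⟨0, 0, 0, 0, 0, 0, 0, 0, 0, 0, 0, 0, 0, -43, 0, 0, 0, 0, 0, 0, -1, 0, 0, 0, 0, 0, 0, 0, 0⟩,
  ⟨0, 0, 0, 0, 0, 0, 0, 0, 0, 0, 0, 0, 0, 75, 25, 0, 0, 0, 0, 0, -1, 0, 0, 0, 0, 0, 0, 0, 0⟩,
  ⟨0, 0, 0, 0, 0, 0, 0, 0, 0, 0, 0, 0, 0, -75, 25, 0, 0, 0, 0, 0, -1, 0, 0, 0, 0, 0, 0, 0, 0⟩,
  ⟨0, 0, 0, 0, 0, 0, 0, 0, 0, 0, 0, 0, 0, 56, 56, 0, 0, 0, 0, 0, -1, 0, 0, 0, 0, 0, 0, 0, 0⟩,
  ⟨0, 0, 0, 0, 0, 0, 0, 0, 0, 0, 0, 0, 0, -56, 56, 0, 0, 0, 0, 0, -1, 0, 0, 0, 0, 0, 0, 0, 0⟩,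
  ⟨0, 0, 0, 0, 0, 0, 0, 0, 0, 0, 0, 0, 0, 0, 112, 0, 0, 0, 0, 0, -1, 0, 0, 0, 0, 0, 0, 0, 0⟩,
  ⟨0, 0, 0, 0, 0, 0, 0, 0, 0, 0, 0, 0, 0, 0, 0, 0, -24, 0, 0, 0, 0, -1, 0, 0, 0, 0, 0, 0, 0⟩,
  ⟨0, 0, 0, 0, 0, 0, 0, 0, 0, 0, 0, 0, 0, 0, 0, 16, -16, 0, 0, 0, 0, -1, 0, 0, 0, 0, 0, 0, 0⟩,
  ⟨0, 0, 0, 0, 0, 0, 0, 0, 0, 0, 0, 0, 0, 0, 0, -16, -16, 0, 0, 0, 0, -1, 0, 0, 0, 0, 0, 0, 0⟩,
  ⟨0, 0, 0, 0, 0, 0, 0, 0, 0, 0, 0, 0, 0, 0, 0, 25, -11, 0, 0, 0, 0, -1, 0, 0, 0, 0, 0, 0, 0⟩,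
  ⟨0, 0, 0, 0, 0, 0, 0, 0, 0, 0, 0, 0, 0, 0, 0, -25, -11, 0, 0, 0, 0, -1, 0, 0, 0, 0, 0, 0, 0⟩,
  ⟨0, 0, 0, 0, 0, 0, 0, 0, 0, 0, 0, 0, 0, 0, 0, 43, 0, 0, 0, 0, 0, -1, 0, 0, 0, 0, 0, 0, 0⟩,
  ⟨0, 0, 0, 0, 0, 0, 0, 0, 0, 0, 0, 0, 0, 0, 0, -43, 0, 0, 0, 0, 0, -1, 0, 0, 0, 0, 0, 0, 0⟩,
  ⟨0, 0, 0, 0, 0, 0, 0, 0, 0, 0, 0, 0, 0, 0, 0, 75, 25, 0, 0, 0, 0, -1, 0, 0, 0, 0, 0, 0, 0⟩,
  ⟨0, 0, 0, 0, 0, 0, 0, 0, 0, 0, 0, 0, 0, 0, 0, -75, 25, 0, 0, 0, 0, -1, 0, 0, 0, 0, 0, 0, 0⟩,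
  ⟨0, 0, 0, 0, 0, 0, 0, 0, 0, 0, 0, 0, 0, 0, 0, 56, 56, 0, 0, 0, 0, -1, 0, 0, 0, 0, 0, 0, 0⟩,
  ⟨0, 0, 0, 0, 0, 0, 0, 0, 0, 0, 0, 0, 0, 0, 0, -56, 56, 0, 0, 0, 0, -1, 0, 0, 0, 0, 0, 0, 0⟩,
  ⟨0, 0, 0, 0, 0, 0, 0, 0, 0, 0, 0, 0, 0, 0, 0, 0, 112, 0, 0, 0, 0, -1, 0, 0, 0, 0, 0, 0, 0⟩,
  ⟨0, 0, 0, 0, 0, 0, 0, 0, 0, 0, 0, 0, 0, 0, 0, 0, 0, 0, 0, 0, 3, 0, 0, 0, 0, 0, 0, 0, -50⟩,
  ⟨0, 0, 0, 0, 0, 0, 0, 0, 0, 0, 0, 0, 0, 0, 0, 0, 0, 0, 0, 0, 0, 3, 0, 0, 0, 0, 0, 0, -50⟩,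
  ⟨0, 0, 0, 0, 0, 0, 0, 0, 0, 0, 0, 0, 0, 69, 0, -69, 0, 0, 0, 0, 0, 0, 0, 0, 0, 0, 0, -10, -11⟩,
  ⟨0, 0, 0, 0, 0, 0, 0, 0, 0, 0, 0, 0, 0, 68, 7, -68, -7, 0, 0, 0, 0, 0, 0, 0, 0, 0, 0, -10, -5⟩,
  ⟨0, 0, 0, 0, 0, 0, 0, 0, 0, 0, 0, 0, 0, 32, 7, -32, -7, 0, 0, 0, 0, 0, 0, 0, 0, 0, 0, -5, -1⟩,
  ⟨0, 0, 0, 0, 0, 0, 0, 0, 0, 0, 0, 0, 0, 6, 2, -6, -2, 0, 0, 0, 0, 0, 0, 0, 0, 0, 0, -1, 0⟩,
  ⟨0, 0, 0, 0, 0, 0, 0, 0, 0, 0, 0, 0, 0, 26, 13, -26, -13, 0, 0, 0, 0, 0, 0, 0, 0, 0, 0, -5, -1⟩,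
  ⟨0, 0, 0, 0, 0, 0, 0, 0, 0, 0, 0, 0, 0, 43, 31, -43, -31, 0, 0, 0, 0, 0, 0, 0, 0, 0, 0, -10, -6⟩,
  ⟨0, 0, 0, 0, 0, 0, 0, 0, 0, 0, 0, 0, 0, 35, 34, -35, -34, 0, 0, 0, 0, 0, 0, 0, 0, 0, 0, -10, -11⟩,
  ⟨0, 0, 0, 0, 0, 0, 0, 0, 0, 0, 0, 0, 0, 0, 0, 0, 0, 0, 0, 0, 0, 0, 0, 0, 0, 0, 0, 25, -94⟩,
  ⟨0, 0, 0, 0, 0, 0, 0, 0, 0, -1, 0, 0, 0, -6, -2, 6, 2, 0, 0, 0, 0, 0, 0, 0, 0, 0, 0, 0, 0⟩,
  ⟨0, 8660, 0, 0, 0, 0, 0, 0, 0, 0, -2500, 0, 0, 7794, 8660, -1454, -4500, 0, 0, 0, 0, 0, 0, 0, 0, 0, 0, 0, 4429⟩,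
  ⟨0, 51960, 0, 0, 0, 0, 0, 0, 0, 0, -12500, 0, 0, 46764, 51960, -23724, -22500, 0, 0, 0, 0, 0, 0, 0, 0, 0, 0, 0, 33099⟩,
  ⟨0, 60620, 0, 0, 0, 0, 0, 0, 0, 0, -12500, 0, 0, 54558, 60620, -40178, -22500, 0, 0, 0, 0, 0, 0, 0, 0, 0, 0, 0, 43053⟩,
  ⟨0, 69280, 0, 0, 0, 0, 0, 0, 0, 0, -12500, 0, 0, 62352, 69280, -56632, -22500, 0, 0, 0, 0, 0, 0, 0, 0, 0, 0, 0, 52007⟩,
  ⟨0, 376710, 0, 0, 0, 0, 0, 0, 0, 0, -62500, 0, 0, 339039, 376710, -340749, -112500, 0, 0, 0, 0, 0, 0, 0, 0, 0, 0, 0, 288399⟩,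
  ⟨0, 394030, 0, 0, 0, 0, 0, 0, 0, 0, -62500, 0, 0, 354627, 394030, -373657, -112500, 0, 0, 0, 0, 0, 0, 0, 0, 0, 0, 0, 303507⟩,
  ⟨0, 82270, 0, 0, 0, 0, 0, 0, 0, 0, -12500, 0, 0, 74043, 82270, -81313, -22500, 0, 0, 0, 0, 0, 0, 0, 0, 0, 0, 0, 63563⟩,
  ⟨0, 428670, 0, 0, 0, 0, 0, 0, 0, 0, -62500, 0, 0, 385803, 428670, -439473, -112500, 0, 0, 0, 0, 0, 0, 0, 0, 0, 0, 0, 331323⟩,
  ⟨0, 445990, 0, 0, 0, 0, 0, 0, 0, 0, -62500, 0, 0, 401391, 445990, -472381, -112500, 0, 0, 0, 0, 0, 0, 0, 0, 0, 0, 0, 344031⟩,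
  ⟨0, 463310, 0, 0, 0, 0, 0, 0, 0, 0, -62500, 0, 0, 416979, 463310, -505289, -112500, 0, 0, 0, 0, 0, 0, 0, 0, 0, 0, 0, 355939⟩,
  ⟨0, 480630, 0, 0, 0, 0, 0, 0, 0, 0, -62500, 0, 0, 432567, 480630, -538197, -112500, 0, 0, 0, 0, 0, 0, 0, 0, 0, 0, 0, 367047⟩,
  ⟨0, 99590, 0, 0, 0, 0, 0, 0, 0, 0, -12500, 0, 0, 89631, 99590, -114221, -22500, 0, 0, 0, 0, 0, 0, 0, 0, 0, 0, 0, 75471⟩,
  ⟨0, 515270, 0, 0, 0, 0, 0, 0, 0, 0, -62500, 0, 0, 463743, 515270, -604013, -112500, 0, 0, 0, 0, 0, 0, 0, 0, 0, 0, 0, 386863⟩]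

def tree_GP : Tree := .N 3 (.N 4 (.N 2 (.N 5 (.L [(0, 225306), (20, 15425), (24, 75103), (25, 5142), (34, 540215), (47, 13)]) (.N 2 (.L [(0, 320613), (20, 89296), (24, 106872), (25, 29766), (34, 1823228), (47, 19)]) (.N 4 (.L [(0, 8296), (20, 1499), (24, 2766), (25, 500), (34, 21077), (46, 2)]) (.L [(20, 93), (25, 32), (34, 31616), (46, 2)])))) (.L [(34, 6244), (44, 1)])) (.N 2 (.L [(34, 71138), (40, 1)]) (.L [(34, 21077), (39, 1)]))) (.L [(34, 240095), (38, 14), (39, 4)])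

def box_GP : Box := ⟨0, 0, 0, 0, -416, 416, -720, 176, -416, 416, -720, 176, 0, 0, 0, 0⟩

theorem ok_GP : tree_GP.check 1024 rows_GP box_GP = true := by decide +kernel

theorem GPs {X2 Y2 X3 Y3 V2 V3 k : ℝ} (h2 : VLe X2 Y2 V2) (h3 : VLe X3 Y3 V3) (b2 : V2 ≤ 1 / 3) (b3 : V3 ≤ 1 / 3)
    (hk : Str (-1 + X3 - X2) (-1 + Y3 - Y2) k) (kk : k ≤ 47 / 625) (g : 4 ≤ 3 * (-1 + X3 - X2) ^ 2 + (-1 + Y3 - Y2) ^ 2)
    (hd : ∀ m : ℝ, 0 < m → 433 / 250 * m * (X2 * (1 + Y3 - 1 / 10) - (2 + Y2 - 1 / 10) * (-1 + X3))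
      ≤ 1 / 2 * (3 * (-1 + X3) ^ 2 + (1 + Y3 - 1 / 10) ^ 2 + m ^ 2)) : False := by
  have hH : Hyp rows_GP ⟨0, 0, X2, Y2, X3, Y3, 0, 0, 0, 50 * V2, 50 * V3, 0, 0, 0, 0, 0, 50 * k⟩ := by
    refine ⟨?_, le_rfl, by have := h2.f0; simp only; linarith, by have := h3.f0; simp only; linarith, le_rfl, le_rfl, le_rfl,
      le_rfl, le_rfl, by have := hk.1; simp only; linarith⟩
    intro R hR
    simp only [rows_GP, List.mem_cons, List.not_mem_nil, or_false] at hR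
    rcases hR with rfl | rfl | rfl | rfl | rfl | rfl | rfl | rfl | rfl | rfl | rfl | rfl | rfl | rfl | rfl | rfl | rfl | rfl | rfl | rfl | rfl | rfl | rfl | rfl | rfl | rfl | rfl | rfl | rfl | rfl | rfl | rfl | rfl | rfl | rfl | rfl | rfl | rfl | rfl | rfl | rfl | rfl | rfl | rfl | rfl | rfl | rfl | rfl
    · simp only [Row.ev]; push_cast; linarith [h2.f1]
    · simp only [Row.ev]; push_cast; linarith [h2.f2]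
    · simp only [Row.ev]; push_cast; linarith [h2.f3]
    · simp only [Row.ev]; push_cast; linarith [h2.f4]
    · simp only [Row.ev]; push_cast; linarith [h2.f5]
    · simp only [Row.ev]; push_cast; linarith [h2.f6]
    · simp only [Row.ev]; push_cast; linarith [h2.f7]
    · simp only [Row.ev]; push_cast; linarith [h2.f8]
    · simp only [Row.ev]; push_cast; linarith [h2.f9]
    · simp only [Row.ev]; push_cast; linarith [h2.f10]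
    · simp only [Row.ev]; push_cast; linarith [h2.f11]
    · simp only [Row.ev]; push_cast; linarith [h2.f12]
    · simp only [Row.ev]; push_cast; linarith [h3.f1]
    · simp only [Row.ev]; push_cast; linarith [h3.f2]
    · simp only [Row.ev]; push_cast; linarith [h3.f3]
    · simp only [Row.ev]; push_cast; linarith [h3.f4]
    · simp only [Row.ev]; push_cast; linarith [h3.f5]
    · simp only [Row.ev]; push_cast; linarith [h3.f6]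
    · simp only [Row.ev]; push_cast; linarith [h3.f7]
    · simp only [Row.ev]; push_cast; linarith [h3.f8]
    · simp only [Row.ev]; push_cast; linarith [h3.f9]
    · simp only [Row.ev]; push_cast; linarith [h3.f10]
    · simp only [Row.ev]; push_cast; linarith [h3.f11]
    · simp only [Row.ev]; push_cast; linarith [h3.f12]
    · simp only [Row.ev]; push_cast; linarith [b2]
    · simp only [Row.ev]; push_cast; linarith [b3]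
    · simp only [Row.ev]; push_cast; linarith [hk.2 (-69) (0) (by norm_num)]
    · simp only [Row.ev]; push_cast; linarith [hk.2 (-68) (-7) (by norm_num)]
    · simp only [Row.ev]; push_cast; linarith [hk.2 (-64) (-14) (by norm_num)]
    · simp only [Row.ev]; push_cast; linarith [hk.2 (-60) (-20) (by norm_num)]
    · simp only [Row.ev]; push_cast; linarith [hk.2 (-52) (-26) (by norm_num)]
    · simp only [Row.ev]; push_cast; linarith [hk.2 (-43) (-31) (by norm_num)]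
    · simp only [Row.ev]; push_cast; linarith [hk.2 (-35) (-34) (by norm_num)]
    · simp only [Row.ev]; push_cast; linarith [kk]
    · simp only [Row.ev]; push_cast; linarith [g]
    · simp only [Row.ev]; push_cast; linarith [hd 1 (by norm_num)]
    · simp only [Row.ev]; push_cast; linarith [hd (6 / 5) (by norm_num)]
    · simp only [Row.ev]; push_cast; linarith [hd (7 / 5) (by norm_num)]
    · simp only [Row.ev]; push_cast; linarith [hd (8 / 5) (by norm_num)]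
    · simp only [Row.ev]; push_cast; linarith [hd (87 / 50) (by norm_num)]
    · simp only [Row.ev]; push_cast; linarith [hd (91 / 50) (by norm_num)]
    · simp only [Row.ev]; push_cast; linarith [hd (19 / 10) (by norm_num)]
    · simp only [Row.ev]; push_cast; linarith [hd (99 / 50) (by norm_num)]
    · simp only [Row.ev]; push_cast; linarith [hd (103 / 50) (by norm_num)]
    · simp only [Row.ev]; push_cast; linarith [hd (107 / 50) (by norm_num)]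
    · simp only [Row.ev]; push_cast; linarith [hd (111 / 50) (by norm_num)]
    · simp only [Row.ev]; push_cast; linarith [hd (23 / 10) (by norm_num)]
    · simp only [Row.ev]; push_cast; linarith [hd (119 / 50) (by norm_num)]
  refine tree_sound (D := 1024) hH tree_GP box_GP ok_GP ?_
  constructor <;> simp only [box_GP] <;> push_cast
  · constructor <;> linarith
  · constructor <;> linarith
  · constructor <;> linarith [h2.f6, h2.f7]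
  · constructor <;> linarith [h2.f1, h2.f12]
  · constructor <;> linarith [h3.f6, h3.f7]
  · constructor <;> linarith [h3.f1, h3.f12]
  · constructor <;> linarith
  · constructor <;> linarith

def rows_B4 : List Row := cB ++ [
  ⟨0, 0, 0, 0, 0, 0, 0, 0, 0, 0, 0, 0, 0, 0, 0, -30, 10, 0, 0, 0, 0, 0, 0, 0, 0, 0, 0, 0, 11⟩]

def tree_B4 : Tree := .N 6 (.N 4 (.L [(93, 1)]) (.N 6 (.N 7 (.N 5 (.L [(82, 2081), (84, 1), (93, 56)]) (.L [(34, 128), (59, 43), (82, 1849), (84, 1), (93, 368)])) (.L [(34, 59), (59, 20), (82, 1232), (93, 190)])) (.N 7 (.N 0 (.L [(0, 32), (14, 94), (42, 94), (82, 90), (83, 2774), (84, 1)]) (.N 6 (.N 4 (.L [(0, 380), (10, 951), (12, 185), (42, 1137), (82, 14051), (83, 8968), (84, 8), (93, 6224)]) (.N 5 (.N 7 (.L [(0, 53), (2, 13), (10, 118), (12, 38), (34, 36), (41, 36), (42, 156), (46, 36),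 (82, 910), (83, 1232), (84, 1)]) (.L [(0, 68), (2, 3), (10, 179), (12, 22), (34, 6), (41, 6), (42, 202), (46, 6), (82, 1849), (83, 1625), (84, 1)])) (.N 7 (.L [(0, 35), (2, 19), (10, 73), (12, 28), (34, 55), (41, 55), (42, 102), (46, 55), (83, 821), (84, 1), (93, 22)]) (.L [(0, 110), (2, 107), (10, 258), (12, 71), (34, 318), (41, 318), (42, 329), (46, 318), (82, 2729), (83, 2774), (84, 2), (93, 716)])))) (.L [(0, 524), (2, 85), (10, 1094), (12, 477), (34, 254), (41, 254), (42, 1571), (46, 254), (83, 14051), (84, 4)]))) (.L [(0, 9), (2, 6), (10, 21), (12, 4), (34, 17), (41, 17), (42, 25), (46, 17), (82, 547), (83, 265), (93, 112)])))) (.L [(0, 5), (12, 13), (42, 14), (83, 242), (93, 3)])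

theorem ok_B4 : tree_B4.check 1024 rows_B4 box0 = true := by decide +kernel

theorem B4s {X1 Y1 X2 Y2 X3 Y3 a b V1 V2 V3 p q r s h k : ℝ}
    (c : BCfg X1 Y1 X2 Y2 X3 Y3 a b V1 V2 V3 p q r s h k)
    (ht : 3 * (1 - X3) + (1 + Y3 - 1 / 10) ≤ 14 / 5) : False := by
  have hH : Hyp rows_B4 (BCfg.pt X1 Y1 X2 Y2 X3 Y3 a b V1 V2 V3 p q r s h k) := by
    refine c.hyp ?_
    intro R hR
    simp only [List.mem_cons, List.not_mem_nil, or_false] at hR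
    subst hR
    · simp only [Row.ev, BCfg.pt]; push_cast; linarith [ht]
  refine tree_sound (D := 1024) hH tree_B4 box0 ok_B4 ?_
  simpa only [BCfg.pt, Int.cast_ofNat] using c.inbox

variable {v1 v2 v3 u : ℂ}

/-- (B4) -/
theorem FarH.B4 (H : FarH v1 v2 v3 u) : 7 / 10 ≤ ‖d3 + v3 - pB‖ := by
  by_contra hcon
  push Not at hcon
  refine B4s H.cfg ?_
  have r30 : 2 * (d3 + v3 - pB).re / √3 = -1 + 2 * v3.re / √3 := by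
    have := s3p.ne'
    simp only [d3, pB, Complex.add_re, Complex.sub_re]; field_simp; ring
  have i30 : 2 * (d3 + v3 - pB).im = 1 + 2 * v3.im - 1 / 10 := by
    simp only [d3, pB, Complex.add_im, Complex.sub_im]; ring
  have N := nrm (d3 + v3 - pB)
  rw [r30, i30] at N
  have h1 : ‖d3 + v3 - pB‖ ^ 2 ≤ (7 / 10) ^ 2 := pow_le_pow_left₀ (norm_nonneg _) hcon.le 2
  set X := -1 + 2 * v3.re / √3
  set Y := 1 + 2 * v3.im - 1 / 10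
  have h2 : 3 * X ^ 2 + Y ^ 2 ≤ 49 / 25 := by linarith
  have h3 : (3 * (-X) + Y) ^ 2 ≤ (14 / 5) ^ 2 := by nlinarith [sq_nonneg (X + Y)]
  have h4 := abs_le_of_sq_le_sq h3 (by norm_num)
  have h5 := le_trans (le_abs_self _) h4
  have e : 3 * (1 - 2 * v3.re / √3) + Y = 3 * (-X) + Y := by simp only [X]; ring
  rw [e]; exact h5

/-- (B4), mirrored -/
theorem FarR.B4 (H : FarR v1 v2 v3 u) : 7 / 10 ≤ ‖d1 + v1 - pB‖ := by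
  have := H.mir.B4
  rwa [m3, mp, mu_norm] at this

theorem g3_0 (h2 : V30 v2 ≤ 1 / 3) (h3 : V30 v3 ≤ 1 / 3) (e : 1 ≤ ‖(d3 + v3) - (d2 + v2)‖)
    (e' : ‖(d3 + v3) - (d2 + v2)‖ ≤ 147 / 100) : 1 / 2 * ‖d3 + v3‖ ≤ cr (d2 + v2) (d3 + v3) := by
  by_contra hcon
  push Not at hcon
  have hs := s3
  have hp := s3p
  have hne := hp.ne'
  have r30 : 2 * (d3 + v3).re / √3 = -1 + 2 * v3.re / √3 := by simp only [d3, Complex.add_re]; field_simp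
  have i30 : 2 * (d3 + v3).im = 1 + 2 * v3.im := by simp only [d3, Complex.add_im]; ring
  have r20 : 2 * (d2 + v2).re / √3 = 2 * v2.re / √3 := by simp only [d2, Complex.add_re]; ring
  have i20 : 2 * (d2 + v2).im = 2 + 2 * v2.im := by simp only [d2, Complex.add_im]; ring
  have r23 : 2 * ((d3 + v3) - (d2 + v2)).re / √3 = -1 + 2 * v3.re / √3 - 2 * v2.re / √3 := by
    simp only [d3, d2, Complex.sub_re, Complex.add_re]; field_simp; ring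
  have i23 : 2 * ((d3 + v3) - (d2 + v2)).im = -1 + 2 * v3.im - 2 * v2.im := by
    simp only [d3, d2, Complex.sub_im, Complex.add_im]; ring
  have K : cr (d2 + v2) (d3 + v3)
      = √3 / 4 * (2 * v2.re / √3 * (1 + 2 * v3.im) - (2 + 2 * v2.im) * (-1 + 2 * v3.re / √3)) := by
    rw [← r30, ← i30, ← r20, ← i20]; simp only [cr]; field_simp; ring
  have N := nrm (d3 + v3)
  rw [r30, i30] at N
  refine G0s (V30_self v2) (V30_self v3) h2 h3 (k := 4 / 25 * (‖(d3 + v3) - (d2 + v2)‖ - 1)) ?_ (by linarith) ?_ ?_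
  · rw [← r23, ← i23]; exact str_of _ e
  · have h1 := nrm ((d3 + v3) - (d2 + v2)); rw [r23, i23] at h1; linarith [one_le_sq e]
  · intro m hm
    rw [K] at hcon
    set k := 2 * v2.re / √3 * (1 + 2 * v3.im) - (2 + 2 * v2.im) * (-1 + 2 * v3.re / √3)
    have h173 : 433 / 250 ≤ √3 := by nlinarith
    have hR : 1 / 2 * (4 * ‖d3 + v3‖ ^ 2 + m ^ 2) = 1 / 2 * (3 * (-1 + 2 * v3.re / √3) ^ 2 + (1 + 2 * v3.im) ^ 2 + m ^ 2) := by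
      rw [N]; ring
    rw [← hR]
    rcases le_total 0 k with hk | hk
    · have h1 : 433 / 250 * m * k ≤ √3 * m * k := by
        have := mul_le_mul_of_nonneg_right h173 (mul_nonneg hm.le hk)
        nlinarith
      have h2 : √3 * m * k ≤ 2 * m * ‖d3 + v3‖ := by nlinarith
      nlinarith [sq_nonneg (2 * ‖d3 + v3‖ - m)]
    · have h1 : 433 / 250 * m * k ≤ 0 := by nlinarith
      have h2 : 0 ≤ 1 / 2 * (4 * ‖d3 + v3‖ ^ 2 + m ^ 2) := by positivity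
      linarith

theorem g3_p (h2 : V30 v2 ≤ 1 / 3) (h3 : V30 v3 ≤ 1 / 3) (e : 1 ≤ ‖(d3 + v3) - (d2 + v2)‖)
    (e' : ‖(d3 + v3) - (d2 + v2)‖ ≤ 147 / 100) : 1 / 2 * ‖d3 + v3 - pB‖ ≤ cr (d2 + v2 - pB) (d3 + v3 - pB) := by
  by_contra hcon
  push Not at hcon
  have hs := s3
  have hp := s3p
  have hne := hp.ne'
  have r30 : 2 * (d3 + v3 - pB).re / √3 = -1 + 2 * v3.re / √3 := by
    simp only [d3, pB, Complex.add_re, Complex.sub_re]; field_simp; ring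
  have i30 : 2 * (d3 + v3 - pB).im = 1 + 2 * v3.im - 1 / 10 := by
    simp only [d3, pB, Complex.add_im, Complex.sub_im]; ring
  have r20 : 2 * (d2 + v2 - pB).re / √3 = 2 * v2.re / √3 := by simp only [d2, pB, Complex.add_re, Complex.sub_re]; ring
  have i20 : 2 * (d2 + v2 - pB).im = 2 + 2 * v2.im - 1 / 10 := by simp only [d2, pB, Complex.add_im, Complex.sub_im]; ring
  have r23 : 2 * ((d3 + v3) - (d2 + v2)).re / √3 = -1 + 2 * v3.re / √3 - 2 * v2.re / √3 := by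
    simp only [d3, d2, Complex.sub_re, Complex.add_re]; field_simp; ring
  have i23 : 2 * ((d3 + v3) - (d2 + v2)).im = -1 + 2 * v3.im - 2 * v2.im := by
    simp only [d3, d2, Complex.sub_im, Complex.add_im]; ring
  have K : cr (d2 + v2 - pB) (d3 + v3 - pB)
      = √3 / 4 * (2 * v2.re / √3 * (1 + 2 * v3.im - 1 / 10) - (2 + 2 * v2.im - 1 / 10) * (-1 + 2 * v3.re / √3)) := by
    rw [← r30, ← i30, ← r20, ← i20]; simp only [cr]; field_simp; ring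
  have N := nrm (d3 + v3 - pB)
  rw [r30, i30] at N
  refine GPs (V30_self v2) (V30_self v3) h2 h3 (k := 4 / 25 * (‖(d3 + v3) - (d2 + v2)‖ - 1)) ?_ (by linarith) ?_ ?_
  · rw [← r23, ← i23]; exact str_of _ e
  · have h1 := nrm ((d3 + v3) - (d2 + v2)); rw [r23, i23] at h1; linarith [one_le_sq e]
  · intro m hm
    rw [K] at hcon
    set k := 2 * v2.re / √3 * (1 + 2 * v3.im - 1 / 10) - (2 + 2 * v2.im - 1 / 10) * (-1 + 2 * v3.re / √3)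
    have h173 : 433 / 250 ≤ √3 := by nlinarith
    have hR : 1 / 2 * (4 * ‖d3 + v3 - pB‖ ^ 2 + m ^ 2) = 1 / 2 * (3 * (-1 + 2 * v3.re / √3) ^ 2 + (1 + 2 * v3.im - 1 / 10) ^ 2 + m ^ 2) := by
      rw [N]; ring
    rw [← hR]
    rcases le_total 0 k with hk | hk
    · have h1 : 433 / 250 * m * k ≤ √3 * m * k := by
        have := mul_le_mul_of_nonneg_right h173 (mul_nonneg hm.le hk)
        nlinarith
      have h2 : √3 * m * k ≤ 2 * m * ‖d3 + v3 - pB‖ := by nlinarith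
      nlinarith [sq_nonneg (2 * ‖d3 + v3 - pB‖ - m)]
    · have h1 : 433 / 250 * m * k ≤ 0 := by nlinarith
      have h2 : 0 ≤ 1 / 2 * (4 * ‖d3 + v3 - pB‖ ^ 2 + m ^ 2) := by positivity
      linarith

theorem g1_0 (h1 : V30 v1 ≤ 1 / 3) (h2 : V30 v2 ≤ 1 / 3) (e : 1 ≤ ‖(d2 + v2) - (d1 + v1)‖)
    (e' : ‖(d2 + v2) - (d1 + v1)‖ ≤ 147 / 100) : 1 / 2 * ‖d1 + v1‖ ≤ cr (d1 + v1) (d2 + v2) := by
  have := g3_0 (v2 := mu v2) (v3 := mu v1) (by rwa [V30_mu]) (by rwa [V30_mu])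
    (by rw [m3, m2, ← mu_sub, mu_norm, ← norm_neg, neg_sub]; exact e)
    (by rw [m3, m2, ← mu_sub, mu_norm, ← norm_neg, neg_sub]; exact e')
  rwa [m3, m2, mu_cr, mu_norm] at this

theorem g1_p (h1 : V30 v1 ≤ 1 / 3) (h2 : V30 v2 ≤ 1 / 3) (e : 1 ≤ ‖(d2 + v2) - (d1 + v1)‖)
    (e' : ‖(d2 + v2) - (d1 + v1)‖ ≤ 147 / 100) : 1 / 2 * ‖d1 + v1 - pB‖ ≤ cr (d1 + v1 - pB) (d2 + v2 - pB) := by
  have := g3_p (v2 := mu v2) (v3 := mu v1) (by rwa [V30_mu]) (by rwa [V30_mu])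
    (by rw [m3, m2, ← mu_sub, mu_norm, ← norm_neg, neg_sub]; exact e)
    (by rw [m3, m2, ← mu_sub, mu_norm, ← norm_neg, neg_sub]; exact e')
  rwa [m3, m2, mp, mp, mu_cr, mu_norm] at this

/-- (B5) -/
theorem FarH.B5 (H : FarH v1 v2 v3 u) : 1 / 2 * ‖d1 + v1 - pB‖ ≤ cr (d1 + v1 - pB) (d2 + v2 - pB) :=
  g1_p H.V1 H.V2 H.e12 H.e12'

/-- (B6) -/
theorem FarH.B6 (H : FarH v1 v2 v3 u) : 1 / 2 * ‖d3 + v3 - pB‖ ≤ cr (d2 + v2 - pB) (d3 + v3 - pB) :=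
  g3_p H.V2 H.V3 H.e23 H.e23'

/-- (B5) -/
theorem FarR.B5 (H : FarR v1 v2 v3 u) : 1 / 2 * ‖d1 + v1 - pB‖ ≤ cr (d1 + v1 - pB) (d2 + v2 - pB) :=
  g1_p H.V1 H.V2 H.e12 H.e12'

/-- (B6) -/
theorem FarR.B6 (H : FarR v1 v2 v3 u) : 1 / 2 * ‖d3 + v3 - pB‖ ≤ cr (d2 + v2 - pB) (d3 + v3 - pB) :=
  g3_p H.V2 H.V3 H.e23 H.e23'

end Pool.Agent.H30.Q
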