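import Pool.Agent.H30.P6.DPt
import Pool.Agent.H16.AP.Defs

/-!
# Bounds of the potential `V30` (`VB V30`)
-/

set_option autoImplicit false

open Pool.Agent.H20.AL Pool.Agent.H16.T3 Pool.Agent.H63.P6

noncomputable section

namespace Pool.Agent.H30.P6

/-- bounds in rational coordinates -/
theorem poly_bd {X Y : ℝ} (h : VLe X Y (1 / 3)) (hX : 0 ≤ X) : 3 * X ^ 2 + Y ^ 2 ≤ 22 / 25 := by
  obtain ⟨-, h1, h2, -, h4, -, h6, -, h8, -, h10, -, h12⟩ := h
  have hY1 : -(6945 / 10000) ≤ Y := by linarith
  have hY2 : Y ≤ 15 / 100 := by linarith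
  have hX2 : X ≤ 3877 / 10000 := by linarith
  rcases le_total (-(65 / 100)) Y with g | g
  · nlinarith
  rcases le_total (-(66 / 100)) Y with g' | g'
  · have : X ≤ 381 / 1000 := by linarith
    nlinarith
  rcases le_total (-(67 / 100)) Y with g'' | g''
  · have : X ≤ 3763 / 10000 := by linarith
    nlinarith
  rcases le_total (-(68 / 100)) Y with g3 | g3
  · have : X ≤ 372 / 1000 := by linarith
    nlinarith
  · have : X ≤ 3618 / 10000 := by linarith
    nlinarith

theorem VB30 : Pool.Agent.H16.AP.VB V30 := by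
  have key : ∀ u : ℂ, V30 u ≤ 1 / 3 → VLe (2 * u.re / √3) (2 * u.im) (1 / 3) := fun u h => V30_le_iff.1 h
  have hs := s3
  have hp := s3p
  have hs2 : √3 ≤ 17321 / 10000 := by nlinarith
  refine ⟨?_, ?_, ?_, ?_, ?_⟩
  · intro u hu
    have h := key u hu
    have h1 : ‖u‖ ^ 2 ≤ 22 / 100 := by
      rw [nrm]
      rcases le_total 0 (2 * u.re / √3) with g | g
      · linarith [poly_bd h g]
      · have := poly_bd h.mirror (neg_nonneg.2 g)
        rw [neg_sq] at this
        linarith
    exact le_of_lt (lt_of_sq (by norm_num) (by norm_num; linarith))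
  · intro u hu
    have h := key u hu
    linarith [h.f12]
  · intro u hu
    have h := key u hu
    linarith [h.f1]
  · intro u hu
    have h := key u hu
    have e : u.re = √3 / 2 * (2 * u.re / √3) := by field_simp
    have h11 := h.f11
    have : -(1 / 2) * u.re + √3 / 2 * u.im = √3 / 4 * (-(2 * u.re / √3) + 2 * u.im) := by
      rw [e]; field_simp; ring
    rw [this]
    set A := -(2 * u.re / √3) + 2 * u.im
    have hA : A ≤ 2977 / 10000 := by
      have : 56 * A ≤ 50 * (1 / 3) := by simp only [A]; linarith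
      linarith
    nlinarith
  · intro u hu
    have h := key u hu
    have e : u.re = √3 / 2 * (2 * u.re / √3) := by field_simp
    have h10 := h.f10
    have : 1 / 2 * u.re + √3 / 2 * u.im = √3 / 4 * (2 * u.re / √3 + 2 * u.im) := by
      rw [e]; field_simp; ring
    rw [this]
    set A := 2 * u.re / √3 + 2 * u.im
    have hA : A ≤ 2977 / 10000 := by
      have : 56 * A ≤ 50 * (1 / 3) := by simp only [A]; linarith
      linarith
    nlinarith

end Pool.Agent.H30.P6
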