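import Pool.Agent.H30.P6.Res
import Pool.Agent.H63.P6.Defs
import Pool.Agent.H84.P6.EXC

/-!
# T1: the DP structure of helper63 for the sharp potential `V30`, `κ = 4/25`, `el = 147/100`
-/

set_option autoImplicit false

open Pool.Agent.H20.AL Pool.Agent.H16.T3 Pool.Agent.H63.P6

noncomputable section

namespace Pool.Agent.H30.P6

/-- the potential in rational coordinates, times 50 -/
def Vf (X Y : ℝ) : ℝ :=
  max 0 (max (-24 * Y) (max (16 * X - 16 * Y) (max (-16 * X - 16 * Y) (max (25 * X - 11 * Y) (max (-25 * X - 11 * Y)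
    (max (43 * X) (max (-43 * X) (max (75 * X + 25 * Y) (max (-75 * X + 25 * Y) (max (56 * X + 56 * Y)
      (max (-56 * X + 56 * Y) (112 * Y))))))))))))

/-- the potential of the wedge with axis 90 degrees -/
def V30 (u : ℂ) : ℝ := Vf (2 * u.re / √3) (2 * u.im) / 50

theorem V30_le_iff {u : ℂ} {t : ℝ} : V30 u ≤ t ↔ VLe (2 * u.re / √3) (2 * u.im) t := by
  rw [V30, div_le_iff₀ (by norm_num : (0 : ℝ) < 50), mul_comm t 50, Vf]
  simp only [max_le_iff]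
  constructor
  · rintro ⟨h0, h1, h2, h3, h4, h5, h6, h7, h8, h9, h10, h11, h12⟩
    exact ⟨by linarith, h1, h2, h3, h4, h5, h6, h7, h8, h9, h10, h11, h12⟩
  · rintro ⟨h0, h1, h2, h3, h4, h5, h6, h7, h8, h9, h10, h11, h12⟩
    exact ⟨by linarith, h1, h2, h3, h4, h5, h6, h7, h8, h9, h10, h11, h12⟩

theorem V30_self (u : ℂ) : VLe (2 * u.re / √3) (2 * u.im) (V30 u) := V30_le_iff.1 le_rfl

theorem V30_nonneg (u : ℂ) : 0 ≤ V30 u := (V30_self u).f0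

theorem s3 : √3 * √3 = 3 := Real.mul_self_sqrt (by norm_num)
theorem s3p : 0 < √3 := Real.sqrt_pos.2 (by norm_num)

theorem nrm (w : ℂ) : ‖w‖ ^ 2 = (3 * (2 * w.re / √3) ^ 2 + (2 * w.im) ^ 2) / 4 := by
  rw [nsq]
  have := s3p.ne'
  field_simp
  rw [show (√3) ^ 2 = 3 by rw [sq]; exact s3]
  ring

theorem str_of (Z : ℂ) (hZ : 1 ≤ ‖Z‖) : Str (2 * Z.re / √3) (2 * Z.im) (4 / 25 * (‖Z‖ - 1)) := by
  refine ⟨by linarith, fun cx cy hc => ?_⟩
  have h1 := nrm Z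
  set A := 2 * Z.re / √3
  set B := 2 * Z.im
  have h2 : (cx * A + cy * B) ^ 2 ≤ (80 * ‖Z‖) ^ 2 := by
    have h3 : (80 * ‖Z‖) ^ 2 = 1600 * (3 * A ^ 2 + B ^ 2) := by rw [mul_pow, h1]; ring
    rw [h3]
    have h4 : 3 * (cx * A + cy * B) ^ 2 ≤ (cx ^ 2 + 3 * cy ^ 2) * (3 * A ^ 2 + B ^ 2) := by
      nlinarith [sq_nonneg (cx * B - 3 * cy * A)]
    have h5 : (cx ^ 2 + 3 * cy ^ 2) * (3 * A ^ 2 + B ^ 2) ≤ 4800 * (3 * A ^ 2 + B ^ 2) :=
      mul_le_mul_of_nonneg_right hc (by positivity)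
    linarith
  have h6 := le_trans (le_abs_self _) (abs_le_of_sq_le_sq h2 (by positivity))
  linarith

theorem one_le_sq {w : ℂ} (h : 1 ≤ ‖w‖) : 1 ≤ ‖w‖ ^ 2 := by nlinarith

theorem lt_of_sq {w : ℂ} {t : ℝ} (ht : 0 ≤ t) (h : ‖w‖ ^ 2 < t ^ 2) : ‖w‖ < t := lt_of_pow_lt_pow_left₀ 2 ht h

/-- the star of a good site -/
theorem star_of {a b X1 Y1 X2 Y2 X3 Y3 V1 V2 V3 p q r s h k E : ℝ}
    (c : Cfg a b X1 Y1 X2 Y2 X3 Y3 V1 V2 V3 p q r s h k E) {w1 w2 w3 : ℂ}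
    (r1 : w1.re = √3 / 2 * (1 + X1)) (i1 : w1.im = (1 + Y1) / 2)
    (r2 : w2.re = √3 / 2 * X2) (i2 : w2.im = (2 + Y2) / 2)
    (r3 : w3.re = √3 / 2 * (-1 + X3)) (i3 : w3.im = (1 + Y3) / 2) : Star (147 / 100) w1 w2 w3 := by
  have c' := c.mirror
  have hs := s3
  have hp := s3p
  have n1 : ‖w1‖ ^ 2 = (3 * (1 + X1) ^ 2 + (1 + Y1) ^ 2) / 4 := by rw [nsq, r1, i1]; linear_combination (1 + X1) ^ 2 / 4 * hs
  have n2 : ‖w2‖ ^ 2 = (3 * X2 ^ 2 + (2 + Y2) ^ 2) / 4 := by rw [nsq, r2, i2]; linear_combination X2 ^ 2 / 4 * hs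
  have n3 : ‖w3‖ ^ 2 = (3 * (-1 + X3) ^ 2 + (1 + Y3) ^ 2) / 4 := by
    rw [nsq, r3, i3]; linear_combination (-1 + X3) ^ 2 / 4 * hs
  have n12 : ‖w2 - w1‖ ^ 2 = (3 * (-1 + X2 - X1) ^ 2 + (1 + Y2 - Y1) ^ 2) / 4 := by
    rw [nsq, Complex.sub_re, Complex.sub_im, r1, i1, r2, i2]; linear_combination (-1 + X2 - X1) ^ 2 / 4 * hs
  have n23 : ‖w3 - w2‖ ^ 2 = (3 * (-1 + X3 - X2) ^ 2 + (-1 + Y3 - Y2) ^ 2) / 4 := by
    rw [nsq, Complex.sub_re, Complex.sub_im, r3, i3, r2, i2]; linear_combination (-1 + X3 - X2) ^ 2 / 4 * hs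
  have da := c.da
  have db := c.db
  have dc := c.dc
  have da' := c'.da
  have db' := c'.db
  have dc' := c'.dc
  have or_of : ∀ {A B a b : ℝ}, A = a / 4 → B = b / 4 → ¬ (8 ≤ a ∧ 8 ≤ b) → A < 2 ∨ B < 2 := by
    intro A B a b h1 h2 h3
    by_contra hcon
    push Not at hcon
    exact h3 ⟨by linarith [hcon.1], by linarith [hcon.2]⟩
  have A0 : 0 < 1 + X1 := by linarith
  have A0' : 0 < 1 - X3 := by linarith
  refine ⟨?_, ?_, ?_, ?_, ?_, ?_, ?_, ?_, ?_, ?_, ?_, ?_, ?_, ?_⟩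
  · exact lt_of_sq (by norm_num) (by rw [n1]; linarith [c.far0])
  · exact lt_of_sq (by norm_num) (by rw [n2]; linarith [c.far1])
  · exact lt_of_sq (by norm_num) (by rw [n3]; nlinarith [c'.far0])
  · have e1 : cr d1 w1 = √3 / 4 * ((1 + Y1) - (1 + X1)) := by simp only [cr, d1]; rw [r1, i1]; ring
    have e2 : dt d1 w1 = (3 * (1 + X1) + (1 + Y1)) / 4 := by
      simp only [dt, d1]; rw [r1, i1]; linear_combination (1 + X1) / 4 * hs
    rw [Turn, e1, e2, abs_mul, abs_of_pos (by positivity : 0 < √3 / 4)]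
    have : √3 * (√3 / 4 * |(1 + Y1) - (1 + X1)|) = 3 / 4 * |(1 + Y1) - (1 + X1)| := by
      linear_combination |(1 + Y1) - (1 + X1)| / 4 * hs
    rw [this]
    rcases abs_cases ((1 + Y1) - (1 + X1)) with ⟨h1, -⟩ | ⟨h1, -⟩ <;> rw [h1] <;> linarith
  · have e1 : cr d2 w2 = -(√3 / 2 * X2) := by simp only [cr, d2]; rw [r2]; ring
    have e2 : dt d2 w2 = (2 + Y2) / 2 := by simp only [dt, d2]; rw [i2]; ring
    rw [Turn, e1, e2, abs_neg, abs_mul, abs_of_pos (by positivity : 0 < √3 / 2)]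
    have : √3 * (√3 / 2 * |X2|) = 3 / 2 * |X2| := by linear_combination |X2| / 2 * hs
    rw [this]
    rcases abs_cases X2 with ⟨h1, -⟩ | ⟨h1, -⟩ <;> rw [h1] <;> linarith
  · have e1 : cr d3 w3 = √3 / 4 * ((1 - X3) - (1 + Y3)) := by simp only [cr, d3]; rw [r3, i3]; ring
    have e2 : dt d3 w3 = (3 * (1 - X3) + (1 + Y3)) / 4 := by
      simp only [dt, d3]; rw [r3, i3]; linear_combination (1 - X3) / 4 * hs
    rw [Turn, e1, e2, abs_mul, abs_of_pos (by positivity : 0 < √3 / 4)]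
    have : √3 * (√3 / 4 * |(1 - X3) - (1 + Y3)|) = 3 / 4 * |(1 - X3) - (1 + Y3)| := by
      linear_combination |(1 - X3) - (1 + Y3)| / 4 * hs
    rw [this]
    rcases abs_cases ((1 - X3) - (1 + Y3)) with ⟨h1, -⟩ | ⟨h1, -⟩ <;> rw [h1] <;> linarith
  · have e1 : cr w1 w2 = √3 / 4 * ((1 + X1) * (2 + Y2) - (1 + Y1) * X2) := by
      simp only [cr]; rw [r1, i1, r2, i2]; ring
    rw [e1]
    have : 0 < (1 + X1) * (2 + Y2) - (1 + Y1) * X2 := by
      rcases le_total 0 X2 with h2 | h2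
      · nlinarith [mul_nonneg h2 (sub_nonneg.2 da.le), mul_pos A0 (sub_pos.2 dc)]
      · nlinarith [mul_nonneg (neg_nonneg.2 h2) db.le, mul_pos A0 (sub_pos.2 dc')]
    positivity
  · have e1 : cr w2 w3 = √3 / 4 * ((1 - X3) * (2 + Y2) + (1 + Y3) * X2) := by
      simp only [cr]; rw [r3, i3, r2, i2]; ring
    rw [e1]
    have : 0 < (1 - X3) * (2 + Y2) + (1 + Y3) * X2 := by
      rcases le_total 0 X2 with h2 | h2
      · nlinarith [mul_nonneg h2 db'.le, mul_pos A0' (sub_pos.2 dc)]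
      · nlinarith [mul_nonneg (neg_nonneg.2 h2) (sub_nonneg.2 da'.le), mul_pos A0' (sub_pos.2 dc')]
    positivity
  · exact or_of n1 n2 c.p01
  · exact (or_of n3 n2 (by
      have := c'.p01
      rintro ⟨g1, g2⟩; exact this ⟨by linarith, by linarith⟩)).symm
  · exact or_of n1 n12 c.p03
  · exact or_of n2 n12 c.p13
  · exact or_of n2 n23 (by
      have := c'.p13
      rintro ⟨g1, g2⟩; exact this ⟨by linarith, by linarith⟩)
  · exact or_of n3 n23 (by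
      have := c'.p03
      rintro ⟨g1, g2⟩; exact this ⟨by linarith, by linarith⟩)

/-- the configuration of a complex star -/
theorem cfg_of {u v1 v2 v3 : ℂ} {E : ℝ} (hu : ‖u‖ ≤ 4 / 5) (hv1 : V30 v1 ≤ 1 / 3) (hv2 : V30 v2 ≤ 1 / 3)
    (hv3 : V30 v3 ≤ 1 / 3) (g1 : 1 ≤ ‖d1 + v1 - u‖) (g2 : 1 ≤ ‖d2 + v2 - u‖) (g3 : 1 ≤ ‖d3 + v3 - u‖)
    (g12 : 1 ≤ ‖(d2 + v2) - (d1 + v1)‖) (g23 : 1 ≤ ‖(d3 + v3) - (d2 + v2)‖)
    (hE : fanw (d1 + v1 - u) (d2 + v2 - u) (d3 + v3 - u) + Phi V30 (4 / 25) v1 v2 v3 ≤ E) (hE1 : E ≤ 1 / 3) :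
    Cfg (2 * u.re / √3) (2 * u.im) (2 * (v1 - u).re / √3) (2 * (v1 - u).im) (2 * (v2 - u).re / √3) (2 * (v2 - u).im)
      (2 * (v3 - u).re / √3) (2 * (v3 - u).im) (V30 v1) (V30 v2) (V30 v3)
      (4 / 25 * max (-(dt v1 d1)) 0) (4 / 25 * max (-(dt v2 d1)) 0) (4 / 25 * max (-(dt v2 d3)) 0)
      (4 / 25 * max (-(dt v3 d3)) 0) (4 / 25 * (‖(d2 + v2) - (d1 + v1)‖ - 1))
      (4 / 25 * (‖(d3 + v3) - (d2 + v2)‖ - 1)) E := by
  have hs := s3
  have hp := s3p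
  have hne := hp.ne'
  have key : ∀ v : ℂ, 2 * (v - u).re / √3 + 2 * u.re / √3 = 2 * v.re / √3 := fun v => by
    rw [Complex.sub_re]; ring
  have key2 : ∀ v : ℂ, 2 * (v - u).im + 2 * u.im = 2 * v.im := fun v => by rw [Complex.sub_im]; ring
  have r1 : 2 * (d1 + v1 - u).re / √3 = 1 + 2 * (v1 - u).re / √3 := by
    simp only [d1, Complex.sub_re, Complex.add_re]; field_simp; ring
  have i1 : 2 * (d1 + v1 - u).im = 1 + 2 * (v1 - u).im := by simp only [d1, Complex.sub_im, Complex.add_im]; ring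
  have r2 : 2 * (d2 + v2 - u).re / √3 = 2 * (v2 - u).re / √3 := by
    simp only [d2, Complex.sub_re, Complex.add_re]; ring
  have i2 : 2 * (d2 + v2 - u).im = 2 + 2 * (v2 - u).im := by simp only [d2, Complex.sub_im, Complex.add_im]; ring
  have r3 : 2 * (d3 + v3 - u).re / √3 = -1 + 2 * (v3 - u).re / √3 := by
    simp only [d3, Complex.sub_re, Complex.add_re]; field_simp; ring
  have i3 : 2 * (d3 + v3 - u).im = 1 + 2 * (v3 - u).im := by simp only [d3, Complex.sub_im, Complex.add_im]; ring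
  have r12 : 2 * ((d2 + v2) - (d1 + v1)).re / √3 = -1 + 2 * (v2 - u).re / √3 - 2 * (v1 - u).re / √3 := by
    simp only [d1, d2, Complex.sub_re, Complex.add_re]; field_simp; ring
  have i12 : 2 * ((d2 + v2) - (d1 + v1)).im = 1 + 2 * (v2 - u).im - 2 * (v1 - u).im := by
    simp only [d1, d2, Complex.sub_im, Complex.add_im]; ring
  have r23 : 2 * ((d3 + v3) - (d2 + v2)).re / √3 = -1 + 2 * (v3 - u).re / √3 - 2 * (v2 - u).re / √3 := by
    simp only [d3, d2, Complex.sub_re, Complex.add_re]; field_simp; ring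
  have i23 : 2 * ((d3 + v3) - (d2 + v2)).im = -1 + 2 * (v3 - u).im - 2 * (v2 - u).im := by
    simp only [d3, d2, Complex.sub_im, Complex.add_im]; ring
  -- the fan
  have hfan : fan (2 * (v1 - u).re / √3) (2 * (v1 - u).im) (2 * (v2 - u).re / √3) (2 * (v2 - u).im)
      (2 * (v3 - u).re / √3) (2 * (v3 - u).im) = fanw (d1 + v1 - u) (d2 + v2 - u) (d3 + v3 - u) := by
    have c1 : ∀ w z : ℂ, cr w z / √3 = (2 * w.re / √3 * (2 * z.im) - 2 * w.im * (2 * z.re / √3)) / 4 := fun w z => by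
      simp only [cr]; field_simp; ring
    rw [fanw, add_div, c1, c1, r1, i1, r2, i2, r3, i3, fan]; ring
  have hPhi := hE
  rw [← hfan] at hPhi
  have P1 := le_max_left (V30 v1 + sig (4 / 25) d3 v3 v2 ‖(d3 + v3) - (d2 + v2)‖)
    (max (V30 v3 + sig (4 / 25) d1 v1 v2 ‖(d2 + v2) - (d1 + v1)‖)
      (V30 v2 + sig (4 / 25) d1 v1 v2 ‖(d2 + v2) - (d1 + v1)‖ + sig (4 / 25) d3 v3 v2 ‖(d3 + v3) - (d2 + v2)‖))
  have P2 := le_max_right (V30 v1 + sig (4 / 25) d3 v3 v2 ‖(d3 + v3) - (d2 + v2)‖)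
    (max (V30 v3 + sig (4 / 25) d1 v1 v2 ‖(d2 + v2) - (d1 + v1)‖)
      (V30 v2 + sig (4 / 25) d1 v1 v2 ‖(d2 + v2) - (d1 + v1)‖ + sig (4 / 25) d3 v3 v2 ‖(d3 + v3) - (d2 + v2)‖))
  have P3 := le_max_left (V30 v3 + sig (4 / 25) d1 v1 v2 ‖(d2 + v2) - (d1 + v1)‖)
      (V30 v2 + sig (4 / 25) d1 v1 v2 ‖(d2 + v2) - (d1 + v1)‖ + sig (4 / 25) d3 v3 v2 ‖(d3 + v3) - (d2 + v2)‖)
  have P4 := le_max_right (V30 v3 + sig (4 / 25) d1 v1 v2 ‖(d2 + v2) - (d1 + v1)‖)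
      (V30 v2 + sig (4 / 25) d1 v1 v2 ‖(d2 + v2) - (d1 + v1)‖ + sig (4 / 25) d3 v3 v2 ‖(d3 + v3) - (d2 + v2)‖)
  simp only [Phi] at hPhi
  simp only [sig] at hPhi P1 P2 P3 P4
  have h33 : (3 : ℝ) / √3 = √3 := by rw [div_eq_iff hne]; exact hs.symm
  have dt1 : ∀ v : ℂ, -(dt v d1) = -(3 * (2 * v.re / √3) + 2 * v.im) / 4 := fun v => by
    simp only [dt, d1]
    have : 3 * (2 * v.re / √3) = 2 * √3 * v.re := by
      rw [show 3 * (2 * v.re / √3) = 2 * v.re * (3 / √3) by ring, h33]; ring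
    rw [this]; ring
  have dt3 : ∀ v : ℂ, -(dt v d3) = -(-3 * (2 * v.re / √3) + 2 * v.im) / 4 := fun v => by
    simp only [dt, d3]
    have : 3 * (2 * v.re / √3) = 2 * √3 * v.re := by
      rw [show 3 * (2 * v.re / √3) = 2 * v.re * (3 / √3) by ring, h33]; ring
    rw [show -3 * (2 * v.re / √3) = -(3 * (2 * v.re / √3)) by ring, this]; ring
  refine ⟨?_, ?_, ?_, hv1, hv2, hv3, by positivity, by positivity, by positivity, by positivity, ?_, ?_, ?_, ?_, ?_, ?_,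
    ?_, ?_, ?_, hE1, ?_, ?_, ?_, ?_, ?_, ?_⟩
  · rw [key, key2]; exact V30_self v1
  · rw [key, key2]; exact V30_self v2
  · rw [key, key2]; exact V30_self v3
  · rw [key, key2]; linarith [le_max_left (-(dt v1 d1)) 0, dt1 v1]
  · rw [key, key2]; linarith [le_max_left (-(dt v2 d1)) 0, dt1 v2]
  · rw [key, key2]; linarith [le_max_left (-(dt v2 d3)) 0, dt3 v2]
  · rw [key, key2]; linarith [le_max_left (-(dt v3 d3)) 0, dt3 v3]
  · rw [← r12, ← i12]; exact str_of _ g12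
  · rw [← r23, ← i23]; exact str_of _ g23
  · linarith
  · linarith
  · linarith
  · have h1 := nrm u
    have h2 : ‖u‖ ^ 2 ≤ (4 / 5) ^ 2 := pow_le_pow_left₀ (norm_nonneg _) hu 2
    linarith
  · have h1 := nrm (d1 + v1 - u); rw [r1, i1] at h1; linarith [one_le_sq g1]
  · have h1 := nrm (d2 + v2 - u); rw [r2, i2] at h1; linarith [one_le_sq g2]
  · have h1 := nrm (d3 + v3 - u); rw [r3, i3] at h1; linarith [one_le_sq g3]
  · have h1 := nrm ((d2 + v2) - (d1 + v1)); rw [r12, i12] at h1; linarith [one_le_sq g12]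
  · have h1 := nrm ((d3 + v3) - (d2 + v2)); rw [r23, i23] at h1; linarith [one_le_sq g23]

/-- the dynamic programming inequality and the geometry of good sites, for displacements up to 4/5 -/
theorem dp_main {u v1 v2 v3 : ℂ} {E : ℝ} (hu : ‖u‖ ≤ 4 / 5) (hv1 : V30 v1 ≤ 1 / 3) (hv2 : V30 v2 ≤ 1 / 3)
    (hv3 : V30 v3 ≤ 1 / 3) (g1 : 1 ≤ ‖d1 + v1 - u‖) (g2 : 1 ≤ ‖d2 + v2 - u‖) (g3 : 1 ≤ ‖d3 + v3 - u‖)
    (g12 : 1 ≤ ‖(d2 + v2) - (d1 + v1)‖) (g23 : 1 ≤ ‖(d3 + v3) - (d2 + v2)‖)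
    (hE : fanw (d1 + v1 - u) (d2 + v2 - u) (d3 + v3 - u) + Phi V30 (4 / 25) v1 v2 v3 ≤ E) (hE1 : E ≤ 1 / 3) :
    V30 u ≤ E ∧ Star (147 / 100) (d1 + v1 - u) (d2 + v2 - u) (d3 + v3 - u) := by
  have c := cfg_of hu hv1 hv2 hv3 g1 g2 g3 g12 g23 hE hE1
  have hp := s3p.ne'
  refine ⟨V30_le_iff.2 c.dp, star_of c ?_ ?_ ?_ ?_ ?_ ?_⟩
  · simp only [d1, Complex.sub_re, Complex.add_re]; field_simp; ring
  · simp only [d1, Complex.sub_im, Complex.add_im]; ring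
  · simp only [d2, Complex.sub_re, Complex.add_re]; field_simp; ring
  · simp only [d2, Complex.sub_im, Complex.add_im]; ring
  · simp only [d3, Complex.sub_re, Complex.add_re]; field_simp; ring
  · simp only [d3, Complex.sub_im, Complex.add_im]; ring

/-- T1 -/
theorem DP30 : DP V30 (4 / 25) (147 / 100) where
  zero := V30_le_iff.2 (by constructor <;> simp)
  nz := fun u hu => by
    have h := V30_le_iff.1 hu
    have h1 := h.f1
    have h2 := h.f12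
    have h3 := h.f6
    have h4 := h.f7
    have hp := s3p
    have e1 : 2 * u.re / √3 = 0 := by linarith
    have e2 : u.im = 0 := by linarith
    have e3 : u.re = 0 := by
      rw [div_eq_zero_iff] at e1
      rcases e1 with e1 | e1
      · linarith
      · exact absurd e1 hp.ne'
    exact Complex.ext e3 e2
  kap := by norm_num
  el1 := by norm_num
  exc := Pool.Agent.H84.P6.EXC_b
  dp := fun u v1 v2 v3 E hu hv1 hv2 hv3 g1 g2 g3 g12 g23 hE hE1 =>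
    dp_main (by linarith) hv1 hv2 hv3 g1 g2 g3 g12 g23 hE hE1

end Pool.Agent.H30.P6
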