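import Pool.Agent.H30.P6.BMir

/-!
# A point of `X` at distance in `[1/2, 709/1000]` from the apex site lies below it (certificate generated)
-/

set_option autoImplicit false
set_option maxRecDepth 100000

open Pool.Agent.H20.AL Pool.Agent.H63.P6

noncomputable section

namespace Pool.Agent.H30.Q

open Pool.Agent.H30.P6 (V30 V30_self V30_nonneg V30_le_iff s3 s3p nrm str_of one_le_sq Str VLe)

def rows_HC : List Row := [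
  ⟨0, 0, 0, 0, 0, 0, 0, 0, 0, 0, 0, 0, 0, 0, -36, 0, 0, 0, 0, 0, 0, 0, 0, 0, 0, 0, 0, 0, -25⟩,
  ⟨0, 0, 0, 0, 0, 0, 0, 0, 0, 0, 0, 0, 0, 24, -24, 0, 0, 0, 0, 0, 0, 0, 0, 0, 0, 0, 0, 0, -25⟩,
  ⟨0, 0, 0, 0, 0, 0, 0, 0, 0, 0, 0, 0, 0, -24, -24, 0, 0, 0, 0, 0, 0, 0, 0, 0, 0, 0, 0, 0, -25⟩,
  ⟨0, 0, 0, 0, 0, 0, 0, 0, 0, 0, 0, 0, 0, 75, -33, 0, 0, 0, 0, 0, 0, 0, 0, 0, 0, 0, 0, 0, -50⟩,
  ⟨0, 0, 0, 0, 0, 0, 0, 0, 0, 0, 0, 0, 0, -75, -33, 0, 0, 0, 0, 0, 0, 0, 0, 0, 0, 0, 0, 0, -50⟩,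
  ⟨0, 0, 0, 0, 0, 0, 0, 0, 0, 0, 0, 0, 0, 129, 0, 0, 0, 0, 0, 0, 0, 0, 0, 0, 0, 0, 0, 0, -50⟩,
  ⟨0, 0, 0, 0, 0, 0, 0, 0, 0, 0, 0, 0, 0, -129, 0, 0, 0, 0, 0, 0, 0, 0, 0, 0, 0, 0, 0, 0, -50⟩,
  ⟨0, 0, 0, 0, 0, 0, 0, 0, 0, 0, 0, 0, 0, 9, 3, 0, 0, 0, 0, 0, 0, 0, 0, 0, 0, 0, 0, 0, -2⟩,
  ⟨0, 0, 0, 0, 0, 0, 0, 0, 0, 0, 0, 0, 0, -9, 3, 0, 0, 0, 0, 0, 0, 0, 0, 0, 0, 0, 0, 0, -2⟩,
  ⟨0, 0, 0, 0, 0, 0, 0, 0, 0, 0, 0, 0, 0, 84, 84, 0, 0, 0, 0, 0, 0, 0, 0, 0, 0, 0, 0, 0, -25⟩,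
  ⟨0, 0, 0, 0, 0, 0, 0, 0, 0, 0, 0, 0, 0, -84, 84, 0, 0, 0, 0, 0, 0, 0, 0, 0, 0, 0, 0, 0, -25⟩,
  ⟨0, 0, 0, 0, 0, 0, 0, 0, 0, 0, 0, 0, 0, 0, 168, 0, 0, 0, 0, 0, 0, 0, 0, 0, 0, 0, 0, 0, -25⟩,
  ⟨0, 0, 0, 0, 0, 0, 0, 0, 0, 0, 0, 0, 0, 0, 0, 0, 0, 0, -36, 0, 0, 0, 0, 0, 0, 0, 0, 0, -25⟩,
  ⟨0, 0, 0, 0, 0, 0, 0, 0, 0, 0, 0, 0, 0, 0, 0, 0, 0, 24, -24, 0, 0, 0, 0, 0, 0, 0, 0, 0, -25⟩,
  ⟨0, 0, 0, 0, 0, 0, 0, 0, 0, 0, 0, 0, 0, 0, 0, 0, 0, -24, -24, 0, 0, 0, 0, 0, 0, 0, 0, 0, -25⟩,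
  ⟨0, 0, 0, 0, 0, 0, 0, 0, 0, 0, 0, 0, 0, 0, 0, 0, 0, 75, -33, 0, 0, 0, 0, 0, 0, 0, 0, 0, -50⟩,
  ⟨0, 0, 0, 0, 0, 0, 0, 0, 0, 0, 0, 0, 0, 0, 0, 0, 0, -75, -33, 0, 0, 0, 0, 0, 0, 0, 0, 0, -50⟩,
  ⟨0, 0, 0, 0, 0, 0, 0, 0, 0, 0, 0, 0, 0, 0, 0, 0, 0, 129, 0, 0, 0, 0, 0, 0, 0, 0, 0, 0, -50⟩,
  ⟨0, 0, 0, 0, 0, 0, 0, 0, 0, 0, 0, 0, 0, 0, 0, 0, 0, -129, 0, 0, 0, 0, 0, 0, 0, 0, 0, 0, -50⟩,
  ⟨0, 0, 0, 0, 0, 0, 0, 0, 0, 0, 0, 0, 0, 0, 0, 0, 0, 9, 3, 0, 0, 0, 0, 0, 0, 0, 0, 0, -2⟩,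
  ⟨0, 0, 0, 0, 0, 0, 0, 0, 0, 0, 0, 0, 0, 0, 0, 0, 0, -9, 3, 0, 0, 0, 0, 0, 0, 0, 0, 0, -2⟩,
  ⟨0, 0, 0, 0, 0, 0, 0, 0, 0, 0, 0, 0, 0, 0, 0, 0, 0, 84, 84, 0, 0, 0, 0, 0, 0, 0, 0, 0, -25⟩,
  ⟨0, 0, 0, 0, 0, 0, 0, 0, 0, 0, 0, 0, 0, 0, 0, 0, 0, -84, 84, 0, 0, 0, 0, 0, 0, 0, 0, 0, -25⟩,
  ⟨0, 0, 0, 0, 0, 0, 0, 0, 0, 0, 0, 0, 0, 0, 0, 0, 0, 0, 168, 0, 0, 0, 0, 0, 0, 0, 0, 0, -25⟩,
  ⟨0, 0, 0, 0, 0, 0, 0, 0, 0, -1, 0, 0, 0, -6, -2, 6, 2, 0, 0, 0, 0, 0, 0, 0, 0, 0, 0, 0, 0⟩,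
  ⟨0, 0, 0, 0, 0, 0, 0, -1, 0, 0, 0, 0, 0, 0, 0, 0, 4, 0, -4, 0, 0, 0, 0, 0, 0, 0, 0, 0, 0⟩,
  ⟨0, 0, 0, 0, 0, 0, 0, 0, 0, 0, -1, 0, 0, 0, 0, 0, 0, 0, 0, 0, 0, 0, 0, 0, 0, 0, 0, 0, 1⟩,
  ⟨0, 0, 0, 0, 0, 0, 0, 0, 0, 0, 0, 0, 0, 0, 0, 866, 0, 0, 0, 0, 0, 0, 0, 0, 0, 0, 0, 0, -709⟩,
  ⟨0, 0, 0, 0, 0, 0, 0, 0, 0, 0, 0, 0, 0, 0, 0, 800, 191, 0, 0, 0, 0, 0, 0, 0, 0, 0, 0, 0, -709⟩,
  ⟨0, 0, 0, 0, 0, 0, 0, 0, 0, 0, 0, 0, 0, 0, 0, 306, 177, 0, 0, 0, 0, 0, 0, 0, 0, 0, 0, 0, -355⟩,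
  ⟨0, 0, 0, 0, 0, 0, 0, 0, 0, 0, 0, 0, 0, 0, 0, 331, 462, 0, 0, 0, 0, 0, 0, 0, 0, 0, 0, 0, -709⟩,
  ⟨0, 0, 0, 0, 0, 0, 0, 0, 0, 0, 0, 0, 0, 0, 0, 0, 50, 0, 0, 0, 0, 0, 0, 0, 0, 0, 0, 0, -71⟩,
  ⟨0, 0, 0, 0, 0, 0, 0, 0, 0, 0, 0, 0, 0, 0, 0, -331, 462, 0, 0, 0, 0, 0, 0, 0, 0, 0, 0, 0, -709⟩,
  ⟨0, 0, 0, 0, 0, 0, 0, 0, 0, 0, 0, 0, 0, 0, 0, -306, 177, 0, 0, 0, 0, 0, 0, 0, 0, 0, 0, 0, -355⟩,
  ⟨0, 0, 0, 0, 0, 0, 0, 0, 0, 0, 0, 0, 0, 0, 0, -800, 191, 0, 0, 0, 0, 0, 0, 0, 0, 0, 0, 0, -709⟩,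
  ⟨0, 0, 0, 0, 0, 0, 0, 0, 0, 0, 0, 0, 0, 0, 0, -866, 0, 0, 0, 0, 0, 0, 0, 0, 0, 0, 0, 0, -709⟩,
  ⟨0, 0, 0, 0, 0, 0, 0, 0, 0, 0, 0, 0, 0, 0, 0, -800, -191, 0, 0, 0, 0, 0, 0, 0, 0, 0, 0, 0, -709⟩,
  ⟨0, 0, 0, 0, 0, 0, 0, 0, 0, 0, 0, 0, 0, 0, 0, -306, -177, 0, 0, 0, 0, 0, 0, 0, 0, 0, 0, 0, -355⟩,
  ⟨0, 0, 0, 0, 0, 0, 0, 0, 0, 0, 0, 0, 0, 0, 0, -331, -462, 0, 0, 0, 0, 0, 0, 0, 0, 0, 0, 0, -709⟩,
  ⟨0, 0, 0, 0, 0, 0, 0, 0, 0, 0, 0, 0, 0, 0, 0, 0, -50, 0, 0, 0, 0, 0, 0, 0, 0, 0, 0, 0, -71⟩,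
  ⟨0, 0, 0, 0, 0, 0, 0, 0, 0, 0, 0, 0, 0, 0, 0, 331, -462, 0, 0, 0, 0, 0, 0, 0, 0, 0, 0, 0, -709⟩,
  ⟨0, 0, 0, 0, 0, 0, 0, 0, 0, 0, 0, 0, 0, 0, 0, 306, -177, 0, 0, 0, 0, 0, 0, 0, 0, 0, 0, 0, -355⟩,
  ⟨0, 0, 0, 0, 0, 0, 0, 0, 0, 0, 0, 0, 0, 0, 0, 800, -191, 0, 0, 0, 0, 0, 0, 0, 0, 0, 0, 0, -709⟩,
  ⟨0, 0, 0, 0, 0, 0, 0, 0, 0, 0, 0, 0, 0, 0, 0, -1, 0, 0, 0, 0, 0, 0, 0, 0, 0, 0, 0, 0, 0⟩,
  ⟨0, 0, 0, 0, 0, 0, 0, 0, 0, 0, 0, 0, 0, 0, 0, 0, -5, 0, 0, 0, 0, 0, 0, 0, 0, 0, 0, 0, -2⟩]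

def tree_HC : Tree := .N 5 (.N 4 (.L [(26, 1)]) (.N 2 (.L [(24, 4), (26, 1)]) (.N 4 (.N 2 (.L [(7, 3), (24, 9), (26, 10)]) (.L [(7, 10), (24, 21), (26, 31), (44, 5)])) (.L [(7, 1), (24, 4)])))) (.N 4 (.N 6 (.N 5 (.L [(20, 5), (22, 1), (25, 54), (26, 71)]) (.L [(20, 1), (25, 4)])) (.L [(25, 5), (26, 4)])) (.L [(3, 12), (5, 7), (20, 100), (22, 1), (24, 821), (25, 262)]))

def box_HC : Box := ⟨0, 0, 0, 0, -416, 416, -720, 176, 0, 864, -416, 1472, -416, 416, -720, 176⟩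

theorem ok_HC : tree_HC.check 1024 rows_HC box_HC = true := by decide +kernel

theorem hitC_scaled {X1 Y1 X2 Y2 A B : ℝ} (h1 : VLe X1 Y1 (1 / 3)) (h2 : VLe X2 Y2 (1 / 3))
    (c1 : 4 ≤ 3 * (1 + X1 - A) ^ 2 + (1 + Y1 - B) ^ 2) (c2 : 4 ≤ 3 * (X2 - A) ^ 2 + (2 + Y2 - B) ^ 2)
    (l : 1 ≤ 3 * A ^ 2 + B ^ 2) (r : 3 * A ^ 2 + B ^ 2 ≤ 502681 / 250000) (hX : 0 ≤ A) (hY : -(2 / 5) ≤ B) : False := by
  have ur : ∀ gx gy bd : ℝ, 0 ≤ bd → (gx ^ 2 + 3 * gy ^ 2) * (502681 / 250000) ≤ 3 * bd ^ 2 → gx * A + gy * B ≤ bd := by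
    intro gx gy bd h0 h1
    have h2 : 3 * (gx * A + gy * B) ^ 2 ≤ (gx ^ 2 + 3 * gy ^ 2) * (3 * A ^ 2 + B ^ 2) := by
      nlinarith [sq_nonneg (gx * B - 3 * gy * A)]
    have h3 : (gx ^ 2 + 3 * gy ^ 2) * (3 * A ^ 2 + B ^ 2) ≤ (gx ^ 2 + 3 * gy ^ 2) * (502681 / 250000) :=
      mul_le_mul_of_nonneg_left r (by positivity)
    have h4 : (gx * A + gy * B) ^ 2 ≤ bd ^ 2 := by linarith
    exact le_trans (le_abs_self _) (abs_le_of_sq_le_sq h4 h0)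
  have hH : Hyp rows_HC ⟨0, 0, X1, Y1, A, B, X2, Y2, 0, 0, 0, 0, 0, 0, 0, 0, 0⟩ := by
    refine ⟨?_, le_rfl, le_rfl, le_rfl, le_rfl, le_rfl, le_rfl, le_rfl, le_rfl, le_rfl⟩
    intro R hR
    simp only [rows_HC, List.mem_cons, List.not_mem_nil, or_false] at hR
    rcases hR with rfl | rfl | rfl | rfl | rfl | rfl | rfl | rfl | rfl | rfl | rfl | rfl | rfl | rfl | rfl | rfl | rfl | rfl | rfl | rfl | rfl | rfl | rfl | rfl | rfl | rfl | rfl | rfl | rfl | rfl | rfl | rfl | rfl | rfl | rfl | rfl | rfl | rfl | rfl | rfl | rfl | rfl | rfl | rfl | rfl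
    · simp only [Row.ev]; push_cast; linarith [h1.f1]
    · simp only [Row.ev]; push_cast; linarith [h1.f2]
    · simp only [Row.ev]; push_cast; linarith [h1.f3]
    · simp only [Row.ev]; push_cast; linarith [h1.f4]
    · simp only [Row.ev]; push_cast; linarith [h1.f5]
    · simp only [Row.ev]; push_cast; linarith [h1.f6]
    · simp only [Row.ev]; push_cast; linarith [h1.f7]
    · simp only [Row.ev]; push_cast; linarith [h1.f8]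
    · simp only [Row.ev]; push_cast; linarith [h1.f9]
    · simp only [Row.ev]; push_cast; linarith [h1.f10]
    · simp only [Row.ev]; push_cast; linarith [h1.f11]
    · simp only [Row.ev]; push_cast; linarith [h1.f12]
    · simp only [Row.ev]; push_cast; linarith [h2.f1]
    · simp only [Row.ev]; push_cast; linarith [h2.f2]
    · simp only [Row.ev]; push_cast; linarith [h2.f3]
    · simp only [Row.ev]; push_cast; linarith [h2.f4]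
    · simp only [Row.ev]; push_cast; linarith [h2.f5]
    · simp only [Row.ev]; push_cast; linarith [h2.f6]
    · simp only [Row.ev]; push_cast; linarith [h2.f7]
    · simp only [Row.ev]; push_cast; linarith [h2.f8]
    · simp only [Row.ev]; push_cast; linarith [h2.f9]
    · simp only [Row.ev]; push_cast; linarith [h2.f10]
    · simp only [Row.ev]; push_cast; linarith [h2.f11]
    · simp only [Row.ev]; push_cast; linarith [h2.f12]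
    · simp only [Row.ev]; push_cast; linarith [c1]
    · simp only [Row.ev]; push_cast; linarith [c2]
    · simp only [Row.ev]; push_cast; linarith [l]
    · simp only [Row.ev]; push_cast; linarith [ur (866) (0) (709) (by norm_num) (by norm_num)]
    · simp only [Row.ev]; push_cast; linarith [ur (800) (191) (709) (by norm_num) (by norm_num)]
    · simp only [Row.ev]; push_cast; linarith [ur (612) (354) (710) (by norm_num) (by norm_num)]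
    · simp only [Row.ev]; push_cast; linarith [ur (331) (462) (709) (by norm_num) (by norm_num)]
    · simp only [Row.ev]; push_cast; linarith [ur (0) (500) (710) (by norm_num) (by norm_num)]
    · simp only [Row.ev]; push_cast; linarith [ur (-331) (462) (709) (by norm_num) (by norm_num)]
    · simp only [Row.ev]; push_cast; linarith [ur (-612) (354) (710) (by norm_num) (by norm_num)]
    · simp only [Row.ev]; push_cast; linarith [ur (-800) (191) (709) (by norm_num) (by norm_num)]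
    · simp only [Row.ev]; push_cast; linarith [ur (-866) (0) (709) (by norm_num) (by norm_num)]
    · simp only [Row.ev]; push_cast; linarith [ur (-800) (-191) (709) (by norm_num) (by norm_num)]
    · simp only [Row.ev]; push_cast; linarith [ur (-612) (-354) (710) (by norm_num) (by norm_num)]
    · simp only [Row.ev]; push_cast; linarith [ur (-331) (-462) (709) (by norm_num) (by norm_num)]
    · simp only [Row.ev]; push_cast; linarith [ur (0) (-500) (710) (by norm_num) (by norm_num)]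
    · simp only [Row.ev]; push_cast; linarith [ur (331) (-462) (709) (by norm_num) (by norm_num)]
    · simp only [Row.ev]; push_cast; linarith [ur (612) (-354) (710) (by norm_num) (by norm_num)]
    · simp only [Row.ev]; push_cast; linarith [ur (800) (-191) (709) (by norm_num) (by norm_num)]
    · simp only [Row.ev]; push_cast; linarith [hX]
    · simp only [Row.ev]; push_cast; linarith [hY]
  refine tree_sound (D := 1024) hH tree_HC box_HC ok_HC ?_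
  have a1 := ur 1 0 (41 / 50) (by norm_num) (by norm_num)
  have a3 := ur 0 1 (142 / 100) (by norm_num) (by norm_num)
  constructor <;> simp only [box_HC] <;> push_cast
  · constructor <;> linarith
  · constructor <;> linarith
  · constructor <;> linarith [h1.f6, h1.f7]
  · constructor <;> linarith [h1.f1, h1.f12]
  · constructor <;> linarith
  · constructor <;> linarith
  · constructor <;> linarith [h2.f6, h2.f7]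
  · constructor <;> linarith [h2.f1, h2.f12]

theorem hitC_right {v1 v2 u : ℂ} (h1 : V30 v1 ≤ 1 / 3) (h2 : V30 v2 ≤ 1 / 3)
    (c1 : 1 ≤ ‖d1 + v1 - u‖) (c2 : 1 ≤ ‖d2 + v2 - u‖)
    (l : 1 / 2 ≤ ‖u‖) (r : ‖u‖ ≤ 709 / 1000) (hu : 0 ≤ u.re) : u.im ≤ -(1 / 5) := by
  by_contra hcon
  push Not at hcon
  have hp := s3p
  have hne := hp.ne'
  have r1 : 2 * (d1 + v1 - u).re / √3 = 1 + 2 * v1.re / √3 - 2 * u.re / √3 := by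
    simp only [d1, Complex.sub_re, Complex.add_re]; field_simp
  have i1 : 2 * (d1 + v1 - u).im = 1 + 2 * v1.im - 2 * u.im := by simp only [d1, Complex.sub_im, Complex.add_im]; ring
  have r2 : 2 * (d2 + v2 - u).re / √3 = 2 * v2.re / √3 - 2 * u.re / √3 := by
    simp only [d2, Complex.sub_re, Complex.add_re]; ring
  have i2 : 2 * (d2 + v2 - u).im = 2 + 2 * v2.im - 2 * u.im := by simp only [d2, Complex.sub_im, Complex.add_im]; ring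
  refine hitC_scaled (V30_le_iff.1 h1) (V30_le_iff.1 h2) (A := 2 * u.re / √3) (B := 2 * u.im) ?_ ?_ ?_ ?_ (by positivity)
    (by linarith)
  · have h := nrm (d1 + v1 - u); rw [r1, i1] at h; linarith [one_le_sq c1]
  · have h := nrm (d2 + v2 - u); rw [r2, i2] at h; linarith [one_le_sq c2]
  · have h := nrm u
    have h2 : (1 / 2) ^ 2 ≤ ‖u‖ ^ 2 := pow_le_pow_left₀ (by norm_num) l 2
    linarith
  · have h := nrm u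
    have h2 : ‖u‖ ^ 2 ≤ (709 / 1000) ^ 2 := pow_le_pow_left₀ (norm_nonneg _) r 2
    linarith

/-- a point at distance in `[1/2, 709/1000]` from the apex site and at distance at least one from the frames is low -/
theorem hitC {v1 v2 v3 u : ℂ} (h1 : V30 v1 ≤ 1 / 3) (h2 : V30 v2 ≤ 1 / 3) (h3 : V30 v3 ≤ 1 / 3)
    (c1 : 1 ≤ ‖d1 + v1 - u‖) (c2 : 1 ≤ ‖d2 + v2 - u‖) (c3 : 1 ≤ ‖d3 + v3 - u‖)
    (l : 1 / 2 ≤ ‖u‖) (r : ‖u‖ ≤ 709 / 1000) : u.im ≤ -(1 / 5) := by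
  rcases le_total 0 u.re with hu | hu
  · exact hitC_right h1 h2 c1 c2 l r hu
  · have := hitC_right (v1 := mu v3) (v2 := mu v2) (u := mu u) (by rwa [V30_mu]) (by rwa [V30_mu])
      (by rw [m1, ← mu_sub, mu_norm]; exact c3) (by rw [m2, ← mu_sub, mu_norm]; exact c2)
      (by rwa [mu_norm]) (by rwa [mu_norm]) (by rw [mu_re]; linarith)
    rwa [mu_im] at this

end Pool.Agent.H30.Q
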