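import Pool.Agent.H30.P6.NBase

set_option autoImplicit false
set_option maxRecDepth 100000

noncomputable section

namespace Pool.Agent.H30.Q

open Pool.Agent.H30.P6 (VLe Str)

/-! certificate N1 (generated, 271 leaves) -/

def rows_N1 : List Row := cN ++ [
  ⟨0, 0, 0, 0, 0, 0, 0, 0, 0, 0, 0, 853, -87, 0, 0, 0, 0, 0, 0, 0, 0, 0, 0, 0, 0, 0, 0, 0, 175⟩,
  ⟨0, 0, 0, 0, 0, 0, 0, 0, 0, 0, 0, 863, -44, 0, 0, 0, 0, 0, 0, 0, 0, 0, 0, 0, 0, 0, 0, 0, 228⟩,
  ⟨0, 0, 0, 0, 0, 0, 0, 0, 0, 0, 0, 433, 0, 0, 0, 0, 0, 0, 0, 0, 0, 0, 0, 0, 0, 0, 0, 0, 138⟩,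
  ⟨0, 0, 0, 0, 0, 0, 0, 0, 0, 0, 0, 863, 44, 0, 0, 0, 0, 0, 0, 0, 0, 0, 0, 0, 0, 0, 0, 0, 316⟩,
  ⟨0, 0, 0, 0, 0, 0, 0, 0, 0, 0, 0, 853, 87, 0, 0, 0, 0, 0, 0, 0, 0, 0, 0, 0, 0, 0, 0, 0, 349⟩,
  ⟨0, 0, 0, 0, 0, 0, 0, 0, 0, 0, 0, 279, 43, 0, 0, 0, 0, 0, 0, 0, 0, 0, 0, 0, 0, 0, 0, 0, 125⟩,
  ⟨0, 0, 0, 0, 0, 0, 0, 0, 0, 0, 0, 814, 171, 0, 0, 0, 0, 0, 0, 0, 0, 0, 0, 0, 0, 0, 0, 0, 394⟩,
  ⟨0, 0, 0, 0, 0, 0, 0, 0, 0, 0, 0, 785, 211, 0, 0, 0, 0, 0, 0, 0, 0, 0, 0, 0, 0, 0, 0, 0, 406⟩,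
  ⟨0, 0, 0, 0, 0, 0, 0, 0, 0, 0, 0, 750, 250, 0, 0, 0, 0, 0, 0, 0, 0, 0, 0, 0, 0, 0, 0, 0, 409⟩,
  ⟨0, 0, 0, 0, 0, 0, 0, 0, 0, 0, 0, 709, 287, 0, 0, 0, 0, 0, 0, 0, 0, 0, 0, 0, 0, 0, 0, 0, 406⟩,
  ⟨0, 0, 0, 0, 0, 0, 0, 0, 0, 0, 0, 663, 321, 0, 0, 0, 0, 0, 0, 0, 0, 0, 0, 0, 0, 0, 0, 0, 394⟩,
  ⟨0, 0, 0, 0, 0, 0, 0, 0, 0, 0, 0, 204, 118, 0, 0, 0, 0, 0, 0, 0, 0, 0, 0, 0, 0, 0, 0, 0, 125⟩,
  ⟨0, 0, 0, 0, 0, 0, 0, 0, 0, 0, 0, 557, 383, 0, 0, 0, 0, 0, 0, 0, 0, 0, 0, 0, 0, 0, 0, 0, 349⟩,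
  ⟨0, 0, 0, 0, 0, 0, 0, 0, 0, 0, 0, 497, 410, 0, 0, 0, 0, 0, 0, 0, 0, 0, 0, 0, 0, 0, 0, 0, 316⟩,
  ⟨0, 0, 0, 0, 0, 0, 0, 0, 0, 0, 0, 433, 433, 0, 0, 0, 0, 0, 0, 0, 0, 0, 0, 0, 0, 0, 0, 0, 276⟩,
  ⟨400, 400, -25, 0, 0, 0, 0, 0, 0, 0, 0, 775, -25, 0, 800, -775, -25, 0, 0, 32, 0, 0, 0, 0, 32, 32, 0, 32, -122⟩,
  ⟨400, 400, -25, 0, 0, 0, 0, 0, 0, 0, 0, 775, -25, 0, 800, -775, -25, 0, 0, 0, 32, 0, 32, 32, 32, 32, 32, 32, -122⟩,
  ⟨400, 400, -25, 0, 0, 0, 0, 0, 0, 0, 0, 775, -25, 0, 800, -775, -25, 0, 0, 0, 0, 32, 32, 32, 0, 0, 32, 0, -122⟩]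

def tree_N1 : Tree := .N 0 (.N 1 (.N 0 (.N 1 (.N 0 (.N 2 (.N 0 (.N 0 (.N 0 (.L [(0, 24), (9, 71)]) (.N 4 (.N 5 (.N 5 (.L [(0, 9016), (2, 9287), (9, 27047), (27, 31616), (39, 31615), (40, 31615), (42, 27047), (53, 17150), (62, 17729), (81, 118)]) (.N 3 (.N 2 (.N 4 (.N 3 (.L [(1, 4), (17, 11), (39, 11), (40, 11), (62, 47)]) (.L [(1, 65), (7, 639), (21, 193), (39, 193), (40, 193), (57, 75), (62, 2774), (63, 1155), (79, 13)])) (.L [(7, 13082), (27, 2607), (39, 2607), (40, 2607), (57, 1388), (62, 58902), (63, 71138), (79, 279), (81, 82)])) (.L [(7, 897), (42, 338), (57, 152), (62, 4162), (63, 1135), (79, 14)])) (.N 2 (.L [(0, 92), (7, 274), (9, 542), (42, 816), (62, 668), (63, 1232), (79, 17)]) (.L [(0, 8), (7, 117), (42, 117), (62, 364), (63, 195), (79, 3)])))) (.N 3 (.N 2 (.N 4 (.L [(0, 232), (7, 1332), (35, 301), (39, 301), (40, 301), (62, 6202), (63, 6244), (79, 20), (81, 10)]) (.L [(5, 125), (7, 25),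 (62, 921), (63, 1232), (79, 5)])) (.L [(0, 19), (5, 182), (62, 1232), (63, 409), (79, 4)])) (.N 2 (.L [(7, 679), (9, 22), (62, 2018), (63, 2774), (79, 22)]) (.L [(0, 15), (7, 170), (62, 547), (63, 407), (79, 4)])))) (.N 3 (.L [(0, 19), (7, 10), (9, 45), (42, 55), (62, 52), (63, 71)]) (.L [(0, 2665), (7, 667), (9, 8699), (42, 9367), (62, 2721), (63, 7958), (79, 43)])))) (.N 1 (.N 4 (.N 1 (.N 1 (.N 0 (.L [(0, 274), (5, 821)]) (.N 3 (.N 3 (.L [(1, 9), (15, 26), (39, 26), (40, 26), (62, 31)]) (.N 2 (.N 2 (.L [(1, 7), (21, 19), (39, 20), (40, 19), (45, 3)]) (.N 2 (.L [(1, 274), (21, 821), (39, 820), (40, 820), (45, 126)]) (.N 5 (.N 5 (.L [(0, 124), (2, 617), (5, 515), (27, 1848), (39, 1848), (40, 1849), (42, 515), (79, 5)]) (.N 4 (.N 4 (.L [(2, 44), (33, 157), (35, 3), (39, 161), (40, 160), (62, 154), (81, 1)]) (.L [(1, 1734), (2, 1518), (5, 29191), (19, 5201), (29, 7036), (39, 12238), (40, 12238), (62, 160063),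 (63, 114536), (79, 913), (81, 78)])) (.L [(2, 151), (5, 2554), (27, 735), (39, 735), (40, 735), (62, 13696), (63, 14051), (79, 80), (81, 9)]))) (.L [(2, 1178), (5, 29501), (35, 4809), (39, 4809), (40, 4809), (62, 155196), (63, 160063), (79, 922), (81, 40)])))) (.N 5 (.N 4 (.L [(0, 4), (5, 42), (62, 242), (63, 44), (79, 1)]) (.L [(0, 49), (5, 1118), (42, 1072), (57, 16), (62, 6244), (63, 2236), (79, 29)])) (.L [(0, 170), (5, 1666), (62, 9367), (63, 3752), (79, 37)])))) (.N 2 (.L [(0, 1198), (5, 12356), (42, 12356), (63, 21077), (79, 274)]) (.N 5 (.L [(0, 73), (5, 821), (42, 821), (62, 1849), (63, 1210), (79, 19)]) (.L [(5, 223), (62, 821), (63, 725), (79, 7)]))))) (.N 0 (.N 3 (.N 3 (.L [(1, 13), (17, 36), (39, 36), (40, 36), (62, 161)]) (.N 2 (.N 2 (.L [(1, 7), (21, 20), (39, 19), (40, 19), (45, 3)]) (.N 5 (.N 5 (.L [(2, 71), (27, 241), (39, 242), (40, 241), (63, 111), (81, 1)]) (.N 4 (.L [(0, 39), (1,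 251), (2, 51), (5, 2348), (21, 751), (27, 151), (39, 903), (40, 903), (62, 14051), (63, 6620), (79, 70)]) (.L [(5, 2073), (27, 677), (39, 677), (40, 677), (62, 13067), (63, 14051), (79, 65), (81, 22)]))) (.L [(0, 18), (2, 45), (5, 688), (35, 134), (39, 134), (40, 134), (62, 4026), (63, 4162), (79, 20)]))) (.N 5 (.L [(0, 5), (5, 363), (42, 363), (62, 2774), (63, 807), (79, 11)]) (.L [(5, 338), (62, 2774), (63, 1096), (79, 11)])))) (.N 4 (.L [(5, 114), (7, 821), (23, 126), (35, 20), (39, 146), (40, 146), (45, 29), (79, 30), (80, 4), (81, 1)]) (.N 2 (.N 5 (.L [(0, 41), (5, 280), (42, 280), (63, 364), (79, 5)]) (.L [(5, 52), (7, 69), (63, 547), (79, 4)])) (.L [(0, 174), (7, 2408), (42, 2408), (62, 6244), (63, 4325), (79, 59)])))) (.N 3 (.N 3 (.L [(1, 19), (17, 55), (39, 55), (40, 55), (62, 242)]) (.N 2 (.N 2 (.L [(1, 7), (21, 19), (39, 19), (40, 20), (45, 3)]) (.N 5 (.N 5 (.L [(2, 361), (27, 1232), (39,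 1231), (40, 1231), (63, 562), (81, 5)]) (.N 4 (.N 2 (.L [(1, 871), (19, 1875), (21, 2588), (27, 205), (39, 4668), (40, 4668), (62, 1842), (63, 6244), (80, 58), (81, 7)]) (.L [(5, 5535), (19, 1885), (29, 1754), (39, 3640), (40, 3640), (62, 47425), (63, 30912), (79, 173), (80, 59), (81, 55)])) (.L [(5, 4569), (27, 1537), (39, 1537), (40, 1537), (62, 29035), (63, 31616), (79, 143), (81, 49)]))) (.N 4 (.L [(5, 827), (35, 234), (39, 234), (40, 234), (62, 6244), (63, 5941), (79, 26), (81, 8)]) (.L [(5, 121), (62, 665), (63, 821), (79, 4)])))) (.N 5 (.N 4 (.L [(5, 31), (62, 242), (63, 43), (79, 1)]) (.L [(0, 32), (5, 698), (42, 698), (62, 4162), (63, 1458), (79, 19)])) (.L [(5, 223), (62, 1849), (63, 725), (79, 7)])))) (.N 4 (.L [(5, 1232), (23, 165), (35, 28), (39, 194), (40, 194), (45, 38), (79, 39), (80, 6), (81, 1)]) (.N 3 (.N 2 (.L [(0, 229), (5, 2245), (42, 2245), (63, 4162), (79, 49)]) (.L [(0, 142),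 (5, 3167), (42, 3167), (62, 9367), (63, 6617), (79, 86)])) (.L [(5, 341), (23, 22), (39, 22), (40, 22), (42, 364), (44, 2), (63, 342), (79, 11), (80, 1)])))))) (.N 1 (.N 3 (.N 3 (.L [(1, 13), (17, 36), (39, 36), (40, 36), (62, 161)]) (.N 2 (.N 2 (.L [(1, 7), (21, 19), (39, 20), (40, 19), (45, 3)]) (.N 5 (.N 5 (.L [(2, 482), (27, 1848), (39, 1848), (40, 1849), (62, 1185), (63, 1522), (81, 13)]) (.N 4 (.L [(5, 14262), (21, 8779), (27, 1657), (39, 10437), (40, 10437), (62, 160063), (63, 73144), (79, 446), (80, 275), (81, 52)]) (.L [(5, 4566), (27, 1537), (39, 1537), (40, 1537), (62, 29637), (63, 31616), (79, 143), (81, 49)]))) (.N 4 (.L [(5, 539), (35, 154), (39, 154), (40, 154), (62, 4162), (63, 3888), (79, 17), (81, 5)]) (.L [(5, 121), (62, 678), (63, 821), (79, 4)])))) (.N 5 (.L [(5, 5808), (27, 37), (39, 37), (40, 37), (42, 5808), (62, 47425), (63, 13661), (79, 182), (81, 2)]) (.L [(5, 218), (62, 1849),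 (63, 709), (79, 7)])))) (.N 4 (.L [(7, 1232), (23, 159), (35, 28), (39, 188), (40, 188), (45, 37), (79, 39), (80, 5), (81, 1)]) (.N 3 (.N 2 (.N 5 (.L [(7, 1468), (27, 339), (39, 339), (40, 339), (42, 1468), (62, 5), (63, 6244), (79, 46), (81, 11)]) (.L [(5, 52), (7, 69), (63, 547), (79, 4)])) (.L [(5, 29454), (7, 31375), (27, 2054), (39, 2054), (40, 2054), (42, 60829), (62, 240095), (63, 163284), (79, 1901), (81, 65)])) (.L [(5, 6), (7, 336), (23, 20), (39, 20), (40, 20), (42, 364), (44, 2), (63, 340), (79, 11), (80, 1)])))) (.N 0 (.N 3 (.N 2 (.N 5 (.N 4 (.L [(7, 661), (21, 3231), (39, 3231), (40, 3231), (62, 31616), (63, 5902), (79, 21), (80, 101)]) (.N 3 (.L [(1, 4), (17, 11), (39, 11), (40, 11), (62, 47)]) (.L [(7, 1534), (21, 508), (27, 822), (39, 1331), (40, 1331), (62, 14051), (63, 12818), (79, 48), (80, 16), (81, 26)]))) (.L [(7, 4734), (21, 7313), (35, 337), (39, 7651), (40, 7651), (62, 106708),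 (63, 53834), (79, 148), (80, 229), (81, 11)])) (.L [(62, 1)])) (.N 4 (.L [(7, 375), (9, 547), (23, 124), (35, 21), (39, 145), (40, 145), (79, 29), (80, 4), (81, 1)]) (.N 2 (.N 5 (.L [(7, 915), (27, 272), (39, 272), (40, 272), (42, 915), (62, 2913), (63, 4162), (79, 29), (81, 9)]) (.L [(7, 122), (62, 368), (63, 547), (79, 4)])) (.L [(0, 2055), (7, 28641), (42, 28641), (62, 106708), (63, 51467), (79, 703)])))) (.N 3 (.N 2 (.N 2 (.L [(1, 7), (21, 18), (23, 1), (39, 19), (40, 20)]) (.N 5 (.N 4 (.L [(7, 1790), (21, 6861), (39, 6861), (40, 6861), (62, 71138), (63, 13163), (79, 56), (80, 215)]) (.N 3 (.L [(1, 4), (17, 11), (39, 11), (40, 11), (62, 47)]) (.L [(7, 7445), (21, 2619), (27, 3571), (39, 6190), (40, 6190), (62, 71138), (63, 57332), (79, 233), (80, 82), (81, 112)]))) (.L [(7, 9888), (21, 16860), (35, 59), (39, 16919), (40, 16919), (62, 240095), (63, 101438), (79, 310), (80, 527), (81, 2)]))) (.L [(62,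 1)])) (.N 4 (.L [(7, 1849), (23, 249), (35, 43), (39, 293), (40, 293), (79, 58), (80, 8), (81, 2)]) (.N 3 (.N 2 (.N 5 (.L [(7, 1472), (27, 338), (39, 338), (40, 338), (42, 1472), (62, 4247), (63, 6244), (79, 47), (81, 11)]) (.L [(7, 122), (63, 547), (79, 4)])) (.L [(7, 12060), (27, 407), (39, 407), (40, 407), (42, 12060), (62, 47425), (63, 32375), (79, 377), (81, 13)])) (.L [(7, 344), (23, 19), (39, 19), (40, 19), (42, 364), (44, 1), (63, 342), (79, 11), (80, 1)]))))))) (.N 4 (.N 3 (.N 5 (.L [(0, 50), (2, 19), (7, 148), (27, 56), (39, 56), (40, 56), (42, 148), (62, 751), (63, 821)]) (.L [(62, 17), (63, 20)])) (.N 2 (.L [(2, 53), (7, 123), (9, 1040), (27, 1700), (39, 1700), (40, 1700), (42, 1164), (63, 21077), (79, 37), (81, 49)]) (.N 5 (.L [(0, 909), (2, 53), (7, 5276), (27, 158), (39, 158), (40, 158), (42, 5276), (62, 9367), (63, 7693), (70, 130), (79, 80)]) (.L [(5, 237), (7, 196), (42, 434), (62,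 1604), (63, 1849), (79, 14)])))) (.L [(0, 157), (7, 531), (42, 531), (63, 547), (79, 2)]))) (.N 1 (.N 0 (.N 1 (.N 4 (.N 3 (.N 2 (.N 2 (.L [(1, 7), (21, 18), (23, 1), (39, 20), (40, 19)]) (.N 5 (.L [(21, 1971), (23, 2758), (27, 87), (39, 4817), (40, 4817), (42, 4729), (62, 71138), (63, 13087), (80, 148), (81, 3)]) (.L [(7, 574), (21, 964), (35, 3), (39, 967), (40, 967), (62, 14051), (63, 5825), (79, 18), (80, 31), (81, 1)]))) (.L [(62, 1)])) (.N 2 (.N 5 (.L [(9, 19486), (27, 3937), (39, 3937), (40, 3937), (42, 19486), (62, 55730), (63, 71138), (79, 609), (81, 124)]) (.L [(9, 699), (62, 2165), (63, 2774), (79, 22)])) (.L [(0, 323), (9, 7402), (42, 7402), (62, 31616), (63, 14080), (79, 202)]))) (.N 3 (.L [(0, 42), (9, 125), (42, 125), (62, 115), (63, 161)]) (.N 5 (.N 2 (.L [(0, 57), (9, 185), (23, 96), (27, 409), (39, 506), (40, 506), (42, 282), (63, 4162), (79, 1), (80, 4), (81, 13)]) (.L [(0, 269), (9,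 1155), (42, 1155), (62, 1232), (63, 1173), (79, 11)])) (.L [(0, 39), (7, 401), (9, 222), (42, 623), (62, 1569), (63, 2774), (79, 16)])))) (.N 3 (.N 2 (.L [(1, 323), (23, 968), (39, 968), (40, 968), (62, 14051)]) (.L [(62, 1)])) (.N 2 (.N 4 (.N 5 (.L [(9, 2566), (23, 778), (27, 673), (39, 1451), (40, 1451), (42, 3344), (62, 21077), (63, 12183), (79, 81), (80, 25), (81, 22)]) (.L [(9, 311), (62, 980), (63, 1232), (79, 10)])) (.L [(2, 59), (9, 477), (27, 493), (39, 493), (40, 493), (42, 477), (63, 6244), (79, 15), (81, 10)])) (.N 4 (.L [(9, 543), (42, 543), (62, 2774), (63, 1123), (79, 17)]) (.N 5 (.L [(0, 206), (2, 14), (9, 1128), (27, 40), (39, 40), (40, 40), (42, 1128), (62, 1849), (63, 1665), (79, 16)]) (.L [(0, 26), (9, 467), (42, 467), (62, 1430), (63, 1849), (79, 13)])))))) (.N 1 (.N 4 (.N 3 (.N 2 (.N 2 (.L [(1, 7), (21, 18), (23, 1), (39, 20), (40, 19)]) (.N 5 (.N 4 (.L [(7, 483), (21, 2021), (39,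 2021), (40, 2021), (62, 21077), (63, 3811), (79, 16), (80, 64)]) (.L [(7, 18353), (21, 11592), (27, 8606), (39, 20199), (40, 20199), (62, 240095), (63, 161933), (70, 1276), (79, 574), (80, 363), (81, 269)])) (.L [(7, 540), (21, 988), (35, 3), (39, 992), (40, 992), (62, 14051), (63, 5797), (79, 17), (80, 31), (81, 1)]))) (.L [(62, 1)])) (.N 4 (.L [(7, 891), (9, 4162), (23, 682), (35, 117), (39, 800), (40, 800), (70, 99), (79, 158), (80, 22), (81, 4)]) (.N 3 (.N 2 (.N 5 (.L [(7, 1472), (27, 338), (39, 338), (40, 338), (42, 1472), (62, 4323), (63, 6244), (70, 10), (79, 47), (81, 11)]) (.L [(7, 122), (62, 375), (63, 547), (79, 4)])) (.L [(7, 2655), (27, 88), (39, 88), (40, 88), (42, 2655), (62, 14051), (63, 7115), (70, 87), (79, 83), (81, 3)])) (.L [(7, 346), (23, 17), (39, 17), (40, 17), (42, 364), (44, 1), (63, 342), (79, 11), (80, 1)])))) (.N 4 (.N 3 (.L [(2, 8), (27, 23), (39, 23), (40, 23), (62, 329),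 (63, 364)]) (.N 2 (.L [(9, 286), (27, 509), (39, 509), (40, 509), (42, 286), (63, 6244), (79, 9), (81, 16)]) (.N 5 (.L [(0, 1953), (2, 129), (7, 11481), (27, 384), (39, 384), (40, 384), (42, 11481), (62, 21077), (63, 17146), (70, 322), (79, 176)]) (.L [(7, 124), (42, 124), (62, 475), (63, 547), (79, 4)])))) (.L [(0, 221), (7, 488), (9, 300), (42, 789), (62, 241), (63, 821), (70, 28), (79, 4)]))) (.N 4 (.N 3 (.N 2 (.L [(1, 3150), (23, 16182), (39, 16182), (40, 16182), (42, 5677), (62, 240095), (63, 20335), (70, 1616), (80, 211)]) (.L [(62, 1)])) (.N 2 (.N 5 (.L [(9, 1657), (23, 538), (27, 441), (39, 980), (40, 980), (42, 2195), (62, 14051), (63, 7999), (70, 124), (79, 52), (80, 17), (81, 14)]) (.L [(9, 311), (62, 967), (63, 1232), (70, 15), (79, 10)])) (.L [(9, 831), (27, 26), (39, 26), (40, 26), (42, 831), (62, 4162), (63, 2016), (70, 44), (79, 26), (81, 1)]))) (.N 3 (.L [(2, 12), (27, 35), (39, 35),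 (40, 35), (62, 428), (63, 547), (70, 3)]) (.N 2 (.L [(0, 28), (9, 305), (23, 29), (27, 509), (39, 539), (40, 539), (42, 334), (63, 6244), (79, 7), (80, 1), (81, 16)]) (.N 5 (.L [(0, 690), (2, 50), (9, 3809), (27, 147), (39, 147), (40, 147), (42, 3809), (62, 6244), (63, 5717), (70, 191), (79, 55)]) (.L [(7, 110), (9, 13), (42, 123), (62, 434), (63, 616), (79, 4)]))))))) (.N 0 (.N 3 (.N 2 (.L [(1, 19), (23, 56), (39, 56), (40, 56), (62, 821)]) (.L [(62, 1)])) (.N 2 (.N 4 (.L [(9, 547), (23, 1398), (39, 1398), (40, 1398), (42, 1945), (62, 21077), (63, 4017), (71, 137), (79, 18), (80, 44)]) (.L [(0, 62), (2, 36), (9, 500), (27, 106), (39, 106), (40, 106), (42, 500), (62, 589), (63, 1849), (79, 10)])) (.N 4 (.L [(9, 156), (42, 156), (62, 821), (63, 323), (79, 5)]) (.L [(0, 54), (9, 287), (42, 287), (62, 547), (63, 392), (71, 14), (79, 4)])))) (.L [(71, 1)]))))) (.N 1 (.N 0 (.N 0 (.N 1 (.N 4 (.N 1 (.N 3 (.N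 3 (.L [(1, 9), (15, 26), (39, 26), (40, 26), (62, 31)]) (.N 2 (.N 2 (.L [(1, 7), (19, 1), (21, 18), (39, 19), (40, 20), (45, 3)]) (.N 2 (.L [(1, 411), (19, 67), (21, 1164), (39, 1231), (40, 1232), (45, 246), (69, 4)]) (.N 5 (.N 5 (.L [(2, 362), (27, 1231), (39, 1232), (40, 1231), (63, 535), (81, 5)]) (.N 4 (.N 3 (.N 4 (.L [(2, 46), (33, 157), (35, 3), (39, 161), (40, 160), (62, 113), (81, 1)]) (.N 5 (.N 4 (.L [(1, 50), (3, 1519), (17, 2419), (39, 2419), (40, 2419), (62, 14051), (63, 5783), (79, 48), (80, 71)]) (.N 3 (.L [(2, 58), (3, 18198), (17, 6137), (29, 7656), (39, 13794), (40, 13794), (62, 160063), (63, 123285), (79, 569), (80, 192), (81, 234)]) (.L [(3, 28168), (5, 539), (19, 5396), (29, 13321), (39, 18718), (40, 18718), (62, 240095), (63, 188846), (79, 898), (80, 169), (81, 417)]))) (.L [(3, 1270), (5, 574), (33, 728), (39, 728), (40, 728), (62, 14051), (63, 12913), (79, 58), (81, 23)]))) (.L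 [(5, 251), (62, 201), (63, 364), (79, 8)])) (.N 3 (.L [(3, 3002), (5, 3651), (27, 2352), (39, 2352), (40, 2352), (62, 45673), (63, 47425), (79, 208), (81, 74)]) (.L [(5, 1998), (27, 447), (39, 447), (40, 447), (62, 8699), (63, 9367), (79, 63), (81, 14)])))) (.N 4 (.L [(3, 552), (5, 274), (35, 233), (39, 233), (40, 233), (62, 6244), (63, 5783), (79, 26), (81, 8)]) (.L [(5, 31), (63, 547), (79, 1)]))))) (.N 5 (.N 3 (.L [(0, 29), (3, 86), (62, 821)]) (.N 4 (.L [(5, 156), (62, 821), (63, 205), (79, 5)]) (.L [(3, 6586), (5, 35861), (27, 887), (39, 887), (40, 887), (42, 42447), (62, 240095), (63, 102429), (79, 1327), (81, 28)]))) (.L [(3, 5230), (5, 585), (62, 47425), (63, 18854), (79, 182)])))) (.N 2 (.L [(0, 2679), (5, 27734), (42, 27734), (63, 47425), (69, 76), (79, 616)]) (.N 5 (.L [(0, 49), (5, 555), (42, 555), (62, 1232), (63, 820), (79, 13)]) (.L [(5, 507), (42, 456), (62, 1227), (63, 1232), (79, 16)]))))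 (.N 3 (.N 3 (.L [(1, 9), (15, 26), (39, 26), (40, 26), (62, 31)]) (.N 2 (.N 2 (.L [(1, 7), (21, 19), (39, 19), (40, 20), (45, 3)]) (.N 5 (.N 5 (.L [(2, 543), (27, 1848), (39, 1848), (40, 1849), (63, 836), (69, 23), (81, 7)]) (.N 4 (.N 2 (.L [(1, 118), (2, 46), (19, 1724), (27, 136), (39, 1861), (40, 1861), (62, 256), (63, 4162), (80, 43)]) (.N 3 (.N 3 (.L [(19, 1339), (29, 253), (39, 1592), (40, 1592), (62, 14051), (63, 5407), (80, 42), (81, 8)]) (.N 4 (.L [(33, 27), (35, 3), (39, 30), (40, 31), (62, 5), (81, 1)]) (.L [(5, 27265), (19, 8431), (29, 10241), (39, 18672), (40, 18672), (62, 240095), (63, 171305), (69, 3228), (79, 853), (80, 264), (81, 321)]))) (.L [(5, 703), (62, 1232), (63, 1230), (69, 13), (79, 22)]))) (.N 3 (.L [(5, 4280), (27, 1457), (39, 1457), (40, 1457), (62, 28701), (63, 31616), (69, 426), (79, 134), (81, 46)]) (.L [(5, 2969), (27, 593), (39, 593), (40, 593), (62, 12373), (63, 14051),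 (69, 170), (79, 93), (81, 19)])))) (.N 4 (.L [(5, 1840), (35, 542), (39, 542), (40, 542), (62, 14051), (63, 13521), (79, 58), (81, 17)]) (.L [(5, 254), (62, 111), (63, 4162), (79, 8)])))) (.N 5 (.N 4 (.L [(5, 156), (62, 1232), (63, 216), (79, 5)]) (.N 5 (.L [(5, 278), (27, 1544), (39, 1544), (40, 1544), (42, 278), (62, 9367), (63, 6231), (79, 9), (81, 49)]) (.L [(5, 4477), (27, 20), (39, 20), (40, 20), (42, 4477), (62, 31616), (63, 11585), (69, 426), (79, 140), (81, 1)]))) (.L [(5, 1687), (62, 14051), (63, 5470), (69, 196), (79, 53)])))) (.N 4 (.L [(5, 1232), (23, 165), (35, 28), (39, 194), (40, 194), (45, 38), (79, 39), (80, 6), (81, 1)]) (.N 3 (.N 2 (.L [(0, 253), (2, 15), (5, 2991), (27, 43), (39, 43), (40, 43), (42, 2991), (45, 8), (63, 6244), (79, 70)]) (.N 5 (.L [(5, 1490), (27, 149), (39, 149), (40, 149), (42, 1490), (62, 6244), (63, 4361), (69, 57), (79, 47), (81, 5)]) (.L [(5, 223), (62, 821),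 (63, 796), (79, 7)]))) (.L [(5, 341), (23, 22), (39, 22), (40, 22), (42, 364), (44, 2), (63, 343), (79, 11), (80, 1)]))))) (.N 3 (.L [(0, 1084), (5, 3251), (42, 3251), (62, 2894), (63, 4162), (69, 240)]) (.N 5 (.L [(0, 5919), (5, 21076), (42, 21077), (62, 7498), (63, 15244), (69, 1095), (79, 104)]) (.L [(0, 13), (5, 259), (42, 259), (62, 650), (63, 1232), (79, 7)])))) (.N 1 (.N 4 (.N 3 (.N 3 (.L [(1, 13), (17, 37), (39, 37), (40, 37), (62, 161)]) (.N 2 (.N 2 (.L [(1, 7), (21, 19), (39, 20), (40, 19), (45, 3)]) (.N 5 (.N 5 (.L [(2, 101), (27, 363), (39, 363), (40, 364), (62, 119), (63, 232), (70, 2), (81, 2)]) (.N 4 (.N 3 (.L [(5, 12115), (21, 9749), (27, 1228), (39, 10978), (40, 10978), (62, 160063), (63, 68390), (69, 2397), (79, 379), (80, 305), (81, 39)]) (.L [(5, 11390), (21, 328), (27, 1286), (39, 1615), (40, 1615), (62, 47425), (63, 41292), (70, 234), (79, 356), (80, 11), (81, 41)])) (.L [(5, 15014),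 (27, 5244), (39, 5244), (40, 5244), (62, 98113), (63, 106708), (69, 1338), (79, 470), (81, 164)]))) (.N 4 (.L [(5, 1200), (35, 360), (39, 360), (40, 360), (62, 9367), (63, 8907), (69, 141), (79, 38), (81, 12)]) (.L [(5, 118), (62, 112), (63, 1849), (79, 4)])))) (.N 5 (.N 4 (.L [(5, 153), (62, 1232), (63, 211), (79, 5)]) (.L [(5, 6635), (27, 223), (39, 223), (40, 223), (42, 6635), (62, 47425), (63, 17834), (69, 625), (79, 208), (81, 7)])) (.L [(5, 733), (62, 6244), (63, 2376), (69, 88), (79, 23)])))) (.N 4 (.L [(5, 280), (7, 1849), (23, 275), (35, 49), (39, 325), (40, 325), (45, 65), (79, 67), (80, 9), (81, 2)]) (.N 3 (.N 2 (.N 5 (.L [(5, 65), (7, 1403), (27, 339), (39, 339), (40, 339), (42, 1468), (63, 6244), (79, 46), (81, 11)]) (.L [(5, 122), (63, 547), (79, 4)])) (.N 5 (.L [(5, 1462), (27, 147), (39, 147), (40, 147), (42, 1462), (62, 6244), (63, 4279), (69, 64), (79, 46), (81, 5)]) (.L [(5, 218),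 (62, 821), (63, 780), (70, 3), (79, 7)]))) (.L [(5, 343), (23, 20), (39, 20), (40, 20), (42, 364), (44, 2), (63, 343), (79, 11), (80, 1)])))) (.N 4 (.N 3 (.N 5 (.L [(0, 64), (2, 18), (5, 191), (27, 52), (39, 52), (40, 52), (42, 191), (62, 730), (63, 821), (70, 9)]) (.L [(62, 4), (63, 5)])) (.N 5 (.N 2 (.L [(5, 69), (27, 183), (39, 183), (40, 183), (42, 69), (45, 36), (63, 1849), (79, 3), (81, 6)]) (.L [(0, 258), (2, 20), (5, 71), (7, 1468), (27, 59), (39, 59), (40, 59), (42, 1539), (62, 2774), (63, 2380), (70, 42), (79, 24)])) (.L [(5, 31), (42, 31), (62, 104), (63, 161), (79, 1)]))) (.L [(0, 158), (5, 531), (42, 531), (63, 547), (70, 8), (79, 2)]))) (.N 4 (.N 3 (.N 3 (.L [(1, 13), (17, 37), (39, 37), (40, 37), (62, 161)]) (.N 2 (.N 2 (.L [(1, 7), (21, 20), (39, 19), (40, 19), (45, 3)]) (.N 5 (.N 4 (.L [(7, 469), (21, 1396), (39, 1396), (40, 1396), (62, 14051), (63, 2559), (70, 76), (79, 15), (80, 44)])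 (.N 5 (.L [(27, 122), (39, 122), (40, 122), (62, 547), (63, 515), (81, 4)]) (.L [(7, 2331), (21, 760), (27, 634), (39, 1395), (40, 1395), (62, 21077), (63, 15671), (70, 138), (79, 73), (80, 24), (81, 20)]))) (.L [(7, 2802), (21, 3184), (39, 3184), (40, 3184), (62, 47425), (63, 22478), (70, 291), (79, 88), (80, 100)]))) (.N 5 (.L [(7, 2505), (27, 15), (39, 15), (40, 15), (42, 2505), (62, 21077), (63, 5882), (70, 129), (79, 79), (81, 1)]) (.L [(5, 62), (62, 547), (63, 203), (70, 3), (79, 2)])))) (.N 4 (.L [(7, 1849), (23, 249), (35, 43), (39, 293), (40, 293), (70, 4), (79, 58), (80, 8), (81, 2)]) (.N 3 (.N 5 (.N 2 (.L [(7, 1472), (27, 338), (39, 338), (40, 338), (42, 1472), (62, 3302), (63, 6244), (70, 24), (79, 47), (81, 11)]) (.L [(5, 997), (7, 465), (27, 147), (39, 147), (40, 147), (42, 1463), (62, 6244), (63, 4276), (70, 28), (79, 46), (81, 5)])) (.L [(7, 2361), (62, 7807), (63, 9367), (70, 60), (79,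 74)])) (.L [(5, 11), (7, 333), (23, 19), (39, 19), (40, 19), (42, 364), (44, 1), (63, 343), (79, 11), (80, 1)])))) (.N 4 (.N 3 (.L [(2, 68), (27, 203), (39, 203), (40, 203), (62, 2780), (63, 3122), (70, 19)]) (.N 5 (.N 2 (.L [(7, 104), (27, 275), (39, 275), (40, 275), (42, 104), (45, 55), (63, 2774), (79, 4), (81, 9)]) (.L [(0, 850), (2, 67), (7, 5098), (27, 200), (39, 200), (40, 200), (42, 5098), (62, 9367), (63, 7916), (70, 144), (79, 80)])) (.L [(5, 13), (7, 18), (42, 31), (62, 104), (63, 161), (70, 1), (79, 1)]))) (.L [(0, 157), (7, 531), (42, 531), (63, 547), (70, 15), (79, 2)]))))) (.N 1 (.N 1 (.N 4 (.N 3 (.N 3 (.L [(1, 21), (15, 61), (39, 61), (40, 61), (62, 71)]) (.N 5 (.N 5 (.L [(0, 429), (2, 883), (5, 1892), (27, 2646), (39, 2646), (40, 2646), (42, 1892), (62, 2774), (69, 597), (79, 19)]) (.N 4 (.N 2 (.N 2 (.L [(1, 7), (19, 1), (21, 18), (39, 20), (40, 19), (45, 3)]) (.N 4 (.L [(2, 46), (33,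 157), (35, 3), (39, 160), (40, 161), (62, 108), (81, 1)]) (.N 3 (.N 2 (.L [(1, 7), (2, 7), (19, 115), (29, 20), (39, 136), (40, 136), (63, 364), (80, 3)]) (.N 5 (.N 4 (.L [(1, 210), (3, 3697), (17, 5533), (39, 5533), (40, 5533), (62, 31616), (63, 13130), (69, 156), (79, 116), (80, 154)]) (.N 3 (.N 2 (.L [(2, 1060), (3, 30060), (17, 9892), (29, 12234), (39, 22126), (40, 22126), (62, 240095), (63, 193519), (69, 1905), (79, 940), (80, 310), (81, 283)]) (.L [(0, 25), (3, 74), (62, 547), (69, 10)])) (.L [(3, 31701), (19, 4206), (29, 13977), (39, 18183), (40, 18183), (62, 240095), (63, 198369), (69, 1575), (79, 991), (80, 132), (81, 437)]))) (.L [(3, 2764), (33, 1119), (39, 1119), (40, 1119), (62, 21077), (63, 19641), (69, 171), (79, 87), (81, 35)]))) (.L [(5, 251), (62, 162), (63, 364), (79, 8)])))) (.L [(3, 160), (57, 1), (62, 1232), (63, 244), (69, 8), (79, 5)])) (.N 2 (.N 3 (.N 2 (.L [(63, 1)]) (.L [(3,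 3985), (5, 2413), (27, 2189), (39, 2189), (40, 2189), (62, 41936), (63, 47425), (69, 447), (79, 200), (81, 69)])) (.L [(5, 1693), (27, 539), (39, 539), (40, 539), (62, 6249), (63, 9367), (69, 81), (79, 53), (81, 17)])) (.N 2 (.L [(3, 12553), (5, 2952), (27, 295), (39, 295), (40, 295), (42, 15506), (62, 106708), (63, 43171), (69, 1008), (79, 485), (81, 10)]) (.L [(62, 1)]))))) (.N 2 (.N 4 (.L [(3, 5820), (5, 154), (35, 1845), (39, 1845), (40, 1845), (62, 43524), (63, 47425), (69, 440), (79, 187), (81, 58)]) (.L [(5, 31), (63, 547), (79, 1)])) (.N 4 (.L [(3, 242), (5, 3), (62, 1849), (63, 636), (69, 14), (79, 8)]) (.L [(3, 490), (5, 102), (62, 4162), (63, 2120), (69, 35), (79, 19)]))))) (.N 2 (.L [(0, 70), (5, 720), (42, 720), (63, 1232), (69, 247), (79, 16)]) (.N 5 (.L [(0, 50), (5, 564), (42, 564), (62, 1232), (63, 834), (69, 21), (79, 13)]) (.L [(5, 507), (42, 454), (62, 1207), (63, 1232), (69, 11),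 (79, 16)])))) (.N 3 (.L [(0, 28), (5, 83), (42, 83), (62, 73), (63, 107), (69, 6)]) (.L [(0, 1186), (5, 4162), (42, 4161), (62, 1192), (63, 3543), (69, 1397), (79, 19)]))) (.L [(69, 1)])) (.L [(69, 1)]))) (.L [(69, 1)])) (.L [(70, 1)]))) (.N 3 (.L [(62, 1)]) (.N 4 (.L [(3, 15), (5, 45), (41, 60), (62, 364), (63, 13), (79, 2)]) (.L [(0, 577), (7, 2835), (9, 168), (41, 531), (42, 3004), (62, 6244), (63, 2707), (70, 75), (79, 40)])))) (.L [(69, 1)])) (.L [(11, 242), (57, 81), (71, 23)])) (.L [(69, 1)])) (.L [(11, 20), (57, 7), (74, 2)])) (.L [(69, 1)])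

theorem ok_N1 : tree_N1.check 1024 rows_N1 boxN = true := by decide +kernel

theorem N1s {X1 Y1 X2 Y2 X3 Y3 V1 V2 V3 p q r s h k : ℝ}
    (c : NCfg X1 Y1 X2 Y2 X3 Y3 V1 V2 V3 p q r s h k)
    (n1 : 3 * (1 + X1) ^ 2 + (1 + Y1) ^ 2 ≤ (3481 / 2500))
    (o1 : ((((1 + X1) * (2 + Y2) - (1 + Y1) * X2) + (X2 * (1 + Y3) - (2 + Y2) * (-1 + X3)) - ((1 + X1) * (1 + Y3) - (1 + Y1) * (-1 + X3)) / 16) / 4 - 1) + (V1 + r + s + k) ≤ (9 / 200))
    (o2 : ((((1 + X1) * (2 + Y2) - (1 + Y1) * X2) + (X2 * (1 + Y3) - (2 + Y2) * (-1 + X3)) - ((1 + X1) * (1 + Y3) - (1 + Y1) * (-1 + X3)) / 16) / 4 - 1) + (V2 + p + q + r + s + h + k) ≤ (9 / 200))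
    (o3 : ((((1 + X1) * (2 + Y2) - (1 + Y1) * X2) + (X2 * (1 + Y3) - (2 + Y2) * (-1 + X3)) - ((1 + X1) * (1 + Y3) - (1 + Y1) * (-1 + X3)) / 16) / 4 - 1) + (V3 + p + q + h) ≤ (9 / 200)) : False := by
  have hH : Hyp rows_N1 (NCfg.pt X1 Y1 X2 Y2 X3 Y3 V1 V2 V3 p q r s h k) := by
    refine c.hyp ?_
    intro R hR
    simp only [List.mem_cons, List.not_mem_nil, or_false] at hR
    rcases hR with rfl | rfl | rfl | rfl | rfl | rfl | rfl | rfl | rfl | rfl | rfl | rfl | rfl | rfl | rfl | rfl | rfl | rfl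
    · simp only [Row.ev, NCfg.pt]; push_cast; linarith [lin_of_sq n1 (853) (-87) (591) (by norm_num) (by norm_num)]
    · simp only [Row.ev, NCfg.pt]; push_cast; linarith [lin_of_sq n1 (863) (-44) (591) (by norm_num) (by norm_num)]
    · simp only [Row.ev, NCfg.pt]; push_cast; linarith [lin_of_sq n1 (866) (0) (590) (by norm_num) (by norm_num)]
    · simp only [Row.ev, NCfg.pt]; push_cast; linarith [lin_of_sq n1 (863) (44) (591) (by norm_num) (by norm_num)]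
    · simp only [Row.ev, NCfg.pt]; push_cast; linarith [lin_of_sq n1 (853) (87) (591) (by norm_num) (by norm_num)]
    · simp only [Row.ev, NCfg.pt]; push_cast; linarith [lin_of_sq n1 (837) (129) (591) (by norm_num) (by norm_num)]
    · simp only [Row.ev, NCfg.pt]; push_cast; linarith [lin_of_sq n1 (814) (171) (591) (by norm_num) (by norm_num)]
    · simp only [Row.ev, NCfg.pt]; push_cast; linarith [lin_of_sq n1 (785) (211) (590) (by norm_num) (by norm_num)]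
    · simp only [Row.ev, NCfg.pt]; push_cast; linarith [lin_of_sq n1 (750) (250) (591) (by norm_num) (by norm_num)]
    · simp only [Row.ev, NCfg.pt]; push_cast; linarith [lin_of_sq n1 (709) (287) (590) (by norm_num) (by norm_num)]
    · simp only [Row.ev, NCfg.pt]; push_cast; linarith [lin_of_sq n1 (663) (321) (590) (by norm_num) (by norm_num)]
    · simp only [Row.ev, NCfg.pt]; push_cast; linarith [lin_of_sq n1 (612) (354) (591) (by norm_num) (by norm_num)]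
    · simp only [Row.ev, NCfg.pt]; push_cast; linarith [lin_of_sq n1 (557) (383) (591) (by norm_num) (by norm_num)]
    · simp only [Row.ev, NCfg.pt]; push_cast; linarith [lin_of_sq n1 (497) (410) (591) (by norm_num) (by norm_num)]
    · simp only [Row.ev, NCfg.pt]; push_cast; linarith [lin_of_sq n1 (433) (433) (590) (by norm_num) (by norm_num)]
    · simp only [Row.ev, NCfg.pt]; push_cast; linarith [o1]
    · simp only [Row.ev, NCfg.pt]; push_cast; linarith [o2]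
    · simp only [Row.ev, NCfg.pt]; push_cast; linarith [o3]
  refine tree_sound (D := 1024) hH tree_N1 boxN ok_N1 ?_
  simpa only [NCfg.pt, Int.cast_ofNat] using c.inbox

end Pool.Agent.H30.Q
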