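import Pool.Agent.H30.P6.NBase

set_option autoImplicit false
set_option maxRecDepth 100000

noncomputable section

namespace Pool.Agent.H30.Q

open Pool.Agent.H30.P6 (VLe Str)

/-! certificate N1b (generated, 157 leaves) -/

def rows_N1b : List Row := cN ++ [
  ⟨0, 0, 0, 0, 0, 0, 0, 0, 0, 0, 0, 853, -87, 0, 0, 0, 0, 0, 0, 0, 0, 0, 0, 0, 0, 0, 0, 0, 187⟩,
  ⟨0, 0, 0, 0, 0, 0, 0, 0, 0, 0, 0, 863, -44, 0, 0, 0, 0, 0, 0, 0, 0, 0, 0, 0, 0, 0, 0, 0, 240⟩,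
  ⟨0, 0, 0, 0, 0, 0, 0, 0, 0, 0, 0, 433, 0, 0, 0, 0, 0, 0, 0, 0, 0, 0, 0, 0, 0, 0, 0, 0, 144⟩,
  ⟨0, 0, 0, 0, 0, 0, 0, 0, 0, 0, 0, 863, 44, 0, 0, 0, 0, 0, 0, 0, 0, 0, 0, 0, 0, 0, 0, 0, 328⟩,
  ⟨0, 0, 0, 0, 0, 0, 0, 0, 0, 0, 0, 853, 87, 0, 0, 0, 0, 0, 0, 0, 0, 0, 0, 0, 0, 0, 0, 0, 361⟩,
  ⟨0, 0, 0, 0, 0, 0, 0, 0, 0, 0, 0, 279, 43, 0, 0, 0, 0, 0, 0, 0, 0, 0, 0, 0, 0, 0, 0, 0, 129⟩,
  ⟨0, 0, 0, 0, 0, 0, 0, 0, 0, 0, 0, 814, 171, 0, 0, 0, 0, 0, 0, 0, 0, 0, 0, 0, 0, 0, 0, 0, 406⟩,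
  ⟨0, 0, 0, 0, 0, 0, 0, 0, 0, 0, 0, 785, 211, 0, 0, 0, 0, 0, 0, 0, 0, 0, 0, 0, 0, 0, 0, 0, 418⟩,
  ⟨0, 0, 0, 0, 0, 0, 0, 0, 0, 0, 0, 750, 250, 0, 0, 0, 0, 0, 0, 0, 0, 0, 0, 0, 0, 0, 0, 0, 421⟩,
  ⟨0, 0, 0, 0, 0, 0, 0, 0, 0, 0, 0, 709, 287, 0, 0, 0, 0, 0, 0, 0, 0, 0, 0, 0, 0, 0, 0, 0, 418⟩,
  ⟨0, 0, 0, 0, 0, 0, 0, 0, 0, 0, 0, 663, 321, 0, 0, 0, 0, 0, 0, 0, 0, 0, 0, 0, 0, 0, 0, 0, 406⟩,
  ⟨0, 0, 0, 0, 0, 0, 0, 0, 0, 0, 0, 204, 118, 0, 0, 0, 0, 0, 0, 0, 0, 0, 0, 0, 0, 0, 0, 0, 129⟩,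
  ⟨0, 0, 0, 0, 0, 0, 0, 0, 0, 0, 0, 557, 383, 0, 0, 0, 0, 0, 0, 0, 0, 0, 0, 0, 0, 0, 0, 0, 361⟩,
  ⟨0, 0, 0, 0, 0, 0, 0, 0, 0, 0, 0, 497, 410, 0, 0, 0, 0, 0, 0, 0, 0, 0, 0, 0, 0, 0, 0, 0, 328⟩,
  ⟨0, 0, 0, 0, 0, 0, 0, 0, 0, 0, 0, 433, 433, 0, 0, 0, 0, 0, 0, 0, 0, 0, 0, 0, 0, 0, 0, 0, 288⟩,
  ⟨400, 400, -25, 0, 0, 0, 0, 0, 0, 0, 0, 775, -25, 0, 800, -775, -25, 0, 0, 32, 0, 0, 0, 0, 32, 32, 0, 32, -130⟩,
  ⟨400, 400, -25, 0, 0, 0, 0, 0, 0, 0, 0, 775, -25, 0, 800, -775, -25, 0, 0, 0, 32, 0, 32, 32, 32, 32, 32, 32, -130⟩,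
  ⟨400, 400, -25, 0, 0, 0, 0, 0, 0, 0, 0, 775, -25, 0, 800, -775, -25, 0, 0, 0, 0, 32, 32, 32, 0, 0, 32, 0, -130⟩]

def tree_N1b : Tree := .N 0 (.N 1 (.N 0 (.N 1 (.N 0 (.N 0 (.N 2 (.N 0 (.N 0 (.L [(0, 24), (9, 71)]) (.N 4 (.N 5 (.N 5 (.L [(0, 2082), (2, 2082), (9, 6243), (27, 6244), (39, 6243), (40, 6243), (42, 6243), (53, 6243), (71, 59)]) (.N 3 (.N 2 (.N 2 (.L [(1, 7), (21, 18), (23, 1), (39, 20), (40, 19)]) (.N 4 (.L [(0, 7992), (2, 50), (7, 33178), (21, 11455), (27, 149), (39, 11605), (40, 11605), (62, 160063), (63, 51805), (79, 288), (80, 358)]) (.L [(0, 4070), (7, 33018), (27, 6920), (39, 6920), (40, 6920), (62, 149949), (63, 160063), (79, 651), (81, 217)]))) (.L [(0, 152), (7, 897), (42, 338), (62, 4162), (63, 1135), (79, 14)])) (.N 2 (.L [(0, 464), (7, 1390), (9, 2747), (42, 4138), (62, 3384), (63, 6244), (79, 86)]) (.L [(0, 27), (7, 397), (42, 397), (62, 1232), (63, 660), (79,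 10)])))) (.N 3 (.N 2 (.N 4 (.L [(0, 522), (7, 2998), (35, 678), (39, 678), (40, 678), (62, 13956), (63, 14051), (79, 45), (81, 22)]) (.L [(5, 125), (7, 25), (62, 921), (63, 1232), (79, 5)])) (.L [(0, 19), (5, 182), (62, 1232), (63, 409), (79, 4)])) (.N 2 (.L [(7, 679), (9, 22), (62, 2018), (63, 2774), (79, 22)]) (.L [(0, 15), (7, 170), (62, 547), (63, 407), (79, 4)])))) (.N 3 (.L [(0, 19), (7, 10), (9, 45), (42, 55), (62, 52), (63, 71)]) (.N 5 (.L [(0, 781), (7, 242), (9, 2531), (42, 2774), (62, 973), (63, 2003), (79, 14)]) (.L [(0, 133), (7, 167), (9, 450), (42, 617), (62, 650), (63, 1232), (79, 7)]))))) (.N 1 (.N 0 (.N 1 (.N 1 (.L [(0, 274), (5, 821)]) (.N 4 (.N 3 (.N 3 (.L [(1, 13), (17, 36), (39, 36), (40, 36), (62, 161)]) (.N 2 (.N 2 (.L [(1, 7), (21, 19), (39, 20), (40, 19), (45, 3)]) (.N 5 (.N 5 (.L [(0, 125), (2, 617), (7, 517), (27, 1848), (39, 1848), (40, 1849), (42, 517),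 (79, 5)]) (.N 4 (.N 3 (.L [(1, 600), (2, 86), (5, 5039), (21, 1798), (27, 257), (39, 2055), (40, 2055), (57, 103), (62, 31616), (63, 14034), (79, 148)]) (.L [(5, 2660), (7, 2724), (27, 598), (39, 598), (40, 598), (62, 21077), (63, 19016), (79, 169), (81, 19)])) (.L [(2, 248), (5, 7737), (27, 2287), (39, 2287), (40, 2287), (62, 44105), (63, 47425), (79, 242), (81, 49)]))) (.N 4 (.L [(5, 557), (35, 152), (39, 152), (40, 152), (62, 4162), (63, 3915), (79, 18), (81, 5)]) (.L [(5, 123), (62, 674), (63, 821), (79, 4)])))) (.N 5 (.L [(0, 144), (5, 1613), (42, 1226), (62, 9367), (63, 2724), (79, 37)]) (.L [(5, 338), (62, 2774), (63, 1096), (79, 11)])))) (.N 4 (.L [(5, 42), (7, 1232), (23, 171), (35, 29), (39, 200), (40, 200), (45, 40), (79, 40), (80, 6), (81, 1)]) (.N 3 (.N 2 (.L [(0, 518), (7, 5065), (42, 5065), (63, 9367), (79, 110)]) (.L [(0, 42), (7, 924), (42, 924), (62, 2774), (63, 1926),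 (79, 25)])) (.L [(5, 341), (23, 22), (39, 22), (40, 22), (42, 364), (44, 2), (63, 340), (79, 11), (80, 1)])))) (.N 3 (.L [(0, 28), (5, 83), (42, 83), (62, 77), (63, 107)]) (.N 5 (.L [(0, 518), (5, 1849), (42, 1848), (62, 674), (63, 1337), (79, 10)]) (.L [(0, 283), (7, 1355), (42, 1355), (62, 1498), (63, 2774), (79, 16)]))))) (.N 1 (.N 4 (.N 3 (.N 3 (.L [(1, 13), (17, 36), (39, 36), (40, 36), (62, 161)]) (.N 2 (.N 2 (.L [(1, 7), (21, 18), (23, 1), (39, 20), (40, 19)]) (.N 5 (.N 4 (.L [(7, 9438), (21, 23293), (39, 23293), (40, 23293), (62, 240095), (63, 44740), (79, 295), (80, 728)]) (.N 5 (.L [(27, 436), (39, 436), (40, 436), (62, 1849), (63, 1836), (81, 14)]) (.L [(7, 3090), (27, 1019), (39, 1019), (40, 1019), (62, 19878), (63, 21077), (79, 97), (81, 32)]))) (.L [(7, 5668), (35, 1543), (39, 1543), (40, 1543), (62, 46405), (63, 47425), (79, 178), (81, 49)]))) (.L [(7, 3805), (42, 2878),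 (62, 31616), (63, 9712), (79, 119)]))) (.N 4 (.L [(7, 1232), (23, 159), (35, 28), (39, 187), (40, 187), (45, 37), (79, 39), (80, 5), (81, 1)]) (.N 3 (.N 2 (.N 5 (.L [(7, 1467), (27, 340), (39, 340), (40, 340), (42, 1467), (62, 4195), (63, 6244), (79, 46), (81, 11)]) (.L [(7, 122), (63, 547), (79, 4)])) (.L [(0, 131), (7, 2879), (42, 2879), (62, 9367), (63, 5997), (79, 78)])) (.L [(7, 343), (23, 20), (39, 20), (40, 20), (42, 364), (44, 2), (63, 341), (79, 11), (80, 1)])))) (.N 3 (.L [(0, 28), (7, 83), (42, 83), (62, 77), (63, 107)]) (.N 5 (.L [(0, 777), (7, 2774), (42, 2773), (62, 1040), (63, 2006), (79, 14)]) (.L [(0, 43), (7, 638), (42, 638), (62, 1531), (63, 2774), (79, 16)])))) (.N 4 (.N 3 (.N 2 (.N 2 (.L [(1, 7), (21, 18), (23, 1), (39, 19), (40, 20)]) (.N 5 (.N 4 (.L [(7, 868), (21, 3000), (39, 3000), (40, 3000), (62, 31616), (63, 5867), (79, 28), (80, 94)]) (.N 3 (.L [(1, 4), (17,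 11), (39, 11), (40, 11), (62, 47)]) (.L [(7, 7708), (21, 2454), (27, 3614), (39, 6068), (40, 6068), (62, 71138), (63, 57925), (79, 241), (80, 77), (81, 113)]))) (.L [(7, 2067), (21, 3248), (35, 10), (39, 3258), (40, 3258), (62, 47425), (63, 20136), (79, 65), (80, 102), (81, 1)]))) (.L [(62, 1)])) (.N 4 (.L [(7, 2774), (9, 2055), (23, 652), (35, 110), (39, 762), (40, 762), (70, 52), (79, 151), (80, 21), (81, 4)]) (.N 3 (.N 2 (.N 5 (.L [(7, 1470), (27, 339), (39, 339), (40, 339), (42, 1470), (62, 4273), (63, 6244), (70, 7), (79, 46), (81, 11)]) (.L [(7, 122), (62, 372), (63, 547), (79, 4)])) (.L [(0, 141), (7, 3130), (42, 3130), (62, 14051), (63, 6524), (79, 85)])) (.L [(7, 344), (23, 19), (39, 19), (40, 19), (42, 364), (44, 1), (63, 341), (79, 11), (80, 1)])))) (.N 3 (.L [(0, 28), (7, 68), (9, 15), (42, 83), (62, 77), (63, 107), (70, 3)]) (.N 5 (.N 2 (.L [(0, 143), (7, 667), (23, 12),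 (27, 585), (39, 597), (40, 597), (42, 680), (44, 59), (63, 6244), (79, 8), (80, 1), (81, 19)]) (.L [(0, 398), (7, 1418), (9, 305), (42, 1724), (62, 1849), (63, 1759), (70, 52), (79, 17)])) (.L [(0, 39), (7, 624), (42, 624), (62, 1540), (63, 2774), (70, 12), (79, 16)])))))) (.N 1 (.N 1 (.N 4 (.N 3 (.N 3 (.L [(1, 9), (15, 26), (39, 26), (40, 26), (62, 31)]) (.N 5 (.N 5 (.L [(0, 183), (2, 183), (5, 546), (27, 546), (39, 546), (40, 546), (42, 547), (53, 546)]) (.N 2 (.N 2 (.L [(1, 7), (21, 19), (39, 20), (40, 19), (45, 3)]) (.N 2 (.L [(1, 274), (21, 820), (39, 820), (40, 821), (45, 126), (69, 6)]) (.N 4 (.N 3 (.N 3 (.L [(0, 55), (1, 69), (5, 163), (19, 206), (39, 206), (40, 206), (62, 1232)]) (.N 4 (.L [(2, 14), (33, 67), (35, 3), (39, 71), (40, 70), (62, 36), (81, 1)]) (.N 5 (.L [(1, 251), (2, 542), (5, 7314), (19, 752), (29, 1625), (39, 2377), (40, 2377), (57, 371), (62, 31616), (63, 23759),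 (69, 617), (79, 194)]) (.L [(2, 185), (5, 2548), (33, 648), (39, 648), (40, 648), (62, 14051), (63, 12860), (79, 80), (81, 3)])))) (.L [(5, 1591), (62, 2712), (63, 2774), (79, 50)])) (.N 3 (.L [(0, 146), (5, 2449), (27, 692), (39, 692), (40, 692), (62, 13708), (63, 14051), (79, 63), (81, 22)]) (.L [(5, 4488), (27, 1010), (39, 1010), (40, 1010), (62, 19867), (63, 21077), (69, 166), (79, 141), (81, 32)]))))) (.N 4 (.L [(0, 97), (5, 1107), (62, 6244), (63, 1245), (79, 26)]) (.L [(0, 46), (5, 744), (42, 624), (62, 4162), (63, 1549), (79, 19)])))) (.N 2 (.N 4 (.L [(2, 179), (5, 3078), (35, 534), (39, 534), (40, 534), (57, 239), (62, 13184), (63, 14051), (69, 277), (79, 74)]) (.L [(5, 384), (62, 161), (63, 6244), (79, 13)])) (.L [(0, 382), (5, 3749), (62, 21077), (63, 8442), (79, 82)])))) (.N 4 (.L [(5, 821), (23, 114), (35, 18), (39, 133), (40, 133), (45, 26), (79, 26), (80, 4), (81, 1)])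 (.N 2 (.L [(0, 18), (5, 149), (42, 149), (63, 242), (79, 3)]) (.N 5 (.L [(0, 31), (5, 279), (42, 279), (62, 547), (63, 394), (79, 6)]) (.L [(5, 223), (62, 821), (63, 798), (79, 7)]))))) (.N 3 (.L [(0, 28), (5, 83), (42, 83), (62, 76), (63, 107)]) (.L [(0, 789), (5, 2774), (42, 2773), (62, 808), (63, 2361), (79, 13)]))) (.N 4 (.N 3 (.N 3 (.L [(1, 19), (17, 55), (39, 55), (40, 55), (62, 242)]) (.N 2 (.N 2 (.L [(1, 7), (21, 19), (39, 20), (40, 19), (45, 3)]) (.N 2 (.N 5 (.N 4 (.L [(1, 1663), (2, 48), (21, 6101), (27, 142), (39, 6244), (40, 6243), (62, 2156), (63, 3378), (69, 104), (80, 35)]) (.L [(5, 55), (21, 877), (27, 2411), (39, 3289), (40, 3289), (63, 31616), (79, 2), (80, 28), (81, 76)])) (.L [(2, 1), (35, 159), (39, 159), (40, 159), (63, 2774), (81, 5)])) (.N 5 (.N 5 (.L [(2, 362), (27, 1231), (39, 1231), (40, 1232), (63, 540), (70, 5), (81, 5)]) (.N 4 (.N 3 (.N 4 (.L [(2, 44), (33,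 157), (35, 3), (39, 161), (40, 160), (62, 157), (81, 1)]) (.L [(5, 8784), (21, 3825), (29, 3647), (39, 7473), (40, 7473), (62, 106708), (63, 62493), (69, 1493), (79, 275), (80, 120), (81, 114)])) (.L [(5, 3343), (21, 29), (27, 457), (39, 486), (40, 486), (62, 14051), (63, 11886), (69, 191), (79, 105), (80, 1), (81, 15)])) (.N 4 (.L [(5, 7094), (27, 2381), (39, 2381), (40, 2381), (62, 47425), (63, 46004), (69, 619), (79, 222), (81, 75)]) (.L [(27, 60), (39, 60), (40, 60), (63, 821), (81, 2)])))) (.N 4 (.L [(5, 1227), (35, 339), (39, 339), (40, 339), (62, 9367), (63, 8472), (79, 39), (81, 11)]) (.L [(5, 120), (62, 119), (63, 1849), (79, 4)]))))) (.N 5 (.N 4 (.L [(5, 31), (62, 242), (63, 43), (79, 1)]) (.L [(0, 540), (5, 11942), (42, 11942), (62, 71138), (63, 24922), (69, 1023), (79, 323)])) (.L [(5, 223), (62, 1849), (63, 725), (79, 7)])))) (.N 4 (.L [(5, 1849), (23, 249), (35, 42), (39,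 291), (40, 291), (45, 58), (79, 58), (80, 8), (81, 2)]) (.N 3 (.N 3 (.N 2 (.L [(0, 286), (5, 3129), (42, 3129), (63, 6244), (70, 2), (79, 71)]) (.L [(0, 274), (5, 5779), (7, 4068), (42, 9847), (62, 31616), (63, 22359), (70, 173), (79, 283)])) (.L [(0, 3455), (7, 21077), (42, 21076), (63, 20378), (70, 356), (79, 335)])) (.L [(5, 341), (23, 22), (39, 22), (40, 22), (42, 364), (44, 2), (63, 342), (79, 11), (80, 1)])))) (.N 3 (.L [(0, 28), (5, 83), (42, 83), (62, 76), (63, 107), (70, 2)]) (.N 5 (.L [(0, 778), (5, 2774), (42, 2773), (62, 998), (63, 2005), (70, 49), (79, 14)]) (.L [(0, 16), (5, 268), (42, 268), (62, 658), (63, 1232), (70, 2), (79, 7)]))))) (.N 1 (.N 4 (.N 3 (.N 3 (.L [(1, 13), (17, 36), (39, 36), (40, 36), (62, 161)]) (.N 2 (.N 2 (.L [(1, 7), (21, 20), (39, 19), (40, 19), (45, 3)]) (.N 5 (.N 5 (.L [(2, 101), (27, 364), (39, 363), (40, 363), (62, 120), (63, 235), (70, 2), (81,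 2)]) (.N 4 (.N 4 (.L [(2, 44), (33, 157), (35, 3), (39, 160), (40, 161), (62, 154), (81, 1)]) (.L [(7, 22138), (21, 12930), (27, 3034), (39, 15965), (40, 15965), (62, 240095), (63, 118573), (70, 1508), (79, 692), (80, 405), (81, 95)])) (.L [(7, 6811), (27, 2312), (39, 2312), (40, 2312), (62, 44159), (63, 47425), (70, 278), (79, 213), (81, 73)]))) (.N 4 (.L [(5, 539), (35, 155), (39, 155), (40, 155), (62, 4162), (63, 3913), (70, 21), (79, 17), (81, 5)]) (.L [(5, 121), (62, 674), (63, 821), (79, 4)])))) (.N 5 (.L [(7, 3870), (27, 27), (39, 27), (40, 27), (42, 3870), (62, 31616), (63, 9110), (70, 190), (79, 121), (81, 1)]) (.L [(5, 218), (62, 1849), (63, 709), (70, 9), (79, 7)])))) (.N 4 (.L [(7, 1232), (23, 159), (35, 28), (39, 187), (40, 187), (45, 37), (70, 2), (79, 39), (80, 5), (81, 1)]) (.N 3 (.N 2 (.N 5 (.L [(7, 1467), (27, 340), (39, 340), (40, 340), (42, 1467), (62, 3263), (63,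 6244), (70, 23), (79, 46), (81, 11)]) (.L [(5, 52), (7, 69), (63, 547), (79, 4)])) (.N 5 (.L [(5, 2166), (27, 219), (39, 219), (40, 219), (42, 2166), (62, 9367), (63, 6346), (70, 32), (79, 68), (81, 7)]) (.L [(5, 59), (7, 4), (62, 242), (63, 226), (70, 1), (79, 2)]))) (.L [(5, 7), (7, 336), (23, 20), (39, 20), (40, 20), (42, 364), (44, 2), (63, 342), (79, 11), (80, 1)])))) (.N 3 (.L [(0, 28), (7, 83), (42, 83), (62, 76), (63, 107), (70, 3)]) (.N 5 (.L [(0, 778), (7, 2774), (42, 2773), (62, 1026), (63, 2006), (70, 80), (79, 14)]) (.L [(0, 16), (5, 11), (7, 256), (42, 268), (62, 658), (63, 1232), (70, 6), (79, 7)])))) (.L [(70, 1)])))) (.N 1 (.N 0 (.N 1 (.N 4 (.N 3 (.N 2 (.N 2 (.L [(1, 7), (21, 18), (23, 1), (39, 19), (40, 20)]) (.N 5 (.L [(1, 41), (23, 373), (39, 373), (40, 373), (42, 273), (62, 6244), (63, 655), (70, 37), (80, 8)]) (.L [(7, 574), (21, 964), (35, 3), (39, 967), (40, 967),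 (62, 14051), (63, 5825), (70, 76), (79, 18), (80, 31), (81, 1)]))) (.L [(62, 1)])) (.N 2 (.N 5 (.N 4 (.L [(7, 151), (9, 242), (23, 19), (39, 19), (40, 19), (79, 13), (80, 1)]) (.L [(9, 917), (27, 271), (39, 271), (40, 271), (42, 917), (62, 2984), (63, 4162), (70, 40), (79, 29), (81, 9)])) (.L [(9, 699), (62, 2165), (63, 2774), (70, 34), (79, 22)])) (.L [(0, 145), (9, 3324), (42, 3324), (62, 14051), (63, 6324), (70, 175), (79, 91)]))) (.N 3 (.L [(0, 28), (9, 83), (42, 83), (62, 77), (63, 107), (70, 5)]) (.N 5 (.L [(0, 776), (9, 2773), (42, 2774), (62, 1068), (63, 2005), (70, 141), (79, 14)]) (.L [(0, 39), (9, 623), (42, 623), (62, 1569), (63, 2774), (70, 26), (79, 16)])))) (.N 4 (.N 3 (.N 2 (.L [(1, 19), (23, 56), (39, 56), (40, 56), (62, 821), (71, 6)]) (.L [(62, 1)])) (.N 2 (.L [(0, 686), (9, 4084), (23, 3037), (39, 3037), (40, 3037), (42, 7122), (62, 47425), (63, 12125), (71, 450),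 (79, 64), (80, 95)]) (.L [(0, 13), (9, 285), (42, 285), (62, 1232), (63, 544), (71, 16), (79, 8)]))) (.N 3 (.L [(0, 19), (9, 55), (42, 55), (62, 51), (63, 71), (71, 3)]) (.L [(0, 3975), (9, 14050), (42, 14051), (62, 4617), (63, 11951), (71, 743), (79, 67)])))) (.L [(70, 1)])) (.L [(71, 1)])))) (.N 3 (.L [(62, 1)]) (.L [(0, 43959), (7, 226022), (34, 8781), (36, 5046), (39, 13828), (42, 226022), (62, 540215), (70, 5220), (79, 2943), (81, 433)]))) (.L [(5, 161), (57, 54), (69, 60)])) (.L [(69, 1)])) (.L [(0, 7), (11, 20), (71, 2)])) (.L [(69, 1)])) (.L [(11, 20), (57, 7), (74, 2)])) (.L [(69, 1)])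

theorem ok_N1b : tree_N1b.check 1024 rows_N1b boxN = true := by decide +kernel

theorem N1bs {X1 Y1 X2 Y2 X3 Y3 V1 V2 V3 p q r s h k : ℝ}
    (c : NCfg X1 Y1 X2 Y2 X3 Y3 V1 V2 V3 p q r s h k)
    (n1 : 3 * (1 + X1) ^ 2 + (1 + Y1) ^ 2 ≤ (83521 / 62500))
    (o1 : ((((1 + X1) * (2 + Y2) - (1 + Y1) * X2) + (X2 * (1 + Y3) - (2 + Y2) * (-1 + X3)) - ((1 + X1) * (1 + Y3) - (1 + Y1) * (-1 + X3)) / 16) / 4 - 1) + (V1 + r + s + k) ≤ (1 / 20))
    (o2 : ((((1 + X1) * (2 + Y2) - (1 + Y1) * X2) + (X2 * (1 + Y3) - (2 + Y2) * (-1 + X3)) - ((1 + X1) * (1 + Y3) - (1 + Y1) * (-1 + X3)) / 16) / 4 - 1) + (V2 + p + q + r + s + h + k) ≤ (1 / 20))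
    (o3 : ((((1 + X1) * (2 + Y2) - (1 + Y1) * X2) + (X2 * (1 + Y3) - (2 + Y2) * (-1 + X3)) - ((1 + X1) * (1 + Y3) - (1 + Y1) * (-1 + X3)) / 16) / 4 - 1) + (V3 + p + q + h) ≤ (1 / 20)) : False := by
  have hH : Hyp rows_N1b (NCfg.pt X1 Y1 X2 Y2 X3 Y3 V1 V2 V3 p q r s h k) := by
    refine c.hyp ?_
    intro R hR
    simp only [List.mem_cons, List.not_mem_nil, or_false] at hR
    rcases hR with rfl | rfl | rfl | rfl | rfl | rfl | rfl | rfl | rfl | rfl | rfl | rfl | rfl | rfl | rfl | rfl | rfl | rfl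
    · simp only [Row.ev, NCfg.pt]; push_cast; linarith [lin_of_sq n1 (853) (-87) (579) (by norm_num) (by norm_num)]
    · simp only [Row.ev, NCfg.pt]; push_cast; linarith [lin_of_sq n1 (863) (-44) (579) (by norm_num) (by norm_num)]
    · simp only [Row.ev, NCfg.pt]; push_cast; linarith [lin_of_sq n1 (866) (0) (578) (by norm_num) (by norm_num)]
    · simp only [Row.ev, NCfg.pt]; push_cast; linarith [lin_of_sq n1 (863) (44) (579) (by norm_num) (by norm_num)]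
    · simp only [Row.ev, NCfg.pt]; push_cast; linarith [lin_of_sq n1 (853) (87) (579) (by norm_num) (by norm_num)]
    · simp only [Row.ev, NCfg.pt]; push_cast; linarith [lin_of_sq n1 (837) (129) (579) (by norm_num) (by norm_num)]
    · simp only [Row.ev, NCfg.pt]; push_cast; linarith [lin_of_sq n1 (814) (171) (579) (by norm_num) (by norm_num)]
    · simp only [Row.ev, NCfg.pt]; push_cast; linarith [lin_of_sq n1 (785) (211) (578) (by norm_num) (by norm_num)]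
    · simp only [Row.ev, NCfg.pt]; push_cast; linarith [lin_of_sq n1 (750) (250) (579) (by norm_num) (by norm_num)]
    · simp only [Row.ev, NCfg.pt]; push_cast; linarith [lin_of_sq n1 (709) (287) (578) (by norm_num) (by norm_num)]
    · simp only [Row.ev, NCfg.pt]; push_cast; linarith [lin_of_sq n1 (663) (321) (578) (by norm_num) (by norm_num)]
    · simp only [Row.ev, NCfg.pt]; push_cast; linarith [lin_of_sq n1 (612) (354) (579) (by norm_num) (by norm_num)]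
    · simp only [Row.ev, NCfg.pt]; push_cast; linarith [lin_of_sq n1 (557) (383) (579) (by norm_num) (by norm_num)]
    · simp only [Row.ev, NCfg.pt]; push_cast; linarith [lin_of_sq n1 (497) (410) (579) (by norm_num) (by norm_num)]
    · simp only [Row.ev, NCfg.pt]; push_cast; linarith [lin_of_sq n1 (433) (433) (578) (by norm_num) (by norm_num)]
    · simp only [Row.ev, NCfg.pt]; push_cast; linarith [o1]
    · simp only [Row.ev, NCfg.pt]; push_cast; linarith [o2]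
    · simp only [Row.ev, NCfg.pt]; push_cast; linarith [o3]
  refine tree_sound (D := 1024) hH tree_N1b boxN ok_N1b ?_
  simpa only [NCfg.pt, Int.cast_ofNat] using c.inbox

end Pool.Agent.H30.Q
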