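import Pool.Agent.H30.P6.NBase

set_option autoImplicit false
set_option maxRecDepth 100000

noncomputable section

namespace Pool.Agent.H30.Q

open Pool.Agent.H30.P6 (VLe Str)

/-! certificate N2 (generated, 27 leaves) -/

def rows_N2 : List Row := cN ++ [
  ⟨0, 0, 0, 0, 0, 0, 0, 0, 0, 0, 0, 853, -87, 0, 0, 0, 0, 0, 0, 0, 0, 0, 0, 0, 0, 0, 0, 0, 175⟩,
  ⟨0, 0, 0, 0, 0, 0, 0, 0, 0, 0, 0, 863, -44, 0, 0, 0, 0, 0, 0, 0, 0, 0, 0, 0, 0, 0, 0, 0, 228⟩,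
  ⟨0, 0, 0, 0, 0, 0, 0, 0, 0, 0, 0, 433, 0, 0, 0, 0, 0, 0, 0, 0, 0, 0, 0, 0, 0, 0, 0, 0, 138⟩,
  ⟨0, 0, 0, 0, 0, 0, 0, 0, 0, 0, 0, 863, 44, 0, 0, 0, 0, 0, 0, 0, 0, 0, 0, 0, 0, 0, 0, 0, 316⟩,
  ⟨0, 0, 0, 0, 0, 0, 0, 0, 0, 0, 0, 853, 87, 0, 0, 0, 0, 0, 0, 0, 0, 0, 0, 0, 0, 0, 0, 0, 349⟩,
  ⟨0, 0, 0, 0, 0, 0, 0, 0, 0, 0, 0, 279, 43, 0, 0, 0, 0, 0, 0, 0, 0, 0, 0, 0, 0, 0, 0, 0, 125⟩,
  ⟨0, 0, 0, 0, 0, 0, 0, 0, 0, 0, 0, 814, 171, 0, 0, 0, 0, 0, 0, 0, 0, 0, 0, 0, 0, 0, 0, 0, 394⟩,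
  ⟨0, 0, 0, 0, 0, 0, 0, 0, 0, 0, 0, 785, 211, 0, 0, 0, 0, 0, 0, 0, 0, 0, 0, 0, 0, 0, 0, 0, 406⟩,
  ⟨0, 0, 0, 0, 0, 0, 0, 0, 0, 0, 0, 750, 250, 0, 0, 0, 0, 0, 0, 0, 0, 0, 0, 0, 0, 0, 0, 0, 409⟩,
  ⟨0, 0, 0, 0, 0, 0, 0, 0, 0, 0, 0, 709, 287, 0, 0, 0, 0, 0, 0, 0, 0, 0, 0, 0, 0, 0, 0, 0, 406⟩,
  ⟨0, 0, 0, 0, 0, 0, 0, 0, 0, 0, 0, 663, 321, 0, 0, 0, 0, 0, 0, 0, 0, 0, 0, 0, 0, 0, 0, 0, 394⟩,
  ⟨0, 0, 0, 0, 0, 0, 0, 0, 0, 0, 0, 204, 118, 0, 0, 0, 0, 0, 0, 0, 0, 0, 0, 0, 0, 0, 0, 0, 125⟩,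
  ⟨0, 0, 0, 0, 0, 0, 0, 0, 0, 0, 0, 557, 383, 0, 0, 0, 0, 0, 0, 0, 0, 0, 0, 0, 0, 0, 0, 0, 349⟩,
  ⟨0, 0, 0, 0, 0, 0, 0, 0, 0, 0, 0, 497, 410, 0, 0, 0, 0, 0, 0, 0, 0, 0, 0, 0, 0, 0, 0, 0, 316⟩,
  ⟨0, 0, 0, 0, 0, 0, 0, 0, 0, 0, 0, 433, 433, 0, 0, 0, 0, 0, 0, 0, 0, 0, 0, 0, 0, 0, 0, 0, 276⟩,
  ⟨0, 0, -13424, -10000, 0, 0, 0, 0, 0, 0, 0, 16576, -23424, 0, 0, -21076, -22674, 0, 0, 0, 0, 0, 0, 0, 0, 0, 0, 0, -4523⟩,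
  ⟨0, 0, -53696, -40000, 0, 0, 0, 0, 0, 0, 0, 66304, -93696, 0, 0, -84304, -89196, 0, 0, 0, 0, 0, 0, 0, 0, 0, 0, 0, -17717⟩,
  ⟨0, 0, -3356, -2500, 0, 0, 0, 0, 0, 0, 0, 4144, -5856, 0, 0, -5269, -5481, 0, 0, 0, 0, 0, 0, 0, 0, 0, 0, 0, -1112⟩,
  ⟨0, 0, -6712, -5000, 0, 0, 0, 0, 0, 0, 0, 8288, -11712, 0, 0, -10163, -11337, 0, 0, 0, 0, 0, 0, 0, 0, 0, 0, 0, -2224⟩,
  ⟨0, 0, -53696, -40000, 0, 0, 0, 0, 0, 0, 0, 66304, -93696, 0, 0, -81304, -89196, 0, 0, 0, 0, 0, 0, 0, 0, 0, 0, 0, -17417⟩,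
  ⟨0, 0, -13424, -10000, 0, 0, 0, 0, 0, 0, 0, 16576, -23424, 0, 0, -20326, -21924, 0, 0, 0, 0, 0, 0, 0, 0, 0, 0, 0, -4373⟩,
  ⟨0, 0, -13424, -10000, 0, 0, 0, 0, 0, 0, 0, 16576, -23424, 0, 0, -19576, -22674, 0, 0, 0, 0, 0, 0, 0, 0, 0, 0, 0, -4523⟩,
  ⟨0, 0, -53696, -40000, 0, 0, 0, 0, 0, 0, 0, 66304, -93696, 0, 0, -78304, -89196, 0, 0, 0, 0, 0, 0, 0, 0, 0, 0, 0, -17717⟩,
  ⟨0, 0, -3356, -2500, 0, 0, 0, 0, 0, 0, 0, 4144, -5856, 0, 0, -4894, -5481, 0, 0, 0, 0, 0, 0, 0, 0, 0, 0, 0, -1112⟩]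

def tree_N2 : Tree := .N 0 (.N 5 (.L [(0, 925), (7, 253), (9, 2520), (42, 2774), (71, 136), (85, 1)]) (.N 1 (.N 1 (.N 0 (.N 5 (.L [(0, 10539), (2, 107), (9, 31615), (34, 318), (39, 318), (42, 31616), (70, 1578), (86, 4)]) (.N 0 (.N 4 (.N 3 (.L [(2, 21), (38, 61), (39, 61), (40, 61), (62, 2774), (63, 1435), (71, 1), (84, 1)]) (.N 4 (.L [(2, 11), (37, 30), (39, 31), (81, 1)]) (.N 4 (.L [(0, 11), (2, 5), (11, 31), (38, 14), (39, 14), (40, 14), (53, 14), (81, 1)]) (.N 1 (.L [(2, 24), (38, 71), (39, 70), (84, 1)]) (.N 1 (.L [(2, 17), (9, 161), (38, 50), (39, 50), (57, 54), (84, 1)]) (.N 2 (.N 2 (.L [(1, 1), (25, 2), (39, 2), (40, 2), (63, 71)]) (.N 3 (.L [(2, 14), (38, 41), (39, 41), (40, 41), (62, 2774), (63, 2137), (71, 1), (84, 1)]) (.N 2 (.L [(1, 17), (2, 19), (11, 191), (26, 48), (38, 56), (39, 104), (40, 104),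 (44, 10), (57, 64), (63, 2774), (84, 1)]) (.N 3 (.L [(2, 12), (38, 34), (39, 34), (40, 34), (62, 2774), (63, 1894), (71, 1), (84, 1)]) (.L [(0, 1391), (1, 999), (2, 359), (11, 4171), (26, 2996), (38, 1076), (39, 4072), (40, 4072), (62, 71138), (63, 45390), (71, 470), (84, 19)]))))) (.L [(1, 82), (2, 39), (26, 245), (38, 115), (39, 360), (62, 9367), (71, 13), (84, 1)]))))))) (.N 0 (.N 4 (.N 3 (.L [(2, 6), (38, 15), (39, 15), (40, 15), (62, 6244), (63, 4286), (84, 1)]) (.N 2 (.N 3 (.L [(62, 17823), (63, 21077), (83, 1)]) (.N 2 (.L [(1, 1), (25, 1), (39, 1), (40, 1), (63, 47)]) (.L [(1, 96), (2, 3), (26, 285), (38, 6), (39, 292), (62, 6244), (63, 5647), (71, 18), (84, 1)]))) (.N 3 (.L [(62, 6244), (63, 2063), (84, 1)]) (.N 2 (.L [(1, 594), (2, 83), (26, 1781), (38, 247), (39, 2028), (62, 47425), (63, 21192), (71,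 77), (84, 7)]) (.L [(1, 6), (2, 1), (22, 15), (36, 2), (39, 17), (41, 15), (42, 15), (62, 107)]))))) (.L [(0, 2), (2, 36), (9, 3), (34, 107), (39, 106), (42, 3), (71, 1)])) (.L [(2, 183), (34, 331), (36, 215), (39, 547), (70, 302), (87, 8)]))) (.L [(2, 15), (34, 26), (36, 16), (39, 43), (69, 107), (87, 1)]))) (.L [(69, 1)])) (.L [(0, 1), (11, 364), (57, 122), (71, 35)])) (.L [(11, 20), (57, 7), (74, 2)]))) (.L [(69, 1)])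

theorem ok_N2 : tree_N2.check 1024 rows_N2 boxN = true := by decide +kernel

theorem N2s {X1 Y1 X2 Y2 X3 Y3 V1 V2 V3 p q r s h k : ℝ}
    (c : NCfg X1 Y1 X2 Y2 X3 Y3 V1 V2 V3 p q r s h k)
    (n1 : 3 * (1 + X1) ^ 2 + (1 + Y1) ^ 2 ≤ (3481 / 2500))
    (ht : -(3 * (1 + X1) * (-1 + X3) + (1 + Y1) * (1 + Y3)) + (3 * (-1 + X3) ^ 2 + (1 + Y3) ^ 2) / 16 - 13424 / 10000 * ((1 + X1) * (1 + Y3) - (1 + Y1) * (-1 + X3)) ≤ 0) : False := by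
  have hH : Hyp rows_N2 (NCfg.pt X1 Y1 X2 Y2 X3 Y3 V1 V2 V3 p q r s h k) := by
    refine c.hyp ?_
    intro R hR
    simp only [List.mem_cons, List.not_mem_nil, or_false] at hR
    rcases hR with rfl | rfl | rfl | rfl | rfl | rfl | rfl | rfl | rfl | rfl | rfl | rfl | rfl | rfl | rfl | rfl | rfl | rfl | rfl | rfl | rfl | rfl | rfl | rfl
    · simp only [Row.ev, NCfg.pt]; push_cast; linarith [lin_of_sq n1 (853) (-87) (591) (by norm_num) (by norm_num)]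
    · simp only [Row.ev, NCfg.pt]; push_cast; linarith [lin_of_sq n1 (863) (-44) (591) (by norm_num) (by norm_num)]
    · simp only [Row.ev, NCfg.pt]; push_cast; linarith [lin_of_sq n1 (866) (0) (590) (by norm_num) (by norm_num)]
    · simp only [Row.ev, NCfg.pt]; push_cast; linarith [lin_of_sq n1 (863) (44) (591) (by norm_num) (by norm_num)]
    · simp only [Row.ev, NCfg.pt]; push_cast; linarith [lin_of_sq n1 (853) (87) (591) (by norm_num) (by norm_num)]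
    · simp only [Row.ev, NCfg.pt]; push_cast; linarith [lin_of_sq n1 (837) (129) (591) (by norm_num) (by norm_num)]
    · simp only [Row.ev, NCfg.pt]; push_cast; linarith [lin_of_sq n1 (814) (171) (591) (by norm_num) (by norm_num)]
    · simp only [Row.ev, NCfg.pt]; push_cast; linarith [lin_of_sq n1 (785) (211) (590) (by norm_num) (by norm_num)]
    · simp only [Row.ev, NCfg.pt]; push_cast; linarith [lin_of_sq n1 (750) (250) (591) (by norm_num) (by norm_num)]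
    · simp only [Row.ev, NCfg.pt]; push_cast; linarith [lin_of_sq n1 (709) (287) (590) (by norm_num) (by norm_num)]
    · simp only [Row.ev, NCfg.pt]; push_cast; linarith [lin_of_sq n1 (663) (321) (590) (by norm_num) (by norm_num)]
    · simp only [Row.ev, NCfg.pt]; push_cast; linarith [lin_of_sq n1 (612) (354) (591) (by norm_num) (by norm_num)]
    · simp only [Row.ev, NCfg.pt]; push_cast; linarith [lin_of_sq n1 (557) (383) (591) (by norm_num) (by norm_num)]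
    · simp only [Row.ev, NCfg.pt]; push_cast; linarith [lin_of_sq n1 (497) (410) (591) (by norm_num) (by norm_num)]
    · simp only [Row.ev, NCfg.pt]; push_cast; linarith [lin_of_sq n1 (433) (433) (590) (by norm_num) (by norm_num)]
    · simp only [Row.ev, NCfg.pt]; push_cast; linarith [ht, tan_le (-1 + X3) (1 + Y3) (-6 / 5) (3 / 5)]
    · simp only [Row.ev, NCfg.pt]; push_cast; linarith [ht, tan_le (-1 + X3) (1 + Y3) (-6 / 5) (9 / 10)]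
    · simp only [Row.ev, NCfg.pt]; push_cast; linarith [ht, tan_le (-1 + X3) (1 + Y3) (-6 / 5) (6 / 5)]
    · simp only [Row.ev, NCfg.pt]; push_cast; linarith [ht, tan_le (-1 + X3) (1 + Y3) (-1) (3 / 5)]
    · simp only [Row.ev, NCfg.pt]; push_cast; linarith [ht, tan_le (-1 + X3) (1 + Y3) (-1) (9 / 10)]
    · simp only [Row.ev, NCfg.pt]; push_cast; linarith [ht, tan_le (-1 + X3) (1 + Y3) (-1) (6 / 5)]
    · simp only [Row.ev, NCfg.pt]; push_cast; linarith [ht, tan_le (-1 + X3) (1 + Y3) (-4 / 5) (3 / 5)]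
    · simp only [Row.ev, NCfg.pt]; push_cast; linarith [ht, tan_le (-1 + X3) (1 + Y3) (-4 / 5) (9 / 10)]
    · simp only [Row.ev, NCfg.pt]; push_cast; linarith [ht, tan_le (-1 + X3) (1 + Y3) (-4 / 5) (6 / 5)]
  refine tree_sound (D := 1024) hH tree_N2 boxN ok_N2 ?_
  simpa only [NCfg.pt, Int.cast_ofNat] using c.inbox

/-! certificate N3 (generated, 1 leaves) -/

def rows_N3 : List Row := cN ++ [
  ⟨0, 0, 0, 0, 0, 0, 0, 0, 0, 0, 0, 853, -87, 0, 0, 0, 0, 0, 0, 0, 0, 0, 0, 0, 0, 0, 0, 0, 175⟩,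
  ⟨0, 0, 0, 0, 0, 0, 0, 0, 0, 0, 0, 863, -44, 0, 0, 0, 0, 0, 0, 0, 0, 0, 0, 0, 0, 0, 0, 0, 228⟩,
  ⟨0, 0, 0, 0, 0, 0, 0, 0, 0, 0, 0, 433, 0, 0, 0, 0, 0, 0, 0, 0, 0, 0, 0, 0, 0, 0, 0, 0, 138⟩,
  ⟨0, 0, 0, 0, 0, 0, 0, 0, 0, 0, 0, 863, 44, 0, 0, 0, 0, 0, 0, 0, 0, 0, 0, 0, 0, 0, 0, 0, 316⟩,
  ⟨0, 0, 0, 0, 0, 0, 0, 0, 0, 0, 0, 853, 87, 0, 0, 0, 0, 0, 0, 0, 0, 0, 0, 0, 0, 0, 0, 0, 349⟩,
  ⟨0, 0, 0, 0, 0, 0, 0, 0, 0, 0, 0, 279, 43, 0, 0, 0, 0, 0, 0, 0, 0, 0, 0, 0, 0, 0, 0, 0, 125⟩,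
  ⟨0, 0, 0, 0, 0, 0, 0, 0, 0, 0, 0, 814, 171, 0, 0, 0, 0, 0, 0, 0, 0, 0, 0, 0, 0, 0, 0, 0, 394⟩,
  ⟨0, 0, 0, 0, 0, 0, 0, 0, 0, 0, 0, 785, 211, 0, 0, 0, 0, 0, 0, 0, 0, 0, 0, 0, 0, 0, 0, 0, 406⟩,
  ⟨0, 0, 0, 0, 0, 0, 0, 0, 0, 0, 0, 750, 250, 0, 0, 0, 0, 0, 0, 0, 0, 0, 0, 0, 0, 0, 0, 0, 409⟩,
  ⟨0, 0, 0, 0, 0, 0, 0, 0, 0, 0, 0, 709, 287, 0, 0, 0, 0, 0, 0, 0, 0, 0, 0, 0, 0, 0, 0, 0, 406⟩,
  ⟨0, 0, 0, 0, 0, 0, 0, 0, 0, 0, 0, 663, 321, 0, 0, 0, 0, 0, 0, 0, 0, 0, 0, 0, 0, 0, 0, 0, 394⟩,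
  ⟨0, 0, 0, 0, 0, 0, 0, 0, 0, 0, 0, 204, 118, 0, 0, 0, 0, 0, 0, 0, 0, 0, 0, 0, 0, 0, 0, 0, 125⟩,
  ⟨0, 0, 0, 0, 0, 0, 0, 0, 0, 0, 0, 557, 383, 0, 0, 0, 0, 0, 0, 0, 0, 0, 0, 0, 0, 0, 0, 0, 349⟩,
  ⟨0, 0, 0, 0, 0, 0, 0, 0, 0, 0, 0, 497, 410, 0, 0, 0, 0, 0, 0, 0, 0, 0, 0, 0, 0, 0, 0, 0, 316⟩,
  ⟨0, 0, 0, 0, 0, 0, 0, 0, 0, 0, 0, 433, 433, 0, 0, 0, 0, 0, 0, 0, 0, 0, 0, 0, 0, 0, 0, 0, 276⟩,
  ⟨0, 0, 0, 0, 0, 0, 0, 0, 0, 0, 0, 6928, 0, 0, 0, -433, 0, 0, 0, 0, 0, 0, 0, 0, 0, 0, 0, 0, 2721⟩,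
  ⟨0, 0, 0, 0, 0, 0, 0, 0, 0, 0, 0, 12800, 3056, 0, 0, -800, -191, 0, 0, 0, 0, 0, 0, 0, 0, 0, 0, 0, 7185⟩,
  ⟨0, 0, 0, 0, 0, 0, 0, 0, 0, 0, 0, 4896, 2832, 0, 0, -306, -177, 0, 0, 0, 0, 0, 0, 0, 0, 0, 0, 0, 3209⟩,
  ⟨0, 0, 0, 0, 0, 0, 0, 0, 0, 0, 0, 5296, 7392, 0, 0, -331, -462, 0, 0, 0, 0, 0, 0, 0, 0, 0, 0, 0, 3277⟩,
  ⟨0, 0, 0, 0, 0, 0, 0, 0, 0, 0, 0, 0, 2000, 0, 0, 0, -125, 0, 0, 0, 0, 0, 0, 0, 0, 0, 0, 0, -449⟩,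
  ⟨0, 0, 0, 0, 0, 0, 0, 0, 0, 0, 0, -5296, 7392, 0, 0, 331, -462, 0, 0, 0, 0, 0, 0, 0, 0, 0, 0, 0, -7977⟩,
  ⟨0, 0, 0, 0, 0, 0, 0, 0, 0, 0, 0, -4896, 2832, 0, 0, 306, -177, 0, 0, 0, 0, 0, 0, 0, 0, 0, 0, 0, -7195⟩,
  ⟨0, 0, 0, 0, 0, 0, 0, 0, 0, 0, 0, -12800, 3056, 0, 0, 800, -191, 0, 0, 0, 0, 0, 0, 0, 0, 0, 0, 0, -20015⟩,
  ⟨0, 0, 0, 0, 0, 0, 0, 0, 0, 0, 0, -6928, 0, 0, 0, 433, 0, 0, 0, 0, 0, 0, 0, 0, 0, 0, 0, 0, -12001⟩,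
  ⟨0, 0, 0, 0, 0, 0, 0, 0, 0, 0, 0, -12800, -3056, 0, 0, 800, 191, 0, 0, 0, 0, 0, 0, 0, 0, 0, 0, 0, -25745⟩,
  ⟨0, 0, 0, 0, 0, 0, 0, 0, 0, 0, 0, -4896, -2832, 0, 0, 306, 177, 0, 0, 0, 0, 0, 0, 0, 0, 0, 0, 0, -12505⟩,
  ⟨0, 0, 0, 0, 0, 0, 0, 0, 0, 0, 0, -5296, -7392, 0, 0, 331, 462, 0, 0, 0, 0, 0, 0, 0, 0, 0, 0, 0, -21837⟩,
  ⟨0, 0, 0, 0, 0, 0, 0, 0, 0, 0, 0, 0, -2000, 0, 0, 0, 125, 0, 0, 0, 0, 0, 0, 0, 0, 0, 0, 0, -4199⟩,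
  ⟨0, 0, 0, 0, 0, 0, 0, 0, 0, 0, 0, 5296, -7392, 0, 0, -331, 462, 0, 0, 0, 0, 0, 0, 0, 0, 0, 0, 0, -10583⟩,
  ⟨0, 0, 0, 0, 0, 0, 0, 0, 0, 0, 0, 4896, -2832, 0, 0, -306, 177, 0, 0, 0, 0, 0, 0, 0, 0, 0, 0, 0, -2101⟩,
  ⟨0, 0, 0, 0, 0, 0, 0, 0, 0, 0, 0, 12800, -3056, 0, 0, -800, 191, 0, 0, 0, 0, 0, 0, 0, 0, 0, 0, 0, 1455⟩]

def tree_N3 : Tree := .L [(0, 121), (2, 2), (7, 242), (9, 118), (38, 3), (39, 3), (42, 116), (80, 1)]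

theorem ok_N3 : tree_N3.check 1024 rows_N3 boxN = true := by decide +kernel

theorem N3s {X1 Y1 X2 Y2 X3 Y3 V1 V2 V3 p q r s h k : ℝ}
    (c : NCfg X1 Y1 X2 Y2 X3 Y3 V1 V2 V3 p q r s h k)
    (n1 : 3 * (1 + X1) ^ 2 + (1 + Y1) ^ 2 ≤ (3481 / 2500))
    (hn : 3 * (1 + X1 - (-1 + X3) / 16) ^ 2 + (1 + Y1 - (1 + Y3) / 16) ^ 2 ≤ (841 / 625)) : False := by
  have hH : Hyp rows_N3 (NCfg.pt X1 Y1 X2 Y2 X3 Y3 V1 V2 V3 p q r s h k) := by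
    refine c.hyp ?_
    intro R hR
    simp only [List.mem_cons, List.not_mem_nil, or_false] at hR
    rcases hR with rfl | rfl | rfl | rfl | rfl | rfl | rfl | rfl | rfl | rfl | rfl | rfl | rfl | rfl | rfl | rfl | rfl | rfl | rfl | rfl | rfl | rfl | rfl | rfl | rfl | rfl | rfl | rfl | rfl | rfl | rfl
    · simp only [Row.ev, NCfg.pt]; push_cast; linarith [lin_of_sq n1 (853) (-87) (591) (by norm_num) (by norm_num)]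
    · simp only [Row.ev, NCfg.pt]; push_cast; linarith [lin_of_sq n1 (863) (-44) (591) (by norm_num) (by norm_num)]
    · simp only [Row.ev, NCfg.pt]; push_cast; linarith [lin_of_sq n1 (866) (0) (590) (by norm_num) (by norm_num)]
    · simp only [Row.ev, NCfg.pt]; push_cast; linarith [lin_of_sq n1 (863) (44) (591) (by norm_num) (by norm_num)]
    · simp only [Row.ev, NCfg.pt]; push_cast; linarith [lin_of_sq n1 (853) (87) (591) (by norm_num) (by norm_num)]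
    · simp only [Row.ev, NCfg.pt]; push_cast; linarith [lin_of_sq n1 (837) (129) (591) (by norm_num) (by norm_num)]
    · simp only [Row.ev, NCfg.pt]; push_cast; linarith [lin_of_sq n1 (814) (171) (591) (by norm_num) (by norm_num)]
    · simp only [Row.ev, NCfg.pt]; push_cast; linarith [lin_of_sq n1 (785) (211) (590) (by norm_num) (by norm_num)]
    · simp only [Row.ev, NCfg.pt]; push_cast; linarith [lin_of_sq n1 (750) (250) (591) (by norm_num) (by norm_num)]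
    · simp only [Row.ev, NCfg.pt]; push_cast; linarith [lin_of_sq n1 (709) (287) (590) (by norm_num) (by norm_num)]
    · simp only [Row.ev, NCfg.pt]; push_cast; linarith [lin_of_sq n1 (663) (321) (590) (by norm_num) (by norm_num)]
    · simp only [Row.ev, NCfg.pt]; push_cast; linarith [lin_of_sq n1 (612) (354) (591) (by norm_num) (by norm_num)]
    · simp only [Row.ev, NCfg.pt]; push_cast; linarith [lin_of_sq n1 (557) (383) (591) (by norm_num) (by norm_num)]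
    · simp only [Row.ev, NCfg.pt]; push_cast; linarith [lin_of_sq n1 (497) (410) (591) (by norm_num) (by norm_num)]
    · simp only [Row.ev, NCfg.pt]; push_cast; linarith [lin_of_sq n1 (433) (433) (590) (by norm_num) (by norm_num)]
    · simp only [Row.ev, NCfg.pt]; push_cast; linarith [lin_of_sq hn (866) (0) (580) (by norm_num) (by norm_num)]
    · simp only [Row.ev, NCfg.pt]; push_cast; linarith [lin_of_sq hn (800) (191) (580) (by norm_num) (by norm_num)]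
    · simp only [Row.ev, NCfg.pt]; push_cast; linarith [lin_of_sq hn (612) (354) (581) (by norm_num) (by norm_num)]
    · simp only [Row.ev, NCfg.pt]; push_cast; linarith [lin_of_sq hn (331) (462) (580) (by norm_num) (by norm_num)]
    · simp only [Row.ev, NCfg.pt]; push_cast; linarith [lin_of_sq hn (0) (500) (581) (by norm_num) (by norm_num)]
    · simp only [Row.ev, NCfg.pt]; push_cast; linarith [lin_of_sq hn (-331) (462) (580) (by norm_num) (by norm_num)]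
    · simp only [Row.ev, NCfg.pt]; push_cast; linarith [lin_of_sq hn (-612) (354) (581) (by norm_num) (by norm_num)]
    · simp only [Row.ev, NCfg.pt]; push_cast; linarith [lin_of_sq hn (-800) (191) (580) (by norm_num) (by norm_num)]
    · simp only [Row.ev, NCfg.pt]; push_cast; linarith [lin_of_sq hn (-866) (0) (580) (by norm_num) (by norm_num)]
    · simp only [Row.ev, NCfg.pt]; push_cast; linarith [lin_of_sq hn (-800) (-191) (580) (by norm_num) (by norm_num)]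
    · simp only [Row.ev, NCfg.pt]; push_cast; linarith [lin_of_sq hn (-612) (-354) (581) (by norm_num) (by norm_num)]
    · simp only [Row.ev, NCfg.pt]; push_cast; linarith [lin_of_sq hn (-331) (-462) (580) (by norm_num) (by norm_num)]
    · simp only [Row.ev, NCfg.pt]; push_cast; linarith [lin_of_sq hn (0) (-500) (581) (by norm_num) (by norm_num)]
    · simp only [Row.ev, NCfg.pt]; push_cast; linarith [lin_of_sq hn (331) (-462) (580) (by norm_num) (by norm_num)]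
    · simp only [Row.ev, NCfg.pt]; push_cast; linarith [lin_of_sq hn (612) (-354) (581) (by norm_num) (by norm_num)]
    · simp only [Row.ev, NCfg.pt]; push_cast; linarith [lin_of_sq hn (800) (-191) (580) (by norm_num) (by norm_num)]
  refine tree_sound (D := 1024) hH tree_N3 boxN ok_N3 ?_
  simpa only [NCfg.pt, Int.cast_ofNat] using c.inbox

/-! certificate N4 (generated, 1 leaves) -/

def rows_N4 : List Row := cN ++ [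
  ⟨0, 0, 0, 0, 0, 0, 0, 0, 0, 0, 0, 853, -87, 0, 0, 0, 0, 0, 0, 0, 0, 0, 0, 0, 0, 0, 0, 0, 175⟩,
  ⟨0, 0, 0, 0, 0, 0, 0, 0, 0, 0, 0, 863, -44, 0, 0, 0, 0, 0, 0, 0, 0, 0, 0, 0, 0, 0, 0, 0, 228⟩,
  ⟨0, 0, 0, 0, 0, 0, 0, 0, 0, 0, 0, 433, 0, 0, 0, 0, 0, 0, 0, 0, 0, 0, 0, 0, 0, 0, 0, 0, 138⟩,
  ⟨0, 0, 0, 0, 0, 0, 0, 0, 0, 0, 0, 863, 44, 0, 0, 0, 0, 0, 0, 0, 0, 0, 0, 0, 0, 0, 0, 0, 316⟩,
  ⟨0, 0, 0, 0, 0, 0, 0, 0, 0, 0, 0, 853, 87, 0, 0, 0, 0, 0, 0, 0, 0, 0, 0, 0, 0, 0, 0, 0, 349⟩,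
  ⟨0, 0, 0, 0, 0, 0, 0, 0, 0, 0, 0, 279, 43, 0, 0, 0, 0, 0, 0, 0, 0, 0, 0, 0, 0, 0, 0, 0, 125⟩,
  ⟨0, 0, 0, 0, 0, 0, 0, 0, 0, 0, 0, 814, 171, 0, 0, 0, 0, 0, 0, 0, 0, 0, 0, 0, 0, 0, 0, 0, 394⟩,
  ⟨0, 0, 0, 0, 0, 0, 0, 0, 0, 0, 0, 785, 211, 0, 0, 0, 0, 0, 0, 0, 0, 0, 0, 0, 0, 0, 0, 0, 406⟩,
  ⟨0, 0, 0, 0, 0, 0, 0, 0, 0, 0, 0, 750, 250, 0, 0, 0, 0, 0, 0, 0, 0, 0, 0, 0, 0, 0, 0, 0, 409⟩,
  ⟨0, 0, 0, 0, 0, 0, 0, 0, 0, 0, 0, 709, 287, 0, 0, 0, 0, 0, 0, 0, 0, 0, 0, 0, 0, 0, 0, 0, 406⟩,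
  ⟨0, 0, 0, 0, 0, 0, 0, 0, 0, 0, 0, 663, 321, 0, 0, 0, 0, 0, 0, 0, 0, 0, 0, 0, 0, 0, 0, 0, 394⟩,
  ⟨0, 0, 0, 0, 0, 0, 0, 0, 0, 0, 0, 204, 118, 0, 0, 0, 0, 0, 0, 0, 0, 0, 0, 0, 0, 0, 0, 0, 125⟩,
  ⟨0, 0, 0, 0, 0, 0, 0, 0, 0, 0, 0, 557, 383, 0, 0, 0, 0, 0, 0, 0, 0, 0, 0, 0, 0, 0, 0, 0, 349⟩,
  ⟨0, 0, 0, 0, 0, 0, 0, 0, 0, 0, 0, 497, 410, 0, 0, 0, 0, 0, 0, 0, 0, 0, 0, 0, 0, 0, 0, 0, 316⟩,
  ⟨0, 0, 0, 0, 0, 0, 0, 0, 0, 0, 0, 433, 433, 0, 0, 0, 0, 0, 0, 0, 0, 0, 0, 0, 0, 0, 0, 0, 276⟩,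
  ⟨80, 5, -5, 0, 0, 0, 0, 0, 0, 0, 0, 155, -5, -75, 85, -5, -5, 0, 0, 0, 0, 0, 0, 0, 0, 0, 0, 0, 96⟩]

def tree_N4 : Tree := .L [(0, 53), (1, 28), (2, 1), (9, 108), (11, 49), (15, 83), (38, 1), (39, 84), (40, 84), (41, 242), (42, 43), (71, 5), (79, 53)]

theorem ok_N4 : tree_N4.check 1024 rows_N4 boxN = true := by decide +kernel

theorem N4s {X1 Y1 X2 Y2 X3 Y3 V1 V2 V3 p q r s h k : ℝ}
    (c : NCfg X1 Y1 X2 Y2 X3 Y3 V1 V2 V3 p q r s h k)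
    (n1 : 3 * (1 + X1) ^ 2 + (1 + Y1) ^ 2 ≤ (3481 / 2500))
    (ht : ((1 + X1) * (2 + Y2) - (1 + Y1) * X2) - ((1 + X1) * (1 + Y3) - (1 + Y1) * (-1 + X3)) / 16 + (X2 * (1 + Y3) - (2 + Y2) * (-1 + X3)) / 16 ≤ 4 / 5) : False := by
  have hH : Hyp rows_N4 (NCfg.pt X1 Y1 X2 Y2 X3 Y3 V1 V2 V3 p q r s h k) := by
    refine c.hyp ?_
    intro R hR
    simp only [List.mem_cons, List.not_mem_nil, or_false] at hR
    rcases hR with rfl | rfl | rfl | rfl | rfl | rfl | rfl | rfl | rfl | rfl | rfl | rfl | rfl | rfl | rfl | rfl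
    · simp only [Row.ev, NCfg.pt]; push_cast; linarith [lin_of_sq n1 (853) (-87) (591) (by norm_num) (by norm_num)]
    · simp only [Row.ev, NCfg.pt]; push_cast; linarith [lin_of_sq n1 (863) (-44) (591) (by norm_num) (by norm_num)]
    · simp only [Row.ev, NCfg.pt]; push_cast; linarith [lin_of_sq n1 (866) (0) (590) (by norm_num) (by norm_num)]
    · simp only [Row.ev, NCfg.pt]; push_cast; linarith [lin_of_sq n1 (863) (44) (591) (by norm_num) (by norm_num)]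
    · simp only [Row.ev, NCfg.pt]; push_cast; linarith [lin_of_sq n1 (853) (87) (591) (by norm_num) (by norm_num)]
    · simp only [Row.ev, NCfg.pt]; push_cast; linarith [lin_of_sq n1 (837) (129) (591) (by norm_num) (by norm_num)]
    · simp only [Row.ev, NCfg.pt]; push_cast; linarith [lin_of_sq n1 (814) (171) (591) (by norm_num) (by norm_num)]
    · simp only [Row.ev, NCfg.pt]; push_cast; linarith [lin_of_sq n1 (785) (211) (590) (by norm_num) (by norm_num)]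
    · simp only [Row.ev, NCfg.pt]; push_cast; linarith [lin_of_sq n1 (750) (250) (591) (by norm_num) (by norm_num)]
    · simp only [Row.ev, NCfg.pt]; push_cast; linarith [lin_of_sq n1 (709) (287) (590) (by norm_num) (by norm_num)]
    · simp only [Row.ev, NCfg.pt]; push_cast; linarith [lin_of_sq n1 (663) (321) (590) (by norm_num) (by norm_num)]
    · simp only [Row.ev, NCfg.pt]; push_cast; linarith [lin_of_sq n1 (612) (354) (591) (by norm_num) (by norm_num)]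
    · simp only [Row.ev, NCfg.pt]; push_cast; linarith [lin_of_sq n1 (557) (383) (591) (by norm_num) (by norm_num)]
    · simp only [Row.ev, NCfg.pt]; push_cast; linarith [lin_of_sq n1 (497) (410) (591) (by norm_num) (by norm_num)]
    · simp only [Row.ev, NCfg.pt]; push_cast; linarith [lin_of_sq n1 (433) (433) (590) (by norm_num) (by norm_num)]
    · simp only [Row.ev, NCfg.pt]; push_cast; linarith [ht]
  refine tree_sound (D := 1024) hH tree_N4 boxN ok_N4 ?_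
  simpa only [NCfg.pt, Int.cast_ofNat] using c.inbox

/-! certificate N5 (generated, 1 leaves) -/

def rows_N5 : List Row := cN ++ [
  ⟨0, 0, 0, 0, 0, 0, 0, 0, 0, 0, 0, 853, -87, 0, 0, 0, 0, 0, 0, 0, 0, 0, 0, 0, 0, 0, 0, 0, 175⟩,
  ⟨0, 0, 0, 0, 0, 0, 0, 0, 0, 0, 0, 863, -44, 0, 0, 0, 0, 0, 0, 0, 0, 0, 0, 0, 0, 0, 0, 0, 228⟩,
  ⟨0, 0, 0, 0, 0, 0, 0, 0, 0, 0, 0, 433, 0, 0, 0, 0, 0, 0, 0, 0, 0, 0, 0, 0, 0, 0, 0, 0, 138⟩,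
  ⟨0, 0, 0, 0, 0, 0, 0, 0, 0, 0, 0, 863, 44, 0, 0, 0, 0, 0, 0, 0, 0, 0, 0, 0, 0, 0, 0, 0, 316⟩,
  ⟨0, 0, 0, 0, 0, 0, 0, 0, 0, 0, 0, 853, 87, 0, 0, 0, 0, 0, 0, 0, 0, 0, 0, 0, 0, 0, 0, 0, 349⟩,
  ⟨0, 0, 0, 0, 0, 0, 0, 0, 0, 0, 0, 279, 43, 0, 0, 0, 0, 0, 0, 0, 0, 0, 0, 0, 0, 0, 0, 0, 125⟩,
  ⟨0, 0, 0, 0, 0, 0, 0, 0, 0, 0, 0, 814, 171, 0, 0, 0, 0, 0, 0, 0, 0, 0, 0, 0, 0, 0, 0, 0, 394⟩,
  ⟨0, 0, 0, 0, 0, 0, 0, 0, 0, 0, 0, 785, 211, 0, 0, 0, 0, 0, 0, 0, 0, 0, 0, 0, 0, 0, 0, 0, 406⟩,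
  ⟨0, 0, 0, 0, 0, 0, 0, 0, 0, 0, 0, 750, 250, 0, 0, 0, 0, 0, 0, 0, 0, 0, 0, 0, 0, 0, 0, 0, 409⟩,
  ⟨0, 0, 0, 0, 0, 0, 0, 0, 0, 0, 0, 709, 287, 0, 0, 0, 0, 0, 0, 0, 0, 0, 0, 0, 0, 0, 0, 0, 406⟩,
  ⟨0, 0, 0, 0, 0, 0, 0, 0, 0, 0, 0, 663, 321, 0, 0, 0, 0, 0, 0, 0, 0, 0, 0, 0, 0, 0, 0, 0, 394⟩,
  ⟨0, 0, 0, 0, 0, 0, 0, 0, 0, 0, 0, 204, 118, 0, 0, 0, 0, 0, 0, 0, 0, 0, 0, 0, 0, 0, 0, 0, 125⟩,
  ⟨0, 0, 0, 0, 0, 0, 0, 0, 0, 0, 0, 557, 383, 0, 0, 0, 0, 0, 0, 0, 0, 0, 0, 0, 0, 0, 0, 0, 349⟩,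
  ⟨0, 0, 0, 0, 0, 0, 0, 0, 0, 0, 0, 497, 410, 0, 0, 0, 0, 0, 0, 0, 0, 0, 0, 0, 0, 0, 0, 0, 316⟩,
  ⟨0, 0, 0, 0, 0, 0, 0, 0, 0, 0, 0, 433, 433, 0, 0, 0, 0, 0, 0, 0, 0, 0, 0, 0, 0, 0, 0, 0, 276⟩,
  ⟨0, 0, 0, 0, 0, 0, 0, 0, 0, 0, 0, 0, 0, 0, 0, 433, 0, 0, 0, 0, 0, 0, 0, 0, 0, 0, 0, 0, -833⟩,
  ⟨0, 0, 0, 0, 0, 0, 0, 0, 0, 0, 0, 0, 0, 0, 0, 800, 191, 0, 0, 0, 0, 0, 0, 0, 0, 0, 0, 0, -1409⟩,
  ⟨0, 0, 0, 0, 0, 0, 0, 0, 0, 0, 0, 0, 0, 0, 0, 204, 118, 0, 0, 0, 0, 0, 0, 0, 0, 0, 0, 0, -353⟩,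
  ⟨0, 0, 0, 0, 0, 0, 0, 0, 0, 0, 0, 0, 0, 0, 0, 331, 462, 0, 0, 0, 0, 0, 0, 0, 0, 0, 0, 0, -669⟩,
  ⟨0, 0, 0, 0, 0, 0, 0, 0, 0, 0, 0, 0, 0, 0, 0, 0, 500, 0, 0, 0, 0, 0, 0, 0, 0, 0, 0, 0, -301⟩,
  ⟨0, 0, 0, 0, 0, 0, 0, 0, 0, 0, 0, 0, 0, 0, 0, -331, 462, 0, 0, 0, 0, 0, 0, 0, 0, 0, 0, 0, -7⟩,
  ⟨0, 0, 0, 0, 0, 0, 0, 0, 0, 0, 0, 0, 0, 0, 0, -204, 118, 0, 0, 0, 0, 0, 0, 0, 0, 0, 0, 0, 55⟩,
  ⟨0, 0, 0, 0, 0, 0, 0, 0, 0, 0, 0, 0, 0, 0, 0, -800, 191, 0, 0, 0, 0, 0, 0, 0, 0, 0, 0, 0, 191⟩,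
  ⟨0, 0, 0, 0, 0, 0, 0, 0, 0, 0, 0, 0, 0, 0, 0, -433, 0, 0, 0, 0, 0, 0, 0, 0, 0, 0, 0, 0, 33⟩,
  ⟨0, 0, 0, 0, 0, 0, 0, 0, 0, 0, 0, 0, 0, 0, 0, -800, -191, 0, 0, 0, 0, 0, 0, 0, 0, 0, 0, 0, -191⟩,
  ⟨0, 0, 0, 0, 0, 0, 0, 0, 0, 0, 0, 0, 0, 0, 0, -204, -118, 0, 0, 0, 0, 0, 0, 0, 0, 0, 0, 0, -181⟩,
  ⟨0, 0, 0, 0, 0, 0, 0, 0, 0, 0, 0, 0, 0, 0, 0, -331, -462, 0, 0, 0, 0, 0, 0, 0, 0, 0, 0, 0, -931⟩,
  ⟨0, 0, 0, 0, 0, 0, 0, 0, 0, 0, 0, 0, 0, 0, 0, 0, -500, 0, 0, 0, 0, 0, 0, 0, 0, 0, 0, 0, -1301⟩,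
  ⟨0, 0, 0, 0, 0, 0, 0, 0, 0, 0, 0, 0, 0, 0, 0, 331, -462, 0, 0, 0, 0, 0, 0, 0, 0, 0, 0, 0, -1593⟩,
  ⟨0, 0, 0, 0, 0, 0, 0, 0, 0, 0, 0, 0, 0, 0, 0, 204, -118, 0, 0, 0, 0, 0, 0, 0, 0, 0, 0, 0, -589⟩,
  ⟨0, 0, 0, 0, 0, 0, 0, 0, 0, 0, 0, 0, 0, 0, 0, 800, -191, 0, 0, 0, 0, 0, 0, 0, 0, 0, 0, 0, -1791⟩]

def tree_N5 : Tree := .L [(0, 183), (2, 3), (7, 333), (9, 213), (34, 7), (39, 7), (42, 547), (70, 22), (86, 5)]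

theorem ok_N5 : tree_N5.check 1024 rows_N5 boxN = true := by decide +kernel

theorem N5s {X1 Y1 X2 Y2 X3 Y3 V1 V2 V3 p q r s h k : ℝ}
    (c : NCfg X1 Y1 X2 Y2 X3 Y3 V1 V2 V3 p q r s h k)
    (n1 : 3 * (1 + X1) ^ 2 + (1 + Y1) ^ 2 ≤ (3481 / 2500))
    (hn : 3 * (-1 + X3) ^ 2 + (1 + Y3) ^ 2 ≤ (64 / 25)) : False := by
  have hH : Hyp rows_N5 (NCfg.pt X1 Y1 X2 Y2 X3 Y3 V1 V2 V3 p q r s h k) := by
    refine c.hyp ?_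
    intro R hR
    simp only [List.mem_cons, List.not_mem_nil, or_false] at hR
    rcases hR with rfl | rfl | rfl | rfl | rfl | rfl | rfl | rfl | rfl | rfl | rfl | rfl | rfl | rfl | rfl | rfl | rfl | rfl | rfl | rfl | rfl | rfl | rfl | rfl | rfl | rfl | rfl | rfl | rfl | rfl | rfl
    · simp only [Row.ev, NCfg.pt]; push_cast; linarith [lin_of_sq n1 (853) (-87) (591) (by norm_num) (by norm_num)]
    · simp only [Row.ev, NCfg.pt]; push_cast; linarith [lin_of_sq n1 (863) (-44) (591) (by norm_num) (by norm_num)]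
    · simp only [Row.ev, NCfg.pt]; push_cast; linarith [lin_of_sq n1 (866) (0) (590) (by norm_num) (by norm_num)]
    · simp only [Row.ev, NCfg.pt]; push_cast; linarith [lin_of_sq n1 (863) (44) (591) (by norm_num) (by norm_num)]
    · simp only [Row.ev, NCfg.pt]; push_cast; linarith [lin_of_sq n1 (853) (87) (591) (by norm_num) (by norm_num)]
    · simp only [Row.ev, NCfg.pt]; push_cast; linarith [lin_of_sq n1 (837) (129) (591) (by norm_num) (by norm_num)]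
    · simp only [Row.ev, NCfg.pt]; push_cast; linarith [lin_of_sq n1 (814) (171) (591) (by norm_num) (by norm_num)]
    · simp only [Row.ev, NCfg.pt]; push_cast; linarith [lin_of_sq n1 (785) (211) (590) (by norm_num) (by norm_num)]
    · simp only [Row.ev, NCfg.pt]; push_cast; linarith [lin_of_sq n1 (750) (250) (591) (by norm_num) (by norm_num)]
    · simp only [Row.ev, NCfg.pt]; push_cast; linarith [lin_of_sq n1 (709) (287) (590) (by norm_num) (by norm_num)]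
    · simp only [Row.ev, NCfg.pt]; push_cast; linarith [lin_of_sq n1 (663) (321) (590) (by norm_num) (by norm_num)]
    · simp only [Row.ev, NCfg.pt]; push_cast; linarith [lin_of_sq n1 (612) (354) (591) (by norm_num) (by norm_num)]
    · simp only [Row.ev, NCfg.pt]; push_cast; linarith [lin_of_sq n1 (557) (383) (591) (by norm_num) (by norm_num)]
    · simp only [Row.ev, NCfg.pt]; push_cast; linarith [lin_of_sq n1 (497) (410) (591) (by norm_num) (by norm_num)]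
    · simp only [Row.ev, NCfg.pt]; push_cast; linarith [lin_of_sq n1 (433) (433) (590) (by norm_num) (by norm_num)]
    · simp only [Row.ev, NCfg.pt]; push_cast; linarith [lin_of_sq hn (866) (0) (800) (by norm_num) (by norm_num)]
    · simp only [Row.ev, NCfg.pt]; push_cast; linarith [lin_of_sq hn (800) (191) (800) (by norm_num) (by norm_num)]
    · simp only [Row.ev, NCfg.pt]; push_cast; linarith [lin_of_sq hn (612) (354) (801) (by norm_num) (by norm_num)]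
    · simp only [Row.ev, NCfg.pt]; push_cast; linarith [lin_of_sq hn (331) (462) (800) (by norm_num) (by norm_num)]
    · simp only [Row.ev, NCfg.pt]; push_cast; linarith [lin_of_sq hn (0) (500) (801) (by norm_num) (by norm_num)]
    · simp only [Row.ev, NCfg.pt]; push_cast; linarith [lin_of_sq hn (-331) (462) (800) (by norm_num) (by norm_num)]
    · simp only [Row.ev, NCfg.pt]; push_cast; linarith [lin_of_sq hn (-612) (354) (801) (by norm_num) (by norm_num)]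
    · simp only [Row.ev, NCfg.pt]; push_cast; linarith [lin_of_sq hn (-800) (191) (800) (by norm_num) (by norm_num)]
    · simp only [Row.ev, NCfg.pt]; push_cast; linarith [lin_of_sq hn (-866) (0) (800) (by norm_num) (by norm_num)]
    · simp only [Row.ev, NCfg.pt]; push_cast; linarith [lin_of_sq hn (-800) (-191) (800) (by norm_num) (by norm_num)]
    · simp only [Row.ev, NCfg.pt]; push_cast; linarith [lin_of_sq hn (-612) (-354) (801) (by norm_num) (by norm_num)]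
    · simp only [Row.ev, NCfg.pt]; push_cast; linarith [lin_of_sq hn (-331) (-462) (800) (by norm_num) (by norm_num)]
    · simp only [Row.ev, NCfg.pt]; push_cast; linarith [lin_of_sq hn (0) (-500) (801) (by norm_num) (by norm_num)]
    · simp only [Row.ev, NCfg.pt]; push_cast; linarith [lin_of_sq hn (331) (-462) (800) (by norm_num) (by norm_num)]
    · simp only [Row.ev, NCfg.pt]; push_cast; linarith [lin_of_sq hn (612) (-354) (801) (by norm_num) (by norm_num)]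
    · simp only [Row.ev, NCfg.pt]; push_cast; linarith [lin_of_sq hn (800) (-191) (800) (by norm_num) (by norm_num)]
  refine tree_sound (D := 1024) hH tree_N5 boxN ok_N5 ?_
  simpa only [NCfg.pt, Int.cast_ofNat] using c.inbox

end Pool.Agent.H30.Q
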