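import Pool.Agent.H30.P6.NBase

set_option autoImplicit false
set_option maxRecDepth 100000

noncomputable section

namespace Pool.Agent.H30.Q

open Pool.Agent.H30.P6 (VLe Str)

/-! certificate S1 (generated, 136 leaves) -/

def rows_S1 : List Row := cN ++ [
  ⟨50, 50, 0, 0, 0, 0, 0, 0, 0, 0, 0, 95, 0, 0, 100, -95, 0, 0, 0, 4, 0, 0, 0, 0, 4, 4, 0, 4, 1⟩,
  ⟨50, 50, 0, 0, 0, 0, 0, 0, 0, 0, 0, 95, 0, 0, 100, -95, 0, 0, 0, 0, 4, 0, 4, 4, 4, 4, 4, 4, 1⟩,
  ⟨50, 50, 0, 0, 0, 0, 0, 0, 0, 0, 0, 95, 0, 0, 100, -95, 0, 0, 0, 0, 0, 4, 4, 4, 0, 0, 4, 0, 1⟩]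

def tree_S1 : Tree := .N 2 (.N 3 (.N 4 (.N 0 (.N 2 (.N 4 (.L [(5, 19), (15, 59), (17, 40), (35, 2), (39, 102), (40, 102), (62, 135), (63, 161), (64, 5), (65, 25), (66, 1)]) (.L [(7, 180), (15, 249), (17, 477), (27, 8), (39, 735), (40, 735), (42, 907), (62, 723), (63, 2774), (64, 46), (65, 182), (66, 3)])) (.N 3 (.L [(3, 7), (15, 156), (39, 156), (40, 156), (41, 164), (42, 82), (62, 364), (63, 364), (64, 2), (65, 40)]) (.N 4 (.L [(5, 22), (15, 95), (35, 13), (39, 108), (40, 108), (62, 242), (63, 3), (64, 6), (65, 24), (66, 4)]) (.N 5 (.N 2 (.L [(5, 153), (15, 458), (27, 83), (39, 541), (40, 541), (41, 148), (42, 612), (62, 1492), (63, 1849), (64, 39), (65, 115), (66, 21)]) (.N 1 (.L [(3, 111), (15, 216), (27, 60), (39, 276), (40, 276), (41, 225), (42, 327), (62, 1232), (63, 945), (64, 28), (65, 55), (66, 16)]) (.L [(15, 49), (27, 7), (39, 56), (40, 56), (41, 49), (42, 49), (62, 161), (63, 123), (65, 13), (66,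 2)]))) (.N 2 (.L [(5, 13), (7, 71), (15, 258), (39, 258), (40, 258), (62, 608), (63, 1232), (64, 22), (65, 65)]) (.N 1 (.L [(3, 49), (15, 122), (39, 122), (40, 122), (41, 83), (42, 162), (62, 547), (63, 404), (64, 13), (65, 31)]) (.L [(15, 37), (39, 37), (40, 37), (41, 37), (42, 36), (62, 107), (63, 88), (65, 10)]))))))) (.L [(15, 55), (39, 41), (40, 55), (41, 55), (42, 55), (63, 71), (65, 14)])) (.N 3 (.L [(1, 13), (15, 705), (39, 705), (40, 705), (41, 705), (42, 705), (62, 1049), (63, 2774), (65, 167)]) (.N 0 (.N 2 (.L [(7, 1), (27, 16), (39, 16), (40, 16), (42, 1), (63, 242), (64, 1), (66, 5)]) (.N 5 (.N 0 (.L [(3, 60), (27, 108), (39, 108), (40, 108), (41, 60), (42, 60), (62, 941), (63, 1232), (64, 16), (66, 28)]) (.L [(3, 103), (15, 472), (27, 336), (39, 809), (40, 809), (41, 575), (42, 575), (62, 2296), (63, 4162), (64, 26), (65, 119), (66, 85)])) (.L [(3, 14), (15, 91), (39, 91), (40, 91), (41, 105),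 (42, 105), (62, 300), (63, 547), (64, 4), (65, 23)]))) (.L [(15, 669), (27, 253), (39, 660), (40, 922), (41, 669), (42, 669), (62, 742), (63, 4162), (65, 168), (66, 64)])))) (.N 4 (.N 2 (.L [(7, 11), (9, 27), (21, 38), (27, 8), (39, 47), (40, 47), (42, 77), (63, 242), (64, 10), (65, 10), (66, 3)]) (.N 4 (.L [(9, 12), (33, 17), (35, 2), (39, 20), (40, 19), (53, 12), (64, 4), (66, 5)]) (.N 0 (.N 5 (.N 2 (.L [(7, 1), (9, 88), (27, 139), (39, 139), (40, 139), (63, 821), (64, 23), (66, 35)]) (.N 1 (.L [(3, 65), (15, 7), (27, 91), (39, 99), (40, 99), (41, 73), (42, 73), (62, 547), (63, 417), (64, 17), (65, 2), (66, 23)]) (.L [(15, 126), (27, 307), (39, 434), (40, 434), (41, 126), (42, 126), (62, 1232), (63, 701), (65, 32), (66, 77)]))) (.N 3 (.N 2 (.L [(7, 5), (9, 421), (15, 641), (27, 19), (39, 660), (40, 660), (42, 1067), (63, 2774), (64, 107), (65, 161), (66, 5)]) (.N 0 (.L [(5, 121), (15, 48), (39, 48), (40,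 48), (42, 169), (62, 821), (63, 389), (64, 31), (65, 13)]) (.N 1 (.L [(3, 96), (5, 6), (15, 70), (27, 7), (39, 77), (40, 77), (42, 173), (62, 547), (63, 420), (64, 26), (65, 18), (66, 2)]) (.N 3 (.L [(3, 24), (15, 154), (27, 8), (39, 163), (40, 163), (41, 147), (42, 179), (62, 547), (63, 479), (64, 7), (65, 39), (66, 3)]) (.N 2 (.L [(7, 127), (15, 277), (17, 4), (27, 50), (39, 333), (40, 333), (42, 409), (62, 938), (63, 1232), (64, 32), (65, 71), (66, 13)]) (.N 1 (.N 5 (.L [(3, 77), (5, 25), (15, 212), (27, 69), (39, 282), (40, 282), (41, 316), (42, 316), (62, 1232), (63, 1089), (64, 26), (65, 54), (66, 18)]) (.L [(3, 13), (5, 41), (15, 140), (39, 140), (40, 140), (41, 196), (42, 196), (62, 547), (63, 521), (64, 14), (65, 36)])) (.L [(15, 106), (27, 11), (39, 117), (40, 117), (42, 106), (62, 364), (63, 253), (65, 27), (66, 3)]))))))) (.N 1 (.L [(5, 5), (7, 20), (63, 13), (64, 7)]) (.N 2 (.L [(9, 6), (23, 7),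 (39, 7), (40, 7), (42, 13), (63, 20), (64, 2), (65, 2)]) (.N 2 (.L [(9, 35), (11, 1), (23, 30), (27, 14), (39, 45), (40, 45), (42, 66), (63, 242), (64, 10), (65, 8), (66, 4)]) (.N 3 (.N 2 (.L [(9, 392), (11, 31), (17, 386), (27, 163), (39, 549), (40, 549), (42, 810), (63, 2774), (64, 107), (65, 97), (66, 41)]) (.N 0 (.L [(5, 6), (62, 71), (64, 2), (66, 1)]) (.N 3 (.N 1 (.L [(5, 157), (15, 262), (27, 45), (39, 307), (40, 307), (42, 420), (62, 1232), (63, 943), (64, 40), (65, 66), (66, 12)]) (.N 5 (.L [(15, 19), (27, 31), (39, 51), (40, 51), (41, 19), (42, 19), (62, 161), (63, 106), (65, 5), (66, 8)]) (.L [(7, 38), (9, 8), (15, 123), (39, 123), (40, 123), (42, 170), (62, 364), (63, 208), (64, 12), (65, 31)]))) (.L [(5, 47), (11, 1), (13, 13), (25, 6), (39, 6), (64, 16), (65, 2)])))) (.L [(9, 15), (11, 1), (25, 3), (26, 16), (39, 20), (64, 5), (65, 5)]))))))) (.L [(14, 1), (15, 364), (40, 363), (46, 166), (64,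 1), (65, 91)])))) (.N 2 (.L [(7, 7), (9, 17), (23, 1), (27, 28), (39, 30), (40, 30), (42, 26), (63, 364), (64, 7), (65, 1), (66, 8)]) (.N 5 (.N 3 (.N 0 (.N 1 (.L [(3, 235), (27, 325), (39, 325), (40, 325), (41, 235), (42, 235), (62, 2035), (63, 2774), (64, 59), (66, 82)]) (.N 0 (.L [(9, 7), (27, 7), (39, 7), (40, 7), (42, 7), (62, 71), (63, 71), (64, 2), (66, 2)]) (.L [(15, 14), (27, 211), (39, 225), (40, 225), (41, 14), (42, 14), (62, 543), (63, 1232), (65, 4), (66, 53)]))) (.L [(15, 19), (27, 50), (39, 70), (40, 70), (41, 19), (42, 19), (62, 64), (63, 364), (65, 5), (66, 13)])) (.L [(9, 49), (11, 6), (27, 48), (28, 27), (39, 75), (40, 75), (41, 55), (42, 55), (63, 547), (64, 14), (66, 19)])) (.N 4 (.N 2 (.L [(9, 10), (27, 15), (39, 15), (40, 15), (42, 10), (63, 242), (64, 3), (66, 4)]) (.N 3 (.N 0 (.N 1 (.L [(3, 378), (15, 90), (27, 134), (39, 225), (40, 225), (41, 469), (42, 469), (62, 2486), (63, 2774),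 (64, 95), (65, 23), (66, 34)]) (.N 0 (.L [(9, 3), (42, 3), (62, 31), (63, 11), (64, 1)]) (.N 3 (.L [(3, 21), (15, 127), (27, 16), (39, 144), (40, 144), (41, 149), (42, 149), (62, 483), (63, 547), (64, 6), (65, 32), (66, 5)]) (.N 0 (.L [(3, 3), (5, 21), (27, 14), (39, 14), (40, 14), (42, 24), (62, 242), (63, 239), (64, 7), (66, 4)]) (.N 5 (.N 1 (.L [(3, 88), (15, 156), (27, 87), (39, 244), (40, 244), (41, 245), (42, 245), (62, 1043), (63, 1232), (64, 23), (65, 40), (66, 22)]) (.L [(15, 109), (27, 38), (39, 148), (40, 148), (41, 109), (42, 109), (62, 425), (63, 547), (65, 28), (66, 10)])) (.L [(3, 7), (15, 35), (39, 35), (40, 35), (41, 42), (42, 42), (62, 128), (63, 182), (64, 2), (65, 9)])))))) (.L [(15, 408), (27, 103), (40, 511), (41, 408), (42, 408), (63, 1849), (65, 103), (66, 26)])) (.N 3 (.N 3 (.N 4 (.N 4 (.N 2 (.L [(9, 21), (27, 27), (39, 27), (40, 27), (42, 22), (63, 364), (64, 6), (66, 7)]) (.N 1 (.L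 [(5, 4), (7, 15), (42, 20), (63, 19), (64, 5)]) (.N 0 (.N 0 (.L [(7, 3), (42, 3), (62, 31), (63, 4), (64, 1)]) (.N 5 (.L [(3, 79), (15, 99), (27, 160), (39, 259), (40, 259), (41, 178), (42, 178), (62, 1178), (63, 1232), (64, 20), (65, 25), (66, 41)]) (.N 1 (.L [(3, 46), (15, 24), (27, 19), (39, 44), (40, 44), (41, 71), (42, 71), (62, 344), (63, 364), (64, 12), (65, 7), (66, 5)]) (.L [(7, 99), (9, 63), (15, 288), (27, 103), (39, 392), (40, 392), (41, 451), (42, 451), (62, 1022), (63, 1849), (64, 41), (65, 73), (66, 26)])))) (.L [(15, 121), (30, 45), (32, 2), (40, 170), (41, 121), (42, 121), (63, 364), (65, 31), (66, 13)])))) (.L [(9, 65), (11, 7), (27, 99), (39, 99), (40, 99), (41, 73), (42, 73), (63, 1232), (64, 19), (66, 25)])) (.L [(9, 43), (11, 5), (27, 66), (39, 66), (40, 66), (41, 48), (42, 48), (63, 821), (64, 13), (66, 17)])) (.L [(9, 163), (11, 18), (25, 60), (32, 166), (39, 227), (42, 242), (63, 215),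 (64, 46), (65, 16), (66, 42)])) (.L [(9, 20), (11, 2), (26, 8), (30, 16), (32, 1), (39, 26), (42, 31), (63, 107), (64, 6), (65, 3), (66, 5)])))) (.L [(9, 2), (26, 2), (39, 2), (42, 5), (63, 242), (64, 1), (65, 1)])))))) (.N 3 (.N 0 (.N 3 (.L [(1, 13), (15, 705), (39, 705), (40, 705), (41, 705), (42, 705), (62, 2774), (63, 1049), (65, 167)]) (.N 4 (.L [(3, 253), (15, 669), (39, 669), (40, 669), (41, 922), (42, 660), (62, 4162), (63, 742), (64, 64), (65, 168)]) (.N 2 (.N 1 (.N 4 (.L [(3, 336), (15, 472), (27, 103), (39, 575), (40, 575), (41, 809), (42, 809), (62, 4162), (63, 2296), (64, 85), (65, 119), (66, 26)]) (.L [(3, 108), (27, 60), (39, 60), (40, 60), (41, 108), (42, 108), (62, 1232), (63, 941), (64, 28), (66, 16)])) (.L [(15, 91), (27, 14), (39, 105), (40, 105), (41, 91), (42, 91), (62, 547), (63, 300), (65, 23), (66, 4)])) (.L [(3, 16), (30, 1), (39, 1), (41, 16), (42, 16), (62, 242), (64, 5), (66, 1)]))))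 (.N 4 (.L [(15, 55), (39, 55), (40, 55), (41, 55), (42, 41), (62, 71), (65, 14)]) (.N 2 (.N 3 (.L [(15, 156), (27, 7), (39, 82), (40, 164), (41, 156), (42, 156), (62, 364), (63, 364), (65, 40), (66, 2)]) (.N 0 (.N 1 (.N 2 (.N 5 (.L [(3, 60), (15, 216), (27, 111), (39, 327), (40, 225), (41, 276), (42, 276), (62, 945), (63, 1232), (64, 16), (65, 55), (66, 28)]) (.L [(3, 7), (15, 49), (39, 49), (40, 49), (41, 56), (42, 56), (62, 123), (63, 161), (64, 2), (65, 13)])) (.L [(3, 83), (15, 458), (28, 153), (39, 612), (40, 148), (41, 541), (42, 541), (62, 1849), (63, 1492), (64, 21), (65, 115), (66, 39)])) (.N 2 (.N 5 (.L [(15, 122), (27, 49), (39, 162), (40, 83), (41, 122), (42, 122), (62, 404), (63, 547), (65, 31), (66, 13)]) (.L [(15, 37), (39, 36), (40, 37), (41, 37), (42, 37), (62, 88), (63, 107), (65, 10)])) (.L [(15, 258), (28, 13), (30, 71), (41, 258), (42, 258), (62, 1232), (63, 608), (65, 65), (66, 22)])))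 (.L [(10, 13), (15, 95), (28, 22), (41, 108), (42, 108), (62, 3), (63, 242), (64, 4), (65, 24), (66, 6)]))) (.N 0 (.L [(3, 8), (15, 249), (16, 477), (30, 180), (39, 907), (41, 735), (42, 735), (62, 2774), (63, 723), (64, 3), (65, 182), (66, 46)]) (.L [(10, 2), (15, 59), (16, 40), (28, 19), (41, 102), (42, 102), (62, 161), (63, 135), (64, 1), (65, 25), (66, 5)]))))) (.N 0 (.N 2 (.N 1 (.N 3 (.N 4 (.L [(3, 50), (15, 19), (39, 19), (40, 19), (41, 70), (42, 70), (62, 364), (63, 64), (64, 13), (65, 5)]) (.N 5 (.L [(3, 325), (27, 235), (39, 235), (40, 235), (41, 325), (42, 325), (62, 2774), (63, 2035), (64, 82), (66, 59)]) (.N 4 (.L [(3, 211), (15, 14), (39, 14), (40, 14), (41, 225), (42, 225), (62, 1232), (63, 543), (64, 53), (65, 4)]) (.L [(3, 7), (32, 7), (39, 7), (41, 7), (42, 7), (62, 71), (63, 71), (64, 2), (66, 2)])))) (.L [(3, 48), (5, 27), (32, 49), (34, 6), (39, 55), (40, 55), (41, 75), (42, 75), (62, 547),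 (64, 19), (66, 14)])) (.N 0 (.L [(26, 2), (32, 2), (39, 5), (42, 2), (62, 242), (65, 1), (66, 1)]) (.N 2 (.N 3 (.N 4 (.L [(3, 103), (15, 408), (39, 408), (40, 408), (41, 511), (62, 1849), (64, 26), (65, 103)]) (.N 5 (.L [(3, 134), (15, 90), (27, 378), (39, 469), (40, 469), (41, 225), (42, 225), (62, 2774), (63, 2486), (64, 34), (65, 23), (66, 95)]) (.N 4 (.N 3 (.L [(3, 16), (15, 127), (27, 21), (39, 149), (40, 149), (41, 144), (42, 144), (62, 547), (63, 483), (64, 5), (65, 32), (66, 6)]) (.N 4 (.N 1 (.N 5 (.L [(3, 87), (15, 156), (27, 88), (39, 245), (40, 245), (41, 244), (42, 244), (62, 1232), (63, 1043), (64, 22), (65, 40), (66, 23)]) (.L [(3, 38), (15, 109), (39, 109), (40, 109), (41, 148), (42, 148), (62, 547), (63, 425), (64, 10), (65, 28)])) (.L [(15, 35), (27, 7), (39, 42), (40, 42), (41, 35), (42, 35), (62, 182), (63, 128), (65, 9), (66, 2)])) (.L [(3, 14), (27, 3), (28, 21), (39, 24), (41, 14), (42,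 14), (62, 239), (63, 242), (64, 4), (66, 7)]))) (.L [(32, 3), (39, 3), (62, 11), (63, 31), (66, 1)])))) (.N 3 (.N 3 (.N 0 (.L [(3, 66), (32, 43), (34, 5), (39, 48), (40, 48), (41, 66), (42, 66), (62, 821), (64, 17), (66, 13)]) (.N 2 (.N 0 (.L [(3, 99), (32, 65), (34, 7), (39, 73), (40, 73), (41, 99), (42, 99), (62, 1232), (64, 25), (66, 19)]) (.N 5 (.L [(28, 4), (30, 15), (39, 20), (62, 19), (66, 5)]) (.N 4 (.L [(7, 45), (9, 2), (15, 121), (39, 121), (40, 121), (41, 170), (62, 364), (64, 13), (65, 31)]) (.N 4 (.N 1 (.L [(3, 160), (15, 99), (27, 79), (39, 178), (40, 178), (41, 259), (42, 259), (62, 1232), (63, 1178), (64, 41), (65, 25), (66, 20)]) (.N 5 (.L [(3, 19), (15, 24), (27, 46), (39, 71), (40, 71), (41, 44), (42, 44), (62, 364), (63, 344), (64, 5), (65, 7), (66, 12)]) (.L [(3, 103), (15, 288), (30, 99), (32, 63), (39, 451), (40, 451), (41, 392), (42, 392), (62, 1849), (63, 1022), (64, 26), (65, 73),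 (66, 41)]))) (.L [(30, 3), (39, 3), (62, 4), (63, 31), (66, 1)]))))) (.L [(3, 27), (32, 21), (39, 22), (41, 27), (42, 27), (62, 364), (64, 7), (66, 6)]))) (.L [(9, 166), (24, 60), (32, 163), (34, 18), (39, 242), (42, 227), (62, 215), (64, 42), (65, 16), (66, 46)])) (.L [(7, 16), (9, 1), (26, 8), (32, 20), (34, 2), (39, 31), (42, 26), (62, 107), (64, 5), (65, 3), (66, 6)]))) (.L [(3, 15), (32, 10), (39, 10), (41, 15), (42, 15), (62, 242), (64, 4), (66, 3)])))) (.L [(3, 28), (22, 1), (30, 7), (32, 17), (39, 26), (41, 30), (42, 30), (62, 364), (64, 8), (65, 1), (66, 7)])) (.N 2 (.N 0 (.N 4 (.L [(15, 363), (38, 1), (41, 364), (53, 166), (65, 91), (66, 1)]) (.N 1 (.N 2 (.N 5 (.L [(3, 91), (15, 7), (27, 65), (39, 73), (40, 73), (41, 99), (42, 99), (62, 417), (63, 547), (64, 23), (65, 2), (66, 17)]) (.L [(3, 307), (15, 126), (39, 126), (40, 126), (41, 434), (42, 434), (62, 701), (63, 1232), (64, 77), (65, 32)])) (.L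 [(3, 139), (30, 1), (32, 88), (41, 139), (42, 139), (62, 821), (64, 35), (66, 23)])) (.N 3 (.N 2 (.N 4 (.N 5 (.L [(3, 7), (15, 70), (27, 96), (28, 6), (39, 173), (41, 77), (42, 77), (62, 420), (63, 547), (64, 2), (65, 18), (66, 26)]) (.N 3 (.L [(3, 8), (15, 154), (27, 24), (39, 179), (40, 147), (41, 163), (42, 163), (62, 479), (63, 547), (64, 3), (65, 39), (66, 7)]) (.N 2 (.N 5 (.N 1 (.L [(3, 69), (15, 212), (27, 77), (28, 25), (39, 316), (40, 316), (41, 282), (42, 282), (62, 1089), (63, 1232), (64, 18), (65, 54), (66, 26)]) (.L [(15, 140), (27, 13), (28, 41), (39, 196), (40, 196), (41, 140), (42, 140), (62, 521), (63, 547), (65, 36), (66, 14)])) (.L [(3, 11), (15, 106), (39, 106), (41, 117), (42, 117), (62, 253), (63, 364), (64, 3), (65, 27)])) (.L [(3, 50), (15, 277), (16, 4), (30, 127), (39, 409), (41, 333), (42, 333), (62, 1232), (63, 938), (64, 13), (65, 71), (66, 32)])))) (.L [(15, 48), (28, 121), (39,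 169), (41, 48), (42, 48), (62, 389), (63, 821), (65, 13), (66, 31)])) (.L [(3, 19), (15, 641), (30, 5), (32, 421), (39, 1067), (41, 660), (42, 660), (62, 2774), (64, 5), (65, 161), (66, 107)])) (.N 5 (.L [(28, 5), (30, 20), (62, 13), (66, 7)]) (.N 2 (.N 2 (.N 3 (.N 2 (.N 4 (.N 3 (.N 5 (.L [(3, 45), (15, 262), (28, 157), (39, 420), (41, 307), (42, 307), (62, 943), (63, 1232), (64, 12), (65, 66), (66, 40)]) (.N 1 (.L [(3, 31), (15, 19), (39, 19), (40, 19), (41, 51), (42, 51), (62, 106), (63, 161), (64, 8), (65, 5)]) (.L [(15, 123), (30, 38), (32, 8), (39, 170), (41, 123), (42, 123), (62, 208), (63, 364), (65, 31), (66, 12)]))) (.L [(24, 6), (28, 47), (34, 1), (36, 13), (42, 6), (65, 2), (66, 16)])) (.L [(28, 6), (63, 71), (64, 1), (66, 2)])) (.L [(3, 163), (16, 386), (32, 392), (34, 31), (39, 810), (41, 549), (42, 549), (62, 2774), (64, 41), (65, 97), (66, 107)])) (.L [(24, 3), (26, 16), (32, 15), (34, 1), (42,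 20), (65, 5), (66, 5)])) (.L [(3, 14), (22, 30), (32, 35), (34, 1), (39, 66), (41, 45), (42, 45), (62, 242), (64, 4), (65, 8), (66, 10)])) (.L [(22, 7), (32, 6), (39, 13), (41, 7), (42, 7), (62, 20), (65, 2), (66, 2)])))))) (.L [(8, 17), (10, 2), (32, 12), (41, 19), (42, 20), (46, 12), (64, 5), (66, 4)])) (.L [(3, 8), (20, 38), (30, 11), (32, 27), (39, 77), (41, 47), (42, 47), (62, 242), (64, 3), (65, 10), (66, 10)]))))

theorem ok_S1 : tree_S1.check 1024 rows_S1 boxN = true := by decide +kernel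

theorem S1s {X1 Y1 X2 Y2 X3 Y3 V1 V2 V3 p q r s h k : ℝ}
    (c : NCfg X1 Y1 X2 Y2 X3 Y3 V1 V2 V3 p q r s h k)
    (o1 : ((((1 + X1) * (2 + Y2) - (1 + Y1) * X2) + (X2 * (1 + Y3) - (2 + Y2) * (-1 + X3)) - (2 + X1 - X3) / 10) / 4 - 1) + (V1 + r + s + k) ≤ (-11 / 200))
    (o2 : ((((1 + X1) * (2 + Y2) - (1 + Y1) * X2) + (X2 * (1 + Y3) - (2 + Y2) * (-1 + X3)) - (2 + X1 - X3) / 10) / 4 - 1) + (V2 + p + q + r + s + h + k) ≤ (-11 / 200))
    (o3 : ((((1 + X1) * (2 + Y2) - (1 + Y1) * X2) + (X2 * (1 + Y3) - (2 + Y2) * (-1 + X3)) - (2 + X1 - X3) / 10) / 4 - 1) + (V3 + p + q + h) ≤ (-11 / 200)) : False := by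
  have hH : Hyp rows_S1 (NCfg.pt X1 Y1 X2 Y2 X3 Y3 V1 V2 V3 p q r s h k) := by
    refine c.hyp ?_
    intro R hR
    simp only [List.mem_cons, List.not_mem_nil, or_false] at hR
    rcases hR with rfl | rfl | rfl
    · simp only [Row.ev, NCfg.pt]; push_cast; linarith [o1]
    · simp only [Row.ev, NCfg.pt]; push_cast; linarith [o2]
    · simp only [Row.ev, NCfg.pt]; push_cast; linarith [o3]
  refine tree_sound (D := 1024) hH tree_S1 boxN ok_S1 ?_
  simpa only [NCfg.pt, Int.cast_ofNat] using c.inbox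

/-! certificate S2 (generated, 57 leaves) -/

def rows_S2 : List Row := cN ++ [
  ⟨0, 0, -8490, -10000, 0, 0, 0, 0, 0, 0, 0, 22359, -17490, 0, 0, -22359, -17490, 0, 0, 0, 0, 0, 0, 0, 0, 0, 0, 0, 6618⟩]

def tree_S2 : Tree := .N 0 (.N 4 (.N 5 (.L [(0, 69), (11, 107), (13, 97), (64, 1)]) (.N 5 (.L [(11, 109), (13, 242), (57, 118), (64, 1)]) (.N 1 (.L [(11, 161), (57, 54), (64, 1)]) (.N 4 (.L [(0, 81), (2, 81), (11, 97), (13, 242), (37, 241), (39, 241), (40, 241), (53, 241), (57, 33), (64, 1)]) (.N 5 (.N 2 (.N 2 (.L [(0, 133), (1, 88), (11, 144), (13, 252), (23, 262), (39, 262), (40, 262), (63, 4162), (64, 1)]) (.N 3 (.L [(0, 30), (13, 89), (62, 2774), (63, 2492), (64, 1)]) (.N 0 (.L [(0, 137), (1, 29), (11, 408), (26, 86), (39, 86), (40, 86), (62, 2774), (63, 2124), (64, 1)]) (.L [(0, 1057), (1, 550), (13, 1972), (14, 1196), (26, 1649), (39, 1649), (40, 1649), (62, 47425), (63, 45776), (64, 19)])))) (.L [(0,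 28), (1, 29), (14, 82), (26, 84), (39, 84), (53, 167), (62, 6244), (64, 1)])) (.N 1 (.N 0 (.L [(2, 451), (11, 2774), (38, 1352), (39, 1352), (57, 925), (64, 10)]) (.L [(2, 24), (38, 71), (39, 70), (64, 1)])) (.N 2 (.N 2 (.L [(0, 133), (1, 117), (2, 53), (11, 64), (13, 333), (23, 348), (37, 158), (39, 506), (40, 506), (63, 6244), (64, 1)]) (.N 0 (.L [(0, 167), (1, 74), (2, 39), (11, 499), (25, 219), (38, 115), (39, 334), (40, 334), (62, 6244), (63, 2597), (64, 1)]) (.N 3 (.L [(2, 21), (37, 60), (40, 60), (62, 2774), (63, 2713), (64, 1)]) (.N 3 (.L [(0, 24), (2, 30), (14, 70), (37, 50), (38, 39), (39, 89), (40, 89), (62, 2774), (63, 2684), (64, 1)]) (.N 0 (.N 4 (.L [(0, 60), (1, 31), (2, 39), (13, 116), (14, 62), (26, 92), (38, 114), (39, 206), (40, 206), (62, 2774), (63, 2309), (64, 1)]) (.L [(0, 274), (1, 367), (2, 249), (14, 820), (26, 1098), (38, 745), (39, 1843), (40, 1843), (62, 31616), (63, 29674), (64,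 8)])) (.L [(1, 75), (2, 78), (14, 228), (26, 222), (38, 233), (39, 455), (40, 455), (57, 77), (62, 6244), (63, 6105), (64, 2)])))))) (.N 3 (.L [(62, 20), (63, 3)]) (.L [(14, 65), (26, 99), (38, 174), (57, 22), (58, 34), (59, 59), (62, 6244), (64, 1)]))))))))) (.N 1 (.N 0 (.L [(0, 175), (2, 183), (11, 523), (34, 206), (36, 340), (39, 547), (42, 523), (64, 2)]) (.L [(2, 81), (34, 89), (36, 152), (39, 242), (64, 1)])) (.N 2 (.N 3 (.L [(62, 3235), (63, 9367), (64, 1)]) (.N 3 (.L [(0, 26), (14, 75), (41, 75), (62, 6891), (63, 14051), (64, 2)]) (.N 2 (.L [(0, 94), (1, 103), (11, 155), (13, 124), (25, 307), (39, 307), (40, 307), (42, 586), (63, 6244), (64, 1)]) (.N 3 (.L [(14, 194), (57, 65), (62, 10707), (63, 14051), (64, 3)]) (.N 0 (.L [(1, 171), (25, 362), (26, 149), (39, 511), (40, 511), (62, 9367), (63, 5129), (64, 1)]) (.N 3 (.L [(14, 130), (38, 20), (57, 44), (59, 7), (62, 6513), (63, 9367), (64, 2)]) (.L [(14,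 945), (26, 2843), (38, 89), (57, 316), (58, 948), (59, 30), (62, 49463), (63, 71138), (64, 14)]))))))) (.N 3 (.L [(62, 9367), (63, 2251), (64, 1)]) (.N 3 (.L [(38, 44), (59, 15), (62, 9367), (63, 3563), (64, 1)]) (.N 2 (.N 3 (.L [(38, 83), (59, 28), (62, 14051), (63, 7291), (64, 2)]) (.N 4 (.N 4 (.L [(0, 283), (1, 881), (2, 112), (14, 847), (26, 2641), (38, 335), (62, 71138), (63, 47073), (64, 14)]) (.L [(1, 81), (26, 242), (42, 242), (62, 6244), (63, 4574), (64, 1)])) (.L [(1, 93), (26, 277), (41, 277), (42, 277), (62, 6244), (63, 5797), (64, 1)]))) (.L [(1, 86), (2, 83), (24, 256), (34, 95), (36, 151), (39, 222), (41, 256), (42, 256), (62, 6244), (64, 1)]))))))) (.N 1 (.L [(2, 69), (34, 107), (36, 97), (64, 1)]) (.N 1 (.L [(2, 118), (34, 109), (36, 242), (64, 1)]) (.N 4 (.L [(2, 32), (14, 107), (38, 94), (57, 36), (64, 1)]) (.N 5 (.L [(2, 54), (34, 161), (64, 1)]) (.N 0 (.N 1 (.N 2 (.L [(1, 29), (2, 28),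 (26, 84), (38, 82), (42, 84), (46, 167), (63, 6244), (64, 1)]) (.N 2 (.N 3 (.L [(2, 30), (36, 89), (62, 2492), (63, 2774), (64, 1)]) (.N 4 (.L [(1, 550), (2, 1057), (26, 1649), (36, 1972), (38, 1196), (41, 1649), (42, 1649), (62, 45776), (63, 47425), (64, 19)]) (.L [(1, 29), (2, 137), (26, 86), (34, 408), (41, 86), (42, 86), (62, 2124), (63, 2774), (64, 1)]))) (.L [(1, 88), (2, 133), (22, 262), (34, 144), (36, 252), (41, 262), (42, 262), (62, 4162), (64, 1)]))) (.N 5 (.N 4 (.L [(0, 24), (14, 70), (42, 71), (64, 1)]) (.L [(0, 451), (14, 1352), (34, 2774), (42, 1352), (59, 925), (64, 10)])) (.N 2 (.N 3 (.L [(62, 3), (63, 20)]) (.L [(14, 174), (26, 99), (38, 65), (57, 59), (58, 34), (59, 22), (63, 6244), (64, 1)])) (.N 2 (.N 4 (.N 3 (.L [(0, 21), (12, 60), (41, 60), (62, 2713), (63, 2774), (64, 1)]) (.N 3 (.L [(0, 30), (2, 24), (12, 50), (14, 39), (38, 70), (41, 89), (42, 89), (62, 2684), (63, 2774), (64, 1)])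 (.N 4 (.L [(0, 78), (1, 75), (14, 233), (26, 222), (38, 228), (41, 455), (42, 455), (59, 77), (62, 6105), (63, 6244), (64, 2)]) (.N 0 (.L [(0, 249), (1, 367), (2, 274), (14, 745), (26, 1098), (38, 820), (41, 1843), (42, 1843), (62, 29674), (63, 31616), (64, 8)]) (.L [(0, 39), (1, 31), (2, 60), (14, 114), (26, 92), (36, 116), (38, 62), (41, 206), (42, 206), (62, 2309), (63, 2774), (64, 1)]))))) (.L [(0, 39), (1, 74), (14, 115), (24, 219), (34, 499), (41, 334), (42, 334), (59, 167), (62, 2597), (63, 6244), (64, 1)])) (.L [(0, 53), (1, 117), (2, 133), (12, 158), (22, 348), (34, 64), (36, 333), (41, 506), (42, 506), (62, 6244), (64, 1)]))))) (.L [(0, 81), (2, 81), (12, 241), (34, 97), (36, 242), (41, 241), (42, 241), (46, 241), (59, 33), (64, 1)]))))))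

theorem ok_S2 : tree_S2.check 1024 rows_S2 boxN = true := by decide +kernel

theorem S2s {X1 Y1 X2 Y2 X3 Y3 V1 V2 V3 p q r s h k : ℝ}
    (c : NCfg X1 Y1 X2 Y2 X3 Y3 V1 V2 V3 p q r s h k)
    (ht : 0 ≤ (3 * (1 + X1) * (-1 + X3) + (1 + Y1 - 1 / 10) * (1 + Y3 - 1 / 10)) + 849 / 1000 * ((1 + X1) * (1 + Y3 - 1 / 10) - (1 + Y1 - 1 / 10) * (-1 + X3))) : False := by
  have hH : Hyp rows_S2 (NCfg.pt X1 Y1 X2 Y2 X3 Y3 V1 V2 V3 p q r s h k) := by
    refine c.hyp ?_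
    intro R hR
    simp only [List.mem_cons, List.not_mem_nil, or_false] at hR
    subst hR
    · simp only [Row.ev, NCfg.pt]; push_cast; linarith [ht]
  refine tree_sound (D := 1024) hH tree_S2 boxN ok_S2 ?_
  simpa only [NCfg.pt, Int.cast_ofNat] using c.inbox

/-! certificate G3 (generated, 10 leaves) -/

def rows_G3 : List Row := cN ++ [
  ⟨0, 433, 0, 0, 0, 0, 0, 0, 0, 0, -145, 0, 0, 433, 433, 4, -290, 0, 0, 0, 0, 0, 0, 0, 0, 0, 0, 0, 141⟩,
  ⟨0, 2598, 0, 0, 0, 0, 0, 0, 0, 0, -725, 0, 0, 2598, 2598, -846, -1450, 0, 0, 0, 0, 0, 0, 0, 0, 0, 0, 0, 1252⟩,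
  ⟨0, 3031, 0, 0, 0, 0, 0, 0, 0, 0, -725, 0, 0, 3031, 3031, -1712, -1450, 0, 0, 0, 0, 0, 0, 0, 0, 0, 0, 0, 1741⟩,
  ⟨0, 3464, 0, 0, 0, 0, 0, 0, 0, 0, -725, 0, 0, 3464, 3464, -2578, -1450, 0, 0, 0, 0, 0, 0, 0, 0, 0, 0, 0, 2172⟩,
  ⟨0, 12990, 0, 0, 0, 0, 0, 0, 0, 0, -2500, 0, 0, 12990, 12990, -10980, -5000, 0, 0, 0, 0, 0, 0, 0, 0, 0, 0, 0, 8411⟩,
  ⟨0, 394030, 0, 0, 0, 0, 0, 0, 0, 0, -72500, 0, 0, 394030, 394030, -353060, -145000, 0, 0, 0, 0, 0, 0, 0, 0, 0, 0, 0, 257911⟩,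
  ⟨0, 16454, 0, 0, 0, 0, 0, 0, 0, 0, -2900, 0, 0, 16454, 16454, -15508, -5800, 0, 0, 0, 0, 0, 0, 0, 0, 0, 0, 0, 10839⟩,
  ⟨0, 428670, 0, 0, 0, 0, 0, 0, 0, 0, -72500, 0, 0, 428670, 428670, -422340, -145000, 0, 0, 0, 0, 0, 0, 0, 0, 0, 0, 0, 283111⟩,
  ⟨0, 445990, 0, 0, 0, 0, 0, 0, 0, 0, -72500, 0, 0, 445990, 445990, -456980, -145000, 0, 0, 0, 0, 0, 0, 0, 0, 0, 0, 0, 294319⟩,
  ⟨0, 463310, 0, 0, 0, 0, 0, 0, 0, 0, -72500, 0, 0, 463310, 463310, -491620, -145000, 0, 0, 0, 0, 0, 0, 0, 0, 0, 0, 0, 304599⟩,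
  ⟨0, 480630, 0, 0, 0, 0, 0, 0, 0, 0, -72500, 0, 0, 480630, 480630, -526260, -145000, 0, 0, 0, 0, 0, 0, 0, 0, 0, 0, 0, 313951⟩,
  ⟨0, 19918, 0, 0, 0, 0, 0, 0, 0, 0, -2900, 0, 0, 19918, 19918, -22436, -5800, 0, 0, 0, 0, 0, 0, 0, 0, 0, 0, 0, 12895⟩,
  ⟨0, 515270, 0, 0, 0, 0, 0, 0, 0, 0, -72500, 0, 0, 515270, 515270, -595540, -145000, 0, 0, 0, 0, 0, 0, 0, 0, 0, 0, 0, 329871⟩]

def tree_G3 : Tree := .N 4 (.N 2 (.N 5 (.L [(1, 244), (14, 17), (15, 666), (17, 63), (39, 730), (40, 730), (48, 64), (57, 6), (63, 821), (75, 1)]) (.N 3 (.N 3 (.N 2 (.L [(1, 15283), (2, 3492), (15, 45846), (35, 10475), (40, 56322), (63, 240095), (76, 2)]) (.N 4 (.L [(1, 2112), (2, 561), (15, 6333), (35, 1680), (40, 8014), (41, 6333), (63, 21077), (75, 8)]) (.L [(1, 2012), (2, 231), (15, 6034), (35, 690), (40, 6725), (41, 6034), (63, 31616), (75, 8)]))) (.L [(2, 2135), (35, 6403), (40, 6403), (63, 160063), (76, 2)])) (.L [(2, 355), (37, 1064),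 (40, 1064), (63, 47425), (76, 1)]))) (.L [(1, 4481), (2, 204), (15, 13440), (38, 610), (40, 14051), (41, 13440), (63, 9789), (74, 1)])) (.N 3 (.N 2 (.L [(1, 2789), (15, 8364), (40, 8364), (41, 8364), (42, 8364), (63, 106708), (69, 1)]) (.L [(1, 14132), (15, 42393), (40, 42393), (41, 42393), (42, 42393), (63, 160063), (69, 4)])) (.L [(63, 1849), (66, 1), (67, 3)]))

theorem ok_G3 : tree_G3.check 1024 rows_G3 boxN = true := by decide +kernel

theorem G3s {X1 Y1 X2 Y2 X3 Y3 V1 V2 V3 p q r s h k : ℝ}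
    (c : NCfg X1 Y1 X2 Y2 X3 Y3 V1 V2 V3 p q r s h k)
    (hd : ∀ m : ℝ, 0 < m → 433 / 250 * m * (X2 * (1 + Y3) - (2 + Y2) * (-1 + X3)) ≤ 29 / 50 * ((3 * (-1 + X3) ^ 2 + (1 + Y3) ^ 2) + m ^ 2)) : False := by
  have hH : Hyp rows_G3 (NCfg.pt X1 Y1 X2 Y2 X3 Y3 V1 V2 V3 p q r s h k) := by
    refine c.hyp ?_
    intro R hR
    simp only [List.mem_cons, List.not_mem_nil, or_false] at hR
    rcases hR with rfl | rfl | rfl | rfl | rfl | rfl | rfl | rfl | rfl | rfl | rfl | rfl | rfl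
    · simp only [Row.ev, NCfg.pt]; push_cast; linarith [hd 1 (by norm_num)]
    · simp only [Row.ev, NCfg.pt]; push_cast; linarith [hd (6 / 5) (by norm_num)]
    · simp only [Row.ev, NCfg.pt]; push_cast; linarith [hd (7 / 5) (by norm_num)]
    · simp only [Row.ev, NCfg.pt]; push_cast; linarith [hd (8 / 5) (by norm_num)]
    · simp only [Row.ev, NCfg.pt]; push_cast; linarith [hd (87 / 50) (by norm_num)]
    · simp only [Row.ev, NCfg.pt]; push_cast; linarith [hd (91 / 50) (by norm_num)]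
    · simp only [Row.ev, NCfg.pt]; push_cast; linarith [hd (19 / 10) (by norm_num)]
    · simp only [Row.ev, NCfg.pt]; push_cast; linarith [hd (99 / 50) (by norm_num)]
    · simp only [Row.ev, NCfg.pt]; push_cast; linarith [hd (103 / 50) (by norm_num)]
    · simp only [Row.ev, NCfg.pt]; push_cast; linarith [hd (107 / 50) (by norm_num)]
    · simp only [Row.ev, NCfg.pt]; push_cast; linarith [hd (111 / 50) (by norm_num)]
    · simp only [Row.ev, NCfg.pt]; push_cast; linarith [hd (23 / 10) (by norm_num)]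
    · simp only [Row.ev, NCfg.pt]; push_cast; linarith [hd (119 / 50) (by norm_num)]
  refine tree_sound (D := 1024) hH tree_G3 boxN ok_G3 ?_
  simpa only [NCfg.pt, Int.cast_ofNat] using c.inbox

end Pool.Agent.H30.Q
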