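import Pool.Agent.H30.P6.BMore
import Pool.Agent.H30.P6.VBt
import Pool.Agent.H30.P6.NTS
import Pool.Agent.H30.P6.NT1
import Pool.Agent.H30.P6.NT1b
import Pool.Agent.H30.P6.NT2

/-!
# Virtual fans: shifted apexes, complex form
-/

set_option autoImplicit false

open Pool.Agent.H20.AL Pool.Agent.H63.P6

noncomputable section

namespace Pool.Agent.H30.Q

open Pool.Agent.H30.P6 (V30 V30_self V30_nonneg V30_le_iff s3 s3p nrm str_of one_le_sq Str VLe)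

/-- hypotheses on a fan -/
structure Fan0 (v1 v2 v3 : ℂ) : Prop where
  V1 : V30 v1 ≤ 1 / 3
  V2 : V30 v2 ≤ 1 / 3
  V3 : V30 v3 ≤ 1 / 3
  Ph : Phi V30 (4 / 25) v1 v2 v3 ≤ 1 / 3
  e12 : 1 ≤ ‖(d2 + v2) - (d1 + v1)‖
  e12' : ‖(d2 + v2) - (d1 + v1)‖ ≤ 147 / 100
  e23 : 1 ≤ ‖(d3 + v3) - (d2 + v2)‖
  e23' : ‖(d3 + v3) - (d2 + v2)‖ ≤ 147 / 100

theorem cr_sc (w z : ℂ) : cr w z = √3 / 4 * (2 * w.re / √3 * (2 * z.im) - 2 * w.im * (2 * z.re / √3)) := by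
  have hne := s3p.ne'
  simp only [cr]; field_simp; ring

theorem dt_sc (w z : ℂ) : dt w z = (3 * (2 * w.re / √3) * (2 * z.re / √3) + 2 * w.im * (2 * z.im)) / 4 := by
  have hne := s3p.ne'
  have hs : √3 ^ 2 = 3 := by rw [sq]; exact s3
  simp only [dt]; field_simp; rw [hs]; ring

theorem re1 (v : ℂ) : 2 * (d1 + v).re / √3 = 1 + 2 * v.re / √3 := by
  have hne := s3p.ne'
  simp only [d1, Complex.add_re]; field_simp
theorem im1 (v : ℂ) : 2 * (d1 + v).im = 1 + 2 * v.im := by simp only [d1, Complex.add_im]; ring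
theorem re2 (v : ℂ) : 2 * (d2 + v).re / √3 = 2 * v.re / √3 := by simp only [d2, Complex.add_re]; ring
theorem im2 (v : ℂ) : 2 * (d2 + v).im = 2 + 2 * v.im := by simp only [d2, Complex.add_im]; ring
theorem re3 (v : ℂ) : 2 * (d3 + v).re / √3 = -1 + 2 * v.re / √3 := by
  have hne := s3p.ne'
  simp only [d3, Complex.add_re]; field_simp
theorem im3 (v : ℂ) : 2 * (d3 + v).im = 1 + 2 * v.im := by simp only [d3, Complex.add_im]; ring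

theorem sx_re (x : ℂ) : ((1 / 16 : ℂ) * x).re = x.re / 16 := by
  rw [show (1 / 16 : ℂ) = ((1 / 16 : ℝ) : ℂ) by push_cast; rfl, Complex.re_ofReal_mul]; ring
theorem sx_im (x : ℂ) : ((1 / 16 : ℂ) * x).im = x.im / 16 := by
  rw [show (1 / 16 : ℂ) = ((1 / 16 : ℝ) : ℂ) by push_cast; rfl, Complex.im_ofReal_mul]; ring

variable {v1 v2 v3 : ℂ}

theorem Fan0.cfg (H : Fan0 v1 v2 v3) :
    NCfg (2 * v1.re / √3) (2 * v1.im) (2 * v2.re / √3) (2 * v2.im) (2 * v3.re / √3) (2 * v3.im)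
      (V30 v1) (V30 v2) (V30 v3)
      (4 / 25 * max (-(dt v1 d1)) 0) (4 / 25 * max (-(dt v2 d1)) 0) (4 / 25 * max (-(dt v2 d3)) 0)
      (4 / 25 * max (-(dt v3 d3)) 0) (4 / 25 * (‖(d2 + v2) - (d1 + v1)‖ - 1))
      (4 / 25 * (‖(d3 + v3) - (d2 + v2)‖ - 1)) := by
  have hs := s3
  have hp := s3p
  have hne := hp.ne'
  obtain ⟨o1, o2, o3⟩ := phi_opts H.Ph
  have r12 : 2 * ((d2 + v2) - (d1 + v1)).re / √3 = -1 + 2 * v2.re / √3 - 2 * v1.re / √3 := by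
    simp only [d1, d2, Complex.sub_re, Complex.add_re]; field_simp; ring
  have i12 : 2 * ((d2 + v2) - (d1 + v1)).im = 1 + 2 * v2.im - 2 * v1.im := by
    simp only [d1, d2, Complex.sub_im, Complex.add_im]; ring
  have r23 : 2 * ((d3 + v3) - (d2 + v2)).re / √3 = -1 + 2 * v3.re / √3 - 2 * v2.re / √3 := by
    simp only [d3, d2, Complex.sub_re, Complex.add_re]; field_simp; ring
  have i23 : 2 * ((d3 + v3) - (d2 + v2)).im = -1 + 2 * v3.im - 2 * v2.im := by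
    simp only [d3, d2, Complex.sub_im, Complex.add_im]; ring
  have h33 : (3 : ℝ) / √3 = √3 := by rw [div_eq_iff hne]; exact hs.symm
  have dt1 : ∀ v : ℂ, -(dt v d1) = -(3 * (2 * v.re / √3) + 2 * v.im) / 4 := fun v => by
    simp only [dt, d1]
    have : 3 * (2 * v.re / √3) = 2 * √3 * v.re := by
      rw [show 3 * (2 * v.re / √3) = 2 * v.re * (3 / √3) by ring, h33]; ring
    rw [this]; ring
  have dt3 : ∀ v : ℂ, -(dt v d3) = -(-3 * (2 * v.re / √3) + 2 * v.im) / 4 := fun v => by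
    simp only [dt, d3]
    have : 3 * (2 * v.re / √3) = 2 * √3 * v.re := by
      rw [show 3 * (2 * v.re / √3) = 2 * v.re * (3 / √3) by ring, h33]; ring
    rw [show -3 * (2 * v.re / √3) = -(3 * (2 * v.re / √3)) by ring, this]; ring
  refine ⟨V30_self v1, V30_self v2, V30_self v3, H.V1, H.V2, H.V3, by positivity, by positivity, by positivity,
    by positivity, ?_, ?_, ?_, ?_, ?_, ?_, by linarith [H.e12'], by linarith [H.e23'], by linarith, by linarith,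
    by linarith, ?_, ?_⟩
  · linarith [le_max_left (-(dt v1 d1)) 0, dt1 v1]
  · linarith [le_max_left (-(dt v2 d1)) 0, dt1 v2]
  · linarith [le_max_left (-(dt v2 d3)) 0, dt3 v2]
  · linarith [le_max_left (-(dt v3 d3)) 0, dt3 v3]
  · rw [← r12, ← i12]; exact str_of _ H.e12
  · rw [← r23, ← i23]; exact str_of _ H.e23
  · have h1 := nrm ((d2 + v2) - (d1 + v1)); rw [r12, i12] at h1; linarith [one_le_sq H.e12]
  · have h1 := nrm ((d3 + v3) - (d2 + v2)); rw [r23, i23] at h1; linarith [one_le_sq H.e23]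

theorem Fan0.mir (H : Fan0 v1 v2 v3) : Fan0 (mu v3) (mu v2) (mu v1) where
  V1 := by rw [V30_mu]; exact H.V3
  V2 := by rw [V30_mu]; exact H.V2
  V3 := by rw [V30_mu]; exact H.V1
  Ph := by rw [Phi_mu]; exact H.Ph
  e12 := by rw [m1, m2, ← mu_sub, mu_norm, ← norm_neg, neg_sub]; exact H.e23
  e12' := by rw [m1, m2, ← mu_sub, mu_norm, ← norm_neg, neg_sub]; exact H.e23'
  e23 := by rw [m3, m2, ← mu_sub, mu_norm, ← norm_neg, neg_sub]; exact H.e12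
  e23' := by rw [m3, m2, ← mu_sub, mu_norm, ← norm_neg, neg_sub]; exact H.e12'

/-- cosine form of a cotangent bound -/
theorem cos_of_cot {a b : ℂ} {κ t : ℝ} (hκ : 0 < κ) (ht0 : 0 ≤ t) (ht : t ^ 2 * (1 + κ ^ 2) ≤ κ ^ 2)
    (hc : 0 < cr a b) (h : dt a b ≤ -κ * cr a b) : dt a b ≤ -t * (‖a‖ * ‖b‖) := by
  have e : (‖a‖ * ‖b‖) ^ 2 = dt a b ^ 2 + cr a b ^ 2 := by
    rw [mul_pow, Complex.sq_norm, Complex.sq_norm, Complex.normSq_apply, Complex.normSq_apply]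
    simp only [dt, cr]; ring
  set D := dt a b
  set C := cr a b
  have hC : 0 < κ * C := mul_pos hκ hc
  have h3 : κ ^ 2 * C ^ 2 ≤ D ^ 2 := by
    have h4 : κ * C ≤ -D := by linarith
    have h5 := mul_self_le_mul_self hC.le h4
    nlinarith
  have h6 : κ ^ 2 * (t * (‖a‖ * ‖b‖)) ^ 2 ≤ κ ^ 2 * (-D) ^ 2 := by
    rw [mul_pow, e]
    have h7 := mul_le_mul_of_nonneg_left h3 (sq_nonneg t)
    have h8 := mul_le_mul_of_nonneg_right ht (sq_nonneg D)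
    nlinarith
  have h9 : (t * (‖a‖ * ‖b‖)) ^ 2 ≤ (-D) ^ 2 := le_of_mul_le_mul_left h6 (by positivity)
  have := abs_le_of_sq_le_sq h9 (by linarith)
  linarith [le_abs_self (t * (‖a‖ * ‖b‖))]

/-! ### apex `pB` -/

/-- (S1) -/
theorem Fan0.S1 (H : Fan0 v1 v2 v3) :
    -(11 / 200) ≤ fanw (d1 + v1 - pB) (d2 + v2 - pB) (d3 + v3 - pB) + Phi V30 (4 / 25) v1 v2 v3 := by
  by_contra hcon
  push Not at hcon
  obtain ⟨o1, o2, o3⟩ := phi_opts (v1 := v1) (v2 := v2) (v3 := v3)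
    (t := -(11 / 200) - fanw (d1 + v1 - pB) (d2 + v2 - pB) (d3 + v3 - pB)) (by linarith)
  rw [fan_scaled] at o1 o2 o3
  exact S1s H.cfg (by linarith) (by linarith) (by linarith)

theorem Fan0.c13S (H : Fan0 v1 v2 v3) : 0 < cr (d1 + v1 - pB) (d3 + v3 - pB) := by
  have c := H.cfg
  rw [c13_scaled]
  have hp := s3p
  have f1 := c.v1.f7
  have f2 := c.v1.f1
  have f3 := c.v3.f6
  have f4 := c.v3.f1
  have b1 := c.b1
  have b3 := c.b3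
  have h1 : 0 < 1 + 2 * v1.re / √3 := by linarith
  have h2 : 0 < 1 + 2 * v3.im - 1 / 10 := by linarith
  have h3 : 0 < 1 + 2 * v1.im - 1 / 10 := by linarith
  have h4 : 0 < 1 - 2 * v3.re / √3 := by linarith
  have := mul_pos h1 h2
  have := mul_pos h3 h4
  refine mul_pos (by positivity) ?_
  linarith

/-- (S2) -/
theorem Fan0.S2 (H : Fan0 v1 v2 v3) :
    dt (d1 + v1 - pB) (d3 + v3 - pB) ≤ -(49 / 100) * cr (d1 + v1 - pB) (d3 + v3 - pB) := by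
  by_contra hcon
  push Not at hcon
  have hpos := H.c13S
  rw [c13_scaled] at hpos
  rw [c13_scaled, dt13_scaled] at hcon
  have hp := s3p
  have hs := s3
  refine S2s H.cfg ?_
  set A := 3 * (1 + 2 * v1.re / √3) * (-1 + 2 * v3.re / √3) + (1 + 2 * v1.im - 1 / 10) * (1 + 2 * v3.im - 1 / 10)
  set B := (1 + 2 * v1.re / √3) * (1 + 2 * v3.im - 1 / 10) - (1 + 2 * v1.im - 1 / 10) * (-1 + 2 * v3.re / √3)
  have hB : 0 < B := (mul_pos_iff_of_pos_left (show 0 < √3 / 4 by positivity)).1 hpos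
  have h173 : √3 ≤ 17321 / 10000 := by nlinarith
  have h1 : √3 * B ≤ 17321 / 10000 * B := mul_le_mul_of_nonneg_right h173 hB.le
  nlinarith

/-- (S2), cosine form -/
theorem Fan0.S2' (H : Fan0 v1 v2 v3) :
    dt (d1 + v1 - pB) (d3 + v3 - pB) ≤ -(44 / 100) * (‖d1 + v1 - pB‖ * ‖d3 + v3 - pB‖) :=
  cos_of_cot (κ := 49 / 100) (by norm_num) (by norm_num) (by norm_num) H.c13S H.S2

/-! ### rays -/

/-- (G3r) -/
theorem Fan0.G3r (H : Fan0 v1 v2 v3) : 29 / 50 * ‖d3 + v3‖ ≤ cr (d2 + v2) (d3 + v3) := by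
  by_contra hcon
  push Not at hcon
  have hs := s3
  have hp := s3p
  have K := cr_sc (d2 + v2) (d3 + v3)
  rw [re2, im2, re3, im3] at K
  have N := nrm (d3 + v3)
  rw [re3, im3] at N
  refine G3s H.cfg ?_
  intro m hm
  rw [K] at hcon
  set k := 2 * v2.re / √3 * (1 + 2 * v3.im) - (2 + 2 * v2.im) * (-1 + 2 * v3.re / √3)
  have h173 : 433 / 250 ≤ √3 := by nlinarith
  have hR : 29 / 50 * (4 * ‖d3 + v3‖ ^ 2 + m ^ 2)
      = 29 / 50 * (3 * (-1 + 2 * v3.re / √3) ^ 2 + (1 + 2 * v3.im) ^ 2 + m ^ 2) := by rw [N]; ring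
  rw [← hR]
  rcases le_total 0 k with hk | hk
  · have h1 : 433 / 250 * m * k ≤ √3 * m * k := by
      have := mul_le_mul_of_nonneg_right h173 (mul_nonneg hm.le hk)
      nlinarith
    have h2 : √3 * m * k ≤ 4 * (29 / 50) * m * ‖d3 + v3‖ := by nlinarith
    nlinarith [sq_nonneg (2 * ‖d3 + v3‖ - m)]
  · have h1 : 433 / 250 * m * k ≤ 0 := by nlinarith
    have h2 : 0 ≤ 29 / 50 * (4 * ‖d3 + v3‖ ^ 2 + m ^ 2) := by positivity
    linarith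

/-- (G1r) -/
theorem Fan0.G1r (H : Fan0 v1 v2 v3) : 29 / 50 * ‖d1 + v1‖ ≤ cr (d1 + v1) (d2 + v2) := by
  have := H.mir.G3r
  rwa [m3, m2, mu_cr, mu_norm] at this

/-! ### apex `x3 / 16` when `x1` is near -/

theorem fan_sx (x1 x2 x3 : ℂ) : fanw (x1 - (1 / 16 : ℂ) * x3) (x2 - (1 / 16 : ℂ) * x3) (x3 - (1 / 16 : ℂ) * x3)
    = (cr x1 x2 + cr x2 x3 - cr x1 x3 / 16) / √3 - 1 := by
  simp only [fanw, cr, Complex.sub_re, Complex.sub_im, sx_re, sx_im]; ring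

theorem dt_sx (x1 x3 : ℂ) : dt (x1 - (1 / 16 : ℂ) * x3) (x3 - (1 / 16 : ℂ) * x3)
    = 15 / 16 * (dt x1 x3 - dt x3 x3 / 16) := by
  simp only [dt, Complex.sub_re, Complex.sub_im, sx_re, sx_im]; ring

theorem cr_sx (x1 x3 : ℂ) : cr (x1 - (1 / 16 : ℂ) * x3) (x3 - (1 / 16 : ℂ) * x3) = 15 / 16 * cr x1 x3 := by
  simp only [cr, Complex.sub_re, Complex.sub_im, sx_re, sx_im]; ring

theorem cr_sx' (x1 x2 x3 : ℂ) : cr (x1 - (1 / 16 : ℂ) * x3) (x2 - (1 / 16 : ℂ) * x3)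
    = cr x1 x2 - cr x1 x3 / 16 + cr x2 x3 / 16 := by
  simp only [cr, Complex.sub_re, Complex.sub_im, sx_re, sx_im]; ring

theorem fanN_scaled (v1 v2 v3 : ℂ) :
    fanw (d1 + v1 - (1 / 16 : ℂ) * (d3 + v3)) (d2 + v2 - (1 / 16 : ℂ) * (d3 + v3)) (d3 + v3 - (1 / 16 : ℂ) * (d3 + v3))
    = (((1 + 2 * v1.re / √3) * (2 + 2 * v2.im) - (1 + 2 * v1.im) * (2 * v2.re / √3)
      + (2 * v2.re / √3 * (1 + 2 * v3.im) - (2 + 2 * v2.im) * (-1 + 2 * v3.re / √3))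
      - ((1 + 2 * v1.re / √3) * (1 + 2 * v3.im) - (1 + 2 * v1.im) * (-1 + 2 * v3.re / √3)) / 16) / 4 - 1) := by
  have hne := s3p.ne'
  rw [fan_sx, cr_sc (d1 + v1), cr_sc (d2 + v2), cr_sc (d1 + v1) (d3 + v3), re1, im1, re2, im2, re3, im3]
  field_simp

theorem near_sc {v1 : ℂ} {t : ℝ} (n : ‖d1 + v1‖ ≤ t) :
    3 * (1 + 2 * v1.re / √3) ^ 2 + (1 + 2 * v1.im) ^ 2 ≤ 4 * t ^ 2 := by
  have h1 := nrm (d1 + v1)
  rw [re1, im1] at h1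
  have h2 : ‖d1 + v1‖ ^ 2 ≤ t ^ 2 := pow_le_pow_left₀ (norm_nonneg _) n 2
  linarith

/-- (N1) -/
theorem Fan0.N1 (H : Fan0 v1 v2 v3) (n : ‖d1 + v1‖ ≤ 59 / 100) :
    9 / 200 ≤ fanw (d1 + v1 - (1 / 16 : ℂ) * (d3 + v3)) (d2 + v2 - (1 / 16 : ℂ) * (d3 + v3))
      (d3 + v3 - (1 / 16 : ℂ) * (d3 + v3)) + Phi V30 (4 / 25) v1 v2 v3 := by
  by_contra hcon
  push Not at hcon
  obtain ⟨o1, o2, o3⟩ := phi_opts (v1 := v1) (v2 := v2) (v3 := v3)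
    (t := 9 / 200 - fanw (d1 + v1 - (1 / 16 : ℂ) * (d3 + v3)) (d2 + v2 - (1 / 16 : ℂ) * (d3 + v3))
      (d3 + v3 - (1 / 16 : ℂ) * (d3 + v3))) (by linarith)
  rw [fanN_scaled] at o1 o2 o3
  have hn := near_sc n
  norm_num at hn
  exact N1s H.cfg (by linarith) (by linarith) (by linarith) (by linarith)

/-- (N1'), nearer frame -/
theorem Fan0.N1' (H : Fan0 v1 v2 v3) (n : ‖d1 + v1‖ ≤ 578 / 1000) :
    1 / 20 ≤ fanw (d1 + v1 - (1 / 16 : ℂ) * (d3 + v3)) (d2 + v2 - (1 / 16 : ℂ) * (d3 + v3))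
      (d3 + v3 - (1 / 16 : ℂ) * (d3 + v3)) + Phi V30 (4 / 25) v1 v2 v3 := by
  by_contra hcon
  push Not at hcon
  obtain ⟨o1, o2, o3⟩ := phi_opts (v1 := v1) (v2 := v2) (v3 := v3)
    (t := 1 / 20 - fanw (d1 + v1 - (1 / 16 : ℂ) * (d3 + v3)) (d2 + v2 - (1 / 16 : ℂ) * (d3 + v3))
      (d3 + v3 - (1 / 16 : ℂ) * (d3 + v3))) (by linarith)
  rw [fanN_scaled] at o1 o2 o3
  have hn := near_sc n
  norm_num at hn
  exact N1bs H.cfg (by linarith) (by linarith) (by linarith) (by linarith)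

theorem Fan0.c13 (H : Fan0 v1 v2 v3) : 0 < cr (d1 + v1) (d3 + v3) := by
  have c := H.cfg
  rw [cr_sc, re1, im1, re3, im3]
  have hp := s3p
  have f1 := c.v1.f7
  have f2 := c.v1.f1
  have f3 := c.v3.f6
  have f4 := c.v3.f1
  have b1 := c.b1
  have b3 := c.b3
  have h1 : 0 < 1 + 2 * v1.re / √3 := by linarith
  have h2 : 0 < 1 + 2 * v3.im := by linarith
  have h3 : 0 < 1 + 2 * v1.im := by linarith
  have h4 : 0 < 1 - 2 * v3.re / √3 := by linarith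
  have := mul_pos h1 h2
  have := mul_pos h3 h4
  refine mul_pos (by positivity) ?_
  linarith

theorem Fan0.c13N (H : Fan0 v1 v2 v3) :
    0 < cr (d1 + v1 - (1 / 16 : ℂ) * (d3 + v3)) (d3 + v3 - (1 / 16 : ℂ) * (d3 + v3)) := by
  rw [cr_sx]; exact mul_pos (by norm_num) H.c13

/-- (N2) -/
theorem Fan0.N2 (H : Fan0 v1 v2 v3) (n : ‖d1 + v1‖ ≤ 59 / 100) :
    dt (d1 + v1 - (1 / 16 : ℂ) * (d3 + v3)) (d3 + v3 - (1 / 16 : ℂ) * (d3 + v3))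
      ≤ -(775 / 1000) * cr (d1 + v1 - (1 / 16 : ℂ) * (d3 + v3)) (d3 + v3 - (1 / 16 : ℂ) * (d3 + v3)) := by
  by_contra hcon
  push Not at hcon
  have hpos := H.c13
  have hn := near_sc n
  norm_num at hn
  rw [dt_sx, cr_sx] at hcon
  rw [cr_sc, re1, im1, re3, im3] at hpos
  rw [cr_sc, dt_sc, dt_sc (d3 + v3), re1, im1, re3, im3] at hcon
  have hp := s3p
  have hs := s3
  refine N2s H.cfg (by linarith) ?_
  set B := (1 + 2 * v1.re / √3) * (1 + 2 * v3.im) - (1 + 2 * v1.im) * (-1 + 2 * v3.re / √3)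
  have hB : 0 < B := (mul_pos_iff_of_pos_left (show 0 < √3 / 4 by positivity)).1 hpos
  have h173 : √3 ≤ 17321 / 10000 := by nlinarith
  have h1 : √3 * B ≤ 17321 / 10000 * B := mul_le_mul_of_nonneg_right h173 hB.le
  have e1 : 3 * (-1 + 2 * v3.re / √3) * (-1 + 2 * v3.re / √3) + (1 + 2 * v3.im) * (1 + 2 * v3.im)
      = 3 * (-1 + 2 * v3.re / √3) ^ 2 + (1 + 2 * v3.im) ^ 2 := by ring
  rw [e1] at hcon
  set N := 3 * (-1 + 2 * v3.re / √3) ^ 2 + (1 + 2 * v3.im) ^ 2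
  set D := 3 * (1 + 2 * v1.re / √3) * (-1 + 2 * v3.re / √3) + (1 + 2 * v1.im) * (1 + 2 * v3.im)
  linarith

/-- (N2), cosine form -/
theorem Fan0.N2' (H : Fan0 v1 v2 v3) (n : ‖d1 + v1‖ ≤ 59 / 100) :
    dt (d1 + v1 - (1 / 16 : ℂ) * (d3 + v3)) (d3 + v3 - (1 / 16 : ℂ) * (d3 + v3))
      ≤ -(612 / 1000) * (‖d1 + v1 - (1 / 16 : ℂ) * (d3 + v3)‖ * ‖d3 + v3 - (1 / 16 : ℂ) * (d3 + v3)‖) :=
  cos_of_cot (κ := 775 / 1000) (by norm_num) (by norm_num) (by norm_num) H.c13N (H.N2 n)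

/-- (N3) -/
theorem Fan0.N3 (H : Fan0 v1 v2 v3) (n : ‖d1 + v1‖ ≤ 59 / 100) :
    29 / 50 ≤ ‖d1 + v1 - (1 / 16 : ℂ) * (d3 + v3)‖ := by
  by_contra hcon
  push Not at hcon
  have hn := near_sc n
  norm_num at hn
  have hne := s3p.ne'
  have h1 := nrm (d1 + v1 - (1 / 16 : ℂ) * (d3 + v3))
  have r : 2 * (d1 + v1 - (1 / 16 : ℂ) * (d3 + v3)).re / √3 = 1 + 2 * v1.re / √3 - (-1 + 2 * v3.re / √3) / 16 := by
    rw [← re1, ← re3, Complex.sub_re, sx_re]; ring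
  have i : 2 * (d1 + v1 - (1 / 16 : ℂ) * (d3 + v3)).im = 1 + 2 * v1.im - (1 + 2 * v3.im) / 16 := by
    rw [← im1, ← im3, Complex.sub_im, sx_im]; ring
  rw [r, i] at h1
  have h2 : ‖d1 + v1 - (1 / 16 : ℂ) * (d3 + v3)‖ ^ 2 ≤ (29 / 50) ^ 2 := pow_le_pow_left₀ (norm_nonneg _) hcon.le 2
  exact N3s H.cfg (by linarith) (by linarith)

/-- (N4a) -/
theorem Fan0.N4a (H : Fan0 v1 v2 v3) (n : ‖d1 + v1‖ ≤ 59 / 100) :
    1 / 2 * ‖d1 + v1 - (1 / 16 : ℂ) * (d3 + v3)‖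
      ≤ cr (d1 + v1 - (1 / 16 : ℂ) * (d3 + v3)) (d2 + v2 - (1 / 16 : ℂ) * (d3 + v3)) := by
  have hn := near_sc n
  norm_num at hn
  have hp := s3p
  have hs := s3
  have hC : √3 / 5 ≤ cr (d1 + v1 - (1 / 16 : ℂ) * (d3 + v3)) (d2 + v2 - (1 / 16 : ℂ) * (d3 + v3)) := by
    by_contra hcon
    push Not at hcon
    rw [cr_sx', cr_sc (d1 + v1), cr_sc (d1 + v1) (d3 + v3), cr_sc (d2 + v2), re1, im1, re2, im2, re3, im3] at hcon
    refine N4s H.cfg (by linarith) ?_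
    set C12 := (1 + 2 * v1.re / √3) * (2 + 2 * v2.im) - (1 + 2 * v1.im) * (2 * v2.re / √3)
    set C13 := (1 + 2 * v1.re / √3) * (1 + 2 * v3.im) - (1 + 2 * v1.im) * (-1 + 2 * v3.re / √3)
    set C23 := 2 * v2.re / √3 * (1 + 2 * v3.im) - (2 + 2 * v2.im) * (-1 + 2 * v3.re / √3)
    have h1 : √3 / 4 * (C12 - C13 / 16 + C23 / 16) < √3 / 4 * (4 / 5) := by linarith
    exact (lt_of_mul_lt_mul_left h1 (by positivity)).le
  have hN : ‖d1 + v1 - (1 / 16 : ℂ) * (d3 + v3)‖ ≤ 59 / 100 + 1 / 16 * (147 / 100) := by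
    have h1 := norm_sub_le (d1 + v1) ((1 / 16 : ℂ) * (d3 + v3))
    have h2 : ‖(1 / 16 : ℂ) * (d3 + v3)‖ = 1 / 16 * ‖d3 + v3‖ := by rw [norm_mul]; norm_num
    have h3 : ‖d3 + v3‖ ≤ ‖d3‖ + ‖v3‖ := norm_add_le _ _
    have h4 : ‖v3‖ ≤ 47 / 100 := Pool.Agent.H30.P6.VB30.nrm v3 H.V3
    have h5 : ‖d3‖ = 1 := by
      have := nrm d3
      have e1 := re3 0
      have e2 := im3 0
      simp only [add_zero, Complex.zero_re, Complex.zero_im, mul_zero, zero_div] at e1 e2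
      rw [e1, e2] at this
      have h6 : ‖d3‖ ^ 2 = 1 := by rw [this]; norm_num
      nlinarith [norm_nonneg d3]
    linarith
  have h173 : 173 / 100 ≤ √3 := by nlinarith
  linarith

/-- (N4b) -/
theorem Fan0.N4b (H : Fan0 v1 v2 v3) :
    1 / 2 * ‖d3 + v3 - (1 / 16 : ℂ) * (d3 + v3)‖
      ≤ cr (d2 + v2 - (1 / 16 : ℂ) * (d3 + v3)) (d3 + v3 - (1 / 16 : ℂ) * (d3 + v3)) := by
  have h := g3_0 H.V2 H.V3 H.e23 H.e23'
  rw [cr_sx, show d3 + v3 - (1 / 16 : ℂ) * (d3 + v3) = (15 / 16 : ℂ) * (d3 + v3) by ring, norm_mul]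
  have : ‖(15 / 16 : ℂ)‖ = 15 / 16 := by norm_num
  rw [this]
  linarith

/-- (N5) -/
theorem Fan0.N5 (H : Fan0 v1 v2 v3) (n : ‖d1 + v1‖ ≤ 59 / 100) : 4 / 5 ≤ ‖d3 + v3‖ := by
  by_contra hcon
  push Not at hcon
  have hn := near_sc n
  norm_num at hn
  have h1 := nrm (d3 + v3)
  rw [re3, im3] at h1
  have h2 : ‖d3 + v3‖ ^ 2 ≤ (4 / 5) ^ 2 := pow_le_pow_left₀ (norm_nonneg _) hcon.le 2
  exact N5s H.cfg (by linarith) (by linarith)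

/-! ### mirrored versions: `x3` near, apex `x1 / 16` -/

theorem mu_sx (x : ℂ) : mu ((1 / 16 : ℂ) * x) = (1 / 16 : ℂ) * mu x := by
  apply Complex.ext
  · rw [mu_re, sx_re, sx_re, mu_re]; ring
  · rw [mu_im, sx_im, sx_im, mu_im]

theorem ms (x y : ℂ) : mu x - (1 / 16 : ℂ) * mu y = mu (x - (1 / 16 : ℂ) * y) := by
  rw [mu_sub, mu_sx]

theorem Fan0.N1m (H : Fan0 v1 v2 v3) (n : ‖d3 + v3‖ ≤ 59 / 100) :
    9 / 200 ≤ fanw (d1 + v1 - (1 / 16 : ℂ) * (d1 + v1)) (d2 + v2 - (1 / 16 : ℂ) * (d1 + v1))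
      (d3 + v3 - (1 / 16 : ℂ) * (d1 + v1)) + Phi V30 (4 / 25) v1 v2 v3 := by
  have := H.mir.N1 (by rwa [m1, mu_norm])
  rwa [m1, m2, m3, ms, ms, ms, fanw_mu, Phi_mu] at this

theorem Fan0.N1m' (H : Fan0 v1 v2 v3) (n : ‖d3 + v3‖ ≤ 578 / 1000) :
    1 / 20 ≤ fanw (d1 + v1 - (1 / 16 : ℂ) * (d1 + v1)) (d2 + v2 - (1 / 16 : ℂ) * (d1 + v1))
      (d3 + v3 - (1 / 16 : ℂ) * (d1 + v1)) + Phi V30 (4 / 25) v1 v2 v3 := by
  have := H.mir.N1' (by rwa [m1, mu_norm])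
  rwa [m1, m2, m3, ms, ms, ms, fanw_mu, Phi_mu] at this

theorem Fan0.c13Nm (H : Fan0 v1 v2 v3) :
    0 < cr (d1 + v1 - (1 / 16 : ℂ) * (d1 + v1)) (d3 + v3 - (1 / 16 : ℂ) * (d1 + v1)) := by
  have := H.mir.c13N
  rwa [m1, m3, ms, ms, mu_cr] at this

theorem Fan0.N2m (H : Fan0 v1 v2 v3) (n : ‖d3 + v3‖ ≤ 59 / 100) :
    dt (d1 + v1 - (1 / 16 : ℂ) * (d1 + v1)) (d3 + v3 - (1 / 16 : ℂ) * (d1 + v1))
      ≤ -(775 / 1000) * cr (d1 + v1 - (1 / 16 : ℂ) * (d1 + v1)) (d3 + v3 - (1 / 16 : ℂ) * (d1 + v1)) := by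
  have := H.mir.N2 (by rwa [m1, mu_norm])
  rwa [m1, m3, ms, ms, mu_cr, mu_dt, dt_comm'] at this

theorem Fan0.N2m' (H : Fan0 v1 v2 v3) (n : ‖d3 + v3‖ ≤ 59 / 100) :
    dt (d1 + v1 - (1 / 16 : ℂ) * (d1 + v1)) (d3 + v3 - (1 / 16 : ℂ) * (d1 + v1))
      ≤ -(612 / 1000) * (‖d1 + v1 - (1 / 16 : ℂ) * (d1 + v1)‖ * ‖d3 + v3 - (1 / 16 : ℂ) * (d1 + v1)‖) :=
  cos_of_cot (κ := 775 / 1000) (by norm_num) (by norm_num) (by norm_num) H.c13Nm (H.N2m n)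

theorem Fan0.N3m (H : Fan0 v1 v2 v3) (n : ‖d3 + v3‖ ≤ 59 / 100) :
    29 / 50 ≤ ‖d3 + v3 - (1 / 16 : ℂ) * (d1 + v1)‖ := by
  have := H.mir.N3 (by rwa [m1, mu_norm])
  rwa [m1, m3, ms, mu_norm] at this

theorem Fan0.N4am (H : Fan0 v1 v2 v3) (n : ‖d3 + v3‖ ≤ 59 / 100) :
    1 / 2 * ‖d3 + v3 - (1 / 16 : ℂ) * (d1 + v1)‖
      ≤ cr (d2 + v2 - (1 / 16 : ℂ) * (d1 + v1)) (d3 + v3 - (1 / 16 : ℂ) * (d1 + v1)) := by
  have := H.mir.N4a (by rwa [m1, mu_norm])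
  rwa [m1, m2, m3, ms, ms, mu_cr, mu_norm] at this

theorem Fan0.N4bm (H : Fan0 v1 v2 v3) :
    1 / 2 * ‖d1 + v1 - (1 / 16 : ℂ) * (d1 + v1)‖
      ≤ cr (d1 + v1 - (1 / 16 : ℂ) * (d1 + v1)) (d2 + v2 - (1 / 16 : ℂ) * (d1 + v1)) := by
  have := H.mir.N4b
  rwa [m2, m3, ms, ms, mu_cr, mu_norm] at this

theorem Fan0.N5m (H : Fan0 v1 v2 v3) (n : ‖d3 + v3‖ ≤ 59 / 100) : 4 / 5 ≤ ‖d1 + v1‖ := by
  have := H.mir.N5 (by rwa [m1, mu_norm])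
  rwa [m3, mu_norm] at this

end Pool.Agent.H30.Q
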