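import Pool.Agent.H30.P6.Base

/-!
# The hypotheses in rational coordinates

`(X, Y)` with `x = (√3/2) X`, `y = Y / 2`.  `(a, b)` is the displacement of the apex, `(X_m, Y_m)` the displacement of
the neighbour `m` minus `(a, b)`.
-/

set_option autoImplicit false

noncomputable section

namespace Pool.Agent.H30.P6

/-- `fan = (cross(x1,x2) + cross(x2,x3))/√3 - 1` -/
def fan (X1 Y1 X2 Y2 X3 Y3 : ℝ) : ℝ :=
  (X1 - X3 + Y2) / 2 + (X1 * Y2 - Y1 * X2 + X2 * Y3 - Y2 * X3) / 4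

/-- `V ≤ t` for the potential of the wedge with axis 90 degrees at the displacement `(X, Y)` -/
structure VLe (X Y t : ℝ) : Prop where
  f0 : 0 ≤ t
  f1 : -24 * Y ≤ 50 * t
  f2 : 16 * X - 16 * Y ≤ 50 * t
  f3 : -16 * X - 16 * Y ≤ 50 * t
  f4 : 25 * X - 11 * Y ≤ 50 * t
  f5 : -25 * X - 11 * Y ≤ 50 * t
  f6 : 43 * X ≤ 50 * t
  f7 : -43 * X ≤ 50 * t
  f8 : 75 * X + 25 * Y ≤ 50 * t
  f9 : -75 * X + 25 * Y ≤ 50 * t
  f10 : 56 * X + 56 * Y ≤ 50 * t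
  f11 : -56 * X + 56 * Y ≤ 50 * t
  f12 : 112 * Y ≤ 50 * t

theorem VLe.mirror {X Y t : ℝ} (h : VLe X Y t) : VLe (-X) Y t :=
  ⟨h.f0, h.f1, by linarith [h.f3], by linarith [h.f2], by linarith [h.f5], by linarith [h.f4], by linarith [h.f7],
    by linarith [h.f6], by linarith [h.f9], by linarith [h.f8], by linarith [h.f11], by linarith [h.f10], h.f12⟩

/-- lower bound for the strip term of an edge vector `(Zx, Zy)` -/
def Str (Zx Zy h : ℝ) : Prop :=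
  0 ≤ h ∧ ∀ cx cy : ℝ, cx ^ 2 + 3 * cy ^ 2 ≤ 4800 → cx * Zx + cy * Zy - 80 ≤ 500 * h

/-- a configuration: apex displacement `(a, b)`, relative displacements, potentials, strip terms, energy -/
structure Cfg (a b X1 Y1 X2 Y2 X3 Y3 V1 V2 V3 p q r s h k E : ℝ) : Prop where
  v1 : VLe (X1 + a) (Y1 + b) V1
  v2 : VLe (X2 + a) (Y2 + b) V2
  v3 : VLe (X3 + a) (Y3 + b) V3
  b1 : V1 ≤ 1 / 3
  b2 : V2 ≤ 1 / 3
  b3 : V3 ≤ 1 / 3
  p0 : 0 ≤ p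
  q0 : 0 ≤ q
  r0 : 0 ≤ r
  s0 : 0 ≤ s
  p1 : -(3 * (X1 + a) + (Y1 + b)) ≤ 25 * p
  q1 : -(3 * (X2 + a) + (Y2 + b)) ≤ 25 * q
  r1 : -(-3 * (X2 + a) + (Y2 + b)) ≤ 25 * r
  s1 : -(-3 * (X3 + a) + (Y3 + b)) ≤ 25 * s
  h1 : Str (-1 + X2 - X1) (1 + Y2 - Y1) h
  k1 : Str (-1 + X3 - X2) (-1 + Y3 - Y2) k
  o1 : fan X1 Y1 X2 Y2 X3 Y3 + V1 + r + s + k ≤ E
  o2 : fan X1 Y1 X2 Y2 X3 Y3 + V2 + p + q + r + s + h + k ≤ E
  o3 : fan X1 Y1 X2 Y2 X3 Y3 + V3 + p + q + h ≤ E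
  e1 : E ≤ 1 / 3
  u1 : 3 * a ^ 2 + b ^ 2 ≤ 64 / 25
  g1 : 4 ≤ 3 * (1 + X1) ^ 2 + (1 + Y1) ^ 2
  g2 : 4 ≤ 3 * X2 ^ 2 + (2 + Y2) ^ 2
  g3 : 4 ≤ 3 * (-1 + X3) ^ 2 + (1 + Y3) ^ 2
  g12 : 4 ≤ 3 * (-1 + X2 - X1) ^ 2 + (1 + Y2 - Y1) ^ 2
  g23 : 4 ≤ 3 * (-1 + X3 - X2) ^ 2 + (-1 + Y3 - Y2) ^ 2

theorem Cfg.mirror {a b X1 Y1 X2 Y2 X3 Y3 V1 V2 V3 p q r s h k E : ℝ}
    (c : Cfg a b X1 Y1 X2 Y2 X3 Y3 V1 V2 V3 p q r s h k E) :
    Cfg (-a) b (-X3) Y3 (-X2) Y2 (-X1) Y1 V3 V2 V1 s r q p k h E where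
  v1 := by have := c.v3.mirror; rwa [show -(X3 + a) = -X3 + -a by ring] at this
  v2 := by have := c.v2.mirror; rwa [show -(X2 + a) = -X2 + -a by ring] at this
  v3 := by have := c.v1.mirror; rwa [show -(X1 + a) = -X1 + -a by ring] at this
  b1 := c.b3
  b2 := c.b2
  b3 := c.b1
  p0 := c.s0
  q0 := c.r0
  r0 := c.q0
  s0 := c.p0
  p1 := by linarith [c.s1]
  q1 := by linarith [c.r1]
  r1 := by linarith [c.q1]
  s1 := by linarith [c.p1]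
  h1 := ⟨c.k1.1, fun cx cy hc => by have := c.k1.2 cx (-cy) (by linarith); nlinarith⟩
  k1 := ⟨c.h1.1, fun cx cy hc => by have := c.h1.2 cx (-cy) (by linarith); nlinarith⟩
  o1 := by have := c.o3; unfold fan at *; linarith
  o2 := by have := c.o2; unfold fan at *; linarith
  o3 := by have := c.o1; unfold fan at *; linarith
  e1 := c.e1
  u1 := by have := c.u1; nlinarith
  g1 := by have := c.g3; nlinarith
  g2 := by have := c.g2; nlinarith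
  g3 := by have := c.g1; nlinarith
  g12 := by have := c.g23; nlinarith
  g23 := by have := c.g12; nlinarith

/-- the point of a configuration -/
def Cfg.pt (a b X1 Y1 X2 Y2 X3 Y3 V1 V2 V3 p q r s h k E : ℝ) : Pt :=
  ⟨50 * fan X1 Y1 X2 Y2 X3 Y3, X1, Y1, X2, Y2, X3, Y3, a, b, 50 * V1, 50 * V2, 50 * V3, 50 * p, 50 * q, 50 * r,
    50 * s, 50 * h, 50 * k, 50 * E⟩

theorem base_le {a b X1 Y1 X2 Y2 X3 Y3 V1 V2 V3 p q r s h k E : ℝ}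
    (c : Cfg a b X1 Y1 X2 Y2 X3 Y3 V1 V2 V3 p q r s h k E) :
    ∀ R ∈ base, R.ev (Cfg.pt a b X1 Y1 X2 Y2 X3 Y3 V1 V2 V3 p q r s h k E) ≤ 0 := by
  have ux : a ^ 2 ≤ 64 / 75 := by nlinarith [c.u1, sq_nonneg b]
  have uy : b ^ 2 ≤ 64 / 25 := by nlinarith [c.u1, sq_nonneg a]
  have u1 : a ≤ 93 / 100 := by nlinarith
  have u2 : -(93 / 100) ≤ a := by nlinarith
  have u3 : b ≤ 8 / 5 := by nlinarith
  have u4 : -(8 / 5) ≤ b := by nlinarith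
  have u5 : 3 * a + b ≤ 16 / 5 := by nlinarith [c.u1, sq_nonneg (a - b), sq_nonneg (3 * a + b)]
  have u6 : -(3 * a + b) ≤ 16 / 5 := by nlinarith [c.u1, sq_nonneg (a - b), sq_nonneg (3 * a + b)]
  have u7 : 3 * a - b ≤ 16 / 5 := by nlinarith [c.u1, sq_nonneg (a + b), sq_nonneg (3 * a - b)]
  have u8 : -(3 * a - b) ≤ 16 / 5 := by nlinarith [c.u1, sq_nonneg (a + b), sq_nonneg (3 * a - b)]
  have w1 := c.h1.2 (-35) 34 (by norm_num)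
  have w2 := c.h1.2 (-43) 31 (by norm_num)
  have w3 := c.h1.2 (-52) 26 (by norm_num)
  have w4 := c.h1.2 (-60) 20 (by norm_num)
  have w5 := c.h1.2 (-64) 14 (by norm_num)
  have w6 := c.h1.2 (-68) 7 (by norm_num)
  have w7 := c.h1.2 (-69) 0 (by norm_num)
  have w8 := c.k1.2 (-69) 0 (by norm_num)
  have w9 := c.k1.2 (-68) (-7) (by norm_num)
  have w10 := c.k1.2 (-64) (-14) (by norm_num)
  have w11 := c.k1.2 (-60) (-20) (by norm_num)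
  have w12 := c.k1.2 (-52) (-26) (by norm_num)
  have w13 := c.k1.2 (-43) (-31) (by norm_num)
  have w14 := c.k1.2 (-35) (-34) (by norm_num)
  obtain ⟨⟨a0, a1, a2, a3, a4, a5, a6, a7, a8, a9, a10, a11, a12⟩, ⟨b0, b1, b2, b3, b4, b5, b6, b7, b8, b9, b10, b11, b12⟩,
    ⟨c0, c1, c2, c3, c4, c5, c6, c7, c8, c9, c10, c11, c12⟩, B1, B2, B3, p0, q0, r0, s0, p1, q1, r1, s1, h1, k1, o1, o2, o3, e1, -, -, -, -, -, -⟩ := c
  intro R hR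
  simp only [base, List.mem_cons, List.not_mem_nil, or_false] at hR
  rcases hR with rfl | rfl | rfl | rfl | rfl | rfl | rfl | rfl | rfl | rfl | rfl | rfl | rfl | rfl | rfl | rfl | rfl |
    rfl | rfl | rfl | rfl | rfl | rfl | rfl | rfl | rfl | rfl | rfl | rfl | rfl | rfl | rfl | rfl | rfl | rfl | rfl |
    rfl | rfl | rfl | rfl | rfl | rfl | rfl | rfl | rfl | rfl | rfl | rfl | rfl | rfl | rfl | rfl | rfl | rfl | rfl |
    rfl | rfl | rfl | rfl | rfl | rfl | rfl | rfl | rfl | rfl | rfl | rfl | rfl | rfl <;>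
  · simp only [Row.ev, Cfg.pt]
    push_cast
    linarith

end Pool.Agent.H30.P6
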