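import Pool.Agent.H30.P6.BSnd
import Pool.Agent.H30.P6.Cfg

/-!
# Virtual fans with a far hit: rows (generated) and hypotheses in scaled coordinates
-/

set_option autoImplicit false

noncomputable section

namespace Pool.Agent.H30.Q

open Pool.Agent.H30.P6 (VLe Str)

/-- a virtual fan with frames `d_m + v_m`, and a point `u` with `|x1 - u| ≥ √3` near the leg `x3`, scaled coordinates -/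
structure BCfg (X1 Y1 X2 Y2 X3 Y3 a b V1 V2 V3 p q r s h k : ℝ) : Prop where
  v1 : VLe X1 Y1 V1
  v2 : VLe X2 Y2 V2
  v3 : VLe X3 Y3 V3
  b1 : V1 ≤ 1 / 3
  b2 : V2 ≤ 1 / 3
  b3 : V3 ≤ 1 / 3
  p0 : 0 ≤ p
  q0 : 0 ≤ q
  r0 : 0 ≤ r
  s0 : 0 ≤ s
  p1 : -(3 * X1 + Y1) ≤ 25 * p
  q1 : -(3 * X2 + Y2) ≤ 25 * q
  r1 : -(-3 * X2 + Y2) ≤ 25 * r
  s1 : -(-3 * X3 + Y3) ≤ 25 * s
  h1 : Str (-1 + X2 - X1) (1 + Y2 - Y1) h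
  k1 : Str (-1 + X3 - X2) (-1 + Y3 - Y2) k
  hh : h ≤ 47 / 625
  kk : k ≤ 47 / 625
  f1 : V1 + r + s + k ≤ 1 / 3
  f2 : V2 + p + q + r + s + h + k ≤ 1 / 3
  f3 : V3 + p + q + h ≤ 1 / 3
  g1 : 12 ≤ 3 * (1 + X1 - a) ^ 2 + (1 + Y1 - b) ^ 2
  g2 : 4 ≤ 3 * (X2 - a) ^ 2 + (2 + Y2 - b) ^ 2
  g3 : 4 ≤ 3 * (-1 + X3 - a) ^ 2 + (1 + Y3 - b) ^ 2
  g12 : 4 ≤ 3 * (-1 + X2 - X1) ^ 2 + (1 + Y2 - Y1) ^ 2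
  g23 : 4 ≤ 3 * (-1 + X3 - X2) ^ 2 + (-1 + Y3 - Y2) ^ 2
  un : 3 * a ^ 2 + b ^ 2 ≤ 502681 / 250000
  ub : b ≤ -(2 / 5)
  hit0 : 0 ≤ (-1 + X3) * b - (1 + Y3) * a
  hit : ∀ m : ℝ, 0 < m → 3 * m * ((-1 + X3) * b - (1 + Y3) * a) ≤ 3 * (-1 + X3) ^ 2 + (1 + Y3) ^ 2 + m ^ 2

theorem BCfg.ur {X1 Y1 X2 Y2 X3 Y3 a b V1 V2 V3 p q r s h k : ℝ}
    (c : BCfg X1 Y1 X2 Y2 X3 Y3 a b V1 V2 V3 p q r s h k) (gx gy bd : ℝ) (h0 : 0 ≤ bd)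
    (h1 : (gx ^ 2 + 3 * gy ^ 2) * (502681 / 250000) ≤ 3 * bd ^ 2) : gx * a + gy * b ≤ bd := by
  have h2 : 3 * (gx * a + gy * b) ^ 2 ≤ (gx ^ 2 + 3 * gy ^ 2) * (3 * a ^ 2 + b ^ 2) := by
    nlinarith [sq_nonneg (gx * b - 3 * gy * a)]
  have h3 : (gx ^ 2 + 3 * gy ^ 2) * (3 * a ^ 2 + b ^ 2) ≤ (gx ^ 2 + 3 * gy ^ 2) * (502681 / 250000) :=
    mul_le_mul_of_nonneg_left c.un (by positivity)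
  have h4 : (gx * a + gy * b) ^ 2 ≤ bd ^ 2 := by linarith
  exact le_trans (le_abs_self _) (abs_le_of_sq_le_sq h4 h0)

/-- the point -/
def BCfg.pt (X1 Y1 X2 Y2 X3 Y3 a b V1 V2 V3 p q r s h k : ℝ) : Pt :=
  ⟨X1, Y1, X2, Y2, X3, Y3, a, b, 50 * V1, 50 * V2, 50 * V3, 50 * p, 50 * q, 50 * r, 50 * s, 50 * h, 50 * k⟩

/-- the common rows -/
def cB : List Row := [
  ⟨0, 0, 0, 0, 0, 0, 0, 0, 0, 0, 0, 0, 0, 0, 0, 0, 0, 0, 0, 3, 0, 0, 0, 0, 3, 3, 0, 3, -50⟩,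
  ⟨0, 0, 0, 0, 0, 0, 0, 0, 0, 0, 0, 0, 0, 0, 0, 0, 0, 0, 0, 0, 3, 0, 3, 3, 3, 3, 3, 3, -50⟩,
  ⟨0, 0, 0, 0, 0, 0, 0, 0, 0, 0, 0, 0, 0, 0, 0, 0, 0, 0, 0, 0, 0, 3, 3, 3, 0, 0, 3, 0, -50⟩,
  ⟨0, 0, 0, 0, 0, 0, 0, 0, 0, 0, 0, 0, -24, 0, 0, 0, 0, 0, 0, -1, 0, 0, 0, 0, 0, 0, 0, 0, 0⟩,
  ⟨0, 0, 0, 0, 0, 0, 0, 0, 0, 0, 0, 16, -16, 0, 0, 0, 0, 0, 0, -1, 0, 0, 0, 0, 0, 0, 0, 0, 0⟩,
  ⟨0, 0, 0, 0, 0, 0, 0, 0, 0, 0, 0, -16, -16, 0, 0, 0, 0, 0, 0, -1, 0, 0, 0, 0, 0, 0, 0, 0, 0⟩,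
  ⟨0, 0, 0, 0, 0, 0, 0, 0, 0, 0, 0, 25, -11, 0, 0, 0, 0, 0, 0, -1, 0, 0, 0, 0, 0, 0, 0, 0, 0⟩,
  ⟨0, 0, 0, 0, 0, 0, 0, 0, 0, 0, 0, -25, -11, 0, 0, 0, 0, 0, 0, -1, 0, 0, 0, 0, 0, 0, 0, 0, 0⟩,
  ⟨0, 0, 0, 0, 0, 0, 0, 0, 0, 0, 0, 43, 0, 0, 0, 0, 0, 0, 0, -1, 0, 0, 0, 0, 0, 0, 0, 0, 0⟩,
  ⟨0, 0, 0, 0, 0, 0, 0, 0, 0, 0, 0, -43, 0, 0, 0, 0, 0, 0, 0, -1, 0, 0, 0, 0, 0, 0, 0, 0, 0⟩,
  ⟨0, 0, 0, 0, 0, 0, 0, 0, 0, 0, 0, 75, 25, 0, 0, 0, 0, 0, 0, -1, 0, 0, 0, 0, 0, 0, 0, 0, 0⟩,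
  ⟨0, 0, 0, 0, 0, 0, 0, 0, 0, 0, 0, -75, 25, 0, 0, 0, 0, 0, 0, -1, 0, 0, 0, 0, 0, 0, 0, 0, 0⟩,
  ⟨0, 0, 0, 0, 0, 0, 0, 0, 0, 0, 0, 56, 56, 0, 0, 0, 0, 0, 0, -1, 0, 0, 0, 0, 0, 0, 0, 0, 0⟩,
  ⟨0, 0, 0, 0, 0, 0, 0, 0, 0, 0, 0, -56, 56, 0, 0, 0, 0, 0, 0, -1, 0, 0, 0, 0, 0, 0, 0, 0, 0⟩,
  ⟨0, 0, 0, 0, 0, 0, 0, 0, 0, 0, 0, 0, 112, 0, 0, 0, 0, 0, 0, -1, 0, 0, 0, 0, 0, 0, 0, 0, 0⟩,
  ⟨0, 0, 0, 0, 0, 0, 0, 0, 0, 0, 0, 0, 0, 0, -24, 0, 0, 0, 0, 0, -1, 0, 0, 0, 0, 0, 0, 0, 0⟩,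
  ⟨0, 0, 0, 0, 0, 0, 0, 0, 0, 0, 0, 0, 0, 16, -16, 0, 0, 0, 0, 0, -1, 0, 0, 0, 0, 0, 0, 0, 0⟩,
  ⟨0, 0, 0, 0, 0, 0, 0, 0, 0, 0, 0, 0, 0, -16, -16, 0, 0, 0, 0, 0, -1, 0, 0, 0, 0, 0, 0, 0, 0⟩,
  ⟨0, 0, 0, 0, 0, 0, 0, 0, 0, 0, 0, 0, 0, 25, -11, 0, 0, 0, 0, 0, -1, 0, 0, 0, 0, 0, 0, 0, 0⟩,
  ⟨0, 0, 0, 0, 0, 0, 0, 0, 0, 0, 0, 0, 0, -25, -11, 0, 0, 0, 0, 0, -1, 0, 0, 0, 0, 0, 0, 0, 0⟩,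
  ⟨0, 0, 0, 0, 0, 0, 0, 0, 0, 0, 0, 0, 0, 43, 0, 0, 0, 0, 0, 0, -1, 0, 0, 0, 0, 0, 0, 0, 0⟩,
  ⟨0, 0, 0, 0, 0, 0, 0, 0, 0, 0, 0, 0, 0, -43, 0, 0, 0, 0, 0, 0, -1, 0, 0, 0, 0, 0, 0, 0, 0⟩,
  ⟨0, 0, 0, 0, 0, 0, 0, 0, 0, 0, 0, 0, 0, 75, 25, 0, 0, 0, 0, 0, -1, 0, 0, 0, 0, 0, 0, 0, 0⟩,
  ⟨0, 0, 0, 0, 0, 0, 0, 0, 0, 0, 0, 0, 0, -75, 25, 0, 0, 0, 0, 0, -1, 0, 0, 0, 0, 0, 0, 0, 0⟩,
  ⟨0, 0, 0, 0, 0, 0, 0, 0, 0, 0, 0, 0, 0, 56, 56, 0, 0, 0, 0, 0, -1, 0, 0, 0, 0, 0, 0, 0, 0⟩,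
  ⟨0, 0, 0, 0, 0, 0, 0, 0, 0, 0, 0, 0, 0, -56, 56, 0, 0, 0, 0, 0, -1, 0, 0, 0, 0, 0, 0, 0, 0⟩,
  ⟨0, 0, 0, 0, 0, 0, 0, 0, 0, 0, 0, 0, 0, 0, 112, 0, 0, 0, 0, 0, -1, 0, 0, 0, 0, 0, 0, 0, 0⟩,
  ⟨0, 0, 0, 0, 0, 0, 0, 0, 0, 0, 0, 0, 0, 0, 0, 0, -24, 0, 0, 0, 0, -1, 0, 0, 0, 0, 0, 0, 0⟩,
  ⟨0, 0, 0, 0, 0, 0, 0, 0, 0, 0, 0, 0, 0, 0, 0, 16, -16, 0, 0, 0, 0, -1, 0, 0, 0, 0, 0, 0, 0⟩,
  ⟨0, 0, 0, 0, 0, 0, 0, 0, 0, 0, 0, 0, 0, 0, 0, -16, -16, 0, 0, 0, 0, -1, 0, 0, 0, 0, 0, 0, 0⟩,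
  ⟨0, 0, 0, 0, 0, 0, 0, 0, 0, 0, 0, 0, 0, 0, 0, 25, -11, 0, 0, 0, 0, -1, 0, 0, 0, 0, 0, 0, 0⟩,
  ⟨0, 0, 0, 0, 0, 0, 0, 0, 0, 0, 0, 0, 0, 0, 0, -25, -11, 0, 0, 0, 0, -1, 0, 0, 0, 0, 0, 0, 0⟩,
  ⟨0, 0, 0, 0, 0, 0, 0, 0, 0, 0, 0, 0, 0, 0, 0, 43, 0, 0, 0, 0, 0, -1, 0, 0, 0, 0, 0, 0, 0⟩,
  ⟨0, 0, 0, 0, 0, 0, 0, 0, 0, 0, 0, 0, 0, 0, 0, -43, 0, 0, 0, 0, 0, -1, 0, 0, 0, 0, 0, 0, 0⟩,
  ⟨0, 0, 0, 0, 0, 0, 0, 0, 0, 0, 0, 0, 0, 0, 0, 75, 25, 0, 0, 0, 0, -1, 0, 0, 0, 0, 0, 0, 0⟩,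
  ⟨0, 0, 0, 0, 0, 0, 0, 0, 0, 0, 0, 0, 0, 0, 0, -75, 25, 0, 0, 0, 0, -1, 0, 0, 0, 0, 0, 0, 0⟩,
  ⟨0, 0, 0, 0, 0, 0, 0, 0, 0, 0, 0, 0, 0, 0, 0, 56, 56, 0, 0, 0, 0, -1, 0, 0, 0, 0, 0, 0, 0⟩,
  ⟨0, 0, 0, 0, 0, 0, 0, 0, 0, 0, 0, 0, 0, 0, 0, -56, 56, 0, 0, 0, 0, -1, 0, 0, 0, 0, 0, 0, 0⟩,
  ⟨0, 0, 0, 0, 0, 0, 0, 0, 0, 0, 0, 0, 0, 0, 0, 0, 112, 0, 0, 0, 0, -1, 0, 0, 0, 0, 0, 0, 0⟩,
  ⟨0, 0, 0, 0, 0, 0, 0, 0, 0, 0, 0, -6, -2, 0, 0, 0, 0, 0, 0, 0, 0, 0, -1, 0, 0, 0, 0, 0, 0⟩,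
  ⟨0, 0, 0, 0, 0, 0, 0, 0, 0, 0, 0, 0, 0, -6, -2, 0, 0, 0, 0, 0, 0, 0, 0, -1, 0, 0, 0, 0, 0⟩,
  ⟨0, 0, 0, 0, 0, 0, 0, 0, 0, 0, 0, 0, 0, 6, -2, 0, 0, 0, 0, 0, 0, 0, 0, 0, -1, 0, 0, 0, 0⟩,
  ⟨0, 0, 0, 0, 0, 0, 0, 0, 0, 0, 0, 0, 0, 0, 0, 6, -2, 0, 0, 0, 0, 0, 0, 0, 0, -1, 0, 0, 0⟩,
  ⟨0, 0, 0, 0, 0, 0, 0, 0, 0, 0, 0, 35, -34, -35, 34, 0, 0, 0, 0, 0, 0, 0, 0, 0, 0, 0, -10, 0, -11⟩,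
  ⟨0, 0, 0, 0, 0, 0, 0, 0, 0, 0, 0, 43, -31, -43, 31, 0, 0, 0, 0, 0, 0, 0, 0, 0, 0, 0, -10, 0, -6⟩,
  ⟨0, 0, 0, 0, 0, 0, 0, 0, 0, 0, 0, 26, -13, -26, 13, 0, 0, 0, 0, 0, 0, 0, 0, 0, 0, 0, -5, 0, -1⟩,
  ⟨0, 0, 0, 0, 0, 0, 0, 0, 0, 0, 0, 6, -2, -6, 2, 0, 0, 0, 0, 0, 0, 0, 0, 0, 0, 0, -1, 0, 0⟩,
  ⟨0, 0, 0, 0, 0, 0, 0, 0, 0, 0, 0, 32, -7, -32, 7, 0, 0, 0, 0, 0, 0, 0, 0, 0, 0, 0, -5, 0, -1⟩,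
  ⟨0, 0, 0, 0, 0, 0, 0, 0, 0, 0, 0, 68, -7, -68, 7, 0, 0, 0, 0, 0, 0, 0, 0, 0, 0, 0, -10, 0, -5⟩,
  ⟨0, 0, 0, 0, 0, 0, 0, 0, 0, 0, 0, 69, 0, -69, 0, 0, 0, 0, 0, 0, 0, 0, 0, 0, 0, 0, -10, 0, -11⟩,
  ⟨0, 0, 0, 0, 0, 0, 0, 0, 0, 0, 0, 0, 0, 69, 0, -69, 0, 0, 0, 0, 0, 0, 0, 0, 0, 0, 0, -10, -11⟩,
  ⟨0, 0, 0, 0, 0, 0, 0, 0, 0, 0, 0, 0, 0, 68, 7, -68, -7, 0, 0, 0, 0, 0, 0, 0, 0, 0, 0, -10, -5⟩,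
  ⟨0, 0, 0, 0, 0, 0, 0, 0, 0, 0, 0, 0, 0, 32, 7, -32, -7, 0, 0, 0, 0, 0, 0, 0, 0, 0, 0, -5, -1⟩,
  ⟨0, 0, 0, 0, 0, 0, 0, 0, 0, 0, 0, 0, 0, 6, 2, -6, -2, 0, 0, 0, 0, 0, 0, 0, 0, 0, 0, -1, 0⟩,
  ⟨0, 0, 0, 0, 0, 0, 0, 0, 0, 0, 0, 0, 0, 26, 13, -26, -13, 0, 0, 0, 0, 0, 0, 0, 0, 0, 0, -5, -1⟩,
  ⟨0, 0, 0, 0, 0, 0, 0, 0, 0, 0, 0, 0, 0, 43, 31, -43, -31, 0, 0, 0, 0, 0, 0, 0, 0, 0, 0, -10, -6⟩,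
  ⟨0, 0, 0, 0, 0, 0, 0, 0, 0, 0, 0, 0, 0, 35, 34, -35, -34, 0, 0, 0, 0, 0, 0, 0, 0, 0, 0, -10, -11⟩,
  ⟨0, 0, 0, 0, 0, 0, 0, 0, 0, 0, 0, 0, 0, 0, 0, 0, 0, 0, 0, 3, 0, 0, 0, 0, 0, 0, 0, 0, -50⟩,
  ⟨0, 0, 0, 0, 0, 0, 0, 0, 0, 0, 0, 0, 0, 0, 0, 0, 0, 0, 0, 0, 3, 0, 0, 0, 0, 0, 0, 0, -50⟩,
  ⟨0, 0, 0, 0, 0, 0, 0, 0, 0, 0, 0, 0, 0, 0, 0, 0, 0, 0, 0, 0, 0, 3, 0, 0, 0, 0, 0, 0, -50⟩,
  ⟨0, 0, 0, 0, 0, 0, 0, 0, 0, 0, 0, 0, 0, 0, 0, 0, 0, 0, 0, 0, 0, 0, 0, 0, 0, 0, 25, 0, -94⟩,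
  ⟨0, 0, 0, 0, 0, 0, 0, 0, 0, 0, 0, 0, 0, 0, 0, 0, 0, 0, 0, 0, 0, 0, 0, 0, 0, 0, 0, 25, -94⟩,
  ⟨0, 0, 0, 0, 0, 0, 0, 0, -1, 0, 0, -6, 2, 6, -2, 0, 0, 0, 0, 0, 0, 0, 0, 0, 0, 0, 0, 0, 0⟩,
  ⟨0, 0, 0, 0, 0, 0, 0, 0, 0, -1, 0, 0, 0, -6, -2, 6, 2, 0, 0, 0, 0, 0, 0, 0, 0, 0, 0, 0, 0⟩,
  ⟨0, 0, 0, 0, 0, 0, 0, 0, 0, 0, 0, 0, 0, 0, 0, 0, 0, 866, 0, 0, 0, 0, 0, 0, 0, 0, 0, 0, -709⟩,
  ⟨0, 0, 0, 0, 0, 0, 0, 0, 0, 0, 0, 0, 0, 0, 0, 0, 0, 800, 191, 0, 0, 0, 0, 0, 0, 0, 0, 0, -709⟩,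
  ⟨0, 0, 0, 0, 0, 0, 0, 0, 0, 0, 0, 0, 0, 0, 0, 0, 0, 306, 177, 0, 0, 0, 0, 0, 0, 0, 0, 0, -355⟩,
  ⟨0, 0, 0, 0, 0, 0, 0, 0, 0, 0, 0, 0, 0, 0, 0, 0, 0, 331, 462, 0, 0, 0, 0, 0, 0, 0, 0, 0, -709⟩,
  ⟨0, 0, 0, 0, 0, 0, 0, 0, 0, 0, 0, 0, 0, 0, 0, 0, 0, 0, 50, 0, 0, 0, 0, 0, 0, 0, 0, 0, -71⟩,
  ⟨0, 0, 0, 0, 0, 0, 0, 0, 0, 0, 0, 0, 0, 0, 0, 0, 0, -331, 462, 0, 0, 0, 0, 0, 0, 0, 0, 0, -709⟩,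
  ⟨0, 0, 0, 0, 0, 0, 0, 0, 0, 0, 0, 0, 0, 0, 0, 0, 0, -306, 177, 0, 0, 0, 0, 0, 0, 0, 0, 0, -355⟩,
  ⟨0, 0, 0, 0, 0, 0, 0, 0, 0, 0, 0, 0, 0, 0, 0, 0, 0, -800, 191, 0, 0, 0, 0, 0, 0, 0, 0, 0, -709⟩,
  ⟨0, 0, 0, 0, 0, 0, 0, 0, 0, 0, 0, 0, 0, 0, 0, 0, 0, -866, 0, 0, 0, 0, 0, 0, 0, 0, 0, 0, -709⟩,
  ⟨0, 0, 0, 0, 0, 0, 0, 0, 0, 0, 0, 0, 0, 0, 0, 0, 0, -800, -191, 0, 0, 0, 0, 0, 0, 0, 0, 0, -709⟩,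
  ⟨0, 0, 0, 0, 0, 0, 0, 0, 0, 0, 0, 0, 0, 0, 0, 0, 0, -306, -177, 0, 0, 0, 0, 0, 0, 0, 0, 0, -355⟩,
  ⟨0, 0, 0, 0, 0, 0, 0, 0, 0, 0, 0, 0, 0, 0, 0, 0, 0, -331, -462, 0, 0, 0, 0, 0, 0, 0, 0, 0, -709⟩,
  ⟨0, 0, 0, 0, 0, 0, 0, 0, 0, 0, 0, 0, 0, 0, 0, 0, 0, 0, -50, 0, 0, 0, 0, 0, 0, 0, 0, 0, -71⟩,
  ⟨0, 0, 0, 0, 0, 0, 0, 0, 0, 0, 0, 0, 0, 0, 0, 0, 0, 331, -462, 0, 0, 0, 0, 0, 0, 0, 0, 0, -709⟩,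
  ⟨0, 0, 0, 0, 0, 0, 0, 0, 0, 0, 0, 0, 0, 0, 0, 0, 0, 306, -177, 0, 0, 0, 0, 0, 0, 0, 0, 0, -355⟩,
  ⟨0, 0, 0, 0, 0, 0, 0, 0, 0, 0, 0, 0, 0, 0, 0, 0, 0, 800, -191, 0, 0, 0, 0, 0, 0, 0, 0, 0, -709⟩,
  ⟨0, 0, 0, 0, 0, 0, 0, 0, 0, 0, 0, 0, 0, 0, 0, 0, 0, 0, 5, 0, 0, 0, 0, 0, 0, 0, 0, 0, 2⟩,
  ⟨0, 0, 0, 0, 0, 0, -1, 0, 0, 0, 0, 0, 0, 0, -4, 0, 0, 0, 4, 0, 0, 0, 0, 0, 0, 0, 0, 0, 0⟩,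
  ⟨0, 0, 0, 0, 0, 0, 0, -1, 0, 0, 0, 0, 0, 0, 0, 6, -2, -6, 2, 0, 0, 0, 0, 0, 0, 0, 0, 0, 0⟩,
  ⟨0, 0, 0, 0, 0, -1, 0, 0, 0, 0, 0, -6, -2, 0, 0, 0, 0, 6, 2, 0, 0, 0, 0, 0, 0, 0, 0, 0, 8⟩,
  ⟨0, 0, 0, 0, 13650, 0, 0, 0, 0, 0, -2500, 0, 0, 0, 0, 15000, -5000, -13650, -13650, 0, 0, 0, 0, 0, 0, 0, 0, 0, -18281⟩,
  ⟨0, 0, 0, 0, 570, 0, 0, 0, 0, 0, -100, 0, 0, 0, 0, 600, -200, -570, -570, 0, 0, 0, 0, 0, 0, 0, 0, 0, -761⟩,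
  ⟨0, 0, 0, 0, 14850, 0, 0, 0, 0, 0, -2500, 0, 0, 0, 0, 15000, -5000, -14850, -14850, 0, 0, 0, 0, 0, 0, 0, 0, 0, -19801⟩,
  ⟨0, 0, 0, 0, 15450, 0, 0, 0, 0, 0, -2500, 0, 0, 0, 0, 15000, -5000, -15450, -15450, 0, 0, 0, 0, 0, 0, 0, 0, 0, -20609⟩,
  ⟨0, 0, 0, 0, 16050, 0, 0, 0, 0, 0, -2500, 0, 0, 0, 0, 15000, -5000, -16050, -16050, 0, 0, 0, 0, 0, 0, 0, 0, 0, -21449⟩,
  ⟨0, 0, 0, 0, 16650, 0, 0, 0, 0, 0, -2500, 0, 0, 0, 0, 15000, -5000, -16650, -16650, 0, 0, 0, 0, 0, 0, 0, 0, 0, -22321⟩,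
  ⟨0, 0, 0, 0, 690, 0, 0, 0, 0, 0, -100, 0, 0, 0, 0, 600, -200, -690, -690, 0, 0, 0, 0, 0, 0, 0, 0, 0, -929⟩,
  ⟨0, 0, 0, 0, 17850, 0, 0, 0, 0, 0, -2500, 0, 0, 0, 0, 15000, -5000, -17850, -17850, 0, 0, 0, 0, 0, 0, 0, 0, 0, -24161⟩,
  ⟨0, 0, 0, 0, -1, 0, 0, 0, 0, 0, 0, 0, 0, 0, 0, 0, 0, 1, 1, 0, 0, 0, 0, 0, 0, 0, 0, 0, 0⟩]

/-- the initial box -/
def box0 : Box := ⟨-416, 416, -720, 176, -416, 416, -720, 176, -416, 416, -720, 176, -864, 864, -1472, -384⟩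

theorem BCfg.inbox {X1 Y1 X2 Y2 X3 Y3 a b V1 V2 V3 p q r s h k : ℝ}
    (c : BCfg X1 Y1 X2 Y2 X3 Y3 a b V1 V2 V3 p q r s h k) :
    InBox box0 (1024 * X1) (1024 * Y1) (1024 * X2) (1024 * Y2) (1024 * X3) (1024 * Y3) (1024 * a) (1024 * b) := by
  have a1 := c.ur 1 0 (41 / 50) (by norm_num) (by norm_num)
  have a2 := c.ur (-1) 0 (41 / 50) (by norm_num) (by norm_num)
  have a3 := c.ur 0 (-1) (142 / 100) (by norm_num) (by norm_num)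
  constructor <;> simp only [box0] <;> push_cast
  · constructor <;> linarith [c.v1.f6, c.v1.f7, c.b1]
  · constructor <;> linarith [c.v1.f1, c.v1.f12, c.b1]
  · constructor <;> linarith [c.v2.f6, c.v2.f7, c.b2]
  · constructor <;> linarith [c.v2.f1, c.v2.f12, c.b2]
  · constructor <;> linarith [c.v3.f6, c.v3.f7, c.b3]
  · constructor <;> linarith [c.v3.f1, c.v3.f12, c.b3]
  · constructor <;> linarith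
  · constructor <;> linarith [c.ub]

theorem cB_le {X1 Y1 X2 Y2 X3 Y3 a b V1 V2 V3 p q r s h k : ℝ}
    (c : BCfg X1 Y1 X2 Y2 X3 Y3 a b V1 V2 V3 p q r s h k) :
    ∀ R ∈ cB, R.ev (BCfg.pt X1 Y1 X2 Y2 X3 Y3 a b V1 V2 V3 p q r s h k) ≤ 0 := by
  intro R hR
  simp only [cB, List.mem_cons, List.not_mem_nil, or_false] at hR
  rcases hR with rfl | rfl | rfl | rfl | rfl | rfl | rfl | rfl | rfl | rfl | rfl | rfl | rfl | rfl | rfl | rfl | rfl | rfl | rfl | rfl | rfl | rfl | rfl | rfl | rfl | rfl | rfl | rfl | rfl | rfl | rfl | rfl | rfl | rfl | rfl | rfl | rfl | rfl | rfl | rfl | rfl | rfl | rfl | rfl | rfl | rfl | rfl | rfl | rfl | rfl | rfl | rfl | rfl | rfl | rfl | rfl | rfl | rfl | rfl | rfl | rfl | rfl | rfl | rfl | rfl | rfl | rfl | rfl | rfl | rfl | rfl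 | rfl | rfl | rfl | rfl | rfl | rfl | rfl | rfl | rfl | rfl | rfl | rfl | rfl | rfl | rfl | rfl | rfl | rfl | rfl | rfl | rfl | rfl
  · simp only [Row.ev, BCfg.pt]; push_cast; linarith [c.f1]
  · simp only [Row.ev, BCfg.pt]; push_cast; linarith [c.f2]
  · simp only [Row.ev, BCfg.pt]; push_cast; linarith [c.f3]
  · simp only [Row.ev, BCfg.pt]; push_cast; linarith [c.v1.f1]
  · simp only [Row.ev, BCfg.pt]; push_cast; linarith [c.v1.f2]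
  · simp only [Row.ev, BCfg.pt]; push_cast; linarith [c.v1.f3]
  · simp only [Row.ev, BCfg.pt]; push_cast; linarith [c.v1.f4]
  · simp only [Row.ev, BCfg.pt]; push_cast; linarith [c.v1.f5]
  · simp only [Row.ev, BCfg.pt]; push_cast; linarith [c.v1.f6]
  · simp only [Row.ev, BCfg.pt]; push_cast; linarith [c.v1.f7]
  · simp only [Row.ev, BCfg.pt]; push_cast; linarith [c.v1.f8]
  · simp only [Row.ev, BCfg.pt]; push_cast; linarith [c.v1.f9]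
  · simp only [Row.ev, BCfg.pt]; push_cast; linarith [c.v1.f10]
  · simp only [Row.ev, BCfg.pt]; push_cast; linarith [c.v1.f11]
  · simp only [Row.ev, BCfg.pt]; push_cast; linarith [c.v1.f12]
  · simp only [Row.ev, BCfg.pt]; push_cast; linarith [c.v2.f1]
  · simp only [Row.ev, BCfg.pt]; push_cast; linarith [c.v2.f2]
  · simp only [Row.ev, BCfg.pt]; push_cast; linarith [c.v2.f3]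
  · simp only [Row.ev, BCfg.pt]; push_cast; linarith [c.v2.f4]
  · simp only [Row.ev, BCfg.pt]; push_cast; linarith [c.v2.f5]
  · simp only [Row.ev, BCfg.pt]; push_cast; linarith [c.v2.f6]
  · simp only [Row.ev, BCfg.pt]; push_cast; linarith [c.v2.f7]
  · simp only [Row.ev, BCfg.pt]; push_cast; linarith [c.v2.f8]
  · simp only [Row.ev, BCfg.pt]; push_cast; linarith [c.v2.f9]
  · simp only [Row.ev, BCfg.pt]; push_cast; linarith [c.v2.f10]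
  · simp only [Row.ev, BCfg.pt]; push_cast; linarith [c.v2.f11]
  · simp only [Row.ev, BCfg.pt]; push_cast; linarith [c.v2.f12]
  · simp only [Row.ev, BCfg.pt]; push_cast; linarith [c.v3.f1]
  · simp only [Row.ev, BCfg.pt]; push_cast; linarith [c.v3.f2]
  · simp only [Row.ev, BCfg.pt]; push_cast; linarith [c.v3.f3]
  · simp only [Row.ev, BCfg.pt]; push_cast; linarith [c.v3.f4]
  · simp only [Row.ev, BCfg.pt]; push_cast; linarith [c.v3.f5]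
  · simp only [Row.ev, BCfg.pt]; push_cast; linarith [c.v3.f6]
  · simp only [Row.ev, BCfg.pt]; push_cast; linarith [c.v3.f7]
  · simp only [Row.ev, BCfg.pt]; push_cast; linarith [c.v3.f8]
  · simp only [Row.ev, BCfg.pt]; push_cast; linarith [c.v3.f9]
  · simp only [Row.ev, BCfg.pt]; push_cast; linarith [c.v3.f10]
  · simp only [Row.ev, BCfg.pt]; push_cast; linarith [c.v3.f11]
  · simp only [Row.ev, BCfg.pt]; push_cast; linarith [c.v3.f12]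
  · simp only [Row.ev, BCfg.pt]; push_cast; linarith [c.p1]
  · simp only [Row.ev, BCfg.pt]; push_cast; linarith [c.q1]
  · simp only [Row.ev, BCfg.pt]; push_cast; linarith [c.r1]
  · simp only [Row.ev, BCfg.pt]; push_cast; linarith [c.s1]
  · simp only [Row.ev, BCfg.pt]; push_cast; linarith [c.h1.2 (-35) (34) (by norm_num)]
  · simp only [Row.ev, BCfg.pt]; push_cast; linarith [c.h1.2 (-43) (31) (by norm_num)]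
  · simp only [Row.ev, BCfg.pt]; push_cast; linarith [c.h1.2 (-52) (26) (by norm_num)]
  · simp only [Row.ev, BCfg.pt]; push_cast; linarith [c.h1.2 (-60) (20) (by norm_num)]
  · simp only [Row.ev, BCfg.pt]; push_cast; linarith [c.h1.2 (-64) (14) (by norm_num)]
  · simp only [Row.ev, BCfg.pt]; push_cast; linarith [c.h1.2 (-68) (7) (by norm_num)]
  · simp only [Row.ev, BCfg.pt]; push_cast; linarith [c.h1.2 (-69) (0) (by norm_num)]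
  · simp only [Row.ev, BCfg.pt]; push_cast; linarith [c.k1.2 (-69) (0) (by norm_num)]
  · simp only [Row.ev, BCfg.pt]; push_cast; linarith [c.k1.2 (-68) (-7) (by norm_num)]
  · simp only [Row.ev, BCfg.pt]; push_cast; linarith [c.k1.2 (-64) (-14) (by norm_num)]
  · simp only [Row.ev, BCfg.pt]; push_cast; linarith [c.k1.2 (-60) (-20) (by norm_num)]
  · simp only [Row.ev, BCfg.pt]; push_cast; linarith [c.k1.2 (-52) (-26) (by norm_num)]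
  · simp only [Row.ev, BCfg.pt]; push_cast; linarith [c.k1.2 (-43) (-31) (by norm_num)]
  · simp only [Row.ev, BCfg.pt]; push_cast; linarith [c.k1.2 (-35) (-34) (by norm_num)]
  · simp only [Row.ev, BCfg.pt]; push_cast; linarith [c.b1]
  · simp only [Row.ev, BCfg.pt]; push_cast; linarith [c.b2]
  · simp only [Row.ev, BCfg.pt]; push_cast; linarith [c.b3]
  · simp only [Row.ev, BCfg.pt]; push_cast; linarith [c.hh]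
  · simp only [Row.ev, BCfg.pt]; push_cast; linarith [c.kk]
  · simp only [Row.ev, BCfg.pt]; push_cast; linarith [c.g12]
  · simp only [Row.ev, BCfg.pt]; push_cast; linarith [c.g23]
  · simp only [Row.ev, BCfg.pt]; push_cast; linarith [c.ur (866) (0) (709) (by norm_num) (by norm_num)]
  · simp only [Row.ev, BCfg.pt]; push_cast; linarith [c.ur (800) (191) (709) (by norm_num) (by norm_num)]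
  · simp only [Row.ev, BCfg.pt]; push_cast; linarith [c.ur (612) (354) (710) (by norm_num) (by norm_num)]
  · simp only [Row.ev, BCfg.pt]; push_cast; linarith [c.ur (331) (462) (709) (by norm_num) (by norm_num)]
  · simp only [Row.ev, BCfg.pt]; push_cast; linarith [c.ur (0) (500) (710) (by norm_num) (by norm_num)]
  · simp only [Row.ev, BCfg.pt]; push_cast; linarith [c.ur (-331) (462) (709) (by norm_num) (by norm_num)]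
  · simp only [Row.ev, BCfg.pt]; push_cast; linarith [c.ur (-612) (354) (710) (by norm_num) (by norm_num)]
  · simp only [Row.ev, BCfg.pt]; push_cast; linarith [c.ur (-800) (191) (709) (by norm_num) (by norm_num)]
  · simp only [Row.ev, BCfg.pt]; push_cast; linarith [c.ur (-866) (0) (709) (by norm_num) (by norm_num)]
  · simp only [Row.ev, BCfg.pt]; push_cast; linarith [c.ur (-800) (-191) (709) (by norm_num) (by norm_num)]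
  · simp only [Row.ev, BCfg.pt]; push_cast; linarith [c.ur (-612) (-354) (710) (by norm_num) (by norm_num)]
  · simp only [Row.ev, BCfg.pt]; push_cast; linarith [c.ur (-331) (-462) (709) (by norm_num) (by norm_num)]
  · simp only [Row.ev, BCfg.pt]; push_cast; linarith [c.ur (0) (-500) (710) (by norm_num) (by norm_num)]
  · simp only [Row.ev, BCfg.pt]; push_cast; linarith [c.ur (331) (-462) (709) (by norm_num) (by norm_num)]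
  · simp only [Row.ev, BCfg.pt]; push_cast; linarith [c.ur (612) (-354) (710) (by norm_num) (by norm_num)]
  · simp only [Row.ev, BCfg.pt]; push_cast; linarith [c.ur (800) (-191) (709) (by norm_num) (by norm_num)]
  · simp only [Row.ev, BCfg.pt]; push_cast; linarith [c.ub]
  · simp only [Row.ev, BCfg.pt]; push_cast; linarith [c.g2]
  · simp only [Row.ev, BCfg.pt]; push_cast; linarith [c.g3]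
  · simp only [Row.ev, BCfg.pt]; push_cast; linarith [c.g1]
  · simp only [Row.ev, BCfg.pt]; push_cast; linarith [c.hit (91 / 50) (by norm_num)]
  · simp only [Row.ev, BCfg.pt]; push_cast; linarith [c.hit (19 / 10) (by norm_num)]
  · simp only [Row.ev, BCfg.pt]; push_cast; linarith [c.hit (99 / 50) (by norm_num)]
  · simp only [Row.ev, BCfg.pt]; push_cast; linarith [c.hit (103 / 50) (by norm_num)]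
  · simp only [Row.ev, BCfg.pt]; push_cast; linarith [c.hit (107 / 50) (by norm_num)]
  · simp only [Row.ev, BCfg.pt]; push_cast; linarith [c.hit (111 / 50) (by norm_num)]
  · simp only [Row.ev, BCfg.pt]; push_cast; linarith [c.hit (23 / 10) (by norm_num)]
  · simp only [Row.ev, BCfg.pt]; push_cast; linarith [c.hit (119 / 50) (by norm_num)]
  · simp only [Row.ev, BCfg.pt]; push_cast; linarith [c.hit0]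

theorem BCfg.hyp {X1 Y1 X2 Y2 X3 Y3 a b V1 V2 V3 p q r s h k : ℝ}
    (c : BCfg X1 Y1 X2 Y2 X3 Y3 a b V1 V2 V3 p q r s h k) {E : List Row}
    (hE : ∀ R ∈ E, R.ev (BCfg.pt X1 Y1 X2 Y2 X3 Y3 a b V1 V2 V3 p q r s h k) ≤ 0) :
    Hyp (cB ++ E) (BCfg.pt X1 Y1 X2 Y2 X3 Y3 a b V1 V2 V3 p q r s h k) where
  rows := fun R hR => (List.mem_append.1 hR).elim (cB_le c R) (hE R)
  V1 := by have := c.v1.f0; simp only [BCfg.pt]; linarith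
  V2 := by have := c.v2.f0; simp only [BCfg.pt]; linarith
  V3 := by have := c.v3.f0; simp only [BCfg.pt]; linarith
  p := by have := c.p0; simp only [BCfg.pt]; linarith
  q := by have := c.q0; simp only [BCfg.pt]; linarith
  r := by have := c.r0; simp only [BCfg.pt]; linarith
  s := by have := c.s0; simp only [BCfg.pt]; linarith
  h := by have := c.h1.1; simp only [BCfg.pt]; linarith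
  k := by have := c.k1.1; simp only [BCfg.pt]; linarith

end Pool.Agent.H30.Q
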