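import Mathlib

/-!
# Kernel checker, version for virtual fans (absolute displacements)

Eight real unknowns `X1 Y1 X2 Y2 X3 Y3 a b` (scaled coordinates: `x = (√3/2) X`, `y = Y / 2`), bilinear columns
`q12 q23 q13 p13 k3`, squares `g0 … g5` (coefficients `≤ 0`), nonnegative slack variables.
-/

set_option autoImplicit false

namespace Pool.Agent.H30.Q

/-- an inequality `row ≤ 0` -/
structure Row where
  q12 : Int
  q23 : Int
  q13 : Int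
  p13 : Int
  k3 : Int
  g0 : Int
  g1 : Int
  g2 : Int
  g3 : Int
  g4 : Int
  g5 : Int
  x1 : Int
  y1 : Int
  x2 : Int
  y2 : Int
  x3 : Int
  y3 : Int
  a : Int
  b : Int
  v1 : Int
  v2 : Int
  v3 : Int
  p : Int
  q : Int
  r : Int
  s : Int
  h : Int
  k : Int
  c : Int

/-- `acc + n * r` -/
def Row.fma (n : Int) (r acc : Row) : Row :=
  ⟨acc.q12 + n * r.q12, acc.q23 + n * r.q23, acc.q13 + n * r.q13, acc.p13 + n * r.p13, acc.k3 + n * r.k3,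
   acc.g0 + n * r.g0, acc.g1 + n * r.g1, acc.g2 + n * r.g2, acc.g3 + n * r.g3, acc.g4 + n * r.g4, acc.g5 + n * r.g5,
   acc.x1 + n * r.x1, acc.y1 + n * r.y1, acc.x2 + n * r.x2, acc.y2 + n * r.y2, acc.x3 + n * r.x3, acc.y3 + n * r.y3,
   acc.a + n * r.a, acc.b + n * r.b, acc.v1 + n * r.v1, acc.v2 + n * r.v2, acc.v3 + n * r.v3, acc.p + n * r.p,
   acc.q + n * r.q, acc.r + n * r.r, acc.s + n * r.s, acc.h + n * r.h, acc.k + n * r.k, acc.c + n * r.c⟩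

def Row.zero : Row := ⟨0, 0, 0, 0, 0, 0, 0, 0, 0, 0, 0, 0, 0, 0, 0, 0, 0, 0, 0, 0, 0, 0, 0, 0, 0, 0, 0, 0, 0⟩

/-- combination of rows: `l` lists (index of the row, multiplier) -/
def comb (rows : List Row) : List (Nat × Nat) → Row
  | [] => Row.zero
  | (i, n) :: l => (rows.getD i Row.zero).fma (Int.ofNat n) (comb rows l)

/-- a box, coordinates scaled by `D` -/
structure Box where
  l0 : Int
  h0 : Int
  l1 : Int
  h1 : Int
  l2 : Int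
  h2 : Int
  l3 : Int
  h3 : Int
  l4 : Int
  h4 : Int
  l5 : Int
  h5 : Int
  l6 : Int
  h6 : Int
  l7 : Int
  h7 : Int

/-- minimum of `a * x` for `lo ≤ x ≤ hi` -/
def imin (a lo hi : Int) : Int :=
  match a with
  | .ofNat n => Int.ofNat n * lo
  | .negSucc n => Int.negSucc n * hi

/-- lower bound of the form at the corner `(x2, y2, x3, y3)` -/
def corner (D : Int) (b : Box) (R : Row) (x2 y2 x3 y3 : Int) : Int :=
  D * D * R.c + D * (R.x2 * x2 + R.y2 * y2 + R.x3 * x3 + R.y3 * y3) + R.q23 * (x2 * y3 - y2 * x3)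
    - R.g0 * (3 * (b.l0 - b.h6) * (b.h0 - b.l6) + (b.l1 - b.h7) * (b.h1 - b.l7))
    + R.g1 * (3 * ((b.l2 - b.h6 + (b.h2 - b.l6)) * x2 - (b.l2 - b.h6) * (b.h2 - b.l6))
        + ((b.l3 - b.h7 + (b.h3 - b.l7)) * y2 - (b.l3 - b.h7) * (b.h3 - b.l7)))
    + R.g2 * (3 * ((b.l4 - b.h6 + (b.h4 - b.l6)) * x3 - (b.l4 - b.h6) * (b.h4 - b.l6))
        + ((b.l5 - b.h7 + (b.h5 - b.l7)) * y3 - (b.l5 - b.h7) * (b.h5 - b.l7)))
    + R.g3 * (3 * ((b.l2 - b.h0 + (b.h2 - b.l0)) * x2 - (b.l2 - b.h0) * (b.h2 - b.l0))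
        + ((b.l3 - b.h1 + (b.h3 - b.l1)) * y2 - (b.l3 - b.h1) * (b.h3 - b.l1)))
    + R.g4 * (3 * ((b.l4 - b.h2 + (b.h4 - b.l2)) * (x3 - x2) - (b.l4 - b.h2) * (b.h4 - b.l2))
        + ((b.l5 - b.h3 + (b.h5 - b.l3)) * (y3 - y2) - (b.l5 - b.h3) * (b.h5 - b.l3)))
    + R.g5 * (3 * ((b.l4 + b.h4) * x3 - b.l4 * b.h4) + ((b.l5 + b.h5) * y3 - b.l5 * b.h5))
    + imin (D * R.x1 + R.q12 * y2 + R.q13 * y3 + 3 * R.p13 * x3 + 3 * R.g0 * (b.l0 - b.h6 + (b.h0 - b.l6))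
        - 3 * R.g3 * (b.l2 - b.h0 + (b.h2 - b.l0))) b.l0 b.h0
    + imin (D * R.y1 - R.q12 * x2 - R.q13 * x3 + R.p13 * y3 + R.g0 * (b.l1 - b.h7 + (b.h1 - b.l7))
        - R.g3 * (b.l3 - b.h1 + (b.h3 - b.l1))) b.l1 b.h1
    + imin (D * R.a - R.k3 * y3 - 3 * R.g0 * (b.l0 - b.h6 + (b.h0 - b.l6)) - 3 * R.g1 * (b.l2 - b.h6 + (b.h2 - b.l6))
        - 3 * R.g2 * (b.l4 - b.h6 + (b.h4 - b.l6))) b.l6 b.h6
    + imin (D * R.b + R.k3 * x3 - R.g0 * (b.l1 - b.h7 + (b.h1 - b.l7)) - R.g1 * (b.l3 - b.h7 + (b.h3 - b.l7))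
        - R.g2 * (b.l5 - b.h7 + (b.h5 - b.l7))) b.l7 b.h7

/-- positivity at the four corners of the box of `(X2, Y2)` -/
def ok2 (D : Int) (b : Box) (R : Row) (x3 y3 : Int) : Bool :=
  decide (0 < corner D b R b.l2 b.l3 x3 y3) && decide (0 < corner D b R b.l2 b.h3 x3 y3) &&
  decide (0 < corner D b R b.h2 b.l3 x3 y3) && decide (0 < corner D b R b.h2 b.h3 x3 y3)

/-- sign conditions of the aggregated row -/
def okRow (R : Row) : Bool :=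
  decide (R.g0 ≤ 0) && decide (R.g1 ≤ 0) && decide (R.g2 ≤ 0) && decide (R.g3 ≤ 0) && decide (R.g4 ≤ 0) &&
  decide (R.g5 ≤ 0) && decide (0 ≤ R.v1) && decide (0 ≤ R.v2) && decide (0 ≤ R.v3) && decide (0 ≤ R.p) &&
  decide (0 ≤ R.q) && decide (0 ≤ R.r) && decide (0 ≤ R.s) && decide (0 ≤ R.h) && decide (0 ≤ R.k)

def okR (D : Int) (b : Box) (R : Row) : Bool :=
  okRow R && ok2 D b R b.l4 b.l5 && ok2 D b R b.l4 b.h5 && ok2 D b R b.h4 b.l5 && ok2 D b R b.h4 b.h5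

/-- bisection tree -/
inductive Tree where
  | L (l : List (Nat × Nat)) : Tree
  | N (a : Nat) (l r : Tree) : Tree

def Box.left (b : Box) : Nat → Box
  | 0 => { b with h0 := (b.l0 + b.h0) / 2 }
  | 1 => { b with h1 := (b.l1 + b.h1) / 2 }
  | 2 => { b with h2 := (b.l2 + b.h2) / 2 }
  | 3 => { b with h3 := (b.l3 + b.h3) / 2 }
  | 4 => { b with h4 := (b.l4 + b.h4) / 2 }
  | 5 => { b with h5 := (b.l5 + b.h5) / 2 }
  | 6 => { b with h6 := (b.l6 + b.h6) / 2 }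
  | _ => { b with h7 := (b.l7 + b.h7) / 2 }

def Box.right (b : Box) : Nat → Box
  | 0 => { b with l0 := (b.l0 + b.h0) / 2 }
  | 1 => { b with l1 := (b.l1 + b.h1) / 2 }
  | 2 => { b with l2 := (b.l2 + b.h2) / 2 }
  | 3 => { b with l3 := (b.l3 + b.h3) / 2 }
  | 4 => { b with l4 := (b.l4 + b.h4) / 2 }
  | 5 => { b with l5 := (b.l5 + b.h5) / 2 }
  | 6 => { b with l6 := (b.l6 + b.h6) / 2 }
  | _ => { b with l7 := (b.l7 + b.h7) / 2 }

def Tree.check (D : Int) (rows : List Row) : Tree → Box → Bool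
  | .L l, b => okR D b (comb rows l)
  | .N a l r, b => l.check D rows (b.left a) && r.check D rows (b.right a)

end Pool.Agent.H30.Q
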