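import Pool.Agent.H30.P6.BRes
import Pool.Agent.H30.P6.DPt

/-!
# Class B: virtual fans with a far hit, complex form

`x_m = d_m + v_m` (frames relative to the apex site), `u` the hitting point, `pB = i/20` the shifted virtual apex.
-/

set_option autoImplicit false

open Pool.Agent.H20.AL Pool.Agent.H63.P6

noncomputable section

namespace Pool.Agent.H30.Q

open Pool.Agent.H30.P6 (V30 V30_self V30_nonneg s3 s3p nrm str_of one_le_sq Str VLe)

/-- shifted virtual apex -/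
def pB : ℂ := ⟨0, 1 / 20⟩

/-- hypotheses of class B (left hit: far from `x1`, near the leg `x3`) -/
structure FarH (v1 v2 v3 u : ℂ) : Prop where
  V1 : V30 v1 ≤ 1 / 3
  V2 : V30 v2 ≤ 1 / 3
  V3 : V30 v3 ≤ 1 / 3
  Ph : Phi V30 (4 / 25) v1 v2 v3 ≤ 1 / 3
  e12 : 1 ≤ ‖(d2 + v2) - (d1 + v1)‖
  e12' : ‖(d2 + v2) - (d1 + v1)‖ ≤ 147 / 100
  e23 : 1 ≤ ‖(d3 + v3) - (d2 + v2)‖
  e23' : ‖(d3 + v3) - (d2 + v2)‖ ≤ 147 / 100
  n2 : 1 ≤ ‖d2 + v2 - u‖
  n3 : 1 ≤ ‖d3 + v3 - u‖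
  far : 3 ≤ ‖d1 + v1 - u‖ ^ 2
  un : ‖u‖ ≤ 709 / 1000
  ui : u.im ≤ -(1 / 5)
  h0 : 0 ≤ cr (d3 + v3) u
  h1 : cr (d3 + v3) u ≤ ‖d3 + v3‖ / √3

/-- the three options of `Phi` -/
theorem phi_opts {v1 v2 v3 : ℂ} {t : ℝ} (h : Phi V30 (4 / 25) v1 v2 v3 ≤ t) :
    V30 v1 + 4 / 25 * max (-(dt v2 d3)) 0 + 4 / 25 * max (-(dt v3 d3)) 0
        + 4 / 25 * (‖(d3 + v3) - (d2 + v2)‖ - 1) ≤ t ∧
    V30 v2 + 4 / 25 * max (-(dt v1 d1)) 0 + 4 / 25 * max (-(dt v2 d1)) 0 + 4 / 25 * max (-(dt v2 d3)) 0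
        + 4 / 25 * max (-(dt v3 d3)) 0 + 4 / 25 * (‖(d2 + v2) - (d1 + v1)‖ - 1)
        + 4 / 25 * (‖(d3 + v3) - (d2 + v2)‖ - 1) ≤ t ∧
    V30 v3 + 4 / 25 * max (-(dt v1 d1)) 0 + 4 / 25 * max (-(dt v2 d1)) 0
        + 4 / 25 * (‖(d2 + v2) - (d1 + v1)‖ - 1) ≤ t := by
  rw [Phi] at h
  have h1 := (max_le_iff.1 h).1
  have h2 := (max_le_iff.1 (max_le_iff.1 h).2).1
  have h3 := (max_le_iff.1 (max_le_iff.1 h).2).2
  simp only [sig] at h1 h2 h3
  exact ⟨by linarith, by linarith, by linarith⟩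

theorem FarH.cfg {v1 v2 v3 u : ℂ} (H : FarH v1 v2 v3 u) :
    BCfg (2 * v1.re / √3) (2 * v1.im) (2 * v2.re / √3) (2 * v2.im) (2 * v3.re / √3) (2 * v3.im) (2 * u.re / √3) (2 * u.im)
      (V30 v1) (V30 v2) (V30 v3)
      (4 / 25 * max (-(dt v1 d1)) 0) (4 / 25 * max (-(dt v2 d1)) 0) (4 / 25 * max (-(dt v2 d3)) 0)
      (4 / 25 * max (-(dt v3 d3)) 0) (4 / 25 * (‖(d2 + v2) - (d1 + v1)‖ - 1))
      (4 / 25 * (‖(d3 + v3) - (d2 + v2)‖ - 1)) := by
  have hs := s3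
  have hp := s3p
  have hne := hp.ne'
  obtain ⟨o1, o2, o3⟩ := phi_opts H.Ph
  have r1 : 2 * (d1 + v1 - u).re / √3 = 1 + 2 * v1.re / √3 - 2 * u.re / √3 := by
    simp only [d1, Complex.sub_re, Complex.add_re]; field_simp
  have i1 : 2 * (d1 + v1 - u).im = 1 + 2 * v1.im - 2 * u.im := by simp only [d1, Complex.sub_im, Complex.add_im]; ring
  have r2 : 2 * (d2 + v2 - u).re / √3 = 2 * v2.re / √3 - 2 * u.re / √3 := by
    simp only [d2, Complex.sub_re, Complex.add_re]; ring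
  have i2 : 2 * (d2 + v2 - u).im = 2 + 2 * v2.im - 2 * u.im := by simp only [d2, Complex.sub_im, Complex.add_im]; ring
  have r3 : 2 * (d3 + v3 - u).re / √3 = -1 + 2 * v3.re / √3 - 2 * u.re / √3 := by
    simp only [d3, Complex.sub_re, Complex.add_re]; field_simp
  have i3 : 2 * (d3 + v3 - u).im = 1 + 2 * v3.im - 2 * u.im := by simp only [d3, Complex.sub_im, Complex.add_im]; ring
  have r30 : 2 * (d3 + v3).re / √3 = -1 + 2 * v3.re / √3 := by
    simp only [d3, Complex.add_re]; field_simp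
  have i30 : 2 * (d3 + v3).im = 1 + 2 * v3.im := by simp only [d3, Complex.add_im]; ring
  have r12 : 2 * ((d2 + v2) - (d1 + v1)).re / √3 = -1 + 2 * v2.re / √3 - 2 * v1.re / √3 := by
    simp only [d1, d2, Complex.sub_re, Complex.add_re]; field_simp; ring
  have i12 : 2 * ((d2 + v2) - (d1 + v1)).im = 1 + 2 * v2.im - 2 * v1.im := by
    simp only [d1, d2, Complex.sub_im, Complex.add_im]; ring
  have r23 : 2 * ((d3 + v3) - (d2 + v2)).re / √3 = -1 + 2 * v3.re / √3 - 2 * v2.re / √3 := by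
    simp only [d3, d2, Complex.sub_re, Complex.add_re]; field_simp; ring
  have i23 : 2 * ((d3 + v3) - (d2 + v2)).im = -1 + 2 * v3.im - 2 * v2.im := by
    simp only [d3, d2, Complex.sub_im, Complex.add_im]; ring
  have h33 : (3 : ℝ) / √3 = √3 := by rw [div_eq_iff hne]; exact hs.symm
  have dt1 : ∀ v : ℂ, -(dt v d1) = -(3 * (2 * v.re / √3) + 2 * v.im) / 4 := fun v => by
    simp only [dt, d1]
    have : 3 * (2 * v.re / √3) = 2 * √3 * v.re := by
      rw [show 3 * (2 * v.re / √3) = 2 * v.re * (3 / √3) by ring, h33]; ring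
    rw [this]; ring
  have dt3 : ∀ v : ℂ, -(dt v d3) = -(-3 * (2 * v.re / √3) + 2 * v.im) / 4 := fun v => by
    simp only [dt, d3]
    have : 3 * (2 * v.re / √3) = 2 * √3 * v.re := by
      rw [show 3 * (2 * v.re / √3) = 2 * v.re * (3 / √3) by ring, h33]; ring
    rw [show -3 * (2 * v.re / √3) = -(3 * (2 * v.re / √3)) by ring, this]; ring
  have K : cr (d3 + v3) u = √3 / 4 * ((-1 + 2 * v3.re / √3) * (2 * u.im) - (1 + 2 * v3.im) * (2 * u.re / √3)) := by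
    rw [← r30, ← i30]; simp only [cr]; field_simp; ring
  have N := nrm (d3 + v3)
  rw [r30, i30] at N
  refine ⟨V30_self v1, V30_self v2, V30_self v3, H.V1, H.V2, H.V3, by positivity, by positivity, by positivity,
    by positivity, ?_, ?_, ?_, ?_, ?_, ?_, by linarith [H.e12'], by linarith [H.e23'], by linarith, by linarith,
    by linarith, ?_, ?_, ?_, ?_, ?_, ?_, ?_, ?_, ?_⟩
  · linarith [le_max_left (-(dt v1 d1)) 0, dt1 v1]
  · linarith [le_max_left (-(dt v2 d1)) 0, dt1 v2]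
  · linarith [le_max_left (-(dt v2 d3)) 0, dt3 v2]
  · linarith [le_max_left (-(dt v3 d3)) 0, dt3 v3]
  · rw [← r12, ← i12]; exact str_of _ H.e12
  · rw [← r23, ← i23]; exact str_of _ H.e23
  · have h1 := nrm (d1 + v1 - u); rw [r1, i1] at h1; linarith [H.far]
  · have h1 := nrm (d2 + v2 - u); rw [r2, i2] at h1; linarith [one_le_sq H.n2]
  · have h1 := nrm (d3 + v3 - u); rw [r3, i3] at h1; linarith [one_le_sq H.n3]
  · have h1 := nrm ((d2 + v2) - (d1 + v1)); rw [r12, i12] at h1; linarith [one_le_sq H.e12]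
  · have h1 := nrm ((d3 + v3) - (d2 + v2)); rw [r23, i23] at h1; linarith [one_le_sq H.e23]
  · have h1 := nrm u
    have h2 : ‖u‖ ^ 2 ≤ (709 / 1000) ^ 2 := pow_le_pow_left₀ (norm_nonneg _) H.un 2
    linarith
  · linarith [H.ui]
  · have h1 := H.h0
    rw [K] at h1
    exact nonneg_of_mul_nonneg_right h1 (by positivity)
  · intro m hm
    have h1 := H.h1
    rw [K, le_div_iff₀ hp] at h1
    set k := (-1 + 2 * v3.re / √3) * (2 * u.im) - (1 + 2 * v3.im) * (2 * u.re / √3)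
    have h2 : 3 * k ≤ 4 * ‖d3 + v3‖ := by
      have : √3 / 4 * k * √3 = 3 / 4 * k := by linear_combination k / 4 * hs
      linarith
    have h3 := mul_le_mul_of_nonneg_left h2 hm.le
    nlinarith [sq_nonneg (2 * ‖d3 + v3‖ - m)]

/-- scaled form of the distance hypothesis -/
theorem dist_scaled {v3 u : ℂ} {t : ℝ} (ht : 0 ≤ t) (h : cr (d3 + v3 - pB) (u - pB) ≤ t * ‖d3 + v3 - pB‖) (m : ℝ)
    (hm : 0 < m) : 433 / 250 * m * ((-1 + 2 * v3.re / √3) * (2 * u.im - 1 / 10) - (1 + 2 * v3.im - 1 / 10) * (2 * u.re / √3))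
      ≤ t * (3 * (-1 + 2 * v3.re / √3) ^ 2 + (1 + 2 * v3.im - 1 / 10) ^ 2 + m ^ 2) := by
  have hs := s3
  have hp := s3p
  have hne := hp.ne'
  have r30 : 2 * (d3 + v3 - pB).re / √3 = -1 + 2 * v3.re / √3 := by
    simp only [d3, pB, Complex.add_re, Complex.sub_re]; field_simp; ring
  have i30 : 2 * (d3 + v3 - pB).im = 1 + 2 * v3.im - 1 / 10 := by
    simp only [d3, pB, Complex.add_im, Complex.sub_im]; ring
  have ru : 2 * (u - pB).re / √3 = 2 * u.re / √3 := by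
    simp only [pB, Complex.sub_re]; ring
  have iu : 2 * (u - pB).im = 2 * u.im - 1 / 10 := by
    simp only [pB, Complex.sub_im]; ring
  have K : cr (d3 + v3 - pB) (u - pB)
      = √3 / 4 * ((-1 + 2 * v3.re / √3) * (2 * u.im - 1 / 10) - (1 + 2 * v3.im - 1 / 10) * (2 * u.re / √3)) := by
    rw [← r30, ← i30, ← ru, ← iu]; simp only [cr]; field_simp; ring
  have N := nrm (d3 + v3 - pB)
  rw [r30, i30] at N
  rw [K] at h
  set k := (-1 + 2 * v3.re / √3) * (2 * u.im - 1 / 10) - (1 + 2 * v3.im - 1 / 10) * (2 * u.re / √3)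
  have h173 : 433 / 250 ≤ √3 := by nlinarith
  have hR : t * (4 * ‖d3 + v3 - pB‖ ^ 2 + m ^ 2) = t * (3 * (-1 + 2 * v3.re / √3) ^ 2 + (1 + 2 * v3.im - 1 / 10) ^ 2 + m ^ 2) := by
    rw [N]; ring
  rw [← hR]
  rcases le_total 0 k with hk | hk
  · have h1 : 433 / 250 * m * k ≤ √3 * m * k := by
      have := mul_le_mul_of_nonneg_right h173 (mul_nonneg hm.le hk)
      nlinarith
    have h2 : √3 * m * k ≤ 4 * t * m * ‖d3 + v3 - pB‖ := by nlinarith
    have h3 : 0 ≤ t * (2 * ‖d3 + v3 - pB‖ - m) ^ 2 := mul_nonneg ht (sq_nonneg _)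
    nlinarith
  · have h1 : 433 / 250 * m * k ≤ 0 := by nlinarith
    have h2 : 0 ≤ t * (4 * ‖d3 + v3 - pB‖ ^ 2 + m ^ 2) := by positivity
    linarith

/-- the fan at the shifted apex in scaled coordinates -/
theorem fan_scaled (v1 v2 v3 : ℂ) : fanw (d1 + v1 - pB) (d2 + v2 - pB) (d3 + v3 - pB)
    = (((1 + 2 * v1.re / √3) * (2 + 2 * v2.im) - (1 + 2 * v1.im) * (2 * v2.re / √3)
      + (2 * v2.re / √3 * (1 + 2 * v3.im) - (2 + 2 * v2.im) * (-1 + 2 * v3.re / √3))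
      - (2 + 2 * v1.re / √3 - 2 * v3.re / √3) / 10) / 4 - 1) := by
  have hne := s3p.ne'
  have c1 : ∀ w z : ℂ, cr w z / √3 = (2 * w.re / √3 * (2 * z.im) - 2 * w.im * (2 * z.re / √3)) / 4 := fun w z => by
    simp only [cr]; field_simp; ring
  have r1 : 2 * (d1 + v1 - pB).re / √3 = 1 + 2 * v1.re / √3 := by
    simp only [d1, pB, Complex.sub_re, Complex.add_re]; field_simp; ring
  have i1 : 2 * (d1 + v1 - pB).im = 1 + 2 * v1.im - 1 / 10 := by
    simp only [d1, pB, Complex.sub_im, Complex.add_im]; ring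
  have r2 : 2 * (d2 + v2 - pB).re / √3 = 2 * v2.re / √3 := by
    simp only [d2, pB, Complex.sub_re, Complex.add_re]; ring
  have i2 : 2 * (d2 + v2 - pB).im = 2 + 2 * v2.im - 1 / 10 := by
    simp only [d2, pB, Complex.sub_im, Complex.add_im]; ring
  have r3 : 2 * (d3 + v3 - pB).re / √3 = -1 + 2 * v3.re / √3 := by
    simp only [d3, pB, Complex.sub_re, Complex.add_re]; field_simp; ring
  have i3 : 2 * (d3 + v3 - pB).im = 1 + 2 * v3.im - 1 / 10 := by
    simp only [d3, pB, Complex.sub_im, Complex.add_im]; ring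
  rw [fanw, add_div, c1, c1, r1, i1, r2, i2, r3, i3]; ring

variable {v1 v2 v3 u : ℂ}

/-- (B0) the hitting point is at distance at least `1/2` from the line through `pB` and `x3` -/
theorem FarH.B0 (H : FarH v1 v2 v3 u) : 1 / 2 * ‖d3 + v3 - pB‖ ≤ cr (d3 + v3 - pB) (u - pB) := by
  by_contra hcon
  push Not at hcon
  exact B0s H.cfg (fun m hm => dist_scaled (by norm_num) hcon.le m hm)

/-- (B1) -/
theorem FarH.B1 (H : FarH v1 v2 v3 u) :
    9 / 200 ≤ fanw (d1 + v1 - pB) (d2 + v2 - pB) (d3 + v3 - pB) + Phi V30 (4 / 25) v1 v2 v3 := by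
  by_contra hcon
  push Not at hcon
  obtain ⟨o1, o2, o3⟩ := phi_opts (v1 := v1) (v2 := v2) (v3 := v3)
    (t := 9 / 200 - fanw (d1 + v1 - pB) (d2 + v2 - pB) (d3 + v3 - pB)) (by linarith)
  rw [fan_scaled] at o1 o2 o3
  exact B1s H.cfg (by linarith) (by linarith) (by linarith)

/-- (B2) -/
theorem FarH.B2 (H : FarH v1 v2 v3 u) (h : cr (d3 + v3 - pB) (u - pB) ≤ 27 / 50 * ‖d3 + v3 - pB‖) :
    2 / 25 ≤ fanw (d1 + v1 - pB) (d2 + v2 - pB) (d3 + v3 - pB) + Phi V30 (4 / 25) v1 v2 v3 := by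
  by_contra hcon
  push Not at hcon
  obtain ⟨o1, o2, o3⟩ := phi_opts (v1 := v1) (v2 := v2) (v3 := v3)
    (t := 2 / 25 - fanw (d1 + v1 - pB) (d2 + v2 - pB) (d3 + v3 - pB)) (by linarith)
  rw [fan_scaled] at o1 o2 o3
  exact B2s H.cfg (fun m hm => dist_scaled (by norm_num) h m hm) (by linarith) (by linarith) (by linarith)

/-- (B2') -/
theorem FarH.B2p (H : FarH v1 v2 v3 u) (h : cr (d3 + v3 - pB) (u - pB) ≤ 13 / 25 * ‖d3 + v3 - pB‖) :
    3 / 25 ≤ fanw (d1 + v1 - pB) (d2 + v2 - pB) (d3 + v3 - pB) + Phi V30 (4 / 25) v1 v2 v3 := by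
  by_contra hcon
  push Not at hcon
  obtain ⟨o1, o2, o3⟩ := phi_opts (v1 := v1) (v2 := v2) (v3 := v3)
    (t := 3 / 25 - fanw (d1 + v1 - pB) (d2 + v2 - pB) (d3 + v3 - pB)) (by linarith)
  rw [fan_scaled] at o1 o2 o3
  exact B2ps H.cfg (fun m hm => dist_scaled (by norm_num) h m hm) (by linarith) (by linarith) (by linarith)

theorem c13_scaled (v1 v3 : ℂ) : cr (d1 + v1 - pB) (d3 + v3 - pB)
    = √3 / 4 * ((1 + 2 * v1.re / √3) * (1 + 2 * v3.im - 1 / 10) - (1 + 2 * v1.im - 1 / 10) * (-1 + 2 * v3.re / √3)) := by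
  have hne := s3p.ne'
  simp only [cr, d1, d3, pB, Complex.sub_re, Complex.add_re, Complex.sub_im, Complex.add_im]; field_simp; ring

theorem dt13_scaled (v1 v3 : ℂ) : dt (d1 + v1 - pB) (d3 + v3 - pB)
    = (3 * (1 + 2 * v1.re / √3) * (-1 + 2 * v3.re / √3) + (1 + 2 * v1.im - 1 / 10) * (1 + 2 * v3.im - 1 / 10)) / 4 := by
  have hne := s3p.ne'
  have hs : √3 ^ 2 = 3 := by rw [sq]; exact s3
  simp only [dt, d1, d3, pB, Complex.sub_re, Complex.add_re, Complex.sub_im, Complex.add_im]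
  field_simp
  rw [hs]
  ring

/-- the cross product is positive -/
theorem FarH.c13 (H : FarH v1 v2 v3 u) : 0 < cr (d1 + v1 - pB) (d3 + v3 - pB) := by
  have c := H.cfg
  rw [c13_scaled]
  have hp := s3p
  have f1 := c.v1.f7
  have f2 := c.v1.f1
  have f3 := c.v3.f6
  have f4 := c.v3.f1
  have b1 := c.b1
  have b3 := c.b3
  have h1 : 0 < 1 + 2 * v1.re / √3 := by linarith
  have h2 : 0 < 1 + 2 * v3.im - 1 / 10 := by linarith
  have h3 : 0 < 1 + 2 * v1.im - 1 / 10 := by linarith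
  have h4 : 0 < 1 - 2 * v3.re / √3 := by linarith
  have := mul_pos h1 h2
  have := mul_pos h3 h4
  refine mul_pos (by positivity) ?_
  linarith

/-- (B3) the angle `x1 pB x3` is at least 117 degrees -/
theorem FarH.B3 (H : FarH v1 v2 v3 u) :
    √3 * dt (d1 + v1 - pB) (d3 + v3 - pB) ≤ -(883 / 1000) * cr (d1 + v1 - pB) (d3 + v3 - pB) := by
  by_contra hcon
  push Not at hcon
  rw [c13_scaled, dt13_scaled] at hcon
  have hp := s3p
  refine B3s H.cfg ?_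
  set A := 3 * (1 + 2 * v1.re / √3) * (-1 + 2 * v3.re / √3) + (1 + 2 * v1.im - 1 / 10) * (1 + 2 * v3.im - 1 / 10)
  set B := (1 + 2 * v1.re / √3) * (1 + 2 * v3.im - 1 / 10) - (1 + 2 * v1.im - 1 / 10) * (-1 + 2 * v3.re / √3)
  have h1 : 0 < √3 / 4 * (A + 883 / 1000 * B) := by linarith
  have h2 := (mul_pos_iff_of_pos_left (show 0 < √3 / 4 by positivity)).1 h1
  exact h2.le

/-- (B3), cosine form -/
theorem FarH.B3' (H : FarH v1 v2 v3 u) :
    dt (d1 + v1 - pB) (d3 + v3 - pB) ≤ -(454 / 1000) * (‖d1 + v1 - pB‖ * ‖d3 + v3 - pB‖) := by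
  have h1 := H.B3
  have h2 := H.c13
  have hs := s3
  have hp := s3p
  set x := d1 + v1 - pB
  set y := d3 + v3 - pB
  have e : (‖x‖ * ‖y‖) ^ 2 = dt x y ^ 2 + cr x y ^ 2 := by
    rw [mul_pow, Complex.sq_norm, Complex.sq_norm, Complex.normSq_apply, Complex.normSq_apply]
    simp only [dt, cr]; ring
  set D := dt x y
  set C := cr x y
  have hD : D < 0 := by
    by_contra hc
    push Not at hc
    have := mul_nonneg hp.le hc
    linarith
  have h3 : (883 / 1000) ^ 2 * C ^ 2 ≤ 3 * D ^ 2 := by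
    have h4 : 883 / 1000 * C ≤ √3 * (-D) := by linarith
    have h5 := mul_self_le_mul_self (by positivity) h4
    have h6 : √3 * (-D) * (√3 * (-D)) = 3 * D ^ 2 := by linear_combination D ^ 2 * hs
    nlinarith
  have h7 : (454 / 1000 * (‖x‖ * ‖y‖)) ^ 2 ≤ (-D) ^ 2 := by
    rw [mul_pow, e]; nlinarith
  have := abs_le_of_sq_le_sq h7 (by linarith)
  linarith [le_abs_self (454 / 1000 * (‖x‖ * ‖y‖))]

end Pool.Agent.H30.Q
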