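import Pool.Agent.H30.P6.BFar

/-!
# Class B, mirrored: the hitting point is far from `x3` and near the leg `x1`
-/

set_option autoImplicit false

open Pool.Agent.H20.AL Pool.Agent.H63.P6

noncomputable section

namespace Pool.Agent.H30.Q

open Pool.Agent.H30.P6 (V30 V30_self V30_nonneg V30_le_iff s3 s3p nrm str_of one_le_sq Str VLe)

/-- reflection at the axis of the wedge -/
def mu (z : ℂ) : ℂ := ⟨-z.re, z.im⟩

@[simp] theorem mu_re (z : ℂ) : (mu z).re = -z.re := rfl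
@[simp] theorem mu_im (z : ℂ) : (mu z).im = z.im := rfl

theorem mu_mu (z : ℂ) : mu (mu z) = z := by apply Complex.ext <;> simp

theorem mu_add (z w : ℂ) : mu (z + w) = mu z + mu w := by
  apply Complex.ext <;> simp [add_comm]

theorem mu_sub (z w : ℂ) : mu (z - w) = mu z - mu w := by
  apply Complex.ext <;> simp; ring

theorem mu_norm (z : ℂ) : ‖mu z‖ = ‖z‖ := by
  have h : ‖mu z‖ ^ 2 = ‖z‖ ^ 2 := by
    rw [Complex.sq_norm, Complex.sq_norm, Complex.normSq_apply, Complex.normSq_apply, mu_re, mu_im]; ring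
  exact (sq_eq_sq₀ (norm_nonneg _) (norm_nonneg _)).1 h

theorem mu_d1 : mu d1 = d3 := by apply Complex.ext <;> simp [d1, d3]
theorem mu_d2 : mu d2 = d2 := by apply Complex.ext <;> simp [d2]
theorem mu_d3 : mu d3 = d1 := by apply Complex.ext <;> simp [d1, d3]
theorem mu_pB : mu pB = pB := by apply Complex.ext <;> simp [pB]

theorem mu_cr (z w : ℂ) : cr (mu z) (mu w) = cr w z := by simp only [cr, mu_re, mu_im]; ring
theorem mu_dt (z w : ℂ) : dt (mu z) (mu w) = dt z w := by simp only [dt, mu_re, mu_im]; ring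
theorem dt_comm' (z w : ℂ) : dt z w = dt w z := by simp only [dt]; ring

theorem V30_mu (z : ℂ) : V30 (mu z) = V30 z := by
  have key : ∀ z : ℂ, V30 (mu z) ≤ V30 z := by
    intro z
    rw [V30_le_iff]
    have := (V30_self z).mirror
    rw [show 2 * (mu z).re / √3 = -(2 * z.re / √3) by rw [mu_re]; ring, mu_im]
    exact this
  apply le_antisymm (key z)
  have := key (mu z)
  rwa [mu_mu] at this

theorem Phi_mu (κ : ℝ) (v1 v2 v3 : ℂ) : Phi V30 κ (mu v3) (mu v2) (mu v1) = Phi V30 κ v1 v2 v3 := by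
  have n1 : ‖(d3 + mu v1) - (d2 + mu v2)‖ = ‖(d2 + v2) - (d1 + v1)‖ := by
    rw [← mu_norm ((d2 + v2) - (d1 + v1)), mu_sub, mu_add, mu_add, mu_d1, mu_d2, ← norm_neg]; congr 1; ring
  have n2 : ‖(d2 + mu v2) - (d1 + mu v3)‖ = ‖(d3 + v3) - (d2 + v2)‖ := by
    rw [← mu_norm ((d3 + v3) - (d2 + v2)), mu_sub, mu_add, mu_add, mu_d3, mu_d2, ← norm_neg]; congr 1; ring
  have t1 : ∀ z : ℂ, dt (mu z) d3 = dt z d1 := fun z => by rw [← mu_d1, mu_dt]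
  have t2 : ∀ z : ℂ, dt (mu z) d1 = dt z d3 := fun z => by rw [← mu_d3, mu_dt]
  simp only [Phi, sig, V30_mu, n1, n2, t1, t2]
  apply le_antisymm
  · refine max_le ?_ (max_le ?_ ?_)
    · exact le_trans (by linarith) (le_max_of_le_right (le_max_left _ _))
    · exact le_trans (by linarith) (le_max_left _ _)
    · exact le_trans (by linarith) (le_max_of_le_right (le_max_right _ _))
  · refine max_le ?_ (max_le ?_ ?_)
    · exact le_trans (by linarith) (le_max_of_le_right (le_max_left _ _))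
    · exact le_trans (by linarith) (le_max_left _ _)
    · exact le_trans (by linarith) (le_max_of_le_right (le_max_right _ _))

theorem fanw_mu (w1 w2 w3 : ℂ) : fanw (mu w3) (mu w2) (mu w1) = fanw w1 w2 w3 := by
  simp only [fanw, mu_cr]; ring

/-- hypotheses of class B, right hit (far from `x3`, near the leg `x1`) -/
structure FarR (v1 v2 v3 u : ℂ) : Prop where
  V1 : V30 v1 ≤ 1 / 3
  V2 : V30 v2 ≤ 1 / 3
  V3 : V30 v3 ≤ 1 / 3
  Ph : Phi V30 (4 / 25) v1 v2 v3 ≤ 1 / 3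
  e12 : 1 ≤ ‖(d2 + v2) - (d1 + v1)‖
  e12' : ‖(d2 + v2) - (d1 + v1)‖ ≤ 147 / 100
  e23 : 1 ≤ ‖(d3 + v3) - (d2 + v2)‖
  e23' : ‖(d3 + v3) - (d2 + v2)‖ ≤ 147 / 100
  n2 : 1 ≤ ‖d2 + v2 - u‖
  n1 : 1 ≤ ‖d1 + v1 - u‖
  far : 3 ≤ ‖d3 + v3 - u‖ ^ 2
  un : ‖u‖ ≤ 709 / 1000
  ui : u.im ≤ -(1 / 5)
  h0 : 0 ≤ cr u (d1 + v1)
  h1 : cr u (d1 + v1) ≤ ‖d1 + v1‖ / √3

theorem m1 (v : ℂ) : d1 + mu v = mu (d3 + v) := by rw [mu_add, mu_d3]
theorem m2 (v : ℂ) : d2 + mu v = mu (d2 + v) := by rw [mu_add, mu_d2]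
theorem m3 (v : ℂ) : d3 + mu v = mu (d1 + v) := by rw [mu_add, mu_d1]

theorem mp (v : ℂ) : mu v - pB = mu (v - pB) := by rw [mu_sub, mu_pB]

variable {v1 v2 v3 u : ℂ}

theorem FarR.mir (H : FarR v1 v2 v3 u) : FarH (mu v3) (mu v2) (mu v1) (mu u) where
  V1 := by rw [V30_mu]; exact H.V3
  V2 := by rw [V30_mu]; exact H.V2
  V3 := by rw [V30_mu]; exact H.V1
  Ph := by rw [Phi_mu]; exact H.Ph
  e12 := by rw [m1, m2, ← mu_sub, mu_norm, ← norm_neg, neg_sub]; exact H.e23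
  e12' := by rw [m1, m2, ← mu_sub, mu_norm, ← norm_neg, neg_sub]; exact H.e23'
  e23 := by rw [m3, m2, ← mu_sub, mu_norm, ← norm_neg, neg_sub]; exact H.e12
  e23' := by rw [m3, m2, ← mu_sub, mu_norm, ← norm_neg, neg_sub]; exact H.e12'
  n2 := by rw [m2, ← mu_sub, mu_norm]; exact H.n2
  n3 := by rw [m3, ← mu_sub, mu_norm]; exact H.n1
  far := by rw [m1, ← mu_sub, mu_norm]; exact H.far
  un := by rw [mu_norm]; exact H.un
  ui := H.ui
  h0 := by rw [m3, mu_cr]; exact H.h0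
  h1 := by rw [m3, mu_cr, mu_norm]; exact H.h1

/-- (B0) -/
theorem FarR.B0 (H : FarR v1 v2 v3 u) : 1 / 2 * ‖d1 + v1 - pB‖ ≤ cr (u - pB) (d1 + v1 - pB) := by
  have := H.mir.B0
  rwa [m3, mp, mp, mu_cr, mu_norm] at this

/-- (B1) -/
theorem FarR.B1 (H : FarR v1 v2 v3 u) :
    9 / 200 ≤ fanw (d1 + v1 - pB) (d2 + v2 - pB) (d3 + v3 - pB) + Phi V30 (4 / 25) v1 v2 v3 := by
  have := H.mir.B1
  rwa [m1, m2, m3, mp, mp, mp, fanw_mu, Phi_mu] at this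

/-- (B2) -/
theorem FarR.B2 (H : FarR v1 v2 v3 u) (h : cr (u - pB) (d1 + v1 - pB) ≤ 27 / 50 * ‖d1 + v1 - pB‖) :
    2 / 25 ≤ fanw (d1 + v1 - pB) (d2 + v2 - pB) (d3 + v3 - pB) + Phi V30 (4 / 25) v1 v2 v3 := by
  have := H.mir.B2 (by rwa [m3, mp, mp, mu_cr, mu_norm])
  rwa [m1, m2, m3, mp, mp, mp, fanw_mu, Phi_mu] at this

/-- (B2') -/
theorem FarR.B2p (H : FarR v1 v2 v3 u) (h : cr (u - pB) (d1 + v1 - pB) ≤ 13 / 25 * ‖d1 + v1 - pB‖) :
    3 / 25 ≤ fanw (d1 + v1 - pB) (d2 + v2 - pB) (d3 + v3 - pB) + Phi V30 (4 / 25) v1 v2 v3 := by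
  have := H.mir.B2p (by rwa [m3, mp, mp, mu_cr, mu_norm])
  rwa [m1, m2, m3, mp, mp, mp, fanw_mu, Phi_mu] at this

theorem FarR.c13 (H : FarR v1 v2 v3 u) : 0 < cr (d1 + v1 - pB) (d3 + v3 - pB) := by
  have := H.mir.c13
  rwa [m1, m3, mp, mp, mu_cr] at this

/-- (B3) -/
theorem FarR.B3 (H : FarR v1 v2 v3 u) :
    √3 * dt (d1 + v1 - pB) (d3 + v3 - pB) ≤ -(883 / 1000) * cr (d1 + v1 - pB) (d3 + v3 - pB) := by
  have := H.mir.B3
  rwa [m1, m3, mp, mp, mu_cr, mu_dt, dt_comm'] at this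

/-- (B3), cosine form -/
theorem FarR.B3' (H : FarR v1 v2 v3 u) :
    dt (d1 + v1 - pB) (d3 + v3 - pB) ≤ -(454 / 1000) * (‖d1 + v1 - pB‖ * ‖d3 + v3 - pB‖) := by
  have := H.mir.B3'
  rwa [m1, m3, mp, mp, mu_dt, dt_comm', mu_norm, mu_norm, mul_comm ‖_‖ ‖_‖] at this

end Pool.Agent.H30.Q
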