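import Pool.Agent.H30.P6.BBase

/-! certificate B1 (generated, 488 leaves) -/

set_option autoImplicit false
set_option maxRecDepth 100000

namespace Pool.Agent.H30.Q

def rows_B1 : List Row := cB ++ [
  ⟨50, 50, 0, 0, 0, 0, 0, 0, 0, 0, 0, 95, 0, 0, 100, -95, 0, 0, 0, 4, 0, 0, 0, 0, 4, 4, 0, 4, -19⟩,
  ⟨50, 50, 0, 0, 0, 0, 0, 0, 0, 0, 0, 95, 0, 0, 100, -95, 0, 0, 0, 0, 4, 0, 4, 4, 4, 4, 4, 4, -19⟩,
  ⟨50, 50, 0, 0, 0, 0, 0, 0, 0, 0, 0, 95, 0, 0, 100, -95, 0, 0, 0, 0, 0, 4, 4, 4, 0, 0, 4, 0, -19⟩]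

def tree_B1 : Tree := .N 6 (.N 0 (.N 0 (.L [(13, 32), (57, 11), (73, 1), (74, 9), (83, 547)]) (.N 1 (.L [(73, 5), (74, 8), (83, 821)]) (.N 6 (.N 7 (.N 1 (.L [(74, 2), (83, 71)]) (.N 0 (.L [(14, 2), (57, 1), (74, 2), (83, 71)]) (.N 7 (.L [(0, 5), (2, 4), (14, 15), (27, 9), (40, 9), (41, 13), (42, 15), (82, 289), (83, 364), (84, 1), (93, 1)]) (.N 6 (.N 4 (.N 5 (.L [(14, 5), (15, 132), (40, 132), (41, 120), (53, 138), (82, 821), (83, 317), (90, 6), (93, 2), (94, 34)]) (.L [(1, 1), (2, 5), (15, 2), (35, 17), (40, 20), (41, 2), (62, 19), (91, 1), (95, 2)])) (.L [(82, 1232), (84, 1), (85, 3)])) (.N 4 (.N 5 (.L [(0, 47), (14, 247), (15, 2061), (40, 2061), (41, 2308), (53, 2308), (62, 464), (82, 8531), (83, 9367), (89, 4), (93, 27), (94, 516)]) (.L [(0, 2), (14, 8), (15, 19), (40, 19), (41, 28), (52, 2), (83, 242), (90, 4), (93, 1), (94, 5)])) (.L [(0, 16), (14, 46), (42, 46), (82, 859), (83, 1232), (84, 1)])))))) (.N 0 (.L [(14, 15), (57, 6),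 (73, 4), (74, 6), (83, 547)]) (.N 1 (.L [(73, 5), (74, 4), (83, 547)]) (.N 6 (.N 4 (.N 5 (.L [(14, 9), (15, 270), (40, 270), (41, 251), (53, 273), (82, 1849), (83, 715), (90, 7), (93, 3), (94, 68)]) (.N 2 (.N 6 (.L [(2, 18), (37, 52), (38, 8), (40, 61), (62, 50), (73, 21), (82, 1232), (83, 20), (95, 2)]) (.N 7 (.N 4 (.L [(0, 23), (1, 107), (14, 68), (15, 1817), (35, 397), (40, 2215), (41, 1885), (62, 286), (82, 6244), (83, 4804), (90, 47), (94, 375), (95, 100)]) (.N 5 (.L [(0, 4), (14, 13), (41, 13), (63, 14), (82, 547), (83, 401), (90, 4), (93, 1)]) (.L [(0, 19), (2, 17), (14, 56), (35, 73), (40, 73), (41, 56), (62, 108), (63, 120), (82, 1849), (83, 1802), (90, 16), (95, 6)]))) (.L [(0, 5), (2, 29), (14, 14), (35, 2), (37, 95), (40, 98), (41, 14), (62, 72), (82, 1849), (83, 585), (95, 4)]))) (.L [(14, 134), (35, 1700), (40, 1700), (41, 134), (53, 134), (62, 31616), (82, 27001), (83, 16899), (88, 8), (93, 34), (95, 426)]))) (.L [(0, 82),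 (14, 244), (42, 244), (82, 14051), (83, 8055), (85, 15), (86, 4)])) (.N 7 (.N 4 (.N 5 (.L [(14, 59), (15, 914), (40, 914), (41, 973), (52, 73), (53, 433), (82, 4162), (83, 3148), (89, 1), (93, 15), (94, 229)]) (.N 4 (.L [(0, 7), (14, 22), (15, 103), (40, 103), (41, 125), (51, 6), (82, 129), (83, 821), (90, 4), (93, 1), (94, 26)]) (.L [(1, 40), (14, 129), (15, 130), (40, 130), (41, 260), (82, 1496), (83, 4162), (89, 1), (93, 33), (94, 4)]))) (.L [(82, 2119), (83, 2774), (86, 1)])) (.L [(83, 1)])))))) (.L [(0, 521), (2, 14), (14, 1574), (27, 39), (40, 39), (41, 109), (42, 1574), (48, 3), (75, 299), (83, 47425), (84, 2), (93, 4)])))) (.N 2 (.N 4 (.N 0 (.N 2 (.N 3 (.N 5 (.L [(15, 85), (17, 97), (39, 168), (40, 183), (42, 130), (48, 18), (63, 364), (94, 46)]) (.L [(15, 66), (39, 60), (40, 66), (48, 6), (63, 242), (94, 17)])) (.L [(21, 34), (27, 3), (39, 10), (40, 38), (42, 34), (46, 38), (63, 107), (94, 9), (95, 1)])) (.N 4 (.N 2 (.L [(1, 15),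 (15, 1171), (35, 60), (39, 1232), (40, 1231), (41, 1171), (48, 34), (94, 282), (95, 16)]) (.L [(15, 811), (35, 9), (39, 521), (40, 821), (41, 811), (51, 17), (94, 203), (95, 3)])) (.N 3 (.N 1 (.N 6 (.N 7 (.N 5 (.L [(15, 536), (40, 536), (41, 536), (42, 294), (47, 107), (53, 107), (82, 1849), (83, 1234), (87, 1), (94, 135)]) (.L [(1, 1), (15, 315), (40, 315), (41, 315), (42, 315), (48, 31), (63, 24), (82, 123), (83, 821), (86, 1), (94, 79)])) (.N 6 (.N 4 (.L [(15, 6999), (38, 69), (40, 7069), (41, 6999), (46, 2132), (47, 880), (82, 21077), (83, 13291), (89, 5), (94, 1750), (95, 18)]) (.L [(15, 6898), (40, 6898), (41, 6898), (46, 6898), (63, 12400), (82, 31616), (83, 16516), (88, 7), (94, 1725)])) (.L [(15, 1516), (40, 1516), (41, 1516), (47, 303), (63, 911), (82, 2913), (83, 4162), (88, 1), (94, 380)]))) (.L [(1, 17), (15, 593), (40, 593), (41, 593), (42, 593), (48, 59), (53, 593), (83, 6244), (86, 1), (94, 137)])) (.N 5 (.N 6 (.N 6 (.L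 [(15, 2140), (40, 2140), (41, 2140), (52, 234), (62, 582), (82, 47425), (83, 1637), (89, 7), (94, 536)]) (.N 7 (.N 7 (.L [(82, 161), (86, 1)]) (.N 7 (.L [(1, 1), (14, 5), (15, 139), (40, 139), (41, 144), (42, 144), (48, 1), (53, 144), (82, 547), (83, 233), (87, 1), (93, 2), (94, 35)]) (.N 0 (.L [(14, 229), (15, 2566), (40, 2566), (41, 2795), (62, 994), (82, 9367), (83, 7944), (87, 4), (93, 58), (94, 642)]) (.L [(12, 79), (14, 211), (15, 4194), (40, 4194), (41, 4486), (42, 4286), (48, 25), (82, 9367), (83, 7276), (87, 4), (93, 73), (94, 1049)])))) (.L [(14, 14), (15, 350), (40, 350), (41, 365), (53, 150), (82, 1849), (83, 652), (93, 4), (94, 88)]))) (.N 7 (.N 7 (.L [(0, 2), (1, 1), (10, 3), (12, 4), (15, 2), (40, 2), (41, 10), (42, 10), (63, 1), (83, 71), (85, 2), (93, 1)]) (.L [(1, 37), (12, 184), (14, 7), (15, 608), (40, 608), (41, 800), (42, 800), (48, 16), (82, 450), (83, 2774), (85, 22), (93, 48), (94, 126)])) (.L [(1, 6), (12, 21),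 (15, 54), (40, 54), (41, 76), (42, 76), (48, 5), (63, 77), (83, 364), (93, 6), (94, 10)]))) (.N 2 (.N 2 (.L [(15, 189), (17, 33), (39, 56), (40, 222), (47, 44), (63, 821), (94, 56)]) (.N 6 (.N 7 (.L [(14, 36), (15, 432), (40, 432), (41, 469), (48, 43), (63, 1232), (83, 1030), (87, 1), (93, 10), (94, 109)]) (.N 5 (.N 6 (.L [(14, 34), (15, 990), (35, 240), (40, 1231), (41, 1025), (63, 4884), (82, 6244), (83, 1716), (89, 1), (93, 9), (94, 248), (95, 61)]) (.L [(14, 985), (15, 15250), (35, 974), (40, 16224), (41, 16235), (48, 1622), (63, 41483), (82, 47425), (83, 37931), (89, 13), (93, 247), (94, 3813), (95, 244)])) (.L [(15, 91), (35, 30), (39, 77), (40, 122), (41, 91), (63, 821), (94, 23), (95, 8)]))) (.L [(14, 151), (15, 1366), (40, 1366), (41, 1518), (48, 136), (63, 6244), (83, 4835), (87, 1), (93, 38), (94, 342)]))) (.N 3 (.N 4 (.N 0 (.N 6 (.N 7 (.L [(14, 233), (15, 6965), (40, 6965), (41, 7198), (53, 866), (62, 4957), (82, 791), (83,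 9367), (87, 8), (93, 59), (94, 1742)]) (.N 7 (.N 3 (.L [(15, 6503), (40, 6503), (41, 6503), (62, 11877), (63, 14051), (82, 3514), (83, 2741), (89, 1), (94, 1626)]) (.N 6 (.L [(15, 952), (35, 2), (40, 954), (41, 952), (62, 1511), (63, 1849), (82, 1135), (83, 644), (90, 8), (94, 239), (95, 1)]) (.N 5 (.L [(14, 41), (15, 4989), (40, 4989), (41, 5031), (62, 6244), (63, 4200), (82, 4992), (83, 5044), (87, 2), (93, 11), (94, 1248)]) (.L [(15, 4153), (40, 4153), (41, 4153), (62, 7770), (63, 9367), (82, 1710), (83, 2339), (89, 1), (94, 1039)])))) (.L [(15, 147), (37, 10), (40, 158), (41, 147), (62, 272), (63, 364), (82, 322), (83, 99), (94, 37), (95, 3)]))) (.L [(0, 69), (14, 284), (15, 1492), (40, 1492), (41, 1776), (62, 1042), (83, 9367), (87, 2), (93, 20), (94, 374)])) (.L [(15, 363), (40, 364), (41, 363), (63, 189), (94, 91)])) (.N 2 (.L [(63, 1)]) (.N 5 (.N 4 (.N 6 (.N 6 (.L [(82, 35569), (88, 7)]) (.N 3 (.L [(15, 21405), (40, 21405), (41,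 21405), (42, 6549), (62, 39466), (63, 47425), (82, 10964), (83, 8457), (87, 4), (94, 5352)]) (.N 7 (.N 1 (.L [(15, 327), (40, 327), (41, 327), (48, 32), (63, 433), (82, 439), (83, 821), (86, 1), (94, 82)]) (.L [(12, 217), (15, 1973), (40, 1973), (41, 2190), (62, 2860), (63, 4162), (82, 2455), (83, 3231), (87, 2), (93, 55), (94, 494)])) (.N 6 (.L [(15, 3014), (40, 3014), (41, 3014), (62, 5199), (63, 6244), (82, 3956), (83, 1803), (87, 1), (94, 754)]) (.L [(12, 117), (15, 2152), (40, 2152), (41, 2270), (62, 2786), (63, 4162), (82, 3201), (83, 2952), (87, 1), (93, 30), (94, 539)]))))) (.N 7 (.L [(1, 19), (14, 105), (15, 1185), (40, 1185), (41, 1290), (42, 1290), (63, 1915), (83, 2774), (86, 1), (93, 27), (94, 283)]) (.L [(1, 4), (12, 14), (15, 43), (40, 43), (41, 57), (42, 39), (48, 4), (63, 71), (83, 242), (93, 4), (94, 8)]))) (.L [(63, 1)])) (.L [(63, 1)])))) (.N 6 (.N 7 (.N 1 (.L [(10, 9), (15, 674), (40, 674), (41, 683), (42, 683), (48,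 67), (63, 294), (82, 361), (83, 1849), (86, 2), (93, 3), (94, 169)]) (.N 6 (.L [(89, 1)]) (.N 6 (.L [(14, 8), (15, 131), (40, 131), (41, 139), (53, 118), (82, 547), (83, 244), (88, 1), (93, 3), (94, 33)]) (.L [(12, 762), (15, 1378), (40, 1378), (41, 2141), (42, 2141), (48, 117), (82, 1829), (83, 9367), (87, 7), (93, 191), (94, 345)])))) (.N 6 (.N 7 (.N 5 (.L [(14, 13), (15, 495), (35, 67), (40, 562), (41, 508), (62, 275), (82, 6244), (83, 751), (89, 1), (93, 4), (94, 124), (95, 17)]) (.N 4 (.N 4 (.L [(15, 1715), (35, 270), (40, 1985), (41, 1715), (62, 2416), (63, 1427), (82, 2774), (83, 1670), (89, 1), (94, 429), (95, 68)]) (.N 5 (.L [(15, 1134), (35, 373), (40, 1507), (41, 1134), (62, 2380), (63, 3159), (82, 9367), (83, 926), (89, 2), (94, 284), (95, 94)]) (.L [(15, 678), (35, 37), (37, 165), (40, 881), (41, 678), (62, 1392), (63, 1862), (82, 4162), (83, 542), (89, 1), (94, 170), (95, 51)]))) (.L [(37, 138), (40, 138), (62, 219), (63,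 2732), (82, 4162), (83, 85), (89, 1), (95, 35)]))) (.L [(37, 11), (38, 3), (40, 15), (62, 22), (63, 23), (82, 364), (83, 10), (95, 4)])) (.N 7 (.N 4 (.N 0 (.N 1 (.L [(15, 779), (40, 779), (41, 779), (47, 37), (48, 13), (82, 1790), (83, 4162), (89, 1), (94, 195)]) (.N 5 (.L [(14, 650), (15, 10428), (40, 10428), (41, 11078), (62, 4048), (63, 4639), (82, 20250), (83, 21077), (88, 8), (93, 163), (94, 2608)]) (.N 6 (.N 2 (.L [(14, 83), (15, 1240), (35, 53), (40, 1293), (41, 1323), (63, 2191), (82, 2222), (83, 2774), (89, 1), (93, 21), (94, 311), (95, 14)]) (.N 0 (.L [(14, 44), (35, 143), (40, 143), (41, 44), (62, 4162), (82, 2212), (83, 2673), (89, 1), (93, 12), (95, 36)]) (.N 3 (.L [(12, 2), (15, 4606), (40, 4606), (41, 4608), (62, 9367), (63, 9158), (82, 2682), (83, 2622), (88, 1), (93, 1), (94, 1152)]) (.N 5 (.N 7 (.L [(12, 282), (15, 1056), (40, 1056), (41, 1339), (63, 522), (82, 2775), (83, 4162), (88, 2), (93, 71), (94, 265)]) (.L [(12,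 143), (15, 1239), (35, 43), (40, 1282), (41, 1382), (62, 1451), (63, 1796), (82, 2684), (83, 2774), (89, 1), (93, 36), (94, 310), (95, 11)])) (.L [(15, 5454), (37, 1389), (40, 6843), (41, 5454), (62, 14051), (63, 13885), (82, 4267), (83, 4724), (89, 2), (94, 1364), (95, 348)]))))) (.L [(14, 202), (15, 16), (40, 16), (41, 218), (63, 93), (83, 6244), (88, 1), (93, 51), (94, 5)])))) (.L [(12, 1), (15, 819), (40, 819), (41, 821), (48, 49), (93, 1), (94, 205)])) (.N 5 (.N 1 (.L [(15, 860), (40, 860), (41, 860), (47, 172), (63, 1216), (82, 2774), (83, 2362), (87, 1), (94, 216)]) (.N 6 (.N 0 (.L [(12, 134), (15, 678), (40, 678), (41, 812), (62, 1021), (63, 1259), (82, 2774), (83, 2360), (88, 1), (93, 34), (94, 170)]) (.L [(12, 687), (15, 4170), (40, 4170), (41, 4858), (62, 1484), (63, 8946), (82, 14051), (83, 10946), (88, 5), (93, 172), (94, 1043)])) (.L [(12, 409), (15, 1631), (40, 1631), (41, 2041), (63, 3179), (82, 4124), (83, 6244), (87, 2),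 (93, 103), (94, 408)]))) (.N 1 (.L [(15, 1029), (37, 23), (40, 1052), (41, 1029), (47, 175), (63, 2386), (82, 2493), (83, 2774), (89, 1), (94, 258), (95, 6)]) (.N 6 (.N 4 (.N 2 (.L [(63, 1)]) (.N 4 (.N 2 (.L [(10, 534), (12, 326), (15, 416), (40, 416), (41, 1277), (48, 41), (63, 21077), (82, 9601), (83, 8652), (88, 4), (93, 216), (94, 105)]) (.N 0 (.N 3 (.L [(12, 70), (15, 2567), (40, 2567), (41, 2638), (62, 5122), (63, 6244), (82, 2642), (83, 2491), (88, 1), (93, 18), (94, 642)]) (.N 5 (.N 7 (.L [(12, 109), (15, 627), (40, 627), (41, 736), (62, 748), (63, 997), (82, 1468), (83, 1849), (88, 1), (93, 28), (94, 157)]) (.L [(12, 154), (15, 1022), (37, 17), (40, 1040), (41, 1177), (62, 933), (63, 2054), (82, 2774), (83, 2769), (89, 1), (93, 39), (94, 256), (95, 5)])) (.L [(15, 2127), (37, 1318), (40, 3446), (41, 2127), (62, 7280), (63, 21077), (82, 2281), (83, 2447), (89, 1), (94, 532), (95, 330)]))) (.N 5 (.N 7 (.L [(12, 115), (15, 807), (40,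 807), (41, 922), (62, 510), (63, 1621), (82, 1685), (83, 1849), (88, 1), (93, 29), (94, 202)]) (.L [(10, 101), (12, 249), (15, 2758), (40, 2758), (41, 3109), (63, 6244), (82, 5126), (83, 4671), (88, 2), (93, 88), (94, 690)])) (.L [(15, 289), (37, 78), (40, 368), (41, 289), (63, 1849), (94, 73), (95, 20)])))) (.L [(10, 197), (12, 68), (41, 265), (63, 6244), (82, 2645), (83, 2380), (87, 1), (93, 67)]))) (.L [(10, 132), (12, 45), (41, 178), (63, 4162), (82, 1808), (83, 1606), (87, 1), (93, 45)])) (.L [(10, 8), (12, 256), (15, 1006), (40, 1006), (41, 1271), (63, 4162), (83, 3964), (88, 1), (93, 67), (94, 252)]))))) (.L [(12, 7), (15, 87), (37, 22), (40, 110), (41, 95), (62, 93), (63, 236), (82, 547), (83, 193), (93, 2), (94, 22), (95, 6)])))) (.N 7 (.L [(10, 110), (12, 157), (41, 267), (42, 267), (63, 111), (83, 2774), (86, 1), (93, 67)]) (.L [(10, 4), (12, 2), (41, 6), (42, 6), (63, 12), (83, 71), (93, 2)]))))))) (.N 1 (.N 6 (.N 5 (.L [(15,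 21349), (39, 21349), (40, 21349), (41, 21349), (42, 21349), (46, 21349), (53, 21349), (82, 71138), (83, 41914), (86, 20), (87, 2), (94, 5338)]) (.N 7 (.L [(8, 1), (15, 25), (40, 25), (41, 26), (42, 26), (46, 25), (82, 8), (83, 71), (85, 2), (93, 1), (94, 7)]) (.N 6 (.L [(15, 744), (37, 64), (38, 32), (40, 841), (41, 744), (46, 841), (82, 4162), (83, 2014), (88, 1), (94, 187), (95, 25)]) (.L [(4, 21), (15, 965), (38, 31), (40, 996), (41, 986), (46, 996), (63, 150), (82, 2729), (83, 2774), (87, 1), (93, 6), (94, 242), (95, 8)])))) (.L [(27, 123), (40, 123), (46, 123), (83, 6244), (87, 1), (95, 31)])) (.N 6 (.N 7 (.N 5 (.N 6 (.L [(82, 1849), (89, 1)]) (.L [(10, 50), (12, 120), (27, 152), (40, 152), (41, 170), (47, 30), (53, 170), (82, 1344), (83, 1849), (87, 1), (93, 43), (95, 39)])) (.L [(10, 339), (12, 142), (41, 103), (53, 335), (82, 1023), (83, 4162), (87, 4), (93, 121)])) (.N 5 (.L [(10, 85), (12, 222), (15, 876), (40, 876), (41, 1184),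 (47, 175), (53, 1184), (82, 9367), (83, 4677), (87, 2), (93, 77), (94, 220)]) (.N 7 (.N 6 (.N 5 (.L [(14, 4), (35, 104), (40, 104), (41, 4), (53, 4), (62, 37), (82, 4162), (83, 177), (89, 1), (93, 2), (95, 27)]) (.L [(14, 11), (35, 21), (37, 173), (40, 195), (41, 11), (63, 5), (82, 4162), (83, 383), (88, 1), (93, 3), (95, 49)])) (.N 6 (.N 5 (.L [(10, 1970), (12, 522), (35, 703), (40, 703), (41, 2493), (47, 140), (82, 31616), (83, 24467), (88, 10), (93, 624), (95, 176)]) (.N 7 (.L [(10, 133), (12, 60), (35, 49), (40, 49), (41, 193), (47, 9), (63, 201), (82, 1085), (83, 1849), (88, 1), (93, 49), (95, 13)]) (.L [(10, 959), (12, 384), (35, 282), (37, 277), (40, 559), (41, 1344), (47, 111), (63, 1923), (82, 14051), (83, 13478), (88, 5), (93, 337), (95, 140)]))) (.L [(10, 346), (12, 82), (41, 428), (63, 328), (82, 994), (83, 4162), (86, 1), (93, 108)]))) (.L [(10, 5), (12, 5), (37, 15), (38, 6), (40, 21), (41, 11), (47, 3), (82, 547), (83, 148),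 (93, 3), (95, 6)])))) (.L [(10, 1333), (12, 1368), (27, 638), (40, 638), (41, 1320), (42, 2701), (47, 127), (83, 31616), (87, 7), (93, 676), (95, 160)])))))) (.L [(10, 6), (15, 154), (40, 154), (41, 161), (42, 130), (47, 16), (48, 7), (63, 130), (93, 2), (94, 39)])) (.N 2 (.L [(21, 6), (27, 60), (39, 38), (40, 67), (42, 6), (47, 13), (63, 821), (94, 2), (95, 16)]) (.N 3 (.N 4 (.N 0 (.N 5 (.N 2 (.L [(27, 19), (40, 19), (47, 3), (63, 242), (95, 5)]) (.N 6 (.N 7 (.N 1 (.L [(82, 71), (83, 37), (85, 1)]) (.L [(10, 16), (12, 9), (41, 25), (42, 25), (63, 330), (82, 547), (83, 220), (85, 5), (93, 7)])) (.L [(82, 1)])) (.N 7 (.N 7 (.L [(0, 6), (10, 25), (12, 28), (41, 54), (42, 54), (63, 470), (83, 547), (84, 1), (93, 10)]) (.L [(1, 22), (12, 606), (15, 1055), (40, 1055), (41, 1661), (42, 1661), (48, 105), (63, 6977), (82, 7703), (83, 9367), (84, 4), (93, 152), (94, 248)])) (.L [(10, 9), (12, 2), (41, 12), (42, 12), (63, 161), (82, 128), (83, 146),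 (93, 4)])))) (.N 6 (.N 7 (.L [(10, 8), (12, 3), (41, 11), (42, 11), (63, 547), (82, 161), (83, 100), (85, 2), (93, 3)]) (.L [(10, 7), (41, 7), (42, 7), (63, 364), (82, 141), (83, 66), (85, 1), (93, 2)])) (.L [(10, 75), (12, 46), (41, 122), (42, 122), (63, 2774), (83, 1369), (85, 8), (93, 31)]))) (.L [(10, 14), (15, 319), (27, 52), (40, 371), (41, 334), (42, 334), (47, 29), (48, 22), (63, 1232), (93, 4), (94, 80), (95, 14)])) (.L [(27, 15), (40, 15), (63, 242), (95, 4)])) (.N 0 (.N 5 (.N 2 (.L [(27, 62), (40, 62), (46, 62), (63, 547), (93, 1), (95, 16)]) (.N 6 (.N 7 (.L [(10, 61), (12, 21), (41, 83), (42, 83), (63, 521), (82, 1849), (83, 727), (84, 1), (93, 21)]) (.L [(82, 1)])) (.N 7 (.N 1 (.L [(27, 41), (40, 41), (46, 41), (82, 315), (83, 1232), (84, 1), (95, 11)]) (.L [(10, 89), (12, 278), (27, 110), (40, 110), (41, 367), (42, 367), (47, 22), (63, 2715), (82, 3301), (83, 4162), (84, 2), (93, 92), (95, 28)])) (.L [(10, 4), (12, 1), (41,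 6), (42, 6), (63, 12), (82, 10), (83, 71), (93, 2)])))) (.N 4 (.N 2 (.L [(27, 97), (40, 97), (46, 97), (63, 1232), (93, 1), (94, 1), (95, 25)]) (.N 6 (.N 7 (.L [(10, 20), (12, 7), (41, 27), (42, 27), (63, 93), (82, 97), (83, 242), (85, 6), (93, 7)]) (.N 6 (.L [(14, 3), (38, 65), (40, 65), (41, 3), (63, 783), (82, 4162), (83, 126), (87, 1), (93, 1), (95, 17)]) (.L [(10, 223), (12, 11), (41, 235), (42, 235), (63, 2703), (82, 2774), (83, 2272), (86, 1), (93, 59)]))) (.L [(10, 230), (12, 140), (41, 371), (42, 371), (63, 2263), (83, 4162), (84, 1), (93, 93)]))) (.L [(26, 1), (42, 1), (63, 107), (94, 1)]))) (.L [(8, 57), (10, 2), (27, 31), (40, 31), (41, 59), (42, 59), (46, 31), (63, 364), (93, 15), (95, 8)]))))) (.N 3 (.N 2 (.N 4 (.N 4 (.L [(15, 103), (35, 3), (39, 57), (40, 107), (41, 103), (51, 9), (52, 2), (62, 74), (94, 26), (95, 1)]) (.N 0 (.N 1 (.N 6 (.N 7 (.N 5 (.L [(1, 15), (15, 528), (40, 528), (41, 528), (42, 528), (47, 102), (52,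 50), (53, 273), (82, 1849), (83, 1234), (86, 1), (94, 122)]) (.L [(15, 265), (40, 265), (41, 265), (42, 265), (47, 8), (52, 8), (82, 126), (83, 821), (86, 1), (94, 67)])) (.N 5 (.L [(1, 6), (15, 191), (40, 191), (41, 191), (47, 38), (52, 38), (82, 1232), (83, 461), (94, 44)]) (.N 6 (.N 7 (.L [(15, 887), (40, 887), (41, 887), (47, 102), (63, 218), (82, 2774), (83, 1928), (88, 1), (94, 222)]) (.L [(1, 1), (15, 46), (38, 9), (40, 55), (41, 46), (82, 364), (83, 72), (94, 11), (95, 3)])) (.L [(1, 39), (15, 5558), (40, 5558), (41, 5558), (47, 815), (82, 10880), (83, 14051), (88, 4), (94, 1362)])))) (.L [(1, 1), (15, 27), (40, 27), (41, 27), (42, 27), (53, 27), (83, 242), (85, 1), (94, 7)])) (.N 5 (.N 6 (.N 6 (.L [(15, 280), (40, 280), (41, 280), (53, 280), (62, 472), (82, 6244), (83, 143), (88, 1), (94, 71)]) (.N 7 (.N 7 (.L [(82, 161), (86, 1)]) (.N 0 (.L [(14, 204), (15, 1398), (40, 1398), (41, 1602), (53, 1602), (62, 8720), (82, 9367), (83,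 8202), (87, 4), (93, 52), (94, 350)]) (.N 7 (.L [(0, 1), (14, 5), (15, 171), (40, 171), (41, 176), (42, 176), (53, 176), (62, 131), (82, 547), (83, 178), (86, 1), (93, 1), (94, 43)]) (.N 6 (.L [(15, 439), (40, 439), (41, 439), (52, 87), (82, 2774), (88, 1), (94, 110)]) (.L [(12, 202), (14, 5), (15, 2026), (40, 2026), (41, 2234), (42, 2234), (52, 32), (62, 1578), (82, 4162), (83, 3570), (86, 2), (93, 53), (94, 507)]))))) (.L [(12, 16), (14, 10), (15, 338), (40, 338), (41, 365), (42, 154), (52, 57), (82, 1849), (83, 652), (93, 7), (94, 85)]))) (.N 7 (.N 7 (.L [(0, 45), (10, 78), (12, 64), (41, 142), (42, 142), (83, 1232), (85, 17), (86, 1), (93, 3)]) (.N 7 (.L [(1, 24), (12, 60), (15, 157), (40, 157), (41, 218), (42, 218), (53, 211), (82, 253), (83, 821), (85, 12), (93, 16), (94, 23)]) (.L [(1, 148), (12, 429), (15, 1243), (40, 1243), (41, 1673), (42, 1673), (53, 908), (82, 1485), (83, 6244), (86, 2), (93, 108), (94, 201)]))) (.L [(0, 9),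 (1, 8), (10, 36), (12, 15), (15, 23), (40, 23), (41, 75), (42, 67), (48, 2), (83, 547), (93, 7)]))) (.N 2 (.N 3 (.N 0 (.N 2 (.N 1 (.N 6 (.N 7 (.L [(15, 57), (40, 57), (41, 57), (52, 11), (62, 113), (83, 821), (88, 1), (94, 15)]) (.N 7 (.N 6 (.L [(15, 4617), (40, 4617), (41, 4617), (62, 9367), (63, 8635), (82, 5775), (83, 3258), (89, 2), (94, 1155)]) (.L [(15, 622), (40, 622), (41, 622), (62, 447), (82, 1479), (83, 3122), (88, 1), (94, 156)])) (.L [(15, 135), (38, 7), (40, 142), (41, 135), (62, 244), (63, 222), (82, 364), (83, 101), (94, 34), (95, 2)]))) (.L [(83, 4162), (87, 1)])) (.L [(62, 1)])) (.L [(62, 1)])) (.N 4 (.L [(15, 20), (40, 19), (41, 19), (62, 10), (94, 5)]) (.N 5 (.N 2 (.N 6 (.N 6 (.L [(82, 35569), (88, 7)]) (.N 7 (.N 1 (.L [(15, 337), (40, 337), (41, 337), (42, 337), (48, 33), (63, 112), (82, 263), (83, 821), (86, 1), (94, 85)]) (.L [(10, 269), (12, 109), (15, 4172), (40, 4172), (41, 4551), (42, 4551), (62, 9367), (63, 6307),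 (82, 1334), (83, 4321), (86, 4), (93, 95), (94, 1044)])) (.N 1 (.L [(15, 2703), (40, 2703), (41, 2703), (63, 3850), (82, 6244), (83, 4747), (87, 2), (94, 676)]) (.N 5 (.L [(10, 1337), (12, 128), (15, 14966), (40, 14966), (41, 16432), (42, 5988), (62, 31616), (63, 24032), (82, 25651), (83, 18308), (86, 8), (93, 367), (94, 3742)]) (.L [(15, 9471), (40, 9471), (41, 9471), (42, 4125), (62, 21077), (63, 20066), (82, 3381), (83, 2489), (86, 1), (94, 2368)]))))) (.N 7 (.L [(10, 17), (12, 22), (15, 263), (40, 263), (41, 303), (42, 303), (62, 547), (63, 353), (83, 515), (85, 4), (93, 10), (94, 66)]) (.L [(0, 14), (1, 4), (10, 47), (12, 10), (15, 11), (40, 11), (41, 68), (42, 15), (48, 1), (63, 28), (83, 547), (93, 4)]))) (.N 3 (.L [(1, 11), (15, 518), (40, 518), (41, 518), (42, 518), (62, 1232), (63, 716), (94, 122)]) (.N 6 (.N 6 (.L [(15, 1212), (40, 1212), (41, 1212), (51, 121), (62, 2492), (82, 71138), (83, 474), (88, 14), (94, 304)]) (.N 7 (.L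 [(10, 468), (15, 3473), (40, 3473), (41, 3941), (42, 3941), (62, 9367), (63, 4735), (82, 1902), (83, 4403), (86, 4), (93, 118), (94, 869)]) (.N 1 (.L [(15, 2978), (40, 2978), (41, 2978), (42, 2127), (62, 4162), (63, 3974), (82, 3372), (83, 2564), (86, 1), (94, 745)]) (.L [(15, 9197), (40, 9197), (41, 9197), (42, 9197), (62, 21077), (63, 13927), (82, 3408), (83, 2646), (86, 1), (94, 2300)])))) (.N 7 (.L [(10, 45), (15, 146), (40, 146), (41, 191), (42, 191), (62, 547), (63, 247), (83, 372), (85, 3), (93, 12), (94, 37)]) (.L [(0, 8), (10, 31), (12, 7), (41, 38), (42, 18), (63, 21), (83, 364), (93, 4)]))))) (.N 6 (.N 7 (.L [(10, 86), (15, 659), (40, 659), (41, 745), (62, 1745), (63, 1849), (83, 761), (87, 1), (93, 22), (94, 165)]) (.N 1 (.N 6 (.L [(15, 2788), (40, 2788), (41, 2788), (62, 4817), (63, 6244), (82, 3674), (83, 1543), (88, 1), (94, 698)]) (.L [(15, 5978), (40, 5978), (41, 5978), (62, 12097), (63, 14051), (82, 3151), (83, 2564),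 (86, 1), (94, 1495)])) (.L [(15, 39), (40, 39), (41, 39), (62, 107), (63, 107), (94, 10)]))) (.L [(10, 1469), (15, 11836), (40, 11836), (41, 13305), (62, 31616), (63, 29556), (83, 16714), (87, 4), (93, 368), (94, 2960)]))))) (.N 6 (.N 7 (.N 1 (.L [(10, 66), (15, 430), (40, 430), (41, 496), (42, 496), (62, 152), (82, 116), (83, 1232), (85, 30), (93, 17), (94, 108)]) (.N 6 (.L [(89, 1)]) (.N 6 (.L [(12, 2), (15, 114), (40, 114), (41, 116), (53, 116), (62, 214), (82, 547), (83, 84), (88, 1), (93, 1), (94, 29)]) (.N 1 (.L [(10, 89), (15, 236), (40, 236), (41, 326), (42, 326), (62, 127), (82, 199), (83, 1232), (86, 1), (93, 23), (94, 60)]) (.L [(10, 26), (12, 227), (15, 480), (40, 480), (41, 734), (42, 734), (62, 236), (82, 448), (83, 2774), (86, 2), (93, 64), (94, 121)]))))) (.N 6 (.N 7 (.N 5 (.L [(15, 426), (35, 36), (40, 463), (41, 426), (51, 42), (62, 774), (82, 6244), (83, 301), (89, 1), (94, 107), (95, 10)]) (.N 4 (.N 5 (.L [(15, 1055),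 (35, 190), (40, 1245), (41, 1055), (62, 2079), (82, 9367), (83, 809), (89, 2), (94, 264), (95, 48)]) (.N 0 (.L [(15, 804), (37, 168), (40, 973), (41, 804), (62, 1954), (63, 1299), (82, 4162), (83, 760), (89, 1), (94, 202), (95, 43)]) (.L [(15, 811), (37, 9), (40, 821), (41, 811), (51, 17), (82, 156), (94, 203), (95, 3)]))) (.L [(15, 833), (38, 203), (40, 1036), (41, 833), (62, 1730), (63, 1037), (82, 9367), (83, 673), (89, 2), (94, 209), (95, 51)]))) (.L [(37, 14), (38, 6), (40, 21), (62, 33), (82, 547), (83, 15), (95, 6)])) (.N 7 (.N 5 (.N 7 (.N 1 (.L [(10, 1602), (15, 9724), (40, 9724), (41, 11327), (62, 1846), (63, 3074), (82, 31186), (83, 31616), (86, 14), (93, 401), (94, 2432)]) (.N 0 (.N 4 (.L [(12, 137), (15, 1507), (40, 1507), (41, 1645), (62, 2514), (82, 2571), (83, 2774), (88, 1), (93, 35), (94, 377)]) (.L [(12, 434), (15, 1226), (40, 1226), (41, 1661), (62, 9367), (82, 9355), (83, 9169), (88, 4), (93, 109), (94, 307)])) (.N 4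 (.L [(15, 241), (40, 242), (41, 241), (52, 22), (62, 39), (82, 12), (83, 11), (94, 61)]) (.N 3 (.N 6 (.N 7 (.L [(10, 98), (12, 48), (15, 647), (40, 647), (41, 794), (62, 1100), (63, 905), (82, 1849), (83, 1621), (87, 1), (93, 37), (94, 162)]) (.L [(10, 178), (12, 21), (15, 968), (40, 968), (41, 1168), (62, 2067), (63, 1765), (82, 2774), (83, 2079), (87, 1), (93, 51), (94, 243)])) (.L [(10, 304), (15, 953), (40, 953), (41, 1257), (62, 2774), (63, 2015), (82, 2066), (83, 2742), (87, 1), (93, 77), (94, 239)])) (.L [(10, 849), (12, 896), (15, 2240), (40, 2240), (41, 3986), (62, 64), (82, 21077), (83, 18803), (88, 8), (93, 437), (94, 561)]))))) (.L [(12, 15), (15, 119), (40, 119), (41, 135), (52, 13), (62, 69), (82, 821), (83, 289), (93, 4), (94, 30)])) (.N 4 (.N 0 (.N 1 (.L [(15, 659), (35, 11), (40, 671), (41, 659), (51, 1), (82, 1568), (83, 4162), (89, 1), (94, 165), (95, 3)]) (.N 1 (.N 7 (.L [(12, 34), (15, 1231), (40, 1231), (41, 1265),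 (62, 254), (82, 1418), (83, 2774), (88, 1), (93, 9), (94, 308)]) (.L [(12, 105), (15, 2184), (35, 135), (40, 2319), (41, 2290), (62, 4162), (82, 2493), (83, 3219), (88, 1), (93, 27), (94, 547), (95, 34)])) (.L [(12, 78), (15, 251), (40, 251), (41, 329), (62, 1849), (93, 20), (94, 63)]))) (.L [(15, 361), (35, 1), (37, 1), (40, 364), (41, 361), (51, 14), (94, 91), (95, 1)])) (.N 1 (.N 0 (.L [(82, 1384), (83, 4162), (88, 1)]) (.N 6 (.N 7 (.L [(10, 589), (15, 3279), (40, 3279), (41, 3869), (62, 2321), (63, 4457), (82, 6593), (83, 9367), (87, 5), (93, 148), (94, 820)]) (.N 4 (.L [(10, 63), (15, 1274), (38, 19), (40, 1293), (41, 1338), (63, 588), (82, 2774), (83, 2769), (88, 1), (93, 16), (94, 319), (95, 5)]) (.N 0 (.L [(10, 879), (15, 4810), (38, 43), (40, 4853), (41, 5689), (62, 6608), (63, 9812), (82, 14051), (83, 13710), (88, 5), (93, 220), (94, 1203), (95, 11)]) (.L [(10, 221), (15, 1059), (38, 2), (40, 1062), (41, 1280), (62, 1604), (63,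 2426), (82, 2774), (83, 2590), (88, 1), (93, 56), (94, 265), (95, 1)])))) (.L [(10, 431), (15, 34), (40, 34), (41, 466), (63, 392), (83, 4162), (86, 1), (93, 108), (94, 9)]))) (.N 0 (.N 4 (.N 6 (.N 7 (.L [(12, 85), (15, 215), (40, 215), (41, 301), (62, 1849), (82, 823), (83, 1803), (88, 1), (93, 22), (94, 54)]) (.N 3 (.L [(15, 3137), (40, 3137), (41, 3137), (62, 9367), (63, 6900), (82, 2993), (83, 2688), (88, 1), (94, 785)]) (.N 5 (.L [(10, 154), (12, 58), (15, 982), (40, 982), (41, 1195), (62, 2079), (63, 1791), (82, 2774), (83, 2736), (88, 1), (93, 54), (94, 246)]) (.N 1 (.L [(10, 212), (15, 977), (37, 65), (40, 1042), (41, 1190), (62, 2774), (63, 2593), (82, 2630), (83, 2637), (88, 1), (93, 54), (94, 245), (95, 17)]) (.L [(12, 114), (15, 115), (40, 115), (41, 230), (62, 1849), (63, 695), (93, 29), (94, 29)]))))) (.L [(14, 49), (41, 49), (62, 1095), (63, 4), (83, 1849), (93, 13)])) (.L [(10, 175), (12, 52), (41, 227), (62, 2556), (63,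 2490), (82, 2104), (83, 2774), (87, 1), (93, 57)])) (.N 6 (.N 5 (.N 7 (.N 4 (.N 3 (.N 1 (.L [(10, 186), (15, 1259), (40, 1259), (41, 1446), (62, 2774), (63, 2585), (82, 2155), (83, 2237), (88, 1), (93, 47), (94, 315)]) (.L [(10, 99), (12, 67), (15, 1188), (40, 1188), (41, 1355), (62, 2774), (63, 2585), (82, 1792), (83, 1799), (88, 1), (93, 42), (94, 298)])) (.L [(10, 225), (12, 182), (15, 441), (40, 441), (41, 848), (63, 18), (82, 2835), (83, 4162), (88, 2), (93, 102), (94, 111)])) (.L [(10, 269), (15, 682), (40, 682), (41, 952), (62, 2268), (63, 2774), (82, 2322), (83, 2127), (87, 1), (93, 68), (94, 171)])) (.N 4 (.N 0 (.N 1 (.L [(10, 194), (12, 23), (15, 1069), (40, 1069), (41, 1287), (62, 2000), (63, 2103), (82, 2774), (83, 2514), (88, 1), (93, 55), (94, 268)]) (.L [(10, 127), (12, 448), (15, 2444), (40, 2444), (41, 3020), (62, 6244), (63, 5863), (82, 4992), (83, 4666), (88, 2), (93, 144), (94, 612)])) (.L [(10, 14), (15, 227), (40,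 227), (41, 242), (62, 79), (63, 140), (82, 140), (83, 40), (93, 4), (94, 57)])) (.L [(10, 272), (15, 749), (40, 749), (41, 1021), (62, 2252), (63, 2774), (82, 2746), (83, 2272), (87, 1), (93, 69), (94, 188)]))) (.N 7 (.L [(10, 204), (15, 674), (40, 674), (41, 878), (62, 1760), (63, 1781), (83, 1849), (88, 1), (93, 52), (94, 169)]) (.N 0 (.N 3 (.L [(10, 78), (15, 5350), (40, 5350), (41, 5429), (62, 13160), (63, 14051), (82, 2568), (83, 2386), (88, 1), (93, 20), (94, 1338)]) (.N 1 (.N 4 (.L [(10, 224), (15, 1057), (37, 60), (38, 7), (40, 1125), (41, 1281), (62, 2464), (63, 2492), (82, 2774), (83, 2599), (88, 1), (93, 57), (94, 265), (95, 17)]) (.L [(10, 331), (38, 49), (40, 49), (41, 331), (62, 842), (63, 1185), (82, 2774), (83, 2605), (88, 1), (93, 83), (95, 13)])) (.L [(12, 165), (15, 432), (40, 432), (41, 598), (62, 1739), (63, 1849), (93, 42), (94, 109)]))) (.L [(10, 582), (15, 2328), (40, 2328), (41, 2911), (62, 4997), (63, 6244), (82,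 2494), (83, 2218), (88, 1), (93, 146), (94, 583)])))) (.L [(10, 685), (15, 1770), (40, 1770), (41, 2456), (62, 5826), (63, 6244), (83, 5776), (87, 1), (93, 172), (94, 443)])))))) (.L [(12, 11), (15, 148), (38, 19), (40, 168), (41, 159), (62, 156), (63, 50), (82, 821), (83, 289), (93, 3), (94, 38), (95, 5)])))) (.N 7 (.L [(10, 9), (12, 14), (41, 23), (42, 23), (63, 2), (83, 242), (85, 2), (93, 6)]) (.L [(10, 4), (12, 2), (41, 6), (83, 71), (93, 2)])))) (.N 2 (.N 6 (.N 1 (.N 7 (.L [(10, 55), (15, 403), (40, 403), (41, 459), (42, 459), (52, 60), (62, 1232), (83, 611), (85, 15), (93, 14), (94, 101)]) (.N 7 (.N 6 (.L [(15, 631), (38, 77), (40, 708), (41, 631), (51, 63), (62, 1681), (82, 4162), (83, 420), (88, 1), (94, 158), (95, 20)]) (.N 3 (.L [(15, 6034), (40, 6034), (41, 6034), (42, 2711), (62, 14051), (82, 2011), (83, 2519), (86, 1), (94, 1509)]) (.N 5 (.L [(10, 188), (15, 1024), (40, 1024), (41, 1212), (42, 1016), (62, 2774), (82, 2377),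 (83, 2319), (86, 1), (93, 48), (94, 257)]) (.N 3 (.N 7 (.L [(10, 231), (15, 971), (40, 971), (41, 1202), (62, 2774), (63, 1403), (82, 1856), (83, 2460), (87, 1), (93, 58), (94, 243)]) (.L [(10, 225), (15, 1065), (40, 1065), (41, 1290), (62, 2774), (63, 1224), (82, 2091), (83, 2586), (87, 1), (93, 57), (94, 267), (95, 1)])) (.L [(10, 2212), (15, 3470), (38, 137), (40, 3607), (41, 5682), (62, 12116), (82, 16275), (83, 21077), (87, 8), (93, 554), (94, 868), (95, 35)]))))) (.L [(10, 36), (15, 562), (38, 62), (40, 624), (41, 599), (62, 1448), (63, 284), (82, 2774), (83, 750), (93, 10), (94, 141), (95, 16)]))) (.L [(10, 30), (15, 91), (40, 91), (41, 122), (42, 77), (62, 821), (93, 8), (94, 23)])) (.L [(10, 1541), (15, 8242), (40, 8242), (41, 9784), (42, 9324), (62, 31616), (83, 16587), (86, 4), (93, 386), (94, 2061)])) (.L [(15, 189), (16, 33), (41, 222), (42, 56), (52, 44), (62, 821), (94, 56)]))))) (.N 2 (.L [(10, 9), (15, 811), (40, 811),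 (41, 821), (42, 521), (48, 17), (93, 3), (94, 203)]) (.L [(0, 15), (10, 60), (15, 1171), (40, 1171), (41, 1231), (42, 1232), (51, 34), (93, 4), (94, 293)])))) (.N 1 (.N 6 (.N 7 (.N 6 (.L [(82, 821), (84, 1), (85, 1)]) (.N 6 (.L [(82, 1232), (85, 6), (86, 1)]) (.N 5 (.L [(0, 142), (10, 531), (15, 764), (40, 764), (41, 1296), (42, 1296), (47, 99), (82, 6244), (83, 5572), (84, 5), (93, 27), (94, 192)]) (.N 4 (.L [(10, 251), (15, 984), (40, 984), (41, 1235), (42, 1235), (47, 143), (63, 613), (82, 1223), (83, 4162), (84, 4), (93, 63), (94, 247)]) (.L [(8, 104), (41, 104), (42, 104), (63, 2774), (82, 875), (83, 659), (84, 1), (93, 27)]))))) (.N 6 (.L [(1, 50), (2, 259), (15, 149), (38, 1068), (40, 1218), (41, 149), (42, 149), (62, 486), (82, 71138), (83, 100), (86, 13), (95, 74)]) (.N 4 (.N 5 (.L [(82, 1)]) (.N 5 (.L [(15, 159), (40, 159), (41, 159), (42, 159), (46, 41), (63, 31), (82, 547), (83, 338), (85, 4), (94, 40)]) (.N 4 (.N 0 (.L [(15,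 519), (38, 30), (40, 549), (41, 519), (63, 448), (82, 2774), (83, 2562), (86, 1), (94, 130), (95, 8)]) (.L [(15, 7951), (38, 106), (40, 2200), (41, 7951), (42, 7951), (46, 180), (63, 12291), (82, 14051), (83, 11066), (86, 5), (94, 1988), (95, 27)])) (.L [(15, 409), (16, 48), (41, 458), (42, 458), (63, 1849), (82, 1044), (83, 902), (85, 11), (94, 115)])))) (.L [(8, 10), (10, 143), (41, 154), (42, 154), (63, 2523), (82, 2774), (83, 1387), (84, 1), (93, 39)])))) (.N 7 (.N 6 (.N 7 (.L [(0, 57), (10, 212), (41, 212), (42, 212), (63, 425), (82, 520), (83, 1849), (84, 1), (93, 11)]) (.N 5 (.L [(0, 57), (1, 35), (10, 294), (15, 102), (40, 102), (41, 397), (42, 397), (47, 20), (63, 206), (82, 814), (83, 2774), (84, 1), (93, 32)]) (.L [(0, 86), (1, 11), (10, 317), (15, 31), (40, 31), (41, 349), (42, 349), (47, 6), (63, 316), (83, 2774), (84, 1), (93, 16)]))) (.L [(0, 21), (10, 80), (41, 80), (42, 80), (63, 192), (83, 821), (93, 5)])) (.L [(0, 11),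 (10, 32), (15, 22), (40, 22), (41, 55), (42, 55), (48, 2), (63, 31), (83, 364), (93, 1), (94, 6)]))) (.N 2 (.N 5 (.N 6 (.N 7 (.N 7 (.L [(63, 392), (82, 821), (84, 1)]) (.L [(82, 6244), (84, 1), (85, 19)])) (.L [(82, 1)])) (.N 6 (.N 7 (.N 7 (.L [(0, 5), (10, 26), (12, 27), (41, 53), (42, 53), (63, 547), (82, 353), (83, 475), (84, 1), (93, 10)]) (.N 0 (.L [(0, 62), (10, 154), (12, 62), (41, 216), (42, 216), (63, 222), (82, 773), (83, 1849), (85, 17), (93, 8)]) (.L [(0, 133), (10, 455), (15, 138), (40, 138), (41, 594), (42, 594), (48, 13), (63, 352), (82, 981), (83, 2774), (84, 1), (93, 15), (94, 35)]))) (.L [(0, 20), (10, 65), (12, 3), (41, 69), (42, 69), (63, 70), (82, 1849), (83, 585), (93, 3)])) (.L [(0, 156), (10, 344), (12, 122), (41, 466), (42, 466), (63, 930), (82, 456), (83, 4162), (84, 1)]))) (.N 4 (.N 0 (.N 6 (.N 4 (.N 7 (.N 5 (.N 0 (.L [(14, 12), (41, 12), (42, 12), (62, 123), (63, 124), (82, 177), (83, 364), (85, 8), (93, 4)])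 (.N 1 (.L [(10, 58), (15, 302), (40, 302), (41, 361), (42, 361), (62, 453), (63, 558), (82, 457), (83, 821), (85, 19), (93, 15), (94, 76)]) (.L [(10, 157), (15, 315), (40, 315), (41, 473), (42, 473), (62, 1536), (63, 1849), (82, 937), (83, 1058), (85, 23), (93, 40), (94, 79)]))) (.L [(10, 180), (41, 180), (42, 180), (62, 743), (63, 4162), (83, 1204), (86, 1), (93, 46)])) (.N 6 (.L [(38, 98), (40, 98), (62, 240), (63, 1996), (82, 6244), (83, 45), (87, 1), (95, 25)]) (.N 7 (.N 0 (.L [(12, 463), (41, 463), (62, 5701), (63, 6164), (82, 7721), (83, 9367), (87, 4), (93, 116)]) (.N 4 (.N 2 (.L [(10, 1070), (41, 1070), (42, 1070), (62, 2008), (63, 21077), (82, 9775), (83, 8205), (86, 4), (93, 268)]) (.N 5 (.N 1 (.L [(10, 219), (15, 684), (40, 684), (41, 904), (42, 904), (62, 1844), (63, 2097), (82, 2774), (83, 2287), (86, 1), (93, 55), (94, 172)]) (.L [(10, 245), (15, 617), (40, 617), (41, 862), (42, 862), (62, 2481), (63, 2774), (82, 2376), (83,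 1983), (86, 1), (93, 62), (94, 155)])) (.N 3 (.L [(63, 1)]) (.N 1 (.L [(10, 1050), (41, 1050), (62, 1993), (63, 21077), (82, 9078), (83, 8669), (86, 4), (93, 263)]) (.L [(10, 822), (41, 822), (42, 822), (62, 8382), (63, 9367), (82, 2337), (83, 2197), (86, 1), (93, 206)]))))) (.L [(10, 18), (41, 18), (42, 18), (62, 49), (63, 364), (82, 172), (83, 144), (85, 2), (93, 5)]))) (.L [(10, 6), (38, 3), (40, 3), (41, 6), (62, 21), (63, 226), (82, 242), (83, 63), (93, 2), (95, 1)])))) (.L [(10, 171), (41, 171), (42, 171), (62, 525), (63, 6244), (82, 2129), (83, 1251), (84, 1), (93, 43)])) (.N 7 (.N 7 (.L [(0, 6), (10, 9), (12, 8), (41, 18), (42, 18), (63, 38), (83, 161), (85, 2), (93, 1)]) (.L [(0, 41), (10, 89), (12, 47), (41, 137), (42, 137), (63, 130), (83, 1232), (85, 9), (93, 4)])) (.L [(0, 8), (10, 21), (12, 4), (41, 25), (42, 17), (63, 27), (83, 242), (93, 1)]))) (.N 3 (.L [(10, 45), (15, 854), (40, 854), (41, 900), (42, 900), (63, 1849),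 (93, 12), (94, 214)]) (.N 4 (.N 5 (.N 5 (.N 2 (.L [(10, 6), (15, 58), (40, 58), (41, 65), (42, 65), (46, 58), (63, 161), (93, 2), (94, 15)]) (.N 4 (.L [(10, 74), (15, 663), (40, 663), (41, 737), (42, 737), (47, 132), (63, 1232), (93, 19), (94, 166)]) (.N 6 (.L [(10, 943), (41, 943), (42, 943), (63, 14051), (82, 11586), (83, 6019), (84, 5), (93, 236)]) (.L [(10, 2122), (41, 2122), (42, 2122), (63, 31616), (83, 13544), (84, 4), (93, 531)])))) (.L [(10, 48), (15, 373), (40, 373), (41, 421), (42, 421), (46, 245), (47, 25), (63, 821), (93, 13), (94, 94)])) (.L [(10, 13), (15, 138), (40, 138), (41, 151), (42, 151), (47, 19), (63, 364), (93, 4), (94, 35)])) (.L [(8, 28), (10, 1), (41, 30), (42, 30), (63, 547), (93, 8)])))) (.L [(63, 1)]))) (.N 0 (.N 4 (.N 6 (.N 5 (.N 7 (.N 7 (.L [(82, 547), (84, 1)]) (.L [(82, 161), (85, 1)])) (.L [(82, 1)])) (.N 7 (.N 3 (.N 6 (.L [(82, 547), (86, 1)]) (.L [(10, 162), (15, 746), (40, 746), (41, 908), (42, 908),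 (62, 2774), (63, 1423), (82, 467), (83, 1275), (85, 27), (93, 41), (94, 187)])) (.L [(10, 271), (41, 271), (42, 271), (62, 1047), (63, 212), (82, 536), (83, 1849), (85, 44), (93, 68)])) (.N 6 (.L [(1, 8), (2, 46), (15, 22), (38, 179), (40, 201), (41, 22), (62, 149), (82, 9367), (87, 2), (95, 11)]) (.N 7 (.N 1 (.N 5 (.L [(10, 1557), (15, 5806), (40, 5806), (41, 7364), (42, 7364), (62, 18231), (63, 9387), (82, 21077), (83, 16725), (86, 8), (93, 390), (94, 1452)]) (.N 3 (.L [(15, 3956), (40, 3956), (41, 3956), (42, 2139), (62, 9367), (63, 8362), (82, 1992), (83, 1705), (86, 1), (94, 990)]) (.N 6 (.N 7 (.L [(10, 182), (15, 518), (40, 518), (41, 700), (62, 1637), (63, 1652), (82, 1519), (83, 1849), (87, 1), (93, 46), (94, 130)]) (.L [(10, 802), (15, 2632), (38, 26), (40, 2658), (41, 3435), (62, 7416), (63, 7439), (82, 9367), (83, 8790), (87, 4), (93, 201), (94, 659), (95, 7)])) (.L [(10, 493), (41, 493), (42, 493), (62, 1121), (63, 573), (82,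 842), (83, 4162), (86, 1), (93, 124)])))) (.L [(10, 162), (41, 162), (42, 162), (62, 4162), (63, 337), (82, 89), (83, 60), (85, 1), (93, 41)])) (.L [(10, 13), (15, 101), (38, 15), (40, 116), (41, 114), (62, 328), (63, 294), (82, 821), (83, 187), (93, 4), (94, 26), (95, 4)]))))) (.N 7 (.N 5 (.L [(0, 166), (10, 599), (41, 599), (42, 599), (53, 599), (62, 2511), (82, 1023), (83, 4162), (84, 2), (93, 26)]) (.L [(0, 4), (10, 15), (41, 15), (42, 15), (62, 68), (83, 107), (85, 1), (93, 1)])) (.L [(0, 12), (10, 42), (41, 42), (42, 13), (62, 87), (63, 11), (83, 364), (93, 2)]))) (.N 5 (.N 6 (.L [(63, 1660), (82, 4162), (84, 1)]) (.L [(0, 112), (10, 1802), (41, 1802), (42, 1802), (62, 9576), (63, 11156), (82, 13091), (83, 14051), (84, 8), (93, 367)])) (.L [(20, 109), (41, 109), (42, 109), (62, 393), (63, 1849), (94, 28)]))) (.N 0 (.N 4 (.N 1 (.N 6 (.N 5 (.N 7 (.L [(1, 22), (10, 78), (15, 287), (40, 287), (41, 366), (42, 366), (62, 53), (82, 1849),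 (83, 889), (84, 1), (93, 20), (94, 56)]) (.L [(82, 1)])) (.N 7 (.N 7 (.L [(85, 1)]) (.L [(0, 5), (1, 44), (10, 157), (15, 129), (40, 129), (41, 287), (42, 287), (82, 304), (83, 1232), (85, 32), (93, 36)])) (.N 6 (.L [(1, 33), (2, 20), (15, 98), (38, 177), (40, 275), (41, 98), (62, 112), (82, 9367), (87, 2), (95, 30)]) (.N 5 (.L [(10, 431), (15, 2279), (40, 2279), (41, 2710), (42, 2710), (62, 3418), (63, 3993), (82, 6244), (83, 4018), (86, 2), (93, 108), (94, 570)]) (.N 3 (.L [(15, 2316), (40, 2316), (41, 2316), (42, 2316), (62, 3795), (63, 4162), (82, 383), (83, 267), (94, 580)]) (.N 4 (.N 5 (.L [(10, 357), (15, 1842), (40, 1842), (41, 2200), (42, 2200), (62, 1374), (63, 2705), (82, 2774), (83, 2222), (86, 1), (93, 90), (94, 461)]) (.N 2 (.L [(10, 1356), (15, 16592), (41, 17948), (42, 17948), (62, 3378), (63, 31616), (82, 2026), (83, 1686), (86, 1), (93, 340), (94, 4149)]) (.L [(10, 536), (15, 5549), (41, 6085), (42, 6085), (62, 3195),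 (63, 9367), (82, 2755), (83, 2292), (86, 1), (93, 135), (94, 1388)]))) (.L [(10, 18), (15, 43), (41, 61), (42, 61), (62, 113), (63, 242), (82, 173), (83, 158), (85, 2), (93, 5), (94, 11)]))))))) (.N 7 (.N 5 (.L [(1, 124), (10, 381), (15, 518), (40, 518), (41, 900), (42, 900), (53, 343), (82, 1294), (83, 4162), (84, 2), (93, 96), (94, 38)]) (.L [(0, 13), (10, 42), (41, 42), (42, 42), (83, 364), (85, 3), (93, 1)])) (.L [(0, 9), (10, 27), (41, 27), (42, 4), (63, 3), (83, 242), (93, 1)]))) (.N 3 (.L [(0, 16), (10, 91), (15, 43), (40, 43), (41, 135), (42, 135), (62, 1232), (63, 118), (93, 11), (94, 11)]) (.L [(0, 15), (10, 106), (41, 106), (42, 107), (62, 53), (63, 75), (93, 16)]))) (.N 5 (.N 6 (.L [(10, 82), (41, 82), (42, 82), (62, 221), (63, 1687), (82, 2774), (83, 563), (84, 1), (93, 21)]) (.L [(0, 234), (10, 1880), (41, 1880), (42, 1880), (62, 5896), (63, 9545), (82, 14051), (83, 13620), (84, 8), (93, 295)])) (.L [(20, 67), (41, 67), (42,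 67), (62, 153), (63, 1232), (94, 17)]))) (.L [(0, 4), (1, 10), (10, 41), (15, 29), (40, 29), (41, 70), (42, 71), (47, 5), (63, 40), (93, 8)])))))) (.N 2 (.N 4 (.L [(15, 135), (16, 116), (39, 108), (41, 251), (42, 231), (51, 25), (62, 547), (94, 63)]) (.N 3 (.N 3 (.L [(1, 174), (15, 820), (38, 7), (39, 91), (41, 820), (42, 821), (59, 3), (62, 769), (94, 76)]) (.N 0 (.N 1 (.N 2 (.N 6 (.N 2 (.N 0 (.L [(0, 2), (3, 12), (41, 12), (42, 12), (62, 161), (63, 6), (93, 2)]) (.N 0 (.L [(0, 11), (3, 61), (41, 61), (42, 61), (62, 821), (63, 30), (93, 8)]) (.N 5 (.N 7 (.L [(62, 989), (82, 1232), (83, 554), (84, 1)]) (.L [(82, 10), (83, 1)])) (.N 7 (.L [(62, 1232), (63, 22), (82, 176), (83, 690), (84, 1)]) (.L [(15, 10425), (41, 10425), (42, 10425), (62, 21077), (63, 18326), (82, 12387), (83, 5785), (84, 4), (94, 2607)]))))) (.L [(0, 80), (3, 464), (41, 464), (42, 464), (62, 6244), (63, 195), (93, 57)])) (.L [(62, 6244), (63, 789), (82, 1062), (83, 4151),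 (84, 1)])) (.L [(0, 8), (3, 40), (41, 40), (42, 40), (62, 547), (63, 14), (93, 5)])) (.L [(62, 1)])) (.N 0 (.N 1 (.N 5 (.N 6 (.N 7 (.L [(1, 108), (10, 358), (15, 523), (41, 881), (42, 881), (62, 928), (82, 6244), (83, 2755), (84, 4), (93, 90), (94, 50)]) (.L [(82, 1)])) (.N 7 (.L [(0, 38), (1, 34), (10, 226), (15, 100), (41, 326), (42, 326), (53, 326), (62, 458), (82, 697), (83, 1849), (84, 1), (93, 29)]) (.L [(83, 1)]))) (.N 4 (.N 6 (.N 7 (.L [(10, 13), (15, 295), (41, 308), (42, 308), (62, 50), (63, 312), (82, 249), (83, 547), (84, 1), (93, 4), (94, 74)]) (.L [(15, 122), (41, 122), (42, 122), (62, 242), (63, 175), (82, 126), (83, 63), (85, 1), (94, 31)])) (.L [(10, 361), (15, 1543), (41, 1904), (42, 1904), (62, 4038), (63, 1530), (83, 4162), (84, 1), (93, 91), (94, 386)])) (.L [(3, 7), (16, 98), (41, 106), (42, 106), (62, 314), (63, 821), (93, 2), (94, 25)]))) (.L [(0, 22), (10, 131), (41, 131), (42, 131), (62, 1849), (63, 64), (93, 17)]))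 (.L [(0, 64), (8, 188), (10, 29), (15, 146), (41, 364), (42, 363), (46, 146), (63, 101), (93, 7), (94, 37)])))) (.N 1 (.N 0 (.N 6 (.N 0 (.L [(3, 38), (41, 38), (42, 38), (62, 547), (63, 81), (74, 2), (82, 50), (83, 65), (93, 10)]) (.N 4 (.N 5 (.L [(16, 586), (41, 586), (42, 586), (53, 586), (62, 2378), (82, 2774), (83, 1332), (84, 1), (94, 147)]) (.N 7 (.L [(16, 3), (41, 3), (42, 3), (53, 3), (62, 18), (82, 19), (83, 71), (85, 2), (94, 1)]) (.N 6 (.L [(15, 89), (38, 76), (41, 89), (51, 8), (62, 307), (82, 4162), (83, 113), (87, 1), (94, 23), (95, 20)]) (.L [(16, 730), (36, 65), (38, 17), (41, 730), (42, 730), (62, 4162), (82, 3833), (83, 3101), (86, 1), (94, 183), (95, 21)])))) (.N 5 (.L [(22, 81), (41, 81), (42, 81), (62, 309), (63, 1446), (82, 2774), (83, 598), (84, 1), (94, 21)]) (.L [(20, 800), (41, 800), (42, 800), (62, 2622), (63, 9367), (82, 3997), (83, 1878), (84, 2), (94, 201)])))) (.L [(82, 9042), (83, 47425), (84, 14)])) (.N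 0 (.N 6 (.N 4 (.N 4 (.L [(15, 165), (16, 45), (41, 211), (42, 211), (52, 16), (62, 242), (94, 53)]) (.N 5 (.L [(10, 292), (41, 292), (42, 292), (62, 65), (63, 324), (82, 6244), (83, 2360), (84, 2), (93, 74)]) (.N 7 (.L [(10, 66), (41, 66), (42, 66), (63, 55), (82, 165), (83, 547), (84, 1), (93, 17)]) (.L [(15, 478), (16, 1709), (41, 2188), (42, 2188), (62, 3909), (63, 4162), (82, 2885), (83, 1348), (84, 1), (94, 548)])))) (.N 5 (.L [(10, 44), (20, 211), (41, 256), (42, 256), (62, 454), (63, 2349), (82, 4162), (83, 515), (84, 1), (93, 12), (94, 53)]) (.L [(8, 449), (18, 894), (41, 1343), (42, 1343), (62, 3821), (63, 9367), (82, 4076), (83, 1781), (84, 2), (93, 113), (94, 224)]))) (.N 7 (.N 5 (.L [(10, 274), (41, 274), (42, 274), (53, 274), (62, 173), (82, 1596), (83, 2774), (84, 2), (93, 69)]) (.L [(10, 178), (41, 178), (42, 178), (62, 53), (63, 220), (82, 310), (83, 1849), (84, 1), (93, 45)])) (.L [(83, 1)]))) (.L [(0, 8), (8, 44), (10,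 2), (41, 47), (42, 46), (63, 20), (93, 6)]))) (.N 2 (.N 1 (.N 1 (.N 0 (.N 5 (.N 6 (.N 7 (.L [(10, 47), (41, 47), (42, 47), (53, 33), (62, 759), (82, 1232), (83, 593), (84, 1), (93, 12)]) (.L [(82, 10), (83, 1)])) (.L [(62, 6244), (82, 1291), (83, 3079), (84, 1)])) (.L [(20, 138), (41, 138), (42, 138), (62, 1849), (63, 324), (94, 35)])) (.N 0 (.N 0 (.N 4 (.L [(8, 22), (10, 65), (41, 87), (42, 87), (53, 23), (62, 1232), (93, 22)]) (.N 5 (.N 6 (.L [(10, 60), (20, 119), (22, 9), (41, 189), (42, 189), (62, 470), (63, 1767), (82, 2774), (83, 500), (84, 1), (93, 16), (94, 33)]) (.L [(0, 27), (10, 225), (41, 225), (42, 225), (62, 651), (63, 812), (82, 1802), (83, 1849), (84, 1), (93, 37)])) (.L [(8, 35), (41, 35), (42, 35), (62, 364), (63, 163), (93, 9)]))) (.L [(0, 94), (10, 545), (41, 545), (42, 545), (62, 2774), (63, 233), (93, 67)])) (.L [(0, 6), (10, 30), (41, 30), (42, 31), (63, 13), (93, 4)]))) (.L [(0, 6), (10, 173), (30, 37), (41, 173),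 (42, 173), (59, 13), (62, 2774), (63, 202), (93, 40)])) (.L [(0, 2), (10, 8), (41, 8), (42, 8), (62, 121), (63, 4), (93, 1)])) (.L [(0, 34), (1, 33), (10, 263), (22, 97), (41, 360), (42, 360), (62, 4162), (63, 113), (93, 41)]))))) (.L [(1, 75), (3, 6), (18, 184), (20, 218), (34, 4), (41, 408), (42, 408), (59, 2), (62, 547), (93, 2), (94, 45)]))) (.N 0 (.N 1 (.N 6 (.N 7 (.N 7 (.L [(27, 2), (82, 364), (83, 6), (84, 1), (94, 1), (95, 1)]) (.N 1 (.L [(3, 154), (34, 30), (39, 30), (41, 154), (42, 154), (46, 30), (63, 33), (74, 11), (82, 150), (83, 364), (93, 39), (95, 8)]) (.N 4 (.N 5 (.L [(4, 123), (6, 15), (15, 323), (40, 323), (41, 463), (42, 463), (46, 323), (53, 463), (82, 1849), (83, 1325), (86, 1), (93, 35), (94, 81)]) (.L [(8, 74), (15, 145), (40, 145), (41, 219), (42, 219), (46, 145), (53, 71), (83, 821), (86, 1), (93, 19), (94, 37)])) (.N 5 (.L [(82, 1232), (83, 535), (84, 1)]) (.L [(34, 2), (82, 222), (83, 821), (84, 1), (95, 1)])))))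 (.N 1 (.L [(3, 517), (34, 110), (39, 110), (40, 110), (41, 517), (42, 517), (46, 110), (63, 9), (73, 8), (74, 15), (82, 632), (83, 1232), (93, 130), (95, 28)]) (.N 4 (.N 6 (.N 5 (.L [(15, 3), (40, 3), (41, 3), (46, 3), (53, 3), (82, 31), (83, 9), (94, 1)]) (.N 4 (.L [(15, 187), (33, 80), (35, 106), (40, 374), (41, 187), (53, 187), (82, 1232), (83, 693), (94, 47), (95, 47)]) (.L [(6, 164), (15, 2359), (38, 248), (40, 2607), (41, 2523), (46, 2607), (52, 504), (82, 14051), (83, 6919), (87, 2), (88, 2), (93, 42), (94, 590), (95, 63)]))) (.L [(6, 391), (15, 1635), (40, 1635), (41, 2027), (46, 1635), (52, 235), (82, 5841), (83, 6244), (87, 2), (93, 98), (94, 409)])) (.N 6 (.L [(36, 30), (38, 72), (46, 93), (82, 6244), (83, 241), (86, 1), (95, 26)]) (.N 5 (.L [(82, 20), (83, 3)]) (.L [(8, 1591), (36, 119), (38, 146), (40, 266), (41, 1591), (42, 1591), (46, 266), (63, 1058), (82, 14051), (83, 11048), (86, 5), (93, 398), (95, 67)])))))) (.N 7 (.L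 [(8, 186), (20, 9), (27, 306), (41, 195), (42, 195), (53, 195), (83, 9367), (84, 4), (93, 47), (94, 3), (95, 77)]) (.L [(83, 1)]))) (.N 2 (.N 6 (.N 7 (.N 7 (.L [(27, 2), (62, 6), (82, 364), (83, 2), (84, 1), (95, 1)]) (.N 4 (.N 5 (.N 6 (.L [(29, 154), (40, 132), (62, 274), (82, 1232), (83, 137), (89, 1), (95, 39)]) (.L [(10, 74), (12, 245), (15, 607), (40, 607), (41, 926), (53, 926), (82, 4162), (83, 3914), (87, 2), (93, 80), (94, 152)])) (.L [(10, 295), (12, 164), (15, 124), (40, 124), (41, 584), (53, 584), (83, 4162), (87, 4), (93, 115), (94, 32)])) (.N 5 (.L [(10, 44), (12, 19), (41, 63), (42, 63), (63, 6), (82, 1232), (83, 546), (84, 1), (93, 16)]) (.L [(10, 102), (12, 3), (41, 106), (42, 106), (62, 254), (63, 293), (82, 299), (83, 821), (84, 1), (93, 27)])))) (.N 4 (.N 4 (.L [(33, 15), (39, 15), (40, 15), (62, 31), (95, 4)]) (.N 5 (.L [(10, 127), (12, 120), (15, 541), (40, 541), (41, 789), (53, 789), (82, 6244), (83, 3117), (87, 1),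 (93, 62), (94, 136)]) (.N 7 (.N 6 (.N 5 (.L [(35, 105), (40, 105), (62, 174), (82, 4162), (83, 101), (89, 1), (95, 27)]) (.L [(35, 15), (37, 179), (40, 195), (62, 323), (82, 4162), (83, 187), (88, 1), (95, 49)])) (.N 6 (.N 7 (.L [(10, 764), (12, 258), (35, 88), (40, 88), (41, 1022), (53, 1022), (82, 6083), (83, 9367), (88, 4), (93, 256), (95, 23)]) (.N 5 (.L [(10, 4), (12, 2), (35, 5), (40, 5), (41, 7), (53, 7), (82, 242), (83, 75), (93, 2), (95, 2)]) (.L [(10, 473), (12, 143), (35, 1), (37, 206), (40, 207), (41, 617), (82, 6244), (83, 5989), (88, 2), (93, 155), (95, 52)]))) (.L [(10, 322), (12, 112), (41, 434), (42, 434), (82, 605), (83, 4162), (86, 1), (93, 109)]))) (.L [(10, 12), (12, 5), (37, 21), (38, 9), (40, 31), (41, 18), (52, 2), (82, 821), (83, 222), (93, 5), (95, 8)])))) (.N 6 (.L [(38, 290), (62, 582), (63, 831), (82, 21077), (83, 222), (86, 4), (95, 73)]) (.N 5 (.L [(10, 1), (41, 1), (42, 1), (82, 107), (83, 18), (93, 1)])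 (.N 6 (.N 7 (.L [(10, 990), (38, 31), (40, 31), (41, 990), (62, 1927), (63, 3212), (82, 9367), (83, 8289), (87, 4), (93, 248), (95, 8)]) (.L [(10, 1), (12, 1), (38, 6), (40, 2), (41, 2), (82, 242), (83, 31), (93, 1), (95, 2)])) (.L [(10, 61), (41, 61), (42, 61), (62, 109), (63, 127), (82, 182), (83, 547), (85, 4), (93, 16)])))))) (.N 7 (.N 4 (.L [(10, 7), (12, 14), (27, 3), (41, 22), (42, 22), (53, 22), (62, 2), (83, 242), (85, 2), (93, 6), (95, 1)]) (.N 5 (.N 6 (.L [(10, 75), (12, 54), (41, 129), (42, 129), (62, 145), (63, 43), (82, 706), (83, 1232), (84, 1), (93, 33)]) (.L [(0, 41), (10, 84), (12, 102), (41, 187), (42, 187), (63, 78), (82, 44), (83, 1849), (84, 1), (93, 17)])) (.L [(10, 137), (12, 60), (41, 197), (42, 197), (62, 525), (63, 604), (83, 1849), (84, 1), (93, 50)]))) (.L [(10, 20), (12, 11), (34, 1), (41, 32), (42, 32), (63, 29), (82, 44), (83, 364), (93, 9), (95, 1)]))) (.N 1 (.N 3 (.N 3 (.N 3 (.N 1 (.N 1 (.N 4 (.L [(18,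 7), (41, 7), (42, 1), (53, 7), (62, 31), (94, 2)]) (.N 5 (.N 6 (.N 7 (.L [(10, 52), (41, 52), (42, 52), (53, 21), (62, 555), (82, 1232), (83, 590), (84, 1), (93, 14)]) (.L [(16, 3), (41, 3), (42, 3), (53, 3), (82, 71), (83, 7), (94, 1)])) (.L [(10, 215), (41, 215), (42, 215), (62, 2206), (82, 1340), (83, 2774), (84, 1), (93, 54)])) (.L [(20, 432), (41, 432), (42, 432), (62, 1849), (63, 945), (94, 109)]))) (.L [(10, 168), (22, 20), (30, 45), (32, 111), (41, 188), (42, 188), (62, 4162), (93, 43), (94, 6), (95, 40)])) (.L [(62, 1)])) (.L [(22, 146), (30, 37), (32, 94), (41, 146), (42, 146), (62, 1232), (94, 37), (95, 34)])) (.L [(22, 11), (30, 3), (32, 8), (41, 11), (42, 11), (62, 107), (94, 3), (95, 3)])) (.L [(22, 14), (32, 14), (39, 29), (41, 14), (42, 14), (55, 1), (62, 107), (94, 4), (95, 4)])) (.L [(10, 20), (22, 2), (30, 5), (32, 13), (41, 23), (42, 23), (62, 547), (93, 6), (94, 1), (95, 5)])))) (.N 4 (.L [(8, 19), (41, 20), (53, 9),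 (93, 5)]) (.N 3 (.N 0 (.N 3 (.N 0 (.N 2 (.N 5 (.N 0 (.N 6 (.N 7 (.L [(10, 83), (41, 83), (42, 83), (63, 58), (82, 1232), (83, 532), (84, 1), (93, 21)]) (.L [(10, 1), (41, 1), (42, 1), (82, 107), (83, 9), (93, 1)])) (.N 7 (.L [(10, 463), (41, 463), (42, 463), (63, 393), (82, 1533), (83, 2774), (84, 2), (93, 116)]) (.L [(10, 3), (41, 3), (42, 3), (82, 13), (83, 31), (93, 1)]))) (.L [(8, 462), (10, 136), (30, 410), (32, 5), (41, 598), (42, 598), (46, 415), (63, 1232), (93, 150), (95, 104)])) (.N 4 (.L [(8, 50), (10, 5), (41, 55), (42, 55), (63, 107), (93, 14)]) (.L [(8, 108), (10, 12), (41, 120), (42, 120), (63, 364), (93, 31)]))) (.N 4 (.L [(10, 7), (20, 63), (41, 71), (42, 70), (53, 19), (93, 2), (94, 16)]) (.N 5 (.N 6 (.L [(10, 16), (22, 141), (41, 157), (42, 157), (63, 1786), (82, 4162), (84, 1), (93, 5), (94, 36)]) (.N 7 (.L [(10, 165), (41, 165), (42, 165), (62, 467), (63, 296), (82, 827), (83, 1232), (84, 1), (93, 42)]) (.L [(10, 1),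 (41, 2), (42, 2), (82, 71), (83, 24), (93, 1)]))) (.L [(10, 15), (20, 135), (41, 151), (42, 151), (63, 364), (93, 4), (94, 34)])))) (.L [(8, 169), (10, 72), (32, 107), (34, 19), (41, 242), (42, 241), (46, 127), (93, 61), (95, 32)])) (.L [(8, 171), (10, 16), (22, 54), (32, 131), (34, 19), (41, 242), (42, 241), (46, 205), (93, 47), (94, 14), (95, 38)])) (.L [(8, 14), (10, 5), (32, 8), (34, 1), (41, 20), (42, 19), (46, 10), (93, 5), (95, 3)])) (.L [(8, 13), (10, 1), (22, 5), (32, 13), (34, 1), (41, 19), (42, 20), (46, 19), (93, 4), (94, 2), (95, 4)]))))))) (.L [(10, 1), (12, 20), (57, 8), (83, 364)])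

theorem ok_B1 : tree_B1.check 1024 rows_B1 box0 = true := by decide +kernel

end Pool.Agent.H30.Q
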