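import Pool.Agent.H30.P6.BBase

/-! certificate B3 (generated, 35 leaves) -/

set_option autoImplicit false
set_option maxRecDepth 100000

namespace Pool.Agent.H30.Q

def rows_B3 : List Row := cB ++ [
  ⟨0, 0, -8830, -10000, 0, 0, 0, 0, 0, 0, 0, 22053, -17830, 0, 0, -22053, -17830, 0, 0, 0, 0, 0, 0, 0, 0, 0, 0, 0, 6006⟩]

def tree_B3 : Tree := .N 6 (.N 1 (.L [(2, 62), (34, 8), (36, 175), (39, 183), (73, 6), (83, 821), (85, 4), (93, 1)]) (.N 0 (.N 6 (.N 0 (.L [(13, 7), (57, 3), (74, 2), (83, 107)]) (.N 1 (.L [(2, 875), (34, 1542), (36, 1081), (39, 2623), (73, 256), (83, 47425), (85, 346), (93, 14)]) (.N 5 (.L [(0, 47), (2, 7), (14, 140), (34, 19), (39, 19), (42, 140), (82, 930), (83, 1232), (84, 1), (93, 1)]) (.N 7 (.L [(0, 149), (14, 446), (42, 446), (83, 9367), (86, 8), (93, 1)]) (.N 4 (.L [(0, 61), (2, 61), (14, 1524), (38, 767), (40, 182), (53, 182), (57, 448), (59, 195), (82, 10200), (83, 14051), (89, 5), (93, 6)]) (.L [(0, 479),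 (14, 6904), (42, 1436), (57, 1823), (82, 240095), (83, 218096), (87, 98), (93, 2)])))))) (.L [(0, 366), (14, 1096), (42, 1096), (83, 31616), (84, 8), (93, 1)])) (.N 1 (.L [(2, 112), (34, 93), (36, 242), (93, 1)]) (.N 4 (.L [(0, 36), (2, 32), (14, 107), (38, 95), (93, 1)]) (.N 5 (.L [(0, 21), (14, 62), (34, 161), (42, 62), (59, 54), (93, 1)]) (.N 0 (.N 4 (.N 5 (.L [(0, 36), (14, 107), (42, 106), (93, 1)]) (.N 6 (.N 7 (.L [(0, 269), (2, 97), (12, 806), (36, 290), (41, 290), (42, 806), (46, 290), (83, 6244), (85, 120), (93, 1)]) (.N 6 (.L [(14, 140), (38, 560), (57, 47), (59, 187), (82, 21077), (83, 1234), (87, 5), (93, 1)]) (.N 4 (.L [(0, 375), (2, 287), (14, 1122), (38, 858), (41, 858), (42, 1122), (46, 858), (82, 7159), (83, 9367), (85, 110), (93, 5)]) (.N 7 (.N 0 (.L [(0, 46), (2, 9), (14, 136), (38, 26), (41, 26), (42, 136), (46, 26), (82, 2902), (83, 4162), (86, 2)]) (.N 0 (.N 1 (.L [(36, 302), (59, 101), (82, 789), (83, 1232),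 (85, 14), (93, 1)]) (.N 1 (.L [(2, 965), (36, 2879), (38, 13), (82, 8531), (83, 14051), (85, 184), (93, 8)]) (.N 5 (.L [(0, 261), (12, 780), (42, 780), (82, 4503), (83, 6244), (84, 4), (93, 1)]) (.N 2 (.L [(63, 1)]) (.N 5 (.L [(0, 569), (1, 17), (12, 1593), (14, 112), (26, 49), (41, 1754), (42, 1754), (46, 49), (63, 1623), (82, 8942), (83, 14051), (84, 8), (93, 3)]) (.N 7 (.L [(0, 258), (1, 6), (2, 62), (12, 773), (26, 16), (36, 183), (41, 789), (42, 789), (46, 199), (63, 562), (83, 6244), (85, 94), (93, 1)]) (.N 6 (.L [(0, 452), (1, 7), (2, 235), (12, 1355), (26, 18), (38, 703), (41, 1374), (42, 1374), (46, 721), (63, 621), (82, 14051), (83, 11001), (85, 181), (93, 2)]) (.L [(0, 246), (1, 5), (2, 98), (12, 737), (26, 12), (36, 41), (38, 250), (41, 749), (42, 749), (46, 304), (63, 424), (82, 4222), (83, 6244), (85, 76), (93, 1)])))))))) (.L [(0, 96), (2, 134), (12, 286), (34, 37), (36, 364), (41, 286), (42, 286), (46, 286), (93,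 1)]))) (.L [(0, 2), (12, 5), (42, 5), (82, 242), (83, 48)]))))) (.N 7 (.L [(0, 335), (2, 81), (12, 1004), (36, 227), (38, 15), (41, 242), (42, 1004), (46, 242), (83, 9367), (85, 92), (93, 1)]) (.L [(0, 202), (2, 85), (12, 605), (36, 254), (41, 254), (42, 605), (46, 254), (83, 6244), (93, 1)])))) (.N 6 (.N 7 (.L [(0, 177), (2, 154), (12, 529), (34, 461), (41, 461), (42, 529), (46, 461), (83, 4162), (84, 4), (93, 1)]) (.N 5 (.L [(0, 3), (2, 2), (14, 7), (34, 4), (41, 4), (42, 7), (46, 4), (82, 1849), (83, 67)]) (.N 6 (.L [(2, 2), (36, 4), (82, 107), (85, 1)]) (.L [(0, 459), (2, 459), (14, 1375), (34, 7830), (41, 1375), (42, 1375), (46, 1375), (59, 2152), (82, 14051), (83, 12529), (84, 8), (93, 7)])))) (.L [(0, 472), (2, 472), (12, 1329), (14, 84), (34, 1413), (41, 1413), (42, 1413), (46, 1413), (83, 14051), (84, 5), (93, 2)]))) (.L [(0, 183), (2, 107), (10, 547), (34, 34), (36, 283), (41, 318), (42, 546), (46, 318), (93, 1)])))))))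 (.L [(10, 1), (12, 20), (57, 8), (83, 364)])

theorem ok_B3 : tree_B3.check 1024 rows_B3 box0 = true := by decide +kernel

end Pool.Agent.H30.Q
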