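import Pool.Agent.H30.P6.BTB0
import Pool.Agent.H30.P6.BTB1
import Pool.Agent.H30.P6.BTB2
import Pool.Agent.H30.P6.BTB2p
import Pool.Agent.H30.P6.BTB3

/-! results of the certificates of class B, scaled coordinates (generated) -/

set_option autoImplicit false

noncomputable section

namespace Pool.Agent.H30.Q

open Pool.Agent.H30.P6 (VLe Str)

theorem B0s {X1 Y1 X2 Y2 X3 Y3 a b V1 V2 V3 p q r s h k : ℝ}
    (c : BCfg X1 Y1 X2 Y2 X3 Y3 a b V1 V2 V3 p q r s h k)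
    (hd : ∀ m : ℝ, 0 < m → 433 / 250 * m * ((-1 + X3) * (b - 1 / 10) - (1 + Y3 - 1 / 10) * a) ≤ (1 / 2) * (3 * (-1 + X3) ^ 2 + (1 + Y3 - 1 / 10) ^ 2 + m ^ 2)) : False := by
  have hH : Hyp rows_B0 (BCfg.pt X1 Y1 X2 Y2 X3 Y3 a b V1 V2 V3 p q r s h k) := by
    refine c.hyp ?_
    intro R hR
    simp only [List.mem_cons, List.not_mem_nil, or_false] at hR
    rcases hR with rfl | rfl | rfl | rfl | rfl | rfl | rfl | rfl
    · simp only [Row.ev, BCfg.pt]; push_cast; linarith [hd (87 / 50) (by norm_num)]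
    · simp only [Row.ev, BCfg.pt]; push_cast; linarith [hd (91 / 50) (by norm_num)]
    · simp only [Row.ev, BCfg.pt]; push_cast; linarith [hd (19 / 10) (by norm_num)]
    · simp only [Row.ev, BCfg.pt]; push_cast; linarith [hd (99 / 50) (by norm_num)]
    · simp only [Row.ev, BCfg.pt]; push_cast; linarith [hd (103 / 50) (by norm_num)]
    · simp only [Row.ev, BCfg.pt]; push_cast; linarith [hd (107 / 50) (by norm_num)]
    · simp only [Row.ev, BCfg.pt]; push_cast; linarith [hd (111 / 50) (by norm_num)]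
    · simp only [Row.ev, BCfg.pt]; push_cast; linarith [hd (23 / 10) (by norm_num)]
  refine tree_sound (D := 1024) hH tree_B0 box0 ok_B0 ?_
  simpa only [BCfg.pt, Int.cast_ofNat] using c.inbox

theorem B1s {X1 Y1 X2 Y2 X3 Y3 a b V1 V2 V3 p q r s h k : ℝ}
    (c : BCfg X1 Y1 X2 Y2 X3 Y3 a b V1 V2 V3 p q r s h k)
    (o1 : (((1 + X1) * (2 + Y2) - (1 + Y1) * X2 + (X2 * (1 + Y3) - (2 + Y2) * (-1 + X3)) - (2 + X1 - X3) / 10) / 4 - 1) + (V1 + r + s + k) ≤ (9 / 200))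
    (o2 : (((1 + X1) * (2 + Y2) - (1 + Y1) * X2 + (X2 * (1 + Y3) - (2 + Y2) * (-1 + X3)) - (2 + X1 - X3) / 10) / 4 - 1) + (V2 + p + q + r + s + h + k) ≤ (9 / 200))
    (o3 : (((1 + X1) * (2 + Y2) - (1 + Y1) * X2 + (X2 * (1 + Y3) - (2 + Y2) * (-1 + X3)) - (2 + X1 - X3) / 10) / 4 - 1) + (V3 + p + q + h) ≤ (9 / 200)) : False := by
  have hH : Hyp rows_B1 (BCfg.pt X1 Y1 X2 Y2 X3 Y3 a b V1 V2 V3 p q r s h k) := by
    refine c.hyp ?_
    intro R hR
    simp only [List.mem_cons, List.not_mem_nil, or_false] at hR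
    rcases hR with rfl | rfl | rfl
    · simp only [Row.ev, BCfg.pt]; push_cast; linarith [o1]
    · simp only [Row.ev, BCfg.pt]; push_cast; linarith [o2]
    · simp only [Row.ev, BCfg.pt]; push_cast; linarith [o3]
  refine tree_sound (D := 1024) hH tree_B1 box0 ok_B1 ?_
  simpa only [BCfg.pt, Int.cast_ofNat] using c.inbox

theorem B2s {X1 Y1 X2 Y2 X3 Y3 a b V1 V2 V3 p q r s h k : ℝ}
    (c : BCfg X1 Y1 X2 Y2 X3 Y3 a b V1 V2 V3 p q r s h k)
    (hd : ∀ m : ℝ, 0 < m → 433 / 250 * m * ((-1 + X3) * (b - 1 / 10) - (1 + Y3 - 1 / 10) * a) ≤ (27 / 50) * (3 * (-1 + X3) ^ 2 + (1 + Y3 - 1 / 10) ^ 2 + m ^ 2))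
    (o1 : (((1 + X1) * (2 + Y2) - (1 + Y1) * X2 + (X2 * (1 + Y3) - (2 + Y2) * (-1 + X3)) - (2 + X1 - X3) / 10) / 4 - 1) + (V1 + r + s + k) ≤ (2 / 25))
    (o2 : (((1 + X1) * (2 + Y2) - (1 + Y1) * X2 + (X2 * (1 + Y3) - (2 + Y2) * (-1 + X3)) - (2 + X1 - X3) / 10) / 4 - 1) + (V2 + p + q + r + s + h + k) ≤ (2 / 25))
    (o3 : (((1 + X1) * (2 + Y2) - (1 + Y1) * X2 + (X2 * (1 + Y3) - (2 + Y2) * (-1 + X3)) - (2 + X1 - X3) / 10) / 4 - 1) + (V3 + p + q + h) ≤ (2 / 25)) : False := by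
  have hH : Hyp rows_B2 (BCfg.pt X1 Y1 X2 Y2 X3 Y3 a b V1 V2 V3 p q r s h k) := by
    refine c.hyp ?_
    intro R hR
    simp only [List.mem_cons, List.not_mem_nil, or_false] at hR
    rcases hR with rfl | rfl | rfl | rfl | rfl | rfl | rfl | rfl | rfl | rfl | rfl
    · simp only [Row.ev, BCfg.pt]; push_cast; linarith [hd (87 / 50) (by norm_num)]
    · simp only [Row.ev, BCfg.pt]; push_cast; linarith [hd (91 / 50) (by norm_num)]
    · simp only [Row.ev, BCfg.pt]; push_cast; linarith [hd (19 / 10) (by norm_num)]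
    · simp only [Row.ev, BCfg.pt]; push_cast; linarith [hd (99 / 50) (by norm_num)]
    · simp only [Row.ev, BCfg.pt]; push_cast; linarith [hd (103 / 50) (by norm_num)]
    · simp only [Row.ev, BCfg.pt]; push_cast; linarith [hd (107 / 50) (by norm_num)]
    · simp only [Row.ev, BCfg.pt]; push_cast; linarith [hd (111 / 50) (by norm_num)]
    · simp only [Row.ev, BCfg.pt]; push_cast; linarith [hd (23 / 10) (by norm_num)]
    · simp only [Row.ev, BCfg.pt]; push_cast; linarith [o1]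
    · simp only [Row.ev, BCfg.pt]; push_cast; linarith [o2]
    · simp only [Row.ev, BCfg.pt]; push_cast; linarith [o3]
  refine tree_sound (D := 1024) hH tree_B2 box0 ok_B2 ?_
  simpa only [BCfg.pt, Int.cast_ofNat] using c.inbox

theorem B2ps {X1 Y1 X2 Y2 X3 Y3 a b V1 V2 V3 p q r s h k : ℝ}
    (c : BCfg X1 Y1 X2 Y2 X3 Y3 a b V1 V2 V3 p q r s h k)
    (hd : ∀ m : ℝ, 0 < m → 433 / 250 * m * ((-1 + X3) * (b - 1 / 10) - (1 + Y3 - 1 / 10) * a) ≤ (13 / 25) * (3 * (-1 + X3) ^ 2 + (1 + Y3 - 1 / 10) ^ 2 + m ^ 2))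
    (o1 : (((1 + X1) * (2 + Y2) - (1 + Y1) * X2 + (X2 * (1 + Y3) - (2 + Y2) * (-1 + X3)) - (2 + X1 - X3) / 10) / 4 - 1) + (V1 + r + s + k) ≤ (3 / 25))
    (o2 : (((1 + X1) * (2 + Y2) - (1 + Y1) * X2 + (X2 * (1 + Y3) - (2 + Y2) * (-1 + X3)) - (2 + X1 - X3) / 10) / 4 - 1) + (V2 + p + q + r + s + h + k) ≤ (3 / 25))
    (o3 : (((1 + X1) * (2 + Y2) - (1 + Y1) * X2 + (X2 * (1 + Y3) - (2 + Y2) * (-1 + X3)) - (2 + X1 - X3) / 10) / 4 - 1) + (V3 + p + q + h) ≤ (3 / 25)) : False := by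
  have hH : Hyp rows_B2p (BCfg.pt X1 Y1 X2 Y2 X3 Y3 a b V1 V2 V3 p q r s h k) := by
    refine c.hyp ?_
    intro R hR
    simp only [List.mem_cons, List.not_mem_nil, or_false] at hR
    rcases hR with rfl | rfl | rfl | rfl | rfl | rfl | rfl | rfl | rfl | rfl | rfl
    · simp only [Row.ev, BCfg.pt]; push_cast; linarith [hd (87 / 50) (by norm_num)]
    · simp only [Row.ev, BCfg.pt]; push_cast; linarith [hd (91 / 50) (by norm_num)]
    · simp only [Row.ev, BCfg.pt]; push_cast; linarith [hd (19 / 10) (by norm_num)]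
    · simp only [Row.ev, BCfg.pt]; push_cast; linarith [hd (99 / 50) (by norm_num)]
    · simp only [Row.ev, BCfg.pt]; push_cast; linarith [hd (103 / 50) (by norm_num)]
    · simp only [Row.ev, BCfg.pt]; push_cast; linarith [hd (107 / 50) (by norm_num)]
    · simp only [Row.ev, BCfg.pt]; push_cast; linarith [hd (111 / 50) (by norm_num)]
    · simp only [Row.ev, BCfg.pt]; push_cast; linarith [hd (23 / 10) (by norm_num)]
    · simp only [Row.ev, BCfg.pt]; push_cast; linarith [o1]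
    · simp only [Row.ev, BCfg.pt]; push_cast; linarith [o2]
    · simp only [Row.ev, BCfg.pt]; push_cast; linarith [o3]
  refine tree_sound (D := 1024) hH tree_B2p box0 ok_B2p ?_
  simpa only [BCfg.pt, Int.cast_ofNat] using c.inbox

theorem B3s {X1 Y1 X2 Y2 X3 Y3 a b V1 V2 V3 p q r s h k : ℝ}
    (c : BCfg X1 Y1 X2 Y2 X3 Y3 a b V1 V2 V3 p q r s h k)
    (ht : 0 ≤ 3 * (1 + X1) * (-1 + X3) + (1 + Y1 - 1 / 10) * (1 + Y3 - 1 / 10)
      + 883 / 1000 * ((1 + X1) * (1 + Y3 - 1 / 10) - (1 + Y1 - 1 / 10) * (-1 + X3))) : False := by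
  have hH : Hyp rows_B3 (BCfg.pt X1 Y1 X2 Y2 X3 Y3 a b V1 V2 V3 p q r s h k) := by
    refine c.hyp ?_
    intro R hR
    simp only [List.mem_cons, List.not_mem_nil, or_false] at hR
    subst hR
    · simp only [Row.ev, BCfg.pt]; push_cast; linarith [ht]
  refine tree_sound (D := 1024) hH tree_B3 box0 ok_B3 ?_
  simpa only [BCfg.pt, Int.cast_ofNat] using c.inbox

end Pool.Agent.H30.Q
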