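import Pool.Agent.H30.P6.BChk

/-!
# Soundness of the checker for virtual fans
-/

set_option autoImplicit false

namespace Pool.Agent.H30.Q

/-- values of the unknowns -/
structure Pt where
  X1 : ℝ
  Y1 : ℝ
  X2 : ℝ
  Y2 : ℝ
  X3 : ℝ
  Y3 : ℝ
  a : ℝ
  b : ℝ
  V1 : ℝ
  V2 : ℝ
  V3 : ℝ
  p : ℝ
  q : ℝ
  r : ℝ
  s : ℝ
  h : ℝ
  k : ℝ

/-- value of a row -/
def Row.ev (r : Row) (z : Pt) : ℝ :=
  r.q12 * (z.X1 * z.Y2 - z.Y1 * z.X2) + r.q23 * (z.X2 * z.Y3 - z.Y2 * z.X3) + r.q13 * (z.X1 * z.Y3 - z.Y1 * z.X3)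
    + r.p13 * (3 * z.X1 * z.X3 + z.Y1 * z.Y3) + r.k3 * (z.X3 * z.b - z.Y3 * z.a)
    + r.g0 * (3 * (z.X1 - z.a) ^ 2 + (z.Y1 - z.b) ^ 2) + r.g1 * (3 * (z.X2 - z.a) ^ 2 + (z.Y2 - z.b) ^ 2)
    + r.g2 * (3 * (z.X3 - z.a) ^ 2 + (z.Y3 - z.b) ^ 2) + r.g3 * (3 * (z.X2 - z.X1) ^ 2 + (z.Y2 - z.Y1) ^ 2)
    + r.g4 * (3 * (z.X3 - z.X2) ^ 2 + (z.Y3 - z.Y2) ^ 2) + r.g5 * (3 * z.X3 ^ 2 + z.Y3 ^ 2)
    + r.x1 * z.X1 + r.y1 * z.Y1 + r.x2 * z.X2 + r.y2 * z.Y2 + r.x3 * z.X3 + r.y3 * z.Y3 + r.a * z.a + r.b * z.b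
    + r.v1 * z.V1 + r.v2 * z.V2 + r.v3 * z.V3 + r.p * z.p + r.q * z.q + r.r * z.r + r.s * z.s + r.h * z.h
    + r.k * z.k + r.c

theorem Row.zero_ev (z : Pt) : Row.zero.ev z = 0 := by simp [Row.zero, Row.ev]

theorem Row.fma_ev (n : Int) (r acc : Row) (z : Pt) :
    (Row.fma n r acc).ev z = acc.ev z + n * r.ev z := by
  simp only [Row.fma, Row.ev]; push_cast; ring

theorem comb_ev {rows : List Row} {z : Pt} (h : ∀ r ∈ rows, r.ev z ≤ 0) :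
    ∀ l : List (Nat × Nat), (comb rows l).ev z ≤ 0 := by
  intro l
  induction l with
  | nil => exact (Row.zero_ev z).le
  | cons x l ih =>
    obtain ⟨i, n⟩ := x
    rw [comb, Row.fma_ev]
    have h1 : (rows.getD i Row.zero).ev z ≤ 0 := by
      rw [List.getD_eq_getElem?_getD]
      cases hi : rows[i]? with
      | none => simpa using (Row.zero_ev z).le
      | some r => simpa using h r (List.mem_of_getElem? hi)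
    have h2 : (0 : ℝ) ≤ ((Int.ofNat n : Int) : ℝ) := by simp
    nlinarith [mul_nonneg h2 (neg_nonneg.2 h1)]

theorem imin_le {a lo hi : Int} {x : ℝ} (h1 : (lo : ℝ) ≤ x) (h2 : x ≤ hi) :
    ((imin a lo hi : Int) : ℝ) ≤ a * x := by
  cases a with
  | ofNat n =>
    simp only [imin]; push_cast
    exact mul_le_mul_of_nonneg_left h1 (Nat.cast_nonneg n)
  | negSucc n =>
    simp only [imin]
    have : ((Int.negSucc n : Int) : ℝ) ≤ 0 := by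
      exact_mod_cast (Int.negSucc_lt_zero n).le
    push_cast at this ⊢
    nlinarith

/-- the aggregated form with secants -/
def AA (D : ℝ) (b : Box) (R : Row) (W0 W1 W2 W3 W4 W5 W6 W7 : ℝ) : ℝ :=
  D * D * R.c + D * (R.x1 * W0 + R.y1 * W1 + R.x2 * W2 + R.y2 * W3 + R.x3 * W4 + R.y3 * W5 + R.a * W6 + R.b * W7)
    + R.q12 * (W0 * W3 - W1 * W2) + R.q23 * (W2 * W5 - W3 * W4) + R.q13 * (W0 * W5 - W1 * W4)
    + R.p13 * (3 * W0 * W4 + W1 * W5) + R.k3 * (W4 * W7 - W5 * W6)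
    + R.g0 * (3 * ((b.l0 - b.h6 + (b.h0 - b.l6)) * (W0 - W6) - (b.l0 - b.h6) * (b.h0 - b.l6))
        + ((b.l1 - b.h7 + (b.h1 - b.l7)) * (W1 - W7) - (b.l1 - b.h7) * (b.h1 - b.l7)))
    + R.g1 * (3 * ((b.l2 - b.h6 + (b.h2 - b.l6)) * (W2 - W6) - (b.l2 - b.h6) * (b.h2 - b.l6))
        + ((b.l3 - b.h7 + (b.h3 - b.l7)) * (W3 - W7) - (b.l3 - b.h7) * (b.h3 - b.l7)))
    + R.g2 * (3 * ((b.l4 - b.h6 + (b.h4 - b.l6)) * (W4 - W6) - (b.l4 - b.h6) * (b.h4 - b.l6))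
        + ((b.l5 - b.h7 + (b.h5 - b.l7)) * (W5 - W7) - (b.l5 - b.h7) * (b.h5 - b.l7)))
    + R.g3 * (3 * ((b.l2 - b.h0 + (b.h2 - b.l0)) * (W2 - W0) - (b.l2 - b.h0) * (b.h2 - b.l0))
        + ((b.l3 - b.h1 + (b.h3 - b.l1)) * (W3 - W1) - (b.l3 - b.h1) * (b.h3 - b.l1)))
    + R.g4 * (3 * ((b.l4 - b.h2 + (b.h4 - b.l2)) * (W4 - W2) - (b.l4 - b.h2) * (b.h4 - b.l2))
        + ((b.l5 - b.h3 + (b.h5 - b.l3)) * (W5 - W3) - (b.l5 - b.h3) * (b.h5 - b.l3)))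
    + R.g5 * (3 * ((b.l4 + b.h4) * W4 - b.l4 * b.h4) + ((b.l5 + b.h5) * W5 - b.l5 * b.h5))

theorem corner_le (D : Int) (b : Box) (R : Row) (x2 y2 x3 y3 : Int) {W0 W1 W6 W7 : ℝ}
    (h0 : (b.l0 : ℝ) ≤ W0 ∧ W0 ≤ b.h0) (h1 : (b.l1 : ℝ) ≤ W1 ∧ W1 ≤ b.h1)
    (h6 : (b.l6 : ℝ) ≤ W6 ∧ W6 ≤ b.h6) (h7 : (b.l7 : ℝ) ≤ W7 ∧ W7 ≤ b.h7) :
    ((corner D b R x2 y2 x3 y3 : Int) : ℝ) ≤ AA D b R W0 W1 x2 y2 x3 y3 W6 W7 := by
  have e0 := imin_le (a := D * R.x1 + R.q12 * y2 + R.q13 * y3 + 3 * R.p13 * x3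
    + 3 * R.g0 * (b.l0 - b.h6 + (b.h0 - b.l6)) - 3 * R.g3 * (b.l2 - b.h0 + (b.h2 - b.l0))) h0.1 h0.2
  have e1 := imin_le (a := D * R.y1 - R.q12 * x2 - R.q13 * x3 + R.p13 * y3 + R.g0 * (b.l1 - b.h7 + (b.h1 - b.l7))
        - R.g3 * (b.l3 - b.h1 + (b.h3 - b.l1))) h1.1 h1.2
  have e6 := imin_le (a := D * R.a - R.k3 * y3 - 3 * R.g0 * (b.l0 - b.h6 + (b.h0 - b.l6))
    - 3 * R.g1 * (b.l2 - b.h6 + (b.h2 - b.l6)) - 3 * R.g2 * (b.l4 - b.h6 + (b.h4 - b.l6))) h6.1 h6.2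
  have e7 := imin_le (a := D * R.b + R.k3 * x3 - R.g0 * (b.l1 - b.h7 + (b.h1 - b.l7))
    - R.g1 * (b.l3 - b.h7 + (b.h3 - b.l7)) - R.g2 * (b.l5 - b.h7 + (b.h5 - b.l7))) h7.1 h7.2
  simp only [corner]
  push_cast at e0 e1 e6 e7 ⊢
  refine le_trans (add_le_add (add_le_add (add_le_add (add_le_add le_rfl e0) e1) e6) e7) (le_of_eq ?_)
  simp only [AA]
  ring

/-- affine functions of two variables on a rectangle -/
theorem affine2 {p q r x y x0 x1 y0 y1 : ℝ} (hx : x0 ≤ x ∧ x ≤ x1) (hy : y0 ≤ y ∧ y ≤ y1)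
    (h00 : 0 < p + q * x0 + r * y0) (h01 : 0 < p + q * x0 + r * y1) (h10 : 0 < p + q * x1 + r * y0)
    (h11 : 0 < p + q * x1 + r * y1) : 0 < p + q * x + r * y := by
  rcases le_total 0 q with hq | hq <;> rcases le_total 0 r with hr | hr
  · linarith [mul_le_mul_of_nonneg_left hx.1 hq, mul_le_mul_of_nonneg_left hy.1 hr]
  · linarith [mul_le_mul_of_nonneg_left hx.1 hq, mul_le_mul_of_nonpos_left hy.2 hr]
  · linarith [mul_le_mul_of_nonpos_left hx.2 hq, mul_le_mul_of_nonneg_left hy.1 hr]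
  · linarith [mul_le_mul_of_nonpos_left hx.2 hq, mul_le_mul_of_nonpos_left hy.2 hr]

/-- membership in a box -/
structure InBox (b : Box) (W0 W1 W2 W3 W4 W5 W6 W7 : ℝ) : Prop where
  h0 : (b.l0 : ℝ) ≤ W0 ∧ W0 ≤ b.h0
  h1 : (b.l1 : ℝ) ≤ W1 ∧ W1 ≤ b.h1
  h2 : (b.l2 : ℝ) ≤ W2 ∧ W2 ≤ b.h2
  h3 : (b.l3 : ℝ) ≤ W3 ∧ W3 ≤ b.h3
  h4 : (b.l4 : ℝ) ≤ W4 ∧ W4 ≤ b.h4
  h5 : (b.l5 : ℝ) ≤ W5 ∧ W5 ≤ b.h5
  h6 : (b.l6 : ℝ) ≤ W6 ∧ W6 ≤ b.h6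
  h7 : (b.l7 : ℝ) ≤ W7 ∧ W7 ≤ b.h7

theorem ok2_pos {D : Int} {b : Box} {R : Row} {x3 y3 : Int} (h : ok2 D b R x3 y3 = true)
    {W0 W1 W2 W3 W4 W5 W6 W7 : ℝ} (hb : InBox b W0 W1 W2 W3 W4 W5 W6 W7) :
    0 < AA D b R W0 W1 W2 W3 x3 y3 W6 W7 := by
  simp only [ok2, Bool.and_eq_true, decide_eq_true_eq] at h
  obtain ⟨⟨⟨h1, h2⟩, h3⟩, h4⟩ := h
  have f : ∀ x2 y2 : Int, 0 < corner D b R x2 y2 x3 y3 → 0 < AA D b R W0 W1 x2 y2 x3 y3 W6 W7 := by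
    intro x2 y2 hh
    have : (0 : ℝ) < (corner D b R x2 y2 x3 y3 : Int) := by exact_mod_cast hh
    exact lt_of_lt_of_le this (corner_le D b R x2 y2 x3 y3 hb.h0 hb.h1 hb.h6 hb.h7)
  have c1 := f _ _ h1
  have c2 := f _ _ h2
  have c3 := f _ _ h3
  have c4 := f _ _ h4
  have key : ∀ x y : ℝ, AA D b R W0 W1 x y x3 y3 W6 W7 = AA D b R W0 W1 0 0 x3 y3 W6 W7
      + (AA D b R W0 W1 1 0 x3 y3 W6 W7 - AA D b R W0 W1 0 0 x3 y3 W6 W7) * x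
      + (AA D b R W0 W1 0 1 x3 y3 W6 W7 - AA D b R W0 W1 0 0 x3 y3 W6 W7) * y := by
    intro x y
    simp only [AA]; ring
  rw [key] at c1 c2 c3 c4
  rw [key W2 W3]
  exact affine2 hb.h2 hb.h3 c1 c2 c3 c4

theorem okR_pos {D : Int} {b : Box} {R : Row} (h : okR D b R = true)
    {W0 W1 W2 W3 W4 W5 W6 W7 : ℝ} (hb : InBox b W0 W1 W2 W3 W4 W5 W6 W7) :
    okRow R = true ∧ 0 < AA D b R W0 W1 W2 W3 W4 W5 W6 W7 := by
  simp only [okR, Bool.and_eq_true] at h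
  obtain ⟨⟨⟨⟨h0, h1⟩, h2⟩, h3⟩, h4⟩ := h
  have c1 := ok2_pos h1 hb
  have c2 := ok2_pos h2 hb
  have c3 := ok2_pos h3 hb
  have c4 := ok2_pos h4 hb
  have key : ∀ x y : ℝ, AA D b R W0 W1 W2 W3 x y W6 W7 = AA D b R W0 W1 W2 W3 0 0 W6 W7
      + (AA D b R W0 W1 W2 W3 1 0 W6 W7 - AA D b R W0 W1 W2 W3 0 0 W6 W7) * x
      + (AA D b R W0 W1 W2 W3 0 1 W6 W7 - AA D b R W0 W1 W2 W3 0 0 W6 W7) * y := by
    intro x y
    simp only [AA]; ring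
  rw [key] at c1 c2 c3 c4
  rw [key W4 W5]
  exact ⟨h0, affine2 hb.h4 hb.h5 c1 c2 c3 c4⟩

theorem sec_le {x lo hi : ℝ} (h1 : lo ≤ x) (h2 : x ≤ hi) : x ^ 2 ≤ (lo + hi) * x - lo * hi := by
  nlinarith [mul_nonneg (sub_nonneg.2 h1) (sub_nonneg.2 h2)]

/-- the hypotheses of the contradiction -/
structure Hyp (rows : List Row) (z : Pt) : Prop where
  rows : ∀ r ∈ rows, r.ev z ≤ 0
  V1 : 0 ≤ z.V1
  V2 : 0 ≤ z.V2
  V3 : 0 ≤ z.V3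
  p : 0 ≤ z.p
  q : 0 ≤ z.q
  r : 0 ≤ z.r
  s : 0 ≤ z.s
  h : 0 ≤ z.h
  k : 0 ≤ z.k

theorem leaf_sound {rows : List Row} {D : Int} {b : Box} {l : List (Nat × Nat)} {z : Pt}
    (h : okR D b (comb rows l) = true) (hz : Hyp rows z)
    (hb : InBox b (D * z.X1) (D * z.Y1) (D * z.X2) (D * z.Y2) (D * z.X3) (D * z.Y3) (D * z.a) (D * z.b)) : False := by
  have hcomb := comb_ev hz.rows l
  set R := comb rows l
  obtain ⟨hR, pos⟩ := okR_pos h hb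
  simp only [okRow, Bool.and_eq_true, decide_eq_true_eq] at hR
  obtain ⟨⟨⟨⟨⟨⟨⟨⟨⟨⟨⟨⟨⟨⟨g0, g1⟩, g2⟩, g3⟩, g4⟩, g5⟩, rv1⟩, rv2⟩, rv3⟩, rp⟩, rq⟩, rr⟩, rs⟩, rh⟩, rk⟩ := hR
  have g0' : (0 : ℝ) ≤ -R.g0 := by have : (R.g0 : ℝ) ≤ 0 := by exact_mod_cast g0
                                   linarith
  have g1' : (0 : ℝ) ≤ -R.g1 := by have : (R.g1 : ℝ) ≤ 0 := by exact_mod_cast g1
                                   linarith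
  have g2' : (0 : ℝ) ≤ -R.g2 := by have : (R.g2 : ℝ) ≤ 0 := by exact_mod_cast g2
                                   linarith
  have g3' : (0 : ℝ) ≤ -R.g3 := by have : (R.g3 : ℝ) ≤ 0 := by exact_mod_cast g3
                                   linarith
  have g4' : (0 : ℝ) ≤ -R.g4 := by have : (R.g4 : ℝ) ≤ 0 := by exact_mod_cast g4
                                   linarith
  have g5' : (0 : ℝ) ≤ -R.g5 := by have : (R.g5 : ℝ) ≤ 0 := by exact_mod_cast g5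
                                   linarith
  have t1 := mul_nonneg (show (0 : ℝ) ≤ R.v1 by exact_mod_cast rv1) hz.V1
  have t2 := mul_nonneg (show (0 : ℝ) ≤ R.v2 by exact_mod_cast rv2) hz.V2
  have t3 := mul_nonneg (show (0 : ℝ) ≤ R.v3 by exact_mod_cast rv3) hz.V3
  have t4 := mul_nonneg (show (0 : ℝ) ≤ R.p by exact_mod_cast rp) hz.p
  have t5 := mul_nonneg (show (0 : ℝ) ≤ R.q by exact_mod_cast rq) hz.q
  have t6 := mul_nonneg (show (0 : ℝ) ≤ R.r by exact_mod_cast rr) hz.r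
  have t7 := mul_nonneg (show (0 : ℝ) ≤ R.s by exact_mod_cast rs) hz.s
  have t8 := mul_nonneg (show (0 : ℝ) ≤ R.h by exact_mod_cast rh) hz.h
  have t9 := mul_nonneg (show (0 : ℝ) ≤ R.k by exact_mod_cast rk) hz.k
  set W0 := (D : ℝ) * z.X1 with e0
  set W1 := (D : ℝ) * z.Y1 with e1
  set W2 := (D : ℝ) * z.X2 with e2
  set W3 := (D : ℝ) * z.Y2 with e3
  set W4 := (D : ℝ) * z.X3 with e4
  set W5 := (D : ℝ) * z.Y3 with e5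
  set W6 := (D : ℝ) * z.a with e6
  set W7 := (D : ℝ) * z.b with e7
  obtain ⟨h0, h1, h2, h3, h4, h5, h6, h7⟩ := hb
  have s0 : 3 * (W0 - W6) ^ 2 + (W1 - W7) ^ 2 ≤
      3 * ((b.l0 - b.h6 + (b.h0 - b.l6)) * (W0 - W6) - (b.l0 - b.h6) * (b.h0 - b.l6))
        + ((b.l1 - b.h7 + (b.h1 - b.l7)) * (W1 - W7) - (b.l1 - b.h7) * (b.h1 - b.l7)) := by
    have x := sec_le (x := W0 - W6) (lo := b.l0 - b.h6) (hi := b.h0 - b.l6) (by linarith [h0.1, h6.2]) (by linarith [h0.2, h6.1])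
    have y := sec_le (x := W1 - W7) (lo := b.l1 - b.h7) (hi := b.h1 - b.l7) (by linarith [h1.1, h7.2]) (by linarith [h1.2, h7.1])
    linarith
  have s1 : 3 * (W2 - W6) ^ 2 + (W3 - W7) ^ 2 ≤
      3 * ((b.l2 - b.h6 + (b.h2 - b.l6)) * (W2 - W6) - (b.l2 - b.h6) * (b.h2 - b.l6))
        + ((b.l3 - b.h7 + (b.h3 - b.l7)) * (W3 - W7) - (b.l3 - b.h7) * (b.h3 - b.l7)) := by
    have x := sec_le (x := W2 - W6) (lo := b.l2 - b.h6) (hi := b.h2 - b.l6) (by linarith [h2.1, h6.2]) (by linarith [h2.2, h6.1])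
    have y := sec_le (x := W3 - W7) (lo := b.l3 - b.h7) (hi := b.h3 - b.l7) (by linarith [h3.1, h7.2]) (by linarith [h3.2, h7.1])
    linarith
  have s2 : 3 * (W4 - W6) ^ 2 + (W5 - W7) ^ 2 ≤
      3 * ((b.l4 - b.h6 + (b.h4 - b.l6)) * (W4 - W6) - (b.l4 - b.h6) * (b.h4 - b.l6))
        + ((b.l5 - b.h7 + (b.h5 - b.l7)) * (W5 - W7) - (b.l5 - b.h7) * (b.h5 - b.l7)) := by
    have x := sec_le (x := W4 - W6) (lo := b.l4 - b.h6) (hi := b.h4 - b.l6) (by linarith [h4.1, h6.2]) (by linarith [h4.2, h6.1])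
    have y := sec_le (x := W5 - W7) (lo := b.l5 - b.h7) (hi := b.h5 - b.l7) (by linarith [h5.1, h7.2]) (by linarith [h5.2, h7.1])
    linarith
  have s3 : 3 * (W2 - W0) ^ 2 + (W3 - W1) ^ 2 ≤
      3 * ((b.l2 - b.h0 + (b.h2 - b.l0)) * (W2 - W0) - (b.l2 - b.h0) * (b.h2 - b.l0))
        + ((b.l3 - b.h1 + (b.h3 - b.l1)) * (W3 - W1) - (b.l3 - b.h1) * (b.h3 - b.l1)) := by
    have x := sec_le (x := W2 - W0) (lo := b.l2 - b.h0) (hi := b.h2 - b.l0) (by linarith [h2.1, h0.2]) (by linarith [h2.2, h0.1])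
    have y := sec_le (x := W3 - W1) (lo := b.l3 - b.h1) (hi := b.h3 - b.l1) (by linarith [h3.1, h1.2]) (by linarith [h3.2, h1.1])
    linarith
  have s4 : 3 * (W4 - W2) ^ 2 + (W5 - W3) ^ 2 ≤
      3 * ((b.l4 - b.h2 + (b.h4 - b.l2)) * (W4 - W2) - (b.l4 - b.h2) * (b.h4 - b.l2))
        + ((b.l5 - b.h3 + (b.h5 - b.l3)) * (W5 - W3) - (b.l5 - b.h3) * (b.h5 - b.l3)) := by
    have x := sec_le (x := W4 - W2) (lo := b.l4 - b.h2) (hi := b.h4 - b.l2) (by linarith [h4.1, h2.2]) (by linarith [h4.2, h2.1])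
    have y := sec_le (x := W5 - W3) (lo := b.l5 - b.h3) (hi := b.h5 - b.l3) (by linarith [h5.1, h3.2]) (by linarith [h5.2, h3.1])
    linarith
  have s5 : 3 * W4 ^ 2 + W5 ^ 2 ≤ 3 * ((b.l4 + b.h4) * W4 - b.l4 * b.h4) + ((b.l5 + b.h5) * W5 - b.l5 * b.h5) := by
    have x := sec_le (x := W4) (lo := b.l4) (hi := b.h4) h4.1 h4.2
    have y := sec_le (x := W5) (lo := b.l5) (hi := b.h5) h5.1 h5.2
    linarith
  have m0 := mul_le_mul_of_nonneg_left s0 g0'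
  have m1 := mul_le_mul_of_nonneg_left s1 g1'
  have m2 := mul_le_mul_of_nonneg_left s2 g2'
  have m3 := mul_le_mul_of_nonneg_left s3 g3'
  have m4 := mul_le_mul_of_nonneg_left s4 g4'
  have m5 := mul_le_mul_of_nonneg_left s5 g5'
  have hl : R.ev z - (R.v1 * z.V1 + R.v2 * z.V2 + R.v3 * z.V3 + R.p * z.p + R.q * z.q + R.r * z.r + R.s * z.s
      + R.h * z.h + R.k * z.k) ≤ 0 := by linarith
  have hl2 := mul_nonneg (mul_self_nonneg (D : ℝ)) (neg_nonneg.2 hl)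
  have id : (D : ℝ) * D * -(R.ev z - (R.v1 * z.V1 + R.v2 * z.V2 + R.v3 * z.V3 + R.p * z.p + R.q * z.q + R.r * z.r + R.s * z.s
      + R.h * z.h + R.k * z.k)) = -(D * D * R.c
      + D * (R.x1 * W0 + R.y1 * W1 + R.x2 * W2 + R.y2 * W3 + R.x3 * W4 + R.y3 * W5 + R.a * W6 + R.b * W7)
    + R.q12 * (W0 * W3 - W1 * W2) + R.q23 * (W2 * W5 - W3 * W4) + R.q13 * (W0 * W5 - W1 * W4)
    + R.p13 * (3 * W0 * W4 + W1 * W5) + R.k3 * (W4 * W7 - W5 * W6)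
    + R.g0 * (3 * (W0 - W6) ^ 2 + (W1 - W7) ^ 2) + R.g1 * (3 * (W2 - W6) ^ 2 + (W3 - W7) ^ 2)
    + R.g2 * (3 * (W4 - W6) ^ 2 + (W5 - W7) ^ 2) + R.g3 * (3 * (W2 - W0) ^ 2 + (W3 - W1) ^ 2)
    + R.g4 * (3 * (W4 - W2) ^ 2 + (W5 - W3) ^ 2) + R.g5 * (3 * W4 ^ 2 + W5 ^ 2)) := by
    rw [e0, e1, e2, e3, e4, e5, e6, e7]
    simp only [Row.ev]; ring
  rw [id] at hl2
  rw [AA] at pos
  clear id hl hcomb hz h s0 s1 s2 s3 s4 s5 g0' g1' g2' g3' g4' g5'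
  clear e0 e1 e2 e3 e4 e5 e6 e7
  linarith

theorem tree_sound {rows : List Row} {D : Int} {z : Pt} (hz : Hyp rows z) :
    ∀ (t : Tree) (b : Box), t.check D rows b = true →
      InBox b (D * z.X1) (D * z.Y1) (D * z.X2) (D * z.Y2) (D * z.X3) (D * z.Y3) (D * z.a) (D * z.b) → False := by
  intro t
  induction t with
  | L l => intro b h hb; exact leaf_sound h hz hb
  | N a l r ihl ihr =>
    intro b h hb
    rw [Tree.check, Bool.and_eq_true] at h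
    obtain ⟨hl, hr⟩ := h
    obtain ⟨h0, h1, h2, h3, h4, h5, h6, h7⟩ := hb
    match a, hl, hr with
    | 0, hl, hr =>
      rcases le_total (D * z.X1) (((b.l0 + b.h0) / 2 : Int) : ℝ) with hc | hc
      · exact ihl _ hl ⟨⟨h0.1, hc⟩, h1, h2, h3, h4, h5, h6, h7⟩
      · exact ihr _ hr ⟨⟨hc, h0.2⟩, h1, h2, h3, h4, h5, h6, h7⟩
    | 1, hl, hr =>
      rcases le_total (D * z.Y1) (((b.l1 + b.h1) / 2 : Int) : ℝ) with hc | hc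
      · exact ihl _ hl ⟨h0, ⟨h1.1, hc⟩, h2, h3, h4, h5, h6, h7⟩
      · exact ihr _ hr ⟨h0, ⟨hc, h1.2⟩, h2, h3, h4, h5, h6, h7⟩
    | 2, hl, hr =>
      rcases le_total (D * z.X2) (((b.l2 + b.h2) / 2 : Int) : ℝ) with hc | hc
      · exact ihl _ hl ⟨h0, h1, ⟨h2.1, hc⟩, h3, h4, h5, h6, h7⟩
      · exact ihr _ hr ⟨h0, h1, ⟨hc, h2.2⟩, h3, h4, h5, h6, h7⟩
    | 3, hl, hr =>
      rcases le_total (D * z.Y2) (((b.l3 + b.h3) / 2 : Int) : ℝ) with hc | hc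
      · exact ihl _ hl ⟨h0, h1, h2, ⟨h3.1, hc⟩, h4, h5, h6, h7⟩
      · exact ihr _ hr ⟨h0, h1, h2, ⟨hc, h3.2⟩, h4, h5, h6, h7⟩
    | 4, hl, hr =>
      rcases le_total (D * z.X3) (((b.l4 + b.h4) / 2 : Int) : ℝ) with hc | hc
      · exact ihl _ hl ⟨h0, h1, h2, h3, ⟨h4.1, hc⟩, h5, h6, h7⟩
      · exact ihr _ hr ⟨h0, h1, h2, h3, ⟨hc, h4.2⟩, h5, h6, h7⟩
    | 5, hl, hr =>
      rcases le_total (D * z.Y3) (((b.l5 + b.h5) / 2 : Int) : ℝ) with hc | hc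
      · exact ihl _ hl ⟨h0, h1, h2, h3, h4, ⟨h5.1, hc⟩, h6, h7⟩
      · exact ihr _ hr ⟨h0, h1, h2, h3, h4, ⟨hc, h5.2⟩, h6, h7⟩
    | 6, hl, hr =>
      rcases le_total (D * z.a) (((b.l6 + b.h6) / 2 : Int) : ℝ) with hc | hc
      · exact ihl _ hl ⟨h0, h1, h2, h3, h4, h5, ⟨h6.1, hc⟩, h7⟩
      · exact ihr _ hr ⟨h0, h1, h2, h3, h4, h5, ⟨hc, h6.2⟩, h7⟩
    | (n + 7), hl, hr =>
      rcases le_total (D * z.b) (((b.l7 + b.h7) / 2 : Int) : ℝ) with hc | hc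
      · exact ihl _ hl ⟨h0, h1, h2, h3, h4, h5, h6, ⟨h7.1, hc⟩⟩
      · exact ihr _ hr ⟨h0, h1, h2, h3, h4, h5, h6, ⟨hc, h7.2⟩⟩

end Pool.Agent.H30.Q
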