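import Pool.Agent.H30.P6.Snd

/-! the common rows (generated) -/

set_option autoImplicit false

namespace Pool.Agent.H30.P6

/-- the common rows -/
def base : List Row := [
  ⟨1, 0, 0, 0, 0, 0, 0, 0, 0, 1, 0, 0, 0, 0, 1, 1, 0, 1, -1, 0, 0⟩,
  ⟨1, 0, 0, 0, 0, 0, 0, 0, 0, 0, 1, 0, 1, 1, 1, 1, 1, 1, -1, 0, 0⟩,
  ⟨1, 0, 0, 0, 0, 0, 0, 0, 0, 0, 0, 1, 1, 1, 0, 0, 1, 0, -1, 0, 0⟩,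
  ⟨0, 0, -24, 0, 0, 0, 0, 0, -24, -1, 0, 0, 0, 0, 0, 0, 0, 0, 0, 0, 0⟩,
  ⟨0, 16, -16, 0, 0, 0, 0, 16, -16, -1, 0, 0, 0, 0, 0, 0, 0, 0, 0, 0, 0⟩,
  ⟨0, -16, -16, 0, 0, 0, 0, -16, -16, -1, 0, 0, 0, 0, 0, 0, 0, 0, 0, 0, 0⟩,
  ⟨0, 25, -11, 0, 0, 0, 0, 25, -11, -1, 0, 0, 0, 0, 0, 0, 0, 0, 0, 0, 0⟩,
  ⟨0, -25, -11, 0, 0, 0, 0, -25, -11, -1, 0, 0, 0, 0, 0, 0, 0, 0, 0, 0, 0⟩,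
  ⟨0, 43, 0, 0, 0, 0, 0, 43, 0, -1, 0, 0, 0, 0, 0, 0, 0, 0, 0, 0, 0⟩,
  ⟨0, -43, 0, 0, 0, 0, 0, -43, 0, -1, 0, 0, 0, 0, 0, 0, 0, 0, 0, 0, 0⟩,
  ⟨0, 75, 25, 0, 0, 0, 0, 75, 25, -1, 0, 0, 0, 0, 0, 0, 0, 0, 0, 0, 0⟩,
  ⟨0, -75, 25, 0, 0, 0, 0, -75, 25, -1, 0, 0, 0, 0, 0, 0, 0, 0, 0, 0, 0⟩,
  ⟨0, 56, 56, 0, 0, 0, 0, 56, 56, -1, 0, 0, 0, 0, 0, 0, 0, 0, 0, 0, 0⟩,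
  ⟨0, -56, 56, 0, 0, 0, 0, -56, 56, -1, 0, 0, 0, 0, 0, 0, 0, 0, 0, 0, 0⟩,
  ⟨0, 0, 112, 0, 0, 0, 0, 0, 112, -1, 0, 0, 0, 0, 0, 0, 0, 0, 0, 0, 0⟩,
  ⟨0, 0, 0, 0, -24, 0, 0, 0, -24, 0, -1, 0, 0, 0, 0, 0, 0, 0, 0, 0, 0⟩,
  ⟨0, 0, 0, 16, -16, 0, 0, 16, -16, 0, -1, 0, 0, 0, 0, 0, 0, 0, 0, 0, 0⟩,
  ⟨0, 0, 0, -16, -16, 0, 0, -16, -16, 0, -1, 0, 0, 0, 0, 0, 0, 0, 0, 0, 0⟩,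
  ⟨0, 0, 0, 25, -11, 0, 0, 25, -11, 0, -1, 0, 0, 0, 0, 0, 0, 0, 0, 0, 0⟩,
  ⟨0, 0, 0, -25, -11, 0, 0, -25, -11, 0, -1, 0, 0, 0, 0, 0, 0, 0, 0, 0, 0⟩,
  ⟨0, 0, 0, 43, 0, 0, 0, 43, 0, 0, -1, 0, 0, 0, 0, 0, 0, 0, 0, 0, 0⟩,
  ⟨0, 0, 0, -43, 0, 0, 0, -43, 0, 0, -1, 0, 0, 0, 0, 0, 0, 0, 0, 0, 0⟩,
  ⟨0, 0, 0, 75, 25, 0, 0, 75, 25, 0, -1, 0, 0, 0, 0, 0, 0, 0, 0, 0, 0⟩,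
  ⟨0, 0, 0, -75, 25, 0, 0, -75, 25, 0, -1, 0, 0, 0, 0, 0, 0, 0, 0, 0, 0⟩,
  ⟨0, 0, 0, 56, 56, 0, 0, 56, 56, 0, -1, 0, 0, 0, 0, 0, 0, 0, 0, 0, 0⟩,
  ⟨0, 0, 0, -56, 56, 0, 0, -56, 56, 0, -1, 0, 0, 0, 0, 0, 0, 0, 0, 0, 0⟩,
  ⟨0, 0, 0, 0, 112, 0, 0, 0, 112, 0, -1, 0, 0, 0, 0, 0, 0, 0, 0, 0, 0⟩,
  ⟨0, 0, 0, 0, 0, 0, -24, 0, -24, 0, 0, -1, 0, 0, 0, 0, 0, 0, 0, 0, 0⟩,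
  ⟨0, 0, 0, 0, 0, 16, -16, 16, -16, 0, 0, -1, 0, 0, 0, 0, 0, 0, 0, 0, 0⟩,
  ⟨0, 0, 0, 0, 0, -16, -16, -16, -16, 0, 0, -1, 0, 0, 0, 0, 0, 0, 0, 0, 0⟩,
  ⟨0, 0, 0, 0, 0, 25, -11, 25, -11, 0, 0, -1, 0, 0, 0, 0, 0, 0, 0, 0, 0⟩,
  ⟨0, 0, 0, 0, 0, -25, -11, -25, -11, 0, 0, -1, 0, 0, 0, 0, 0, 0, 0, 0, 0⟩,
  ⟨0, 0, 0, 0, 0, 43, 0, 43, 0, 0, 0, -1, 0, 0, 0, 0, 0, 0, 0, 0, 0⟩,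
  ⟨0, 0, 0, 0, 0, -43, 0, -43, 0, 0, 0, -1, 0, 0, 0, 0, 0, 0, 0, 0, 0⟩,
  ⟨0, 0, 0, 0, 0, 75, 25, 75, 25, 0, 0, -1, 0, 0, 0, 0, 0, 0, 0, 0, 0⟩,
  ⟨0, 0, 0, 0, 0, -75, 25, -75, 25, 0, 0, -1, 0, 0, 0, 0, 0, 0, 0, 0, 0⟩,
  ⟨0, 0, 0, 0, 0, 56, 56, 56, 56, 0, 0, -1, 0, 0, 0, 0, 0, 0, 0, 0, 0⟩,
  ⟨0, 0, 0, 0, 0, -56, 56, -56, 56, 0, 0, -1, 0, 0, 0, 0, 0, 0, 0, 0, 0⟩,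
  ⟨0, 0, 0, 0, 0, 0, 112, 0, 112, 0, 0, -1, 0, 0, 0, 0, 0, 0, 0, 0, 0⟩,
  ⟨0, -6, -2, 0, 0, 0, 0, -6, -2, 0, 0, 0, -1, 0, 0, 0, 0, 0, 0, 0, 0⟩,
  ⟨0, 0, 0, -6, -2, 0, 0, -6, -2, 0, 0, 0, 0, -1, 0, 0, 0, 0, 0, 0, 0⟩,
  ⟨0, 0, 0, 6, -2, 0, 0, 6, -2, 0, 0, 0, 0, 0, -1, 0, 0, 0, 0, 0, 0⟩,
  ⟨0, 0, 0, 0, 0, 6, -2, 6, -2, 0, 0, 0, 0, 0, 0, -1, 0, 0, 0, 0, 0⟩,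
  ⟨0, 35, -34, -35, 34, 0, 0, 0, 0, 0, 0, 0, 0, 0, 0, 0, -10, 0, 0, -11, 0⟩,
  ⟨0, 43, -31, -43, 31, 0, 0, 0, 0, 0, 0, 0, 0, 0, 0, 0, -10, 0, 0, -6, 0⟩,
  ⟨0, 52, -26, -52, 26, 0, 0, 0, 0, 0, 0, 0, 0, 0, 0, 0, -10, 0, 0, -2, 0⟩,
  ⟨0, 60, -20, -60, 20, 0, 0, 0, 0, 0, 0, 0, 0, 0, 0, 0, -10, 0, 0, 0, 0⟩,
  ⟨0, 64, -14, -64, 14, 0, 0, 0, 0, 0, 0, 0, 0, 0, 0, 0, -10, 0, 0, -2, 0⟩,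
  ⟨0, 68, -7, -68, 7, 0, 0, 0, 0, 0, 0, 0, 0, 0, 0, 0, -10, 0, 0, -5, 0⟩,
  ⟨0, 69, 0, -69, 0, 0, 0, 0, 0, 0, 0, 0, 0, 0, 0, 0, -10, 0, 0, -11, 0⟩,
  ⟨0, 0, 0, 69, 0, -69, 0, 0, 0, 0, 0, 0, 0, 0, 0, 0, 0, -10, 0, -11, 0⟩,
  ⟨0, 0, 0, 68, 7, -68, -7, 0, 0, 0, 0, 0, 0, 0, 0, 0, 0, -10, 0, -5, 0⟩,
  ⟨0, 0, 0, 64, 14, -64, -14, 0, 0, 0, 0, 0, 0, 0, 0, 0, 0, -10, 0, -2, 0⟩,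
  ⟨0, 0, 0, 60, 20, -60, -20, 0, 0, 0, 0, 0, 0, 0, 0, 0, 0, -10, 0, 0, 0⟩,
  ⟨0, 0, 0, 52, 26, -52, -26, 0, 0, 0, 0, 0, 0, 0, 0, 0, 0, -10, 0, -2, 0⟩,
  ⟨0, 0, 0, 43, 31, -43, -31, 0, 0, 0, 0, 0, 0, 0, 0, 0, 0, -10, 0, -6, 0⟩,
  ⟨0, 0, 0, 35, 34, -35, -34, 0, 0, 0, 0, 0, 0, 0, 0, 0, 0, -10, 0, -11, 0⟩,
  ⟨0, 0, 0, 0, 0, 0, 0, 0, 0, 3, 0, 0, 0, 0, 0, 0, 0, 0, 0, -50, 0⟩,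
  ⟨0, 0, 0, 0, 0, 0, 0, 0, 0, 0, 3, 0, 0, 0, 0, 0, 0, 0, 0, -50, 0⟩,
  ⟨0, 0, 0, 0, 0, 0, 0, 0, 0, 0, 0, 3, 0, 0, 0, 0, 0, 0, 0, -50, 0⟩,
  ⟨0, 0, 0, 0, 0, 0, 0, 0, 0, 0, 0, 0, 0, 0, 0, 0, 0, 0, 3, -50, 0⟩,
  ⟨0, 0, 0, 0, 0, 0, 0, 100, 0, 0, 0, 0, 0, 0, 0, 0, 0, 0, 0, -93, 0⟩,
  ⟨0, 0, 0, 0, 0, 0, 0, -100, 0, 0, 0, 0, 0, 0, 0, 0, 0, 0, 0, -93, 0⟩,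
  ⟨0, 0, 0, 0, 0, 0, 0, 0, 5, 0, 0, 0, 0, 0, 0, 0, 0, 0, 0, -8, 0⟩,
  ⟨0, 0, 0, 0, 0, 0, 0, 0, -5, 0, 0, 0, 0, 0, 0, 0, 0, 0, 0, -8, 0⟩,
  ⟨0, 0, 0, 0, 0, 0, 0, 15, 5, 0, 0, 0, 0, 0, 0, 0, 0, 0, 0, -16, 0⟩,
  ⟨0, 0, 0, 0, 0, 0, 0, -15, -5, 0, 0, 0, 0, 0, 0, 0, 0, 0, 0, -16, 0⟩,
  ⟨0, 0, 0, 0, 0, 0, 0, 15, -5, 0, 0, 0, 0, 0, 0, 0, 0, 0, 0, -16, 0⟩,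
  ⟨0, 0, 0, 0, 0, 0, 0, -15, 5, 0, 0, 0, 0, 0, 0, 0, 0, 0, 0, -16, 0⟩]

end Pool.Agent.H30.P6
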