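import Mathlib

/-!
# Kernel checker for the finite dimensional inequalities of MP_591ade_co (p = 6)

Coordinates `(X, Y)` with `x = (√3/2) X`, `y = Y/2`.  The unknowns are the relative displacements
`w₁, w₂, w₃` (6 numbers), the displacement `u` of the apex and slack variables.
A row is a linear inequality `row ≤ 0` with integer coefficients; `F` stands for `50 * fan`.
-/

set_option autoImplicit false

namespace Pool.Agent.H30.P6

/-- a linear inequality `... + c + d ≤ 0`; `c ≤ 0` and `d ≥ 0` are the two parts of the constant -/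
structure Row where
  f : Int
  x1 : Int
  y1 : Int
  x2 : Int
  y2 : Int
  x3 : Int
  y3 : Int
  a : Int
  b : Int
  v1 : Int
  v2 : Int
  v3 : Int
  p : Int
  q : Int
  r : Int
  s : Int
  h : Int
  k : Int
  e : Int
  c : Int
  d : Int

/-- `acc + n * r` -/
def Row.fma (n : Int) (r acc : Row) : Row :=
  ⟨acc.f + n * r.f, acc.x1 + n * r.x1, acc.y1 + n * r.y1, acc.x2 + n * r.x2, acc.y2 + n * r.y2,
   acc.x3 + n * r.x3, acc.y3 + n * r.y3, acc.a + n * r.a, acc.b + n * r.b, acc.v1 + n * r.v1,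
   acc.v2 + n * r.v2, acc.v3 + n * r.v3, acc.p + n * r.p, acc.q + n * r.q, acc.r + n * r.r,
   acc.s + n * r.s, acc.h + n * r.h, acc.k + n * r.k, acc.e + n * r.e, acc.c + n * r.c,
   acc.d + n * r.d⟩

def Row.zero : Row := ⟨0, 0, 0, 0, 0, 0, 0, 0, 0, 0, 0, 0, 0, 0, 0, 0, 0, 0, 0, 0, 0⟩

/-- combination of rows: `l` lists (index of the row, multiplier) -/
def comb (rows : List Row) : List (Nat × Nat) → Row
  | [] => Row.zero
  | (i, n) :: l => (rows.getD i Row.zero).fma (Int.ofNat n) (comb rows l)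

/-- a box: coordinates of `W = D ω` and interval of `T = D' t` -/
structure Box where
  l0 : Int
  h0 : Int
  l1 : Int
  h1 : Int
  l2 : Int
  h2 : Int
  l3 : Int
  h3 : Int
  l4 : Int
  h4 : Int
  l5 : Int
  h5 : Int
  ta : Int
  tb : Int

/-- minimum of `a * x` for `lo ≤ x ≤ hi` -/
def imin (a lo hi : Int) : Int :=
  match a with
  | .ofNat n => Int.ofNat n * lo
  | .negSucc n => Int.negSucc n * hi

/-- certificate of a leaf: rows, five packing multipliers, multipliers of the far edges -/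
structure Cert where
  l : List (Nat × Nat)
  s0 : Nat
  s1 : Nat
  s2 : Nat
  s3 : Nat
  s4 : Nat
  t : List Nat

/-- lower bound of the aggregated form at a corner `(x, y)` of the box of `W₂` -/
def corner (K T : Int) (b : Box) (R : Row) (s0 s1 s2 s3 s4 x y : Int) : Int :=
  let cx3 := -6 * K + 3 * T * (b.l2 - b.h0 + (b.h2 - b.l0))
  let cy3 := 2 * K + T * (b.l3 - b.h1 + (b.h3 - b.l1))
  let cx4 := -6 * K + 3 * T * (b.l4 - b.h2 + (b.h4 - b.l2))
  let cy4 := -2 * K + T * (b.l5 - b.h3 + (b.h5 - b.l3))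
  50 * R.f * y * K + 2 * (R.x2 * x + R.y2 * y) * K
    + s0 * T * (3 * b.l0 * b.h0 + b.l1 * b.h1)
    - s1 * (4 * y * K + T * (3 * ((b.l2 + b.h2) * x - b.l2 * b.h2) + (b.l3 + b.h3) * y - b.l3 * b.h3))
    + s2 * T * (3 * b.l4 * b.h4 + b.l5 * b.h5)
    - s3 * (cx3 * x + cy3 * y - T * (3 * (b.l2 - b.h0) * (b.h2 - b.l0) + (b.l3 - b.h1) * (b.h3 - b.l1)))
    + s4 * (cx4 * x + cy4 * y + T * (3 * (b.l4 - b.h2) * (b.h4 - b.l2) + (b.l5 - b.h3) * (b.h5 - b.l3)))
    + imin (25 * R.f * (2 * K + T * y) + 2 * R.x1 * K - s0 * (6 * K + 3 * T * (b.l0 + b.h0)) + s3 * cx3) b.l0 b.h0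
    + imin (-(25 * R.f * T * x) + 2 * R.y1 * K - s0 * (2 * K + T * (b.l1 + b.h1)) + s3 * cy3) b.l1 b.h1
    + imin (-(25 * R.f * (2 * K + T * y)) + 2 * R.x3 * K - s2 * (-6 * K + 3 * T * (b.l4 + b.h4)) - s4 * cx4) b.l4 b.h4
    + imin (25 * R.f * T * x + 2 * R.y3 * K - s2 * (2 * K + T * (b.l5 + b.h5)) - s4 * cy4) b.l5 b.h5

/-- multipliers of the far constraints at edge `j` -/
def farS (j : Nat) : List (Nat × Nat) → List Nat → Int
  | (e, _) :: F, n :: t => (if e = j then Int.ofNat n else 0) + farS j F t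
  | _, _ => 0

/-- constant of the far constraints: `(edge, Q)` means `4 |edge|² ≥ Q / 10000`, `Q ≥ 40000` -/
def farC : List (Nat × Nat) → List Nat → Int
  | (_, Q) :: F, n :: t => Int.ofNat n * (Int.ofNat Q - 40000) + farC F t
  | _, _ => 0

/-- positivity at one end of the `T` interval and at one corner -/
def okVal (κ T tb c C A : Int) : Bool :=
  if T = 0 then decide (c = 0) && decide (0 < A * tb * 10000 + C * κ)
  else decide (0 < A * T * tb * 10000 + 20000 * c * κ * tb + C * κ * T)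

/-- positivity at one end of the `T` interval -/
def okEnd (D D' T : Int) (b : Box) (R : Row) (s0 s1 s2 s3 s4 C : Int) : Bool :=
  okVal (D * D * D' * D') T b.tb R.c C (corner (D * D') T b R s0 s1 s2 s3 s4 b.l2 b.l3) &&
  okVal (D * D * D' * D') T b.tb R.c C (corner (D * D') T b R s0 s1 s2 s3 s4 b.l2 b.h3) &&
  okVal (D * D * D' * D') T b.tb R.c C (corner (D * D') T b R s0 s1 s2 s3 s4 b.h2 b.l3) &&
  okVal (D * D * D' * D') T b.tb R.c C (corner (D * D') T b R s0 s1 s2 s3 s4 b.h2 b.h3)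

/-- sign conditions of the aggregated row -/
def okRow (R : Row) : Bool :=
  decide (R.a = 0) && decide (R.b = 0) && decide (R.e = 0) && decide (0 ≤ R.v1) && decide (0 ≤ R.v2) &&
  decide (0 ≤ R.v3) && decide (0 ≤ R.p) && decide (0 ≤ R.q) && decide (0 ≤ R.r) && decide (0 ≤ R.s) &&
  decide (0 ≤ R.h) && decide (0 ≤ R.k) && decide (R.c ≤ 0) && decide (0 ≤ R.d)

/-- parameters of a problem -/
structure Prm where
  D : Int
  D' : Int
  rows : List Row
  far : List (Nat × Nat)

def okLeaf (P : Prm) (b : Box) (z : Cert) : Bool :=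
  let R := comb P.rows z.l
  let C := 20000 * R.d + farC P.far z.t
  let s0 := Int.ofNat z.s0 + farS 0 P.far z.t
  let s1 := Int.ofNat z.s1 + farS 1 P.far z.t
  let s2 := Int.ofNat z.s2 + farS 2 P.far z.t
  let s3 := Int.ofNat z.s3 + farS 3 P.far z.t
  let s4 := Int.ofNat z.s4 + farS 4 P.far z.t
  okRow R && decide (0 ≤ C) && decide (0 ≤ b.ta) && decide (b.ta < b.tb) &&
  okEnd P.D P.D' b.ta b R s0 s1 s2 s3 s4 C && okEnd P.D P.D' b.tb b R s0 s1 s2 s3 s4 C

/-- bisection tree -/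
inductive Tree where
  | L (z : Cert) : Tree
  | N (a : Nat) (l r : Tree) : Tree

def Box.left (b : Box) : Nat → Box
  | 0 => { b with h0 := (b.l0 + b.h0) / 2 }
  | 1 => { b with h1 := (b.l1 + b.h1) / 2 }
  | 2 => { b with h2 := (b.l2 + b.h2) / 2 }
  | 3 => { b with h3 := (b.l3 + b.h3) / 2 }
  | 4 => { b with h4 := (b.l4 + b.h4) / 2 }
  | 5 => { b with h5 := (b.l5 + b.h5) / 2 }
  | _ => { b with tb := (b.ta + b.tb) / 2 }

def Box.right (b : Box) : Nat → Box
  | 0 => { b with l0 := (b.l0 + b.h0) / 2 }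
  | 1 => { b with l1 := (b.l1 + b.h1) / 2 }
  | 2 => { b with l2 := (b.l2 + b.h2) / 2 }
  | 3 => { b with l3 := (b.l3 + b.h3) / 2 }
  | 4 => { b with l4 := (b.l4 + b.h4) / 2 }
  | 5 => { b with l5 := (b.l5 + b.h5) / 2 }
  | _ => { b with ta := (b.ta + b.tb) / 2 }

def Tree.check (P : Prm) : Tree → Box → Bool
  | .L z, b => okLeaf P b z
  | .N a l r, b => l.check P (b.left a) && r.check P (b.right a)

end Pool.Agent.H30.P6
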