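import Pool.Agent.H30.P6.Snd

/-!
# Reduction of a nonzero configuration to the boxes of the boundary of the cube
-/

set_option autoImplicit false

namespace Pool.Agent.H30.P6

/-- nonzero and bounded relative displacements -/
structure Bd (z : Pt) : Prop where
  ne : ¬ (z.X1 = 0 ∧ z.Y1 = 0 ∧ z.X2 = 0 ∧ z.Y2 = 0 ∧ z.X3 = 0 ∧ z.Y3 = 0)
  b0 : |z.X1| ≤ 21 / 16
  b1 : |z.Y1| ≤ 21 / 8
  b2 : |z.X2| ≤ 21 / 16
  b3 : |z.Y2| ≤ 21 / 8
  b4 : |z.X3| ≤ 21 / 16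
  b5 : |z.Y3| ≤ 21 / 8

theorem exists_max6 (a0 a1 a2 a3 a4 a5 : ℝ) : ∃ t : ℝ, a0 ≤ t ∧ a1 ≤ t ∧ a2 ≤ t ∧ a3 ≤ t ∧ a4 ≤ t ∧ a5 ≤ t ∧
    (t = a0 ∨ t = a1 ∨ t = a2 ∨ t = a3 ∨ t = a4 ∨ t = a5) := by
  have key : ∀ a b : ℝ, ∃ t, a ≤ t ∧ b ≤ t ∧ (t = a ∨ t = b) := fun a b => by
    rcases le_total a b with h | h
    · exact ⟨b, h, le_refl b, Or.inr rfl⟩
    · exact ⟨a, le_refl a, h, Or.inl rfl⟩
  obtain ⟨s1, h1, h2, h3⟩ := key a0 a1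
  obtain ⟨s2, h4, h5, h6⟩ := key s1 a2
  obtain ⟨s3, h7, h8, h9⟩ := key s2 a3
  obtain ⟨s4, h10, h11, h12⟩ := key s3 a4
  obtain ⟨s5, h13, h14, h15⟩ := key s4 a5
  refine ⟨s5, by linarith, by linarith, by linarith, by linarith, by linarith, by linarith, ?_⟩
  rcases h15 with h15 | h15
  · rcases h12 with h12 | h12
    · rcases h9 with h9 | h9
      · rcases h6 with h6 | h6
        · rcases h3 with h3 | h3
          · left; linarith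
          · right; left; linarith
        · right; right; left; linarith
      · right; right; right; left; linarith
    · right; right; right; right; left; linarith
  · right; right; right; right; right; linarith

/-- the cube -/
structure InCube (D N : ℤ) (T W0 W1 W2 W3 W4 W5 : ℝ) : Prop where
  hT : 0 < T
  hN : T ≤ N
  h0 : |W0| ≤ D
  h1 : |W1| ≤ 2 * D
  h2 : |W2| ≤ D
  h3 : |W3| ≤ 2 * D
  h4 : |W4| ≤ D
  h5 : |W5| ≤ 2 * D

theorem cube_scaled (D D' N : ℤ) (hD : 0 < D) (hD' : 0 < D') (hN : 16 * N = 21 * D') {z : Pt} (hz : Bd z) :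
    ∃ T W0 W1 W2 W3 W4 W5 : ℝ, InCube D N T W0 W1 W2 W3 W4 W5 ∧ Scl (D * D') T z W0 W1 W2 W3 W4 W5 ∧
      (|W0| = D ∨ |W1| = 2 * D ∨ |W2| = D ∨ |W3| = 2 * D ∨ |W4| = D ∨ |W5| = 2 * D) := by
  obtain ⟨t, m0, m1, m2, m3, m4, m5, hm⟩ := exists_max6 |z.X1| (|z.Y1| / 2) |z.X2| (|z.Y2| / 2) |z.X3| (|z.Y3| / 2)
  have hDr : (0 : ℝ) < D := by exact_mod_cast hD
  have hDr' : (0 : ℝ) < D' := by exact_mod_cast hD'
  have hNr : (16 : ℝ) * N = 21 * D' := by exact_mod_cast hN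
  have ht : 0 < t := by
    by_contra hcon
    push Not at hcon
    apply hz.ne
    have e0 := abs_nonneg z.X1
    have e1 := abs_nonneg z.Y1
    have e2 := abs_nonneg z.X2
    have e3 := abs_nonneg z.Y2
    have e4 := abs_nonneg z.X3
    have e5 := abs_nonneg z.Y3
    refine ⟨abs_eq_zero.1 (by linarith), abs_eq_zero.1 (by linarith), abs_eq_zero.1 (by linarith),
      abs_eq_zero.1 (by linarith), abs_eq_zero.1 (by linarith), abs_eq_zero.1 (by linarith)⟩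
  have htm : t ≤ 21 / 16 := by
    have := hz.b0; have := hz.b1; have := hz.b2; have := hz.b3; have := hz.b4; have := hz.b5
    rcases hm with h | h | h | h | h | h <;> rw [h] <;> linarith
  have habs : ∀ x : ℝ, |D * x / t| = D * |x| / t := fun x => by
    rw [abs_div, abs_mul, abs_of_pos hDr, abs_of_pos ht]
  have bd : ∀ x c : ℝ, |x| ≤ c * t → |D * x / t| ≤ c * D := fun x c hx => by
    rw [habs, div_le_iff₀ ht]; nlinarith
  refine ⟨D' * t, D * z.X1 / t, D * z.Y1 / t, D * z.X2 / t, D * z.Y2 / t, D * z.X3 / t, D * z.Y3 / t, ?_, ?_, ?_⟩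
  · refine ⟨by positivity, by nlinarith, ?_, ?_, ?_, ?_, ?_, ?_⟩
    · have := bd z.X1 1 (by linarith); linarith
    · exact bd z.Y1 2 (by linarith)
    · have := bd z.X2 1 (by linarith); linarith
    · exact bd z.Y2 2 (by linarith)
    · have := bd z.X3 1 (by linarith); linarith
    · exact bd z.Y3 2 (by linarith)
  · constructor <;> field_simp
  · simp only [habs]
    rcases hm with h | h | h | h | h | h
    · left; rw [← h]; field_simp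
    · right; left; rw [show |z.Y1| = 2 * t by linarith]; field_simp
    · right; right; left; rw [← h]; field_simp
    · right; right; right; left; rw [show |z.Y2| = 2 * t by linarith]; field_simp
    · right; right; right; right; left; rw [← h]; field_simp
    · right; right; right; right; right; rw [show |z.Y3| = 2 * t by linarith]; field_simp

/-- the twelve boxes -/
theorem cube_boxes (D D' N : ℤ) (hD : 0 < D) (hD' : 0 < D') (hN : 16 * N = 21 * D') {z : Pt} (hz : Bd z) :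
    ∃ T W0 W1 W2 W3 W4 W5 : ℝ, 0 < T ∧ Scl (D * D') T z W0 W1 W2 W3 W4 W5 ∧
      (InBox ⟨-D, -D, -2 * D, 2 * D, -D, D, -2 * D, 2 * D, -D, D, -2 * D, 2 * D, 0, N⟩ T W0 W1 W2 W3 W4 W5 ∨
       InBox ⟨D, D, -2 * D, 2 * D, -D, D, -2 * D, 2 * D, -D, D, -2 * D, 2 * D, 0, N⟩ T W0 W1 W2 W3 W4 W5 ∨
       InBox ⟨-D, D, -2 * D, -2 * D, -D, D, -2 * D, 2 * D, -D, D, -2 * D, 2 * D, 0, N⟩ T W0 W1 W2 W3 W4 W5 ∨
       InBox ⟨-D, D, 2 * D, 2 * D, -D, D, -2 * D, 2 * D, -D, D, -2 * D, 2 * D, 0, N⟩ T W0 W1 W2 W3 W4 W5 ∨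
       InBox ⟨-D, D, -2 * D, 2 * D, -D, -D, -2 * D, 2 * D, -D, D, -2 * D, 2 * D, 0, N⟩ T W0 W1 W2 W3 W4 W5 ∨
       InBox ⟨-D, D, -2 * D, 2 * D, D, D, -2 * D, 2 * D, -D, D, -2 * D, 2 * D, 0, N⟩ T W0 W1 W2 W3 W4 W5 ∨
       InBox ⟨-D, D, -2 * D, 2 * D, -D, D, -2 * D, -2 * D, -D, D, -2 * D, 2 * D, 0, N⟩ T W0 W1 W2 W3 W4 W5 ∨
       InBox ⟨-D, D, -2 * D, 2 * D, -D, D, 2 * D, 2 * D, -D, D, -2 * D, 2 * D, 0, N⟩ T W0 W1 W2 W3 W4 W5 ∨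
       InBox ⟨-D, D, -2 * D, 2 * D, -D, D, -2 * D, 2 * D, -D, -D, -2 * D, 2 * D, 0, N⟩ T W0 W1 W2 W3 W4 W5 ∨
       InBox ⟨-D, D, -2 * D, 2 * D, -D, D, -2 * D, 2 * D, D, D, -2 * D, 2 * D, 0, N⟩ T W0 W1 W2 W3 W4 W5 ∨
       InBox ⟨-D, D, -2 * D, 2 * D, -D, D, -2 * D, 2 * D, -D, D, -2 * D, -2 * D, 0, N⟩ T W0 W1 W2 W3 W4 W5 ∨
       InBox ⟨-D, D, -2 * D, 2 * D, -D, D, -2 * D, 2 * D, -D, D, 2 * D, 2 * D, 0, N⟩ T W0 W1 W2 W3 W4 W5) := by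
  obtain ⟨T, W0, W1, W2, W3, W4, W5, ⟨hT, hTN, h0, h1, h2, h3, h4, h5⟩, hs, h⟩ := cube_scaled D D' N hD hD' hN hz
  refine ⟨T, W0, W1, W2, W3, W4, W5, hT, hs, ?_⟩
  have hDr : (0 : ℝ) < D := by exact_mod_cast hD
  rw [abs_le] at h0 h1 h2 h3 h4 h5
  have mk : ∀ l0 u0 l1 u1 l2 u2 l3 u3 l4 u4 l5 u5 : ℤ, ((l0 : ℝ) ≤ W0 ∧ W0 ≤ u0) → ((l1 : ℝ) ≤ W1 ∧ W1 ≤ u1) →
      ((l2 : ℝ) ≤ W2 ∧ W2 ≤ u2) → ((l3 : ℝ) ≤ W3 ∧ W3 ≤ u3) → ((l4 : ℝ) ≤ W4 ∧ W4 ≤ u4) → ((l5 : ℝ) ≤ W5 ∧ W5 ≤ u5) →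
      InBox ⟨l0, u0, l1, u1, l2, u2, l3, u3, l4, u4, l5, u5, 0, N⟩ T W0 W1 W2 W3 W4 W5 :=
    fun _ _ _ _ _ _ _ _ _ _ _ _ a b c d e f => ⟨a, b, c, d, e, f, ⟨by simpa using hT.le, hTN⟩⟩
  have g0 : (((-D : ℤ) : ℝ) ≤ W0 ∧ W0 ≤ ((D : ℤ) : ℝ)) := by push_cast; exact h0
  have g1 : (((-2 * D : ℤ) : ℝ) ≤ W1 ∧ W1 ≤ ((2 * D : ℤ) : ℝ)) := by push_cast; exact ⟨by linarith, h1.2⟩
  have g2 : (((-D : ℤ) : ℝ) ≤ W2 ∧ W2 ≤ ((D : ℤ) : ℝ)) := by push_cast; exact h2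
  have g3 : (((-2 * D : ℤ) : ℝ) ≤ W3 ∧ W3 ≤ ((2 * D : ℤ) : ℝ)) := by push_cast; exact ⟨by linarith, h3.2⟩
  have g4 : (((-D : ℤ) : ℝ) ≤ W4 ∧ W4 ≤ ((D : ℤ) : ℝ)) := by push_cast; exact h4
  have g5 : (((-2 * D : ℤ) : ℝ) ≤ W5 ∧ W5 ≤ ((2 * D : ℤ) : ℝ)) := by push_cast; exact ⟨by linarith, h5.2⟩
  have ab : ∀ x c : ℝ, 0 ≤ c → |x| = c → x = -c ∨ x = c := fun x c hc hx => by
    rcases abs_eq hc |>.1 hx with h | h
    · exact Or.inr h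
    · exact Or.inl h
  have ee : ∀ x : ℝ, ∀ n : ℤ, x = n → ((n : ℝ) ≤ x ∧ x ≤ (n : ℝ)) := fun x n h => ⟨h.ge, h.le⟩
  rcases h with h | h | h | h | h | h
  · rcases ab _ _ hDr.le h with h | h
    · left; exact mk _ _ _ _ _ _ _ _ _ _ _ _ (ee _ _ (by push_cast; exact h)) g1 g2 g3 g4 g5
    · right; left; exact mk _ _ _ _ _ _ _ _ _ _ _ _ (ee _ _ h) g1 g2 g3 g4 g5
  · rcases ab _ _ (by positivity) h with h | h
    · right; right; left; exact mk _ _ _ _ _ _ _ _ _ _ _ _ g0 (ee _ _ (by push_cast; linarith)) g2 g3 g4 g5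
    · right; right; right; left; exact mk _ _ _ _ _ _ _ _ _ _ _ _ g0 (ee _ _ (by push_cast; exact h)) g2 g3 g4 g5
  · rcases ab _ _ hDr.le h with h | h
    · right; right; right; right; left
      exact mk _ _ _ _ _ _ _ _ _ _ _ _ g0 g1 (ee _ _ (by push_cast; exact h)) g3 g4 g5
    · right; right; right; right; right; left
      exact mk _ _ _ _ _ _ _ _ _ _ _ _ g0 g1 (ee _ _ h) g3 g4 g5
  · rcases ab _ _ (by positivity) h with h | h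
    · right; right; right; right; right; right; left
      exact mk _ _ _ _ _ _ _ _ _ _ _ _ g0 g1 g2 (ee _ _ (by push_cast; linarith)) g4 g5
    · right; right; right; right; right; right; right; left
      exact mk _ _ _ _ _ _ _ _ _ _ _ _ g0 g1 g2 (ee _ _ (by push_cast; exact h)) g4 g5
  · rcases ab _ _ hDr.le h with h | h
    · right; right; right; right; right; right; right; right; left
      exact mk _ _ _ _ _ _ _ _ _ _ _ _ g0 g1 g2 g3 (ee _ _ (by push_cast; exact h)) g5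
    · right; right; right; right; right; right; right; right; right; left
      exact mk _ _ _ _ _ _ _ _ _ _ _ _ g0 g1 g2 g3 (ee _ _ h) g5
  · rcases ab _ _ (by positivity) h with h | h
    · right; right; right; right; right; right; right; right; right; right; left
      exact mk _ _ _ _ _ _ _ _ _ _ _ _ g0 g1 g2 g3 g4 (ee _ _ (by push_cast; linarith))
    · right; right; right; right; right; right; right; right; right; right; right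
      exact mk _ _ _ _ _ _ _ _ _ _ _ _ g0 g1 g2 g3 g4 (ee _ _ (by push_cast; exact h))

theorem InBox.pos2 {l0 u0 l1 u1 l2 u2 l3 u3 l4 u4 l5 u5 ta tb : ℤ} {T W0 W1 W2 W3 W4 W5 : ℝ}
    (h : InBox ⟨l0, u0, l1, u1, l2, u2, l3, u3, l4, u4, l5, u5, ta, tb⟩ T W0 W1 W2 W3 W4 W5) (h2 : 0 ≤ W2) :
    InBox ⟨l0, u0, l1, u1, 0, u2, l3, u3, l4, u4, l5, u5, ta, tb⟩ T W0 W1 W2 W3 W4 W5 :=
  ⟨h.h0, h.h1, ⟨by simpa using h2, h.h2.2⟩, h.h3, h.h4, h.h5, h.hT⟩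

theorem Scl.pos2 {K T : ℝ} {z : Pt} {W0 W1 W2 W3 W4 W5 : ℝ} (h : Scl K T z W0 W1 W2 W3 W4 W5) (hK : 0 < K)
    (hT : 0 < T) (h2 : 0 ≤ z.X2) : 0 ≤ W2 := by
  have := h.e2
  have h3 : 0 ≤ z.X2 * K := by positivity
  rw [this] at h3
  exact nonneg_of_mul_nonneg_right h3 hT

end Pool.Agent.H30.P6
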