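import Pool.Agent.H30.P6.BSnd
import Pool.Agent.H30.P6.Cfg

/-!
# Virtual fans: rows (generated) and hypotheses in scaled coordinates, without hitting point
-/

set_option autoImplicit false

noncomputable section

namespace Pool.Agent.H30.Q

open Pool.Agent.H30.P6 (VLe Str)

/-- a fan with frames `d_m + v_m`, scaled coordinates -/
structure NCfg (X1 Y1 X2 Y2 X3 Y3 V1 V2 V3 p q r s h k : ℝ) : Prop where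
  v1 : VLe X1 Y1 V1
  v2 : VLe X2 Y2 V2
  v3 : VLe X3 Y3 V3
  b1 : V1 ≤ 1 / 3
  b2 : V2 ≤ 1 / 3
  b3 : V3 ≤ 1 / 3
  p0 : 0 ≤ p
  q0 : 0 ≤ q
  r0 : 0 ≤ r
  s0 : 0 ≤ s
  p1 : -(3 * X1 + Y1) ≤ 25 * p
  q1 : -(3 * X2 + Y2) ≤ 25 * q
  r1 : -(-3 * X2 + Y2) ≤ 25 * r
  s1 : -(-3 * X3 + Y3) ≤ 25 * s
  h1 : Str (-1 + X2 - X1) (1 + Y2 - Y1) h
  k1 : Str (-1 + X3 - X2) (-1 + Y3 - Y2) k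
  hh : h ≤ 47 / 625
  kk : k ≤ 47 / 625
  f1 : V1 + r + s + k ≤ 1 / 3
  f2 : V2 + p + q + r + s + h + k ≤ 1 / 3
  f3 : V3 + p + q + h ≤ 1 / 3
  g12 : 4 ≤ 3 * (-1 + X2 - X1) ^ 2 + (1 + Y2 - Y1) ^ 2
  g23 : 4 ≤ 3 * (-1 + X3 - X2) ^ 2 + (-1 + Y3 - Y2) ^ 2

theorem lin_of_sq {A B R : ℝ} (h : 3 * A ^ 2 + B ^ 2 ≤ R) (gx gy bd : ℝ) (h0 : 0 ≤ bd)
    (h1 : (gx ^ 2 + 3 * gy ^ 2) * R ≤ 3 * bd ^ 2) : gx * A + gy * B ≤ bd := by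
  have h2 : 3 * (gx * A + gy * B) ^ 2 ≤ (gx ^ 2 + 3 * gy ^ 2) * (3 * A ^ 2 + B ^ 2) := by
    nlinarith [sq_nonneg (gx * B - 3 * gy * A)]
  have h3 : (gx ^ 2 + 3 * gy ^ 2) * (3 * A ^ 2 + B ^ 2) ≤ (gx ^ 2 + 3 * gy ^ 2) * R :=
    mul_le_mul_of_nonneg_left h (by positivity)
  have h4 : (gx * A + gy * B) ^ 2 ≤ bd ^ 2 := by linarith
  exact le_trans (le_abs_self _) (abs_le_of_sq_le_sq h4 h0)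

theorem tan_le (A B cA cB : ℝ) : 2 * (3 * A * cA + B * cB) - (3 * cA ^ 2 + cB ^ 2) ≤ 3 * A ^ 2 + B ^ 2 := by
  nlinarith [sq_nonneg (A - cA), sq_nonneg (B - cB)]

/-- the point -/
def NCfg.pt (X1 Y1 X2 Y2 X3 Y3 V1 V2 V3 p q r s h k : ℝ) : Pt :=
  ⟨X1, Y1, X2, Y2, X3, Y3, 0, 0, 50 * V1, 50 * V2, 50 * V3, 50 * p, 50 * q, 50 * r, 50 * s, 50 * h, 50 * k⟩

/-- the common rows -/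
def cN : List Row := [
  ⟨0, 0, 0, 0, 0, 0, 0, 0, 0, 0, 0, 0, 0, 0, 0, 0, 0, 0, 0, 3, 0, 0, 0, 0, 3, 3, 0, 3, -50⟩,
  ⟨0, 0, 0, 0, 0, 0, 0, 0, 0, 0, 0, 0, 0, 0, 0, 0, 0, 0, 0, 0, 3, 0, 3, 3, 3, 3, 3, 3, -50⟩,
  ⟨0, 0, 0, 0, 0, 0, 0, 0, 0, 0, 0, 0, 0, 0, 0, 0, 0, 0, 0, 0, 0, 3, 3, 3, 0, 0, 3, 0, -50⟩,
  ⟨0, 0, 0, 0, 0, 0, 0, 0, 0, 0, 0, 0, -24, 0, 0, 0, 0, 0, 0, -1, 0, 0, 0, 0, 0, 0, 0, 0, 0⟩,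
  ⟨0, 0, 0, 0, 0, 0, 0, 0, 0, 0, 0, 16, -16, 0, 0, 0, 0, 0, 0, -1, 0, 0, 0, 0, 0, 0, 0, 0, 0⟩,
  ⟨0, 0, 0, 0, 0, 0, 0, 0, 0, 0, 0, -16, -16, 0, 0, 0, 0, 0, 0, -1, 0, 0, 0, 0, 0, 0, 0, 0, 0⟩,
  ⟨0, 0, 0, 0, 0, 0, 0, 0, 0, 0, 0, 25, -11, 0, 0, 0, 0, 0, 0, -1, 0, 0, 0, 0, 0, 0, 0, 0, 0⟩,
  ⟨0, 0, 0, 0, 0, 0, 0, 0, 0, 0, 0, -25, -11, 0, 0, 0, 0, 0, 0, -1, 0, 0, 0, 0, 0, 0, 0, 0, 0⟩,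
  ⟨0, 0, 0, 0, 0, 0, 0, 0, 0, 0, 0, 43, 0, 0, 0, 0, 0, 0, 0, -1, 0, 0, 0, 0, 0, 0, 0, 0, 0⟩,
  ⟨0, 0, 0, 0, 0, 0, 0, 0, 0, 0, 0, -43, 0, 0, 0, 0, 0, 0, 0, -1, 0, 0, 0, 0, 0, 0, 0, 0, 0⟩,
  ⟨0, 0, 0, 0, 0, 0, 0, 0, 0, 0, 0, 75, 25, 0, 0, 0, 0, 0, 0, -1, 0, 0, 0, 0, 0, 0, 0, 0, 0⟩,
  ⟨0, 0, 0, 0, 0, 0, 0, 0, 0, 0, 0, -75, 25, 0, 0, 0, 0, 0, 0, -1, 0, 0, 0, 0, 0, 0, 0, 0, 0⟩,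
  ⟨0, 0, 0, 0, 0, 0, 0, 0, 0, 0, 0, 56, 56, 0, 0, 0, 0, 0, 0, -1, 0, 0, 0, 0, 0, 0, 0, 0, 0⟩,
  ⟨0, 0, 0, 0, 0, 0, 0, 0, 0, 0, 0, -56, 56, 0, 0, 0, 0, 0, 0, -1, 0, 0, 0, 0, 0, 0, 0, 0, 0⟩,
  ⟨0, 0, 0, 0, 0, 0, 0, 0, 0, 0, 0, 0, 112, 0, 0, 0, 0, 0, 0, -1, 0, 0, 0, 0, 0, 0, 0, 0, 0⟩,
  ⟨0, 0, 0, 0, 0, 0, 0, 0, 0, 0, 0, 0, 0, 0, -24, 0, 0, 0, 0, 0, -1, 0, 0, 0, 0, 0, 0, 0, 0⟩,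
  ⟨0, 0, 0, 0, 0, 0, 0, 0, 0, 0, 0, 0, 0, 16, -16, 0, 0, 0, 0, 0, -1, 0, 0, 0, 0, 0, 0, 0, 0⟩,
  ⟨0, 0, 0, 0, 0, 0, 0, 0, 0, 0, 0, 0, 0, -16, -16, 0, 0, 0, 0, 0, -1, 0, 0, 0, 0, 0, 0, 0, 0⟩,
  ⟨0, 0, 0, 0, 0, 0, 0, 0, 0, 0, 0, 0, 0, 25, -11, 0, 0, 0, 0, 0, -1, 0, 0, 0, 0, 0, 0, 0, 0⟩,
  ⟨0, 0, 0, 0, 0, 0, 0, 0, 0, 0, 0, 0, 0, -25, -11, 0, 0, 0, 0, 0, -1, 0, 0, 0, 0, 0, 0, 0, 0⟩,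
  ⟨0, 0, 0, 0, 0, 0, 0, 0, 0, 0, 0, 0, 0, 43, 0, 0, 0, 0, 0, 0, -1, 0, 0, 0, 0, 0, 0, 0, 0⟩,
  ⟨0, 0, 0, 0, 0, 0, 0, 0, 0, 0, 0, 0, 0, -43, 0, 0, 0, 0, 0, 0, -1, 0, 0, 0, 0, 0, 0, 0, 0⟩,
  ⟨0, 0, 0, 0, 0, 0, 0, 0, 0, 0, 0, 0, 0, 75, 25, 0, 0, 0, 0, 0, -1, 0, 0, 0, 0, 0, 0, 0, 0⟩,
  ⟨0, 0, 0, 0, 0, 0, 0, 0, 0, 0, 0, 0, 0, -75, 25, 0, 0, 0, 0, 0, -1, 0, 0, 0, 0, 0, 0, 0, 0⟩,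
  ⟨0, 0, 0, 0, 0, 0, 0, 0, 0, 0, 0, 0, 0, 56, 56, 0, 0, 0, 0, 0, -1, 0, 0, 0, 0, 0, 0, 0, 0⟩,
  ⟨0, 0, 0, 0, 0, 0, 0, 0, 0, 0, 0, 0, 0, -56, 56, 0, 0, 0, 0, 0, -1, 0, 0, 0, 0, 0, 0, 0, 0⟩,
  ⟨0, 0, 0, 0, 0, 0, 0, 0, 0, 0, 0, 0, 0, 0, 112, 0, 0, 0, 0, 0, -1, 0, 0, 0, 0, 0, 0, 0, 0⟩,
  ⟨0, 0, 0, 0, 0, 0, 0, 0, 0, 0, 0, 0, 0, 0, 0, 0, -24, 0, 0, 0, 0, -1, 0, 0, 0, 0, 0, 0, 0⟩,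
  ⟨0, 0, 0, 0, 0, 0, 0, 0, 0, 0, 0, 0, 0, 0, 0, 16, -16, 0, 0, 0, 0, -1, 0, 0, 0, 0, 0, 0, 0⟩,
  ⟨0, 0, 0, 0, 0, 0, 0, 0, 0, 0, 0, 0, 0, 0, 0, -16, -16, 0, 0, 0, 0, -1, 0, 0, 0, 0, 0, 0, 0⟩,
  ⟨0, 0, 0, 0, 0, 0, 0, 0, 0, 0, 0, 0, 0, 0, 0, 25, -11, 0, 0, 0, 0, -1, 0, 0, 0, 0, 0, 0, 0⟩,
  ⟨0, 0, 0, 0, 0, 0, 0, 0, 0, 0, 0, 0, 0, 0, 0, -25, -11, 0, 0, 0, 0, -1, 0, 0, 0, 0, 0, 0, 0⟩,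
  ⟨0, 0, 0, 0, 0, 0, 0, 0, 0, 0, 0, 0, 0, 0, 0, 43, 0, 0, 0, 0, 0, -1, 0, 0, 0, 0, 0, 0, 0⟩,
  ⟨0, 0, 0, 0, 0, 0, 0, 0, 0, 0, 0, 0, 0, 0, 0, -43, 0, 0, 0, 0, 0, -1, 0, 0, 0, 0, 0, 0, 0⟩,
  ⟨0, 0, 0, 0, 0, 0, 0, 0, 0, 0, 0, 0, 0, 0, 0, 75, 25, 0, 0, 0, 0, -1, 0, 0, 0, 0, 0, 0, 0⟩,
  ⟨0, 0, 0, 0, 0, 0, 0, 0, 0, 0, 0, 0, 0, 0, 0, -75, 25, 0, 0, 0, 0, -1, 0, 0, 0, 0, 0, 0, 0⟩,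
  ⟨0, 0, 0, 0, 0, 0, 0, 0, 0, 0, 0, 0, 0, 0, 0, 56, 56, 0, 0, 0, 0, -1, 0, 0, 0, 0, 0, 0, 0⟩,
  ⟨0, 0, 0, 0, 0, 0, 0, 0, 0, 0, 0, 0, 0, 0, 0, -56, 56, 0, 0, 0, 0, -1, 0, 0, 0, 0, 0, 0, 0⟩,
  ⟨0, 0, 0, 0, 0, 0, 0, 0, 0, 0, 0, 0, 0, 0, 0, 0, 112, 0, 0, 0, 0, -1, 0, 0, 0, 0, 0, 0, 0⟩,
  ⟨0, 0, 0, 0, 0, 0, 0, 0, 0, 0, 0, -6, -2, 0, 0, 0, 0, 0, 0, 0, 0, 0, -1, 0, 0, 0, 0, 0, 0⟩,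
  ⟨0, 0, 0, 0, 0, 0, 0, 0, 0, 0, 0, 0, 0, -6, -2, 0, 0, 0, 0, 0, 0, 0, 0, -1, 0, 0, 0, 0, 0⟩,
  ⟨0, 0, 0, 0, 0, 0, 0, 0, 0, 0, 0, 0, 0, 6, -2, 0, 0, 0, 0, 0, 0, 0, 0, 0, -1, 0, 0, 0, 0⟩,
  ⟨0, 0, 0, 0, 0, 0, 0, 0, 0, 0, 0, 0, 0, 0, 0, 6, -2, 0, 0, 0, 0, 0, 0, 0, 0, -1, 0, 0, 0⟩,
  ⟨0, 0, 0, 0, 0, 0, 0, 0, 0, 0, 0, 35, -34, -35, 34, 0, 0, 0, 0, 0, 0, 0, 0, 0, 0, 0, -10, 0, -11⟩,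
  ⟨0, 0, 0, 0, 0, 0, 0, 0, 0, 0, 0, 43, -31, -43, 31, 0, 0, 0, 0, 0, 0, 0, 0, 0, 0, 0, -10, 0, -6⟩,
  ⟨0, 0, 0, 0, 0, 0, 0, 0, 0, 0, 0, 26, -13, -26, 13, 0, 0, 0, 0, 0, 0, 0, 0, 0, 0, 0, -5, 0, -1⟩,
  ⟨0, 0, 0, 0, 0, 0, 0, 0, 0, 0, 0, 6, -2, -6, 2, 0, 0, 0, 0, 0, 0, 0, 0, 0, 0, 0, -1, 0, 0⟩,
  ⟨0, 0, 0, 0, 0, 0, 0, 0, 0, 0, 0, 32, -7, -32, 7, 0, 0, 0, 0, 0, 0, 0, 0, 0, 0, 0, -5, 0, -1⟩,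
  ⟨0, 0, 0, 0, 0, 0, 0, 0, 0, 0, 0, 68, -7, -68, 7, 0, 0, 0, 0, 0, 0, 0, 0, 0, 0, 0, -10, 0, -5⟩,
  ⟨0, 0, 0, 0, 0, 0, 0, 0, 0, 0, 0, 69, 0, -69, 0, 0, 0, 0, 0, 0, 0, 0, 0, 0, 0, 0, -10, 0, -11⟩,
  ⟨0, 0, 0, 0, 0, 0, 0, 0, 0, 0, 0, 0, 0, 69, 0, -69, 0, 0, 0, 0, 0, 0, 0, 0, 0, 0, 0, -10, -11⟩,
  ⟨0, 0, 0, 0, 0, 0, 0, 0, 0, 0, 0, 0, 0, 68, 7, -68, -7, 0, 0, 0, 0, 0, 0, 0, 0, 0, 0, -10, -5⟩,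
  ⟨0, 0, 0, 0, 0, 0, 0, 0, 0, 0, 0, 0, 0, 32, 7, -32, -7, 0, 0, 0, 0, 0, 0, 0, 0, 0, 0, -5, -1⟩,
  ⟨0, 0, 0, 0, 0, 0, 0, 0, 0, 0, 0, 0, 0, 6, 2, -6, -2, 0, 0, 0, 0, 0, 0, 0, 0, 0, 0, -1, 0⟩,
  ⟨0, 0, 0, 0, 0, 0, 0, 0, 0, 0, 0, 0, 0, 26, 13, -26, -13, 0, 0, 0, 0, 0, 0, 0, 0, 0, 0, -5, -1⟩,
  ⟨0, 0, 0, 0, 0, 0, 0, 0, 0, 0, 0, 0, 0, 43, 31, -43, -31, 0, 0, 0, 0, 0, 0, 0, 0, 0, 0, -10, -6⟩,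
  ⟨0, 0, 0, 0, 0, 0, 0, 0, 0, 0, 0, 0, 0, 35, 34, -35, -34, 0, 0, 0, 0, 0, 0, 0, 0, 0, 0, -10, -11⟩,
  ⟨0, 0, 0, 0, 0, 0, 0, 0, 0, 0, 0, 0, 0, 0, 0, 0, 0, 0, 0, 3, 0, 0, 0, 0, 0, 0, 0, 0, -50⟩,
  ⟨0, 0, 0, 0, 0, 0, 0, 0, 0, 0, 0, 0, 0, 0, 0, 0, 0, 0, 0, 0, 3, 0, 0, 0, 0, 0, 0, 0, -50⟩,
  ⟨0, 0, 0, 0, 0, 0, 0, 0, 0, 0, 0, 0, 0, 0, 0, 0, 0, 0, 0, 0, 0, 3, 0, 0, 0, 0, 0, 0, -50⟩,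
  ⟨0, 0, 0, 0, 0, 0, 0, 0, 0, 0, 0, 0, 0, 0, 0, 0, 0, 0, 0, 0, 0, 0, 0, 0, 0, 0, 25, 0, -94⟩,
  ⟨0, 0, 0, 0, 0, 0, 0, 0, 0, 0, 0, 0, 0, 0, 0, 0, 0, 0, 0, 0, 0, 0, 0, 0, 0, 0, 0, 25, -94⟩,
  ⟨0, 0, 0, 0, 0, 0, 0, 0, -1, 0, 0, -6, 2, 6, -2, 0, 0, 0, 0, 0, 0, 0, 0, 0, 0, 0, 0, 0, 0⟩,
  ⟨0, 0, 0, 0, 0, 0, 0, 0, 0, -1, 0, 0, 0, -6, -2, 6, 2, 0, 0, 0, 0, 0, 0, 0, 0, 0, 0, 0, 0⟩]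

/-- the initial box -/
def boxN : Box := ⟨-416, 416, -720, 176, -416, 416, -720, 176, -416, 416, -720, 176, 0, 0, 0, 0⟩

theorem NCfg.inbox {X1 Y1 X2 Y2 X3 Y3 V1 V2 V3 p q r s h k : ℝ}
    (c : NCfg X1 Y1 X2 Y2 X3 Y3 V1 V2 V3 p q r s h k) :
    InBox boxN (1024 * X1) (1024 * Y1) (1024 * X2) (1024 * Y2) (1024 * X3) (1024 * Y3) (1024 * 0) (1024 * 0) := by
  constructor <;> simp only [boxN] <;> push_cast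
  · constructor <;> linarith [c.v1.f6, c.v1.f7, c.b1]
  · constructor <;> linarith [c.v1.f1, c.v1.f12, c.b1]
  · constructor <;> linarith [c.v2.f6, c.v2.f7, c.b2]
  · constructor <;> linarith [c.v2.f1, c.v2.f12, c.b2]
  · constructor <;> linarith [c.v3.f6, c.v3.f7, c.b3]
  · constructor <;> linarith [c.v3.f1, c.v3.f12, c.b3]
  · constructor <;> linarith
  · constructor <;> linarith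

theorem cN_le {X1 Y1 X2 Y2 X3 Y3 V1 V2 V3 p q r s h k : ℝ}
    (c : NCfg X1 Y1 X2 Y2 X3 Y3 V1 V2 V3 p q r s h k) :
    ∀ R ∈ cN, R.ev (NCfg.pt X1 Y1 X2 Y2 X3 Y3 V1 V2 V3 p q r s h k) ≤ 0 := by
  intro R hR
  simp only [cN, List.mem_cons, List.not_mem_nil, or_false] at hR
  rcases hR with rfl | rfl | rfl | rfl | rfl | rfl | rfl | rfl | rfl | rfl | rfl | rfl | rfl | rfl | rfl | rfl | rfl | rfl | rfl | rfl | rfl | rfl | rfl | rfl | rfl | rfl | rfl | rfl | rfl | rfl | rfl | rfl | rfl | rfl | rfl | rfl | rfl | rfl | rfl | rfl | rfl | rfl | rfl | rfl | rfl | rfl | rfl | rfl | rfl | rfl | rfl | rfl | rfl | rfl | rfl | rfl | rfl | rfl | rfl | rfl | rfl | rfl | rfl | rfl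
  · simp only [Row.ev, NCfg.pt]; push_cast; linarith [c.f1]
  · simp only [Row.ev, NCfg.pt]; push_cast; linarith [c.f2]
  · simp only [Row.ev, NCfg.pt]; push_cast; linarith [c.f3]
  · simp only [Row.ev, NCfg.pt]; push_cast; linarith [c.v1.f1]
  · simp only [Row.ev, NCfg.pt]; push_cast; linarith [c.v1.f2]
  · simp only [Row.ev, NCfg.pt]; push_cast; linarith [c.v1.f3]
  · simp only [Row.ev, NCfg.pt]; push_cast; linarith [c.v1.f4]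
  · simp only [Row.ev, NCfg.pt]; push_cast; linarith [c.v1.f5]
  · simp only [Row.ev, NCfg.pt]; push_cast; linarith [c.v1.f6]
  · simp only [Row.ev, NCfg.pt]; push_cast; linarith [c.v1.f7]
  · simp only [Row.ev, NCfg.pt]; push_cast; linarith [c.v1.f8]
  · simp only [Row.ev, NCfg.pt]; push_cast; linarith [c.v1.f9]
  · simp only [Row.ev, NCfg.pt]; push_cast; linarith [c.v1.f10]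
  · simp only [Row.ev, NCfg.pt]; push_cast; linarith [c.v1.f11]
  · simp only [Row.ev, NCfg.pt]; push_cast; linarith [c.v1.f12]
  · simp only [Row.ev, NCfg.pt]; push_cast; linarith [c.v2.f1]
  · simp only [Row.ev, NCfg.pt]; push_cast; linarith [c.v2.f2]
  · simp only [Row.ev, NCfg.pt]; push_cast; linarith [c.v2.f3]
  · simp only [Row.ev, NCfg.pt]; push_cast; linarith [c.v2.f4]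
  · simp only [Row.ev, NCfg.pt]; push_cast; linarith [c.v2.f5]
  · simp only [Row.ev, NCfg.pt]; push_cast; linarith [c.v2.f6]
  · simp only [Row.ev, NCfg.pt]; push_cast; linarith [c.v2.f7]
  · simp only [Row.ev, NCfg.pt]; push_cast; linarith [c.v2.f8]
  · simp only [Row.ev, NCfg.pt]; push_cast; linarith [c.v2.f9]
  · simp only [Row.ev, NCfg.pt]; push_cast; linarith [c.v2.f10]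
  · simp only [Row.ev, NCfg.pt]; push_cast; linarith [c.v2.f11]
  · simp only [Row.ev, NCfg.pt]; push_cast; linarith [c.v2.f12]
  · simp only [Row.ev, NCfg.pt]; push_cast; linarith [c.v3.f1]
  · simp only [Row.ev, NCfg.pt]; push_cast; linarith [c.v3.f2]
  · simp only [Row.ev, NCfg.pt]; push_cast; linarith [c.v3.f3]
  · simp only [Row.ev, NCfg.pt]; push_cast; linarith [c.v3.f4]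
  · simp only [Row.ev, NCfg.pt]; push_cast; linarith [c.v3.f5]
  · simp only [Row.ev, NCfg.pt]; push_cast; linarith [c.v3.f6]
  · simp only [Row.ev, NCfg.pt]; push_cast; linarith [c.v3.f7]
  · simp only [Row.ev, NCfg.pt]; push_cast; linarith [c.v3.f8]
  · simp only [Row.ev, NCfg.pt]; push_cast; linarith [c.v3.f9]
  · simp only [Row.ev, NCfg.pt]; push_cast; linarith [c.v3.f10]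
  · simp only [Row.ev, NCfg.pt]; push_cast; linarith [c.v3.f11]
  · simp only [Row.ev, NCfg.pt]; push_cast; linarith [c.v3.f12]
  · simp only [Row.ev, NCfg.pt]; push_cast; linarith [c.p1]
  · simp only [Row.ev, NCfg.pt]; push_cast; linarith [c.q1]
  · simp only [Row.ev, NCfg.pt]; push_cast; linarith [c.r1]
  · simp only [Row.ev, NCfg.pt]; push_cast; linarith [c.s1]
  · simp only [Row.ev, NCfg.pt]; push_cast; linarith [c.h1.2 (-35) (34) (by norm_num)]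
  · simp only [Row.ev, NCfg.pt]; push_cast; linarith [c.h1.2 (-43) (31) (by norm_num)]
  · simp only [Row.ev, NCfg.pt]; push_cast; linarith [c.h1.2 (-52) (26) (by norm_num)]
  · simp only [Row.ev, NCfg.pt]; push_cast; linarith [c.h1.2 (-60) (20) (by norm_num)]
  · simp only [Row.ev, NCfg.pt]; push_cast; linarith [c.h1.2 (-64) (14) (by norm_num)]
  · simp only [Row.ev, NCfg.pt]; push_cast; linarith [c.h1.2 (-68) (7) (by norm_num)]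
  · simp only [Row.ev, NCfg.pt]; push_cast; linarith [c.h1.2 (-69) (0) (by norm_num)]
  · simp only [Row.ev, NCfg.pt]; push_cast; linarith [c.k1.2 (-69) (0) (by norm_num)]
  · simp only [Row.ev, NCfg.pt]; push_cast; linarith [c.k1.2 (-68) (-7) (by norm_num)]
  · simp only [Row.ev, NCfg.pt]; push_cast; linarith [c.k1.2 (-64) (-14) (by norm_num)]
  · simp only [Row.ev, NCfg.pt]; push_cast; linarith [c.k1.2 (-60) (-20) (by norm_num)]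
  · simp only [Row.ev, NCfg.pt]; push_cast; linarith [c.k1.2 (-52) (-26) (by norm_num)]
  · simp only [Row.ev, NCfg.pt]; push_cast; linarith [c.k1.2 (-43) (-31) (by norm_num)]
  · simp only [Row.ev, NCfg.pt]; push_cast; linarith [c.k1.2 (-35) (-34) (by norm_num)]
  · simp only [Row.ev, NCfg.pt]; push_cast; linarith [c.b1]
  · simp only [Row.ev, NCfg.pt]; push_cast; linarith [c.b2]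
  · simp only [Row.ev, NCfg.pt]; push_cast; linarith [c.b3]
  · simp only [Row.ev, NCfg.pt]; push_cast; linarith [c.hh]
  · simp only [Row.ev, NCfg.pt]; push_cast; linarith [c.kk]
  · simp only [Row.ev, NCfg.pt]; push_cast; linarith [c.g12]
  · simp only [Row.ev, NCfg.pt]; push_cast; linarith [c.g23]

theorem NCfg.hyp {X1 Y1 X2 Y2 X3 Y3 V1 V2 V3 p q r s h k : ℝ}
    (c : NCfg X1 Y1 X2 Y2 X3 Y3 V1 V2 V3 p q r s h k) {E : List Row}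
    (hE : ∀ R ∈ E, R.ev (NCfg.pt X1 Y1 X2 Y2 X3 Y3 V1 V2 V3 p q r s h k) ≤ 0) :
    Hyp (cN ++ E) (NCfg.pt X1 Y1 X2 Y2 X3 Y3 V1 V2 V3 p q r s h k) where
  rows := fun R hR => (List.mem_append.1 hR).elim (cN_le c R) (hE R)
  V1 := by have := c.v1.f0; simp only [NCfg.pt]; linarith
  V2 := by have := c.v2.f0; simp only [NCfg.pt]; linarith
  V3 := by have := c.v3.f0; simp only [NCfg.pt]; linarith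
  p := by have := c.p0; simp only [NCfg.pt]; linarith
  q := by have := c.q0; simp only [NCfg.pt]; linarith
  r := by have := c.r0; simp only [NCfg.pt]; linarith
  s := by have := c.s0; simp only [NCfg.pt]; linarith
  h := by have := c.h1.1; simp only [NCfg.pt]; linarith
  k := by have := c.k1.1; simp only [NCfg.pt]; linarith

end Pool.Agent.H30.Q
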