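import Pool.Agent.H30.P6.Base

/-! certificate Da (generated) -/

set_option autoImplicit false
set_option maxRecDepth 100000

namespace Pool.Agent.H30.P6

def prm_Da : Prm := ⟨64, 1024, base ++ [⟨0, 3, -1, 0, 0, 0, 0, 0, 0, 0, 0, 0, 0, 0, 0, 0, 0, 0, 0, 0, 2⟩], []⟩

def tree_Da_0m : Tree := .N 6 (.N 6 (.L ⟨[(69, 1)], 0, 0, 0, 0, 0, []⟩) (.N 1 (.L ⟨[], 1, 0, 0, 0, 0, []⟩) (.N 1 (.L ⟨[], 1, 0, 0, 0, 0, []⟩) (.N 3 (.L ⟨[(14, 9), (15, 42), (57, 3), (58, 14)], 0, 534, 0, 2880, 0, []⟩) (.N 2 (.N 3 (.L ⟨[], 1, 0, 0, 6, 0, []⟩) (.N 2 (.N 6 (.N 1 (.L ⟨[], 1, 0, 0, 0, 0, []⟩) (.N 3 (.L ⟨[], 2, 0, 0, 5, 0, []⟩) (.N 4 (.N 5 (.L ⟨[(0, 252), (2, 1092), (13, 27), (14, 225), (27, 1092), (42, 252), (60, 448)], 25920, 0, 0, 11988, 6885, []⟩) (.N 4 (.N 5 (.L ⟨[(0, 225), (1, 27), (2, 1092), (13, 27), (14, 198), (26, 27), (27, 1092), (42, 252), (60, 448)], 25920, 0,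 0, 15417, 12447, []⟩) (.N 1 (.L ⟨[(0, 6494), (1, 30907), (2, 53055), (11, 6494), (21, 30907), (32, 43123), (34, 9932), (39, 83962), (40, 83962), (42, 37401), (60, 30152)], 2933760, 0, 0, 1775536, 183360, []⟩) (.N 3 (.L ⟨[(1, 7359), (2, 10449), (21, 6213), (23, 1146), (32, 8157), (34, 2292), (39, 17808), (40, 17808), (42, 7359), (60, 5936)], 537474, 0, 0, 1100160, 21774, []⟩) (.N 4 (.N 2 (.N 5 (.L ⟨[(0, 252), (2, 1092), (13, 27), (14, 225), (27, 1092), (42, 252), (60, 448)], 25920, 0, 0, 13581, 12204, []⟩) (.N 4 (.N 2 (.N 2 (.N 6 (.N 6 (.L ⟨[(69, 1)], 0, 0, 0, 0, 0, []⟩) (.L ⟨[(0, 2), (1, 9), (2, 7), (13, 2), (28, 7), (60, 6), (69, 480)], 0, 0, 0, 286, 186, []⟩)) (.L ⟨[(0, 6), (60, 2)], 0, 0, 0, 60, 57, []⟩)) (.L ⟨[(0, 648), (1, 138), (3, 405), (5, 243), (26, 138), (39, 138), (42, 786), (60, 262)], 20930, 0, 0, 44160, 4232, []⟩)) (.L ⟨[], 0, 0, 0,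 1, 0, []⟩)) (.L ⟨[(1, 810), (2, 3795), (26, 810), (27, 2445), (28, 1350), (39, 4410), (42, 810), (60, 1535)], 70632, 0, 0, 103680, 98280, []⟩))) (.L ⟨[], 0, 0, 0, 1, 0, []⟩)) (.L ⟨[(1, 276), (2, 1296), (26, 276), (27, 810), (28, 486), (39, 1572), (42, 276), (60, 524)], 22563, 0, 0, 33120, 29532, []⟩))))) (.L ⟨[(0, 285), (1, 735), (2, 4665), (13, 285), (26, 735), (28, 4665), (39, 5400), (40, 5400), (42, 1020), (60, 1895)], 89148, 0, 0, 109440, 86298, []⟩))) (.L ⟨[(1, 1239), (2, 3699), (23, 1239), (30, 795), (32, 2904), (39, 4938), (40, 4938), (42, 1239), (60, 1646)], 67575, 0, 0, 95400, 20670, []⟩)))) (.N 5 (.L ⟨[(0, 3717), (2, 10557), (11, 3717), (30, 3933), (32, 6624), (39, 10557), (40, 10557), (42, 3717), (60, 4758)], 190320, 0, 0, 139568, 0, []⟩) (.N 4 (.N 3 (.L ⟨[(0, 25410), (1, 36093), (2, 63096), (11, 25410), (17, 36093), (32, 44616), (34,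 18480), (39, 99189), (40, 99189), (42, 61503), (60, 41533)], 1720950, 0, 0, 2217600, 378840, []⟩) (.L ⟨[(0, 43), (2, 41), (9, 43), (32, 31), (34, 10), (39, 41), (40, 41), (42, 43), (60, 28)], 600, 0, 0, 560, 180, []⟩)) (.L ⟨[(2, 11475), (11, 3717), (30, 4275), (32, 7200), (39, 11475), (40, 11475), (57, 1239), (60, 3825)], 99120, 0, 0, 69797, 92512, []⟩)))) (.L ⟨[], 1, 0, 0, 2, 0, []⟩))) (.L ⟨[], 1, 0, 0, 3, 0, []⟩)))))) (.N 1 (.L ⟨[], 1, 0, 0, 0, 0, []⟩) (.N 2 (.N 1 (.N 6 (.L ⟨[], 1, 0, 0, 0, 0, []⟩) (.L ⟨[(11, 3), (57, 1), (67, 15)], 60, 0, 0, 0, 0, []⟩)) (.N 6 (.N 5 (.L ⟨[(14, 117), (27, 546), (57, 39), (59, 182)], 5760, 0, 0, 0, 0, []⟩) (.N 3 (.L ⟨[(14, 9), (15, 42), (57, 3), (58, 14)], 105, 0, 0, 720, 0, []⟩) (.N 3 (.L ⟨[(1, 17901), (2, 3882), (19, 10881), (21, 7020), (34, 9705), (39, 21783), (40, 21783), (42, 17901), (59, 1941), (60, 7261)],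 279504, 0, 0, 29813760, 0, []⟩) (.N 2 (.N 4 (.N 5 (.L ⟨[(0, 4101), (1, 1311), (2, 10143), (11, 4101), (15, 1311), (30, 1311), (32, 8832), (39, 11454), (40, 11454), (42, 5412), (60, 5185)], 78660, 0, 0, 56373, 31464, []⟩) (.N 4 (.L ⟨[(0, 19392), (1, 25767), (2, 18144), (9, 6048), (11, 13344), (15, 25767), (34, 12096), (36, 6048), (39, 43911), (40, 43911), (41, 45159), (42, 45159), (60, 21101)], 362880, 0, 0, 211680, 181440, []⟩) (.L ⟨[(0, 10029), (2, 9003), (7, 630), (9, 9399), (32, 6483), (34, 2520), (39, 9003), (40, 9003), (42, 10029), (60, 6344)], 74340, 0, 0, 100800, 151200, []⟩))) (.N 5 (.L ⟨[(2, 2406), (9, 354), (11, 1239), (30, 1941), (32, 2058), (39, 2406), (40, 2406), (57, 531), (59, 531), (60, 802)], 21240, 0, 0, 5841, 18408, []⟩) (.L ⟨[(2, 3225), (9, 2973), (11, 516), (32, 4773), (39, 3225), (40, 3225), (57, 1163), (59, 516), (60, 1075)],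 10836, 0, 0, 6708, 30960, []⟩))) (.L ⟨[(2, 3999), (7, 1032), (9, 3417), (32, 3225), (34, 774), (39, 3999), (57, 1483), (60, 1333)], 54180, 0, 0, 123840, 0, []⟩))))) (.L ⟨[(11, 3), (57, 1), (67, 15)], 30, 0, 0, 0, 0, []⟩))) (.N 3 (.L ⟨[(11, 1419), (18, 3225), (20, 600), (57, 473), (58, 1275)], 3784, 13717, 0, 28380, 0, []⟩) (.N 1 (.L ⟨[(7, 3225), (9, 600), (22, 1419), (57, 1275), (58, 473)], 11352, 0, 0, 28380, 0, []⟩) (.L ⟨[(7, 65), (9, 43), (20, 18), (22, 36), (57, 36), (58, 18), (64, 37)], 0, 0, 0, 1080, 0, []⟩)))))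

theorem ok_Da_0m : tree_Da_0m.check prm_Da ⟨-64, -64, -128, 128, -64, 64, -128, 128, -64, 64, -128, 128, 0, 1344⟩ = true := by decide +kernel

def tree_Da_0p : Tree := .N 6 (.N 6 (.L ⟨[(69, 1)], 0, 0, 0, 0, 0, []⟩) (.L ⟨[(69, 1)], 0, 0, 0, 0, 0, []⟩)) (.L ⟨[(69, 1)], 0, 0, 0, 0, 0, []⟩)

theorem ok_Da_0p : tree_Da_0p.check prm_Da ⟨64, 64, -128, 128, -64, 64, -128, 128, -64, 64, -128, 128, 0, 1344⟩ = true := by decide +kernel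

def tree_Da_1m : Tree := .N 6 (.N 6 (.L ⟨[(69, 1)], 1, 0, 0, 0, 0, []⟩) (.L ⟨[(69, 1)], 1, 0, 0, 0, 0, []⟩)) (.L ⟨[(69, 1)], 1, 0, 0, 0, 0, []⟩)

theorem ok_Da_1m : tree_Da_1m.check prm_Da ⟨-64, 64, -128, -128, -64, 64, -128, 128, -64, 64, -128, 128, 0, 1344⟩ = true := by decide +kernel

def tree_Da_1p : Tree := .N 6 (.N 6 (.L ⟨[(69, 1)], 0, 0, 0, 0, 0, []⟩) (.N 0 (.N 2 (.N 3 (.N 6 (.N 0 (.N 2 (.L ⟨[(14, 63), (15, 294), (57, 21), (58, 98), (69, 15360)], 0, 186, 0, 15360, 0, []⟩) (.L ⟨[], 0, 3, 0, 10, 0, []⟩)) (.L ⟨[(69, 1)], 0, 0, 0, 0, 0, []⟩)) (.L ⟨[(14, 9), (15, 42), (57, 3), (58, 14)], 0, 0, 0, 0, 0, []⟩)) (.N 2 (.N 3 (.N 5 (.N 4 (.L ⟨[(0, 54), (1, 6), (2, 198), (12, 9), (14, 45), (15, 6), (27, 198), (40, 204), (41, 60), (42, 60), (60, 86), (69, 726)], 0, 0, 0, 2880, 2280, []⟩) (.L ⟨[(0, 6), (2, 27), (14, 6), (27, 27), (40, 6), (42, 6), (60,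 11)], 0, 0, 240, 320, 480, []⟩)) (.N 4 (.N 0 (.L ⟨[(0, 35), (1, 111), (2, 28), (14, 35), (15, 111), (27, 28), (39, 7), (40, 139), (42, 146), (60, 58)], 0, 0, 0, 1680, 1526, []⟩) (.L ⟨[(0, 231), (1, 747), (2, 168), (14, 231), (15, 747), (27, 168), (39, 63), (40, 915), (42, 978), (60, 382), (69, 315)], 0, 0, 0, 9534, 10080, []⟩)) (.L ⟨[(0, 36), (2, 168), (14, 36), (27, 168), (60, 68)], 0, 0, 0, 1935, 17280, []⟩))) (.N 5 (.L ⟨[(0, 82), (2, 392), (14, 82), (27, 185), (28, 207), (39, 242), (40, 392), (42, 82), (60, 158)], 0, 0, 1744, 3840, 2158, []⟩) (.N 4 (.N 6 (.N 0 (.N 5 (.L ⟨[(0, 12), (2, 54), (14, 12), (27, 54), (40, 12), (42, 12), (60, 22), (69, 15)], 0, 0, 0, 720, 663, []⟩) (.N 6 (.N 6 (.L ⟨[(69, 1)], 0, 0, 0, 0, 0, []⟩) (.L ⟨[(0, 5724), (1, 11784), (2, 8928), (13, 4293), (14, 1431), (15, 11784), (32, 8928), (39, 20712), (40, 20712), (42, 17508),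 (60, 8812), (69, 84429)], 0, 0, 0, 228960, 158364, []⟩)) (.L ⟨[(0, 1197), (1, 1872), (2, 2352), (13, 798), (14, 399), (15, 1872), (28, 798), (30, 1554), (40, 4224), (42, 3069), (60, 1807)], 0, 0, 0, 47880, 44688, []⟩))) (.L ⟨[(69, 1)], 0, 0, 0, 0, 0, []⟩)) (.L ⟨[(0, 3108), (1, 3623), (2, 5740), (11, 1036), (13, 2072), (15, 3623), (30, 2072), (32, 3668), (40, 9363), (42, 6731), (60, 4157)], 0, 0, 0, 62160, 58016, []⟩)) (.N 4 (.L ⟨[(0, 318), (2, 1413), (13, 105), (14, 213), (27, 105), (28, 1308), (39, 1413), (40, 1413), (42, 318), (60, 577)], 0, 0, 0, 13335, 25200, []⟩) (.L ⟨[(0, 1239), (2, 3519), (11, 1239), (30, 1311), (32, 2208), (39, 3519), (40, 3519), (42, 1239), (60, 1586)], 0, 0, 45201, 10309, 95160, []⟩))))) (.N 6 (.L ⟨[(69, 13)], 0, 0, 0, 15, 0, []⟩) (.N 0 (.L ⟨[(1, 647), (2, 1417), (21, 265), (23, 382), (32, 1417), (39, 2064), (40, 2064),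 (42, 647), (60, 688)], 0, 0, 0, 183360, 5348, []⟩) (.N 0 (.N 3 (.L ⟨[(69, 14)], 0, 0, 0, 15, 0, []⟩) (.L ⟨[(0, 382), (1, 9063), (2, 10949), (13, 382), (19, 764), (21, 8299), (32, 7511), (34, 3438), (39, 20012), (40, 20012), (42, 9445), (60, 6798), (69, 179158)], 0, 0, 0, 366720, 0, []⟩)) (.L ⟨[(69, 1)], 0, 0, 0, 0, 0, []⟩)))))) (.N 3 (.L ⟨[], 0, 11, 0, 15, 0, []⟩) (.L ⟨[(69, 1)], 0, 0, 0, 3, 0, []⟩))) (.L ⟨[(69, 1)], 0, 0, 0, 0, 0, []⟩))) (.N 6 (.N 0 (.N 5 (.L ⟨[(14, 9), (27, 42), (57, 3), (59, 14)], 0, 0, 0, 0, 0, []⟩) (.N 3 (.L ⟨[(14, 9), (15, 42), (57, 3), (58, 14)], 0, 0, 0, 0, 0, []⟩) (.N 2 (.N 3 (.N 4 (.L ⟨[(0, 2028), (1, 9153), (13, 2556), (14, 1056), (15, 9153), (34, 1584), (39, 9153), (40, 9153), (41, 11181), (42, 11181), (57, 528), (59, 528), (60, 3727)], 0, 0, 0, 63360, 39072, []⟩) (.L ⟨[(0, 360), (1, 1509), (13, 888), (15, 1509), (32,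 1056), (39, 1509), (40, 1509), (41, 1869), (42, 1869), (57, 176), (59, 352), (60, 623)], 0, 0, 0, 1056, 5280, []⟩)) (.N 6 (.N 3 (.L ⟨[(0, 771), (1, 504), (2, 672), (11, 771), (15, 504), (32, 1134), (34, 105), (39, 1176), (40, 1176), (41, 1275), (42, 1275), (59, 189), (60, 649)], 0, 0, 0, 0, 0, []⟩) (.L ⟨[(0, 155), (1, 310), (2, 2655), (11, 1085), (15, 310), (32, 2655), (39, 2965), (40, 2965), (42, 465), (57, 310), (60, 1040), (64, 1379)], 0, 0, 0, 4650, 0, []⟩)) (.L ⟨[(0, 2030), (2, 2905), (11, 2030), (32, 3375), (34, 235), (39, 2905), (40, 2905), (41, 2030), (42, 2030), (59, 235), (60, 1645), (64, 7377)], 0, 0, 0, 1880, 0, []⟩))) (.L ⟨[(0, 774), (1, 516), (2, 1476), (11, 774), (15, 516), (32, 1476), (39, 201), (40, 1992), (42, 1290), (60, 922)], 0, 0, 0, 1981440, 0, []⟩)))) (.L ⟨[(69, 1)], 0, 0, 0, 0, 0, []⟩)) (.L ⟨[(14, 15), (57, 5), (64, 336)],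 0, 0, 0, 0, 0, []⟩))

theorem ok_Da_1p : tree_Da_1p.check prm_Da ⟨-64, 64, 128, 128, -64, 64, -128, 128, -64, 64, -128, 128, 0, 1344⟩ = true := by decide +kernel

def tree_Da_2m : Tree := .N 6 (.N 6 (.L ⟨[(69, 1)], 0, 0, 0, 0, 0, []⟩) (.N 1 (.L ⟨[(69, 1)], 1, 0, 0, 0, 0, []⟩) (.N 0 (.N 1 (.L ⟨[(69, 2)], 3, 0, 0, 0, 0, []⟩) (.N 3 (.N 3 (.L ⟨[], 0, 1, 0, 0, 0, []⟩) (.N 3 (.L ⟨[(14, 45), (15, 210), (57, 15), (58, 70), (69, 1269)], 1890, 11520, 0, 0, 0, []⟩) (.N 6 (.L ⟨[(0, 38), (1, 95), (2, 38), (14, 38), (15, 95), (27, 38), (39, 133), (40, 133), (41, 133), (42, 133), (60, 57), (69, 7680)], 0, 0, 0, 7088, 2268, []⟩) (.N 5 (.N 4 (.L ⟨[(0, 159), (1, 489), (2, 147), (14, 159), (15, 489), (27, 147), (40, 636), (42, 636), (60, 265), (69, 2463)], 11520, 0, 0, 0, 7035, []⟩) (.L ⟨[], 0, 0, 30, 0, 7, []⟩)) (.L ⟨[(0, 8), (1, 28), (12, 3), (14, 5), (15, 28), (40,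 28), (60, 12), (69, 40)], 515, 0, 0, 0, 1200, []⟩))))) (.N 6 (.N 0 (.N 3 (.N 6 (.L ⟨[(69, 10)], 0, 0, 0, 9, 0, []⟩) (.N 5 (.N 4 (.L ⟨[(0, 9), (2, 39), (14, 9), (27, 39), (40, 18), (41, 9), (42, 9), (60, 16), (69, 477)], 720, 0, 0, 387, 657, []⟩) (.L ⟨[], 0, 0, 10, 0, 3, []⟩)) (.N 5 (.N 4 (.L ⟨[(0, 12), (1, 38), (2, 10), (14, 12), (15, 38), (27, 10), (40, 48), (42, 48), (60, 20), (69, 74)], 960, 0, 0, 0, 627, []⟩) (.L ⟨[], 0, 0, 0, 0, 1, []⟩)) (.L ⟨[(0, 3), (1, 12), (14, 3), (15, 12), (40, 12), (42, 12), (60, 5)], 260, 0, 0, 0, 300, []⟩)))) (.N 6 (.N 6 (.L ⟨[(69, 1)], 0, 0, 0, 0, 0, []⟩) (.N 3 (.L ⟨[(69, 10)], 0, 0, 0, 9, 0, []⟩) (.N 6 (.L ⟨[(69, 1)], 0, 0, 0, 0, 0, []⟩) (.L ⟨[(0, 1701), (1, 1748), (2, 5083), (11, 1701), (19, 1748), (32, 4646), (34, 437), (39, 6831), (40, 6831), (42, 3449), (60, 2844), (69, 209760)], 0, 0, 0, 127167, 23598, []⟩))))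 (.N 5 (.L ⟨[(0, 150), (1, 75), (2, 852), (13, 75), (14, 75), (23, 75), (28, 189), (30, 663), (39, 927), (40, 927), (42, 225), (60, 359)], 9000, 0, 0, 0, 5625, []⟩) (.N 4 (.N 5 (.L ⟨[(0, 690), (2, 2508), (12, 189), (14, 501), (27, 2508), (40, 2508), (41, 54), (42, 690), (60, 1066)], 51840, 0, 0, 0, 39528, []⟩) (.N 1 (.L ⟨[(0, 609), (1, 984), (2, 1032), (12, 348), (14, 261), (15, 522), (17, 462), (27, 1032), (40, 2016), (60, 875), (69, 24186)], 83520, 0, 0, 0, 44892, []⟩) (.L ⟨[(0, 252), (1, 738), (2, 420), (14, 252), (15, 528), (17, 210), (27, 147), (28, 273), (40, 1158), (42, 990), (60, 470)], 20160, 0, 0, 0, 17031, []⟩))) (.L ⟨[(0, 18), (1, 6), (2, 69), (11, 6), (13, 12), (23, 6), (28, 33), (30, 36), (42, 24), (60, 31)], 732, 0, 264, 0, 1440, []⟩))))) (.L ⟨[(69, 1)], 0, 0, 0, 0, 0, []⟩)) (.N 4 (.N 5 (.L ⟨[(0, 1656), (1, 276), (2, 8406), (14, 1656),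 (23, 276), (27, 4581), (28, 3825), (40, 8682), (42, 1932), (46, 552), (60, 3446)], 132480, 0, 0, 0, 85284, []⟩) (.N 0 (.N 3 (.N 4 (.L ⟨[(0, 819), (1, 3243), (2, 63), (14, 819), (15, 3243), (36, 63), (39, 1344), (40, 3306), (42, 4062), (60, 1375)], 60480, 0, 0, 819, 42336, []⟩) (.L ⟨[(0, 9), (2, 42), (14, 9), (27, 42), (60, 17)], 747, 0, 0, 99, 2160, []⟩)) (.N 5 (.L ⟨[(0, 504), (2, 1911), (13, 288), (14, 216), (27, 1092), (28, 819), (42, 504), (60, 805)], 29880, 0, 0, 0, 34560, []⟩) (.L ⟨[(0, 910), (1, 1502), (2, 2058), (13, 385), (14, 525), (15, 1327), (17, 175), (27, 105), (28, 1953), (40, 3560), (42, 2412), (60, 1490)], 60375, 0, 0, 0, 67200, []⟩))) (.L ⟨[(0, 3780), (1, 12180), (12, 3075), (14, 705), (17, 12180), (40, 12180), (42, 15960), (48, 1218), (60, 5320), (69, 292320)], 0, 0, 0, 0, 113274, []⟩))) (.N 5 (.L ⟨[(0, 99), (1, 102), (2, 732),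 (13, 33), (14, 66), (23, 102), (30, 732), (39, 834), (40, 834), (42, 201), (60, 311)], 6303, 0, 7920, 0, 6996, []⟩) (.L ⟨[(0, 3717), (1, 4956), (2, 21096), (11, 3717), (23, 4956), (30, 8661), (32, 16152), (39, 26052), (40, 26052), (42, 8673), (59, 1239), (60, 9923)], 149919, 0, 137529, 0, 594720, []⟩)))))) (.L ⟨[(69, 1)], 0, 0, 0, 0, 0, []⟩)))) (.N 0 (.N 1 (.L ⟨[(69, 1)], 3, 0, 0, 0, 0, []⟩) (.N 3 (.N 3 (.L ⟨[(14, 9), (15, 42), (57, 3), (58, 14), (69, 96)], 276, 360, 0, 0, 0, []⟩) (.N 1 (.N 0 (.N 1 (.L ⟨[], 1, 0, 0, 0, 0, []⟩) (.N 3 (.L ⟨[(14, 9), (15, 42), (57, 3), (58, 14)], 720, 0, 0, 0, 0, []⟩) (.N 6 (.N 0 (.L ⟨[(14, 9), (15, 42), (57, 3), (58, 14)], 1440, 0, 0, 0, 0, []⟩) (.N 5 (.L ⟨[(1, 7740), (14, 1677), (15, 2322), (17, 6321), (32, 2352), (40, 7740), (42, 7740), (49, 774), (57, 559), (58, 301), (59, 784), (60, 2580)], 165120, 0, 0, 0, 38485,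 []⟩) (.N 4 (.L ⟨[(1, 150), (14, 21), (15, 171), (38, 21), (40, 150), (41, 150), (49, 15), (57, 7), (58, 7), (59, 7), (60, 50)], 3360, 0, 0, 0, 2996, []⟩) (.L ⟨[(19, 3225), (21, 600), (34, 1419), (58, 1275), (59, 473)], 0, 0, 5203, 0, 56760, []⟩)))) (.N 0 (.L ⟨[(13, 135), (14, 270), (15, 1470), (57, 135), (58, 490), (67, 504)], 21600, 0, 0, 0, 0, []⟩) (.L ⟨[(1, 17280), (14, 7344), (15, 28092), (17, 20025), (34, 1584), (36, 3600), (40, 17280), (42, 17280), (49, 1728), (57, 2448), (58, 10279), (59, 1728), (60, 5760)], 552960, 0, 0, 0, 0, []⟩))))) (.N 6 (.N 1 (.L ⟨[(69, 23)], 30, 0, 0, 0, 0, []⟩) (.N 3 (.L ⟨[(14, 117), (15, 546), (57, 39), (58, 182), (69, 4815)], 5760, 0, 0, 0, 0, []⟩) (.N 5 (.L ⟨[(1, 833970), (14, 146160), (15, 171315), (17, 662655), (32, 129360), (34, 67200), (40, 833970), (42, 833970), (48, 83397), (57, 48720), (59, 65520), (60, 277990),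 (69, 3148320)], 12902400, 0, 0, 0, 4542720, []⟩) (.N 4 (.L ⟨[(1, 4620), (12, 750), (14, 150), (15, 4620), (37, 255), (38, 420), (40, 4620), (49, 462), (57, 300), (59, 225), (60, 1540)], 67050, 0, 0, 0, 72000, []⟩) (.L ⟨[(19, 3225), (21, 600), (34, 1419), (58, 1275), (59, 473)], 0, 0, 5203, 0, 56760, []⟩))))) (.L ⟨[(1, 270), (10, 48), (12, 69), (17, 243), (19, 345), (34, 27), (36, 54), (40, 270), (42, 270), (49, 27), (57, 39), (58, 106), (59, 27), (60, 90)], 5760, 0, 0, 0, 0, []⟩))) (.N 3 (.L ⟨[(14, 9), (15, 42), (57, 3), (58, 14)], 0, 0, 0, 0, 0, []⟩) (.N 6 (.N 1 (.N 0 (.N 5 (.N 4 (.L ⟨[(0, 18), (1, 18), (2, 60), (14, 18), (15, 18), (27, 60), (40, 36), (42, 36), (60, 32)], 1080, 0, 0, 45, 1026, []⟩) (.L ⟨[(14, 9), (27, 42), (57, 3), (59, 14)], 0, 0, 339, 0, 360, []⟩)) (.N 4 (.L ⟨[(1, 786), (14, 126), (15, 849), (38, 84), (40, 786), (41, 786), (57,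 42), (58, 21), (59, 28), (60, 262)], 10416, 0, 0, 1316, 13440, []⟩) (.L ⟨[(19, 3225), (21, 600), (34, 1419), (58, 1275), (59, 473)], 0, 0, 5203, 0, 56760, []⟩))) (.N 4 (.N 5 (.L ⟨[(0, 8), (1, 8), (2, 20), (12, 3), (14, 5), (15, 8), (27, 20), (40, 28), (60, 12)], 0, 0, 0, 0, 600, []⟩) (.L ⟨[(1, 1260), (12, 135), (14, 105), (15, 1260), (38, 120), (40, 1260), (49, 126), (57, 80), (59, 40), (60, 420)], 0, 0, 0, 0, 19200, []⟩)) (.L ⟨[(1, 141900), (14, 17415), (19, 160605), (21, 10320), (32, 76920), (34, 15351), (40, 141900), (42, 141900), (48, 14190), (57, 5805), (58, 9675), (59, 30757), (60, 47300)], 0, 0, 0, 0, 1238400, []⟩))) (.L ⟨[(14, 9), (15, 42), (57, 3), (58, 14)], 0, 0, 0, 0, 0, []⟩)) (.L ⟨[(14, 9), (15, 42), (57, 3), (58, 14)], 0, 0, 0, 0, 0, []⟩))))) (.N 6 (.N 4 (.N 1 (.N 5 (.L ⟨[(0, 291), (1, 435), (2, 2475), (14, 291), (23, 435), (28, 1794),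 (30, 681), (40, 2910), (42, 726), (48, 291), (60, 1067)], 46560, 0, 0, 0, 15035, []⟩) (.N 3 (.N 5 (.L ⟨[(0, 15708), (1, 61477), (2, 31343), (12, 4522), (14, 11186), (17, 48380), (19, 13097), (30, 22537), (32, 8806), (40, 92820), (42, 77185), (47, 9282), (60, 36176)], 1827840, 0, 0, 0, 1745016, []⟩) (.L ⟨[(1, 405), (2, 105), (15, 405), (38, 105), (40, 510), (60, 170), (67, 204)], 6405, 0, 0, 420, 12600, []⟩)) (.L ⟨[(1, 14862), (2, 10908), (19, 6861), (21, 8001), (32, 2577), (34, 8331), (39, 25770), (40, 25770), (42, 14862), (46, 2577), (60, 8590)], 309240, 0, 0, 0, 64425, []⟩))) (.N 5 (.L ⟨[(0, 288), (1, 192), (2, 1899), (14, 288), (23, 192), (28, 1611), (30, 288), (39, 1485), (40, 2091), (42, 480), (60, 793)], 23040, 0, 0, 0, 11136, []⟩) (.N 3 (.N 5 (.L ⟨[(0, 994), (1, 2972), (2, 2901), (14, 994), (15, 518), (17, 2454), (28, 385), (30, 2516), (39,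 3059), (40, 5873), (42, 3966), (60, 2289)], 76622, 0, 0, 0, 107520, []⟩) (.L ⟨[(0, 2), (1, 17), (2, 2), (14, 2), (15, 17), (38, 2), (40, 10), (60, 7), (67, 4)], 194, 0, 0, 0, 480, []⟩)) (.L ⟨[(1, 40446), (2, 37596), (19, 9765), (21, 30681), (32, 17577), (34, 20019), (39, 78042), (40, 78042), (42, 40446), (60, 26014)], 234360, 0, 0, 0, 164052, []⟩)))) (.N 5 (.L ⟨[(1, 26673), (14, 2700), (23, 26673), (30, 77103), (32, 2700), (39, 7200), (40, 26673), (42, 26673), (57, 900), (59, 26601), (60, 8891)], 321300, 0, 0, 0, 432000, []⟩) (.N 1 (.L ⟨[(1, 28380), (11, 4257), (21, 18447), (23, 14190), (30, 26445), (32, 39207), (39, 28380), (40, 28380), (42, 28380), (48, 2838), (57, 1419), (58, 1419), (59, 21884), (60, 9460)], 241230, 0, 1419, 0, 681120, []⟩) (.L ⟨[(1, 18447), (11, 2838), (21, 9933), (23, 9933), (30, 18963), (32, 23757), (39, 18447), (40, 18447),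 (42, 18447), (57, 946), (58, 473), (59, 14240), (60, 6149)], 85613, 0, 0, 0, 454080, []⟩)))) (.N 4 (.N 3 (.N 1 (.N 0 (.N 1 (.L ⟨[], 1, 0, 0, 0, 0, []⟩) (.N 5 (.L ⟨[(0, 627), (2, 1932), (11, 282), (13, 345), (30, 1932), (40, 1932), (42, 627), (60, 853)], 41400, 0, 0, 0, 8280, []⟩) (.N 5 (.N 4 (.L ⟨[(0, 75), (1, 135), (13, 75), (19, 65), (21, 70), (40, 135), (60, 70), (67, 643)], 4200, 0, 0, 0, 2870, []⟩) (.L ⟨[(0, 20), (1, 55), (2, 45), (11, 20), (23, 55), (30, 65), (32, 40), (40, 100), (42, 75), (59, 20), (60, 40), (67, 162)], 1000, 0, 0, 0, 2400, []⟩)) (.L ⟨[(1, 645), (11, 135), (15, 465), (17, 180), (37, 540), (39, 645), (40, 645), (57, 45), (59, 180), (60, 215), (67, 3399)], 5715, 0, 0, 0, 43200, []⟩)))) (.L ⟨[(1, 10734), (2, 1716), (17, 3711), (19, 7023), (34, 1245), (36, 2712), (40, 12450), (42, 10734), (49, 1245), (59, 747), (60, 4150)], 119520,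 0, 0, 0, 0, []⟩)) (.N 6 (.N 5 (.L ⟨[(0, 103), (2, 164), (13, 103), (28, 299), (40, 164), (42, 103), (59, 45), (60, 89), (67, 90)], 1350, 0, 0, 0, 1305, []⟩) (.N 5 (.L ⟨[(0, 1677), (1, 1008), (2, 1008), (11, 336), (13, 1341), (19, 672), (21, 336), (27, 1008), (40, 2016), (42, 2685), (60, 1231), (67, 8502)], 0, 0, 0, 0, 80640, []⟩) (.L ⟨[(1, 405), (2, 105), (15, 405), (38, 105), (40, 510), (60, 170), (67, 204)], 0, 0, 0, 0, 20400, []⟩))) (.L ⟨[(14, 645), (21, 5040), (57, 215), (58, 1680), (67, 14448)], 0, 0, 0, 0, 0, []⟩))) (.L ⟨[(23, 3), (58, 1), (67, 15)], 0, 0, 0, 0, 0, []⟩)) (.L ⟨[(21, 3), (32, 3), (58, 1), (59, 1)], 0, 0, 0, 0, 0, []⟩))))) (.L ⟨[(1, 14190), (10, 14190), (19, 39990), (21, 11400), (34, 5676), (40, 14190), (42, 14190), (48, 1419), (57, 4730), (58, 12400), (59, 1892), (60, 4730), (69, 454080)], 0, 0, 0, 0, 0, []⟩))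

theorem ok_Da_2m : tree_Da_2m.check prm_Da ⟨-64, 64, -128, 128, -64, -64, -128, 128, -64, 64, -128, 128, 0, 1344⟩ = true := by decide +kernel

def tree_Da_2p : Tree := .N 6 (.N 6 (.L ⟨[(69, 5)], 1, 0, 0, 6, 0, []⟩) (.N 3 (.L ⟨[(11, 1419), (18, 3225), (20, 600), (57, 473), (58, 1275), (69, 56760)], 0, 0, 0, 33110, 0, []⟩) (.N 1 (.L ⟨[(69, 1)], 1, 0, 0, 0, 0, []⟩) (.L ⟨[(1, 32250), (9, 48558), (20, 18318), (22, 13932), (27, 3870), (28, 3870), (39, 32250), (41, 32250), (42, 32250), (53, 3225), (57, 16186), (59, 2580), (60, 10750), (69, 1023615)], 0, 0, 0, 1238400, 0, []⟩)))) (.N 6 (.N 0 (.L ⟨[(1, 326370), (9, 36894), (11, 350493), (18, 496521), (20, 250446), (28, 15609), (30, 99330), (39, 326370), (41, 326370), (42, 326370), (53, 32637), (57, 129129), (58, 140199), (59, 38313), (60, 108790), (69, 5448960)], 0, 0, 0, 0, 0, []⟩) (.L ⟨[(69, 1)], 0, 0,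 0, 0, 0, []⟩)) (.L ⟨[(11, 129), (20, 225), (57, 43), (58, 75), (64, 645), (69, 3440)], 0, 0, 0, 0, 0, []⟩))

theorem ok_Da_2p : tree_Da_2p.check prm_Da ⟨-64, 64, -128, 128, 64, 64, -128, 128, -64, 64, -128, 128, 0, 1344⟩ = true := by decide +kernel

def tree_Da_3m : Tree := .N 6 (.N 6 (.L ⟨[], 0, 1, 0, 0, 0, []⟩) (.L ⟨[], 0, 1, 0, 0, 0, []⟩)) (.L ⟨[(11, 252), (15, 525), (57, 84), (58, 175), (65, 1260), (69, 6612)], 0, 11520, 0, 0, 0, []⟩)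

theorem ok_Da_3m : tree_Da_3m.check prm_Da ⟨-64, 64, -128, 128, -64, 64, -128, -128, -64, 64, -128, 128, 0, 1344⟩ = true := by decide +kernel

def tree_Da_3p : Tree := .N 6 (.N 6 (.L ⟨[(69, 1)], 0, 0, 0, 0, 0, []⟩) (.N 5 (.L ⟨[(0, 108), (1, 702), (2, 1584), (11, 108), (24, 216), (26, 486), (27, 2559), (39, 2286), (41, 810), (42, 810), (55, 81), (59, 325), (60, 798)], 7560, 0, 25920, 0, 0, []⟩) (.N 1 (.L ⟨[(69, 1)], 1, 0, 0, 0, 0, []⟩) (.N 0 (.N 1 (.L ⟨[(69, 2)], 3, 0, 0, 0, 0, []⟩) (.N 2 (.N 6 (.N 0 (.N 2 (.N 6 (.N 6 (.L ⟨[(69, 1)], 0, 0, 0, 0, 0, []⟩) (.L ⟨[(0, 2292), (2, 3894), (9, 1347), (11, 945), (30, 315), (32, 3579), (39, 3894), (40, 3894), (42, 2292), (60, 2062), (69, 75600)], 0, 0, 0, 22050, 18270, []⟩)) (.L ⟨[(0, 2120), (2, 4324), (9, 874), (11, 1246), (30, 874), (32, 3450), (39, 4324), (40, 4324), (42, 2120), (60, 2148), (69, 4370)],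 26220, 0, 0, 8303, 20102, []⟩)) (.L ⟨[(69, 9)], 2, 0, 0, 10, 0, []⟩)) (.L ⟨[(69, 1)], 0, 0, 0, 0, 0, []⟩)) (.N 2 (.L ⟨[(0, 213), (1, 15), (2, 621), (9, 378), (11, 60), (23, 15), (32, 576), (34, 45), (39, 636), (40, 636), (42, 228), (57, 75), (60, 283)], 1800, 0, 0, 0, 1260, []⟩) (.N 2 (.L ⟨[(0, 16719), (2, 50703), (9, 25539), (11, 8190), (32, 49443), (34, 1260), (39, 50703), (40, 50703), (42, 16719), (57, 5670), (60, 22474)], 151200, 0, 0, 49770, 71820, []⟩) (.N 6 (.L ⟨[(0, 1167), (2, 3354), (9, 1482), (11, 630), (32, 3354), (39, 3354), (40, 3354), (42, 1167), (57, 315), (60, 1507), (69, 31500)], 17010, 0, 0, 37800, 5985, []⟩) (.L ⟨[(0, 5823), (2, 33126), (9, 19467), (11, 3825), (32, 31185), (34, 1941), (39, 33126), (40, 33126), (42, 5823), (57, 5823), (60, 12983)], 58230, 0, 0, 42702, 0, []⟩))))) (.N 0 (.L ⟨[(69, 6)], 7, 0, 0, 15, 0, []⟩) (.L ⟨[(69,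 30)], 0, 0, 0, 23, 0, []⟩)))) (.L ⟨[(69, 1)], 0, 0, 0, 0, 0, []⟩))))) (.N 6 (.N 1 (.L ⟨[(69, 1)], 1, 0, 0, 0, 0, []⟩) (.N 5 (.L ⟨[(26, 9), (27, 42), (58, 3), (59, 14)], 0, 0, 0, 0, 0, []⟩) (.N 0 (.N 2 (.N 1 (.L ⟨[(1, 2688), (2, 10752), (5, 4815), (7, 11568), (25, 672), (26, 2016), (32, 12768), (39, 13440), (40, 13440), (42, 2688), (44, 1344), (57, 5461), (59, 672), (60, 4480)], 80640, 0, 0, 0, 0, []⟩) (.N 4 (.L ⟨[(0, 4269), (2, 17553), (9, 12459), (11, 1260), (32, 15663), (34, 1890), (39, 17553), (40, 17553), (42, 4269), (57, 3150), (60, 7274)], 0, 0, 0, 0, 0, []⟩) (.L ⟨[(1, 1032), (2, 117777), (9, 69741), (11, 14448), (23, 1032), (32, 123453), (34, 3612), (39, 118809), (40, 118809), (42, 1032), (57, 28063), (59, 3096), (60, 39603)], 60888, 0, 0, 0, 0, []⟩))) (.N 5 (.L ⟨[(0, 2397), (1, 153), (9, 2448), (11, 255), (26, 153), (30, 1359), (32, 1548),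 (39, 153), (41, 1578), (42, 2550), (55, 255), (57, 102), (59, 969), (60, 850), (69, 6120)], 0, 0, 0, 0, 0, []⟩) (.L ⟨[(0, 24639), (1, 774), (9, 26445), (11, 1290), (22, 774), (32, 16761), (34, 2064), (39, 774), (41, 25413), (42, 25413), (57, 1032), (59, 6275), (60, 8471), (69, 30960)], 0, 0, 0, 0, 0, []⟩))) (.L ⟨[(69, 1)], 0, 0, 0, 0, 0, []⟩)))) (.L ⟨[(26, 15), (58, 5), (64, 336)], 0, 0, 0, 0, 0, []⟩))

theorem ok_Da_3p : tree_Da_3p.check prm_Da ⟨-64, 64, -128, 128, -64, 64, 128, 128, -64, 64, -128, 128, 0, 1344⟩ = true := by decide +kernel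

def tree_Da_4m : Tree := .N 6 (.N 6 (.L ⟨[(69, 1)], 0, 0, 0, 0, 0, []⟩) (.N 1 (.L ⟨[(69, 1)], 1, 0, 0, 0, 0, []⟩) (.N 0 (.N 1 (.L ⟨[(69, 2)], 3, 0, 0, 0, 0, []⟩) (.N 6 (.N 2 (.N 0 (.N 2 (.N 6 (.N 6 (.L ⟨[(69, 1)], 0, 0, 0, 0, 0, []⟩) (.N 3 (.L ⟨[(69, 1)], 0, 0, 0, 1, 0, []⟩) (.N 3 (.L ⟨[(69, 1)], 0, 0, 0, 1, 0, []⟩) (.L ⟨[(0, 126), (1, 570), (2, 21), (14, 126), (15, 570), (38, 21), (39, 105), (40, 591), (41, 696), (60, 239), (69, 20160)], 0, 0, 0, 1785, 0, []⟩)))) (.N 0 (.N 3 (.L ⟨[(1, 558), (14, 168), (15, 789), (38, 21), (40, 558), (41, 558), (57, 56), (58, 77), (59, 7), (60, 186), (69, 20475)], 0, 0, 0, 26880, 0, []⟩) (.N 6 (.N 3 (.L ⟨[(0, 63), (1, 333), (2, 21), (14, 63), (15, 333), (38, 21), (40, 354), (41, 354), (60, 139), (69, 33558)], 0, 0, 0, 40320, 0, []⟩) (.L ⟨[(0, 1771), (1, 8231), (2, 399), (14, 1771), (15, 8231), (37, 147), (38, 252),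 (40, 8630), (41, 10002), (60, 3467), (69, 21357)], 161280, 0, 0, 25683, 0, []⟩)) (.L ⟨[(0, 7637), (1, 36457), (2, 1953), (14, 7637), (15, 36457), (37, 609), (38, 1344), (40, 38410), (41, 44094), (60, 15349), (69, 142548)], 645120, 0, 0, 143388, 0, []⟩))) (.L ⟨[(1, 12), (14, 3), (15, 12), (40, 12), (41, 12), (57, 1), (60, 4), (69, 480)], 0, 0, 0, 0, 0, []⟩))) (.L ⟨[(0, 1500), (1, 9750), (2, 2292), (13, 750), (14, 750), (15, 600), (16, 9150), (35, 2292), (41, 11250), (53, 1125), (60, 4514), (69, 460500)], 0, 0, 0, 720000, 0, []⟩)) (.L ⟨[(69, 1)], 0, 0, 0, 0, 0, []⟩)) (.L ⟨[(1, 3), (2, 3), (20, 3), (33, 3), (60, 2), (69, 388)], 0, 0, 0, 960, 0, []⟩)) (.N 2 (.N 0 (.N 5 (.L ⟨[(1, 822), (14, 210), (15, 843), (40, 822), (41, 822), (52, 77), (57, 70), (58, 7), (60, 274)], 13440, 0, 0, 0, 0, []⟩) (.N 3 (.N 2 (.N 5 (.L ⟨[(1, 228), (14, 57), (15, 228), (40,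 228), (41, 228), (57, 19), (60, 76), (69, 499)], 3840, 11, 0, 0, 4, []⟩) (.N 3 (.L ⟨[], 0, 1, 0, 0, 0, []⟩) (.L ⟨[(0, 4270), (1, 22994), (2, 1722), (14, 4270), (15, 22994), (37, 273), (38, 1449), (40, 24716), (41, 27264), (60, 9662), (69, 10626)], 322560, 89376, 0, 49833, 78330, []⟩))) (.L ⟨[(0, 9), (1, 42), (14, 9), (15, 42), (60, 17)], 0, 1440, 0, 2160, 0, []⟩)) (.N 5 (.L ⟨[(0, 189), (1, 754), (2, 14), (14, 189), (15, 754), (35, 14), (40, 768), (41, 943), (60, 319)], 13440, 0, 0, 14, 0, []⟩) (.L ⟨[(0, 329), (1, 1773), (2, 133), (14, 329), (15, 1773), (37, 21), (38, 112), (40, 1906), (41, 2102), (60, 745)], 26880, 0, 0, 2345, 0, []⟩)))) (.L ⟨[(1, 12), (14, 3), (15, 12), (40, 12), (41, 12), (57, 1), (60, 4), (69, 240)], 0, 0, 0, 0, 0, []⟩)) (.L ⟨[(1, 71130), (13, 3840), (14, 14160), (15, 49725), (16, 23565), (35, 2160), (39, 71130), (41, 71130),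 (51, 7113), (57, 6000), (58, 720), (59, 720), (60, 23710), (69, 404640)], 348720, 0, 0, 460800, 0, []⟩)))) (.L ⟨[(69, 1)], 0, 0, 0, 0, 0, []⟩)))) (.N 0 (.N 1 (.L ⟨[(69, 1)], 3, 0, 0, 0, 0, []⟩) (.N 2 (.N 5 (.N 1 (.N 0 (.L ⟨[(1, 1170), (14, 315), (15, 1275), (39, 1170), (41, 1170), (51, 117), (57, 105), (58, 35), (60, 390)], 33600, 0, 0, 0, 0, []⟩) (.N 2 (.L ⟨[(1, 2010), (14, 525), (15, 2115), (40, 2010), (41, 2010), (49, 201), (51, 201), (57, 175), (58, 35), (60, 670), (69, 18515)], 33600, 0, 0, 0, 0, []⟩) (.L ⟨[(1, 153390), (12, 2520), (14, 39060), (15, 168510), (35, 3780), (40, 129660), (41, 153390), (51, 15339), (57, 13860), (58, 5040), (59, 1260), (60, 51130), (69, 1908900)], 2419200, 0, 0, 0, 0, []⟩))) (.L ⟨[(0, 196), (1, 674), (13, 21), (14, 175), (15, 737), (40, 674), (41, 870), (51, 87), (58, 21), (60, 290)], 1260, 0, 0, 0, 0, []⟩)) (.N 1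 (.N 0 (.N 5 (.N 6 (.L ⟨[(1, 12), (14, 3), (15, 12), (40, 12), (41, 12), (57, 1), (60, 4)], 320, 0, 0, 0, 0, []⟩) (.N 3 (.L ⟨[(1, 3270), (13, 135), (14, 810), (15, 3945), (35, 1620), (40, 270), (41, 3270), (51, 327), (57, 315), (58, 225), (59, 540), (60, 1090), (67, 7404)], 86400, 0, 0, 0, 0, []⟩) (.L ⟨[(0, 330), (1, 720), (13, 225), (14, 105), (15, 720), (35, 315), (40, 720), (41, 1050), (51, 105), (59, 105), (60, 350), (67, 2283)], 25200, 0, 0, 0, 0, []⟩))) (.L ⟨[(0, 14), (1, 530), (2, 14), (14, 14), (15, 530), (38, 119), (40, 544), (41, 544), (59, 35), (60, 186)], 6720, 0, 0, 0, 0, []⟩)) (.N 6 (.L ⟨[(1, 4200), (10, 378), (12, 1368), (15, 4578), (35, 1512), (40, 2793), (41, 4200), (51, 420), (57, 582), (58, 126), (59, 504), (60, 1400), (69, 19236)], 80640, 0, 0, 0, 0, []⟩) (.L ⟨[(0, 21618), (1, 18882), (10, 20268), (12, 1350), (15, 45975), (35,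 24300), (40, 2700), (41, 40500), (51, 4050), (58, 9031), (59, 8100), (60, 13500)], 648000, 0, 0, 0, 0, []⟩))) (.N 6 (.N 3 (.L ⟨[(1, 10770), (14, 2520), (15, 13395), (38, 735), (40, 10770), (41, 10770), (50, 1077), (57, 840), (58, 875), (59, 245), (60, 3590)], 134400, 0, 0, 0, 0, []⟩) (.L ⟨[(0, 903), (1, 6747), (14, 1158), (15, 6747), (38, 561), (39, 903), (40, 6747), (41, 7650), (50, 765), (57, 85), (59, 187), (60, 2550)], 65280, 0, 0, 1496, 0, []⟩)) (.L ⟨[(0, 420), (1, 7980), (14, 1680), (15, 7980), (35, 3555), (37, 225), (39, 420), (40, 840), (41, 8400), (50, 840), (57, 420), (59, 1260), (60, 2800), (67, 15759)], 0, 0, 0, 0, 0, []⟩)))) (.N 3 (.L ⟨[(1, 241230), (11, 51084), (18, 44505), (20, 490458), (33, 414858), (35, 7095), (39, 241230), (41, 241230), (51, 24123), (57, 17028), (58, 97911), (59, 140651), (60, 80410)], 452661, 5448960, 0, 0, 0,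 []⟩) (.L ⟨[(0, 16350), (1, 235080), (11, 65400), (18, 60180), (20, 174900), (33, 98100), (39, 235080), (41, 251430), (51, 25143), (57, 16350), (59, 32700), (60, 83810)], 490500, 0, 0, 0, 0, []⟩)))) (.L ⟨[(1, 39990), (10, 20769), (12, 15222), (15, 51987), (31, 3999), (33, 59304), (41, 39990), (51, 3999), (57, 11997), (58, 3999), (59, 21101), (60, 13330), (69, 1919520)], 0, 0, 0, 0, 0, []⟩))

theorem ok_Da_4m : tree_Da_4m.check prm_Da ⟨-64, 64, -128, 128, -64, 64, -128, 128, -64, -64, -128, 128, 0, 1344⟩ = true := by decide +kernel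

def tree_Da_4p : Tree := .N 6 (.N 6 (.L ⟨[(69, 1)], 0, 0, 0, 0, 0, []⟩) (.N 0 (.N 5 (.L ⟨[], 0, 0, 1, 0, 0, []⟩) (.N 3 (.L ⟨[(11, 36), (15, 75), (34, 36), (57, 12), (58, 25), (59, 12), (69, 1440)], 0, 0, 1080, 540, 1056, []⟩) (.N 2 (.L ⟨[(11, 1419), (30, 3225), (32, 600), (57, 473), (59, 1275), (69, 40678)], 0, 0, 43989, 0, 113520, []⟩) (.N 3 (.L ⟨[(7, 12900), (9, 5238), (32, 2838), (34, 5676), (57, 6046), (59, 2838), (69, 322113)], 0, 0, 190146, 340560, 273867, []⟩) (.N 6 (.L ⟨[(7, 6450), (9, 2619), (32, 1419), (34, 2838), (57, 3023), (59, 1419), (69, 170280)], 0, 0, 122034, 136224, 92235, []⟩) (.N 1 (.L ⟨[(69, 2)], 3, 0, 0, 0, 0, []⟩) (.L ⟨[(9, 24123), (11, 5676), (30, 12900), (32, 26523), (57, 9933), (59, 13141), (69, 681120)], 0, 0, 124872, 400158, 269610, []⟩))))))) (.L ⟨[(69, 1)], 0, 0, 0, 0, 0, []⟩))) (.N 6 (.N 6 (.L ⟨[(11, 129), (32, 225),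 (57, 43), (59, 75), (64, 645), (69, 3440)], 0, 0, 0, 0, 0, []⟩) (.L ⟨[(11, 129), (32, 225), (57, 43), (59, 75), (64, 645), (69, 3440)], 0, 0, 0, 0, 0, []⟩)) (.L ⟨[(11, 129), (32, 225), (57, 43), (59, 75), (64, 645), (69, 3440)], 0, 0, 0, 0, 0, []⟩))

theorem ok_Da_4p : tree_Da_4p.check prm_Da ⟨-64, 64, -128, 128, -64, 64, -128, 128, 64, 64, -128, 128, 0, 1344⟩ = true := by decide +kernel

def tree_Da_5m : Tree := .N 6 (.N 6 (.L ⟨[(69, 1)], 0, 0, 0, 0, 0, []⟩) (.L ⟨[(14, 9), (27, 42), (57, 3), (59, 14), (69, 480)], 480, 0, 0, 0, 0, []⟩)) (.L ⟨[(13, 3780), (14, 3645), (27, 28770), (57, 2475), (59, 9590), (65, 14112), (69, 345600)], 275130, 0, 0, 0, 0, []⟩)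

theorem ok_Da_5m : tree_Da_5m.check prm_Da ⟨-64, 64, -128, 128, -64, 64, -128, 128, -64, 64, -128, -128, 0, 1344⟩ = true := by decide +kernel

def tree_Da_5p : Tree := .N 6 (.N 6 (.L ⟨[(69, 1)], 0, 0, 0, 0, 0, []⟩) (.N 1 (.L ⟨[(69, 1)], 1, 0, 0, 0, 0, []⟩) (.N 0 (.N 1 (.L ⟨[(69, 2)], 3, 0, 0, 0, 0, []⟩) (.N 3 (.N 2 (.N 2 (.N 4 (.L ⟨[(1, 36), (15, 36), (38, 9), (40, 36), (41, 36), (59, 3), (60, 12)], 75, 480, 0, 215, 435, []⟩) (.L ⟨[], 0, 11, 0, 0, 15, []⟩)) (.L ⟨[(1, 234), (15, 255), (38, 63), (40, 234), (41, 234), (58, 7), (59, 21), (60, 78), (69, 1001)], 0, 3360, 0, 3066, 2177, []⟩)) (.L ⟨[(69, 5)], 0, 7, 0, 15, 0, []⟩)) (.N 2 (.N 4 (.N 2 (.N 6 (.N 3 (.L ⟨[(1, 12), (2, 3), (15, 12), (38, 3), (40, 12), (41, 12), (60, 5), (69, 325)], 0, 0, 0, 407, 480, []⟩) (.N 6 (.N 6 (.L ⟨[(69, 1)], 0, 0, 0, 0, 0, []⟩) (.N 2 (.L ⟨[(0, 2100), (1, 2847), (2, 1554),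 (9, 2100), (15, 2847), (36, 1554), (39, 4401), (41, 4947), (60, 2167), (69, 62843)], 0, 0, 0, 39006, 65010, []⟩) (.L ⟨[(69, 30)], 0, 0, 0, 29, 0, []⟩))) (.L ⟨[(0, 249), (1, 192), (2, 123), (3, 39), (5, 210), (15, 192), (36, 33), (38, 90), (39, 315), (40, 315), (41, 441), (42, 441), (60, 188)], 0, 0, 0, 3570, 5760, []⟩))) (.L ⟨[(0, 132), (1, 243), (2, 108), (3, 72), (5, 60), (15, 243), (36, 12), (38, 96), (39, 351), (40, 351), (41, 375), (42, 375), (60, 161)], 0, 0, 0, 2676, 5760, []⟩)) (.N 3 (.L ⟨[(1, 12), (2, 3), (15, 12), (38, 3), (39, 12), (41, 12), (60, 5), (69, 306)], 0, 0, 0, 480, 149, []⟩) (.N 6 (.L ⟨[(0, 3519), (2, 1239), (7, 1311), (9, 2208), (34, 1239), (39, 1239), (41, 3519), (42, 3519), (60, 1586), (69, 180481)], 7021, 0, 0, 198240, 13629, []⟩) (.L ⟨[(0, 91), (1, 39), (2, 35), (5, 91), (15, 39), (36, 20), (38, 15), (39, 74), (41, 130),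 (60, 55)], 0, 0, 0, 1200, 1165, []⟩)))) (.L ⟨[(0, 3099), (1, 2709), (9, 1953), (11, 1146), (20, 2709), (39, 2709), (41, 5808), (42, 5808), (60, 1936), (69, 124914)], 0, 0, 0, 127206, 550080, []⟩)) (.N 0 (.L ⟨[(0, 14076), (2, 5316), (7, 8556), (9, 5520), (34, 5316), (39, 5316), (42, 14076), (60, 6464), (69, 253839)], 252510, 0, 0, 1275840, 77082, []⟩) (.L ⟨[(0, 6048), (1, 1197), (2, 2976), (9, 6048), (15, 1197), (34, 2976), (39, 4173), (40, 4173), (41, 7245), (42, 7245), (60, 3407), (69, 197505)], 0, 0, 0, 287280, 27531, []⟩))))) (.L ⟨[(69, 1)], 0, 0, 0, 0, 0, []⟩)))) (.N 6 (.N 0 (.N 1 (.L ⟨[(69, 1)], 2, 0, 0, 0, 0, []⟩) (.N 3 (.L ⟨[(15, 42), (38, 9), (58, 14), (59, 3)], 0, 0, 0, 0, 0, []⟩) (.N 4 (.N 1 (.N 2 (.N 3 (.L ⟨[(1, 3801), (9, 672), (15, 3801), (36, 516), (38, 828), (39, 3801), (40, 3801), (41, 3801), (42, 3801), (57, 224), (59, 448), (60,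 1267)], 26880, 0, 0, 2240, 15456, []⟩) (.L ⟨[(0, 15552), (1, 17397), (2, 16224), (7, 26784), (9, 3744), (15, 17397), (36, 14976), (38, 1248), (39, 33621), (40, 33621), (41, 32949), (42, 32949), (57, 4992), (60, 16391)], 299520, 0, 0, 0, 203424, []⟩)) (.L ⟨[(0, 684), (1, 5349), (2, 2313), (9, 2736), (15, 5349), (36, 1629), (38, 684), (39, 7662), (41, 6033), (42, 6033), (57, 684), (60, 2782)], 20520, 0, 0, 0, 14364, []⟩)) (.N 4 (.L ⟨[(0, 12), (1, 315), (2, 108), (5, 12), (15, 315), (36, 24), (38, 84), (39, 423), (40, 423), (41, 327), (42, 327), (60, 145)], 132, 0, 0, 0, 108, []⟩) (.N 0 (.N 2 (.N 3 (.L ⟨[(1, 237), (15, 237), (38, 63), (39, 237), (40, 105), (41, 237), (59, 21), (60, 79), (67, 42)], 0, 0, 0, 1659, 2520, []⟩) (.L ⟨[(0, 2759), (1, 826), (2, 1239), (7, 1287), (9, 1472), (15, 826), (34, 413), (36, 826), (39, 2065), (40, 2065), (41, 3585),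 (42, 3585), (60, 1608)], 0, 0, 0, 21063, 49560, []⟩)) (.L ⟨[(0, 14895), (1, 7434), (2, 9912), (7, 14295), (9, 15468), (18, 7434), (34, 6195), (36, 3717), (39, 17346), (41, 22329), (42, 22329), (57, 4956), (60, 10747)], 0, 0, 0, 594720, 0, []⟩)) (.L ⟨[(1, 735), (2, 252), (15, 735), (36, 72), (38, 180), (39, 987), (40, 987), (41, 567), (42, 735), (60, 329)], 0, 0, 0, 0, 72, []⟩)))) (.N 2 (.L ⟨[(0, 15594), (1, 3933), (2, 7272), (9, 14283), (11, 1311), (15, 3933), (34, 7272), (39, 11205), (41, 19527), (42, 19527), (60, 8933), (64, 3933)], 0, 0, 0, 0, 20136960, []⟩) (.N 3 (.L ⟨[(1, 1509), (2, 360), (9, 1056), (15, 1509), (36, 888), (39, 1869), (40, 1869), (41, 1509), (42, 1509), (57, 352), (59, 176), (60, 623)], 0, 0, 0, 5280, 1056, []⟩) (.N 0 (.L ⟨[(0, 93831), (2, 96489), (7, 167341), (9, 83504), (34, 96489), (39, 96489), (40, 1586), (41, 93831), (42,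 93831), (57, 52338), (60, 63440)], 0, 0, 0, 1522560, 0, []⟩) (.L ⟨[(0, 27594), (1, 8379), (2, 19905), (7, 3591), (9, 34776), (15, 8379), (34, 19905), (39, 28284), (40, 28284), (41, 35973), (42, 35973), (57, 3591), (60, 18626)], 0, 0, 0, 71820, 52668, []⟩))))))) (.L ⟨[(69, 1)], 0, 0, 0, 0, 0, []⟩)) (.L ⟨[(38, 15), (59, 5), (64, 336)], 0, 0, 0, 0, 0, []⟩))

theorem ok_Da_5p : tree_Da_5p.check prm_Da ⟨-64, 64, -128, 128, -64, 64, -128, 128, -64, 64, 128, 128, 0, 1344⟩ = true := by decide +kernel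

end Pool.Agent.H30.P6
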