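import Pool.Agent.H30.P6.Base

/-! certificate Db (generated) -/

set_option autoImplicit false
set_option maxRecDepth 100000

namespace Pool.Agent.H30.P6

def prm_Db : Prm := ⟨32, 256, base ++ [⟨0, 0, 1, 0, 0, 0, 0, 0, 0, 0, 0, 0, 0, 0, 0, 0, 0, 0, 0, 0, 1⟩], []⟩

def tree_Db_0m : Tree := .N 6 (.N 6 (.L ⟨[(69, 1)], 1, 0, 0, 0, 0, []⟩) (.L ⟨[(69, 1)], 1, 0, 0, 0, 0, []⟩)) (.N 1 (.L ⟨[], 1, 0, 0, 0, 0, []⟩) (.L ⟨[(69, 30)], 13, 0, 0, 0, 0, []⟩))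

theorem ok_Db_0m : tree_Db_0m.check prm_Db ⟨-32, -32, -64, 64, -32, 32, -64, 64, -32, 32, -64, 64, 0, 336⟩ = true := by decide +kernel

def tree_Db_0p : Tree := .N 6 (.N 6 (.L ⟨[(69, 1)], 0, 0, 0, 0, 0, []⟩) (.N 6 (.L ⟨[(69, 1)], 0, 0, 0, 0, 0, []⟩) (.N 1 (.N 1 (.N 1 (.N 3 (.N 2 (.L ⟨[(0, 459), (1, 2616), (2, 744), (4, 960), (6, 5070), (23, 2616), (34, 744), (40, 3360), (42, 3075), (46, 336), (57, 1857), (60, 1273)], 0, 184320, 11016, 0, 0, []⟩) (.N 4 (.L ⟨[(0, 6250), (1, 3000), (2, 3740), (3, 6250), (22, 3000), (35, 3740), (41, 9250), (45, 674), (53, 925), (60, 4330), (69, 190550)], 0, 444000, 100825, 0, 0, []⟩) (.N 5 (.L ⟨[(0, 75), (1, 16), (2, 32), (4, 75), (22, 16), (35, 32), (60, 41)], 0, 4480, 7680, 0, 0, []⟩) (.L ⟨[(0, 294), (2, 63), (3, 294), (38, 63), (51, 27), (60, 119)], 0, 8640, 5004, 0, 0,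 []⟩)))) (.N 2 (.L ⟨[(0, 8175), (1, 3616), (2, 2384), (3, 2400), (4, 5775), (23, 3616), (34, 2384), (46, 600), (60, 4725)], 0, 0, 72000, 0, 0, []⟩) (.L ⟨[(0, 420), (1, 54), (2, 36), (3, 420), (26, 54), (38, 36), (45, 9), (60, 170)], 0, 0, 4320, 0, 0, []⟩))) (.L ⟨[(69, 1)], 0, 0, 0, 0, 0, []⟩)) (.L ⟨[(69, 1)], 0, 0, 0, 0, 0, []⟩)) (.L ⟨[(69, 1)], 0, 0, 0, 0, 0, []⟩)))) (.N 1 (.N 5 (.N 4 (.N 6 (.N 6 (.N 4 (.L ⟨[(8, 3), (33, 3), (57, 1), (59, 1)], 0, 0, 0, 0, 0, []⟩) (.N 5 (.L ⟨[(8, 39), (33, 39), (57, 13), (59, 13), (69, 7)], 0, 0, 480, 0, 0, []⟩) (.L ⟨[(6, 41925), (8, 7800), (35, 18447), (57, 16575), (59, 6149), (69, 454080)], 0, 0, 390225, 0, 0, []⟩))) (.L ⟨[(8, 3), (33, 3), (57, 1), (59, 1), (69, 5)], 0, 0, 30, 0, 0, []⟩)) (.L ⟨[(8, 3), (33, 3), (57, 1), (59, 1)], 0, 0, 0, 0, 0, []⟩)) (.N 6 (.L ⟨[(6, 3225),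 (8, 600), (35, 1419), (57, 1275), (59, 473), (69, 37840)], 0, 0, 908160, 0, 0, []⟩) (.N 4 (.L ⟨[(8, 3), (33, 3), (57, 1), (59, 1)], 0, 0, 60, 0, 0, []⟩) (.L ⟨[], 0, 0, 1, 0, 0, []⟩)))) (.N 5 (.N 4 (.N 2 (.L ⟨[(1, 3096), (2, 17544), (8, 35736), (15, 12513), (17, 6063), (35, 17544), (40, 20640), (48, 2064), (57, 11912), (58, 5160), (60, 6880), (69, 13416)], 0, 123840, 0, 0, 0, []⟩) (.L ⟨[(1, 6450), (8, 12600), (15, 6450), (35, 7224), (40, 6450), (41, 6450), (46, 645), (51, 645), (57, 4200), (59, 2408), (60, 2150), (69, 17415)], 0, 19350, 0, 0, 0, []⟩)) (.N 6 (.L ⟨[(4, 2925), (6, 3000), (35, 840), (37, 1050), (57, 1975), (59, 630), (69, 80640)], 0, 0, 60732, 0, 0, []⟩) (.L ⟨[(4, 63), (37, 18), (57, 21), (59, 6), (69, 960)], 0, 0, 596, 0, 0, []⟩))) (.L ⟨[(3, 42), (38, 9), (57, 14), (59, 3), (69, 720)], 0,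 0, 0, 0, 0, []⟩))) (.L ⟨[(69, 1)], 0, 0, 0, 0, 0, []⟩))

theorem ok_Db_0p : tree_Db_0p.check prm_Db ⟨32, 32, -64, 64, -32, 32, -64, 64, -32, 32, -64, 64, 0, 336⟩ = true := by decide +kernel

def tree_Db_1m : Tree := .N 6 (.N 6 (.L ⟨[(69, 1)], 0, 0, 0, 0, 0, []⟩) (.N 6 (.L ⟨[(69, 1)], 0, 0, 0, 0, 0, []⟩) (.N 3 (.N 3 (.L ⟨[], 0, 1, 0, 0, 0, []⟩) (.N 3 (.L ⟨[(3, 42), (26, 9), (57, 14), (58, 3)], 0, 1440, 0, 0, 0, []⟩) (.N 3 (.N 0 (.L ⟨[], 1, 0, 0, 0, 0, []⟩) (.N 2 (.L ⟨[(1, 3996), (2, 1404), (3, 11526), (4, 3105), (25, 2556), (26, 1440), (34, 1224), (36, 180), (40, 5400), (42, 3996), (46, 540), (57, 4877), (60, 1800)], 54612, 276480, 0, 0, 0, []⟩) (.N 4 (.L ⟨[(0, 4830), (1, 1260), (3, 5460), (24, 135), (26, 1125), (39, 1260), (44, 126), (53, 609), (57, 210), (60, 2030)], 30324, 161280, 8652, 0, 0, []⟩) (.L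 ⟨[(0, 1665), (1, 1845), (2, 405), (3, 9705), (26, 1845), (37, 135), (38, 270), (39, 2250), (41, 3510), (44, 225), (53, 351), (57, 2680), (60, 1305)], 23265, 172800, 52875, 0, 0, []⟩)))) (.L ⟨[(3, 42), (26, 9), (57, 14), (58, 3)], 0, 0, 0, 0, 0, []⟩)))) (.L ⟨[(3, 42), (26, 9), (57, 14), (58, 3)], 0, 0, 0, 0, 0, []⟩)))) (.N 3 (.N 3 (.N 6 (.L ⟨[], 0, 1, 0, 0, 0, []⟩) (.N 2 (.L ⟨[(3, 60), (23, 15), (57, 20), (58, 5), (63, 138), (65, 75)], 0, 800, 0, 0, 0, []⟩) (.L ⟨[(3, 60), (22, 15), (57, 20), (58, 5), (63, 138), (68, 75)], 0, 800, 0, 0, 0, []⟩))) (.L ⟨[(3, 42), (26, 9), (57, 14), (58, 3)], 0, 480, 0, 0, 0, []⟩)) (.L ⟨[(3, 42), (26, 9), (57, 14), (58, 3)], 0, 0, 0, 0, 0, []⟩))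

theorem ok_Db_1m : tree_Db_1m.check prm_Db ⟨-32, 32, -64, -64, -32, 32, -64, 64, -32, 32, -64, 64, 0, 336⟩ = true := by decide +kernel

def tree_Db_1p : Tree := .N 6 (.N 6 (.L ⟨[(69, 1)], 0, 0, 0, 0, 0, []⟩) (.L ⟨[(69, 1)], 0, 0, 0, 0, 0, []⟩)) (.L ⟨[(69, 1)], 0, 0, 0, 0, 0, []⟩)

theorem ok_Db_1p : tree_Db_1p.check prm_Db ⟨-32, 32, 64, 64, -32, 32, -64, 64, -32, 32, -64, 64, 0, 336⟩ = true := by decide +kernel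

def tree_Db_2m : Tree := .N 6 (.N 6 (.L ⟨[(69, 1)], 0, 0, 0, 0, 0, []⟩) (.N 6 (.L ⟨[(69, 1)], 0, 0, 0, 0, 0, []⟩) (.N 0 (.L ⟨[(69, 1)], 1, 0, 0, 0, 0, []⟩) (.N 3 (.N 3 (.L ⟨[], 0, 1, 0, 0, 0, []⟩) (.N 6 (.N 1 (.L ⟨[(1, 42000), (6, 158925), (23, 63243), (34, 8700), (36, 2100), (40, 42000), (42, 42000), (46, 4200), (57, 52975), (58, 7081), (59, 3600), (60, 14000), (69, 2304000)], 1359600, 1653000, 0, 0, 0, []⟩) (.L ⟨[(69, 1)], 0, 0, 0, 0, 0, []⟩)) (.L ⟨[(6, 370875), (8, 69000), (23, 163185), (57, 146625), (58, 54395), (69, 7265280)], 3176668, 2386758, 0, 0, 0, []⟩))) (.L ⟨[(0, 31536), (1, 67392), (2, 37728), (4, 145533), (23, 67392), (34, 34224), (36, 3504), (40, 105120), (42, 98928), (46, 10512), (57, 37999), (60, 45552), (69, 3363840)], 1685424, 0, 0, 0, 0, []⟩))))) (.N 1 (.N 0 (.N 1 (.N 0 (.L ⟨[], 1,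 0, 0, 0, 0, []⟩) (.L ⟨[(8, 3), (21, 3), (57, 1), (58, 1)], 60, 0, 0, 0, 0, []⟩)) (.L ⟨[(69, 1)], 3, 0, 0, 0, 0, []⟩)) (.N 6 (.N 1 (.N 0 (.L ⟨[(8, 39), (21, 39), (57, 13), (58, 13), (69, 7)], 480, 0, 0, 0, 0, []⟩) (.L ⟨[(8, 3), (21, 3), (57, 1), (58, 1)], 0, 0, 0, 0, 0, []⟩)) (.L ⟨[(69, 1)], 0, 0, 0, 0, 0, []⟩)) (.L ⟨[(8, 3), (21, 3), (57, 1), (58, 1)], 0, 0, 0, 0, 0, []⟩))) (.L ⟨[(69, 1)], 0, 0, 0, 0, 0, []⟩))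

theorem ok_Db_2m : tree_Db_2m.check prm_Db ⟨-32, 32, -64, 64, -32, -32, -64, 64, -32, 32, -64, 64, 0, 336⟩ = true := by decide +kernel

def tree_Db_2p : Tree := .N 6 (.N 6 (.L ⟨[(69, 1)], 0, 0, 0, 0, 0, []⟩) (.N 6 (.L ⟨[(69, 1)], 0, 0, 0, 0, 0, []⟩) (.N 0 (.L ⟨[(69, 1)], 1, 0, 0, 0, 0, []⟩) (.N 1 (.N 1 (.N 3 (.N 3 (.L ⟨[], 0, 1, 0, 0, 0, []⟩) (.N 4 (.L ⟨[(0, 2940225), (1, 1627275), (3, 2940225), (22, 1627275), (33, 299250), (35, 1690923), (39, 1627275), (41, 4567500), (53, 456750), (59, 663391), (60, 1522500), (69, 53628750)], 0, 59094000, 60480000, 33106500, 0, []⟩) (.N 5 (.L ⟨[(0, 5710), (1, 3280), (2, 3460), (3, 5710), (22, 3280), (35, 3460), (39, 6740), (41, 8990), (51, 899), (60, 4150), (69, 96193)], 0, 141143, 431520, 83607, 0, []⟩) (.L ⟨[(0, 7714), (1, 406), (2, 2317), (3, 7714), (22, 406), (37,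 1122), (38, 1195), (39, 2723), (41, 8120), (51, 812), (60, 3479), (69, 155092)], 0, 94192, 194880, 91756, 0, []⟩)))) (.L ⟨[(0, 7065), (1, 1065), (2, 585), (3, 5265), (5, 1800), (26, 1065), (37, 180), (38, 405), (39, 1650), (41, 8130), (43, 165), (53, 813), (60, 2905), (69, 230400)], 46575, 0, 92520, 0, 0, []⟩)) (.L ⟨[(69, 1)], 0, 0, 0, 0, 0, []⟩)) (.L ⟨[(69, 1)], 0, 0, 0, 0, 0, []⟩))))) (.N 1 (.N 5 (.N 4 (.N 6 (.N 6 (.N 3 (.N 3 (.L ⟨[], 0, 1, 0, 0, 0, []⟩) (.L ⟨[(1, 381840), (3, 318759), (5, 263289), (22, 496392), (33, 699432), (35, 39216), (39, 381840), (41, 381840), (53, 38184), (57, 194016), (58, 38184), (59, 246216), (60, 127280), (69, 15851520)], 0, 11339616, 9765816, 0, 0, []⟩)) (.L ⟨[(0, 15507), (1, 9183), (7, 8427), (9, 7080), (22, 9183), (29, 7407), (39, 9183), (53, 2469), (59, 2469), (60, 8230),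 (69, 296280)], 0, 0, 167892, 0, 0, []⟩)) (.L ⟨[(20, 3), (33, 3), (58, 1), (59, 1), (69, 5)], 0, 0, 30, 0, 0, []⟩)) (.L ⟨[(20, 3), (33, 3), (58, 1), (59, 1)], 0, 0, 0, 0, 0, []⟩)) (.N 6 (.L ⟨[(3, 3225), (20, 5400), (35, 3096), (57, 1075), (58, 1800), (59, 1032), (69, 86688)], 0, 0, 1981440, 0, 0, []⟩) (.N 4 (.L ⟨[(20, 3), (33, 3), (58, 1), (59, 1)], 0, 0, 60, 0, 0, []⟩) (.L ⟨[], 0, 0, 1, 0, 0, []⟩)))) (.N 3 (.N 3 (.L ⟨[(15, 42), (38, 9), (58, 14), (59, 3)], 0, 480, 0, 0, 0, []⟩) (.N 4 (.L ⟨[(1, 24000), (3, 1200), (5, 10275), (20, 24000), (35, 11568), (39, 24000), (41, 24000), (51, 2400), (57, 3825), (59, 3856), (60, 8000), (69, 288000)], 0, 133200, 0, 96000, 0, []⟩) (.N 6 (.N 0 (.L ⟨[(1, 840), (5, 3465), (22, 840), (37, 135), (38, 270), (39, 840), (41, 840), (51, 84), (57, 1155), (59, 135), (60, 280), (69,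 29025)], 17550, 0, 24570, 32400, 0, []⟩) (.L ⟨[(0, 2196), (1, 4464), (3, 13836), (20, 4464), (37, 3663), (38, 1332), (39, 4464), (41, 6660), (51, 666), (57, 3880), (59, 1665), (60, 2220), (69, 319680)], 0, 69264, 219780, 54945, 0, []⟩)) (.L ⟨[(3, 1806), (20, 672), (37, 516), (38, 129), (57, 602), (58, 224), (59, 215), (69, 41280)], 0, 0, 18619, 0, 0, []⟩)))) (.L ⟨[(0, 5472), (1, 2288), (2, 679), (5, 2638), (7, 6326), (22, 2288), (38, 679), (39, 2967), (41, 7760), (51, 776), (57, 1164), (60, 2813), (69, 186240)], 0, 0, 85942, 0, 0, []⟩))) (.L ⟨[(69, 1)], 0, 0, 0, 0, 0, []⟩))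

theorem ok_Db_2p : tree_Db_2p.check prm_Db ⟨-32, 32, -64, 64, 32, 32, -64, 64, -32, 32, -64, 64, 0, 336⟩ = true := by decide +kernel

def tree_Db_3m : Tree := .N 6 (.N 6 (.L ⟨[], 0, 1, 0, 0, 0, []⟩) (.L ⟨[], 0, 1, 0, 0, 0, []⟩)) (.N 6 (.L ⟨[], 0, 1, 0, 0, 0, []⟩) (.N 2 (.L ⟨[(17, 15), (58, 5), (63, 32), (65, 16)], 0, 150, 0, 0, 0, []⟩) (.L ⟨[(16, 15), (58, 5), (63, 32), (68, 16)], 0, 150, 0, 0, 0, []⟩)))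

theorem ok_Db_3m : tree_Db_3m.check prm_Db ⟨-32, 32, -64, 64, -32, 32, -64, -64, -32, 32, -64, 64, 0, 336⟩ = true := by decide +kernel

def tree_Db_3p : Tree := .N 6 (.N 6 (.L ⟨[(69, 1)], 0, 0, 0, 0, 0, []⟩) (.L ⟨[(0, 153), (1, 90), (3, 420), (26, 90), (44, 9), (57, 89), (60, 81), (69, 17280)], 2817, 0, 1836, 0, 810, []⟩)) (.L ⟨[(3, 42), (26, 9), (57, 14), (58, 3), (69, 720)], 0, 0, 0, 0, 0, []⟩)

theorem ok_Db_3p : tree_Db_3p.check prm_Db ⟨-32, 32, -64, 64, -32, 32, 64, 64, -32, 32, -64, 64, 0, 336⟩ = true := by decide +kernel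

def tree_Db_4m : Tree := .N 6 (.N 6 (.L ⟨[(69, 1)], 0, 0, 0, 0, 0, []⟩) (.N 0 (.L ⟨[(69, 1)], 1, 0, 0, 0, 0, []⟩) (.N 3 (.N 6 (.L ⟨[(69, 1)], 0, 0, 0, 0, 0, []⟩) (.N 2 (.N 1 (.L ⟨[(0, 36894), (1, 5676), (2, 22704), (6, 59340), (8, 18960), (23, 5676), (35, 22704), (40, 28380), (46, 2838), (53, 4257), (57, 13802), (60, 21758), (69, 707135)], 774774, 1816320, 0, 0, 0, []⟩) (.L ⟨[(69, 1)], 0, 0, 0, 0, 0, []⟩)) (.L ⟨[(0, 35475), (1, 27735), (2, 43671), (3, 35475), (22, 27735), (33, 37350), (35, 6321), (53, 6321), (60, 35627), (69, 1801485)], 252840, 3034080, 0, 0, 0, []⟩))) (.L ⟨[(0, 24030), (1, 840), (2, 7560), (4, 3750), (6, 20280), (26, 840), (35, 7560), (46, 840), (53, 2487), (60, 10810), (69, 806400)], 388920, 0, 0, 0, 0, []⟩)))) (.N 1 (.N 0 (.N 1 (.N 0 (.L ⟨[], 1, 0, 0, 0, 0, []⟩) (.L ⟨[(8, 3), (33,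 3), (57, 1), (59, 1)], 60, 0, 0, 0, 0, []⟩)) (.L ⟨[(69, 1)], 3, 0, 0, 0, 0, []⟩)) (.N 6 (.N 1 (.N 0 (.L ⟨[(8, 39), (33, 39), (57, 13), (59, 13), (69, 7)], 480, 0, 0, 0, 0, []⟩) (.L ⟨[(8, 3), (33, 3), (57, 1), (59, 1)], 0, 0, 0, 0, 0, []⟩)) (.L ⟨[(69, 1)], 0, 0, 0, 0, 0, []⟩)) (.L ⟨[(8, 3), (33, 3), (57, 1), (59, 1)], 0, 0, 0, 0, 0, []⟩))) (.L ⟨[(69, 1)], 0, 0, 0, 0, 0, []⟩))

theorem ok_Db_4m : tree_Db_4m.check prm_Db ⟨-32, 32, -64, 64, -32, 32, -64, 64, -32, -32, -64, 64, 0, 336⟩ = true := by decide +kernel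

def tree_Db_4p : Tree := .N 6 (.N 6 (.L ⟨[(69, 1)], 0, 0, 0, 0, 0, []⟩) (.L ⟨[(3, 42), (38, 9), (57, 14), (59, 3), (69, 1440)], 0, 0, 1440, 0, 0, []⟩)) (.N 5 (.L ⟨[], 0, 0, 1, 0, 0, []⟩) (.L ⟨[(3, 42), (38, 9), (57, 14), (59, 3), (69, 960)], 0, 0, 452, 0, 0, []⟩))

theorem ok_Db_4p : tree_Db_4p.check prm_Db ⟨-32, 32, -64, 64, -32, 32, -64, 64, 32, 32, -64, 64, 0, 336⟩ = true := by decide +kernel

def tree_Db_5m : Tree := .N 6 (.N 6 (.L ⟨[(69, 1)], 0, 0, 0, 0, 0, []⟩) (.N 3 (.N 6 (.L ⟨[(69, 1)], 0, 0, 0, 0, 0, []⟩) (.N 3 (.L ⟨[], 0, 1, 0, 0, 0, []⟩) (.N 3 (.L ⟨[(26, 9), (27, 42), (58, 3), (59, 14)], 0, 1440, 0, 0, 0, []⟩) (.N 0 (.L ⟨[(69, 1)], 1, 0, 0, 0, 0, []⟩) (.N 2 (.L ⟨[(1, 630), (2, 1530), (10, 324), (25, 270), (26, 360), (27, 2415), (40, 2160), (42, 630), (46, 216), (57, 108), (59, 295), (60, 720),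 (69, 15714)], 19116, 51840, 13338, 0, 0, []⟩) (.L ⟨[(1, 1260), (24, 630), (26, 630), (27, 2730), (29, 2205), (39, 1260), (41, 1260), (53, 126), (59, 1645), (60, 420), (69, 15714)], 5382, 69120, 23724, 0, 0, []⟩)))))) (.L ⟨[(1, 4590), (2, 16530), (24, 1080), (26, 3510), (27, 16530), (39, 19260), (41, 4590), (42, 4590), (45, 2112), (54, 459), (60, 7040), (69, 414720)], 178929, 0, 178929, 0, 0, []⟩))) (.N 3 (.N 3 (.N 6 (.L ⟨[], 0, 1, 0, 0, 0, []⟩) (.N 2 (.L ⟨[(23, 15), (27, 60), (58, 5), (59, 20), (63, 138), (65, 75)], 0, 800, 0, 0, 0, []⟩) (.L ⟨[(22, 15), (27, 60), (58, 5), (59, 20), (63, 138), (68, 75)], 0, 800, 0, 0, 0, []⟩))) (.L ⟨[(26, 9), (27, 42), (58, 3), (59, 14)], 0, 480, 0, 0, 0, []⟩)) (.L ⟨[(26, 9), (27, 42), (58, 3), (59, 14)], 0, 0, 0, 0, 0, []⟩))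

theorem ok_Db_5m : tree_Db_5m.check prm_Db ⟨-32, 32, -64, 64, -32, 32, -64, 64, -32, 32, -64, -64, 0, 336⟩ = true := by decide +kernel

def tree_Db_5p : Tree := .N 6 (.N 6 (.L ⟨[(69, 1)], 0, 0, 0, 0, 0, []⟩) (.L ⟨[(3, 42), (38, 9), (57, 14), (59, 3), (69, 1440)], 0, 0, 0, 0, 0, []⟩)) (.L ⟨[(3, 42), (38, 9), (57, 14), (59, 3), (69, 720)], 0, 0, 0, 0, 0, []⟩)

theorem ok_Db_5p : tree_Db_5p.check prm_Db ⟨-32, 32, -64, 64, -32, 32, -64, 64, -32, 32, 64, 64, 0, 336⟩ = true := by decide +kernel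

end Pool.Agent.H30.P6
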