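import Pool.Agent.H30.P6.Base

/-! certificate E1 (generated) -/

set_option autoImplicit false
set_option maxRecDepth 100000

namespace Pool.Agent.H30.P6

def prm_E1 : Prm := ⟨32, 512, base ++ [], [(1, 86436)]⟩

def tree_E1_0m : Tree := .N 6 (.N 6 (.L ⟨[], 0, 0, 0, 0, 0, [1]⟩) (.N 1 (.L ⟨[], 1, 0, 0, 0, 0, [0]⟩) (.N 3 (.L ⟨[], 0, 0, 0, 0, 0, [1]⟩) (.L ⟨[(0, 8514), (1, 4257), (7, 7482), (9, 15615), (22, 4257), (32, 7095), (34, 1419), (39, 4257), (41, 12771), (42, 12771), (57, 4861), (59, 2838), (60, 4257)], 363264, 0, 0, 681120, 0, [0]⟩)))) (.N 1 (.L ⟨[], 1, 0, 0, 0, 0, [0]⟩) (.N 3 (.L ⟨[(11, 1419), (18, 3225), (20, 600), (57, 473), (58, 1275)], 10879, 0, 0, 0, 0, [56760]⟩) (.N 1 (.L ⟨[(7, 3225), (9, 600), (22, 1419), (57, 1275), (58, 473)], 11352, 0, 0, 28380, 0, [0]⟩) (.L ⟨[(7, 65), (9, 43), (20, 18), (22, 36), (57, 36), (58, 18), (64, 37)],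 0, 0, 0, 1080, 0, [0]⟩))))

theorem ok_E1_0m : tree_E1_0m.check prm_E1 ⟨-32, -32, -64, 64, 0, 32, -64, 64, -32, 32, -64, 64, 0, 672⟩ = true := by decide +kernel

def tree_E1_0p : Tree := .N 6 (.N 6 (.L ⟨[], 0, 0, 0, 0, 0, [1]⟩) (.N 3 (.L ⟨[], 0, 0, 0, 0, 0, [1]⟩) (.N 5 (.L ⟨[(0, 528), (1, 300), (2, 2775), (10, 528), (26, 300), (27, 300), (29, 2475), (60, 1201)], 0, 0, 63600, 0, 0, [72000]⟩) (.N 3 (.L ⟨[], 0, 0, 0, 0, 0, [1]⟩) (.N 4 (.L ⟨[(0, 3), (2, 3), (8, 3), (33, 3), (60, 2)], 0, 0, 0, 0, 0, [60]⟩) (.N 6 (.N 6 (.L ⟨[], 0, 0, 0, 0, 0, [1]⟩) (.L ⟨[(0, 1032), (1, 1800), (2, 3360), (10, 1032), (21, 1800), (27, 1075), (60, 2064)], 0, 0, 0, 0, 0, [61920]⟩)) (.L ⟨[(0, 804), (1, 5712), (2, 888), (10, 36), (12, 768), (15, 3879), (17, 1833), (38, 888), (40, 6600), (42, 3870), (46, 660), (60, 2468)], 0, 0, 92160, 0, 0, [21468]⟩))))))) (.N 3 (.N 6 (.L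 ⟨[], 0, 0, 0, 0, 0, [1]⟩) (.N 6 (.L ⟨[], 0, 0, 0, 0, 0, [1]⟩) (.N 6 (.L ⟨[], 0, 0, 0, 0, 0, [1]⟩) (.N 3 (.L ⟨[], 0, 0, 0, 0, 0, [1]⟩) (.N 5 (.L ⟨[(0, 419550), (1, 217950), (10, 419550), (20, 146700), (22, 71250), (27, 405000), (41, 637500), (42, 637500), (53, 63750), (59, 135000), (60, 212500), (62, 507681)], 0, 0, 5325000, 0, 0, [28800000]⟩) (.L ⟨[(0, 60), (8, 20), (10, 40), (41, 60), (42, 60), (60, 20), (62, 23), (66, 152)], 0, 0, 380, 0, 0, [2400]⟩)))))) (.N 4 (.L ⟨[(0, 14190), (8, 11352), (10, 2838), (31, 6450), (33, 12552), (53, 1419), (59, 6334), (60, 4730)], 0, 0, 0, 0, 0, [170280]⟩) (.N 5 (.L ⟨[(0, 6360), (1, 3360), (2, 6360), (10, 6360), (26, 3360), (27, 2916), (29, 28719), (40, 2916), (46, 972), (54, 972), (59, 8425), (60, 5360)], 0, 0, 933120, 0, 0, [261468]⟩) (.N 2 (.L ⟨[(0, 3732), (1, 11745), (2, 1305), (10, 3732), (19, 6261), (21,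 5484), (34, 1305), (40, 13050), (42, 15477), (48, 1305), (60, 5594)], 0, 0, 45675, 0, 0, [78300]⟩) (.N 1 (.L ⟨[(0, 6500), (2, 1450), (3, 5675), (4, 825), (38, 1450), (41, 6500), (46, 145), (60, 2650), (62, 522)], 0, 0, 111360, 0, 0, [55970]⟩) (.N 4 (.L ⟨[(0, 5670), (1, 14500), (2, 4340), (12, 5670), (15, 14500), (35, 4340), (40, 18840), (41, 20170), (51, 2017), (60, 8170)], 0, 0, 121020, 0, 0, [112952]⟩) (.N 5 (.N 1 (.L ⟨[(0, 5355), (1, 22755), (2, 4095), (12, 5355), (15, 22755), (38, 4095), (40, 26850), (41, 28110), (60, 10735), (66, 20496)], 0, 0, 604800, 0, 0, [44415]⟩) (.L ⟨[(0, 105), (1, 405), (14, 105), (15, 405), (40, 405), (41, 510), (60, 170), (66, 42)], 0, 0, 5040, 0, 42, [336]⟩)) (.N 1 (.L ⟨[(0, 42), (1, 1058), (2, 238), (12, 21), (14, 21), (15, 1058), (38, 238), (40, 1296), (41, 1100), (60, 446)], 0, 0, 10080, 483, 0, [567]⟩) (.L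 ⟨[(0, 7), (1, 55), (2, 7), (14, 7), (15, 55), (38, 7), (40, 62), (41, 62), (60, 23)], 0, 0, 420, 0, 0, [42]⟩)))))))))

theorem ok_E1_0p : tree_E1_0p.check prm_E1 ⟨32, 32, -64, 64, 0, 32, -64, 64, -32, 32, -64, 64, 0, 672⟩ = true := by decide +kernel

def tree_E1_1m : Tree := .N 6 (.N 6 (.L ⟨[], 0, 0, 0, 0, 0, [1]⟩) (.L ⟨[(0, 18), (3, 42), (26, 9), (57, 8), (58, 3), (60, 6)], 183, 0, 93, 0, 0, [720]⟩)) (.L ⟨[(3, 6090), (24, 945), (26, 675), (57, 2030), (58, 540), (68, 3528)], 0, 0, 0, 0, 0, [64800]⟩)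

theorem ok_E1_1m : tree_E1_1m.check prm_E1 ⟨-32, 32, -64, -64, 0, 32, -64, 64, -32, 32, -64, 64, 0, 672⟩ = true := by decide +kernel

def tree_E1_1p : Tree := .N 6 (.N 6 (.L ⟨[], 0, 0, 0, 0, 0, [1]⟩) (.N 3 (.L ⟨[], 0, 0, 0, 0, 0, [1]⟩) (.N 5 (.L ⟨[(0, 6210), (2, 11916), (13, 54), (14, 6156), (27, 26826), (39, 11916), (41, 6210), (42, 6210), (54, 621), (59, 4970), (60, 6042)], 0, 0, 195804, 207360, 0, [196128]⟩) (.N 3 (.L ⟨[], 0, 0, 0, 0, 0, [1]⟩) (.N 6 (.N 6 (.L ⟨[], 0, 0, 0, 0, 0, [1]⟩) (.N 0 (.L ⟨[(1, 12), (2, 30), (21, 3), (23, 9), (30, 3), (32, 27), (39, 42), (40, 42), (42, 12), (60, 14)], 0, 0, 0, 1440, 42, [0]⟩) (.N 0 (.L ⟨[(0, 3717), (2, 10557), (11, 3717), (30, 3933), (32, 6624), (39, 10557), (40, 10557), (42, 3717), (60, 4758)], 0, 0, 6195, 62363, 2065, [99120]⟩) (.L ⟨[(0, 9912), (2, 29199), (11, 8673), (13, 1239), (30, 13599), (32,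 15600), (39, 29199), (40, 29199), (42, 9912), (60, 13037)], 0, 0, 30975, 107793, 0, [297360]⟩)))) (.N 0 (.L ⟨[(0, 4863), (1, 1311), (2, 15180), (11, 4863), (21, 1311), (30, 3933), (32, 11247), (39, 16491), (40, 16491), (42, 6174), (60, 7118)], 0, 0, 0, 629280, 40641, [0]⟩) (.N 5 (.L ⟨[(0, 375), (2, 1374), (13, 300), (14, 75), (28, 618), (30, 756), (39, 1374), (40, 1374), (41, 375), (42, 375), (60, 583)], 0, 0, 7125, 9000, 0, [7875]⟩) (.N 2 (.N 4 (.L ⟨[(0, 9), (1, 42), (14, 9), (15, 42), (60, 17)], 0, 0, 0, 90, 0, [63]⟩) (.L ⟨[(0, 35), (1, 39), (2, 91), (13, 20), (14, 15), (15, 39), (28, 91), (40, 130), (42, 74), (60, 55)], 0, 0, 0, 1165, 1200, [0]⟩)) (.L ⟨[(0, 70), (1, 106), (2, 154), (13, 35), (14, 35), (15, 106), (28, 154), (40, 260), (42, 176), (60, 110)], 0, 0, 35, 4200, 1645, [0]⟩))))))))) (.N 6 (.N 3 (.L ⟨[], 0, 0, 0, 0, 0, [1]⟩) (.N 0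 (.L ⟨[(0, 1239), (2, 3519), (11, 1239), (30, 1311), (32, 2208), (39, 3519), (40, 3519), (42, 1239), (60, 1586)], 0, 0, 0, 4757760, 0, [0]⟩) (.N 5 (.L ⟨[(14, 9), (27, 42), (57, 3), (59, 14)], 0, 0, 0, 0, 0, [0]⟩) (.N 4 (.L ⟨[(0, 9), (1, 42), (14, 9), (15, 42), (60, 17)], 0, 0, 0, 510, 0, [17]⟩) (.N 4 (.L ⟨[(0, 18), (1, 48), (13, 9), (14, 9), (15, 48), (39, 48), (41, 66), (42, 66), (60, 22)], 0, 0, 0, 270, 0, [0]⟩) (.N 2 (.N 3 (.L ⟨[(1, 33), (14, 12), (15, 33), (27, 12), (39, 33), (40, 33), (41, 33), (42, 33), (57, 4), (59, 4), (60, 11)], 0, 0, 0, 276, 480, [0]⟩) (.N 0 (.L ⟨[(0, 183), (2, 660), (13, 177), (14, 6), (28, 24), (30, 654), (39, 660), (40, 660), (42, 183), (59, 6), (60, 281)], 0, 0, 930, 5760, 4242, [0]⟩) (.L ⟨[(0, 63), (1, 51), (2, 231), (14, 63), (15, 51), (27, 168), (28, 63), (40, 282), (42, 114), (60, 115)], 0, 0, 126, 1764, 2520,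 [0]⟩))) (.N 0 (.L ⟨[(0, 3), (1, 9), (2, 3), (14, 3), (15, 9), (27, 3), (40, 12), (42, 12), (60, 5)], 0, 0, 0, 720, 0, [0]⟩) (.L ⟨[(0, 354), (1, 909), (2, 126), (13, 126), (14, 228), (15, 909), (27, 126), (40, 1035), (41, 1263), (42, 1263), (60, 463), (66, 126)], 0, 0, 0, 7560, 0, [0]⟩)))))))) (.L ⟨[(14, 15), (57, 5), (64, 336)], 0, 0, 0, 0, 0, [0]⟩))

theorem ok_E1_1p : tree_E1_1p.check prm_E1 ⟨-32, 32, 64, 64, 0, 32, -64, 64, -32, 32, -64, 64, 0, 672⟩ = true := by decide +kernel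

def tree_E1_2p : Tree := .N 6 (.N 6 (.L ⟨[], 0, 0, 0, 0, 0, [1]⟩) (.N 3 (.L ⟨[], 0, 0, 0, 0, 0, [1]⟩) (.N 3 (.L ⟨[], 0, 0, 0, 0, 0, [1]⟩) (.N 5 (.L ⟨[(0, 26934), (1, 14676), (2, 14583), (9, 18612), (11, 8322), (22, 14676), (27, 14583), (39, 29259), (41, 41610), (42, 41610), (53, 4161), (60, 18731)], 0, 0, 499320, 24966, 0, [241338]⟩) (.N 4 (.L ⟨[(0, 13170), (1, 9120), (2, 8934), (7, 4458), (9, 8712), (22, 9120), (31, 8934), (39, 18054), (41, 22290), (53, 2229), (60, 10408)], 0, 0, 0, 127053, 0, [133740]⟩) (.N 6 (.N 6 (.L ⟨[], 0, 0, 0, 0, 0, [1]⟩) (.N 0 (.L ⟨[(0, 3699), (1, 1239), (7, 795), (9, 2904), (22, 1239), (39, 1239), (41, 4938), (42, 4938), (60, 1646)], 0, 0, 10335, 18285, 0, [23850]⟩) (.L ⟨[(0, 36969), (1, 27879), (9, 27228), (11, 9741), (20, 25014), (22, 2865), (39, 27879), (41, 64848), (42, 64848), (60, 21616)], 0, 0, 155856, 92826,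 0, [550080]⟩))) (.N 5 (.L ⟨[(0, 3573), (1, 3687), (9, 1797), (11, 1776), (18, 726), (20, 2961), (39, 3687), (41, 7260), (42, 7260), (53, 726), (60, 2420)], 0, 0, 87120, 3630, 0, [13068]⟩) (.N 3 (.N 0 (.L ⟨[(0, 4839), (1, 2568), (7, 2676), (9, 4632), (22, 2568), (39, 2568), (41, 7407), (42, 7407), (57, 823), (60, 2469)], 0, 0, 33743, 49380, 30451, [30451]⟩) (.N 6 (.L ⟨[(0, 3485), (1, 3343), (9, 1957), (11, 1528), (18, 382), (20, 2961), (39, 3343), (41, 6828), (42, 6828), (60, 2276)], 0, 0, 30560, 7258, 27886, [45840]⟩) (.L ⟨[(0, 6033), (1, 6804), (2, 1575), (9, 1890), (11, 4143), (18, 6804), (34, 1575), (39, 8379), (41, 12837), (42, 12837), (60, 4804)], 0, 0, 75600, 10080, 27405, [37170]⟩))) (.L ⟨[(0, 7926), (1, 4266), (9, 7353), (11, 573), (20, 2547), (22, 1719), (39, 4266), (41, 12192), (42, 12192), (60, 4064)], 0, 0, 29223, 34380, 0, [0]⟩)))))))))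 (.N 3 (.N 6 (.L ⟨[], 0, 0, 0, 0, 0, [1]⟩) (.N 6 (.L ⟨[], 0, 0, 0, 0, 0, [1]⟩) (.N 6 (.L ⟨[], 0, 0, 0, 0, 0, [1]⟩) (.N 4 (.L ⟨[(20, 3), (33, 3), (58, 1), (59, 1)], 0, 0, 0, 0, 0, [0]⟩) (.N 5 (.L ⟨[(22, 1419), (31, 3225), (33, 600), (58, 473), (59, 1275)], 0, 0, 153000, 0, 0, [70125]⟩) (.N 5 (.N 4 (.L ⟨[(1, 840), (11, 210), (13, 168), (16, 267), (18, 2460), (35, 546), (37, 84), (41, 840), (50, 84), (57, 126), (58, 629), (59, 210), (60, 280)], 0, 0, 20160, 0, 0, [0]⟩) (.L ⟨[(1, 13050), (11, 435), (13, 3480), (18, 140385), (38, 22185), (39, 13050), (41, 13050), (50, 1305), (57, 1305), (58, 42445), (59, 7395), (60, 4350), (66, 218808)], 0, 0, 1670400, 0, 0, [0]⟩)) (.L ⟨[(15, 42), (38, 9), (58, 14), (59, 3)], 0, 0, 0, 0, 0, [0]⟩))))))) (.N 4 (.L ⟨[(1, 525030), (11, 90816), (13, 53922), (20, 686796), (22, 12771), (31, 319017), (33, 294972), (39, 525030),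 (41, 525030), (52, 52503), (57, 48246), (58, 58179), (59, 204663), (60, 175010)], 0, 0, 0, 0, 0, [1362240]⟩) (.N 5 (.N 4 (.L ⟨[(0, 4032), (1, 9408), (11, 3024), (13, 1008), (22, 9408), (29, 13959), (31, 8928), (39, 9408), (41, 13440), (53, 1344), (59, 7629), (60, 4480)], 0, 0, 645120, 0, 0, [105504]⟩) (.L ⟨[], 0, 0, 1, 0, 0, [0]⟩)) (.N 6 (.N 0 (.N 1 (.L ⟨[(1, 8514), (7, 21930), (9, 5136), (22, 8514), (36, 1419), (39, 8514), (41, 8514), (42, 8514), (57, 9022), (59, 473), (60, 2838)], 0, 0, 60071, 113520, 0, [25542]⟩) (.N 1 (.L ⟨[(1, 129), (7, 516), (9, 168), (22, 258), (39, 129), (41, 129), (42, 129), (57, 228), (58, 43), (60, 43)], 0, 0, 516, 5160, 0, [0]⟩) (.L ⟨[(7, 55), (9, 125), (22, 90), (57, 60), (58, 30), (64, 329)], 0, 0, 0, 3600, 0, [0]⟩))) (.N 5 (.N 4 (.L ⟨[(0, 10949), (1, 25411), (11, 8067), (13, 2882), (18, 21775), (20, 3636), (39,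 25411), (41, 36360), (51, 3636), (60, 12120)], 0, 0, 218160, 0, 0, [105444]⟩) (.N 1 (.L ⟨[(0, 522), (1, 106), (2, 53), (5, 254), (7, 268), (22, 106), (38, 53), (39, 159), (41, 628), (60, 227)], 0, 0, 12720, 3816, 0, [0]⟩) (.N 3 (.N 1 (.L ⟨[(0, 14526), (1, 31203), (2, 5790), (7, 1158), (9, 13368), (16, 25413), (18, 5790), (38, 5790), (39, 36993), (41, 45729), (60, 17173)], 0, 0, 1111680, 736488, 0, [0]⟩) (.L ⟨[(0, 135), (1, 210), (12, 135), (15, 210), (60, 115), (66, 504)], 0, 0, 13455, 13800, 0, [1265]⟩)) (.L ⟨[(0, 195), (1, 252), (9, 63), (11, 132), (18, 63), (20, 189), (39, 252), (41, 447), (42, 447), (60, 149), (66, 63)], 0, 0, 7560, 1575, 0, [0]⟩)))) (.N 4 (.L ⟨[(0, 10949), (1, 25411), (11, 8067), (13, 2882), (18, 21775), (20, 3636), (39, 25411), (41, 36360), (51, 3636), (60, 12120)], 0, 0, 0, 0, 0, [109080]⟩) (.N 1 (.L ⟨[(0, 496), (1, 25),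 (2, 100), (5, 247), (7, 249), (22, 25), (36, 50), (38, 50), (39, 125), (41, 521), (42, 521), (60, 207)], 0, 0, 6000, 2625, 0, [0]⟩) (.N 3 (.N 1 (.L ⟨[(0, 10098), (1, 9399), (2, 4320), (7, 8658), (9, 1440), (15, 6519), (16, 2880), (36, 1440), (38, 2880), (39, 13719), (41, 19497), (42, 19497), (60, 7939)], 0, 0, 263520, 345600, 0, [0]⟩) (.L ⟨[(0, 36), (1, 294), (2, 27), (14, 36), (15, 294), (38, 27), (60, 119)], 0, 0, 3078, 8640, 117, [360]⟩)) (.L ⟨[(0, 37596), (1, 40446), (9, 17577), (11, 20019), (18, 9765), (20, 30681), (39, 40446), (41, 78042), (42, 78042), (60, 26014)], 0, 0, 234360, 164052, 0, [0]⟩)))))) (.N 0 (.L ⟨[(9, 3), (20, 3), (57, 1), (58, 1)], 0, 0, 0, 0, 0, [0]⟩) (.N 3 (.N 5 (.N 4 (.L ⟨[(0, 1716), (1, 10734), (11, 1245), (13, 2712), (16, 3711), (18, 7023), (39, 10734), (41, 12450), (50, 1245), (57, 747), (60, 4150)], 0, 0, 119520,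 0, 0, [0]⟩) (.N 5 (.L ⟨[], 0, 0, 1, 0, 0, [0]⟩) (.N 1 (.L ⟨[(0, 1932), (2, 627), (7, 1932), (34, 282), (36, 345), (39, 627), (41, 1932), (60, 853)], 0, 0, 41400, 8280, 0, [0]⟩) (.N 1 (.N 0 (.L ⟨[(0, 255), (1, 170), (2, 85), (7, 330), (9, 180), (22, 170), (34, 85), (39, 255), (41, 425), (57, 85), (60, 170), (66, 277)], 0, 0, 4250, 10200, 0, [0]⟩) (.L ⟨[(1, 500), (2, 175), (18, 220), (20, 280), (36, 125), (38, 50), (41, 500), (60, 225), (66, 1836)], 0, 0, 12000, 8200, 0, [0]⟩)) (.L ⟨[(0, 640), (1, 110), (12, 640), (15, 550), (16, 220), (34, 165), (41, 750), (42, 750), (58, 220), (59, 55), (60, 250), (66, 4049)], 0, 0, 6985, 52800, 0, [0]⟩))))) (.N 6 (.N 1 (.L ⟨[(0, 164), (2, 103), (5, 299), (36, 103), (39, 103), (41, 164), (57, 45), (60, 89), (66, 90)], 0, 0, 1350, 1305, 0, [0]⟩) (.N 1 (.L ⟨[(0, 1008), (1, 1008), (2, 1677), (3, 1008), (18, 672),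 (20, 336), (34, 336), (36, 1341), (39, 2685), (41, 2016), (60, 1231), (66, 8502)], 0, 0, 0, 80640, 0, [0]⟩) (.L ⟨[(0, 105), (1, 125), (2, 46), (12, 105), (15, 125), (34, 46), (41, 230), (60, 92), (66, 714)], 0, 0, 0, 11040, 0, [1150]⟩))) (.L ⟨[(20, 5040), (38, 645), (58, 1680), (59, 215), (66, 14448)], 0, 0, 0, 0, 0, [0]⟩))) (.L ⟨[(22, 3), (58, 1), (66, 15)], 0, 0, 0, 0, 0, [0]⟩)))))))

theorem ok_E1_2p : tree_E1_2p.check prm_E1 ⟨-32, 32, -64, 64, 32, 32, -64, 64, -32, 32, -64, 64, 0, 672⟩ = true := by decide +kernel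

def tree_E1_3m : Tree := .N 6 (.N 6 (.L ⟨[], 0, 0, 0, 0, 0, [1]⟩) (.L ⟨[], 0, 0, 0, 0, 0, [1]⟩)) (.L ⟨[], 0, 0, 0, 0, 0, [1]⟩)

theorem ok_E1_3m : tree_E1_3m.check prm_E1 ⟨-32, 32, -64, 64, 0, 32, -64, -64, -32, 32, -64, 64, 0, 672⟩ = true := by decide +kernel

def tree_E1_3p : Tree := .N 6 (.N 6 (.L ⟨[], 0, 0, 0, 0, 0, [1]⟩) (.N 5 (.L ⟨[(0, 8100), (1, 10680), (2, 22509), (11, 8100), (22, 5046), (24, 5634), (27, 22509), (39, 33189), (42, 18780), (55, 1878), (60, 13763)], 148362, 0, 450720, 0, 0, [0]⟩) (.N 1 (.L ⟨[(0, 3024), (1, 690), (3, 2097), (5, 1134), (26, 690), (39, 690), (42, 3714), (44, 69), (57, 69), (60, 1238)], 33120, 0, 13179, 0, 7521, [0]⟩) (.N 2 (.N 4 (.N 6 (.L ⟨[(0, 30), (1, 12), (7, 3), (9, 27), (20, 3), (22, 9), (39, 12), (41, 42), (42, 42), (60, 14)], 0, 0, 0, 27, 0, [1440]⟩) (.L ⟨[(0, 3105), (1, 1245), (7, 2553), (9, 552),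 (22, 1245), (39, 1245), (42, 276), (60, 1450)], 1656, 0, 0, 16560, 0, [0]⟩)) (.N 0 (.N 5 (.N 5 (.L ⟨[(1, 16800), (2, 56700), (24, 6075), (26, 10725), (27, 56700), (39, 73500), (42, 16800), (54, 1680), (60, 24500)], 358176, 0, 1290240, 466368, 0, [0]⟩) (.N 4 (.N 6 (.N 6 (.L ⟨[], 0, 0, 0, 0, 0, [1]⟩) (.N 0 (.L ⟨[(0, 1134), (1, 273), (2, 1134), (7, 1134), (26, 273), (30, 1134), (39, 1407), (42, 1407), (60, 847)], 8346, 0, 18720, 18681, 0, [0]⟩) (.L ⟨[(0, 2598), (1, 1416), (2, 7485), (7, 1182), (9, 1416), (26, 1416), (28, 7485), (39, 8901), (42, 4014), (60, 3833)], 0, 0, 84960, 21240, 0, [0]⟩))) (.L ⟨[(0, 18849), (1, 1260), (2, 15537), (9, 16329), (11, 2520), (22, 630), (24, 630), (32, 15537), (39, 16797), (41, 20109), (42, 20109), (60, 11882)], 75600, 0, 59220, 59220, 0, [0]⟩)) (.N 0 (.L ⟨[(0, 1212), (1, 45), (2, 1086), (9, 1122), (11, 90), (26,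 45), (32, 1086), (39, 1131), (41, 1257), (42, 1257), (60, 781)], 12285, 0, 86400, 12285, 0, [0]⟩) (.L ⟨[(0, 1716), (1, 519), (2, 1812), (9, 1716), (24, 519), (30, 1812), (39, 2331), (42, 2235), (60, 1349)], 0, 0, 249120, 4152, 0, [0]⟩)))) (.N 0 (.N 1 (.L ⟨[(0, 81), (1, 3), (2, 81), (9, 81), (26, 3), (32, 81), (39, 84), (42, 84), (60, 55)], 5760, 0, 390, 3930, 696, [0]⟩) (.L ⟨[(0, 81), (1, 3), (2, 81), (9, 81), (26, 3), (32, 81), (39, 84), (42, 84), (60, 55)], 3780, 0, 384, 5760, 687, [0]⟩)) (.N 6 (.N 6 (.L ⟨[], 0, 0, 0, 0, 0, [1]⟩) (.N 6 (.L ⟨[], 0, 0, 0, 0, 0, [1]⟩) (.L ⟨[(0, 5063), (2, 2065), (7, 1538), (9, 3525), (32, 413), (34, 1652), (39, 2065), (41, 5063), (42, 5063), (60, 2376)], 0, 0, 24780, 14455, 9086, [0]⟩))) (.L ⟨[(0, 2967), (2, 1941), (9, 2967), (32, 1311), (34, 630), (39, 1941), (41, 2967), (42, 2967), (60, 1636)], 0, 0, 12600,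 6300, 10080, [0]⟩)))) (.N 5 (.L ⟨[(1, 108), (2, 402), (24, 27), (26, 81), (27, 402), (39, 360), (42, 108), (60, 170)], 0, 0, 6480, 378, 0, [0]⟩) (.N 6 (.N 6 (.L ⟨[], 0, 0, 0, 0, 0, [1]⟩) (.L ⟨[(0, 81), (1, 3), (2, 81), (9, 81), (26, 3), (32, 81), (39, 84), (42, 84), (60, 55)], 0, 0, 360, 156, 291, [0]⟩)) (.L ⟨[(0, 2583), (2, 2967), (9, 2139), (11, 444), (32, 2967), (39, 2967), (42, 2583), (60, 1850)], 0, 0, 13320, 888, 10212, [0]⟩))))) (.N 4 (.L ⟨[(0, 1815), (1, 717), (2, 120), (7, 1455), (9, 360), (22, 717), (29, 120), (53, 120), (60, 884)], 0, 0, 0, 14400, 0, [0]⟩) (.N 5 (.L ⟨[(0, 88167), (1, 36663), (2, 17229), (9, 84006), (11, 4161), (22, 36663), (27, 17229), (39, 53892), (41, 124830), (42, 124830), (54, 12483), (60, 47353)], 0, 0, 1997280, 199728, 0, [0]⟩) (.N 6 (.N 6 (.L ⟨[], 0, 0, 0, 0, 0, [1]⟩) (.L ⟨[(0, 4324), (2, 2120), (7, 874), (9,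 3450), (32, 874), (34, 1246), (39, 2120), (41, 4324), (42, 4324), (60, 2148)], 0, 0, 26220, 21413, 2622, [0]⟩)) (.L ⟨[(0, 621), (1, 15), (2, 213), (9, 576), (11, 45), (22, 15), (32, 378), (34, 60), (39, 228), (41, 636), (42, 636), (59, 75), (60, 283)], 0, 0, 1800, 1260, 0, [0]⟩)))))))) (.N 6 (.N 5 (.L ⟨[(26, 9), (27, 42), (58, 3), (59, 14)], 0, 0, 0, 0, 0, [0]⟩) (.N 5 (.L ⟨[(0, 562665), (1, 100305), (9, 610020), (11, 9471), (26, 100305), (30, 783495), (39, 100305), (41, 662970), (42, 662970), (55, 66297), (57, 18942), (59, 261165), (60, 220990)], 0, 0, 2273040, 0, 0, [0]⟩) (.N 0 (.L ⟨[(0, 4644), (1, 129), (9, 5160), (22, 129), (32, 2496), (34, 645), (39, 129), (41, 4773), (42, 4773), (57, 172), (59, 1047), (60, 1591)], 0, 0, 3526, 0, 0, [0]⟩) (.L ⟨[(0, 14835), (1, 1032), (2, 1032), (9, 14835), (22, 516), (24, 516), (32, 7323), (34, 1032), (39,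 2064), (41, 15867), (42, 15867), (59, 2441), (60, 5633)], 0, 0, 0, 0, 0, [0]⟩)))) (.L ⟨[(26, 15), (58, 5), (64, 336)], 0, 0, 0, 0, 0, [0]⟩))

theorem ok_E1_3p : tree_E1_3p.check prm_E1 ⟨-32, 32, -64, 64, 0, 32, 64, 64, -32, 32, -64, 64, 0, 672⟩ = true := by decide +kernel

def tree_E1_4m : Tree := .N 6 (.N 6 (.L ⟨[], 0, 0, 0, 0, 0, [1]⟩) (.L ⟨[(0, 4593), (1, 41817), (2, 27198), (11, 4593), (20, 41817), (33, 22557), (35, 4641), (39, 69015), (41, 46410), (53, 4641), (60, 24536)], 0, 0, 0, 0, 0, [1113840]⟩)) (.L ⟨[(1, 37410), (13, 258), (14, 516), (20, 65532), (22, 2064), (33, 66996), (35, 1032), (39, 37410), (41, 37410), (51, 3741), (57, 258), (58, 10062), (59, 22676), (60, 12470)], 0, 0, 0, 0, 0, [495360]⟩)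

theorem ok_E1_4m : tree_E1_4m.check prm_E1 ⟨-32, 32, -64, 64, 0, 32, -64, 64, -32, -32, -64, 64, 0, 672⟩ = true := by decide +kernel

def tree_E1_4p : Tree := .N 6 (.N 6 (.L ⟨[], 0, 0, 0, 0, 0, [1]⟩) (.N 5 (.L ⟨[], 0, 0, 1, 0, 0, [0]⟩) (.N 3 (.L ⟨[], 0, 0, 0, 0, 0, [1]⟩) (.N 3 (.L ⟨[], 0, 0, 0, 0, 0, [1]⟩) (.N 5 (.L ⟨[], 0, 0, 1, 0, 0, [0]⟩) (.N 2 (.L ⟨[], 0, 0, 1, 0, 2, [0]⟩) (.N 6 (.N 6 (.L ⟨[], 0, 0, 0, 0, 0, [1]⟩) (.N 3 (.L ⟨[], 0, 0, 0, 0, 0, [1]⟩) (.N 0 (.L ⟨[(0, 3699), (1, 1239), (7, 795), (9, 2904), (22, 1239), (39, 1239), (41, 4938), (42, 4938), (60, 1646)], 0, 0, 50880, 15635, 63600, [0]⟩) (.N 1 (.L ⟨[(0, 1092), (1, 252), (3, 1092), (24, 27), (26, 225), (39, 252), (60, 448)], 0, 0, 2808, 0, 0, [12960]⟩) (.L ⟨[(0, 44871), (2, 44133), (9, 35736), (11, 9135), (32, 42558), (34, 1575), (39, 44133), (41, 44871), (42, 44871), (60, 29668)],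 0, 0, 604800, 240030, 520380, [453285]⟩))))) (.N 1 (.L ⟨[(0, 10557), (2, 3717), (7, 3933), (9, 6624), (34, 3717), (39, 3717), (41, 10557), (42, 10557), (60, 4758)], 0, 0, 190320, 0, 139568, [0]⟩) (.N 0 (.L ⟨[(0, 11475), (7, 4275), (9, 7200), (34, 3717), (41, 11475), (42, 11475), (59, 1239), (60, 3825)], 0, 0, 99120, 92512, 69797, [0]⟩) (.N 3 (.L ⟨[(0, 63096), (1, 36093), (2, 25410), (9, 44616), (11, 18480), (16, 36093), (34, 25410), (39, 61503), (41, 99189), (42, 99189), (60, 41533)], 0, 0, 1720950, 378840, 2217600, [0]⟩) (.L ⟨[(0, 41), (2, 43), (9, 31), (11, 10), (32, 43), (39, 43), (41, 41), (42, 41), (60, 28)], 0, 0, 600, 180, 560, [0]⟩))))))))))) (.N 5 (.L ⟨[], 0, 0, 1, 0, 0, [0]⟩) (.N 5 (.N 6 (.L ⟨[], 0, 0, 1, 0, 0, [0]⟩) (.L ⟨[(34, 3), (59, 1), (66, 15)], 0, 0, 60, 0, 0, [0]⟩)) (.N 6 (.N 1 (.L ⟨[(3, 546), (38, 117), (57, 182), (59, 39)],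 0, 0, 5760, 0, 0, [0]⟩) (.N 3 (.L ⟨[], 0, 0, 0, 0, 0, [1]⟩) (.N 3 (.L ⟨[(0, 3882), (1, 17901), (11, 9705), (18, 10881), (20, 7020), (39, 17901), (41, 21783), (42, 21783), (57, 1941), (60, 7261)], 0, 0, 279504, 0, 29813760, [0]⟩) (.N 2 (.L ⟨[(0, 3999), (9, 3225), (11, 774), (30, 1032), (32, 3417), (42, 3999), (59, 1483), (60, 1333)], 0, 0, 54180, 0, 123840, [0]⟩) (.N 0 (.N 1 (.L ⟨[(0, 2406), (7, 1941), (9, 2058), (32, 354), (34, 1239), (41, 2406), (42, 2406), (57, 531), (59, 531), (60, 802)], 0, 0, 21240, 18408, 5841, [0]⟩) (.L ⟨[(0, 3225), (9, 4773), (32, 2973), (34, 516), (41, 3225), (42, 3225), (57, 516), (59, 1163), (60, 1075)], 0, 0, 10836, 30960, 6708, [0]⟩)) (.N 1 (.L ⟨[(0, 10143), (1, 1311), (2, 4101), (7, 1311), (9, 8832), (15, 1311), (34, 4101), (39, 5412), (41, 11454), (42, 11454), (60, 5185)], 0, 0, 78660, 31464, 56373, [0]⟩) (.N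 0 (.L ⟨[(0, 9003), (2, 10029), (9, 6483), (11, 2520), (30, 630), (32, 9399), (39, 10029), (41, 9003), (42, 9003), (60, 6344)], 0, 0, 74340, 151200, 100800, [0]⟩) (.L ⟨[(0, 18144), (1, 25767), (2, 19392), (11, 12096), (13, 6048), (15, 25767), (32, 6048), (34, 13344), (39, 45159), (40, 45159), (41, 43911), (42, 43911), (60, 21101)], 0, 0, 362880, 178416, 211680, [0]⟩)))))))) (.L ⟨[(34, 3), (59, 1), (66, 15)], 0, 0, 30, 0, 0, [0]⟩))))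

theorem ok_E1_4p : tree_E1_4p.check prm_E1 ⟨-32, 32, -64, 64, 0, 32, -64, 64, 32, 32, -64, 64, 0, 672⟩ = true := by decide +kernel

def tree_E1_5m : Tree := .N 6 (.N 6 (.L ⟨[], 0, 0, 0, 0, 0, [1]⟩) (.L ⟨[(0, 504), (1, 2016), (11, 504), (24, 675), (26, 1341), (27, 8358), (54, 252), (59, 2786), (60, 840)], 6552, 0, 29484, 0, 0, [120960]⟩)) (.L ⟨[(24, 945), (26, 675), (27, 6090), (58, 540), (59, 2030), (68, 3528)], 0, 0, 0, 0, 0, [64800]⟩)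

theorem ok_E1_5m : tree_E1_5m.check prm_E1 ⟨-32, 32, -64, 64, 0, 32, -64, 64, -32, 32, -64, -64, 0, 672⟩ = true := by decide +kernel

def tree_E1_5p : Tree := .N 6 (.N 6 (.L ⟨[], 0, 0, 0, 0, 0, [1]⟩) (.N 3 (.L ⟨[], 0, 0, 0, 0, 0, [1]⟩) (.N 3 (.L ⟨[], 0, 0, 0, 0, 0, [1]⟩) (.N 6 (.N 6 (.L ⟨[], 0, 0, 0, 0, 0, [1]⟩) (.N 3 (.L ⟨[], 0, 0, 0, 0, 0, [1]⟩) (.N 2 (.N 0 (.L ⟨[(0, 3519), (2, 1239), (7, 1311), (9, 2208), (34, 1239), (39, 1239), (41, 3519), (42, 3519), (60, 1586)], 3540, 0, 0, 11859, 12921, [21240]⟩) (.L ⟨[(0, 2295), (2, 885), (7, 855), (9, 1440), (34, 885), (39, 885), (40, 885), (41, 2295), (42, 2295), (60, 1060)], 0, 0, 0, 7011, 7866, [20520]⟩)) (.L ⟨[(0, 38709), (2, 13629), (7, 14421), (9, 24288), (34, 13629), (39, 13629), (41, 38709), (42, 38709), (60, 17446)], 0, 0, 0, 183372, 85491, [297360]⟩)))) (.N 4 (.L ⟨[(0, 30837), (1, 10575),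 (2, 6876), (9, 29691), (11, 1146), (20, 10575), (34, 6876), (39, 17451), (41, 41412), (42, 41412), (60, 16096)], 0, 0, 0, 0, 118038, [275040]⟩) (.N 1 (.L ⟨[(2, 216), (3, 708), (5, 171), (36, 72), (38, 144), (39, 216), (57, 293), (60, 72)], 600, 0, 0, 0, 600, [720]⟩) (.N 2 (.N 0 (.L ⟨[(0, 1820), (2, 490), (7, 1820), (36, 475), (38, 15), (39, 490), (41, 1820), (42, 1820), (60, 770)], 0, 0, 0, 19467, 23040, [1665]⟩) (.L ⟨[(0, 336), (1, 531), (2, 252), (7, 252), (9, 84), (15, 531), (36, 168), (38, 84), (39, 783), (41, 867), (60, 373)], 0, 0, 0, 4788, 10080, [0]⟩)) (.N 0 (.L ⟨[(0, 7038), (2, 2478), (7, 2622), (9, 4416), (34, 2478), (39, 2478), (41, 7038), (42, 7038), (60, 3172)], 0, 0, 0, 74340, 28497, [0]⟩) (.L ⟨[(0, 5740), (1, 3623), (2, 3108), (7, 2072), (9, 3668), (15, 3623), (34, 1036), (36, 2072), (39, 6731), (41, 9363), (60, 4157)], 0, 0,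 0, 58016, 62160, [0]⟩))))))))) (.N 3 (.L ⟨[(15, 42), (38, 9), (58, 14), (59, 3)], 0, 0, 0, 0, 0, [360]⟩) (.N 6 (.N 1 (.L ⟨[(3, 42), (38, 9), (57, 14), (59, 3)], 0, 0, 0, 0, 0, [0]⟩) (.N 3 (.N 6 (.N 0 (.L ⟨[(1, 66321), (2, 31776), (9, 34848), (11, 12672), (15, 66321), (34, 17952), (36, 26496), (39, 98097), (40, 98097), (41, 66321), (42, 66321), (57, 15840), (59, 4224), (60, 32699)], 0, 0, 0, 180576, 0, [506880]⟩) (.L ⟨[(1, 30807), (2, 21792), (9, 2016), (11, 16128), (15, 30807), (34, 17760), (36, 4032), (39, 52599), (40, 52599), (41, 30807), (42, 30807), (57, 6048), (60, 17533)], 0, 0, 0, 0, 0, [483840]⟩)) (.L ⟨[(1, 67209), (9, 34272), (11, 3870), (15, 113649), (36, 38700), (38, 7740), (39, 67209), (40, 67209), (41, 67209), (57, 12714), (58, 15480), (59, 15480), (60, 22403)], 0, 0, 0, 0, 0, [0]⟩)) (.N 6 (.N 3 (.L ⟨[(0, 672), (1, 504), (2, 771),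 (9, 1134), (11, 105), (15, 504), (34, 771), (39, 1275), (40, 1275), (41, 1176), (42, 1176), (57, 189), (60, 649)], 0, 0, 0, 0, 0, [0]⟩) (.L ⟨[(0, 25641), (1, 13167), (2, 21813), (9, 41202), (11, 2394), (15, 13167), (34, 25404), (39, 34980), (40, 34980), (41, 38808), (42, 38808), (57, 5985), (59, 1197), (60, 20207), (64, 16758)], 0, 0, 0, 0, 0, [0]⟩)) (.L ⟨[(0, 1410), (1, 90), (2, 1110), (9, 1770), (11, 90), (15, 90), (34, 1110), (39, 1200), (40, 1200), (41, 835), (42, 1500), (57, 150), (60, 870), (64, 3674)], 0, 0, 0, 0, 0, [0]⟩)))) (.L ⟨[(38, 15), (59, 5), (64, 336)], 0, 0, 0, 0, 0, [0]⟩)))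

theorem ok_E1_5p : tree_E1_5p.check prm_E1 ⟨-32, 32, -64, 64, 0, 32, -64, 64, -32, 32, 64, 64, 0, 672⟩ = true := by decide +kernel

end Pool.Agent.H30.P6
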