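import Pool.Agent.H30.P6.Base

/-! certificate F0 (generated) -/

set_option autoImplicit false
set_option maxRecDepth 100000

namespace Pool.Agent.H30.P6

def prm_F0 : Prm := ⟨32, 512, base ++ [⟨0, 0, 0, 0, 0, 0, 0, 0, 24, 0, 0, 0, 0, 0, 0, 0, 0, 0, 1, 0, 0⟩], []⟩

def tree_F0_0m : Tree := .N 1 (.L ⟨[], 1, 0, 0, 0, 0, []⟩) (.N 6 (.N 1 (.L ⟨[], 1, 0, 0, 0, 0, []⟩) (.L ⟨[], 0, 0, 0, 1, 0, []⟩)) (.N 3 (.L ⟨[(11, 1419), (18, 3225), (20, 600), (57, 473), (58, 1275)], 3784, 13717, 0, 28380, 0, []⟩) (.N 1 (.L ⟨[(7, 3225), (9, 600), (22, 1419), (57, 1275), (58, 473)], 11352, 0, 0, 28380, 0, []⟩) (.L ⟨[(7, 65), (9, 43), (20, 18), (22, 36), (57, 36), (58, 18), (64, 37)], 0, 0, 0, 1080, 0, []⟩))))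

theorem ok_F0_0m : tree_F0_0m.check prm_F0 ⟨-32, -32, -64, 64, 0, 32, -64, 64, -32, 32, -64, 64, 0, 672⟩ = true := by decide +kernel

def tree_F0_0p : Tree := .N 6 (.N 6 (.L ⟨[(0, 3), (1, 582), (2, 9), (12, 3), (15, 582), (36, 9), (40, 296), (41, 184), (69, 594)], 0, 0, 2880, 0, 0, []⟩) (.N 2 (.L ⟨[(0, 4), (1, 220), (14, 7), (15, 220), (40, 220), (42, 220), (48, 22), (57, 1), (69, 224)], 0, 19, 216, 0, 0, []⟩) (.N 4 (.L ⟨[(1, 240), (14, 15), (15, 264), (27, 6), (40, 240), (41, 240), (53, 24), (57, 5), (58, 8), (59, 2), (69, 240)], 0, 44, 0, 0, 0, []⟩) (.N 5 (.L ⟨[(0, 36), (1, 1314), (14, 36), (15, 1518), (35, 108), (41, 1350), (51, 135), (58, 68), (59, 36), (69, 1350)], 0, 72, 34560, 0, 0, []⟩) (.N 5 (.L ⟨[(0, 162), (1, 4488), (2, 12), (14, 162), (15, 4488), (35, 12), (40, 4500), (41, 4650), (52, 465), (60, 60), (69, 4482)], 0, 0, 40960,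 0, 0, []⟩) (.N 3 (.L ⟨[(1, 84), (14, 3), (15, 84), (40, 84), (41, 84), (57, 1), (69, 84)], 0, 0, 240, 0, 99, []⟩) (.N 6 (.L ⟨[(0, 15), (1, 499), (2, 27), (12, 6), (14, 9), (15, 499), (36, 27), (40, 526), (41, 218), (60, 33), (69, 442)], 0, 0, 2880, 0, 0, []⟩) (.L ⟨[(0, 11), (1, 329), (2, 33), (14, 11), (15, 329), (38, 42), (40, 362), (41, 340), (42, 22), (59, 3), (60, 77), (69, 142)], 0, 0, 3840, 0, 58, []⟩)))))))) (.N 1 (.N 4 (.L ⟨[(1, 53750), (8, 31691), (10, 19909), (15, 66650), (33, 64541), (35, 1075), (40, 53750), (41, 53750), (47, 5375), (51, 5375), (57, 17200), (58, 4300), (59, 21872), (69, 53750)], 0, 24725, 0, 0, 0, []⟩) (.N 5 (.N 5 (.N 4 (.L ⟨[(8, 3), (33, 3), (57, 1), (59, 1)], 0, 0, 60, 0, 0, []⟩) (.L ⟨[], 0, 0, 1, 0, 0, []⟩)) (.L ⟨[(0, 100012), (1, 20240), (2, 69460), (8, 103692), (10, 2530), (15, 256910), (35, 69460), (41, 93499),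 (48, 8970), (57, 2070), (58, 78890), (69, 189712)], 0, 0, 14131200, 0, 0, []⟩)) (.N 3 (.L ⟨[(1, 1610), (15, 2000), (38, 150), (40, 1610), (41, 1610), (42, 500), (48, 161), (58, 130), (59, 50), (62, 30), (69, 1610)], 0, 0, 9600, 0, 0, []⟩) (.L ⟨[(1, 45), (2, 5), (15, 45), (34, 5), (40, 50), (42, 30), (46, 5), (66, 17), (69, 50)], 0, 0, 150, 0, 0, []⟩)))) (.N 4 (.L ⟨[(1, 28380), (8, 1419), (10, 24123), (15, 36894), (31, 16641), (33, 33819), (40, 28380), (41, 28380), (48, 2838), (52, 2838), (57, 8514), (58, 2838), (59, 16820), (60, 1419), (69, 24123)], 0, 0, 0, 0, 0, []⟩) (.N 5 (.N 3 (.L ⟨[(1, 14190), (10, 22704), (15, 18447), (31, 37152), (33, 18000), (40, 14190), (41, 14190), (48, 1419), (52, 1419), (57, 7568), (58, 1419), (59, 18384), (69, 14190)], 0, 0, 1816320, 0, 0, []⟩) (.L ⟨[(2, 425), (10, 144), (27, 125), (29, 675), (57, 48), (59, 125),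 (69, 425)], 0, 0, 30000, 0, 0, []⟩)) (.N 6 (.N 2 (.L ⟨[(1, 1260), (12, 135), (15, 1260), (40, 1260), (48, 56), (49, 70), (57, 45), (60, 70), (69, 1050)], 0, 0, 2100, 0, 0, []⟩) (.N 4 (.L ⟨[(1, 126), (14, 9), (15, 144), (40, 126), (41, 126), (51, 7), (57, 3), (58, 6), (60, 1), (69, 123)], 0, 0, 240, 0, 0, []⟩) (.N 5 (.L ⟨[(0, 126), (1, 5910), (2, 210), (12, 9), (14, 630), (15, 5910), (38, 210), (40, 6120), (41, 6036), (48, 612), (57, 171), (60, 1088), (69, 2982)], 0, 0, 69120, 0, 0, []⟩) (.N 3 (.L ⟨[(1, 990), (14, 63), (15, 1179), (38, 189), (40, 990), (41, 990), (57, 21), (58, 63), (59, 63), (60, 274), (69, 168)], 0, 0, 10080, 0, 2499, []⟩) (.L ⟨[(0, 63), (1, 1809), (2, 273), (14, 189), (15, 1809), (38, 273), (40, 2082), (41, 1872), (42, 210), (57, 42), (60, 715)], 0, 0, 20160, 0, 3780, []⟩))))) (.N 5 (.N 3 (.L ⟨[(1, 8100), (10, 3780), (12,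 270), (15, 12165), (38, 810), (40, 8100), (41, 810), (49, 810), (57, 1350), (58, 1355), (59, 270), (66, 16992), (69, 8100)], 0, 0, 129600, 0, 0, []⟩) (.L ⟨[(1, 120), (2, 10), (10, 69), (15, 120), (38, 10), (40, 130), (41, 11), (42, 59), (48, 13), (57, 23), (60, 15), (66, 321), (69, 85)], 0, 0, 1920, 0, 0, []⟩)) (.L ⟨[(1, 1673), (2, 367), (10, 714), (12, 204), (15, 1979), (38, 367), (40, 2040), (41, 204), (42, 102), (49, 204), (57, 306), (58, 102), (60, 680), (66, 3638)], 0, 0, 0, 0, 0, []⟩))))))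

theorem ok_F0_0p : tree_F0_0p.check prm_F0 ⟨32, 32, -64, 64, 0, 32, -64, 64, -32, 32, -64, 64, 0, 672⟩ = true := by decide +kernel

def tree_F0_1m : Tree := .N 6 (.N 0 (.L ⟨[], 1, 0, 0, 0, 0, []⟩) (.L ⟨[(0, 4), (3, 4), (69, 4)], 8, 30, 7, 0, 0, []⟩)) (.N 3 (.N 0 (.L ⟨[(0, 576), (1, 144), (3, 204), (5, 891), (22, 144), (39, 144), (41, 720), (51, 72), (57, 173), (69, 720)], 2088, 11520, 0, 0, 0, []⟩) (.N 6 (.L ⟨[(0, 10), (3, 10), (53, 1), (69, 10)], 0, 120, 17, 0, 0, []⟩) (.N 0 (.L ⟨[(0, 50), (3, 80), (41, 50), (51, 5), (57, 10), (63, 144), (68, 20), (69, 50)], 0, 600, 0, 0, 0, []⟩) (.L ⟨[(0, 1650), (3, 2280), (4, 810), (20, 495), (35, 30), (37, 15), (41, 1650), (51, 165), (57, 480), (58, 165), (59, 15), (63, 3221), (68, 2737), (69, 1650)], 0, 28800, 0, 0, 0, []⟩)))) (.L ⟨[(0, 12), (1, 9), (3, 63), (26, 9), (57, 17), (69, 21)], 180, 0, 180,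 0, 0, []⟩))

theorem ok_F0_1m : tree_F0_1m.check prm_F0 ⟨-32, 32, -64, -64, 0, 32, -64, 64, -32, 32, -64, 64, 0, 672⟩ = true := by decide +kernel

def tree_F0_1p : Tree := .N 6 (.N 0 (.N 3 (.L ⟨[], 0, 11, 0, 15, 0, []⟩) (.N 5 (.L ⟨[(2, 3), (27, 3), (69, 3)], 0, 0, 35, 240, 0, []⟩) (.N 4 (.L ⟨[(1, 1), (2, 1), (15, 1), (27, 1), (69, 2)], 0, 0, 0, 80, 0, []⟩) (.N 3 (.L ⟨[], 0, 0, 0, 1, 0, []⟩) (.N 0 (.L ⟨[], 0, 0, 0, 1, 0, []⟩) (.N 2 (.N 2 (.N 0 (.L ⟨[], 0, 0, 0, 1, 0, []⟩) (.N 3 (.L ⟨[], 0, 0, 0, 1, 0, []⟩) (.N 0 (.L ⟨[], 0, 0, 0, 1, 0, []⟩) (.N 2 (.N 3 (.L ⟨[], 0, 0, 0, 1, 0, []⟩) (.N 6 (.L ⟨[(1, 4), (2, 6), (15, 4), (28, 6), (39, 10), (40, 10), (42, 4), (69, 10)], 0, 0, 0, 120, 81, []⟩) (.N 4 (.L ⟨[(1, 90), (2, 216), (15, 9), (17, 81), (28, 108), (30, 108), (39, 306), (40, 306), (42, 90), (60, 21), (69, 243)], 0, 0, 0, 3840, 1786, []⟩) (.L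 ⟨[(0, 360), (2, 1833), (13, 360), (27, 708), (28, 1125), (42, 360), (60, 515), (69, 648)], 0, 0, 7488, 33912, 34560, []⟩)))) (.L ⟨[], 0, 0, 0, 1, 0, []⟩))))) (.L ⟨[], 0, 0, 0, 1, 0, []⟩)) (.L ⟨[], 0, 0, 0, 1, 0, []⟩))))))) (.N 6 (.N 4 (.L ⟨[(0, 1), (1, 29), (14, 1), (15, 29), (39, 5), (40, 29), (41, 30), (42, 4), (53, 3), (69, 30)], 0, 0, 0, 0, 0, []⟩) (.N 5 (.L ⟨[(0, 1), (1, 30), (2, 4), (14, 1), (15, 30), (27, 4), (40, 34), (41, 3), (42, 31), (69, 35)], 0, 0, 480, 243, 0, []⟩) (.N 3 (.L ⟨[(0, 3), (1, 102), (14, 3), (15, 102), (40, 102), (41, 102), (69, 105)], 0, 0, 280, 960, 726, []⟩) (.N 2 (.N 3 (.L ⟨[(0, 3), (1, 65), (2, 37), (14, 3), (15, 65), (27, 37), (40, 102), (41, 34), (42, 68), (69, 105)], 0, 0, 0, 940, 960, []⟩) (.N 5 (.L ⟨[(2, 25), (27, 25), (69, 25)], 0, 0, 42, 240, 233, []⟩) (.N 3 (.L ⟨[(0, 11), (1, 213), (2, 161), (14, 11),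 (15, 213), (27, 161), (40, 374), (41, 150), (42, 224), (69, 385)], 0, 0, 0, 3666, 3840, []⟩) (.N 4 (.N 0 (.N 6 (.L ⟨[(0, 140), (1, 1683), (2, 1062), (9, 140), (15, 1683), (27, 340), (28, 722), (39, 2745), (42, 1823), (69, 2885)], 0, 0, 0, 19200, 19200, []⟩) (.N 5 (.L ⟨[(2, 5), (27, 5), (69, 5)], 0, 0, 0, 60, 54, []⟩) (.N 5 (.L ⟨[(0, 3), (1, 20), (2, 105), (12, 3), (15, 20), (27, 105), (40, 74), (41, 23), (42, 23), (69, 128)], 0, 0, 0, 1440, 1308, []⟩) (.N 6 (.L ⟨[(0, 88), (1, 517), (2, 484), (9, 88), (15, 517), (28, 396), (30, 88), (39, 1001), (40, 1001), (41, 605), (42, 605), (69, 1089)], 0, 0, 0, 7680, 6904, []⟩) (.N 2 (.L ⟨[(0, 72), (1, 2929), (2, 2670), (9, 72), (15, 2929), (28, 1608), (30, 1062), (39, 5599), (40, 5599), (42, 3001), (69, 5671)], 0, 0, 0, 46080, 38616, []⟩) (.L ⟨[(0, 100), (1, 1217), (2, 818), (9, 100), (15, 1217), (27,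 280), (28, 538), (39, 2035), (42, 1317), (69, 2135)], 0, 0, 0, 19200, 16660, []⟩)))))) (.L ⟨[(0, 1), (1, 53), (2, 2), (14, 1), (15, 53), (27, 2), (40, 34), (42, 34), (69, 56)], 0, 0, 0, 60, 0, []⟩)) (.N 0 (.N 0 (.L ⟨[(2, 3), (27, 3), (69, 3)], 0, 0, 0, 52, 60, []⟩) (.L ⟨[(1, 10), (2, 17), (15, 10), (27, 2), (28, 15), (39, 27), (40, 23), (42, 10), (69, 27)], 0, 0, 0, 234, 240, []⟩)) (.L ⟨[(2, 1), (27, 1), (69, 1)], 0, 0, 0, 5, 20, []⟩)))))) (.N 3 (.L ⟨[(0, 3), (1, 102), (14, 3), (15, 102), (40, 102), (41, 9), (42, 93), (69, 105)], 0, 0, 297, 960, 439, []⟩) (.N 5 (.L ⟨[(1, 3), (2, 3), (15, 3), (27, 3), (69, 6)], 0, 0, 60, 55, 0, []⟩) (.N 3 (.L ⟨[(0, 5), (1, 140), (2, 30), (14, 5), (15, 140), (27, 30), (40, 170), (41, 25), (42, 145), (69, 175)], 0, 0, 278, 1920, 1156, []⟩) (.N 5 (.L ⟨[(2, 85), (27, 85), (69, 85)], 0, 0, 69, 960, 759, []⟩) (.N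 0 (.N 4 (.L ⟨[(2, 1), (27, 1), (69, 1)], 0, 0, 0, 30, 0, []⟩) (.L ⟨[(1, 2), (2, 3), (15, 2), (28, 3), (39, 5), (40, 5), (42, 2), (69, 5)], 0, 0, 0, 60, 36, []⟩)) (.N 4 (.L ⟨[(1, 8), (2, 1), (15, 8), (27, 1), (69, 9)], 0, 0, 0, 30, 0, []⟩) (.N 6 (.L ⟨[(0, 30), (1, 188), (2, 137), (7, 30), (15, 188), (27, 50), (28, 87), (39, 325), (42, 218), (69, 355)], 0, 0, 0, 2400, 2400, []⟩) (.N 5 (.L ⟨[(0, 2), (1, 4), (2, 34), (10, 2), (15, 4), (27, 34), (40, 37), (41, 6), (42, 6), (69, 40)], 0, 0, 0, 480, 414, []⟩) (.N 6 (.L ⟨[(0, 16), (1, 108), (2, 133), (9, 16), (15, 108), (28, 133), (39, 241), (40, 241), (41, 118), (42, 124), (69, 257)], 0, 0, 0, 1920, 1656, []⟩) (.N 2 (.L ⟨[(0, 16), (1, 3072), (2, 4225), (9, 16), (15, 3072), (28, 3989), (30, 236), (39, 7297), (40, 7297), (42, 3088), (69, 7313)], 0, 0, 0, 61440, 51552, []⟩) (.L ⟨[(0, 20), (1, 269),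 (2, 266), (9, 20), (15, 269), (27, 120), (28, 146), (39, 535), (42, 289), (69, 555)], 0, 0, 0, 4800, 4180, []⟩))))))))))))))) (.N 3 (.N 5 (.L ⟨[(1, 180), (14, 27), (15, 237), (27, 9), (39, 180), (40, 180), (41, 180), (42, 180), (53, 18), (57, 9), (58, 19), (59, 3), (69, 180)], 0, 1920, 1526, 1159, 0, []⟩) (.N 2 (.N 4 (.L ⟨[(0, 3), (1, 30), (14, 3), (15, 30), (40, 30), (41, 30), (60, 4), (69, 21)], 0, 480, 0, 326, 0, []⟩) (.L ⟨[(1, 39), (14, 6), (15, 54), (39, 39), (40, 39), (41, 39), (42, 39), (57, 2), (58, 5), (69, 39)], 0, 68, 0, 204, 240, []⟩)) (.L ⟨[(1, 810), (14, 117), (15, 1221), (40, 810), (41, 810), (57, 39), (58, 137), (69, 810)], 0, 0, 1737, 7680, 1663, []⟩))) (.N 5 (.L ⟨[(0, 13), (1, 202), (2, 228), (14, 55), (15, 202), (27, 228), (40, 430), (41, 215), (42, 215), (57, 14), (60, 66), (69, 245)], 0, 0, 3392, 3840, 0, []⟩) (.N 4 (.L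 ⟨[(0, 2), (1, 48), (14, 2), (15, 48), (39, 22), (40, 28), (41, 50), (53, 5), (60, 1), (69, 47)], 0, 0, 0, 60, 0, []⟩) (.N 5 (.N 4 (.N 2 (.N 3 (.L ⟨[(0, 1), (1, 7), (2, 1), (14, 1), (15, 7), (27, 1), (39, 8), (40, 8), (41, 8), (42, 8), (60, 1), (69, 6)], 0, 0, 27, 60, 40, []⟩) (.L ⟨[(0, 297), (2, 2358), (12, 189), (14, 108), (27, 2358), (40, 2358), (41, 297), (42, 297), (60, 332), (69, 1659)], 0, 0, 3780, 25920, 20628, []⟩)) (.L ⟨[(0, 10), (1, 52), (2, 18), (14, 10), (15, 52), (27, 18), (40, 70), (41, 62), (42, 8), (60, 15), (69, 35)], 0, 0, 705, 960, 0, []⟩)) (.L ⟨[(0, 222), (1, 639), (2, 54), (13, 36), (14, 186), (15, 639), (27, 54), (39, 693), (40, 693), (41, 861), (42, 861), (60, 305)], 0, 0, 69120, 2070, 0, []⟩)) (.N 2 (.N 3 (.L ⟨[(0, 12), (1, 90), (14, 12), (15, 90), (39, 12), (40, 90), (42, 102), (60, 17), (69, 51)], 0, 0, 92, 960,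 836, []⟩) (.N 6 (.N 4 (.N 0 (.N 5 (.L ⟨[(0, 21), (1, 35), (2, 189), (12, 12), (14, 9), (15, 35), (27, 189), (40, 224), (41, 56), (42, 56), (60, 21), (69, 182)], 0, 0, 0, 2880, 2382, []⟩) (.N 3 (.L ⟨[(0, 5), (1, 93), (2, 5), (14, 5), (15, 93), (27, 5), (40, 98), (42, 98), (60, 4), (69, 91)], 0, 0, 0, 960, 736, []⟩) (.N 2 (.L ⟨[(0, 40), (1, 423), (2, 479), (13, 40), (15, 423), (28, 257), (30, 222), (39, 798), (40, 902), (42, 463), (60, 53), (69, 783)], 0, 0, 0, 7680, 6471, []⟩) (.N 0 (.L ⟨[(0, 9), (1, 26), (2, 37), (5, 9), (15, 26), (27, 28), (28, 9), (60, 2), (69, 66)], 0, 0, 0, 960, 714, []⟩) (.L ⟨[(0, 4), (1, 40), (2, 67), (11, 4), (15, 40), (27, 4), (28, 63), (39, 55), (40, 107), (42, 44), (60, 4), (69, 99)], 0, 0, 0, 960, 728, []⟩))))) (.L ⟨[(0, 1), (1, 33), (2, 1), (14, 1), (15, 33), (27, 1), (40, 34), (42, 34), (69, 35)], 0, 0, 0, 30,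 0, []⟩)) (.N 3 (.L ⟨[(0, 1), (1, 7), (2, 9), (14, 1), (15, 7), (27, 9), (40, 16), (41, 8), (42, 8), (60, 1), (69, 14)], 0, 0, 0, 167, 240, []⟩) (.N 0 (.N 2 (.L ⟨[(0, 27), (1, 225), (2, 4818), (13, 27), (26, 225), (27, 4818), (42, 252), (60, 448), (69, 3726)], 0, 0, 0, 54108, 103680, []⟩) (.L ⟨[(1, 482), (2, 2295), (15, 482), (27, 402), (28, 1893), (39, 2777), (40, 2777), (41, 24), (42, 482), (60, 42), (69, 2651)], 0, 0, 0, 30720, 28636, []⟩)) (.L ⟨[(1, 74), (2, 506), (15, 74), (27, 233), (28, 273), (39, 222), (40, 580), (42, 74), (60, 6), (69, 562)], 0, 0, 0, 3966, 7680, []⟩)))) (.L ⟨[(0, 35), (1, 39), (2, 91), (13, 20), (14, 15), (15, 39), (28, 91), (40, 130), (42, 74), (60, 55)], 0, 0, 0, 1165, 1200, []⟩))) (.N 3 (.L ⟨[(0, 38), (1, 302), (14, 38), (15, 302), (40, 302), (41, 41), (42, 261), (60, 55), (69, 175)], 0, 0, 912, 3840, 1767, []⟩)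 (.N 6 (.N 6 (.N 0 (.N 4 (.L ⟨[(2, 1), (27, 1), (69, 1)], 0, 0, 0, 30, 0, []⟩) (.N 5 (.L ⟨[(2, 1), (27, 1), (69, 1)], 0, 0, 0, 20, 14, []⟩) (.L ⟨[(1, 55), (2, 81), (15, 25), (17, 30), (28, 27), (30, 54), (39, 136), (40, 136), (42, 55), (60, 7), (69, 115)], 0, 0, 0, 1920, 926, []⟩))) (.N 3 (.L ⟨[(0, 19), (1, 277), (2, 63), (14, 19), (15, 277), (27, 63), (40, 340), (41, 44), (42, 296), (60, 17), (69, 308)], 0, 0, 563, 3840, 2412, []⟩) (.N 4 (.L ⟨[(1, 6), (2, 1), (15, 6), (27, 1), (69, 7)], 0, 0, 0, 30, 0, []⟩) (.N 5 (.L ⟨[(0, 81), (2, 1128), (12, 54), (14, 27), (27, 1128), (40, 666), (41, 81), (42, 81), (60, 88), (69, 945)], 0, 0, 1323, 12960, 10962, []⟩) (.N 3 (.L ⟨[(0, 23), (1, 148), (2, 184), (14, 23), (15, 148), (27, 184), (40, 332), (41, 161), (42, 171), (60, 25), (69, 280)], 0, 0, 0, 3840, 3497, []⟩) (.N 2 (.L ⟨[(0, 410), (1, 2697), (2,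 5183), (11, 410), (15, 2697), (27, 1370), (28, 3813), (39, 270), (40, 7880), (42, 3107), (60, 390), (69, 7120)], 0, 0, 0, 76800, 67130, []⟩) (.L ⟨[(0, 40), (1, 264), (2, 606), (11, 20), (13, 20), (15, 264), (27, 230), (28, 376), (40, 870), (42, 304), (60, 45), (69, 775)], 0, 0, 0, 9600, 7170, []⟩))))))) (.L ⟨[(0, 123), (1, 192), (2, 249), (13, 33), (14, 90), (15, 192), (27, 39), (28, 210), (39, 441), (40, 441), (41, 315), (42, 315), (60, 188)], 0, 0, 0, 5760, 3570, []⟩)) (.L ⟨[(0, 42), (1, 36), (2, 126), (13, 21), (14, 21), (15, 36), (27, 21), (28, 105), (40, 162), (42, 78), (60, 68)], 0, 0, 0, 2520, 1260, []⟩)))))))))) (.N 6 (.N 3 (.L ⟨[(14, 9), (15, 42), (57, 3), (58, 14)], 0, 0, 0, 0, 0, []⟩) (.N 0 (.L ⟨[(0, 1239), (2, 3519), (11, 1239), (30, 1311), (32, 2208), (39, 3519), (40, 3519), (42, 1239), (60, 1586)], 0, 0, 0, 4757760, 0, []⟩)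 (.N 5 (.L ⟨[(14, 9), (27, 42), (57, 3), (59, 14)], 0, 0, 0, 0, 0, []⟩) (.N 4 (.L ⟨[(0, 9), (1, 42), (14, 9), (15, 42), (60, 17)], 0, 0, 0, 510, 0, []⟩) (.N 4 (.L ⟨[(0, 18), (1, 48), (13, 9), (14, 9), (15, 48), (39, 48), (41, 66), (42, 66), (60, 22)], 0, 0, 0, 270, 0, []⟩) (.N 2 (.N 3 (.L ⟨[(1, 33), (14, 12), (15, 33), (27, 12), (39, 33), (40, 33), (41, 33), (42, 33), (57, 4), (59, 4), (60, 11)], 0, 0, 0, 276, 480, []⟩) (.N 0 (.L ⟨[(0, 183), (2, 660), (13, 177), (14, 6), (28, 24), (30, 654), (39, 660), (40, 660), (42, 183), (59, 6), (60, 281)], 0, 0, 930, 5760, 4242, []⟩) (.L ⟨[(0, 63), (1, 51), (2, 231), (14, 63), (15, 51), (27, 168), (28, 63), (40, 282), (42, 114), (60, 115)], 0, 0, 126, 1764, 2520, []⟩))) (.N 0 (.L ⟨[(0, 3), (1, 9), (2, 3), (14, 3), (15, 9), (27, 3), (40, 12), (42, 12), (60, 5)], 0, 0, 0, 720, 0, []⟩) (.L ⟨[(0, 354), (1,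 909), (2, 126), (13, 126), (14, 228), (15, 909), (27, 126), (40, 1035), (41, 1263), (42, 1263), (60, 463), (66, 126)], 0, 0, 0, 7560, 0, []⟩)))))))) (.L ⟨[(14, 15), (57, 5), (64, 336)], 0, 0, 0, 0, 0, []⟩))

theorem ok_F0_1p : tree_F0_1p.check prm_F0 ⟨-32, 32, 64, 64, 0, 32, -64, 64, -32, 32, -64, 64, 0, 672⟩ = true := by decide +kernel

def tree_F0_2p : Tree := .N 6 (.N 6 (.N 3 (.L ⟨[(0, 36), (1, 1517), (2, 61), (3, 36), (15, 1517), (38, 61), (39, 1578), (40, 496), (41, 1553), (42, 521), (69, 1614)], 0, 1669, 12441, 15360, 0, []⟩) (.N 1 (.L ⟨[(0, 4), (3, 4), (69, 4)], 4, 0, 27, 60, 0, []⟩) (.N 1 (.L ⟨[(0, 198), (1, 64), (2, 3), (3, 150), (5, 48), (15, 64), (38, 3), (39, 67), (40, 67), (41, 262), (69, 265)], 0, 0, 1450, 3840, 0, []⟩) (.N 3 (.L ⟨[(0, 1), (1, 3), (3, 1), (15, 3), (69, 4)], 0, 0, 17, 60, 0, []⟩) (.N 1 (.L ⟨[(0, 44), (1, 16),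 (2, 1), (3, 44), (15, 16), (38, 1), (39, 17), (40, 17), (41, 34), (69, 61)], 0, 0, 366, 960, 0, []⟩) (.L ⟨[(0, 48), (1, 77), (2, 6), (5, 6), (7, 42), (15, 68), (16, 9), (27, 6), (39, 83), (41, 125), (42, 125), (69, 131)], 0, 0, 183, 1440, 0, []⟩)))))) (.N 3 (.N 3 (.L ⟨[], 0, 1, 0, 0, 0, []⟩) (.N 1 (.N 0 (.L ⟨[], 15, 0, 0, 4, 0, []⟩) (.N 4 (.L ⟨[(0, 225), (1, 135), (2, 175), (3, 225), (15, 135), (27, 55), (29, 135), (41, 360), (53, 36), (59, 5), (69, 535)], 0, 2190, 0, 4800, 0, []⟩) (.L ⟨[(0, 95), (1, 551), (2, 19), (3, 95), (15, 551), (38, 19), (39, 570), (40, 76), (41, 646), (69, 665)], 0, 0, 7680, 6631, 0, []⟩))) (.L ⟨[(1, 111), (2, 6), (15, 111), (35, 6), (40, 36), (41, 111), (53, 4), (69, 117)], 0, 0, 1034, 61440, 0, []⟩))) (.N 6 (.N 4 (.L ⟨[(0, 302), (1, 468), (2, 217), (7, 302), (15, 28), (16, 440), (27, 217), (39, 685), (41, 770),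 (53, 77), (60, 63), (69, 798)], 0, 0, 0, 6720, 0, []⟩) (.N 5 (.L ⟨[(0, 2286), (1, 2754), (2, 1533), (5, 560), (7, 1726), (16, 2362), (18, 392), (27, 1533), (39, 4287), (41, 5040), (53, 504), (60, 448), (69, 5229)], 0, 0, 107520, 46928, 0, []⟩) (.N 1 (.N 0 (.L ⟨[(0, 72), (3, 45), (5, 27), (41, 72), (60, 1), (69, 69)], 960, 0, 364, 758, 0, []⟩) (.L ⟨[(0, 2), (3, 2), (69, 2)], 0, 0, 9, 20, 0, []⟩)) (.N 0 (.L ⟨[(0, 387), (1, 48), (2, 48), (5, 339), (7, 48), (22, 48), (34, 48), (39, 96), (60, 109), (69, 156)], 1152, 0, 2832, 11520, 0, []⟩) (.N 3 (.L ⟨[(0, 24), (1, 1917), (2, 164), (3, 24), (15, 1917), (36, 30), (38, 134), (39, 2081), (40, 2081), (41, 1941), (42, 1941), (60, 63), (69, 1916)], 0, 0, 16947, 23040, 0, []⟩) (.N 1 (.L ⟨[(0, 7), (3, 7), (69, 7)], 0, 0, 37, 120, 2, []⟩) (.N 1 (.L ⟨[(0, 531), (1, 185), (2, 45), (3, 435), (5, 96), (15,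 185), (38, 45), (39, 230), (40, 230), (41, 716), (60, 63), (69, 572)], 0, 0, 6666, 11520, 0, []⟩) (.N 3 (.L ⟨[(0, 63), (1, 216), (2, 9), (3, 63), (15, 216), (38, 9), (60, 17), (69, 237)], 0, 0, 1719, 4320, 0, []⟩) (.L ⟨[(0, 39), (1, 58), (2, 18), (5, 39), (15, 43), (16, 15), (27, 18), (39, 76), (41, 97), (42, 43), (69, 115)], 0, 0, 111, 1440, 0, []⟩))))))))) (.N 4 (.L ⟨[(0, 990), (1, 14400), (11, 3630), (16, 10410), (18, 3990), (27, 3630), (39, 14400), (41, 15390), (53, 1539), (57, 880), (59, 1210), (60, 1430), (69, 11100)], 0, 0, 0, 26400, 0, []⟩) (.N 5 (.L ⟨[(0, 324), (1, 6156), (11, 1539), (16, 4491), (18, 1665), (39, 6156), (41, 6480), (53, 648), (57, 405), (60, 1091), (69, 3207)], 0, 0, 155520, 10287, 0, []⟩) (.N 0 (.N 1 (.L ⟨[(0, 621), (2, 36), (5, 621), (34, 36), (39, 36), (41, 621), (42, 621), (60, 58), (69, 483)], 8640, 0, 3150,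 4680, 0, []⟩) (.L ⟨[(0, 6597), (1, 2456), (2, 823), (7, 8951), (9, 2584), (22, 2456), (34, 823), (39, 3279), (41, 9053), (42, 9053), (57, 1646), (60, 2469), (69, 2469)], 13991, 0, 49380, 197520, 0, []⟩)) (.N 1 (.L ⟨[(0, 40), (3, 13), (5, 27), (41, 40), (42, 32), (60, 1), (69, 37)], 0, 0, 151, 240, 0, []⟩) (.N 4 (.L ⟨[(0, 224), (1, 1486), (11, 224), (15, 520), (16, 966), (39, 1486), (41, 1710), (53, 171), (60, 171), (69, 1197)], 0, 0, 7866, 10260, 0, []⟩) (.N 5 (.L ⟨[(0, 160), (1, 800), (11, 112), (13, 48), (15, 167), (16, 633), (39, 800), (41, 960), (51, 80), (52, 16), (60, 151), (69, 507)], 0, 0, 30720, 4336, 0, []⟩) (.N 3 (.N 0 (.L ⟨[(0, 42), (2, 9), (3, 42), (38, 9), (60, 17)], 0, 0, 747, 2160, 99, []⟩) (.L ⟨[(0, 63), (1, 3243), (2, 819), (13, 63), (15, 3243), (38, 819), (39, 4062), (41, 3306), (42, 1344), (60, 1375)], 0, 0, 60480, 42336,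 819, []⟩)) (.N 1 (.L ⟨[(0, 1911), (2, 504), (3, 1092), (5, 819), (36, 288), (38, 216), (39, 504), (60, 805)], 0, 0, 29880, 34560, 0, []⟩) (.L ⟨[(0, 2058), (1, 1502), (2, 910), (3, 105), (5, 1953), (15, 1327), (16, 175), (36, 385), (38, 525), (39, 2412), (41, 3560), (60, 1490)], 0, 0, 60375, 67200, 0, []⟩)))))))))))) (.N 6 (.N 3 (.N 3 (.L ⟨[], 0, 1, 0, 0, 0, []⟩) (.N 5 (.N 4 (.N 5 (.L ⟨[(1, 560), (13, 84), (22, 644), (29, 1431), (31, 828), (39, 560), (41, 560), (52, 56), (57, 28), (58, 28), (59, 753), (69, 560)], 0, 13440, 10584, 0, 0, []⟩) (.L ⟨[(1, 1890), (11, 273), (13, 231), (16, 2094), (18, 2103), (31, 84), (33, 1176), (39, 1890), (41, 1890), (51, 189), (57, 168), (58, 769), (59, 420), (69, 1890)], 0, 0, 20160, 0, 0, []⟩)) (.L ⟨[(1, 24000), (11, 5184), (13, 2016), (15, 2400), (16, 43431), (33, 2400), (35, 1200), (39, 24000), (41, 24000),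 (51, 2400), (57, 2400), (58, 7277), (59, 1200), (69, 24000)], 0, 0, 18432000, 0, 0, []⟩)) (.N 4 (.L ⟨[(1, 2880), (11, 576), (13, 288), (15, 300), (16, 5733), (35, 432), (39, 2880), (41, 2880), (51, 288), (57, 288), (58, 1051), (59, 144), (69, 2880)], 0, 0, 0, 0, 0, []⟩) (.N 5 (.N 4 (.N 6 (.N 1 (.L ⟨[(1, 570), (9, 240), (15, 45), (16, 645), (39, 570), (41, 570), (51, 57), (57, 80), (58, 40), (69, 570)], 0, 0, 4800, 4160, 0, []⟩) (.L ⟨[(1, 450), (14, 81), (15, 726), (39, 450), (41, 450), (51, 45), (57, 27), (58, 92), (60, 9), (69, 423)], 0, 0, 3321, 17280, 0, []⟩)) (.L ⟨[(1, 1080), (11, 144), (13, 180), (15, 492), (16, 1305), (39, 1080), (41, 1080), (51, 108), (57, 108), (58, 239), (60, 36), (69, 972)], 0, 0, 8640, 0, 0, []⟩)) (.N 4 (.N 1 (.L ⟨[(1, 6450), (9, 2208), (15, 3225), (16, 5934), (38, 387), (39, 6450), (41, 6450), (50, 645), (57,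 736), (58, 903), (59, 129), (69, 6450)], 0, 0, 123840, 11481, 0, []⟩) (.N 0 (.L ⟨[(11, 1419), (18, 3225), (20, 600), (57, 473), (58, 1275)], 0, 0, 0, 56760, 0, []⟩) (.L ⟨[(1, 990), (14, 162), (15, 1365), (40, 990), (41, 990), (51, 99), (57, 54), (58, 125), (60, 72), (69, 774)], 0, 0, 17280, 15777, 0, []⟩))) (.L ⟨[(15, 42), (38, 9), (58, 14), (59, 3)], 0, 0, 1440, 0, 0, []⟩))) (.N 5 (.N 3 (.L ⟨[(15, 42), (38, 9), (58, 14), (59, 3)], 0, 0, 0, 0, 0, []⟩) (.N 1 (.L ⟨[(1, 55255), (9, 20376), (15, 61447), (34, 1290), (36, 7998), (39, 55255), (41, 55255), (42, 55255), (57, 6792), (58, 2064), (59, 3096), (69, 55255)], 0, 0, 247680, 167442, 0, []⟩) (.N 1 (.L ⟨[(1, 896), (2, 28), (15, 896), (36, 3), (38, 25), (39, 924), (41, 896), (69, 924)], 0, 0, 4887, 368640, 3192, []⟩) (.L ⟨[(14, 9), (15, 42), (57, 3), (58, 14)], 0, 0, 0, 1440, 0, []⟩)))) (.L ⟨[(15,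 42), (38, 9), (58, 14), (59, 3)], 0, 0, 0, 0, 0, []⟩)))))) (.N 4 (.L ⟨[(1, 7200), (11, 1296), (13, 864), (18, 8064), (29, 3051), (31, 288), (39, 7200), (41, 7200), (52, 720), (57, 720), (58, 288), (59, 1113), (60, 1168), (69, 3696)], 0, 0, 0, 0, 0, []⟩) (.N 5 (.L ⟨[(0, 16490), (1, 42100), (11, 12000), (13, 4490), (18, 42100), (27, 26940), (39, 42100), (41, 58590), (52, 5859), (59, 8980), (60, 8980), (69, 31650)], 0, 0, 2155200, 0, 0, []⟩) (.N 0 (.N 1 (.L ⟨[(1, 225), (7, 729), (22, 225), (39, 225), (41, 225), (42, 225), (57, 243), (60, 23), (69, 156)], 0, 0, 943, 2760, 0, []⟩) (.N 1 (.L ⟨[(1, 129), (7, 516), (9, 168), (22, 258), (39, 129), (41, 129), (42, 129), (57, 228), (58, 43), (60, 43)], 0, 0, 516, 5160, 0, []⟩) (.L ⟨[(7, 55), (9, 125), (22, 90), (57, 60), (58, 30), (64, 329)], 0, 0, 0, 3600, 0, []⟩))) (.N 1 (.L ⟨[(0, 417), (2, 45), (5,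 489), (34, 30), (36, 15), (39, 45), (41, 417), (42, 417), (57, 24), (60, 43), (69, 333)], 0, 0, 2880, 1665, 0, []⟩) (.N 5 (.N 4 (.L ⟨[(0, 3546), (1, 14274), (11, 1188), (13, 2358), (15, 1782), (16, 12492), (39, 14274), (41, 17820), (51, 1782), (60, 3925), (69, 6045)], 0, 0, 142560, 70686, 0, []⟩) (.N 3 (.N 1 (.L ⟨[(0, 14526), (1, 31203), (2, 5790), (7, 1158), (9, 13368), (16, 25413), (18, 5790), (38, 5790), (39, 36993), (41, 45729), (60, 17173)], 0, 0, 1111680, 736488, 0, []⟩) (.L ⟨[(0, 4), (1, 17), (14, 4), (15, 17), (41, 10), (60, 7), (66, 4)], 0, 0, 248, 480, 80, []⟩)) (.L ⟨[(0, 195), (1, 252), (9, 63), (11, 132), (18, 63), (20, 189), (39, 252), (41, 447), (42, 447), (60, 149), (66, 63)], 0, 0, 7560, 1575, 0, []⟩))) (.N 3 (.N 1 (.L ⟨[(0, 2901), (1, 2972), (2, 994), (5, 385), (7, 2516), (15, 518), (16, 2454), (38, 994), (39, 3966), (41,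 5873), (42, 3059), (60, 2289)], 0, 0, 76622, 107520, 0, []⟩) (.L ⟨[(0, 2), (1, 17), (2, 2), (14, 2), (15, 17), (38, 2), (41, 10), (60, 7), (66, 4)], 0, 0, 194, 480, 0, []⟩)) (.L ⟨[(0, 37596), (1, 40446), (9, 17577), (11, 20019), (18, 9765), (20, 30681), (39, 40446), (41, 78042), (42, 78042), (60, 26014)], 0, 0, 234360, 164052, 0, []⟩)))))))) (.N 0 (.L ⟨[(9, 3), (20, 3), (57, 1), (58, 1)], 0, 0, 0, 0, 0, []⟩) (.N 4 (.L ⟨[(20, 3), (33, 3), (58, 1), (59, 1)], 0, 0, 0, 0, 0, []⟩) (.N 5 (.N 4 (.L ⟨[(20, 3), (33, 3), (58, 1), (59, 1)], 0, 0, 60, 0, 0, []⟩) (.L ⟨[], 0, 0, 1, 0, 0, []⟩)) (.N 3 (.N 5 (.N 4 (.L ⟨[(1, 11520), (11, 1008), (13, 2448), (15, 2172), (16, 21393), (35, 1728), (39, 11520), (41, 11520), (50, 1152), (57, 1152), (58, 4015), (59, 576), (60, 576), (69, 9792)], 0, 0, 138240, 0, 0, []⟩) (.N 4 (.N 5 (.L ⟨[], 0, 0, 1, 0, 0, []⟩) (.L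 ⟨[(1, 17280), (11, 1584), (13, 3600), (15, 28092), (16, 20025), (38, 7344), (39, 17280), (41, 17280), (50, 1728), (57, 1728), (58, 10279), (59, 2448), (60, 5760)], 0, 0, 552960, 0, 0, []⟩)) (.L ⟨[(15, 14010), (16, 540), (36, 2025), (38, 2430), (58, 4850), (59, 1485), (66, 8136)], 0, 0, 259200, 0, 0, []⟩))) (.L ⟨[(15, 42), (38, 9), (58, 14), (59, 3)], 0, 0, 0, 0, 0, []⟩)) (.N 3 (.N 5 (.N 4 (.L ⟨[(0, 1716), (1, 10734), (11, 1245), (13, 2712), (16, 3711), (18, 7023), (39, 10734), (41, 12450), (50, 1245), (57, 747), (60, 4150)], 0, 0, 119520, 0, 0, []⟩) (.N 5 (.L ⟨[], 0, 0, 1, 0, 0, []⟩) (.N 1 (.L ⟨[(0, 1932), (2, 627), (7, 1932), (34, 282), (36, 345), (39, 627), (41, 1932), (60, 853)], 0, 0, 41400, 8280, 0, []⟩) (.N 1 (.N 0 (.L ⟨[(0, 255), (1, 170), (2, 85), (7, 330), (9, 180), (22, 170), (34, 85), (39, 255), (41, 425), (57, 85), (60, 170),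 (66, 277)], 0, 0, 4250, 10200, 0, []⟩) (.L ⟨[(1, 500), (2, 175), (18, 220), (20, 280), (36, 125), (38, 50), (41, 500), (60, 225), (66, 1836)], 0, 0, 12000, 8200, 0, []⟩)) (.L ⟨[(0, 640), (1, 110), (12, 640), (15, 550), (16, 220), (34, 165), (41, 750), (42, 750), (58, 220), (59, 55), (60, 250), (66, 4049)], 0, 0, 6985, 52800, 0, []⟩))))) (.N 6 (.N 1 (.L ⟨[(0, 164), (2, 103), (5, 299), (36, 103), (39, 103), (41, 164), (57, 45), (60, 89), (66, 90)], 0, 0, 1350, 1305, 0, []⟩) (.N 1 (.L ⟨[(0, 1008), (1, 1008), (2, 1677), (3, 1008), (18, 672), (20, 336), (34, 336), (36, 1341), (39, 2685), (41, 2016), (60, 1231), (66, 8502)], 0, 0, 0, 80640, 0, []⟩) (.L ⟨[(0, 105), (1, 405), (14, 105), (15, 405), (41, 510), (60, 170), (66, 204)], 0, 0, 0, 20400, 0, []⟩))) (.L ⟨[(20, 5040), (38, 645), (58, 1680), (59, 215), (66, 14448)], 0, 0, 0, 0, 0, []⟩))) (.L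 ⟨[(22, 3), (58, 1), (66, 15)], 0, 0, 0, 0, 0, []⟩)))))))

theorem ok_F0_2p : tree_F0_2p.check prm_F0 ⟨-32, 32, -64, 64, 32, 32, -64, 64, -32, 32, -64, 64, 0, 672⟩ = true := by decide +kernel

def tree_F0_3m : Tree := .N 6 (.L ⟨[], 0, 1, 0, 0, 0, []⟩) (.N 2 (.L ⟨[], 0, 1, 0, 0, 0, []⟩) (.L ⟨[(18, 645), (20, 120), (58, 255), (68, 1419)], 0, 12800, 0, 0, 0, []⟩))

theorem ok_F0_3m : tree_F0_3m.check prm_F0 ⟨-32, 32, -64, 64, 0, 32, -64, -64, -32, 32, -64, 64, 0, 672⟩ = true := by decide +kernel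

def tree_F0_3p : Tree := .N 6 (.N 6 (.N 5 (.L ⟨[(2, 3), (27, 3), (69, 3)], 20, 0, 30, 12, 0, []⟩) (.N 1 (.L ⟨[(0, 1), (3, 1), (69, 1)], 10, 0, 5, 0, 2, []⟩) (.N 0 (.N 2 (.N 4 (.L ⟨[(0, 1), (3, 1), (69, 1)], 0, 0, 0, 15, 0, []⟩) (.N 0 (.L ⟨[], 1, 0, 0, 1, 0, []⟩) (.N 6 (.L ⟨[(0, 13), (2, 12), (3, 10), (5, 3), (27, 12), (39, 2), (42, 10), (69, 25)], 0, 0, 0, 240, 230, []⟩) (.N 5 (.N 1 (.L ⟨[(0, 70), (2, 14), (3, 49), (5, 21), (27, 14), (39, 14), (42, 70), (69, 84)], 874, 0, 960, 0, 0, []⟩) (.N 4 (.L ⟨[(0, 17), (2, 170), (3, 17), (27, 119), (28, 51), (39, 170), (41, 17), (42, 17), (69, 187)], 599, 0, 1920, 1410, 0, []⟩) (.L ⟨[], 0, 0, 1, 0, 0, []⟩))) (.N 1 (.N 4 (.L ⟨[(0, 30), (2, 3), (3, 21), (5, 9), (27, 3), (39, 3), (40, 3), (42, 30), (69, 33)], 76, 0, 76, 240, 195, []⟩) (.L ⟨[(0, 360), (3, 225), (5, 135), (42, 360), (60, 5), (69, 345)],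 0, 0, 2521, 3840, 3840, []⟩)) (.N 2 (.N 4 (.L ⟨[(0, 44), (2, 44), (3, 33), (5, 11), (27, 33), (28, 11), (39, 44), (42, 44), (69, 88)], 0, 0, 0, 960, 878, []⟩) (.L ⟨[(0, 26), (2, 34), (3, 20), (5, 6), (27, 25), (28, 9), (39, 34), (42, 26), (69, 60)], 0, 0, 51, 654, 720, []⟩)) (.L ⟨[(0, 134), (2, 94), (3, 98), (5, 36), (27, 73), (28, 21), (39, 94), (42, 134), (69, 228)], 0, 0, 195, 2880, 2064, []⟩))))))) (.L ⟨[(0, 110), (2, 11), (3, 77), (5, 33), (27, 11), (39, 11), (40, 11), (42, 110), (69, 121)], 0, 0, 385, 1920, 556, []⟩)) (.N 4 (.L ⟨[(0, 5), (2, 1), (3, 5), (27, 1), (69, 6)], 0, 0, 0, 0, 0, []⟩) (.N 5 (.L ⟨[(2, 1), (27, 1), (69, 1)], 0, 0, 15, 1, 0, []⟩) (.N 2 (.N 1 (.L ⟨[(0, 30), (2, 3), (3, 21), (5, 9), (27, 3), (39, 3), (40, 3), (42, 30), (69, 33)], 0, 0, 140, 164, 240, []⟩) (.N 4 (.N 0 (.N 6 (.L ⟨[(0, 7), (2, 6), (3, 7), (27, 6), (69,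 13)], 0, 0, 0, 120, 120, []⟩) (.N 6 (.L ⟨[(0, 25), (1, 8), (2, 29), (3, 9), (5, 16), (15, 8), (27, 10), (28, 19), (39, 37), (40, 37), (41, 33), (42, 33), (69, 62)], 0, 0, 0, 480, 469, []⟩) (.N 2 (.L ⟨[(0, 32), (1, 6), (2, 40), (3, 23), (5, 9), (15, 6), (27, 28), (28, 12), (39, 46), (42, 38), (69, 78)], 0, 0, 0, 663, 720, []⟩) (.L ⟨[(0, 32), (1, 6), (2, 40), (3, 23), (5, 9), (15, 6), (27, 28), (28, 12), (39, 46), (42, 38), (69, 78)], 0, 0, 0, 720, 663, []⟩)))) (.L ⟨[(2, 1), (27, 1), (69, 1)], 0, 0, 0, 0, 0, []⟩)) (.N 0 (.N 2 (.L ⟨[(0, 47), (1, 1), (2, 103), (3, 47), (26, 1), (27, 82), (28, 21), (39, 104), (42, 48), (69, 151)], 0, 0, 0, 1269, 1920, []⟩) (.L ⟨[(0, 18), (2, 26), (3, 14), (5, 4), (27, 19), (28, 7), (39, 26), (42, 18), (69, 44)], 0, 0, 0, 439, 480, []⟩)) (.L ⟨[(2, 1), (27, 1), (69, 1)], 0, 0, 0, 0, 15, []⟩)))) (.N 1 (.L ⟨[(0, 10),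 (2, 1), (3, 7), (5, 3), (27, 1), (39, 1), (40, 1), (42, 10), (69, 11)], 0, 0, 37, 80, 66, []⟩) (.N 0 (.N 4 (.L ⟨[(0, 3), (2, 2), (3, 3), (27, 2), (69, 5)], 0, 0, 0, 60, 0, []⟩) (.N 1 (.L ⟨[(0, 34), (2, 26), (3, 25), (5, 9), (27, 20), (28, 6), (39, 26), (42, 34), (69, 60)], 0, 0, 57, 720, 558, []⟩) (.L ⟨[(0, 26), (2, 34), (3, 20), (5, 6), (27, 25), (28, 9), (39, 34), (42, 26), (69, 60)], 0, 0, 0, 720, 537, []⟩))) (.N 4 (.L ⟨[(0, 5), (2, 1), (3, 5), (27, 1), (69, 6)], 0, 0, 0, 0, 0, []⟩) (.N 6 (.L ⟨[(0, 5), (2, 8), (3, 5), (27, 8), (69, 13)], 0, 0, 0, 120, 120, []⟩) (.N 6 (.L ⟨[(0, 78), (1, 31), (2, 138), (3, 31), (5, 47), (15, 31), (27, 46), (28, 92), (39, 169), (40, 169), (41, 109), (42, 109), (69, 247)], 0, 0, 0, 1920, 1801, []⟩) (.N 2 (.L ⟨[(0, 8), (1, 2), (2, 16), (3, 6), (5, 2), (15, 2), (27, 11), (28, 5), (39, 18), (42, 10), (69, 26)],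 0, 0, 0, 221, 240, []⟩) (.L ⟨[(0, 8), (1, 2), (2, 16), (3, 6), (5, 2), (15, 2), (27, 11), (28, 5), (39, 18), (42, 10), (69, 26)], 0, 0, 0, 240, 221, []⟩))))))))))))) (.N 5 (.L ⟨[(0, 8100), (1, 10680), (2, 22509), (11, 8100), (22, 5046), (24, 5634), (27, 22509), (39, 33189), (42, 18780), (55, 1878), (60, 13763)], 148362, 0, 450720, 0, 0, []⟩) (.N 1 (.L ⟨[(0, 3024), (1, 690), (3, 2097), (5, 1134), (26, 690), (39, 690), (42, 3714), (44, 69), (57, 69), (60, 1238)], 33120, 0, 13179, 0, 7521, []⟩) (.N 2 (.N 4 (.N 0 (.L ⟨[(0, 945), (1, 102), (5, 447), (7, 498), (22, 102), (39, 102), (41, 1047), (42, 1047), (60, 148), (69, 603)], 0, 0, 0, 7680, 0, []⟩) (.L ⟨[(2, 1), (27, 1), (69, 1)], 0, 0, 0, 0, 0, []⟩)) (.N 5 (.N 0 (.N 5 (.L ⟨[(1, 270), (2, 1008), (24, 108), (26, 162), (27, 1008), (39, 1278), (42, 270), (54, 27), (60, 383), (69, 129)], 6318, 0,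 25920, 8235, 0, []⟩) (.N 4 (.N 6 (.N 2 (.N 4 (.L ⟨[(0, 2178), (1, 402), (2, 719), (5, 856), (7, 1322), (24, 402), (27, 719), (39, 1121), (41, 2580), (42, 2580), (54, 258), (60, 606), (69, 1481)], 0, 0, 0, 23040, 0, []⟩) (.N 5 (.L ⟨[(1, 270), (2, 1530), (24, 135), (26, 135), (27, 1530), (39, 1800), (41, 270), (42, 270), (54, 27), (60, 340), (69, 780)], 8235, 0, 25920, 10800, 0, []⟩) (.N 0 (.N 1 (.L ⟨[], 15, 0, 0, 11, 0, []⟩) (.L ⟨[], 11, 0, 0, 15, 0, []⟩)) (.N 6 (.N 0 (.N 1 (.L ⟨[(0, 37), (1, 1), (2, 37), (5, 37), (26, 1), (28, 37), (39, 38), (42, 38), (60, 8), (69, 51)], 640, 0, 640, 0, 0, []⟩) (.N 6 (.L ⟨[(2, 360), (27, 225), (28, 135), (39, 360), (60, 5), (69, 345)], 1463, 0, 3840, 2512, 0, []⟩) (.L ⟨[(0, 51), (1, 3), (2, 51), (5, 51), (26, 3), (28, 51), (39, 54), (42, 54), (60, 14), (69, 63)], 94, 0, 960, 915, 0, []⟩))) (.L ⟨[(2, 72),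 (27, 45), (28, 27), (39, 72), (60, 1), (69, 69)], 0, 0, 120, 18, 0, []⟩)) (.L ⟨[(0, 2598), (1, 1416), (2, 7485), (7, 1182), (9, 1416), (26, 1416), (28, 7485), (39, 8901), (42, 4014), (60, 3833)], 0, 0, 84960, 18408, 0, []⟩))))) (.L ⟨[(0, 3078), (1, 702), (2, 585), (7, 3078), (24, 702), (27, 585), (39, 1287), (41, 3780), (42, 3780), (54, 378), (60, 1090), (69, 1095)], 0, 0, 51840, 30024, 0, []⟩)) (.L ⟨[(0, 18849), (1, 1260), (2, 15537), (9, 16329), (11, 2520), (22, 630), (24, 630), (32, 15537), (39, 16797), (41, 20109), (42, 20109), (60, 11882)], 75600, 0, 59220, 59220, 0, []⟩)) (.N 0 (.L ⟨[(0, 1212), (1, 45), (2, 1086), (9, 1122), (11, 90), (26, 45), (32, 1086), (39, 1131), (41, 1257), (42, 1257), (60, 781)], 12285, 0, 86400, 12285, 0, []⟩) (.L ⟨[(0, 1716), (1, 519), (2, 1812), (9, 1716), (24, 519), (30, 1812), (39, 2331), (42, 2235), (60,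 1349)], 0, 0, 249120, 4152, 0, []⟩)))) (.L ⟨[(1, 162), (2, 831), (24, 54), (26, 108), (27, 831), (39, 666), (42, 162), (60, 241), (69, 270)], 0, 0, 12960, 702, 0, []⟩)) (.N 6 (.N 0 (.N 0 (.N 1 (.L ⟨[], 15, 0, 0, 11, 0, []⟩) (.L ⟨[], 11, 0, 0, 15, 0, []⟩)) (.N 1 (.N 1 (.L ⟨[(0, 192), (1, 10), (3, 120), (5, 72), (26, 10), (39, 10), (42, 202), (60, 21), (69, 139)], 1920, 0, 752, 0, 909, []⟩) (.N 4 (.N 6 (.N 0 (.N 0 (.N 6 (.L ⟨[(0, 936), (3, 585), (5, 351), (42, 936), (60, 13), (69, 897)], 3453, 0, 3189, 7680, 5731, []⟩) (.L ⟨[(0, 1942), (1, 120), (2, 838), (3, 690), (5, 1252), (26, 120), (28, 838), (39, 958), (42, 2062), (60, 375), (69, 1775)], 3765, 0, 4380, 28800, 20685, []⟩)) (.L ⟨[(0, 1944), (1, 90), (3, 1215), (5, 729), (26, 90), (39, 90), (42, 2034), (60, 192), (69, 1458)], 0, 0, 6400, 15360, 11816, []⟩)) (.L ⟨[(0, 72), (3, 45), (5, 27),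 (42, 72), (60, 1), (69, 69)], 0, 0, 0, 30, 25, []⟩)) (.L ⟨[(0, 29970), (1, 5145), (2, 8100), (5, 29970), (26, 5145), (32, 8100), (39, 13245), (42, 35115), (60, 14405)], 107016, 0, 107016, 246960, 196539, []⟩)) (.N 4 (.N 2 (.N 6 (.L ⟨[(0, 648), (1, 48), (3, 405), (5, 243), (26, 48), (39, 48), (42, 696), (60, 97), (69, 405)], 0, 0, 4866, 7215, 7680, []⟩) (.L ⟨[(0, 648), (1, 138), (3, 405), (5, 243), (26, 138), (39, 138), (42, 786), (60, 262)], 0, 0, 7130, 10350, 11040, []⟩)) (.L ⟨[(0, 2328), (1, 266), (3, 1455), (5, 873), (26, 266), (39, 266), (42, 2594), (60, 520), (69, 1034)], 0, 0, 11324, 30720, 16796, []⟩)) (.L ⟨[(0, 648), (1, 138), (3, 405), (5, 243), (26, 138), (39, 138), (42, 786), (60, 262)], 0, 0, 24288, 11661, 33120, []⟩)))) (.N 4 (.N 2 (.N 6 (.N 4 (.L ⟨[(0, 88), (2, 64), (3, 24), (5, 64), (27, 9), (28, 55), (39, 64), (42, 88), (60,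 9), (69, 125)], 0, 0, 0, 1440, 1047, []⟩) (.N 0 (.N 6 (.L ⟨[(0, 20), (2, 20), (3, 15), (5, 5), (27, 15), (28, 5), (39, 20), (42, 20), (69, 40)], 13, 0, 13, 480, 431, []⟩) (.L ⟨[(0, 208), (1, 10), (2, 208), (5, 208), (26, 10), (28, 208), (39, 218), (42, 218), (60, 53), (69, 267)], 157, 0, 208, 3840, 3401, []⟩)) (.L ⟨[(0, 802), (2, 898), (5, 802), (27, 60), (28, 838), (39, 898), (42, 802), (60, 135), (69, 1295)], 0, 0, 0, 14400, 14400, []⟩))) (.L ⟨[(0, 9), (1, 3), (2, 9), (5, 9), (26, 3), (28, 9), (39, 12), (42, 12), (60, 7)], 18, 0, 18, 180, 162, []⟩)) (.L ⟨[(0, 364), (1, 22), (2, 92), (3, 262), (5, 102), (26, 22), (27, 92), (39, 114), (42, 386), (60, 39), (69, 361)], 0, 0, 0, 7680, 2160, []⟩)) (.N 6 (.N 4 (.N 2 (.N 0 (.L ⟨[(0, 526), (1, 20), (2, 334), (3, 120), (5, 406), (26, 20), (28, 334), (39, 354), (42, 546), (60, 95), (69, 595)], 0,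 0, 3020, 9600, 9600, []⟩) (.L ⟨[(0, 178), (2, 202), (5, 178), (27, 15), (28, 187), (39, 202), (42, 178), (60, 30), (69, 290)], 0, 0, 375, 3135, 3600, []⟩)) (.L ⟨[(0, 105), (1, 1), (2, 57), (3, 30), (5, 75), (26, 1), (28, 57), (39, 58), (42, 106), (60, 12), (69, 127)], 0, 0, 350, 1920, 1301, []⟩)) (.L ⟨[], 0, 0, 23, 9, 30, []⟩)) (.L ⟨[(0, 46650), (1, 7785), (2, 31530), (7, 46650), (26, 7785), (30, 15570), (32, 15960), (39, 39315), (42, 54435), (60, 28655)], 0, 0, 378351, 747360, 747360, []⟩))))) (.N 1 (.L ⟨[(0, 72), (1, 6), (3, 45), (5, 27), (26, 6), (39, 6), (42, 78), (60, 12), (69, 42)], 0, 0, 378, 242, 480, []⟩) (.N 6 (.N 4 (.N 2 (.L ⟨[(0, 109), (2, 141), (5, 109), (27, 8), (28, 133), (39, 141), (40, 141), (41, 109), (42, 109), (60, 13), (69, 211)], 0, 0, 0, 1699, 1920, []⟩) (.N 0 (.L ⟨[(0, 278), (2, 342), (3, 10), (5, 268), (27, 50), (28,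 292), (39, 342), (42, 278), (60, 45), (69, 485)], 0, 0, 0, 4800, 4390, []⟩) (.L ⟨[(2, 1), (27, 1), (69, 1)], 0, 0, 0, 0, 0, []⟩))) (.N 2 (.L ⟨[(0, 67), (1, 15), (2, 299), (3, 67), (26, 15), (27, 212), (28, 87), (39, 314), (42, 82), (60, 27), (69, 300)], 0, 0, 0, 2754, 5760, []⟩) (.N 0 (.N 4 (.N 1 (.L ⟨[(0, 446), (2, 494), (5, 446), (27, 30), (28, 464), (39, 494), (42, 446), (60, 75), (69, 715)], 0, 0, 465, 7200, 7125, []⟩) (.L ⟨[(0, 1009), (1, 15), (2, 2041), (5, 1009), (26, 15), (27, 645), (28, 1396), (39, 2056), (42, 1024), (60, 210), (69, 2435)], 0, 0, 0, 25395, 28800, []⟩)) (.L ⟨[], 0, 0, 11, 0, 15, []⟩)) (.L ⟨[(2, 7), (27, 7), (69, 7)], 0, 0, 0, 0, 120, []⟩)))) (.L ⟨[(0, 1860), (1, 37), (2, 1988), (9, 1712), (11, 148), (26, 37), (32, 1988), (39, 2025), (42, 1897), (60, 1295)], 0, 0, 4588, 7215, 8880, []⟩)))) (.N 2 (.N 4 (.L ⟨[(0, 555),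 (2, 465), (9, 492), (11, 63), (32, 402), (34, 63), (39, 465), (41, 555), (42, 555), (60, 340)], 1890, 0, 0, 1134, 126, []⟩) (.N 0 (.L ⟨[(0, 40893), (2, 20589), (9, 40893), (32, 18069), (34, 8190), (39, 20589), (41, 40893), (42, 40893), (59, 1890), (60, 20494)], 67410, 0, 265860, 135450, 302400, []⟩) (.L ⟨[(0, 810), (1, 759), (2, 5589), (11, 810), (26, 759), (28, 5589), (39, 6348), (42, 1569), (60, 2386)], 0, 0, 8349, 3036, 91080, []⟩))) (.L ⟨[(0, 50703), (2, 16719), (9, 49443), (11, 1260), (32, 25539), (34, 8190), (39, 16719), (41, 50703), (42, 50703), (59, 5670), (60, 22474)], 0, 0, 151200, 71820, 49770, []⟩))))) (.N 4 (.L ⟨[(0, 3825), (1, 1419), (2, 600), (7, 3225), (9, 600), (22, 1419), (27, 600), (60, 1748), (69, 600)], 0, 0, 0, 36000, 0, []⟩) (.N 5 (.L ⟨[(0, 88167), (1, 36663), (2, 17229), (9, 84006), (11, 4161), (22, 36663), (27, 17229),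 (39, 53892), (41, 124830), (42, 124830), (54, 12483), (60, 47353)], 0, 0, 1997280, 199728, 0, []⟩) (.N 6 (.N 6 (.N 0 (.L ⟨[(0, 627), (2, 73), (5, 346), (7, 281), (34, 73), (39, 73), (41, 627), (42, 627), (60, 102), (69, 394)], 113, 0, 2941, 7680, 1977, []⟩) (.N 1 (.L ⟨[(0, 242), (2, 20), (3, 65), (5, 177), (34, 20), (39, 20), (42, 242), (60, 26), (69, 184)], 0, 0, 960, 908, 738, []⟩) (.N 0 (.N 2 (.N 4 (.L ⟨[(0, 5), (2, 4), (3, 5), (27, 4), (69, 9)], 0, 0, 0, 120, 0, []⟩) (.N 5 (.L ⟨[(0, 506), (2, 554), (5, 506), (27, 30), (28, 524), (39, 554), (42, 506), (60, 85), (69, 805)], 0, 0, 1475, 9600, 6985, []⟩) (.L ⟨[(0, 46), (2, 46), (3, 12), (5, 34), (27, 12), (28, 34), (39, 46), (42, 46), (60, 5), (69, 77)], 0, 0, 10, 960, 773, []⟩))) (.L ⟨[(0, 456), (1, 14), (3, 285), (5, 171), (26, 14), (39, 14), (42, 470), (60, 32), (69, 374)], 0, 0, 1766,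 7680, 1780, []⟩)) (.N 4 (.L ⟨[(2, 1), (27, 1), (69, 1)], 0, 0, 0, 0, 0, []⟩) (.N 2 (.L ⟨[(0, 1064), (2, 2336), (5, 1064), (27, 795), (28, 1541), (39, 2336), (42, 1064), (60, 195), (69, 2815)], 0, 0, 0, 25635, 28800, []⟩) (.L ⟨[(0, 36), (2, 76), (3, 7), (5, 29), (27, 32), (28, 44), (39, 76), (42, 36), (60, 5), (69, 97)], 0, 0, 42, 960, 854, []⟩)))))) (.L ⟨[(0, 4324), (2, 2120), (7, 874), (9, 3450), (32, 874), (34, 1246), (39, 2120), (41, 4324), (42, 4324), (60, 2148)], 0, 0, 26220, 21413, 2622, []⟩)) (.L ⟨[(0, 621), (1, 15), (2, 213), (9, 576), (11, 45), (22, 15), (32, 378), (34, 60), (39, 228), (41, 636), (42, 636), (59, 75), (60, 283)], 0, 0, 1800, 1260, 0, []⟩)))))))) (.N 6 (.N 5 (.L ⟨[(26, 9), (27, 42), (58, 3), (59, 14)], 0, 0, 0, 0, 0, []⟩) (.N 5 (.L ⟨[(0, 562665), (1, 100305), (9, 610020), (11, 9471), (26, 100305), (30, 783495), (39,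 100305), (41, 662970), (42, 662970), (55, 66297), (57, 18942), (59, 261165), (60, 220990)], 0, 0, 2273040, 0, 0, []⟩) (.N 0 (.L ⟨[(0, 4644), (1, 129), (9, 5160), (22, 129), (32, 2496), (34, 645), (39, 129), (41, 4773), (42, 4773), (57, 172), (59, 1047), (60, 1591)], 0, 0, 3526, 0, 0, []⟩) (.L ⟨[(0, 14835), (1, 1032), (2, 1032), (9, 14835), (22, 516), (24, 516), (32, 7323), (34, 1032), (39, 2064), (41, 15867), (42, 15867), (59, 2441), (60, 5633)], 0, 0, 0, 0, 0, []⟩)))) (.L ⟨[(26, 15), (58, 5), (64, 336)], 0, 0, 0, 0, 0, []⟩))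

theorem ok_F0_3p : tree_F0_3p.check prm_F0 ⟨-32, 32, -64, 64, 0, 32, 64, 64, -32, 32, -64, 64, 0, 672⟩ = true := by decide +kernel

def tree_F0_4m : Tree := .N 6 (.N 6 (.L ⟨[(1, 1090), (2, 40), (15, 935), (16, 155), (37, 40), (39, 1130), (41, 1090), (53, 109), (69, 1130)], 840, 0, 0, 2400, 0, []⟩) (.L ⟨[(1, 560), (11, 8), (13, 16), (15, 321), (16, 287), (33, 72), (39, 560), (41, 560), (51, 56), (57, 8), (58, 16), (59, 24), (69, 560)], 0, 408, 0, 0, 0, []⟩)) (.L ⟨[(1, 170280), (13, 2838), (14, 1419), (18, 348171), (20, 8514), (33, 199818), (35, 4257), (39, 170280), (41, 170280), (51, 17028), (57, 1419), (58, 62135), (59, 68025), (69, 170280)], 0, 82302, 0, 0, 0, []⟩)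

theorem ok_F0_4m : tree_F0_4m.check prm_F0 ⟨-32, 32, -64, 64, 0, 32, -64, 64, -32, -32, -64, 64, 0, 672⟩ = true := by decide +kernel

def tree_F0_4p : Tree := .N 5 (.L ⟨[], 0, 0, 1, 0, 0, []⟩) (.N 6 (.N 5 (.L ⟨[], 0, 0, 1, 0, 0, []⟩) (.N 6 (.N 3 (.L ⟨[], 0, 0, 2, 0, 15, []⟩) (.N 3 (.L ⟨[], 0, 0, 7, 0, 15, []⟩) (.N 1 (.L ⟨[(0, 2), (3, 2), (69, 2)], 27, 0, 47, 0, 60, []⟩) (.N 0 (.L ⟨[(0, 5), (3, 5), (69, 5)], 0, 0, 89, 120, 113, []⟩) (.N 3 (.L ⟨[], 0, 0, 3, 0, 5, []⟩) (.N 0 (.L ⟨[(0, 9), (3, 9), (69, 9)], 0, 0, 198, 193, 240, []⟩) (.N 2 (.L ⟨[], 0, 0, 11, 0, 15, []⟩) (.N 3 (.L ⟨[], 0, 0, 7, 0, 10, []⟩) (.N 2 (.L ⟨[], 0, 0, 23, 0, 30, []⟩) (.N 1 (.L ⟨[(0, 3), (3, 3), (69, 3)], 0, 0, 30, 25, 29, []⟩) (.L ⟨[(0, 15), (1, 6), (2, 28), (3, 4), (5, 11), (15, 6), (27, 20), (28, 8), (39, 34), (41, 21), (42, 21), (69, 49)], 0, 0, 60, 426, 480, []⟩)))))))))))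 (.N 3 (.L ⟨[(15, 42), (38, 9), (58, 14), (59, 3)], 0, 534, 0, 0, 2880, []⟩) (.N 3 (.L ⟨[], 0, 0, 1, 0, 6, []⟩) (.N 2 (.L ⟨[], 0, 0, 1, 0, 2, []⟩) (.N 1 (.L ⟨[(0, 1149), (2, 228), (5, 1845), (34, 228), (39, 228), (41, 1149), (42, 1149), (57, 232), (60, 58), (69, 1203)], 3770, 0, 13920, 0, 12586, []⟩) (.N 0 (.N 0 (.L ⟨[(7, 3225), (9, 600), (34, 1419), (57, 1275), (59, 473)], 66220, 0, 21758, 113520, 1892, []⟩) (.L ⟨[(0, 12657), (2, 4956), (7, 5760), (9, 8136), (34, 4956), (39, 4956), (41, 12657), (42, 12657), (57, 413), (60, 5871)], 826, 0, 198240, 142485, 158179, []⟩)) (.N 2 (.L ⟨[(0, 1971), (2, 1833), (9, 1635), (11, 336), (32, 1707), (34, 126), (39, 1833), (41, 1971), (42, 1971), (60, 1268)], 0, 0, 51786, 6678, 80640, []⟩) (.N 3 (.N 5 (.L ⟨[(0, 13179), (1, 14553), (9, 5859), (11, 7320), (18, 3906), (20, 10647), (39, 14553), (41, 27732),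 (42, 27732), (60, 9244)], 0, 0, 937440, 64449, 517545, []⟩) (.L ⟨[(0, 3675), (1, 2325), (9, 3102), (11, 573), (20, 1752), (22, 573), (39, 2325), (41, 6000), (42, 6000), (60, 2000)], 0, 0, 193101, 18336, 550080, []⟩)) (.N 6 (.N 0 (.L ⟨[(0, 621), (1, 45), (2, 90), (5, 621), (26, 45), (34, 90), (39, 135), (42, 666), (60, 193), (69, 177)], 0, 0, 9000, 10800, 8640, []⟩) (.N 5 (.L ⟨[], 0, 0, 1, 0, 0, []⟩) (.N 1 (.L ⟨[(0, 2622), (1, 207), (2, 18), (3, 2622), (26, 207), (34, 18), (39, 225), (60, 397), (69, 1656)], 0, 0, 27648, 28692, 34560, []⟩) (.N 1 (.L ⟨[(0, 5744), (2, 576), (3, 3260), (5, 2484), (34, 576), (39, 576), (60, 652), (69, 4364)], 0, 0, 72209, 71068, 78240, []⟩) (.N 3 (.L ⟨[(0, 1482), (1, 2025), (2, 924), (7, 484), (9, 998), (15, 2025), (30, 506), (32, 418), (39, 2949), (41, 3507), (42, 3507), (60, 374), (69, 3309)], 0, 0, 29502, 31438,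 42240, []⟩) (.N 0 (.L ⟨[(0, 1308), (1, 207), (2, 18), (3, 1308), (26, 207), (34, 18), (39, 225), (60, 397), (69, 342)], 0, 0, 26298, 34560, 34056, []⟩) (.L ⟨[(0, 428), (1, 240), (2, 797), (5, 338), (7, 90), (15, 240), (27, 180), (28, 617), (39, 1037), (42, 668), (60, 75), (69, 1240)], 0, 0, 3645, 12870, 14400, []⟩))))))) (.L ⟨[(0, 1128), (1, 315), (2, 894), (9, 813), (11, 315), (15, 315), (32, 579), (34, 315), (39, 1209), (41, 1443), (42, 1443), (60, 779)], 0, 0, 18900, 5985, 16695, []⟩))))))))))) (.N 5 (.N 6 (.L ⟨[], 0, 0, 1, 0, 0, []⟩) (.L ⟨[(34, 3), (59, 1), (66, 15)], 0, 0, 60, 0, 0, []⟩)) (.N 6 (.N 1 (.L ⟨[(3, 546), (38, 117), (57, 182), (59, 39)], 0, 0, 5760, 0, 0, []⟩) (.N 3 (.L ⟨[(15, 42), (38, 9), (58, 14), (59, 3)], 0, 0, 105, 0, 720, []⟩) (.N 3 (.L ⟨[(0, 3882), (1, 17901), (11, 9705), (18, 10881), (20, 7020), (39, 17901), (41,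 21783), (42, 21783), (57, 1941), (60, 7261)], 0, 0, 279504, 0, 29813760, []⟩) (.N 2 (.L ⟨[(0, 3999), (9, 3225), (11, 774), (30, 1032), (32, 3417), (42, 3999), (59, 1483), (60, 1333)], 0, 0, 54180, 0, 123840, []⟩) (.N 0 (.N 1 (.L ⟨[(0, 2406), (7, 1941), (9, 2058), (32, 354), (34, 1239), (41, 2406), (42, 2406), (57, 531), (59, 531), (60, 802)], 0, 0, 21240, 18408, 5841, []⟩) (.L ⟨[(0, 3225), (9, 4773), (32, 2973), (34, 516), (41, 3225), (42, 3225), (57, 516), (59, 1163), (60, 1075)], 0, 0, 10836, 30960, 6708, []⟩)) (.N 1 (.L ⟨[(0, 10143), (1, 1311), (2, 4101), (7, 1311), (9, 8832), (15, 1311), (34, 4101), (39, 5412), (41, 11454), (42, 11454), (60, 5185)], 0, 0, 78660, 31464, 56373, []⟩) (.N 0 (.L ⟨[(0, 9003), (2, 10029), (9, 6483), (11, 2520), (30, 630), (32, 9399), (39, 10029), (41, 9003), (42, 9003), (60, 6344)], 0, 0, 74340, 151200, 100800,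 []⟩) (.L ⟨[(0, 18144), (1, 25767), (2, 19392), (11, 12096), (13, 6048), (15, 25767), (32, 6048), (34, 13344), (39, 45159), (40, 45159), (41, 43911), (42, 43911), (60, 21101)], 0, 0, 362880, 178416, 211680, []⟩)))))))) (.L ⟨[(34, 3), (59, 1), (66, 15)], 0, 0, 30, 0, 0, []⟩))))

theorem ok_F0_4p : tree_F0_4p.check prm_F0 ⟨-32, 32, -64, 64, 0, 32, -64, 64, 32, 32, -64, 64, 0, 672⟩ = true := by decide +kernel

def tree_F0_5m : Tree := .N 6 (.N 6 (.L ⟨[(2, 3), (27, 3), (69, 3)], 5, 28, 30, 12, 0, []⟩) (.N 3 (.L ⟨[(0, 612), (1, 468), (2, 864), (11, 612), (22, 468), (27, 2859), (39, 360), (41, 1080), (42, 1080), (54, 108), (59, 665), (69, 1944)], 0, 69120, 15876, 0, 0, []⟩) (.L ⟨[(0, 180), (1, 180), (2, 288), (11, 180), (22, 180), (27, 1023), (54, 36), (59, 245), (69, 648)], 1512, 0, 4320, 0, 0, []⟩))) (.N 3 (.N 3 (.N 6 (.L ⟨[], 0, 1, 0, 0, 0, []⟩)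 (.L ⟨[(22, 15), (27, 60), (58, 5), (59, 20), (63, 138), (68, 75)], 0, 800, 0, 0, 0, []⟩)) (.L ⟨[(0, 12), (1, 18), (2, 9), (13, 12), (24, 12), (26, 6), (27, 123), (54, 3), (59, 38), (69, 39)], 0, 720, 144, 0, 0, []⟩)) (.L ⟨[(26, 9), (27, 42), (58, 3), (59, 14)], 0, 0, 0, 0, 0, []⟩))

theorem ok_F0_5m : tree_F0_5m.check prm_F0 ⟨-32, 32, -64, 64, 0, 32, -64, 64, -32, 32, -64, -64, 0, 672⟩ = true := by decide +kernel

def tree_F0_5p : Tree := .N 6 (.N 6 (.N 3 (.N 1 (.L ⟨[(0, 5), (1, 80), (2, 5), (3, 5), (15, 80), (38, 5), (39, 85), (40, 85), (41, 85), (42, 85), (69, 90)], 210, 164, 0, 416, 480, []⟩) (.L ⟨[(1, 119), (2, 7), (15, 119), (38, 7), (39, 126), (40, 112), (41, 119), (42, 119), (69, 126)], 0, 316, 0, 960, 701, []⟩)) (.N 1 (.N 0 (.L ⟨[(0, 162), (1, 20), (2, 3), (3, 162), (15, 20), (37, 3), (39, 23), (40, 23), (41, 74), (69, 185)], 1167,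 0, 0, 1440, 1311, []⟩) (.L ⟨[(0, 69), (1, 20), (2, 3), (3, 69), (15, 20), (37, 3), (39, 23), (40, 23), (41, 74), (69, 92)], 0, 0, 0, 477, 720, []⟩)) (.N 0 (.N 4 (.N 1 (.L ⟨[(0, 63), (1, 7), (3, 42), (5, 21), (15, 7), (39, 7), (40, 7), (41, 70), (69, 70)], 0, 0, 0, 960, 437, []⟩) (.N 1 (.L ⟨[(0, 603), (1, 100), (2, 36), (3, 603), (15, 100), (35, 30), (37, 6), (39, 136), (40, 136), (41, 703), (69, 739)], 0, 0, 0, 11520, 5172, []⟩) (.L ⟨[(0, 45), (1, 49), (5, 27), (7, 18), (15, 46), (16, 3), (39, 49), (41, 94), (42, 94), (69, 94)], 0, 0, 0, 960, 418, []⟩))) (.N 2 (.N 1 (.L ⟨[(0, 9), (3, 9), (69, 9)], 5, 0, 0, 120, 111, []⟩) (.N 3 (.L ⟨[], 0, 0, 0, 6, 5, []⟩) (.N 4 (.N 1 (.L ⟨[(0, 2), (3, 2), (69, 2)], 0, 0, 0, 30, 23, []⟩) (.N 2 (.L ⟨[(0, 1170), (1, 1163), (2, 24), (5, 816), (7, 354), (15, 1163), (32, 24), (39, 1187), (41, 2333), (42, 2333),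 (69, 2357)], 0, 0, 0, 21648, 23040, []⟩) (.L ⟨[], 0, 0, 0, 1, 0, []⟩))) (.L ⟨[(0, 1), (3, 1), (69, 1)], 0, 0, 0, 30, 29, []⟩)))) (.L ⟨[(0, 9), (3, 9), (69, 9)], 0, 0, 0, 240, 94, []⟩))) (.N 4 (.L ⟨[(1, 59), (2, 1), (15, 59), (38, 1), (40, 34), (41, 34), (69, 60)], 0, 0, 0, 0, 0, []⟩) (.N 3 (.L ⟨[(0, 25), (1, 80), (2, 5), (3, 25), (15, 80), (38, 5), (39, 85), (40, 85), (41, 105), (42, 65), (69, 110)], 0, 0, 0, 921, 960, []⟩) (.N 1 (.L ⟨[(0, 74), (1, 4), (2, 2), (3, 74), (15, 4), (35, 2), (39, 6), (40, 6), (41, 37), (69, 80)], 0, 0, 0, 778, 960, []⟩) (.N 2 (.N 3 (.L ⟨[(0, 25), (1, 145), (2, 5), (3, 25), (15, 145), (38, 5), (39, 150), (40, 20), (41, 170), (69, 175)], 0, 0, 0, 1221, 1920, []⟩) (.N 1 (.L ⟨[(0, 5), (3, 5), (69, 5)], 0, 0, 0, 47, 60, []⟩) (.N 4 (.N 0 (.N 6 (.L ⟨[(0, 27), (1, 58), (2, 10), (3, 5), (5, 22), (15, 58), (30, 10), (39,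 68), (42, 85), (69, 95)], 0, 0, 0, 600, 600, []⟩) (.N 1 (.L ⟨[(0, 108), (1, 20), (2, 3), (3, 108), (15, 20), (37, 3), (39, 23), (40, 23), (41, 74), (69, 131)], 0, 0, 0, 1308, 1440, []⟩) (.N 6 (.L ⟨[(0, 392), (1, 571), (2, 104), (5, 208), (7, 184), (15, 571), (32, 104), (39, 675), (40, 675), (41, 963), (42, 963), (69, 1067)], 0, 0, 0, 7080, 7680, []⟩) (.N 2 (.L ⟨[(0, 318), (1, 687), (2, 60), (3, 60), (5, 258), (15, 687), (32, 60), (39, 747), (42, 1005), (69, 1065)], 0, 0, 0, 8320, 9600, []⟩) (.L ⟨[(0, 742), (1, 1133), (2, 40), (5, 152), (7, 590), (15, 1133), (32, 40), (39, 1173), (41, 1875), (42, 1875), (69, 1915)], 0, 0, 0, 12864, 15360, []⟩))))) (.L ⟨[(1, 30), (15, 30), (69, 30)], 0, 0, 0, 7, 25, []⟩)) (.N 0 (.L ⟨[(0, 594), (1, 1183), (7, 522), (9, 72), (15, 1063), (16, 120), (39, 1183), (41, 1777), (42, 1777), (69, 1777)], 0, 0, 0, 13248,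 23040, []⟩) (.L ⟨[(2, 1), (27, 1), (69, 1)], 0, 0, 0, 0, 30, []⟩))))) (.N 3 (.L ⟨[(0, 20), (1, 82), (2, 3), (3, 20), (15, 82), (38, 3), (39, 85), (40, 17), (41, 102), (69, 105)], 0, 0, 0, 947, 960, []⟩) (.N 1 (.L ⟨[(0, 11), (3, 11), (69, 11)], 0, 0, 0, 120, 109, []⟩) (.N 0 (.N 4 (.L ⟨[(0, 1), (1, 1), (3, 1), (15, 1), (69, 2)], 0, 0, 0, 30, 0, []⟩) (.L ⟨[(0, 111), (1, 107), (2, 24), (3, 63), (5, 48), (15, 107), (32, 24), (39, 131), (40, 131), (42, 218), (69, 242)], 0, 0, 0, 2880, 2064, []⟩)) (.N 4 (.L ⟨[(0, 1), (1, 29), (3, 1), (15, 29), (69, 30)], 0, 0, 0, 27, 23, []⟩) (.N 6 (.L ⟨[(0, 27), (1, 58), (2, 10), (3, 5), (5, 22), (15, 58), (30, 10), (39, 68), (42, 85), (69, 95)], 0, 0, 0, 600, 600, []⟩) (.N 1 (.L ⟨[(0, 140), (1, 33), (2, 1), (3, 140), (15, 33), (38, 1), (39, 34), (41, 34), (69, 174)], 0, 0, 0, 1786, 1920, []⟩) (.N 6 (.L ⟨[(0, 284),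 (1, 547), (2, 104), (5, 52), (7, 232), (15, 547), (32, 104), (39, 651), (40, 651), (41, 831), (42, 831), (69, 935)], 0, 0, 0, 5876, 6240, []⟩) (.N 2 (.L ⟨[(0, 334), (1, 1101), (2, 100), (5, 294), (7, 40), (15, 1101), (32, 100), (39, 1201), (42, 1435), (69, 1535)], 0, 0, 0, 11080, 12800, []⟩) (.L ⟨[(0, 1818), (1, 3805), (2, 156), (7, 1542), (9, 276), (15, 3805), (32, 156), (39, 3961), (41, 5623), (42, 5623), (69, 5779)], 0, 0, 0, 38544, 46080, []⟩)))))))))))))))) (.N 3 (.N 3 (.L ⟨[], 0, 1, 0, 0, 0, []⟩) (.N 6 (.N 3 (.L ⟨[], 0, 1, 0, 0, 0, []⟩) (.N 1 (.N 0 (.L ⟨[(1, 33), (15, 33), (38, 3), (39, 33), (40, 33), (41, 33), (42, 33), (59, 1), (60, 1), (69, 30)], 240, 0, 0, 129, 138, []⟩) (.L ⟨[(1, 108), (3, 3), (15, 108), (38, 9), (39, 108), (40, 108), (41, 108), (42, 108), (57, 1), (59, 3), (60, 1), (69, 105)], 198, 0, 0, 255, 480, []⟩)) (.N 0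 (.L ⟨[(1, 33), (15, 33), (38, 3), (39, 33), (40, 33), (41, 33), (42, 33), (59, 1), (60, 1), (69, 30)], 38, 0, 0, 480, 218, []⟩) (.L ⟨[(1, 90), (15, 102), (38, 9), (39, 90), (40, 90), (41, 90), (42, 90), (58, 4), (59, 3), (69, 90)], 0, 0, 0, 480, 398, []⟩)))) (.L ⟨[(15, 42), (38, 9), (58, 14), (59, 3)], 0, 0, 0, 0, 0, []⟩))) (.N 3 (.N 1 (.N 4 (.L ⟨[(0, 6), (1, 10), (2, 1), (3, 6), (15, 10), (38, 1), (39, 11), (40, 5), (41, 16), (60, 1), (69, 14)], 120, 0, 0, 0, 52, []⟩) (.N 0 (.L ⟨[(0, 360), (2, 54), (3, 360), (37, 27), (38, 27), (39, 54), (40, 54), (41, 360), (60, 68), (69, 210)], 4320, 0, 0, 3042, 3582, []⟩) (.L ⟨[(0, 9), (1, 5), (2, 2), (3, 9), (15, 5), (38, 2), (39, 7), (40, 7), (41, 14), (60, 3), (69, 7)], 0, 0, 0, 105, 160, []⟩))) (.N 2 (.N 4 (.N 0 (.N 0 (.L ⟨[], 2, 0, 0, 5, 0, []⟩) (.L ⟨[(0, 14), (1, 32), (2, 4), (3, 14), (15, 32),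 (38, 4), (39, 36), (40, 10), (41, 46), (60, 5), (69, 35)], 0, 0, 0, 480, 254, []⟩)) (.L ⟨[(1, 16), (2, 1), (15, 16), (38, 1), (39, 16), (41, 16), (60, 1), (69, 14)], 0, 0, 0, 52, 80, []⟩)) (.N 0 (.L ⟨[(0, 669), (1, 312), (2, 231), (3, 669), (15, 312), (38, 231), (39, 543), (40, 543), (41, 981), (42, 105), (60, 376), (69, 84)], 0, 0, 0, 20160, 17493, []⟩) (.L ⟨[(0, 18), (1, 261), (2, 27), (3, 18), (15, 261), (38, 27), (39, 288), (41, 279), (42, 9), (60, 35), (69, 201)], 0, 0, 0, 1936, 3840, []⟩))) (.N 0 (.L ⟨[(0, 42), (2, 9), (3, 42), (38, 9), (60, 17)], 0, 0, 0, 4320, 396, []⟩) (.N 4 (.L ⟨[(0, 23), (1, 229), (2, 27), (3, 23), (15, 229), (37, 27), (41, 252), (60, 23), (69, 210)], 0, 0, 0, 1380, 0, []⟩) (.L ⟨[(0, 4), (1, 21), (2, 4), (3, 4), (15, 21), (38, 4), (39, 25), (40, 3), (41, 25), (42, 3), (60, 6), (69, 11)], 0, 0, 0, 238, 240, []⟩)))))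 (.N 1 (.N 0 (.L ⟨[(0, 101), (2, 6), (3, 101), (38, 6), (39, 6), (41, 6), (60, 11), (69, 74)], 1920, 0, 0, 530, 588, []⟩) (.L ⟨[(0, 3549), (2, 252), (3, 3549), (36, 27), (38, 225), (39, 252), (60, 448), (69, 2457)], 0, 0, 0, 15471, 25920, []⟩)) (.N 2 (.N 4 (.N 0 (.N 1 (.L ⟨[(0, 4470), (2, 897), (3, 3363), (5, 1107), (38, 897), (39, 897), (40, 621), (41, 4470), (60, 1651), (69, 414)], 1380, 0, 0, 66240, 41262, []⟩) (.N 1 (.L ⟨[(0, 900), (2, 102), (3, 639), (5, 261), (38, 102), (39, 102), (40, 102), (41, 900), (60, 191), (69, 429)], 0, 0, 0, 15360, 7173, []⟩) (.N 0 (.L ⟨[], 0, 0, 0, 1, 0, []⟩) (.L ⟨[(0, 431), (1, 268), (5, 347), (7, 84), (15, 92), (16, 176), (39, 268), (41, 699), (42, 375), (60, 36), (69, 591)], 0, 0, 0, 7680, 4864, []⟩)))) (.L ⟨[(1, 1), (15, 1), (69, 1)], 0, 0, 0, 0, 0, []⟩)) (.N 0 (.N 6 (.N 1 (.L ⟨[(0, 293), (2, 30), (3, 60),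 (5, 233), (36, 7), (38, 23), (39, 30), (41, 293), (42, 293), (60, 60), (69, 143)], 0, 0, 0, 3321, 3840, []⟩) (.N 4 (.N 1 (.L ⟨[(0, 36), (3, 9), (5, 27), (41, 36), (42, 36), (60, 1), (69, 33)], 0, 0, 0, 480, 379, []⟩) (.N 2 (.N 3 (.L ⟨[], 0, 0, 0, 15, 11, []⟩) (.L ⟨[(0, 729), (1, 266), (2, 62), (3, 382), (5, 347), (15, 266), (30, 62), (39, 328), (42, 995), (60, 13), (69, 1018)], 0, 0, 0, 15360, 11332, []⟩)) (.L ⟨[], 0, 0, 0, 1, 0, []⟩))) (.L ⟨[(0, 1), (3, 1), (69, 1)], 0, 0, 0, 30, 29, []⟩))) (.L ⟨[(0, 1832), (2, 475), (5, 474), (7, 1358), (36, 400), (38, 75), (39, 475), (41, 1832), (42, 1832), (60, 769)], 0, 0, 0, 20800, 24000, []⟩)) (.N 1 (.L ⟨[(0, 414), (2, 81), (3, 414), (37, 27), (38, 54), (39, 81), (40, 81), (41, 414), (60, 116), (69, 147)], 0, 0, 0, 4266, 6480, []⟩) (.N 6 (.N 3 (.L ⟨[(0, 89), (1, 457), (2, 33), (3, 89), (15, 457), (38,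 33), (39, 490), (40, 56), (41, 546), (60, 32), (69, 483)], 0, 0, 0, 4738, 7680, []⟩) (.N 6 (.N 1 (.L ⟨[(0, 891), (2, 9), (3, 891), (38, 9), (39, 9), (40, 9), (41, 18), (60, 16), (69, 852)], 0, 0, 0, 8634, 11520, []⟩) (.N 4 (.N 0 (.N 2 (.L ⟨[(0, 2442), (1, 2591), (2, 360), (7, 2346), (9, 96), (15, 2591), (32, 216), (34, 144), (39, 2951), (41, 5033), (42, 5033), (60, 264), (69, 4601)], 0, 0, 0, 32520, 46080, []⟩) (.L ⟨[(0, 5118), (1, 5929), (2, 1008), (7, 4638), (9, 480), (15, 5929), (32, 936), (34, 72), (39, 6937), (41, 11047), (42, 11047), (60, 552), (69, 10399)], 0, 0, 0, 77040, 92160, []⟩)) (.L ⟨[(1, 30), (15, 30), (69, 30)], 0, 0, 0, 13, 20, []⟩)) (.N 0 (.L ⟨[(0, 1314), (1, 2135), (7, 1242), (9, 72), (15, 1787), (16, 348), (39, 2135), (41, 3449), (42, 3449), (60, 36), (69, 3341)], 0, 0, 0, 25368, 46080, []⟩) (.L ⟨[(1, 1), (15, 1), (69,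 1)], 0, 0, 0, 0, 15, []⟩)))) (.L ⟨[(0, 640), (1, 740), (2, 438), (5, 292), (7, 348), (15, 740), (36, 365), (38, 73), (39, 1178), (60, 606)], 0, 0, 0, 12702, 17520, []⟩))) (.L ⟨[(0, 14832), (1, 19227), (2, 9000), (7, 13032), (9, 1800), (15, 19227), (36, 7200), (38, 1800), (60, 14353)], 0, 0, 0, 262800, 432000, []⟩))))) (.N 4 (.L ⟨[(0, 396), (1, 234), (2, 195), (3, 396), (18, 150), (20, 84), (37, 153), (38, 42), (39, 429), (41, 630), (52, 63), (60, 275)], 0, 0, 0, 10080, 0, []⟩) (.N 0 (.N 0 (.L ⟨[(0, 3519), (2, 1239), (7, 1311), (9, 2208), (34, 1239), (39, 1239), (41, 3519), (42, 3519), (60, 1586)], 45201, 0, 0, 95160, 10309, []⟩) (.L ⟨[(0, 963), (2, 198), (5, 963), (36, 90), (38, 108), (39, 198), (41, 963), (42, 963), (60, 352), (69, 105)], 0, 0, 0, 17280, 8604, []⟩)) (.N 1 (.L ⟨[(0, 75), (2, 9), (3, 75), (38, 9), (39, 9), (40, 9), (41, 18),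 (60, 16), (69, 36)], 0, 0, 0, 864, 783, []⟩) (.N 6 (.N 3 (.L ⟨[(0, 11), (1, 33), (2, 5), (3, 11), (15, 33), (38, 5), (39, 38), (40, 6), (41, 44), (60, 7), (69, 28)], 0, 0, 0, 480, 480, []⟩) (.N 6 (.N 1 (.L ⟨[(0, 5994), (2, 325), (3, 3990), (5, 2004), (38, 325), (39, 325), (40, 325), (41, 5994), (60, 652), (69, 4363)], 0, 0, 0, 59022, 61440, []⟩) (.N 0 (.N 4 (.L ⟨[(0, 1), (1, 1), (3, 1), (15, 1), (69, 2)], 0, 0, 0, 30, 0, []⟩) (.L ⟨[(0, 319), (1, 223), (2, 80), (3, 128), (5, 191), (15, 223), (32, 80), (39, 303), (40, 303), (42, 542), (60, 16), (69, 574)], 0, 0, 0, 7680, 5376, []⟩)) (.N 4 (.L ⟨[(1, 30), (15, 30), (69, 30)], 0, 0, 0, 17, 14, []⟩) (.N 2 (.L ⟨[(0, 534), (1, 773), (2, 144), (7, 366), (9, 168), (15, 773), (32, 144), (39, 917), (41, 1307), (42, 1307), (60, 72), (69, 1235)], 0, 0, 0, 8184, 11520, []⟩) (.L ⟨[(0, 1014), (1, 1751), (2,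 300), (7, 546), (9, 468), (15, 1751), (32, 300), (39, 2051), (41, 2765), (42, 2765), (60, 144), (69, 2633)], 0, 0, 0, 19272, 23040, []⟩))))) (.L ⟨[(0, 366), (1, 300), (2, 219), (7, 366), (15, 300), (36, 219), (39, 519), (60, 295)], 0, 0, 0, 6570, 5256, []⟩))) (.L ⟨[(0, 1418), (1, 2073), (2, 1168), (7, 834), (9, 584), (15, 2073), (36, 1168), (39, 3241), (60, 1553)], 0, 0, 0, 35040, 27448, []⟩)))))))))) (.N 3 (.L ⟨[(15, 42), (38, 9), (58, 14), (59, 3)], 0, 0, 0, 0, 0, []⟩) (.N 6 (.N 1 (.L ⟨[(3, 42), (38, 9), (57, 14), (59, 3)], 0, 0, 0, 0, 0, []⟩) (.N 3 (.N 0 (.N 4 (.L ⟨[(1, 14313), (2, 2277), (9, 8208), (15, 14313), (36, 5013), (38, 1368), (39, 16590), (41, 14313), (42, 14313), (57, 2736), (59, 1368), (60, 5530)], 15048, 0, 0, 82080, 12312, []⟩) (.L ⟨[(1, 1509), (2, 360), (9, 1056), (15, 1509), (36, 888), (39, 1869), (40, 1869), (41, 1509),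 (42, 1509), (57, 352), (59, 176), (60, 623)], 0, 0, 0, 5280, 1056, []⟩)) (.L ⟨[(1, 1749), (2, 984), (9, 672), (11, 192), (15, 1749), (36, 984), (39, 2733), (40, 2733), (41, 1749), (42, 1749), (57, 288), (60, 911)], 0, 0, 0, 2880, 1632, []⟩)) (.N 6 (.N 3 (.L ⟨[(0, 672), (1, 504), (2, 771), (9, 1134), (11, 105), (15, 504), (34, 771), (39, 1275), (40, 1275), (41, 1176), (42, 1176), (57, 189), (60, 649)], 0, 0, 0, 0, 0, []⟩) (.L ⟨[(0, 25641), (1, 13167), (2, 21813), (9, 41202), (11, 2394), (15, 13167), (34, 25404), (39, 34980), (40, 34980), (41, 38808), (42, 38808), (57, 5985), (59, 1197), (60, 20207), (64, 16758)], 0, 0, 0, 0, 0, []⟩)) (.L ⟨[(0, 1410), (1, 90), (2, 1110), (9, 1770), (11, 90), (15, 90), (34, 1110), (39, 1200), (40, 1200), (41, 835), (42, 1500), (57, 150), (60, 870), (64, 3674)], 0, 0, 0, 0, 0, []⟩)))) (.L ⟨[(38, 15), (59, 5),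 (64, 336)], 0, 0, 0, 0, 0, []⟩)))

theorem ok_F0_5p : tree_F0_5p.check prm_F0 ⟨-32, 32, -64, 64, 0, 32, -64, 64, -32, 32, 64, 64, 0, 672⟩ = true := by decide +kernel

end Pool.Agent.H30.P6
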