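import Pool.Agent.H30.P6.Base

/-! certificate F1 (generated) -/

set_option autoImplicit false
set_option maxRecDepth 100000

namespace Pool.Agent.H30.P6

def prm_F1 : Prm := ⟨64, 512, base ++ [⟨0, 0, 0, 0, 0, 0, 0, -16, 16, 0, 0, 0, 0, 0, 0, 0, 0, 0, 1, 0, 0⟩], []⟩

def tree_F1_0m : Tree := .N 1 (.L ⟨[], 1, 0, 0, 0, 0, []⟩) (.N 6 (.N 1 (.L ⟨[], 1, 0, 0, 0, 0, []⟩) (.N 2 (.N 6 (.N 3 (.L ⟨[], 2, 0, 0, 15, 0, []⟩) (.N 3 (.L ⟨[], 7, 0, 0, 15, 0, []⟩) (.N 3 (.L ⟨[], 3, 0, 0, 5, 0, []⟩) (.N 4 (.N 3 (.L ⟨[], 7, 0, 0, 10, 0, []⟩) (.N 4 (.N 2 (.N 5 (.L ⟨[(2, 1), (28, 1), (69, 1)], 5, 0, 0, 3, 0, []⟩) (.L ⟨[(1, 519), (2, 538), (15, 519), (32, 484), (34, 54), (39, 1057), (40, 1057), (41, 270), (42, 519), (69, 1057)], 6264, 0, 0, 6480, 2268, []⟩)) (.L ⟨[], 23, 0, 0, 30, 0, []⟩)) (.L ⟨[(2, 3), (28, 3), (69, 3)], 53, 0, 0, 60, 37, []⟩))) (.L ⟨[(2, 4), (28, 4), (69, 4)], 53, 0,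 0, 60, 46, []⟩))))) (.N 3 (.L ⟨[(14, 9), (15, 42), (57, 3), (58, 14)], 0, 534, 0, 2880, 0, []⟩) (.N 3 (.L ⟨[], 1, 0, 0, 6, 0, []⟩) (.N 2 (.N 5 (.L ⟨[(0, 3), (2, 73), (11, 3), (30, 91), (39, 73), (40, 69), (42, 3), (59, 6), (69, 76)], 461, 0, 0, 480, 0, []⟩) (.N 6 (.N 4 (.N 1 (.L ⟨[], 1, 0, 0, 0, 0, []⟩) (.N 3 (.L ⟨[], 2, 0, 0, 5, 0, []⟩) (.N 6 (.N 4 (.N 3 (.L ⟨[(0, 382), (1, 4049), (2, 5673), (11, 382), (21, 4049), (32, 4145), (34, 1528), (39, 9722), (40, 9722), (42, 4431), (60, 3368)], 427076, 0, 0, 733440, 7258, []⟩) (.N 4 (.N 1 (.L ⟨[(0, 3), (2, 3), (9, 3), (32, 3), (60, 2)], 240, 0, 0, 42, 21, []⟩) (.N 5 (.L ⟨[(2, 1), (28, 1), (69, 1)], 5, 0, 0, 2, 0, []⟩) (.N 4 (.N 3 (.N 6 (.N 5 (.L ⟨[(2, 3), (28, 3), (69, 3)], 44, 0, 0, 60, 17, []⟩) (.L ⟨[(1, 705), (2, 554), (15, 597), (17, 108), (32, 356), (34, 198), (39, 1259), (40, 1259), (42, 705), (60, 54), (69, 1097)],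 8730, 0, 0, 11520, 2670, []⟩)) (.L ⟨[(0, 1953), (1, 4020), (2, 6351), (11, 1953), (19, 4020), (32, 4398), (34, 1953), (39, 10371), (40, 10371), (42, 5973), (60, 4108)], 185535, 0, 0, 234360, 13671, []⟩)) (.L ⟨[(0, 2089), (1, 40), (2, 1952), (3, 2073), (5, 16), (15, 40), (30, 1128), (32, 824), (60, 40), (69, 3961)], 0, 0, 0, 30720, 21800, []⟩)) (.L ⟨[(0, 2001), (2, 5561), (5, 228), (7, 1773), (30, 4535), (32, 1026), (39, 5561), (42, 2001), (60, 684), (69, 5510)], 65208, 0, 0, 109440, 85614, []⟩)))) (.L ⟨[(0, 96), (2, 904), (11, 96), (28, 72), (30, 832), (39, 904), (42, 96), (60, 127), (69, 619)], 10800, 0, 0, 11520, 10392, []⟩))) (.L ⟨[(0, 885), (2, 4987), (11, 885), (30, 4615), (32, 372), (39, 4987), (42, 885), (60, 1116), (69, 2524)], 79236, 0, 0, 89280, 75144, []⟩)) (.L ⟨[(0, 1146), (1, 22983), (2, 29415), (11, 1146), (21, 22983), (32, 20247), (34, 9168), (39, 52398),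 (40, 52398), (42, 24129), (60, 17848)], 749484, 0, 0, 1100160, 65322, []⟩)))) (.L ⟨[(0, 90), (2, 340), (11, 90), (30, 216), (32, 124), (39, 340), (40, 187), (42, 90), (60, 115), (69, 85)], 4800, 0, 0, 4135, 4100, []⟩)) (.N 4 (.N 3 (.L ⟨[(0, 25410), (1, 36093), (2, 63096), (11, 25410), (17, 36093), (32, 44616), (34, 18480), (39, 99189), (40, 99189), (42, 61503), (60, 41533)], 1720950, 0, 0, 2217600, 378840, []⟩) (.L ⟨[(0, 43), (2, 41), (9, 43), (32, 31), (34, 10), (39, 41), (40, 41), (42, 43), (60, 28)], 600, 0, 0, 560, 180, []⟩)) (.L ⟨[(2, 11475), (11, 3717), (30, 4275), (32, 7200), (39, 11475), (40, 11475), (57, 1239), (60, 3825)], 99120, 0, 0, 69797, 92512, []⟩)))) (.L ⟨[], 1, 0, 0, 2, 0, []⟩))))) (.L ⟨[], 0, 0, 0, 1, 0, []⟩))) (.N 2 (.N 1 (.N 6 (.L ⟨[], 1, 0, 0, 0, 0, []⟩) (.L ⟨[(11, 3), (57, 1), (67, 15)], 60, 0, 0, 0, 0, []⟩)) (.N 6 (.N 5 (.L ⟨[(14, 117), (27,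 546), (57, 39), (59, 182)], 5760, 0, 0, 0, 0, []⟩) (.N 3 (.L ⟨[(14, 9), (15, 42), (57, 3), (58, 14)], 105, 0, 0, 720, 0, []⟩) (.N 3 (.L ⟨[(1, 17901), (2, 3882), (19, 10881), (21, 7020), (34, 9705), (39, 21783), (40, 21783), (42, 17901), (59, 1941), (60, 7261)], 279504, 0, 0, 29813760, 0, []⟩) (.N 2 (.N 4 (.N 5 (.L ⟨[(0, 4101), (1, 1311), (2, 10143), (11, 4101), (15, 1311), (30, 1311), (32, 8832), (39, 11454), (40, 11454), (42, 5412), (60, 5185)], 78660, 0, 0, 56373, 31464, []⟩) (.N 4 (.L ⟨[(0, 19392), (1, 25767), (2, 18144), (9, 6048), (11, 13344), (15, 25767), (34, 12096), (36, 6048), (39, 43911), (40, 43911), (41, 45159), (42, 45159), (60, 21101)], 362880, 0, 0, 211680, 181440, []⟩) (.L ⟨[(0, 10029), (2, 9003), (7, 630), (9, 9399), (32, 6483), (34, 2520), (39, 9003), (40, 9003), (42, 10029), (60, 6344)], 74340, 0, 0, 100800, 151200, []⟩))) (.N 5 (.L ⟨[(2, 2406),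 (9, 354), (11, 1239), (30, 1941), (32, 2058), (39, 2406), (40, 2406), (57, 531), (59, 531), (60, 802)], 21240, 0, 0, 5841, 18408, []⟩) (.L ⟨[(2, 3225), (9, 2973), (11, 516), (32, 4773), (39, 3225), (40, 3225), (57, 1163), (59, 516), (60, 1075)], 10836, 0, 0, 6708, 30960, []⟩))) (.L ⟨[(2, 3999), (7, 1032), (9, 3417), (32, 3225), (34, 774), (39, 3999), (57, 1483), (60, 1333)], 54180, 0, 0, 123840, 0, []⟩))))) (.L ⟨[(11, 3), (57, 1), (67, 15)], 30, 0, 0, 0, 0, []⟩))) (.N 3 (.L ⟨[(11, 1419), (18, 3225), (20, 600), (57, 473), (58, 1275)], 3784, 13717, 0, 28380, 0, []⟩) (.N 1 (.L ⟨[(7, 3225), (9, 600), (22, 1419), (57, 1275), (58, 473)], 11352, 0, 0, 28380, 0, []⟩) (.L ⟨[(7, 65), (9, 43), (20, 18), (22, 36), (57, 36), (58, 18), (64, 37)], 0, 0, 0, 1080, 0, []⟩)))))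

theorem ok_F1_0m : tree_F1_0m.check prm_F1 ⟨-64, -64, -128, 128, -64, 64, -128, 128, -64, 64, -128, 128, 0, 672⟩ = true := by decide +kernel

def tree_F1_0p : Tree := .N 6 (.N 2 (.L ⟨[(0, 33380), (1, 129330), (2, 17040), (6, 12780), (8, 20600), (15, 129330), (36, 10650), (38, 6390), (40, 146370), (41, 162710), (42, 162710), (46, 14637), (69, 179750)], 0, 511200, 0, 0, 0, []⟩) (.N 1 (.L ⟨[(0, 60), (1, 210), (10, 60), (15, 210), (40, 210), (41, 180), (46, 21), (53, 7), (69, 270)], 0, 693, 840, 0, 0, []⟩) (.L ⟨[(0, 78), (1, 347), (10, 26), (12, 52), (15, 347), (40, 347), (41, 425), (42, 245), (69, 425)], 0, 390, 780, 0, 0, []⟩))) (.N 2 (.L ⟨[(1, 14190), (8, 22404), (19, 18060), (21, 4644), (40, 14190), (48, 1419), (57, 7468), (58, 2838), (69, 14190)], 0, 42570, 0, 0, 0, []⟩) (.N 4 (.L ⟨[(1, 6450), (10, 4257), (15, 7998), (33, 5142), (35, 129), (40, 3999), (41, 6450),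 (48, 645), (51, 645), (57, 1419), (58, 516), (59, 1757), (69, 6450)], 0, 5160, 0, 0, 0, []⟩) (.N 5 (.N 5 (.N 4 (.L ⟨[(8, 3), (33, 3), (57, 1), (59, 1)], 0, 0, 60, 0, 0, []⟩) (.L ⟨[], 0, 0, 1, 0, 0, []⟩)) (.L ⟨[(1, 285), (2, 165), (8, 90), (10, 213), (15, 690), (35, 165), (40, 45), (48, 45), (57, 101), (58, 135), (69, 450)], 0, 0, 43200, 0, 0, []⟩)) (.N 1 (.L ⟨[(0, 12900), (1, 220590), (8, 82200), (10, 12900), (15, 239940), (37, 38700), (41, 233490), (47, 22059), (57, 27400), (58, 6450), (59, 12900), (69, 233490)], 0, 0, 774000, 0, 0, []⟩) (.L ⟨[(1, 420), (10, 51), (12, 75), (15, 420), (40, 420), (41, 420), (48, 28), (49, 14), (57, 42), (66, 87), (69, 420)], 0, 0, 840, 0, 0, []⟩)))))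

theorem ok_F1_0p : tree_F1_0p.check prm_F1 ⟨64, 64, -128, 128, -64, 64, -128, 128, -64, 64, -128, 128, 0, 672⟩ = true := by decide +kernel

def tree_F1_1m : Tree := .N 6 (.N 3 (.N 3 (.L ⟨[], 0, 1, 0, 0, 0, []⟩) (.N 0 (.L ⟨[], 1, 0, 0, 0, 0, []⟩) (.L ⟨[(0, 901), (2, 200), (3, 901), (34, 140), (36, 60), (39, 200), (40, 200), (41, 125), (42, 901), (46, 20), (69, 1101)], 4140, 9600, 0, 0, 0, []⟩))) (.L ⟨[(0, 2617), (1, 50), (2, 660), (3, 2617), (23, 50), (34, 660), (39, 710), (40, 710), (42, 2667), (46, 71), (69, 3327)], 34080, 0, 0, 0, 3905, []⟩)) (.N 3 (.N 3 (.N 6 (.L ⟨[], 0, 1, 0, 0, 0, []⟩) (.N 2 (.L ⟨[(3, 60), (23, 15), (57, 20), (58, 5), (63, 138), (65, 75)], 0, 800, 0, 0, 0, []⟩) (.L ⟨[(3, 60), (22, 15), (57, 20), (58, 5), (63, 138), (68, 75)], 0, 800, 0, 0, 0, []⟩))) (.L ⟨[(3, 42), (26, 9), (57, 14), (58, 3)], 0, 480, 0, 0, 0, []⟩)) (.L ⟨[(3, 42), (26, 9), (57,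 14), (58, 3)], 0, 0, 0, 0, 0, []⟩))

theorem ok_F1_1m : tree_F1_1m.check prm_F1 ⟨-64, 64, -128, -128, -64, 64, -128, 128, -64, 64, -128, 128, 0, 672⟩ = true := by decide +kernel

def tree_F1_1p : Tree := .N 6 (.N 6 (.N 2 (.N 0 (.N 3 (.L ⟨[(0, 28), (1, 140), (12, 27), (14, 1), (15, 140), (40, 140), (41, 168), (42, 168), (69, 168)], 0, 17, 0, 1920, 1284, []⟩) (.N 5 (.N 4 (.L ⟨[(0, 20), (1, 3), (2, 106), (10, 20), (15, 3), (27, 88), (28, 18), (41, 23), (42, 23), (69, 129)], 0, 0, 0, 1440, 849, []⟩) (.L ⟨[(2, 3), (28, 3), (69, 3)], 0, 0, 1, 29, 30, []⟩)) (.N 4 (.N 2 (.N 5 (.L ⟨[(0, 68), (1, 39), (2, 249), (10, 68), (15, 39), (27, 184), (28, 65), (40, 288), (41, 107), (42, 107), (69, 356)], 0, 0, 0, 4160, 3549, []⟩) (.N 2 (.N 5 (.L ⟨[(0, 44), (1, 139), (2, 213), (10, 20), (12, 24), (15, 139), (28, 213), (40, 352), (41, 183), (42, 183), (69, 396)], 0, 0, 0, 3840, 3328, []⟩)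 (.N 2 (.L ⟨[(0, 308), (1, 42511), (2, 24016), (14, 308), (15, 42511), (32, 18556), (34, 5460), (40, 66527), (41, 700), (42, 42819), (69, 66835)], 68796, 0, 0, 430080, 289800, []⟩) (.L ⟨[(0, 70), (1, 1925), (2, 1248), (14, 70), (15, 1925), (30, 84), (32, 1164), (40, 3173), (41, 1134), (42, 1995), (69, 3243)], 0, 0, 0, 26880, 16100, []⟩))) (.L ⟨[(0, 112), (1, 2419), (2, 1648), (14, 112), (15, 2419), (32, 1632), (34, 16), (39, 1747), (40, 4067), (41, 2531), (42, 2531), (69, 4179)], 0, 0, 0, 30720, 17584, []⟩))) (.L ⟨[(0, 14), (1, 1351), (2, 894), (11, 14), (15, 1351), (32, 768), (34, 126), (40, 2245), (42, 1365), (69, 2259)], 0, 0, 0, 26880, 2016, []⟩)) (.L ⟨[(1, 15), (2, 107), (15, 15), (28, 27), (30, 80), (40, 110), (41, 15), (42, 15), (69, 122)], 0, 0, 0, 1260, 1440, []⟩)))) (.L ⟨[(0, 6688), (1, 100917), (2, 20874), (12, 1760), (14, 4928), (15, 100917), (32, 5280),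 (34, 15594), (40, 121791), (41, 107605), (42, 107605), (69, 128479)], 0, 0, 168960, 21120, 0, []⟩)) (.N 0 (.L ⟨[(1, 51), (2, 64), (15, 51), (32, 64), (39, 115), (40, 115), (41, 27), (42, 51), (69, 115)], 0, 0, 0, 4320, 0, []⟩) (.N 3 (.L ⟨[(0, 28), (1, 210), (12, 17), (14, 11), (15, 210), (41, 238), (42, 238), (69, 238)], 0, 561, 143, 1320, 616, []⟩) (.L ⟨[(0, 14), (1, 2065), (2, 1746), (11, 14), (15, 2065), (32, 1704), (34, 42), (39, 630), (40, 3811), (42, 2079), (69, 3825)], 0, 0, 0, 26880, 1624, []⟩)))) (.N 2 (.N 4 (.N 0 (.N 3 (.N 3 (.L ⟨[], 0, 1, 0, 0, 0, []⟩) (.L ⟨[(1, 2376), (12, 192), (14, 456), (15, 3024), (40, 2376), (41, 2376), (42, 2376), (57, 216), (58, 216), (60, 271), (69, 1563)], 0, 0, 0, 23040, 13824, []⟩)) (.N 5 (.L ⟨[(0, 3), (2, 18), (12, 3), (27, 9), (28, 9), (40, 18), (41, 3), (42, 3), (60, 2), (69, 15)], 0, 0, 0, 240, 100, []⟩) (.N 3 (.N 0 (.L ⟨[(0,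 8), (1, 40), (14, 8), (15, 40), (40, 40), (41, 48), (42, 48), (60, 9), (69, 21)], 0, 0, 0, 540, 369, []⟩) (.L ⟨[(0, 216), (1, 1080), (12, 24), (14, 192), (15, 1080), (40, 1080), (41, 1296), (42, 1296), (60, 215), (69, 651)], 0, 0, 0, 11520, 9672, []⟩)) (.N 2 (.N 5 (.L ⟨[(0, 28), (2, 148), (12, 12), (14, 16), (27, 140), (28, 8), (41, 28), (42, 28), (60, 35), (69, 71)], 0, 0, 0, 1800, 1920, []⟩) (.N 4 (.N 2 (.N 2 (.N 3 (.L ⟨[(0, 396), (1, 1144), (2, 552), (10, 304), (12, 92), (15, 1144), (27, 552), (60, 115), (69, 1747)], 0, 0, 0, 21735, 22080, []⟩) (.L ⟨[(0, 56), (1, 2443), (2, 4192), (11, 56), (15, 2443), (30, 1932), (32, 2260), (39, 2464), (40, 6635), (42, 2499), (60, 112), (69, 6355)], 0, 0, 0, 53760, 49728, []⟩)) (.L ⟨[(0, 98), (1, 973), (2, 676), (13, 98), (15, 973), (32, 620), (34, 56), (40, 1649), (42, 1071), (60, 126), (69, 1369)], 0, 0, 0, 13440, 6664, []⟩))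 (.L ⟨[(0, 728), (1, 6923), (2, 4200), (13, 256), (14, 472), (15, 6923), (30, 308), (32, 3892), (40, 11123), (42, 7651), (60, 1036), (69, 8743)], 0, 0, 0, 122880, 55728, []⟩)) (.L ⟨[(0, 10), (1, 22), (2, 118), (13, 5), (14, 5), (15, 22), (28, 118), (40, 20), (42, 32), (60, 15), (69, 105)], 0, 0, 0, 1485, 2400, []⟩))) (.N 0 (.L ⟨[(1, 291), (2, 688), (17, 211), (19, 80), (30, 688), (60, 80), (69, 739)], 0, 0, 0, 19200, 4480, []⟩) (.L ⟨[(0, 8), (1, 105), (2, 88), (11, 8), (15, 105), (32, 84), (34, 4), (40, 193), (42, 113), (60, 8), (69, 177)], 0, 0, 0, 960, 228, []⟩)))))) (.L ⟨[(0, 52), (1, 256), (12, 52), (15, 256), (40, 256), (41, 308), (42, 284), (69, 308)], 0, 52, 0, 0, 117, []⟩)) (.N 3 (.N 5 (.L ⟨[(1, 27176), (12, 301), (14, 4214), (15, 31691), (32, 5928), (40, 27176), (41, 27176), (42, 27176), (57, 1505), (58, 1505), (59, 1976), (69, 27176)], 0, 0, 288960, 155316,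 172172, []⟩) (.L ⟨[(1, 504), (12, 36), (14, 153), (15, 1050), (41, 504), (42, 504), (57, 63), (58, 182), (69, 504)], 0, 513, 0, 3600, 17280, []⟩)) (.N 0 (.N 5 (.L ⟨[(0, 9), (2, 126), (12, 3), (14, 6), (27, 3), (28, 123), (40, 126), (41, 9), (42, 9), (60, 14), (69, 93)], 0, 0, 1440, 1221, 693, []⟩) (.N 2 (.N 5 (.N 0 (.L ⟨[(0, 102), (2, 902), (11, 102), (30, 678), (32, 224), (39, 902), (40, 902), (42, 102), (60, 153), (69, 545)], 0, 0, 3366, 8517, 12240, []⟩) (.L ⟨[(0, 51), (2, 1147), (11, 51), (30, 987), (32, 160), (39, 1147), (40, 1147), (42, 51), (60, 102), (69, 892)], 0, 0, 4607, 5576, 16320, []⟩)) (.L ⟨[(0, 72), (2, 237), (13, 72), (27, 12), (28, 225), (42, 72), (60, 103)], 0, 0, 0, 1116, 11520, []⟩)) (.N 3 (.L ⟨[(0, 12), (1, 41), (2, 57), (12, 4), (14, 8), (15, 41), (28, 57), (40, 98), (41, 53), (42, 53), (60, 12), (69, 74)], 0, 0, 0, 1780, 1920, []⟩) (.N 0 (.L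 ⟨[(1, 357), (2, 3433), (23, 357), (30, 2433), (32, 1000), (39, 3790), (40, 3790), (42, 357), (60, 561), (69, 2107)], 0, 0, 0, 97920, 42942, []⟩) (.L ⟨[(0, 18), (2, 372), (13, 12), (14, 6), (30, 372), (39, 372), (40, 372), (42, 18), (60, 41), (69, 267)], 0, 0, 0, 3840, 3542, []⟩))))) (.N 5 (.L ⟨[(0, 5), (1, 21), (2, 11), (12, 5), (15, 21), (27, 11), (41, 26), (42, 26), (69, 37)], 0, 0, 300, 65, 90, []⟩) (.N 3 (.L ⟨[(0, 154), (1, 1883), (2, 1146), (14, 154), (15, 1883), (30, 462), (32, 684), (40, 3029), (41, 2037), (42, 2037), (60, 77), (69, 2952)], 0, 0, 9240, 8855, 36960, []⟩) (.L ⟨[(2, 120), (28, 24), (30, 96), (39, 48), (40, 120), (60, 3), (69, 111)], 0, 0, 30, 320, 960, []⟩)))))) (.N 0 (.N 3 (.L ⟨[], 0, 11, 0, 15, 0, []⟩) (.L ⟨[(1, 1428), (2, 3047), (17, 549), (19, 879), (30, 549), (32, 2498), (39, 4475), (40, 4475), (42, 1428), (60, 549), (69, 2828)], 0, 0, 0,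 263520, 4941, []⟩)) (.N 3 (.L ⟨[(1, 185), (12, 25), (14, 17), (15, 221), (34, 6), (40, 185), (41, 185), (42, 185), (57, 14), (58, 12), (59, 2), (69, 185)], 0, 402, 0, 1920, 0, []⟩) (.N 2 (.N 3 (.N 5 (.L ⟨[(0, 10), (1, 48), (2, 3), (12, 5), (14, 5), (15, 48), (27, 18), (41, 58), (42, 58), (59, 5), (69, 61)], 0, 0, 225, 300, 0, []⟩) (.L ⟨[(0, 877), (1, 5546), (14, 877), (15, 5546), (32, 648), (40, 5546), (41, 6423), (42, 6423), (59, 216), (60, 648), (69, 4479)], 0, 0, 3672, 51840, 26136, []⟩)) (.L ⟨[(1, 10251), (2, 23115), (15, 10251), (30, 10686), (32, 13704), (39, 33366), (40, 33366), (42, 10251), (59, 425), (60, 340), (69, 32346)], 0, 0, 0, 261120, 37638, []⟩)) (.L ⟨[(0, 36), (1, 555), (2, 662), (14, 36), (15, 555), (30, 542), (32, 156), (40, 1217), (41, 591), (42, 591), (59, 12), (69, 1253)], 0, 0, 0, 11520, 0, []⟩)))))) (.N 6 (.N 3 (.L ⟨[(14, 9), (15, 42), (57,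 3), (58, 14)], 0, 0, 0, 0, 0, []⟩) (.N 5 (.L ⟨[(14, 9), (27, 42), (57, 3), (59, 14)], 0, 0, 0, 0, 0, []⟩) (.N 3 (.N 3 (.L ⟨[(14, 9), (15, 42), (57, 3), (58, 14)], 0, 0, 0, 0, 0, []⟩) (.N 5 (.N 4 (.L ⟨[(0, 5499), (1, 9750), (13, 7011), (15, 7734), (16, 2016), (30, 8568), (32, 504), (39, 9750), (41, 15249), (42, 15249), (57, 504), (59, 3024), (60, 5083)], 0, 0, 0, 0, 0, []⟩) (.N 5 (.L ⟨[(14, 9), (27, 42), (57, 3), (59, 14)], 0, 0, 0, 0, 0, []⟩) (.N 2 (.L ⟨[(0, 2400), (1, 16971), (13, 7200), (14, 2400), (15, 16971), (30, 10848), (32, 2400), (39, 16971), (40, 16971), (41, 19371), (42, 19371), (57, 2400), (59, 4416), (60, 6457)], 0, 0, 0, 33600, 144000, []⟩) (.N 0 (.L ⟨[], 0, 0, 0, 1, 0, []⟩) (.L ⟨[(1, 987), (13, 75), (14, 261), (15, 987), (30, 168), (39, 987), (40, 987), (41, 987), (42, 987), (57, 112), (59, 56), (60, 329)], 0, 0, 5880, 6720, 2744, []⟩))))) (.N 4 (.L ⟨[(0,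 4545), (1, 7665), (11, 2340), (13, 2205), (15, 7665), (34, 2646), (39, 7665), (41, 12210), (42, 12210), (59, 882), (60, 4070)], 0, 0, 0, 0, 0, []⟩) (.N 2 (.L ⟨[(0, 210), (1, 504), (13, 153), (14, 57), (15, 504), (41, 714), (42, 714), (60, 238)], 0, 0, 0, 3591, 437760, []⟩) (.N 0 (.L ⟨[], 0, 0, 0, 1, 0, []⟩) (.L ⟨[(1, 7329), (13, 516), (14, 1836), (15, 7329), (32, 672), (39, 7329), (40, 7329), (41, 7329), (42, 7329), (57, 784), (59, 224), (60, 2443)], 0, 0, 0, 53760, 27440, []⟩)))))) (.N 6 (.N 5 (.N 3 (.N 4 (.L ⟨[(0, 21771), (1, 21558), (11, 7560), (13, 14211), (15, 15510), (16, 6048), (30, 27216), (32, 4536), (39, 21558), (41, 43329), (42, 43329), (59, 10584), (60, 14443)], 0, 0, 0, 0, 0, []⟩) (.N 0 (.N 2 (.L ⟨[(0, 4905), (2, 10788), (11, 1824), (13, 3081), (30, 14124), (32, 624), (39, 10788), (40, 10788), (41, 4905), (42, 4905), (59, 1320), (60, 5231)], 0, 0, 0, 72288,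 92160, []⟩) (.L ⟨[], 0, 0, 0, 1, 0, []⟩)) (.L ⟨[(0, 20736), (1, 29241), (2, 4224), (11, 1056), (13, 19680), (15, 29241), (30, 8448), (32, 17952), (39, 33465), (40, 33465), (41, 49977), (42, 49977), (59, 7392), (60, 18067)], 0, 0, 253440, 85536, 0, []⟩))) (.L ⟨[(0, 13197), (1, 1890), (2, 13419), (11, 13197), (22, 1890), (30, 26019), (32, 2520), (39, 15309), (41, 15087), (42, 15087), (59, 5040), (60, 9502)], 0, 0, 75600, 0, 0, []⟩)) (.N 4 (.L ⟨[(0, 11820), (1, 16947), (11, 10056), (13, 1764), (15, 16065), (16, 882), (34, 7938), (39, 16947), (41, 28767), (42, 28767), (59, 2646), (60, 9589)], 0, 0, 0, 0, 0, []⟩) (.N 0 (.N 2 (.N 0 (.L ⟨[(0, 930), (2, 3195), (11, 1395), (32, 3195), (39, 3195), (40, 3195), (42, 930), (57, 155), (60, 1375), (64, 4047)], 0, 0, 0, 29760, 37200, []⟩) (.L ⟨[(0, 2862), (1, 1311), (2, 6624), (11, 2862), (15, 1311), (32, 6624), (39, 7935), (40, 7935),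 (42, 4173), (60, 3599)], 0, 0, 0, 27531, 39330, []⟩)) (.L ⟨[(0, 87), (2, 207), (11, 87), (30, 161), (32, 46), (42, 87), (60, 98), (64, 46)], 0, 0, 0, 22080, 2622, []⟩)) (.N 2 (.L ⟨[(0, 1908), (1, 1911), (2, 4032), (11, 954), (13, 954), (15, 1911), (32, 4032), (39, 5943), (40, 5943), (42, 3819), (60, 2617)], 0, 0, 5724, 19080, 57240, []⟩) (.N 0 (.L ⟨[(0, 288), (1, 570), (2, 1184), (11, 252), (13, 36), (15, 570), (32, 1184), (39, 1754), (40, 1754), (42, 858), (60, 387), (69, 881)], 0, 0, 747, 17280, 3366, []⟩) (.L ⟨[(0, 28), (1, 1183), (2, 808), (14, 28), (15, 1183), (32, 780), (34, 28), (40, 1991), (42, 1211), (60, 28), (69, 1935)], 0, 0, 0, 3360, 0, []⟩)))))) (.N 5 (.L ⟨[(0, 7920), (1, 2016), (13, 5904), (14, 2016), (16, 720), (18, 1296), (27, 12804), (28, 11223), (39, 2016), (41, 9936), (42, 9936), (59, 8009), (60, 3312)], 0, 0, 34560, 0, 0, []⟩) (.N 3 (.N 0 (.L ⟨[(0,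 36400), (1, 46400), (11, 43645), (15, 39155), (16, 7245), (32, 18285), (34, 22080), (39, 46400), (41, 82800), (42, 82800), (57, 2415), (59, 13455), (60, 27600), (64, 32697)], 0, 0, 0, 0, 0, []⟩) (.N 2 (.L ⟨[(0, 6146), (1, 7843), (11, 4214), (13, 1932), (15, 7843), (32, 7728), (34, 966), (39, 2898), (40, 7843), (42, 13989), (59, 2898), (60, 4663)], 0, 0, 0, 8694, 0, []⟩) (.L ⟨[(0, 91), (1, 107), (2, 33), (11, 11), (13, 80), (15, 107), (32, 88), (34, 11), (39, 140), (40, 140), (41, 198), (42, 198), (59, 22), (60, 77), (64, 222)], 0, 0, 0, 660, 0, []⟩))) (.L ⟨[(0, 11845), (2, 10655), (11, 9345), (13, 2500), (30, 1000), (32, 17155), (39, 10655), (41, 11845), (42, 11845), (59, 2500), (60, 7500), (64, 58787)], 0, 0, 24000, 0, 0, []⟩))))))) (.L ⟨[(14, 15), (57, 5), (64, 336)], 0, 0, 0, 0, 0, []⟩))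

theorem ok_F1_1p : tree_F1_1p.check prm_F1 ⟨-64, 64, 128, 128, -64, 64, -128, 128, -64, 64, -128, 128, 0, 672⟩ = true := by decide +kernel

def tree_F1_2m : Tree := .N 6 (.N 3 (.N 3 (.L ⟨[], 0, 1, 0, 0, 0, []⟩) (.N 5 (.N 4 (.N 0 (.N 1 (.L ⟨[(0, 20), (1, 56), (2, 14), (10, 20), (15, 56), (27, 14), (40, 70), (42, 60), (46, 7), (69, 90)], 3360, 280, 0, 0, 987, []⟩) (.N 1 (.L ⟨[(0, 78), (1, 257), (2, 90), (10, 26), (12, 52), (15, 257), (27, 90), (40, 347), (41, 335), (42, 335), (69, 425)], 6240, 0, 0, 0, 3718, []⟩) (.L ⟨[(0, 117), (1, 440), (2, 99), (10, 26), (12, 91), (15, 440), (27, 99), (40, 539), (41, 557), (42, 557), (69, 656)], 4940, 0, 0, 2821, 6240, []⟩))) (.L ⟨[(0, 938), (2, 480), (6, 890), (8, 48), (27, 480), (40, 480), (42, 209), (46, 48), (69, 1418)], 0, 10032, 0, 0, 11520, []⟩)) (.L ⟨[], 0, 0, 15, 0, 4, []⟩)) (.N 1 (.L ⟨[(0, 110), (1, 90), (6, 70), (8, 40),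 (15, 90), (40, 90), (41, 45), (46, 9), (69, 200)], 2061, 0, 0, 0, 138240, []⟩) (.L ⟨[(0, 13), (1, 64), (12, 13), (15, 64), (40, 64), (41, 77), (42, 71), (69, 77)], 832, 0, 0, 0, 49920, []⟩)))) (.N 6 (.N 4 (.N 5 (.L ⟨[(0, 34), (1, 14), (2, 114), (10, 34), (15, 14), (27, 114), (40, 89), (41, 48), (42, 48), (69, 162)], 1920, 0, 0, 270, 1570, []⟩) (.N 3 (.L ⟨[(0, 824), (1, 3573), (2, 384), (10, 70), (12, 754), (15, 3573), (27, 384), (40, 3957), (41, 4397), (42, 4397), (46, 124), (69, 4781)], 61440, 0, 0, 0, 45180, []⟩) (.N 5 (.L ⟨[(0, 125), (1, 201), (2, 451), (10, 80), (12, 45), (15, 201), (27, 451), (41, 326), (42, 326), (69, 777)], 9195, 0, 0, 970, 9600, []⟩) (.N 5 (.L ⟨[(0, 235), (1, 744), (2, 649), (10, 60), (12, 175), (15, 744), (27, 649), (41, 979), (42, 979), (69, 1628)], 18000, 0, 0, 0, 19200, []⟩) (.N 1 (.L ⟨[(0, 2), (4, 2), (69, 2)], 33, 0, 0, 0, 60, []⟩) (.L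 ⟨[(0, 184), (1, 2789), (2, 1264), (14, 184), (15, 2789), (30, 432), (32, 832), (40, 2410), (41, 2973), (42, 2973), (69, 4237)], 28880, 0, 0, 0, 30720, []⟩)))))) (.L ⟨[(2, 4), (28, 4), (69, 4)], 19, 0, 0, 2, 60, []⟩)) (.N 0 (.N 1 (.L ⟨[(1, 2476), (2, 944), (3, 513), (15, 1825), (17, 651), (34, 944), (40, 3420), (42, 2476), (46, 342), (57, 171), (69, 3420)], 82080, 0, 0, 0, 1026, []⟩) (.N 4 (.N 6 (.N 5 (.N 1 (.L ⟨[(0, 144), (2, 676), (10, 144), (27, 624), (28, 52), (42, 144), (60, 13), (69, 781)], 12480, 0, 0, 0, 7020, []⟩) (.L ⟨[(0, 8), (2, 51), (10, 6), (12, 2), (27, 20), (28, 31), (40, 51), (41, 8), (42, 8), (60, 2), (69, 53)], 480, 0, 0, 262, 422, []⟩)) (.N 0 (.N 1 (.L ⟨[], 1, 0, 0, 0, 0, []⟩) (.N 3 (.N 5 (.L ⟨[(0, 91), (1, 267), (2, 141), (12, 65), (14, 26), (15, 267), (27, 141), (40, 408), (41, 358), (42, 358), (60, 52), (69, 343)], 6240, 0, 0, 1599, 6240, []⟩)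 (.L ⟨[(0, 44), (1, 220), (12, 27), (14, 17), (15, 220), (40, 220), (41, 264), (42, 264), (60, 18), (69, 210)], 2846, 0, 0, 553, 3840, []⟩)) (.N 5 (.L ⟨[(0, 118), (2, 877), (12, 111), (14, 7), (27, 590), (28, 287), (41, 118), (42, 118), (60, 77), (69, 764)], 9597, 0, 0, 3647, 13440, []⟩) (.N 1 (.L ⟨[(0, 64), (1, 162), (2, 68), (10, 24), (12, 40), (15, 109), (17, 53), (27, 68), (40, 230), (42, 226), (46, 23), (60, 32), (69, 198)], 7680, 0, 0, 0, 4282, []⟩) (.N 6 (.N 3 (.L ⟨[(0, 91), (1, 363), (2, 69), (12, 65), (14, 26), (15, 363), (27, 69), (40, 432), (41, 454), (42, 454), (60, 39), (69, 406)], 6240, 0, 0, 1924, 6123, []⟩) (.N 5 (.L ⟨[(0, 549), (2, 2414), (10, 296), (12, 253), (27, 2414), (60, 230), (69, 2273)], 32660, 0, 0, 18170, 44160, []⟩) (.N 1 (.L ⟨[(0, 835), (1, 1332), (2, 1498), (10, 148), (12, 687), (15, 1184), (17, 148), (27, 1498), (40, 2830), (60, 592),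 (69, 1889)], 71040, 0, 0, 0, 53132, []⟩) (.N 5 (.L ⟨[(0, 210), (1, 318), (2, 838), (12, 170), (14, 40), (15, 318), (27, 838), (41, 528), (42, 528), (60, 125), (69, 991)], 15200, 0, 0, 5720, 19200, []⟩) (.N 6 (.L ⟨[(0, 440), (1, 5857), (2, 2650), (14, 440), (15, 5857), (30, 1650), (32, 1000), (42, 6297), (60, 440), (69, 7627)], 61400, 0, 0, 11600, 76800, []⟩) (.L ⟨[(0, 52), (1, 164), (2, 72), (13, 16), (14, 36), (15, 164), (27, 40), (28, 32), (42, 216), (60, 77), (69, 57)], 3840, 0, 0, 0, 3412, []⟩)))))) (.L ⟨[(0, 252), (1, 738), (2, 420), (14, 252), (15, 528), (17, 210), (27, 147), (28, 273), (40, 1158), (42, 990), (60, 470)], 20160, 0, 0, 0, 17031, []⟩)))))) (.L ⟨[(0, 2544), (1, 4880), (8, 2056), (10, 488), (15, 3537), (17, 1343), (40, 4880), (42, 7424), (46, 488), (69, 7424)], 28304, 0, 0, 0, 58560, []⟩))) (.N 5 (.L ⟨[(0, 38), (2, 288), (12, 9), (14, 29), (27, 94),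 (28, 194), (40, 288), (41, 38), (42, 38), (60, 60), (69, 146)], 3840, 0, 0, 0, 2110, []⟩) (.N 3 (.N 5 (.N 0 (.L ⟨[(0, 129), (1, 336), (2, 180), (14, 129), (15, 336), (27, 180), (40, 516), (41, 51), (42, 465), (46, 51), (60, 215)], 11520, 0, 0, 0, 9279, []⟩) (.L ⟨[(0, 192), (1, 353), (2, 247), (10, 192), (15, 353), (27, 247), (40, 600), (60, 39), (69, 675)], 6578, 0, 0, 0, 12480, []⟩)) (.L ⟨[(0, 519), (1, 1764), (12, 309), (14, 210), (15, 1554), (17, 210), (40, 1764), (60, 691), (69, 210)], 37170, 0, 0, 0, 50400, []⟩)) (.N 5 (.L ⟨[(0, 576), (1, 432), (2, 3603), (14, 576), (23, 432), (27, 1956), (28, 1647), (42, 1008), (60, 1537)], 63648, 0, 0, 0, 69120, []⟩) (.N 1 (.L ⟨[(0, 3), (1, 3), (8, 3), (21, 3), (60, 2)], 120, 0, 0, 0, 84, []⟩) (.L ⟨[(0, 305), (1, 721), (2, 873), (14, 305), (15, 244), (17, 477), (27, 183), (28, 690), (40, 1594), (42, 1026), (60, 633)], 25193,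 0, 0, 0, 29280, []⟩)))))) (.N 5 (.L ⟨[(2, 32), (30, 32), (39, 24), (40, 32), (60, 1), (69, 29)], 122, 0, 240, 0, 209, []⟩) (.L ⟨[(1, 63), (2, 251), (23, 63), (30, 99), (32, 152), (39, 314), (40, 314), (42, 63), (60, 86), (69, 56)], 1225, 0, 1701, 0, 6720, []⟩)))) (.L ⟨[(0, 38), (1, 1644), (2, 636), (3, 380), (15, 1205), (17, 439), (34, 636), (40, 2280), (42, 1682), (46, 228), (57, 114), (69, 2318)], 0, 0, 0, 0, 0, []⟩)))) (.N 6 (.N 3 (.N 3 (.L ⟨[], 0, 1, 0, 0, 0, []⟩) (.N 1 (.N 0 (.L ⟨[(1, 14400), (10, 4752), (15, 2100), (17, 24219), (34, 2304), (36, 1584), (40, 14400), (42, 14400), (48, 1440), (57, 1584), (58, 3973), (59, 1296), (69, 14400)], 17694720, 0, 0, 0, 0, []⟩) (.N 1 (.L ⟨[(1, 1680), (4, 1473), (6, 5364), (23, 1932), (36, 252), (40, 1680), (42, 1680), (46, 168), (57, 2279), (58, 84), (59, 84), (69, 1680)], 36624, 40320, 0, 0, 0, []⟩) (.N 4 (.N 5 (.L ⟨[(1,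 5805), (2, 645), (8, 6216), (17, 2193), (19, 3612), (27, 645), (40, 6450), (48, 645), (57, 2072), (69, 6450)], 77400, 0, 0, 0, 47085, []⟩) (.L ⟨[(1, 17028), (2, 11352), (6, 17544), (8, 17256), (15, 38313), (37, 9933), (38, 1419), (40, 28380), (48, 2838), (57, 11600), (58, 7095), (69, 28380)], 429957, 0, 0, 0, 681120, []⟩)) (.L ⟨[(1, 13440), (6, 1344), (8, 8736), (17, 1413), (19, 25008), (34, 6048), (40, 13440), (42, 13440), (48, 1344), (57, 3360), (58, 4327), (59, 2016), (69, 13440)], 161280, 24192, 0, 0, 0, []⟩)))) (.N 0 (.N 1 (.N 0 (.N 0 (.L ⟨[(14, 9), (15, 42), (57, 3), (58, 14)], 1440, 0, 0, 0, 0, []⟩) (.N 1 (.L ⟨[], 1, 0, 0, 0, 0, []⟩) (.N 1 (.L ⟨[], 1, 0, 0, 0, 0, []⟩) (.N 5 (.L ⟨[(1, 6450), (14, 774), (15, 6063), (17, 1161), (32, 2832), (40, 6450), (42, 6450), (49, 645), (57, 258), (58, 258), (59, 944), (69, 6450)], 123840, 0, 0, 0, 6837, []⟩) (.N 5 (.L ⟨[(0,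 8), (1, 28), (12, 3), (14, 5), (15, 28), (40, 28), (60, 12)], 630, 0, 0, 0, 19200, []⟩) (.L ⟨[(15, 42), (38, 9), (58, 14), (59, 3)], 0, 0, 0, 0, 720, []⟩)))))) (.N 5 (.L ⟨[(1, 15570), (12, 1800), (15, 10665), (17, 7605), (34, 3600), (40, 15570), (42, 15570), (49, 1557), (57, 600), (58, 900), (59, 1200), (69, 15570)], 192000, 0, 0, 0, 32000, []⟩) (.N 4 (.L ⟨[(1, 48936), (2, 8184), (10, 4080), (12, 6936), (15, 68520), (38, 8184), (40, 57120), (49, 5712), (57, 3672), (58, 6528), (60, 11713), (69, 21981)], 783360, 0, 0, 0, 690744, []⟩) (.L ⟨[(19, 3225), (21, 600), (34, 1419), (58, 1275), (59, 473)], 0, 0, 0, 0, 56760, []⟩)))) (.N 3 (.L ⟨[(14, 9), (15, 42), (57, 3), (58, 14)], 0, 0, 0, 0, 0, []⟩) (.N 1 (.N 0 (.N 0 (.N 5 (.L ⟨[(1, 399), (13, 51), (14, 102), (15, 399), (30, 210), (39, 399), (40, 399), (42, 399), (57, 51), (59, 70), (60, 133)], 8160, 0, 0, 0, 1972, []⟩) (.N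 4 (.L ⟨[(1, 198), (14, 42), (15, 261), (38, 21), (40, 198), (41, 198), (57, 14), (58, 21), (59, 7), (60, 66)], 3031, 0, 0, 1148, 3360, []⟩) (.L ⟨[(19, 3225), (21, 600), (34, 1419), (58, 1275), (59, 473)], 0, 0, 5203, 0, 56760, []⟩))) (.N 5 (.L ⟨[(1, 6240), (14, 1296), (15, 4566), (17, 1674), (32, 2160), (39, 6240), (40, 6240), (42, 6240), (48, 624), (57, 432), (59, 720), (60, 1483), (69, 1791)], 92160, 0, 0, 0, 24672, []⟩) (.N 4 (.L ⟨[(1, 216), (14, 42), (15, 258), (38, 21), (40, 216), (41, 216), (49, 7), (57, 14), (58, 14), (59, 7), (60, 72)], 3031, 0, 0, 0, 3360, []⟩) (.L ⟨[(19, 3225), (21, 600), (34, 1419), (58, 1275), (59, 473)], 0, 0, 5203, 0, 56760, []⟩)))) (.N 4 (.N 5 (.L ⟨[(0, 48), (1, 94), (2, 74), (12, 48), (15, 94), (27, 74), (40, 168), (60, 37), (69, 105)], 0, 0, 0, 0, 2220, []⟩) (.L ⟨[(1, 1932), (2, 168), (12, 225), (14, 279), (15, 2436), (38, 168), (40,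 2100), (49, 210), (57, 168), (58, 168), (60, 700)], 0, 0, 0, 0, 40320, []⟩)) (.L ⟨[(1, 3750), (15, 75), (17, 3675), (34, 1344), (40, 3750), (42, 3750), (49, 375), (59, 448), (60, 375), (69, 2625)], 0, 0, 0, 0, 5625, []⟩))) (.L ⟨[(14, 9), (15, 42), (57, 3), (58, 14)], 0, 0, 0, 0, 0, []⟩)))) (.L ⟨[(1, 5040), (10, 1728), (15, 780), (17, 8451), (34, 720), (36, 576), (40, 5040), (42, 5040), (48, 504), (57, 576), (58, 1397), (59, 432), (69, 5040)], 0, 0, 0, 0, 0, []⟩)))) (.N 0 (.N 1 (.L ⟨[(1, 7512), (2, 3048), (4, 6777), (6, 1056), (19, 6456), (21, 1056), (34, 1992), (36, 1056), (40, 10560), (42, 7512), (47, 1056), (57, 2611), (60, 1056), (69, 7392)], 506880, 0, 0, 0, 0, []⟩) (.N 4 (.N 1 (.N 5 (.L ⟨[(0, 291), (1, 435), (2, 2475), (14, 291), (23, 435), (28, 1794), (30, 681), (40, 2910), (42, 726), (48, 291), (60, 1067)], 46560, 0, 0, 0, 15035, []⟩) (.N 3 (.N 5 (.L ⟨[(0, 15708),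 (1, 61477), (2, 31343), (12, 4522), (14, 11186), (17, 48380), (19, 13097), (30, 22537), (32, 8806), (40, 92820), (42, 77185), (47, 9282), (60, 36176)], 1827840, 0, 0, 0, 1745016, []⟩) (.L ⟨[(1, 405), (2, 105), (15, 405), (38, 105), (40, 510), (60, 170), (67, 204)], 6405, 0, 0, 420, 12600, []⟩)) (.L ⟨[(1, 14862), (2, 10908), (19, 6861), (21, 8001), (32, 2577), (34, 8331), (39, 25770), (40, 25770), (42, 14862), (46, 2577), (60, 8590)], 309240, 0, 0, 0, 64425, []⟩))) (.N 5 (.L ⟨[(0, 288), (1, 192), (2, 1899), (14, 288), (23, 192), (28, 1611), (30, 288), (39, 1485), (40, 2091), (42, 480), (60, 793)], 23040, 0, 0, 0, 11136, []⟩) (.N 3 (.N 5 (.L ⟨[(0, 994), (1, 2972), (2, 2901), (14, 994), (15, 518), (17, 2454), (28, 385), (30, 2516), (39, 3059), (40, 5873), (42, 3966), (60, 2289)], 76622, 0, 0, 0, 107520, []⟩) (.L ⟨[(0, 2), (1, 17), (2, 2), (14, 2), (15, 17), (38, 2), (40,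 10), (60, 7), (67, 4)], 194, 0, 0, 0, 480, []⟩)) (.L ⟨[(1, 40446), (2, 37596), (19, 9765), (21, 30681), (32, 17577), (34, 20019), (39, 78042), (40, 78042), (42, 40446), (60, 26014)], 234360, 0, 0, 0, 164052, []⟩)))) (.N 5 (.L ⟨[(1, 1419), (23, 1419), (30, 4515), (32, 576), (39, 1419), (40, 1419), (42, 1419), (59, 1697), (69, 1419)], 5760, 0, 0, 0, 17280, []⟩) (.N 1 (.L ⟨[(1, 28380), (11, 4257), (21, 18447), (23, 14190), (30, 26445), (32, 39207), (39, 28380), (40, 28380), (42, 28380), (48, 2838), (57, 1419), (58, 1419), (59, 21884), (60, 9460)], 241230, 0, 0, 0, 681120, []⟩) (.L ⟨[(1, 18447), (11, 2838), (21, 9933), (23, 9933), (30, 18963), (32, 23757), (39, 18447), (40, 18447), (42, 18447), (57, 946), (58, 473), (59, 14240), (60, 6149)], 85613, 0, 0, 0, 454080, []⟩))))) (.L ⟨[(1, 33960), (6, 26904), (19, 33960), (34, 5352), (36, 3987), (40, 33960), (42, 33960), (47,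 2547), (48, 849), (57, 8968), (59, 3113), (60, 1981), (69, 28017)], 0, 0, 0, 0, 0, []⟩))) (.N 4 (.N 0 (.N 1 (.N 0 (.L ⟨[], 1, 0, 0, 0, 0, []⟩) (.L ⟨[(8, 3), (21, 3), (57, 1), (58, 1)], 60, 0, 0, 0, 0, []⟩)) (.N 3 (.N 1 (.N 0 (.N 0 (.L ⟨[(13, 2025), (14, 2430), (15, 14010), (17, 540), (57, 1485), (58, 4850), (67, 8136)], 259200, 0, 0, 0, 0, []⟩) (.N 1 (.L ⟨[], 1, 0, 0, 0, 0, []⟩) (.L ⟨[(1, 17280), (14, 7344), (15, 28092), (17, 20025), (34, 1584), (36, 3600), (40, 17280), (42, 17280), (49, 1728), (57, 2448), (58, 10279), (59, 1728), (60, 5760)], 552960, 0, 0, 0, 0, []⟩))) (.L ⟨[(1, 3360), (12, 1512), (17, 6213), (19, 1860), (34, 252), (36, 756), (40, 3360), (42, 3360), (49, 336), (57, 504), (58, 1571), (59, 336), (60, 1120)], 80640, 0, 0, 0, 0, []⟩)) (.L ⟨[(14, 9), (15, 42), (57, 3), (58, 14)], 0, 0, 0, 0, 0, []⟩)) (.N 3 (.N 1 (.N 0 (.N 1 (.L ⟨[], 1, 0, 0, 0, 0, []⟩)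 (.N 5 (.L ⟨[(0, 627), (2, 1932), (11, 282), (13, 345), (30, 1932), (40, 1932), (42, 627), (60, 853)], 41400, 0, 0, 0, 8280, []⟩) (.N 5 (.N 4 (.L ⟨[(0, 75), (1, 135), (13, 75), (19, 65), (21, 70), (40, 135), (60, 70), (67, 643)], 4200, 0, 0, 0, 2870, []⟩) (.L ⟨[(0, 20), (1, 55), (2, 45), (11, 20), (23, 55), (30, 65), (32, 40), (40, 100), (42, 75), (59, 20), (60, 40), (67, 162)], 1000, 0, 0, 0, 2400, []⟩)) (.L ⟨[(1, 110), (2, 640), (11, 165), (15, 550), (17, 220), (37, 640), (39, 750), (40, 750), (57, 55), (58, 220), (60, 250), (67, 4049)], 6985, 0, 0, 0, 52800, []⟩)))) (.L ⟨[(1, 10734), (2, 1716), (17, 3711), (19, 7023), (34, 1245), (36, 2712), (40, 12450), (42, 10734), (49, 1245), (59, 747), (60, 4150)], 119520, 0, 0, 0, 0, []⟩)) (.N 6 (.N 5 (.L ⟨[(0, 103), (2, 164), (13, 103), (28, 299), (40, 164), (42, 103), (59, 45), (60, 89), (67, 90)], 1350, 0, 0, 0, 1305, []⟩)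 (.N 5 (.L ⟨[(0, 1677), (1, 1008), (2, 1008), (11, 336), (13, 1341), (19, 672), (21, 336), (27, 1008), (40, 2016), (42, 2685), (60, 1231), (67, 8502)], 0, 0, 0, 0, 80640, []⟩) (.L ⟨[(1, 405), (2, 105), (15, 405), (38, 105), (40, 510), (60, 170), (67, 204)], 0, 0, 0, 0, 20400, []⟩))) (.L ⟨[(14, 645), (21, 5040), (57, 215), (58, 1680), (67, 14448)], 0, 0, 0, 0, 0, []⟩))) (.L ⟨[(23, 3), (58, 1), (67, 15)], 0, 0, 0, 0, 0, []⟩)))) (.L ⟨[(8, 3), (21, 3), (57, 1), (58, 1)], 0, 0, 0, 0, 0, []⟩)) (.L ⟨[(21, 3), (32, 3), (58, 1), (59, 1)], 0, 0, 0, 0, 0, []⟩)))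

theorem ok_F1_2m : tree_F1_2m.check prm_F1 ⟨-64, 64, -128, 128, -64, -64, -128, 128, -64, 64, -128, 128, 0, 672⟩ = true := by decide +kernel

def tree_F1_2p : Tree := .N 6 (.N 6 (.N 0 (.L ⟨[(0, 256), (1, 522), (2, 21), (7, 256), (16, 154), (18, 368), (34, 14), (36, 7), (39, 543), (41, 778), (42, 778), (69, 799)], 1519, 0, 2534, 8960, 0, []⟩) (.L ⟨[(0, 4), (1, 147), (2, 2), (11, 4), (16, 121), (18, 26), (38, 2), (39, 124), (41, 151), (69, 153)], 0, 0, 960, 868, 0, []⟩)) (.N 3 (.N 3 (.L ⟨[], 0, 1, 0, 0, 0, []⟩) (.N 0 (.L ⟨[(0, 147), (1, 1951), (7, 424), (9, 605), (18, 1510), (20, 441), (39, 1951), (41, 2098), (42, 2098), (53, 147), (57, 294), (69, 2098)], 0, 0, 9555, 35280, 0, []⟩) (.L ⟨[(0, 54), (1, 616), (13, 45), (14, 9), (15, 60), (16, 556), (39, 616), (41, 670), (42, 670), (51, 54), (69, 670)], 0, 1116, 3924, 4320, 0, []⟩))) (.N 1 (.L ⟨[(0, 405), (1, 84), (3, 165),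 (5, 240), (22, 84), (39, 84), (41, 489), (42, 489), (69, 489)], 1876, 0, 3360, 2548, 0, []⟩) (.N 0 (.L ⟨[(0, 84), (1, 126), (5, 219), (7, 174), (22, 126), (39, 126), (41, 210), (42, 210), (54, 21), (57, 103), (69, 210)], 0, 0, 476, 6720, 0, []⟩) (.L ⟨[(0, 64), (1, 583), (2, 119), (11, 64), (16, 119), (18, 464), (27, 119), (39, 702), (41, 647), (42, 647), (69, 766)], 0, 0, 2142, 7140, 0, []⟩))))) (.N 3 (.N 6 (.N 3 (.L ⟨[], 0, 1, 0, 0, 0, []⟩) (.N 4 (.L ⟨[(1, 33000), (13, 7425), (18, 51519), (20, 4950), (31, 22281), (39, 33000), (41, 33000), (51, 3300), (57, 2475), (58, 7823), (59, 7427), (69, 33000)], 0, 0, 0, 0, 0, []⟩) (.N 5 (.L ⟨[(1, 420), (11, 42), (13, 84), (16, 489), (18, 270), (39, 420), (41, 420), (51, 42), (57, 42), (58, 113), (69, 420)], 0, 0, 322560, 0, 0, []⟩) (.L ⟨[(1, 39000), (11, 6048), (13, 4752), (16, 60957), (36, 2400), (38, 300), (39, 39000), (41,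 39000), (42, 39000), (50, 3900), (57, 3600), (58, 7319), (59, 900), (69, 39000)], 0, 0, 288000, 0, 0, []⟩)))) (.N 4 (.L ⟨[(20, 3), (33, 3), (58, 1), (59, 1)], 0, 0, 0, 0, 0, []⟩) (.N 5 (.N 4 (.L ⟨[(20, 3), (33, 3), (58, 1), (59, 1)], 0, 0, 60, 0, 0, []⟩) (.L ⟨[], 0, 0, 1, 0, 0, []⟩)) (.L ⟨[(1, 25582), (11, 1548), (13, 6768), (15, 11391), (16, 42271), (36, 1332), (38, 1800), (39, 25582), (41, 25582), (42, 25582), (57, 2772), (58, 9360), (59, 1044), (69, 25582)], 0, 0, 276480, 0, 0, []⟩)))) (.N 4 (.L ⟨[(1, 960), (11, 336), (18, 808), (20, 344), (27, 537), (39, 32), (41, 960), (52, 96), (57, 112), (58, 64), (59, 179), (69, 960)], 0, 0, 0, 0, 0, []⟩) (.N 5 (.L ⟨[(0, 13032), (1, 29448), (11, 13032), (20, 20952), (22, 8496), (27, 41541), (29, 8496), (41, 42480), (52, 4248), (59, 16679), (69, 42480)], 0, 0, 2039040, 0, 0, []⟩) (.N 1 (.L ⟨[(0, 75), (1, 40), (2, 11), (5, 163),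 (7, 11), (22, 40), (34, 11), (39, 51), (41, 115), (42, 115), (57, 33), (69, 126)], 0, 0, 660, 0, 0, []⟩) (.N 0 (.N 1 (.L ⟨[(7, 3225), (9, 600), (22, 1419), (57, 1275), (58, 473)], 0, 0, 473, 28380, 0, []⟩) (.L ⟨[(7, 65), (9, 43), (20, 18), (22, 36), (57, 36), (58, 18), (64, 37)], 0, 0, 0, 1080, 0, []⟩)) (.N 4 (.L ⟨[(1, 460), (11, 129), (13, 9), (16, 19), (18, 579), (27, 69), (39, 460), (41, 460), (42, 460), (53, 46), (57, 46), (58, 46), (59, 23), (69, 460)], 0, 0, 1380, 0, 0, []⟩) (.N 6 (.N 1 (.L ⟨[(0, 150), (1, 550), (7, 150), (18, 210), (20, 340), (39, 550), (41, 700), (42, 700), (53, 70), (66, 668), (69, 700)], 0, 0, 2345, 4200, 0, []⟩) (.L ⟨[(0, 990), (1, 32005), (14, 990), (18, 18415), (20, 13590), (39, 28350), (41, 32995), (42, 32995), (66, 49511), (69, 32995)], 0, 0, 170730, 691200, 0, []⟩)) (.N 5 (.L ⟨[(1, 19385), (11, 1860), (13, 4215), (18, 19230), (20, 20540),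 (34, 2610), (39, 19385), (41, 19385), (42, 19385), (57, 2025), (58, 6795), (59, 870), (66, 66022), (69, 19385)], 0, 0, 230400, 0, 0, []⟩) (.L ⟨[(1, 12565), (11, 1185), (13, 2700), (18, 12290), (20, 13310), (34, 2400), (39, 12565), (41, 12565), (42, 12565), (57, 1295), (58, 4345), (59, 800), (66, 46257), (69, 12565)], 0, 0, 76800, 0, 0, []⟩)))))))))

theorem ok_F1_2p : tree_F1_2p.check prm_F1 ⟨-64, 64, -128, 128, 64, 64, -128, 128, -64, 64, -128, 128, 0, 672⟩ = true := by decide +kernel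

def tree_F1_3m : Tree := .N 6 (.L ⟨[], 0, 1, 0, 0, 0, []⟩) (.N 6 (.L ⟨[], 0, 1, 0, 0, 0, []⟩) (.N 2 (.L ⟨[(17, 15), (58, 5), (63, 32), (65, 16)], 0, 150, 0, 0, 0, []⟩) (.L ⟨[(16, 15), (58, 5), (63, 32), (68, 16)], 0, 150, 0, 0, 0, []⟩)))

theorem ok_F1_3m : tree_F1_3m.check prm_F1 ⟨-64, 64, -128, 128, -64, 64, -128, -128, -64, 64, -128, 128, 0, 672⟩ = true := by decide +kernel

def tree_F1_3p : Tree := .N 6 (.N 1 (.L ⟨[(0, 44489), (1, 850), (2, 11220), (3, 44489), (23, 850), (34, 11220), (39, 12070), (40, 12070), (42, 45339), (46, 1207), (69, 56559)], 768000, 0, 289350, 0, 0, []⟩) (.N 6 (.N 0 (.N 2 (.N 2 (.N 2 (.L ⟨[(0, 86), (1, 10), (2, 170), (3, 86), (15, 10), (30, 90), (32, 80), (39, 180), (40, 180), (41, 25), (42, 96), (69, 266)], 0, 0, 0, 1035, 1200, []⟩) (.L ⟨[(0, 51), (2, 86), (3, 51), (30, 46), (32, 40), (39, 86), (40, 86), (41, 8), (42, 51), (69, 137)], 208,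 0, 0, 960, 584, []⟩)) (.L ⟨[(0, 459), (2, 870), (3, 459), (30, 510), (32, 360), (39, 870), (40, 870), (41, 120), (42, 459), (69, 1329)], 2440, 0, 0, 9600, 4600, []⟩)) (.L ⟨[(0, 413), (2, 310), (3, 343), (5, 70), (30, 70), (32, 240), (39, 310), (42, 413), (69, 723)], 1330, 0, 910, 8400, 1610, []⟩)) (.L ⟨[(0, 68), (1, 85), (2, 314), (3, 68), (15, 85), (30, 154), (32, 160), (39, 399), (40, 399), (41, 102), (42, 153), (69, 467)], 0, 0, 0, 510, 0, []⟩)) (.N 5 (.L ⟨[(1, 130), (2, 420), (24, 97), (26, 33), (27, 445), (28, 368), (39, 550), (42, 130), (55, 13), (59, 131), (69, 550)], 759, 0, 3840, 0, 0, []⟩) (.N 2 (.N 0 (.N 6 (.N 2 (.N 4 (.N 4 (.N 2 (.L ⟨[(0, 1407), (2, 1282), (3, 483), (5, 924), (30, 322), (32, 960), (39, 1282), (42, 1407), (60, 161), (69, 2206)], 483, 0, 0, 8211, 9660, []⟩) (.L ⟨[(0, 293), (2, 262), (3, 46), (5, 247), (30, 46), (32, 216), (39, 262), (42,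 293), (60, 46), (69, 417)], 920, 0, 0, 2760, 1656, []⟩)) (.L ⟨[(0, 3105), (2, 7839), (7, 3105), (30, 6205), (32, 1634), (39, 7839), (41, 1235), (42, 3105), (60, 1007), (69, 7923)], 45771, 0, 0, 38570, 72960, []⟩)) (.L ⟨[(0, 459), (2, 3827), (11, 459), (30, 2835), (32, 992), (39, 3827), (40, 3827), (42, 459), (60, 680), (69, 2246)], 22576, 0, 2380, 8211, 32640, []⟩)) (.N 1 (.L ⟨[(0, 1944), (2, 2016), (5, 1944), (32, 2016), (39, 2016), (40, 2016), (42, 1944), (60, 423), (69, 2691)], 45120, 0, 4841, 0, 7379, []⟩) (.N 4 (.L ⟨[(0, 5019), (2, 4369), (7, 5019), (30, 427), (32, 3942), (39, 4369), (41, 5019), (42, 5019), (60, 1281), (69, 5545)], 9394, 0, 0, 51240, 26474, []⟩) (.N 0 (.L ⟨[(0, 357), (2, 1571), (7, 238), (9, 119), (30, 1040), (32, 531), (39, 1571), (40, 1571), (42, 357), (60, 204), (69, 1316)], 8330, 0, 0, 16320, 11339, []⟩) (.L ⟨[(0, 15), (2, 218), (3, 15), (28,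 72), (30, 146), (39, 218), (42, 15), (60, 3), (69, 224)], 0, 0, 69, 546, 1440, []⟩))))) (.N 4 (.L ⟨[(0, 75), (2, 75), (9, 69), (11, 6), (32, 69), (34, 6), (39, 75), (42, 75), (60, 50)], 720, 0, 0, 0, 0, []⟩) (.N 2 (.L ⟨[(1, 2478), (2, 32754), (11, 8673), (23, 2478), (30, 12081), (32, 21912), (39, 35232), (40, 35232), (42, 2478), (57, 2891), (59, 413), (60, 11744)], 198240, 0, 0, 0, 167265, []⟩) (.N 0 (.N 1 (.L ⟨[(0, 6519), (1, 630), (2, 19893), (9, 12189), (23, 630), (32, 19893), (39, 20523), (40, 20523), (42, 7149), (57, 1890), (60, 7334), (69, 5040)], 302400, 0, 20790, 0, 29610, []⟩) (.N 4 (.L ⟨[(0, 1941), (2, 2967), (9, 1311), (11, 630), (32, 2967), (39, 2967), (40, 2967), (42, 1941), (60, 1636)], 18900, 0, 0, 18900, 8820, []⟩) (.L ⟨[(0, 1416), (2, 5661), (11, 1947), (30, 2109), (32, 3552), (39, 5661), (40, 5661), (42, 1416), (57, 177), (60, 2359)], 41064, 0, 23541,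 26019, 42480, []⟩))) (.L ⟨[(0, 7377), (1, 3150), (2, 20409), (9, 5487), (11, 1890), (23, 3150), (30, 1890), (32, 18519), (39, 23559), (40, 23559), (42, 10527), (60, 10102), (69, 630)], 0, 0, 46620, 0, 75600, []⟩))))) (.L ⟨[(1, 1101), (2, 2791), (19, 918), (21, 183), (30, 732), (32, 2059), (39, 3892), (40, 3892), (42, 1101), (60, 549), (69, 2245)], 0, 0, 0, 0, 5490, []⟩)) (.N 0 (.N 4 (.L ⟨[(0, 400), (1, 112), (7, 400), (22, 112), (39, 112), (41, 512), (42, 512), (60, 90), (69, 242)], 135, 0, 0, 2700, 0, []⟩) (.N 6 (.N 0 (.L ⟨[(0, 668), (2, 288), (3, 345), (5, 323), (32, 232), (34, 56), (39, 288), (41, 668), (42, 668), (69, 956)], 5904, 0, 3368, 15360, 3312, []⟩) (.N 1 (.L ⟨[(0, 42), (2, 24), (3, 21), (5, 21), (32, 24), (39, 24), (41, 42), (42, 42), (69, 66)], 416, 0, 192, 480, 248, []⟩) (.L ⟨[(0, 381), (2, 698), (5, 381), (30, 282), (32, 416), (39, 698), (40, 698),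 (42, 381), (60, 94), (69, 797)], 0, 0, 1034, 11280, 3572, []⟩))) (.N 2 (.N 4 (.L ⟨[(0, 927), (1, 105), (2, 456), (9, 927), (22, 105), (32, 351), (34, 105), (39, 561), (41, 1032), (42, 1032), (60, 496)], 2205, 0, 0, 3150, 0, []⟩) (.N 5 (.L ⟨[(0, 2967), (2, 1941), (9, 2967), (32, 1311), (34, 630), (39, 1941), (41, 2967), (42, 2967), (60, 1636)], 11340, 0, 75600, 11340, 0, []⟩) (.N 0 (.L ⟨[(0, 5661), (2, 1416), (7, 2109), (9, 3552), (34, 1947), (39, 1416), (41, 5661), (42, 5661), (59, 177), (60, 2359)], 23541, 0, 41064, 42480, 26019, []⟩) (.L ⟨[(0, 24), (2, 24), (9, 24), (32, 24), (39, 24), (41, 24), (42, 24), (60, 13), (69, 9)], 0, 0, 189, 117, 270, []⟩)))) (.L ⟨[(0, 13008), (1, 1239), (7, 9462), (9, 6024), (22, 1239), (34, 3717), (39, 1239), (41, 14247), (42, 14247), (57, 826), (59, 1239), (60, 3923), (69, 2478)], 0, 0, 73514, 99120, 0, []⟩)))) (.L ⟨[(0, 48), (2, 626),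 (9, 48), (30, 566), (32, 60), (39, 626), (40, 453), (42, 48), (60, 48), (69, 530)], 0, 0, 0, 360, 0, []⟩)))))) (.N 6 (.N 1 (.L ⟨[(3, 42), (26, 9), (57, 14), (58, 3)], 0, 0, 0, 0, 0, []⟩) (.N 5 (.L ⟨[(26, 9), (27, 42), (58, 3), (59, 14)], 0, 0, 0, 0, 0, []⟩) (.N 2 (.N 1 (.L ⟨[(1, 100305), (2, 562665), (7, 783495), (26, 100305), (32, 610020), (34, 9471), (39, 662970), (40, 662970), (42, 100305), (44, 66297), (57, 261165), (59, 18942), (60, 220990)], 2273040, 0, 0, 0, 0, []⟩) (.N 4 (.L ⟨[(0, 2721), (2, 18327), (9, 12801), (11, 1260), (32, 16437), (34, 1890), (39, 18327), (40, 18327), (42, 2721), (57, 3780), (60, 7016)], 0, 0, 0, 0, 0, []⟩) (.L ⟨[(2, 29025), (9, 16941), (11, 3612), (32, 29541), (34, 1032), (39, 29025), (40, 29025), (44, 516), (57, 6851), (59, 516), (60, 9675)], 11352, 0, 0, 0, 0, []⟩))) (.N 5 (.L ⟨[(0, 562665), (1, 100305), (9, 610020), (11, 9471), (26,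 100305), (30, 783495), (39, 100305), (41, 662970), (42, 662970), (55, 66297), (57, 18942), (59, 261165), (60, 220990)], 0, 0, 2273040, 0, 0, []⟩) (.N 0 (.L ⟨[(0, 29025), (9, 29541), (11, 1032), (32, 16941), (34, 3612), (41, 29025), (42, 29025), (55, 516), (57, 516), (59, 6851), (60, 9675)], 0, 0, 11352, 0, 0, []⟩) (.L ⟨[(0, 17553), (2, 4269), (9, 15663), (11, 1890), (32, 12459), (34, 1260), (39, 4269), (41, 17553), (42, 17553), (59, 3150), (60, 7274)], 0, 0, 0, 0, 0, []⟩)))))) (.L ⟨[(26, 15), (58, 5), (64, 336)], 0, 0, 0, 0, 0, []⟩))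

theorem ok_F1_3p : tree_F1_3p.check prm_F1 ⟨-64, 64, -128, 128, -64, 64, 128, 128, -64, 64, -128, 128, 0, 672⟩ = true := by decide +kernel

def tree_F1_4m : Tree := .N 6 (.N 2 (.N 1 (.N 0 (.L ⟨[(0, 284), (1, 1261), (2, 39), (10, 284), (15, 1261), (38, 39), (40, 1300), (41, 1545), (42, 429), (46, 130), (69, 1584)], 49920, 9542, 0, 0, 0, []⟩) (.N 3 (.L ⟨[(0, 1355), (1, 1824), (2, 216), (4, 607), (6, 748), (15, 1824), (38, 216), (40, 2040), (41, 3179), (42, 3179), (46, 204), (69, 3395)], 17412, 46080, 0, 0, 0, []⟩) (.L ⟨[(0, 130), (1, 60), (6, 130), (15, 60), (40, 60), (41, 25), (46, 6), (69, 190)], 0, 0, 0, 0, 180, []⟩))) (.N 0 (.N 6 (.N 1 (.L ⟨[(0, 190), (1, 754), (2, 13), (10, 190), (15, 754), (38, 13), (40, 767), (41, 944), (69, 957)], 12480, 1235, 0, 0, 0, []⟩) (.N 0 (.N 3 (.L ⟨[(0, 2018), (1, 7774), (2, 39), (10, 1706), (12, 312), (15, 7774), (38, 39), (40, 7813),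 (41, 9792), (69, 9831)], 73125, 3783, 0, 74880, 32955, []⟩) (.N 3 (.L ⟨[(0, 181), (1, 689), (10, 142), (12, 39), (15, 689), (40, 689), (41, 870), (69, 870)], 9360, 0, 0, 6552, 1677, []⟩) (.N 2 (.L ⟨[(0, 172), (1, 1339), (2, 114), (10, 30), (12, 142), (15, 1339), (36, 114), (40, 1453), (41, 1511), (42, 1511), (69, 1625)], 11520, 0, 0, 2502, 0, []⟩) (.L ⟨[(1, 5), (16, 5), (69, 5)], 26, 0, 0, 30, 0, []⟩)))) (.L ⟨[(0, 751), (1, 2951), (2, 39), (10, 712), (12, 39), (15, 2951), (38, 39), (40, 2990), (41, 3702), (69, 3741)], 18720, 8151, 0, 0, 0, []⟩))) (.N 1 (.N 0 (.L ⟨[(1, 36270), (10, 3336), (12, 5895), (15, 37899), (38, 543), (40, 36270), (41, 36270), (57, 3077), (58, 543), (59, 181), (69, 36270)], 1390080, 0, 0, 0, 0, []⟩) (.N 3 (.L ⟨[(0, 1291), (1, 10127), (10, 1954), (12, 507), (15, 10127), (38, 234), (40, 10127), (41, 11418), (48, 663), (57, 390), (59, 78), (69, 11418)],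 149760, 48477, 0, 0, 0, []⟩) (.L ⟨[(0, 178), (1, 650), (2, 39), (10, 178), (15, 650), (37, 39), (40, 689), (41, 828), (60, 39), (69, 750)], 9360, 0, 0, 0, 0, []⟩))) (.N 5 (.L ⟨[(0, 30), (1, 300), (12, 30), (14, 15), (15, 300), (40, 60), (41, 330), (42, 330), (52, 33), (57, 5), (69, 330)], 2400, 340, 0, 0, 0, []⟩) (.N 0 (.N 6 (.N 2 (.N 3 (.N 3 (.L ⟨[], 0, 1, 0, 0, 0, []⟩) (.L ⟨[(0, 97), (1, 605), (10, 142), (15, 605), (38, 21), (40, 605), (41, 702), (57, 15), (59, 7), (69, 702)], 3530, 557, 0, 7680, 6392, []⟩)) (.N 2 (.N 5 (.L ⟨[(0, 4), (1, 20), (12, 3), (14, 1), (15, 20), (40, 20), (41, 24), (42, 24), (60, 1), (69, 21)], 240, 0, 0, 34, 1, []⟩) (.N 3 (.L ⟨[(0, 5169), (1, 21029), (2, 142), (10, 2130), (12, 3039), (15, 21029), (38, 142), (40, 21171), (41, 26198), (60, 1278), (69, 22506)], 272640, 0, 0, 191700, 200930, []⟩) (.N 6 (.N 1 (.L ⟨[(0, 360), (1, 2236), (2, 65),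 (10, 360), (15, 2236), (38, 65), (41, 2596), (69, 2661)], 31200, 0, 0, 1170, 3575, []⟩) (.N 1 (.L ⟨[(0, 387), (1, 1867), (2, 71), (12, 387), (15, 1867), (38, 71), (40, 1938), (41, 2254), (60, 284), (69, 1473)], 34080, 0, 0, 3337, 1704, []⟩) (.N 6 (.N 3 (.L ⟨[(0, 20), (1, 91), (10, 20), (15, 91), (41, 46), (69, 111)], 960, 0, 0, 864, 536, []⟩) (.L ⟨[(0, 68), (1, 818), (2, 44), (12, 57), (14, 11), (15, 818), (38, 44), (41, 886), (42, 886), (60, 22), (69, 864)], 5280, 0, 0, 693, 1012, []⟩)) (.L ⟨[(0, 36), (1, 258), (2, 18), (14, 36), (15, 258), (38, 18), (40, 276), (41, 294), (42, 294), (60, 65), (69, 117)], 3456, 0, 0, 540, 0, []⟩)))) (.L ⟨[(0, 231), (1, 1191), (2, 63), (12, 84), (14, 147), (15, 1191), (38, 63), (40, 1254), (41, 1422), (60, 376), (69, 357)], 20160, 0, 0, 2709, 567, []⟩)))) (.L ⟨[(0, 20), (1, 826), (2, 40), (10, 20), (15, 411), (16, 415), (38, 40), (41,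 846), (60, 20), (69, 826)], 4600, 0, 0, 4800, 0, []⟩))) (.L ⟨[(0, 14550), (1, 90870), (10, 12600), (12, 1950), (15, 92820), (38, 2925), (41, 105420), (50, 10542), (58, 650), (59, 975), (69, 105420)], 528450, 18850, 0, 624000, 0, []⟩)) (.N 2 (.N 3 (.N 0 (.L ⟨[(0, 840), (1, 25656), (12, 1176), (14, 3696), (15, 25656), (38, 1512), (40, 25656), (41, 26496), (57, 1344), (59, 504), (60, 7355), (69, 4431)], 322560, 0, 0, 74928, 0, []⟩) (.N 3 (.L ⟨[], 0, 1, 0, 0, 0, []⟩) (.L ⟨[(0, 56), (1, 2920), (12, 504), (14, 56), (15, 2920), (38, 168), (40, 2920), (41, 2976), (57, 168), (59, 56), (60, 397), (69, 1785)], 26880, 0, 0, 8680, 0, []⟩))) (.L ⟨[(0, 1092), (1, 6084), (2, 420), (12, 462), (14, 630), (15, 6084), (38, 420), (40, 6504), (41, 7176), (60, 1909), (69, 1869)], 80640, 0, 0, 19194, 0, []⟩)) (.L ⟨[(0, 400), (1, 2380), (12, 175), (14, 225), (15, 2680), (38, 75), (41, 2780),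 (50, 278), (58, 100), (59, 25), (60, 375), (69, 1655)], 24000, 0, 0, 0, 0, []⟩))) (.L ⟨[(0, 750), (1, 22950), (10, 4716), (12, 375), (15, 22950), (38, 1125), (40, 22950), (41, 23700), (50, 1500), (57, 1447), (59, 375), (69, 23700)], 90000, 0, 0, 0, 0, []⟩))))) (.L ⟨[(0, 316), (1, 1729), (2, 91), (10, 316), (15, 1729), (38, 91), (40, 1820), (41, 2045), (42, 1521), (46, 182), (69, 2136)], 0, 10920, 0, 0, 0, []⟩))) (.L ⟨[(0, 180), (1, 4390), (11, 45), (13, 135), (16, 3065), (18, 1325), (39, 4390), (41, 4570), (42, 135), (53, 457), (69, 4570)], 0, 21600, 0, 0, 0, []⟩)) (.N 1 (.N 0 (.N 1 (.N 0 (.L ⟨[], 1, 0, 0, 0, 0, []⟩) (.L ⟨[(8, 3), (33, 3), (57, 1), (59, 1)], 60, 0, 0, 0, 0, []⟩)) (.L ⟨[(1, 96750), (8, 82650), (10, 33153), (15, 112875), (16, 22575), (33, 64500), (35, 35475), (41, 96750), (51, 9675), (57, 38601), (58, 12900), (59, 33325), (69, 96750)], 8256000, 0, 0,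 0, 0, []⟩)) (.N 2 (.N 1 (.L ⟨[(0, 1548), (1, 7482), (2, 1548), (6, 5160), (8, 54705), (15, 7482), (33, 46569), (35, 4128), (40, 9030), (41, 9030), (46, 903), (53, 903), (57, 19439), (59, 16383), (69, 10578)], 495360, 87075, 0, 0, 0, []⟩) (.L ⟨[(1, 32250), (8, 45450), (10, 15738), (15, 41925), (33, 45150), (35, 9030), (40, 32250), (41, 32250), (47, 3225), (51, 3225), (57, 20396), (58, 3225), (59, 18060), (69, 32250)], 619200, 0, 0, 0, 0, []⟩)) (.L ⟨[(1, 42570), (8, 8514), (18, 57405), (20, 14964), (33, 44478), (35, 1419), (41, 42570), (51, 4257), (57, 2838), (58, 9933), (59, 15299), (69, 42570)], 0, 340560, 0, 0, 0, []⟩))) (.N 0 (.N 2 (.N 5 (.N 0 (.N 1 (.L ⟨[(0, 3999), (1, 12321), (14, 3999), (15, 17217), (35, 612), (39, 8670), (41, 16320), (51, 1632), (58, 1632), (59, 204), (60, 5440)], 391680, 0, 0, 0, 0, []⟩) (.L ⟨[(1, 2760), (14, 630), (15, 2760), (40, 1920), (41,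 2760), (52, 276), (57, 210), (60, 815), (69, 315)], 25200, 0, 0, 0, 0, []⟩)) (.L ⟨[(1, 630), (12, 180), (15, 735), (40, 630), (41, 630), (48, 63), (51, 63), (57, 60), (58, 35), (69, 630)], 4200, 0, 0, 0, 0, []⟩)) (.N 1 (.N 0 (.N 5 (.N 6 (.L ⟨[(1, 12), (14, 3), (15, 12), (40, 12), (41, 12), (57, 1), (60, 4)], 320, 0, 0, 0, 0, []⟩) (.N 3 (.L ⟨[(0, 4645), (1, 10655), (13, 510), (14, 4135), (15, 19835), (35, 9180), (40, 1530), (41, 15300), (51, 1530), (58, 3060), (59, 3060), (60, 5100), (67, 42296)], 489600, 0, 0, 0, 0, []⟩) (.L ⟨[(0, 330), (1, 720), (13, 225), (14, 105), (15, 720), (35, 315), (40, 720), (41, 1050), (51, 105), (59, 105), (60, 350), (67, 2283)], 25200, 0, 0, 0, 0, []⟩))) (.L ⟨[(0, 14), (1, 530), (2, 14), (14, 14), (15, 530), (38, 119), (40, 544), (41, 544), (59, 35), (60, 186)], 6720, 0, 0, 0, 0, []⟩)) (.L ⟨[(1, 3840), (10, 2016), (15, 4224), (35, 1824),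 (40, 3048), (41, 3840), (51, 384), (57, 672), (58, 128), (59, 608), (60, 881), (69, 1197)], 61440, 0, 0, 0, 0, []⟩)) (.N 6 (.N 3 (.L ⟨[(1, 10770), (14, 2520), (15, 13395), (38, 735), (40, 10770), (41, 10770), (50, 1077), (57, 840), (58, 875), (59, 245), (60, 3590)], 134400, 0, 0, 0, 0, []⟩) (.L ⟨[(0, 903), (1, 6747), (14, 1158), (15, 6747), (38, 561), (39, 903), (40, 6747), (41, 7650), (50, 765), (57, 85), (59, 187), (60, 2550)], 65280, 0, 0, 1496, 0, []⟩)) (.L ⟨[(0, 420), (1, 7980), (14, 1680), (15, 7980), (35, 3555), (37, 225), (39, 420), (40, 840), (41, 8400), (50, 840), (57, 420), (59, 1260), (60, 2800), (67, 15759)], 0, 0, 0, 0, 0, []⟩)))) (.L ⟨[(0, 2838), (1, 39732), (14, 2838), (18, 86301), (33, 37800), (35, 1419), (41, 42570), (51, 4257), (58, 15523), (59, 13073), (69, 42570)], 170280, 29799, 0, 0, 0, []⟩)) (.L ⟨[(1, 64500), (8, 12900), (10, 45150), (15, 83850),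 (33, 56400), (35, 17802), (41, 64500), (51, 6450), (57, 19350), (58, 6450), (59, 24734), (60, 9675), (69, 35475)], 0, 0, 0, 0, 0, []⟩)))

theorem ok_F1_4m : tree_F1_4m.check prm_F1 ⟨-64, 64, -128, 128, -64, 64, -128, 128, -64, -64, -128, 128, 0, 672⟩ = true := by decide +kernel

def tree_F1_4p : Tree := .N 5 (.L ⟨[], 0, 0, 1, 0, 0, []⟩) (.N 6 (.N 5 (.L ⟨[], 0, 0, 1, 0, 0, []⟩) (.N 2 (.L ⟨[], 0, 0, 0, 0, 1, []⟩) (.N 6 (.N 1 (.L ⟨[(0, 596), (2, 125), (3, 596), (34, 90), (36, 35), (39, 125), (41, 596), (69, 721)], 7840, 0, 16310, 0, 33600, []⟩) (.L ⟨[(0, 781), (1, 1234), (2, 600), (5, 781), (15, 1234), (32, 120), (34, 480), (39, 1834), (41, 2015), (42, 2015), (69, 2615)], 0, 0, 21960, 24120, 28800, []⟩)) (.N 3 (.L ⟨[(15, 42), (38, 9), (58, 14), (59, 3)], 0, 534, 0, 0, 2880, []⟩) (.N 3 (.L ⟨[], 0, 0, 1, 0, 6, []⟩) (.N 2 (.L ⟨[], 0, 0, 1, 0, 2, []⟩) (.N 1 (.L ⟨[(0, 259),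 (2, 96), (3, 236), (5, 119), (34, 96), (39, 96), (41, 160), (57, 32), (69, 355)], 2688, 0, 3840, 0, 2528, []⟩) (.N 0 (.N 0 (.L ⟨[(7, 3225), (9, 600), (34, 1419), (57, 1275), (59, 473)], 66220, 0, 21758, 113520, 1892, []⟩) (.L ⟨[(0, 1488), (5, 84), (7, 1656), (34, 504), (41, 1488), (42, 1488), (57, 84), (59, 168), (60, 227), (69, 807)], 0, 0, 11592, 20160, 6888, []⟩)) (.L ⟨[(0, 237), (2, 321), (5, 90), (7, 147), (30, 171), (32, 150), (39, 321), (41, 237), (42, 237), (60, 50), (69, 408)], 0, 0, 1490, 4800, 3390, []⟩))))))))) (.N 2 (.N 3 (.L ⟨[(19, 3225), (21, 600), (34, 1419), (58, 1275), (59, 473)], 0, 7095, 1892, 0, 14190, []⟩) (.N 3 (.L ⟨[(21, 3), (32, 3), (58, 1), (59, 1)], 0, 0, 2, 0, 30, []⟩) (.L ⟨[(23, 1419), (30, 3225), (32, 600), (58, 473), (59, 1275)], 0, 0, 1419, 0, 28380, []⟩))) (.N 6 (.N 5 (.L ⟨[], 0, 0, 1, 0, 0, []⟩) (.N 1 (.L ⟨[(3, 546), (38, 117), (57,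 182), (59, 39)], 0, 0, 5760, 0, 0, []⟩) (.N 3 (.L ⟨[(0, 90), (1, 243), (11, 90), (15, 708), (36, 180), (41, 333), (58, 155), (59, 60), (69, 333)], 0, 0, 2460, 0, 7200, []⟩) (.N 3 (.L ⟨[(1, 1254), (11, 525), (18, 1875), (39, 1254), (41, 1254), (42, 1254), (57, 175), (58, 207), (60, 105), (69, 939)], 0, 0, 12145, 0, 1075200, []⟩) (.N 2 (.L ⟨[(0, 3999), (9, 3225), (11, 774), (30, 1032), (32, 3417), (42, 3999), (59, 1483), (60, 1333)], 0, 0, 54180, 0, 123840, []⟩) (.N 0 (.N 1 (.L ⟨[(0, 2406), (7, 1941), (9, 2058), (32, 354), (34, 1239), (41, 2406), (42, 2406), (57, 531), (59, 531), (60, 802)], 0, 0, 21240, 18408, 5841, []⟩) (.L ⟨[(0, 3225), (9, 4773), (32, 2973), (34, 516), (41, 3225), (42, 3225), (57, 516), (59, 1163), (60, 1075)], 0, 0, 10836, 30960, 6708, []⟩)) (.N 1 (.L ⟨[(0, 7224), (7, 6192), (9, 1032), (32, 4872), (41, 7224), (42, 7224), (59, 1624), (60, 387), (69,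 6063)], 0, 0, 22188, 15609, 30960, []⟩) (.N 0 (.L ⟨[(0, 3711), (2, 4233), (9, 3711), (30, 630), (32, 3603), (39, 4233), (41, 3711), (42, 3711), (60, 2018), (69, 1890)], 0, 0, 23310, 75600, 26460, []⟩) (.L ⟨[(2, 135), (30, 125), (32, 10), (60, 5), (66, 109), (69, 120)], 0, 0, 150, 580, 600, []⟩))))))))) (.N 5 (.L ⟨[(34, 3), (59, 1), (66, 15)], 0, 0, 60, 0, 0, []⟩) (.L ⟨[(34, 3), (59, 1), (66, 15)], 0, 0, 30, 0, 0, []⟩)))))

theorem ok_F1_4p : tree_F1_4p.check prm_F1 ⟨-64, 64, -128, 128, -64, 64, -128, 128, 64, 64, -128, 128, 0, 672⟩ = true := by decide +kernel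

def tree_F1_5m : Tree := .N 6 (.N 4 (.N 3 (.N 2 (.L ⟨[(2, 62), (28, 62), (46, 1), (69, 62)], 199, 960, 0, 0, 0, []⟩) (.N 3 (.L ⟨[], 0, 1, 0, 0, 0, []⟩) (.L ⟨[(0, 230), (1, 8970), (2, 15627), (14, 230), (20, 7448), (22, 1522), (27, 15627), (39, 24597), (41, 9200), (42, 9200), (53, 920), (69, 24827)], 0, 220800, 100280, 127880, 0, []⟩))) (.L ⟨[(1, 20), (2, 57), (20, 8), (22, 12), (27, 57), (39, 42), (41, 20), (42, 20), (53, 2), (69, 77)], 52, 0, 480, 0, 0, []⟩)) (.L ⟨[], 0, 0, 1, 0, 0, []⟩)) (.N 3 (.N 3 (.N 6 (.L ⟨[], 0, 1, 0, 0, 0, []⟩) (.N 2 (.L ⟨[(23, 15), (27, 60), (58, 5), (59, 20), (63, 138), (65, 75)], 0, 800, 0, 0, 0, []⟩) (.L ⟨[(22, 15), (27, 60), (58, 5), (59, 20), (63, 138), (68, 75)], 0, 800, 0, 0, 0, []⟩))) (.L ⟨[(26, 9), (27, 42), (58, 3), (59, 14)], 0, 480, 0, 0, 0, []⟩)) (.L ⟨[(26, 9), (27, 42), (58, 3), (59, 14)], 0, 0, 0, 0, 0, []⟩))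

theorem ok_F1_5m : tree_F1_5m.check prm_F1 ⟨-64, 64, -128, 128, -64, 64, -128, 128, -64, 64, -128, -128, 0, 672⟩ = true := by decide +kernel

def tree_F1_5p : Tree := .N 6 (.N 6 (.N 3 (.N 0 (.N 2 (.N 2 (.L ⟨[(0, 28), (1, 385), (2, 28), (10, 28), (15, 385), (38, 28), (41, 413), (42, 413), (69, 441)], 3440, 1064, 0, 1452, 3840, []⟩) (.L ⟨[(1, 490), (2, 70), (15, 490), (36, 55), (38, 15), (41, 490), (42, 490), (69, 560)], 2814, 1086, 0, 2490, 2880, []⟩)) (.L ⟨[(1, 149), (2, 36), (15, 149), (34, 14), (36, 22), (39, 185), (41, 149), (42, 149), (69, 185)], 484, 462, 0, 1320, 462, []⟩)) (.L ⟨[(1, 27), (2, 10), (15, 27), (34, 8), (36, 2), (39, 37), (40, 37), (41, 27), (42, 27), (69, 37)], 0, 240, 0, 0, 22, []⟩)) (.N 1 (.L ⟨[(0, 9), (1, 2), (2, 2), (3, 9), (15, 2), (36, 2), (39, 2), (40, 4), (41, 11), (42, 11), (69, 13)], 120, 0, 0, 0, 46, []⟩) (.N 0 (.N 2 (.N 4 (.N 3 (.L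 ⟨[(0, 4), (1, 251), (2, 32), (10, 4), (15, 251), (36, 22), (38, 10), (41, 255), (42, 255), (69, 287)], 1872, 0, 0, 1398, 1920, []⟩) (.N 2 (.N 1 (.L ⟨[(0, 272), (2, 10), (3, 92), (4, 180), (38, 10), (41, 272), (69, 282)], 4800, 0, 0, 0, 3235, []⟩) (.N 2 (.N 2 (.L ⟨[(0, 18), (1, 52), (2, 20), (3, 15), (5, 3), (15, 52), (34, 20), (39, 72), (41, 70), (69, 90)], 165, 0, 0, 387, 720, []⟩) (.L ⟨[(0, 205), (1, 220), (2, 84), (3, 201), (5, 4), (15, 220), (34, 12), (36, 72), (39, 304), (41, 425), (42, 425), (69, 509)], 0, 0, 0, 3840, 3444, []⟩)) (.L ⟨[(0, 53), (1, 48), (2, 20), (3, 49), (5, 4), (15, 48), (34, 4), (36, 16), (39, 68), (41, 101), (42, 101), (69, 121)], 0, 0, 0, 960, 760, []⟩))) (.L ⟨[(0, 7), (1, 4), (2, 2), (3, 7), (15, 4), (36, 2), (39, 6), (41, 11), (42, 11), (69, 13)], 0, 0, 0, 120, 74, []⟩))) (.L ⟨[(0, 249), (1, 284), (5, 169), (7, 80), (18, 204), (20, 80),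 (39, 284), (41, 533), (42, 533), (69, 533)], 0, 0, 0, 2640, 9600, []⟩)) (.L ⟨[(0, 300), (1, 111), (2, 90), (3, 300), (15, 111), (34, 24), (36, 66), (39, 201), (40, 201), (41, 411), (42, 411), (69, 501)], 0, 0, 0, 7680, 1996, []⟩)) (.L ⟨[(1, 669), (2, 256), (15, 669), (34, 224), (36, 32), (39, 925), (40, 925), (41, 549), (42, 669), (69, 925)], 0, 0, 0, 192, 192, []⟩)))) (.N 3 (.N 1 (.L ⟨[(1, 1071), (15, 1659), (36, 306), (38, 126), (39, 1071), (40, 1071), (41, 1071), (42, 1071), (46, 90), (58, 196), (59, 144), (69, 1071)], 8640, 0, 0, 0, 1062, []⟩) (.N 0 (.N 2 (.N 4 (.N 2 (.N 0 (.L ⟨[(1, 840), (15, 840), (38, 180), (40, 840), (41, 840), (42, 840), (59, 60), (60, 175), (69, 315)], 3252, 4956, 0, 3888, 5760, []⟩) (.L ⟨[(1, 60), (15, 60), (38, 12), (40, 48), (41, 60), (42, 60), (59, 4), (60, 11), (69, 27)], 107, 399, 0, 0, 480, []⟩)) (.L ⟨[(1, 132), (15, 138), (38, 27),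 (40, 96), (41, 132), (42, 132), (58, 2), (59, 9), (60, 23), (69, 63)], 397, 960, 0, 781, 737, []⟩)) (.L ⟨[], 0, 11, 0, 0, 15, []⟩)) (.L ⟨[(1, 525), (15, 609), (36, 150), (38, 18), (39, 525), (40, 525), (41, 525), (42, 525), (58, 28), (59, 56), (69, 525)], 0, 1232, 0, 6720, 280, []⟩)) (.L ⟨[(1, 819), (15, 903), (36, 234), (38, 18), (39, 819), (40, 819), (41, 819), (42, 819), (58, 28), (59, 84), (69, 819)], 0, 0, 0, 0, 504, []⟩))) (.N 1 (.L ⟨[(0, 1579), (1, 1000), (2, 1249), (3, 4189), (15, 1000), (36, 1023), (38, 226), (39, 2249), (40, 2249), (41, 2579), (42, 2579), (46, 174), (57, 870), (69, 3828)], 30720, 0, 0, 0, 7568, []⟩) (.N 6 (.N 0 (.N 2 (.N 4 (.N 3 (.N 2 (.L ⟨[(1, 408), (2, 60), (15, 408), (38, 60), (41, 408), (42, 360), (60, 60), (69, 288)], 2705, 0, 0, 2245, 4800, []⟩) (.L ⟨[(1, 66), (2, 14), (15, 66), (36, 7), (38, 7), (39, 64), (41, 66), (42, 66), (60, 10),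 (69, 50)], 275, 0, 0, 432, 480, []⟩)) (.N 1 (.L ⟨[(0, 7), (1, 4), (2, 2), (3, 7), (15, 4), (36, 2), (39, 6), (41, 11), (42, 11), (69, 13)], 120, 0, 0, 30, 78, []⟩) (.N 0 (.N 2 (.N 4 (.N 2 (.N 3 (.L ⟨[(1, 312), (2, 30), (15, 192), (16, 120), (38, 30), (41, 312), (60, 35), (69, 237)], 2240, 0, 0, 2315, 4800, []⟩) (.L ⟨[(0, 425), (1, 332), (2, 142), (3, 425), (15, 332), (36, 130), (38, 12), (39, 474), (41, 757), (42, 757), (60, 18), (69, 845)], 322, 0, 0, 5620, 7680, []⟩)) (.L ⟨[(0, 159), (1, 112), (2, 30), (3, 159), (15, 24), (16, 88), (38, 30), (39, 142), (41, 271), (42, 271), (60, 21), (69, 238)], 0, 0, 0, 2880, 2808, []⟩)) (.L ⟨[(0, 2723), (2, 1424), (3, 2383), (5, 340), (32, 1304), (34, 120), (60, 140), (69, 3727)], 0, 0, 0, 49440, 76800, []⟩)) (.L ⟨[(0, 896), (1, 40), (2, 165), (3, 896), (15, 40), (36, 165), (41, 936), (42, 60), (60, 50), (69, 951)], 0, 0, 0, 19200,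 8700, []⟩)) (.L ⟨[(1, 79), (2, 32), (15, 79), (34, 32), (39, 111), (40, 111), (41, 39), (42, 79), (69, 111)], 0, 0, 0, 130, 195, []⟩)))) (.L ⟨[(0, 2430), (1, 2018), (7, 2430), (18, 646), (20, 1372), (39, 2018), (41, 4448), (42, 4448), (60, 323), (69, 3479)], 0, 0, 0, 29070, 155040, []⟩)) (.N 3 (.L ⟨[(1, 135), (2, 50), (15, 135), (34, 40), (36, 10), (39, 185), (40, 185), (41, 135), (42, 135), (69, 185)], 726, 0, 0, 1920, 324, []⟩) (.N 1 (.L ⟨[(0, 1089), (2, 252), (3, 621), (5, 468), (34, 252), (39, 252), (40, 252), (41, 1089), (42, 1089), (69, 1341)], 9800, 0, 0, 13440, 4536, []⟩) (.L ⟨[(0, 1235), (2, 308), (3, 471), (5, 764), (34, 308), (39, 308), (40, 308), (41, 1235), (42, 1235), (60, 56), (69, 1375)], 1400, 0, 0, 26880, 5320, []⟩)))) (.L ⟨[(0, 8), (1, 153), (2, 64), (3, 8), (15, 153), (34, 64), (39, 217), (40, 217), (41, 73), (42, 161), (69, 225)], 0, 0, 0, 0, 0,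 []⟩)) (.N 3 (.N 1 (.N 0 (.N 4 (.N 2 (.L ⟨[(1, 7), (2, 2), (15, 7), (38, 2), (39, 9), (40, 5), (41, 7), (42, 7), (60, 3)], 48, 0, 0, 31, 60, []⟩) (.L ⟨[(0, 825), (2, 162), (3, 825), (38, 162), (39, 162), (41, 738), (60, 257), (69, 216)], 2376, 0, 0, 25920, 6534, []⟩)) (.N 2 (.L ⟨[], 0, 0, 0, 0, 1, []⟩) (.L ⟨[(0, 288), (2, 60), (3, 288), (38, 60), (39, 60), (40, 60), (41, 288), (60, 95), (69, 63)], 1116, 0, 0, 8640, 3969, []⟩))) (.L ⟨[(1, 643), (2, 288), (3, 192), (15, 643), (34, 160), (36, 128), (39, 931), (40, 931), (41, 507), (42, 643), (46, 64), (57, 64), (69, 931)], 0, 0, 0, 0, 0, []⟩)) (.N 0 (.N 2 (.N 4 (.L ⟨[(1, 126), (2, 42), (15, 126), (36, 9), (38, 33), (39, 168), (40, 168), (41, 126), (42, 126), (60, 56)], 90, 0, 0, 864, 1080, []⟩) (.L ⟨[], 0, 0, 0, 0, 1, []⟩)) (.L ⟨[(1, 50), (2, 11), (15, 50), (36, 11), (40, 4), (60, 8), (69, 37)], 0, 0, 0, 1920, 303, []⟩))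 (.L ⟨[(1, 79), (2, 32), (15, 79), (34, 32), (39, 111), (40, 111), (41, 39), (42, 79), (69, 111)], 0, 0, 0, 0, 0, []⟩))) (.N 1 (.N 0 (.N 1 (.L ⟨[(0, 818), (1, 400), (2, 740), (3, 1693), (5, 250), (19, 400), (34, 540), (36, 200), (39, 1140), (40, 1140), (42, 1218), (57, 375), (69, 1958)], 24000, 0, 0, 0, 0, []⟩) (.N 0 (.N 2 (.N 4 (.L ⟨[(0, 27), (2, 6), (3, 27), (38, 6), (39, 6), (41, 6), (60, 11)], 480, 0, 0, 244, 294, []⟩) (.L ⟨[(0, 168), (2, 36), (3, 168), (36, 18), (38, 18), (60, 47), (69, 63)], 6606, 0, 0, 0, 8640, []⟩)) (.L ⟨[(0, 99), (2, 39), (7, 75), (9, 24), (34, 39), (39, 39), (42, 36), (60, 46)], 2172, 0, 0, 2880, 720, []⟩)) (.N 2 (.N 4 (.L ⟨[(0, 60), (1, 18), (2, 18), (3, 60), (15, 18), (38, 18), (39, 36), (41, 36), (60, 32)], 243, 0, 0, 711, 1080, []⟩) (.L ⟨[(0, 168), (2, 36), (3, 168), (36, 36), (60, 26), (69, 126)], 1651, 0, 0, 0, 6240, []⟩)) (.L ⟨[(0,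 1079), (2, 353), (5, 140), (7, 939), (34, 353), (39, 353), (40, 353), (41, 1079), (42, 1079), (60, 280), (69, 592)], 0, 0, 0, 8400, 2940, []⟩)))) (.L ⟨[(0, 39), (1, 1111), (2, 608), (3, 234), (5, 156), (15, 1033), (17, 78), (34, 608), (39, 1719), (40, 1719), (42, 1150), (57, 117), (69, 1758)], 0, 0, 0, 0, 0, []⟩)) (.N 0 (.N 2 (.N 4 (.N 2 (.L ⟨[(0, 126), (1, 36), (2, 42), (3, 21), (5, 105), (15, 36), (36, 21), (38, 21), (39, 78), (41, 162), (60, 68)], 0, 0, 0, 1260, 2520, []⟩) (.L ⟨[(0, 91), (1, 39), (2, 35), (5, 91), (15, 39), (36, 20), (38, 15), (39, 74), (41, 130), (60, 55)], 0, 0, 0, 1200, 1165, []⟩)) (.L ⟨[(0, 9069), (1, 1419), (2, 2838), (7, 6450), (9, 2619), (20, 1419), (34, 2838), (60, 4442)], 0, 0, 0, 73788, 340560, []⟩)) (.N 0 (.L ⟨[(0, 3519), (2, 1419), (7, 2967), (9, 552), (34, 1419), (39, 1419), (60, 1646)], 23184, 0, 0, 132480, 24840, []⟩) (.L ⟨[(0, 53369),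 (1, 10640), (2, 22683), (7, 43289), (9, 10080), (15, 10640), (34, 22683), (39, 33323), (40, 33323), (41, 64009), (42, 64009), (60, 17360), (69, 34612)], 0, 0, 0, 537600, 162960, []⟩))) (.L ⟨[(0, 390), (1, 4037), (2, 1888), (11, 390), (15, 4037), (34, 1888), (39, 5925), (40, 5925), (41, 1170), (42, 4427), (60, 546), (69, 4677)], 0, 0, 0, 0, 0, []⟩)))))))) (.N 6 (.N 3 (.L ⟨[(15, 42), (38, 9), (58, 14), (59, 3)], 0, 0, 0, 0, 0, []⟩) (.N 1 (.L ⟨[(3, 42), (38, 9), (57, 14), (59, 3)], 0, 0, 0, 0, 0, []⟩) (.N 3 (.N 3 (.L ⟨[(15, 42), (38, 9), (58, 14), (59, 3)], 0, 0, 0, 0, 0, []⟩) (.N 1 (.N 0 (.N 1 (.L ⟨[(3, 42), (38, 9), (57, 14), (59, 3)], 0, 0, 0, 0, 0, []⟩) (.N 2 (.N 4 (.L ⟨[(1, 987), (7, 168), (15, 987), (36, 75), (38, 261), (39, 987), (40, 987), (41, 987), (42, 987), (57, 56), (59, 112), (60, 329)], 5880, 0, 0, 2744, 6720, []⟩) (.L ⟨[], 0, 0, 0, 0, 1, []⟩)) (.L ⟨[(1,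 16971), (2, 2400), (7, 10848), (9, 2400), (15, 16971), (36, 7200), (38, 2400), (39, 19371), (40, 19371), (41, 16971), (42, 16971), (57, 4416), (59, 2400), (60, 6457)], 0, 0, 0, 144000, 33600, []⟩))) (.L ⟨[(1, 2164), (2, 961), (3, 644), (5, 736), (15, 1796), (17, 368), (34, 276), (36, 961), (39, 3125), (40, 3125), (42, 2164), (57, 460), (59, 92), (60, 368), (69, 2021)], 0, 0, 0, 0, 0, []⟩)) (.N 0 (.N 2 (.N 4 (.L ⟨[(1, 7329), (9, 672), (15, 7329), (36, 516), (38, 1836), (39, 7329), (40, 7329), (41, 7329), (42, 7329), (57, 224), (59, 784), (60, 2443)], 0, 0, 0, 27440, 53760, []⟩) (.L ⟨[], 0, 0, 0, 0, 1, []⟩)) (.L ⟨[(1, 504), (2, 210), (15, 504), (36, 153), (38, 57), (39, 714), (40, 714), (60, 238)], 0, 0, 0, 437760, 3591, []⟩)) (.L ⟨[(1, 8652), (2, 5031), (11, 2646), (15, 8652), (34, 3708), (36, 1323), (39, 13683), (40, 13683), (41, 1323), (42, 8652), (57, 882), (60,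 3532), (69, 3087)], 0, 0, 0, 0, 0, []⟩)))) (.N 6 (.N 1 (.N 3 (.N 0 (.N 4 (.L ⟨[(0, 4224), (1, 29241), (2, 20736), (7, 8448), (9, 17952), (15, 29241), (34, 1056), (36, 19680), (39, 49977), (40, 49977), (41, 33465), (42, 33465), (57, 7392), (60, 18067)], 253440, 0, 0, 0, 85536, []⟩) (.N 2 (.L ⟨[], 0, 0, 0, 0, 1, []⟩) (.L ⟨[(0, 10788), (2, 4905), (7, 14124), (9, 624), (34, 1824), (36, 3081), (39, 4905), (40, 4905), (41, 10788), (42, 10788), (57, 1320), (60, 5231)], 0, 0, 0, 92160, 72288, []⟩))) (.L ⟨[(1, 139), (2, 96), (3, 64), (5, 32), (15, 91), (17, 48), (34, 96), (39, 235), (40, 235), (42, 110), (57, 32), (69, 235)], 0, 0, 0, 0, 0, []⟩)) (.L ⟨[(0, 13419), (1, 1890), (2, 13197), (7, 26019), (9, 2520), (23, 1890), (34, 13197), (39, 15087), (40, 15087), (42, 15309), (57, 5040), (60, 9502)], 75600, 0, 0, 0, 0, []⟩)) (.N 0 (.N 4 (.N 2 (.N 2 (.L ⟨[(0, 201), (1, 180), (2,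 108), (3, 120), (5, 81), (15, 180), (36, 54), (38, 54), (39, 288), (60, 163)], 0, 0, 0, 3186, 6480, []⟩) (.L ⟨[(0, 2187), (1, 159), (2, 636), (5, 2073), (7, 114), (15, 159), (36, 477), (38, 159), (39, 795), (41, 2346), (60, 994)], 0, 0, 0, 19080, 17967, []⟩)) (.L ⟨[(0, 4032), (1, 1911), (2, 1908), (9, 4032), (15, 1911), (34, 954), (36, 954), (39, 3819), (41, 5943), (42, 5943), (60, 2617)], 5724, 0, 0, 57240, 19080, []⟩)) (.N 2 (.L ⟨[(0, 207), (2, 87), (7, 161), (9, 46), (34, 87), (39, 87), (60, 98), (64, 46)], 0, 0, 0, 2622, 22080, []⟩) (.N 0 (.L ⟨[(0, 525), (2, 687), (7, 1341), (9, 396), (34, 687), (39, 687), (42, 525), (57, 404), (60, 404)], 3636, 0, 0, 24240, 0, []⟩) (.L ⟨[(0, 9261), (1, 1197), (2, 4215), (7, 1197), (9, 8064), (15, 1197), (34, 4215), (39, 5412), (40, 5412), (41, 10458), (42, 10458), (60, 4891)], 0, 0, 0, 35910, 25137, []⟩)))) (.L ⟨[(0, 882), (1,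 15351), (2, 10296), (11, 6174), (15, 14469), (17, 882), (34, 10296), (39, 25647), (40, 25647), (42, 16233), (57, 1764), (60, 7079), (69, 5292)], 0, 0, 0, 0, 0, []⟩))) (.N 1 (.L ⟨[(1, 2016), (2, 7920), (3, 12804), (5, 11223), (17, 720), (19, 1296), (36, 5904), (38, 2016), (39, 9936), (40, 9936), (42, 2016), (57, 8009), (60, 3312)], 34560, 0, 0, 0, 0, []⟩) (.N 3 (.N 4 (.N 2 (.L ⟨[(0, 33), (1, 107), (2, 91), (9, 88), (11, 11), (15, 107), (34, 11), (36, 80), (39, 198), (40, 198), (41, 140), (42, 140), (57, 22), (60, 77), (64, 222)], 0, 0, 0, 0, 660, []⟩) (.L ⟨[(1, 7843), (2, 6146), (9, 7728), (11, 966), (15, 7843), (34, 4214), (36, 1932), (39, 13989), (41, 7843), (42, 2898), (57, 2898), (60, 4663)], 0, 0, 0, 0, 8694, []⟩)) (.L ⟨[(1, 46400), (2, 36400), (9, 18285), (11, 22080), (15, 39155), (17, 7245), (34, 43645), (39, 82800), (40, 82800), (42, 46400), (57, 13455), (59,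 2415), (60, 27600), (64, 32697)], 0, 0, 0, 0, 0, []⟩)) (.L ⟨[(0, 10655), (2, 11845), (7, 1000), (9, 17155), (34, 9345), (36, 2500), (39, 11845), (40, 11845), (42, 10655), (57, 2500), (60, 7500), (64, 58787)], 24000, 0, 0, 0, 0, []⟩))))))) (.L ⟨[(38, 15), (59, 5), (64, 336)], 0, 0, 0, 0, 0, []⟩))

theorem ok_F1_5p : tree_F1_5p.check prm_F1 ⟨-64, 64, -128, 128, -64, 64, -128, 128, -64, 64, 128, 128, 0, 672⟩ = true := by decide +kernel

end Pool.Agent.H30.P6
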