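import Pool.Agent.H30.P6.Base

/-! certificate F11 (generated) -/

set_option autoImplicit false
set_option maxRecDepth 100000

namespace Pool.Agent.H30.P6

def prm_F11 : Prm := ⟨32, 256, base ++ [⟨0, 0, 0, 0, 0, 0, 0, 0, -112, 0, 0, 0, 0, 0, 0, 0, 0, 0, 1, 0, 0⟩], []⟩

def tree_F11_0m : Tree := .N 6 (.L ⟨[(0, 9), (14, 9), (69, 9)], 960, 39, 26, 0, 0, []⟩) (.L ⟨[(1, 3225), (9, 13803), (11, 15222), (20, 39903), (39, 3225), (41, 3225), (42, 3225), (57, 9675), (58, 12226), (69, 3225)], 387000, 0, 0, 0, 0, []⟩)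

theorem ok_F11_0m : tree_F11_0m.check prm_F11 ⟨-32, -32, -64, 64, 0, 32, -64, 64, -32, 32, -64, 64, 0, 336⟩ = true := by decide +kernel

def tree_F11_0p : Tree := .N 6 (.N 6 (.N 3 (.N 6 (.L ⟨[(0, 1), (1, 49), (2, 5), (14, 1), (26, 49), (38, 5), (53, 5), (69, 55)], 0, 3840, 547, 0, 0, []⟩) (.N 5 (.N 4 (.N 1 (.L ⟨[(0, 26712), (1, 232008), (2, 75432), (10, 6552), (12, 20160), (24, 44370), (26, 187638), (35, 75432), (41, 258720), (46, 30744), (53, 25872), (60, 33523), (69, 233583)], 0, 20643840, 4059048, 0, 0, []⟩) (.L ⟨[(0, 10), (14, 10), (53, 1), (69, 10)], 0, 120, 23, 6, 0, []⟩)) (.L ⟨[(2, 11), (38, 11), (69, 11)], 0, 202, 1920, 0, 0, []⟩)) (.L ⟨[(2, 3), (38, 3), (69, 3)], 0, 60, 25, 0, 0, []⟩))) (.L ⟨[(0, 1), (1, 29), (2, 1), (14, 1), (26, 29), (38, 1), (46, 3), (69, 31)], 0, 0, 240, 0, 0, []⟩)) (.N 3 (.N 3 (.L ⟨[], 0, 1, 0, 0, 0, []⟩) (.N 5 (.N 4 (.N 6 (.L ⟨[(0, 103488), (1,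 71232), (2, 184128), (10, 103488), (24, 26880), (26, 44352), (33, 109200), (35, 74928), (41, 174720), (46, 25536), (53, 17472), (60, 88117), (69, 94497)], 0, 10321920, 4894848, 0, 0, []⟩) (.L ⟨[(0, 72240), (2, 136080), (10, 72240), (33, 136080), (41, 72240), (46, 7224), (53, 7224), (60, 64495), (69, 14835)], 0, 3467520, 2037168, 0, 0, []⟩)) (.L ⟨[(0, 840), (2, 1260), (10, 840), (37, 1215), (38, 45), (41, 840), (46, 126), (53, 84), (60, 425), (69, 825)], 0, 32508, 322560, 0, 0, []⟩)) (.N 1 (.L ⟨[(0, 840), (2, 2103), (10, 840), (37, 1215), (38, 888), (41, 840), (46, 204), (51, 84), (60, 425), (69, 1668)], 0, 46080, 41340, 0, 0, []⟩) (.L ⟨[(0, 490), (2, 295), (12, 490), (37, 529), (41, 364), (52, 49), (59, 78), (60, 94), (69, 503)], 0, 11606, 15360, 0, 0, []⟩)))) (.N 1 (.L ⟨[(1, 148), (2, 2), (10, 12), (26, 148), (38, 2), (40, 150), (46, 15), (57, 4), (69, 150)], 0, 0, 1280, 0, 0,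 []⟩) (.L ⟨[(0, 25), (1, 555), (2, 5), (12, 95), (14, 5), (25, 35), (26, 520), (38, 5), (40, 560), (46, 56), (57, 25), (69, 585)], 0, 0, 4800, 0, 0, []⟩)))) (.N 5 (.N 4 (.N 3 (.N 5 (.N 3 (.L ⟨[(8, 3), (33, 3), (57, 1), (59, 1)], 0, 60, 2, 0, 0, []⟩) (.L ⟨[(0, 1290), (8, 5934), (10, 387), (31, 645), (33, 6414), (41, 1290), (53, 129), (57, 1677), (59, 2353), (60, 430)], 0, 26187, 61920, 0, 0, []⟩)) (.L ⟨[(0, 122550), (8, 1723752), (10, 40635), (33, 907902), (35, 518193), (41, 122550), (52, 12255), (57, 547279), (59, 475365), (69, 122550)], 0, 2999895, 19814400, 0, 0, []⟩)) (.L ⟨[(0, 41280), (2, 41280), (10, 41280), (33, 68400), (35, 2064), (46, 4128), (53, 4128), (59, 9728), (60, 24295), (69, 9675)], 0, 0, 0, 0, 0, []⟩)) (.N 5 (.N 4 (.L ⟨[(8, 3), (33, 3), (57, 1), (59, 1)], 0, 0, 60, 0, 0, []⟩) (.L ⟨[], 0, 0, 1, 0, 0, []⟩)) (.L ⟨[(2, 6450), (8, 39150), (10, 3225), (35, 25671), (46,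 645), (57, 14125), (59, 6407), (69, 6450)], 0, 144480, 2476800, 0, 0, []⟩))) (.N 4 (.L ⟨[(0, 6450), (2, 12900), (8, 126450), (10, 7095), (35, 80109), (41, 6450), (46, 1290), (51, 645), (57, 42365), (59, 22403), (69, 19350)], 0, 309600, 0, 0, 0, []⟩) (.N 1 (.L ⟨[(1, 568890), (2, 18060), (8, 1348200), (10, 36120), (15, 568890), (37, 1081665), (38, 180600), (40, 586950), (41, 568890), (46, 4515), (47, 54180), (51, 56889), (57, 461440), (59, 414735), (69, 586950)], 0, 0, 34675200, 0, 0, []⟩) (.L ⟨[(1, 2472), (10, 2520), (15, 2472), (37, 3375), (38, 840), (40, 2472), (41, 2472), (57, 840), (59, 1405), (69, 2472)], 0, 0, 100800, 0, 0, []⟩))))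

theorem ok_F11_0p : tree_F11_0p.check prm_F11 ⟨32, 32, -64, 64, 0, 32, -64, 64, -32, 32, -64, 64, 0, 336⟩ = true := by decide +kernel

def tree_F11_1m : Tree := .N 6 (.N 0 (.L ⟨[], 1, 0, 0, 0, 0, []⟩) (.N 6 (.N 3 (.N 5 (.N 6 (.L ⟨[(1, 380), (2, 30), (26, 380), (38, 30), (46, 41), (53, 38), (69, 410)], 3942, 30720, 4204, 0, 0, []⟩) (.N 4 (.N 3 (.L ⟨[], 0, 1, 0, 0, 0, []⟩) (.N 6 (.L ⟨[(1, 420000), (2, 53060), (24, 61595), (26, 358405), (35, 8400), (37, 44660), (39, 473060), (41, 420000), (45, 47306), (53, 42000), (60, 25200), (69, 397460)], 3570000, 32256000, 5040000, 0, 0, []⟩) (.N 0 (.L ⟨[(1, 624750), (2, 125790), (24, 175890), (26, 448860), (35, 107940), (37, 17850), (39, 750540), (41, 624750), (45, 75054), (53, 62475), (60, 68425), (69, 545265)], 5804225, 45696000, 8309175, 0, 0, []⟩) (.L ⟨[(1, 4250), (2, 790), (24, 1085), (26, 3165), (35, 620), (37, 170), (39, 5040), (41,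 4250), (45, 504), (53, 425), (60, 425), (69, 3765)], 0, 326400, 57290, 0, 0, []⟩)))) (.L ⟨[(2, 11), (38, 11), (45, 1), (69, 11)], 80, 216, 1920, 0, 0, []⟩))) (.L ⟨[(2, 3), (38, 3), (69, 3)], 22, 60, 25, 0, 0, []⟩)) (.L ⟨[(1, 103), (2, 7), (26, 103), (38, 7), (46, 11), (69, 110)], 960, 0, 901, 0, 0, []⟩)) (.N 3 (.N 3 (.L ⟨[], 0, 1, 0, 0, 0, []⟩) (.N 5 (.N 4 (.N 0 (.L ⟨[(0, 6120), (1, 1500), (3, 6120), (26, 1500), (39, 1500), (41, 1500), (45, 150), (53, 762), (60, 2495), (69, 135)], 60435, 230400, 45180, 0, 0, []⟩) (.L ⟨[(0, 9210), (1, 2520), (2, 180), (3, 9210), (26, 2520), (38, 180), (39, 2700), (41, 2700), (45, 270), (53, 1173), (60, 3760), (69, 630)], 0, 345600, 67770, 0, 0, []⟩)) (.L ⟨[(0, 756), (1, 84), (2, 1806), (3, 756), (22, 84), (38, 1806), (39, 1890), (41, 840), (44, 189), (53, 84), (60, 344), (69, 1614)], 14028, 51240, 645120, 0, 0, []⟩)) (.L ⟨[(0, 336), (1, 84), (2,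 1386), (3, 462), (22, 84), (38, 1386), (39, 1470), (41, 420), (44, 147), (53, 42), (57, 42), (60, 178), (69, 1272)], 7014, 40320, 15960, 0, 0, []⟩))) (.L ⟨[(1, 10890), (3, 3225), (26, 10890), (38, 702), (39, 10890), (42, 10890), (44, 1089), (57, 1075), (59, 234), (60, 126), (69, 10512)], 63819, 0, 69120, 0, 0, []⟩)))) (.N 3 (.N 3 (.N 6 (.L ⟨[], 0, 1, 0, 0, 0, []⟩) (.L ⟨[(3, 60), (22, 15), (57, 20), (58, 5), (63, 138), (68, 75)], 0, 800, 0, 0, 0, []⟩)) (.L ⟨[(3, 5250), (24, 270), (26, 945), (57, 1750), (58, 405), (68, 1008)], 0, 64800, 0, 0, 0, []⟩)) (.L ⟨[(3, 42), (26, 9), (57, 14), (58, 3)], 0, 0, 0, 0, 0, []⟩))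

theorem ok_F11_1m : tree_F11_1m.check prm_F11 ⟨-32, 32, -64, -64, 0, 32, -64, 64, -32, 32, -64, 64, 0, 336⟩ = true := by decide +kernel

def tree_F11_1p : Tree := .L ⟨[(0, 1), (14, 1), (69, 1)], 0, 0, 0, 0, 0, []⟩

theorem ok_F11_1p : tree_F11_1p.check prm_F11 ⟨-32, 32, 64, 64, 0, 32, -64, 64, -32, 32, -64, 64, 0, 336⟩ = true := by decide +kernel

def tree_F11_2p : Tree := .N 6 (.N 6 (.N 3 (.N 0 (.L ⟨[], 2, 0, 0, 3, 0, []⟩) (.N 3 (.L ⟨[], 0, 1, 0, 0, 0, []⟩) (.N 3 (.L ⟨[], 0, 1, 0, 0, 0, []⟩) (.N 1 (.N 5 (.N 4 (.N 6 (.L ⟨[(1, 110), (2, 8), (26, 110), (38, 8), (53, 11), (69, 118)], 442, 7680, 1069, 543, 0, []⟩) (.N 3 (.L ⟨[(1, 816480), (2, 639744), (24, 816480), (33, 190512), (35, 449232), (39, 1456224), (41, 816480), (53, 81648), (60, 329431), (69, 467931)], 1578528, 209018880, 23514624, 8273664, 0, []⟩) (.N 5 (.L ⟨[(1, 30940), (2, 6328), (24, 9153), (26, 21787), (35, 6328),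 (39, 37268), (41, 30940), (53, 3094), (60, 3570), (69, 26558)], 46886, 1827840, 444346, 200158, 0, []⟩) (.N 6 (.N 1 (.L ⟨[(1, 5880), (2, 980), (24, 1049), (26, 4831), (37, 944), (38, 36), (39, 6860), (41, 5880), (53, 588), (60, 408), (69, 5636)], 12264, 368640, 75600, 31764, 0, []⟩) (.L ⟨[(1, 3360), (2, 717), (24, 414), (26, 2946), (35, 168), (37, 549), (41, 3360), (53, 336), (60, 224), (69, 3405)], 0, 215040, 50624, 39032, 0, []⟩)) (.L ⟨[(1, 165240), (2, 119940), (24, 165240), (35, 95640), (37, 24300), (39, 285180), (41, 165240), (53, 16524), (60, 59035), (69, 108075)], 415044, 7464960, 4903740, 1454112, 0, []⟩))))) (.L ⟨[(2, 11), (38, 11), (69, 11)], 34, 109, 1920, 55, 0, []⟩)) (.L ⟨[(2, 4), (38, 4), (69, 4)], 12, 30, 30, 19, 0, []⟩)) (.L ⟨[(0, 1), (14, 1), (69, 1)], 0, 0, 9, 60, 0, []⟩))))) (.N 1 (.L ⟨[(1, 350), (2, 27), (26, 350), (38, 27), (53, 35), (69, 377)], 1975, 0, 3840,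 1734, 0, []⟩) (.L ⟨[(0, 40), (2, 3), (14, 40), (38, 3), (53, 4), (69, 43)], 0, 0, 394, 480, 0, []⟩))) (.N 3 (.N 3 (.L ⟨[], 0, 1, 0, 0, 0, []⟩) (.N 1 (.N 0 (.L ⟨[], 15, 0, 0, 4, 0, []⟩) (.N 5 (.N 4 (.N 6 (.N 0 (.L ⟨[(1, 554270), (2, 647210), (22, 554270), (33, 339180), (35, 308030), (39, 1201480), (41, 554270), (53, 55427), (60, 346785), (69, 161125)], 1201348, 19799040, 17196549, 8281825, 0, []⟩) (.L ⟨[(1, 116010), (2, 132462), (22, 116010), (33, 63396), (35, 69066), (39, 248472), (41, 116010), (53, 11601), (60, 71223), (69, 34803)], 0, 4949760, 3669783, 1358606, 0, []⟩)) (.L ⟨[(1, 935250), (22, 935250), (33, 1061100), (35, 326886), (39, 935250), (41, 935250), (53, 93525), (59, 462662), (60, 228975), (69, 248325)], 0, 24768000, 22849125, 7149825, 0, []⟩)) (.L ⟨[(1, 13020), (2, 15750), (22, 13020), (37, 15750), (39, 28770), (41, 13020), (53, 1302), (60, 6245), (69, 10035)], 19964,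 514724, 3333120, 169694, 0, []⟩)) (.N 4 (.L ⟨[(1, 13020), (2, 18102), (22, 13020), (37, 15498), (38, 2604), (39, 31122), (41, 13020), (53, 1302), (60, 6217), (69, 12471)], 14322, 624960, 0, 212226, 0, []⟩) (.L ⟨[(1, 140), (2, 182), (22, 140), (37, 168), (38, 14), (39, 322), (41, 140), (52, 14), (60, 67), (69, 121)], 98, 4074, 6720, 1400, 0, []⟩)))) (.L ⟨[(0, 10), (14, 10), (53, 1), (69, 10)], 0, 0, 67, 15360, 0, []⟩))) (.N 5 (.L ⟨[(1, 51660), (11, 10920), (13, 2520), (24, 17145), (26, 34515), (39, 51660), (41, 51660), (53, 5166), (57, 4480), (60, 2240), (69, 44940)], 0, 0, 537600, 0, 0, []⟩) (.L ⟨[(1, 82460), (11, 21000), (24, 39325), (26, 43135), (37, 11200), (38, 5600), (39, 82460), (41, 82460), (53, 8246), (57, 7000), (59, 5600), (60, 2240), (69, 75740)], 0, 0, 1075200, 0, 0, []⟩)))) (.N 5 (.N 4 (.N 4 (.L ⟨[(20, 3), (33, 3), (58, 1), (59, 1)], 0, 0, 0, 0, 0, []⟩) (.N 5 (.L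 ⟨[(20, 39), (33, 39), (58, 13), (59, 13)], 0, 0, 480, 0, 0, []⟩) (.N 3 (.N 3 (.L ⟨[(20, 3), (33, 3), (58, 1), (59, 1)], 0, 60, 38, 0, 0, []⟩) (.L ⟨[(1, 32000), (13, 4800), (20, 133961), (22, 61239), (33, 101111), (35, 76489), (39, 32000), (41, 32000), (51, 3200), (57, 1600), (58, 54400), (59, 59200), (69, 32000)], 0, 1166400, 3072000, 0, 0, []⟩)) (.L ⟨[(1, 150), (11, 45), (22, 336), (35, 291), (53, 15), (57, 15), (58, 62), (59, 97), (69, 150)], 0, 0, 3600, 0, 0, []⟩)))) (.N 5 (.N 4 (.L ⟨[(20, 3), (33, 3), (58, 1), (59, 1)], 0, 0, 60, 0, 0, []⟩) (.L ⟨[], 0, 0, 1, 0, 0, []⟩)) (.L ⟨[(1, 64500), (13, 3225), (14, 6450), (18, 109650), (20, 483600), (35, 311406), (39, 64500), (41, 64500), (51, 6450), (57, 3225), (58, 176250), (59, 103802), (69, 64500)], 0, 0, 24768000, 0, 0, []⟩))) (.N 4 (.L ⟨[(1, 32250), (18, 35475), (20, 267600), (35, 165249), (39, 32250), (41, 32250), (51, 3225),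 (58, 90275), (59, 55083), (69, 32250)], 0, 0, 0, 0, 0, []⟩) (.N 4 (.N 0 (.L ⟨[(1, 14190), (9, 1419), (11, 5676), (18, 12642), (20, 52083), (35, 8514), (37, 25542), (39, 14190), (41, 14190), (50, 1419), (57, 2365), (58, 16845), (59, 11352), (69, 14190)], 0, 0, 908160, 0, 0, []⟩) (.L ⟨[(1, 14190), (13, 645), (14, 903), (18, 25800), (20, 38328), (35, 9288), (37, 27864), (39, 14190), (41, 14190), (51, 1419), (57, 516), (58, 16646), (59, 12384), (69, 14190)], 0, 0, 990720, 0, 0, []⟩)) (.L ⟨[(1, 156000), (11, 82800), (18, 246336), (20, 1200), (38, 167283), (39, 156000), (41, 156000), (50, 15600), (57, 27600), (58, 30512), (59, 55761), (69, 156000)], 0, 0, 9216000, 0, 0, []⟩))))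

theorem ok_F11_2p : tree_F11_2p.check prm_F11 ⟨-32, 32, -64, 64, 32, 32, -64, 64, -32, 32, -64, 64, 0, 336⟩ = true := by decide +kernel

def tree_F11_3m : Tree := .N 6 (.L ⟨[], 0, 1, 0, 0, 0, []⟩) (.N 2 (.L ⟨[], 0, 1, 0, 0, 0, []⟩) (.L ⟨[(18, 645), (20, 120), (58, 255), (68, 1419)], 0, 12800, 0, 0, 0, []⟩))

theorem ok_F11_3m : tree_F11_3m.check prm_F11 ⟨-32, 32, -64, 64, 0, 32, -64, -64, -32, 32, -64, 64, 0, 336⟩ = true := by decide +kernel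

def tree_F11_3p : Tree := .L ⟨[(1, 1), (26, 1), (69, 1)], 0, 0, 15, 0, 0, []⟩

theorem ok_F11_3p : tree_F11_3p.check prm_F11 ⟨-32, 32, -64, 64, 0, 32, 64, 64, -32, 32, -64, 64, 0, 336⟩ = true := by decide +kernel

def tree_F11_4m : Tree := .N 6 (.N 6 (.N 3 (.N 6 (.L ⟨[(1, 10), (26, 10), (53, 1), (69, 10)], 42, 960, 0, 71, 0, []⟩) (.L ⟨[(0, 840), (1, 30380), (2, 2520), (13, 640), (14, 200), (24, 4195), (26, 26185), (35, 2520), (39, 32900), (41, 31220), (53, 3122), (60, 1840), (69, 28220)], 0, 2457600, 0, 222760, 0, []⟩)) (.L ⟨[(0, 1), (1, 9), (14, 1), (26, 9), (53, 1), (69, 10)], 60, 0, 0, 0, 0, []⟩)) (.N 3 (.N 1 (.L ⟨[(0, 6880), (1, 55040), (2, 86608), (14, 6880), (22, 55040), (33, 96240), (35, 4816), (41, 61920), (53, 6192), (59, 4816), (60, 43131), (69, 19135)], 1166848, 5283840, 0, 0, 0, []⟩) (.L ⟨[(0, 83764), (1, 28466), (14, 83764), (22, 28466), (33, 52260), (35, 7482),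 (41, 112230), (53, 11223), (59, 19914), (60, 7482), (69, 89784)], 819279, 3591360, 0, 0, 0, []⟩)) (.L ⟨[(0, 672), (1, 3808), (11, 672), (24, 1683), (26, 2125), (35, 336), (39, 3108), (53, 448), (59, 112), (60, 448), (69, 3136)], 13440, 0, 0, 0, 0, []⟩))) (.N 3 (.L ⟨[(1, 6450), (22, 29283), (33, 49950), (35, 645), (39, 6450), (41, 6450), (53, 645), (58, 7611), (59, 16865), (69, 6450)], 7095, 619200, 0, 0, 0, []⟩) (.L ⟨[(0, 19995), (1, 99975), (11, 19995), (22, 29799), (24, 70176), (33, 94542), (35, 7998), (53, 11997), (59, 34180), (60, 23994), (69, 47988)], 479880, 0, 0, 0, 0, []⟩))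

theorem ok_F11_4m : tree_F11_4m.check prm_F11 ⟨-32, 32, -64, 64, 0, 32, -64, 64, -32, -32, -64, 64, 0, 336⟩ = true := by decide +kernel

def tree_F11_4p : Tree := .N 6 (.L ⟨[(2, 2), (38, 2), (69, 2)], 6, 9, 240, 0, 0, []⟩) (.N 5 (.L ⟨[], 0, 0, 1, 0, 0, []⟩) (.L ⟨[(1, 39984), (9, 8736), (11, 24024), (15, 19656), (17, 26880), (36, 70731), (38, 8736), (39, 39984), (40, 39984), (57, 10920), (58, 2184), (59, 26489), (62, 8736), (69, 39984)], 0, 0, 2096640, 0, 0, []⟩))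

theorem ok_F11_4p : tree_F11_4p.check prm_F11 ⟨-32, 32, -64, 64, 0, 32, -64, 64, 32, 32, -64, 64, 0, 336⟩ = true := by decide +kernel

def tree_F11_5m : Tree := .N 6 (.N 4 (.N 6 (.N 3 (.N 6 (.L ⟨[(1, 50), (26, 50), (53, 5), (69, 50)], 165, 3840, 486, 282, 0, []⟩) (.N 3 (.L ⟨[], 0, 1, 0, 0, 0, []⟩) (.N 2 (.L ⟨[(0, 1050), (1, 23240), (13, 1050), (26, 23240), (39, 23240), (41, 8750), (42, 24290), (54, 2429), (60, 510), (69, 22760)], 45390, 1843200, 168900, 99660, 0, []⟩) (.N 0 (.L ⟨[(1, 1260), (26, 1260), (39, 1260), (41, 1260), (53, 126), (60, 15), (69, 1215)], 24410, 76800, 10715, 35050, 0, []⟩) (.N 1 (.N 3 (.L ⟨[], 0, 1, 0, 0, 0, []⟩) (.N 4 (.L ⟨[(1, 4890), (2, 888), (24, 777), (26, 4113), (33, 888), (39, 5778), (41, 4890), (53, 489), (60, 489), (69, 4311)], 3749, 312960, 0, 28688, 0, []⟩) (.N 0 (.L ⟨[(1, 37490), (2, 7816), (24, 6839), (26, 30651), (33, 7816), (39, 45306), (41,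 37490), (53, 3749), (60, 4238), (69, 32592)], 66341, 2503680, 545235, 258192, 0, []⟩) (.L ⟨[(1, 4890), (2, 888), (24, 777), (26, 4113), (33, 888), (39, 5778), (41, 4890), (53, 489), (60, 489), (69, 4311)], 0, 312960, 66830, 27384, 0, []⟩)))) (.L ⟨[(0, 10), (14, 10), (53, 1), (69, 10)], 0, 120, 64, 65, 0, []⟩)))))) (.L ⟨[(0, 21), (1, 199), (14, 21), (26, 199), (53, 22), (69, 220)], 1802, 0, 1920, 0, 0, []⟩)) (.N 3 (.N 3 (.L ⟨[], 0, 1, 0, 0, 0, []⟩) (.N 3 (.L ⟨[(22, 1419), (31, 3225), (33, 600), (58, 473), (59, 1275)], 0, 227040, 27907, 0, 0, []⟩) (.N 6 (.N 1 (.N 0 (.L ⟨[(0, 510), (2, 84), (14, 510), (27, 84), (54, 51), (60, 34), (69, 492)], 130560, 6324, 4811, 6239, 0, []⟩) (.N 2 (.L ⟨[(1, 170), (2, 121), (26, 170), (27, 121), (39, 170), (41, 170), (54, 17), (60, 51), (69, 138)], 680, 16320, 2363, 952, 0, []⟩) (.N 4 (.L ⟨[(1, 13860), (2, 19845), (24, 8316), (26, 5544), (29, 16611),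 (31, 3234), (39, 33705), (41, 13860), (53, 1386), (60, 9181), (69, 6162)], 43428, 887040, 0, 121968, 0, []⟩) (.N 2 (.L ⟨[(1, 1260), (2, 1736), (24, 210), (26, 1050), (27, 1652), (29, 84), (39, 2996), (41, 1260), (53, 126), (60, 761), (69, 713)], 2534, 107520, 25858, 13524, 0, []⟩) (.L ⟨[(1, 13020), (2, 22736), (24, 12586), (26, 434), (31, 22736), (39, 35756), (41, 13020), (53, 1302), (60, 10711), (69, 3623)], 47740, 833280, 496496, 178374, 0, []⟩))))) (.L ⟨[(0, 2310), (13, 495), (14, 1815), (27, 420), (41, 2310), (42, 2310), (54, 231), (59, 140), (60, 140), (69, 1890)], 0, 33600, 14000, 12040, 0, []⟩)) (.L ⟨[(1, 10080), (11, 1584), (13, 792), (24, 5112), (26, 4968), (27, 31800), (29, 7695), (39, 10080), (41, 10080), (53, 1008), (57, 792), (59, 13165), (60, 3360)], 0, 552960, 109224, 0, 0, []⟩)))) (.N 1 (.L ⟨[(0, 84), (1, 976), (13, 84), (26, 976), (27, 318), (39, 976), (41, 1060),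 (42, 700), (54, 106), (59, 106), (60, 53), (69, 901)], 4770, 0, 6360, 0, 0, []⟩) (.L ⟨[(0, 980), (1, 2660), (13, 889), (14, 91), (24, 394), (26, 2266), (39, 2660), (41, 3640), (42, 3640), (54, 364), (60, 273), (69, 2821)], 9555, 0, 21840, 0, 0, []⟩)))) (.L ⟨[], 0, 0, 1, 0, 0, []⟩)) (.N 3 (.N 3 (.N 6 (.L ⟨[], 0, 1, 0, 0, 0, []⟩) (.L ⟨[(22, 15), (27, 60), (58, 5), (59, 20), (63, 138), (68, 75)], 0, 800, 0, 0, 0, []⟩)) (.L ⟨[(24, 270), (26, 945), (27, 5250), (58, 405), (59, 1750), (68, 1008)], 0, 64800, 0, 0, 0, []⟩)) (.L ⟨[(26, 9), (27, 42), (58, 3), (59, 14)], 0, 0, 0, 0, 0, []⟩))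

theorem ok_F11_5m : tree_F11_5m.check prm_F11 ⟨-32, 32, -64, 64, 0, 32, -64, 64, -32, 32, -64, -64, 0, 336⟩ = true := by decide +kernel

def tree_F11_5p : Tree := .L ⟨[(2, 23), (38, 23), (69, 23)], 12, 30, 0, 12, 12, []⟩

theorem ok_F11_5p : tree_F11_5p.check prm_F11 ⟨-32, 32, -64, 64, 0, 32, -64, 64, -32, 32, 64, 64, 0, 336⟩ = true := by decide +kernel

end Pool.Agent.H30.P6
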