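import Pool.Agent.H30.P6.Base

/-! certificate P01 (generated) -/

set_option autoImplicit false
set_option maxRecDepth 100000

namespace Pool.Agent.H30.P6

def prm_P01 : Prm := ⟨64, 1024, base ++ [], [(0, 80000), (1, 80000)]⟩

def tree_P01_0m : Tree := .N 6 (.N 6 (.L ⟨[], 0, 0, 0, 0, 0, [1, 0]⟩) (.L ⟨[], 0, 0, 0, 0, 0, [1, 0]⟩)) (.N 6 (.L ⟨[(11, 3), (57, 1), (67, 15)], 0, 0, 0, 0, 0, [120, 0]⟩) (.N 1 (.L ⟨[], 0, 0, 0, 0, 0, [1, 0]⟩) (.L ⟨[(11, 3), (57, 1), (67, 15)], 0, 0, 0, 0, 0, [30, 0]⟩)))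

theorem ok_P01_0m : tree_P01_0m.check prm_P01 ⟨-64, -64, -128, 128, -64, 64, -128, 128, -64, 64, -128, 128, 0, 1344⟩ = true := by decide +kernel

def tree_P01_0p : Tree := .N 6 (.N 6 (.L ⟨[], 0, 0, 0, 0, 0, [0, 1]⟩) (.N 3 (.L ⟨[], 0, 0, 0, 0, 0, [0, 1]⟩) (.N 5 (.L ⟨[(0, 672), (1, 225), (2, 2025), (10, 672), (25, 225), (29, 1425), (31, 600), (46, 225), (60, 974)], 0, 0, 54000, 0, 0, [0, 52875]⟩) (.N 1 (.L ⟨[(0, 15213), (1, 3024), (2, 1296), (3, 2748), (4, 12465), (23, 1584), (25, 1440), (38, 1296), (46, 432), (60, 6511)], 0, 0, 169344, 0, 0, [0, 276480]⟩) (.N 4 (.L ⟨[(0, 3), (2, 3), (8, 3), (33, 3), (60, 2)], 0, 0, 0, 0, 0, [0, 60]⟩) (.N 5 (.L ⟨[(0, 207683), (1, 194175), (2, 179575), (8, 83375), (10, 124308), (15, 194175), (33, 87575), (35, 92000), (40, 373750), (46, 37375), (53, 34500), (60, 193811)], 0, 0, 11040000, 0, 0, [0, 4620125]⟩) (.N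 6 (.N 6 (.N 6 (.L ⟨[], 0, 0, 0, 0, 0, [0, 1]⟩) (.L ⟨[(0, 1548), (1, 2472), (2, 7590), (10, 1032), (12, 516), (21, 2472), (27, 2279), (60, 3870)], 0, 0, 0, 0, 0, [0, 123840]⟩)) (.L ⟨[(0, 2208), (1, 13398), (2, 2310), (12, 2208), (15, 13398), (37, 525), (38, 1785), (40, 15708), (46, 1470), (60, 5972)], 0, 0, 201600, 0, 0, [0, 52185]⟩)) (.L ⟨[(0, 549), (1, 3525), (2, 495), (12, 495), (14, 54), (15, 2688), (17, 837), (38, 495), (40, 4020), (42, 1632), (47, 402), (60, 1523)], 0, 0, 46080, 0, 0, [0, 13569]⟩)))))))) (.N 2 (.L ⟨[(1, 3169530), (8, 5500530), (10, 87720), (21, 5419290), (23, 165120), (36, 41280), (38, 36120), (40, 3169530), (42, 3169530), (48, 316953), (57, 1862750), (58, 804960), (59, 25800), (60, 1056510)], 0, 0, 0, 0, 0, [0, 39628800]⟩) (.N 3 (.N 6 (.L ⟨[], 0, 0, 0, 0, 0, [0, 1]⟩) (.N 6 (.L ⟨[], 0, 0, 0, 0, 0, [0, 1]⟩) (.N 2 (.L ⟨[],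 0, 0, 0, 0, 0, [0, 1]⟩) (.N 3 (.L ⟨[], 0, 0, 0, 0, 0, [0, 1]⟩) (.N 2 (.L ⟨[], 0, 0, 0, 0, 0, [0, 1]⟩) (.N 2 (.L ⟨[], 0, 0, 0, 0, 0, [0, 1]⟩) (.N 3 (.L ⟨[], 0, 0, 0, 0, 0, [0, 1]⟩) (.N 3 (.L ⟨[], 0, 0, 0, 0, 0, [0, 1]⟩) (.N 4 (.L ⟨[(0, 14190), (2, 2838), (10, 14190), (31, 32250), (33, 6000), (51, 1419), (59, 11804), (60, 5676)], 0, 0, 0, 0, 0, [0, 340560]⟩) (.N 5 (.L ⟨[(0, 4200), (1, 1800), (10, 4200), (22, 7113), (24, 1800), (31, 34875), (33, 1800), (53, 600), (58, 2371), (59, 12225), (60, 2000)], 0, 0, 1152000, 0, 0, [0, 294600]⟩) (.L ⟨[(0, 10275), (1, 2610), (2, 2070), (8, 1800), (10, 8475), (15, 2610), (36, 540), (38, 1530), (41, 12885), (42, 12885), (60, 4985), (66, 59859)], 0, 0, 172800, 0, 0, [0, 161730]⟩))))))))))) (.N 4 (.L ⟨[(0, 32250), (8, 46182), (10, 5418), (31, 6450), (33, 56382), (41, 32250), (53, 3225), (57, 6450), (59, 20944),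 (60, 10750)], 0, 0, 0, 0, 0, [0, 387000]⟩) (.N 5 (.L ⟨[(0, 104784), (1, 55596), (2, 119364), (10, 104784), (26, 55596), (27, 47628), (29, 476595), (40, 38880), (46, 17496), (54, 16038), (59, 134953), (60, 93248)], 0, 0, 14929920, 0, 0, [0, 4180572]⟩) (.N 2 (.L ⟨[(0, 7731), (1, 41586), (2, 9954), (10, 5154), (12, 2577), (19, 29118), (21, 12468), (34, 9954), (40, 51540), (42, 49317), (48, 5154), (60, 19757)], 0, 0, 219045, 0, 0, [0, 309240]⟩) (.N 1 (.L ⟨[(1, 836), (2, 214), (15, 836), (37, 15), (38, 199), (40, 696), (41, 836), (46, 105), (60, 350)], 0, 0, 14400, 0, 0, [0, 1530]⟩) (.N 4 (.L ⟨[(0, 5670), (1, 14500), (2, 4340), (12, 5670), (15, 14500), (35, 4340), (40, 18840), (41, 20170), (51, 2017), (60, 8170)], 0, 0, 121020, 0, 0, [0, 112952]⟩) (.N 5 (.N 6 (.L ⟨[(0, 489), (1, 2394), (2, 210), (12, 279), (14, 210), (15, 2394), (38, 210), (40, 2604),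 (60, 1031)], 0, 0, 50400, 0, 1050, [0, 4200]⟩) (.L ⟨[(0, 245), (1, 85), (2, 30), (10, 245), (15, 85), (38, 30), (40, 115), (41, 330), (60, 120), (66, 1311)], 0, 0, 7200, 0, 1020, [0, 1050]⟩)) (.N 1 (.L ⟨[(0, 42), (1, 1058), (2, 238), (12, 21), (14, 21), (15, 1058), (38, 238), (40, 1296), (41, 1100), (60, 446)], 0, 0, 10080, 483, 0, [0, 567]⟩) (.L ⟨[(0, 7), (1, 55), (2, 7), (14, 7), (15, 55), (38, 7), (40, 62), (41, 62), (60, 23)], 0, 0, 420, 0, 0, [0, 42]⟩))))))))))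

theorem ok_P01_0p : tree_P01_0p.check prm_P01 ⟨64, 64, -128, 128, -64, 64, -128, 128, -64, 64, -128, 128, 0, 1344⟩ = true := by decide +kernel

def tree_P01_1m : Tree := .N 6 (.N 6 (.L ⟨[], 0, 0, 0, 0, 0, [1, 0]⟩) (.L ⟨[(3, 42), (26, 9), (57, 14), (58, 3)], 0, 0, 0, 0, 0, [720, 582]⟩)) (.N 2 (.L ⟨[(3, 2360), (4, 7075), (25, 2720), (26, 40), (57, 3145), (58, 920), (65, 2608)], 0, 0, 0, 0, 0, [36800, 76800]⟩) (.L ⟨[(3, 6090), (24, 945), (26, 675), (57, 2030), (58, 540), (68, 3528)], 0, 0, 0, 0, 0, [0, 64800]⟩))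

theorem ok_P01_1m : tree_P01_1m.check prm_P01 ⟨-64, 64, -128, -128, -64, 64, -128, 128, -64, 64, -128, 128, 0, 1344⟩ = true := by decide +kernel

def tree_P01_1p : Tree := .N 6 (.N 6 (.L ⟨[], 0, 0, 0, 0, 0, [0, 1]⟩) (.N 3 (.L ⟨[], 0, 0, 0, 0, 0, [0, 1]⟩) (.N 6 (.N 0 (.L ⟨[], 0, 0, 0, 0, 0, [1, 0]⟩) (.N 2 (.L ⟨[(1, 40665), (2, 50295), (21, 33645), (23, 7020), (32, 46785), (34, 3510), (40, 90960), (42, 40665), (46, 9096), (60, 30320)], 0, 0, 0, 0, 0, [988650, 1123200]⟩) (.N 3 (.L ⟨[], 0, 0, 0, 0, 0, [0, 1]⟩) (.N 5 (.L ⟨[(0, 18), (2, 84), (14, 18), (27, 84), (60, 34)], 0, 0, 1080, 441, 0, [549, 783]⟩) (.N 4 (.L ⟨[(0, 297), (1, 150), (2, 825), (10, 297), (18, 150), (31, 525), (33, 300), (60, 424)], 0, 0, 0, 750, 0, [18000, 14100]⟩) (.N 5 (.L ⟨[(0, 252), (2, 1092), (13, 27), (14, 225), (27, 1092), (42, 252), (60, 448)], 0, 0, 17280, 4320, 0, [7110,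 12105]⟩) (.N 6 (.N 6 (.L ⟨[], 0, 0, 0, 0, 0, [0, 1]⟩) (.N 6 (.L ⟨[(0, 2658), (2, 6606), (11, 2658), (30, 3390), (32, 3216), (39, 6606), (40, 2658), (41, 2658), (42, 2658), (60, 3088)], 0, 0, 0, 14619, 0, [9303, 79740]⟩) (.L ⟨[(0, 708), (2, 1836), (11, 708), (30, 684), (32, 1152), (39, 1836), (40, 1836), (41, 708), (42, 708), (60, 848)], 0, 0, 2124, 6372, 0, [1593, 21240]⟩))) (.N 2 (.N 0 (.L ⟨[(0, 28), (1, 38), (2, 84), (14, 28), (15, 38), (27, 63), (28, 21), (40, 122), (42, 66), (60, 50)], 0, 0, 0, 1680, 1610, [0, 0]⟩) (.L ⟨[(0, 28), (1, 38), (2, 84), (14, 28), (15, 38), (27, 63), (28, 21), (40, 122), (42, 66), (60, 50)], 0, 0, 0, 1351, 1680, [0, 0]⟩)) (.L ⟨[(0, 123), (1, 192), (2, 249), (13, 33), (14, 90), (15, 192), (27, 39), (28, 210), (39, 441), (40, 441), (41, 315), (42, 315), (60, 188)], 0, 0, 0, 5760, 3570, [0, 0]⟩))))))))) (.N 5 (.L ⟨[(14,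 9), (27, 42), (57, 3), (59, 14)], 0, 0, 0, 0, 0, [0, 0]⟩) (.N 0 (.N 2 (.N 3 (.L ⟨[(1, 3519), (2, 1635), (19, 2139), (21, 1380), (34, 1635), (40, 5154), (42, 3519), (60, 1718)], 0, 0, 0, 0, 19620, [129165, 392400]⟩) (.N 6 (.L ⟨[], 0, 0, 0, 0, 0, [1, 0]⟩) (.N 4 (.L ⟨[(0, 9), (1, 42), (14, 9), (15, 42), (60, 17)], 0, 0, 0, 0, 17, [1020, 68]⟩) (.L ⟨[(0, 4956), (2, 14076), (11, 4956), (30, 5244), (32, 8832), (39, 14076), (40, 14076), (42, 4956), (60, 6344)], 0, 0, 1239, 0, 48321, [148680, 66906]⟩)))) (.L ⟨[(1, 1239), (2, 3699), (23, 1239), (30, 795), (32, 2904), (39, 4938), (40, 4938), (42, 1239), (60, 1646)], 0, 0, 0, 763200, 14310, [86655, 0]⟩)) (.N 4 (.L ⟨[(0, 3), (1, 9), (2, 3), (14, 3), (15, 9), (27, 3), (40, 12), (41, 12), (60, 5)], 0, 0, 0, 0, 0, [90, 48]⟩) (.N 2 (.N 3 (.L ⟨[(0, 387), (1, 504), (2, 903), (12, 387), (21, 504), (27, 903), (60,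 598)], 0, 0, 0, 0, 97524, [0, 185760]⟩) (.L ⟨[(0, 90), (2, 348), (13, 75), (14, 15), (28, 96), (30, 252), (39, 348), (40, 348), (42, 90), (60, 146)], 0, 0, 0, 1230, 3600, [0, 285]⟩)) (.N 3 (.L ⟨[(0, 18), (1, 48), (13, 9), (14, 9), (15, 48), (40, 48), (41, 66), (42, 66), (60, 22)], 0, 0, 279, 639, 0, [0, 2160]⟩) (.N 2 (.L ⟨[(0, 363), (1, 165), (2, 1521), (13, 33), (14, 330), (15, 165), (27, 339), (28, 1182), (39, 1686), (40, 1686), (42, 528), (60, 683)], 0, 0, 0, 15345, 15840, [0, 0]⟩) (.L ⟨[(0, 936), (1, 1653), (2, 1320), (13, 507), (14, 429), (15, 1653), (30, 1320), (39, 2973), (40, 2973), (41, 2589), (42, 2589), (60, 1303)], 0, 0, 11856, 37440, 13650, [0, 0]⟩)))))))))) (.N 6 (.N 3 (.L ⟨[], 0, 0, 0, 0, 0, [0, 1]⟩) (.N 5 (.L ⟨[(14, 9), (27, 42), (57, 3), (59, 14)], 0, 0, 0, 0, 0, [0, 0]⟩) (.N 3 (.N 3 (.L ⟨[(14, 9), (15, 42), (57, 3), (58, 14)],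 0, 0, 0, 0, 0, [0, 0]⟩) (.N 5 (.N 4 (.L ⟨[(0, 1773), (1, 3552), (13, 2151), (14, 189), (15, 2796), (16, 756), (28, 567), (30, 2268), (39, 3552), (41, 5325), (42, 5325), (57, 189), (59, 945), (60, 1775)], 0, 0, 0, 0, 0, [5670, 0]⟩) (.N 5 (.L ⟨[(14, 9), (27, 42), (57, 3), (59, 14)], 0, 0, 0, 0, 0, [0, 0]⟩) (.N 2 (.L ⟨[(0, 2400), (1, 16971), (13, 7200), (14, 2400), (15, 16971), (30, 10848), (32, 2400), (39, 16971), (40, 16971), (41, 19371), (42, 19371), (57, 2400), (59, 4416), (60, 6457)], 0, 0, 0, 33600, 144000, [0, 0]⟩) (.N 0 (.L ⟨[], 0, 0, 0, 30, 0, [0, 1]⟩) (.L ⟨[(1, 987), (13, 75), (14, 261), (15, 987), (30, 168), (39, 987), (40, 987), (41, 987), (42, 987), (57, 112), (59, 56), (60, 329)], 0, 0, 5880, 6720, 2744, [0, 0]⟩))))) (.N 4 (.L ⟨[(0, 4545), (1, 7665), (11, 2340), (13, 2205), (15, 7665), (34, 2646), (39, 7665), (41, 12210), (42, 12210),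 (59, 882), (60, 4070)], 0, 0, 0, 0, 0, [0, 0]⟩) (.N 2 (.L ⟨[(0, 210), (1, 504), (13, 153), (14, 57), (15, 504), (41, 714), (42, 714), (60, 238)], 0, 0, 0, 3591, 437760, [0, 0]⟩) (.N 0 (.L ⟨[], 0, 0, 0, 30, 0, [0, 1]⟩) (.L ⟨[(1, 7329), (13, 516), (14, 1836), (15, 7329), (32, 672), (39, 7329), (40, 7329), (41, 7329), (42, 7329), (57, 784), (59, 224), (60, 2443)], 0, 0, 0, 53760, 27440, [0, 0]⟩)))))) (.N 6 (.N 5 (.N 3 (.N 4 (.L ⟨[(0, 354), (1, 576), (13, 297), (14, 57), (15, 462), (16, 114), (27, 114), (28, 228), (41, 930), (42, 930), (59, 114), (60, 310)], 0, 0, 0, 0, 0, [3420, 0]⟩) (.N 0 (.N 2 (.L ⟨[(0, 4905), (2, 10788), (11, 1824), (13, 3081), (30, 14124), (32, 624), (39, 10788), (40, 10788), (41, 4905), (42, 4905), (59, 1320), (60, 5231)], 0, 0, 0, 72288, 92160, [0, 0]⟩) (.L ⟨[], 0, 0, 0, 1, 0, [0, 0]⟩)) (.L ⟨[(0, 20736), (1, 29241), (2, 4224),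 (11, 1056), (13, 19680), (15, 29241), (30, 8448), (32, 17952), (39, 33465), (40, 33465), (41, 49977), (42, 49977), (59, 7392), (60, 18067)], 0, 0, 253440, 85536, 0, [0, 0]⟩))) (.L ⟨[(0, 13197), (1, 1890), (2, 13419), (11, 13197), (22, 1890), (30, 26019), (32, 2520), (39, 15309), (41, 15087), (42, 15087), (59, 5040), (60, 9502)], 0, 0, 75600, 0, 0, [0, 0]⟩)) (.N 4 (.L ⟨[(0, 620), (1, 1267), (2, 294), (11, 32), (13, 588), (15, 1267), (34, 294), (39, 1561), (41, 1887), (42, 1887), (60, 727)], 0, 0, 0, 0, 0, [8820, 0]⟩) (.N 0 (.N 2 (.N 0 (.L ⟨[(0, 1555), (2, 2945), (11, 1555), (32, 2445), (34, 500), (39, 2945), (40, 2945), (42, 1555), (60, 1500), (64, 7297)], 0, 0, 0, 28500, 27000, [60000, 0]⟩) (.L ⟨[(0, 2862), (1, 1311), (2, 6624), (11, 2862), (15, 1311), (32, 6624), (39, 7935), (40, 7935), (42, 4173), (60, 3599)], 0, 0, 0, 27531, 39330, [0, 0]⟩))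 (.L ⟨[(0, 87), (2, 207), (11, 87), (30, 161), (32, 46), (42, 87), (60, 98), (64, 46)], 0, 0, 0, 22080, 2622, [0, 0]⟩)) (.N 2 (.L ⟨[(0, 1908), (1, 1911), (2, 4032), (11, 954), (13, 954), (15, 1911), (32, 4032), (39, 5943), (40, 5943), (42, 3819), (60, 2617)], 0, 0, 5724, 19080, 57240, [0, 0]⟩) (.N 0 (.L ⟨[(0, 1437), (1, 1056), (2, 3468), (13, 1437), (15, 1056), (30, 2460), (32, 1008), (39, 4524), (40, 4524), (41, 2493), (42, 2493), (60, 1987)], 0, 0, 144, 46080, 20160, [0, 0]⟩) (.L ⟨[(0, 1554), (1, 2847), (2, 2100), (13, 1554), (15, 2847), (32, 2100), (40, 4947), (42, 4401), (60, 2167)], 0, 0, 5439, 46620, 21756, [0, 0]⟩)))))) (.N 5 (.L ⟨[(0, 7920), (1, 2016), (13, 5904), (14, 2016), (16, 720), (18, 1296), (27, 12804), (28, 11223), (39, 2016), (41, 9936), (42, 9936), (59, 8009), (60, 3312)], 0, 0, 34560, 0, 0, [0, 0]⟩) (.N 3 (.N 0 (.L ⟨[(0, 36400),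 (1, 46400), (11, 43645), (15, 39155), (16, 7245), (32, 18285), (34, 22080), (39, 46400), (41, 82800), (42, 82800), (57, 2415), (59, 13455), (60, 27600), (64, 32697)], 0, 0, 0, 0, 0, [0, 0]⟩) (.N 2 (.L ⟨[(0, 6146), (1, 7843), (11, 4214), (13, 1932), (15, 7843), (32, 7728), (34, 966), (39, 2898), (40, 7843), (42, 13989), (59, 2898), (60, 4663)], 0, 0, 0, 8694, 0, [0, 0]⟩) (.L ⟨[(0, 91), (1, 107), (2, 33), (11, 11), (13, 80), (15, 107), (32, 88), (34, 11), (39, 140), (40, 140), (41, 198), (42, 198), (59, 22), (60, 77), (64, 222)], 0, 0, 0, 660, 0, [0, 0]⟩))) (.L ⟨[(0, 11845), (2, 10655), (11, 9345), (13, 2500), (30, 1000), (32, 17155), (39, 10655), (41, 11845), (42, 11845), (59, 2500), (60, 7500), (64, 58787)], 0, 0, 24000, 0, 0, [0, 0]⟩))))))) (.L ⟨[(14, 15), (57, 5), (64, 336)], 0, 0, 0, 0, 0, [0, 0]⟩))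

theorem ok_P01_1p : tree_P01_1p.check prm_P01 ⟨-64, 64, 128, 128, -64, 64, -128, 128, -64, 64, -128, 128, 0, 1344⟩ = true := by decide +kernel

def tree_P01_2m : Tree := .N 6 (.N 6 (.L ⟨[], 0, 0, 0, 0, 0, [0, 1]⟩) (.N 0 (.L ⟨[(1, 18828), (2, 5532), (14, 1827), (17, 9888), (19, 8940), (34, 5532), (40, 24360), (42, 18828), (49, 2436), (57, 609), (60, 8120)], 0, 0, 0, 0, 0, [584640, 126063]⟩) (.L ⟨[(1, 454917), (2, 292413), (19, 176571), (21, 278346), (32, 118542), (34, 173871), (40, 747330), (42, 454917), (47, 74733), (60, 249110)], 0, 0, 0, 0, 0, [5125653, 9895680]⟩))) (.N 1 (.N 0 (.L ⟨[], 0, 0, 0, 0, 0, [1, 0]⟩) (.L ⟨[(8, 3), (21, 3), (57, 1), (58, 1)], 0, 0, 0, 0, 0, [30, 0]⟩)) (.N 0 (.N 3 (.L ⟨[(1, 119520), (14, 28080), (15, 67620), (17, 141219), (34, 20880), (36, 12384), (40, 119520), (42, 119520), (49, 11952), (57, 9360), (58, 29773), (59,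 11088), (60, 39840)], 0, 0, 0, 0, 0, [2211840, 61200]⟩) (.N 1 (.L ⟨[(1, 3750), (10, 675), (19, 380), (21, 4720), (34, 1125), (40, 3750), (42, 150), (48, 375), (57, 225), (58, 450), (59, 375), (60, 1250), (67, 6604)], 0, 0, 0, 0, 0, [288000, 0]⟩) (.N 4 (.N 6 (.L ⟨[(0, 1386), (1, 18270), (2, 9042), (13, 3465), (15, 2772), (17, 15498), (34, 7656), (36, 1386), (39, 27312), (40, 27312), (42, 19656), (57, 693), (60, 9566)], 0, 0, 0, 0, 0, [166320, 0]⟩) (.L ⟨[(1, 2250), (13, 450), (19, 2005), (21, 470), (34, 150), (36, 525), (39, 2250), (40, 2250), (42, 2250), (49, 225), (57, 150), (58, 75), (59, 225), (60, 750), (67, 4559)], 0, 0, 0, 0, 0, [18000, 0]⟩)) (.L ⟨[(1, 96750), (11, 3225), (13, 16125), (19, 125775), (21, 9675), (32, 54525), (34, 39216), (39, 96750), (40, 96750), (42, 96750), (48, 9675), (57, 6450), (58, 12900), (59, 31247), (60, 32250)],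 0, 0, 0, 0, 0, [774000, 0]⟩)))) (.L ⟨[(1, 283800), (10, 276705), (19, 786900), (21, 242628), (32, 17028), (34, 114939), (40, 283800), (42, 283800), (48, 28380), (57, 92235), (58, 248576), (59, 43989), (60, 94600)], 0, 0, 0, 0, 0, [5448960, 0]⟩)))

theorem ok_P01_2m : tree_P01_2m.check prm_P01 ⟨-64, 64, -128, 128, -64, -64, -128, 128, -64, 64, -128, 128, 0, 1344⟩ = true := by decide +kernel

def tree_P01_2p : Tree := .N 6 (.N 6 (.L ⟨[], 0, 0, 0, 0, 0, [0, 1]⟩) (.N 3 (.L ⟨[], 0, 0, 0, 0, 0, [0, 1]⟩) (.N 0 (.L ⟨[(0, 54357), (1, 74493), (11, 54357), (18, 12537), (20, 61956), (27, 23193), (39, 74493), (41, 128850), (42, 128850), (53, 12885), (59, 7731), (60, 42950)], 0, 0, 0, 1363233, 0, [2473920, 0]⟩) (.N 1 (.L ⟨[(0, 1350), (1, 240), (2, 60), (3, 1350), (26, 240), (38, 60), (39, 300), (41, 300), (45, 30), (53, 159), (60, 550)], 0, 0, 16560, 0, 0,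 [16710, 28800]⟩) (.N 5 (.L ⟨[(0, 199260), (1, 990150), (2, 1952010), (11, 199260), (22, 990150), (31, 1952010), (39, 2942160), (41, 1189410), (53, 118941), (60, 1047140)], 0, 0, 44559360, 18209577, 0, [0, 23698269]⟩) (.N 4 (.L ⟨[(1, 14190), (2, 21408), (20, 9933), (22, 4257), (31, 9675), (33, 11733), (53, 1419), (60, 11866)], 0, 0, 0, 290895, 0, [58179, 340560]⟩) (.N 6 (.N 3 (.L ⟨[], 0, 0, 0, 0, 0, [0, 1]⟩) (.N 1 (.L ⟨[(0, 60060), (1, 3510), (2, 10350), (3, 60060), (24, 1485), (26, 2025), (38, 10350), (39, 13860), (53, 6357), (60, 24640)], 0, 0, 1036800, 0, 0, [715500, 939060]⟩) (.N 5 (.L ⟨[(1, 14190), (2, 38250), (22, 14190), (31, 32250), (33, 6000), (53, 1419), (60, 17480)], 0, 0, 1362240, 713757, 0, [173118, 581790]⟩) (.N 0 (.L ⟨[], 0, 0, 0, 30, 0, [17, 0]⟩) (.N 4 (.L ⟨[(0, 4257), (1, 9933), (2, 22887), (3, 4257), (22, 9933), (31, 13287),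 (33, 9600), (53, 1419), (60, 12359)], 0, 0, 0, 340560, 0, [55341, 340560]⟩) (.N 6 (.N 6 (.L ⟨[], 0, 0, 0, 0, 0, [0, 1]⟩) (.L ⟨[(0, 11555), (1, 9805), (9, 7544), (11, 4011), (20, 9614), (22, 191), (39, 9805), (41, 21360), (42, 21360), (60, 7120)], 0, 0, 35144, 16808, 0, [0, 183360]⟩)) (.L ⟨[(0, 525), (1, 1565), (2, 469), (3, 147), (5, 378), (15, 1208), (16, 357), (38, 469), (39, 2034), (41, 2090), (53, 84), (60, 853)], 0, 0, 40320, 27237, 0, [0, 0]⟩))))))) (.N 4 (.L ⟨[(0, 8175), (1, 17595), (11, 8175), (18, 10695), (20, 6900), (39, 17595), (41, 25770), (53, 2577), (60, 8590)], 0, 0, 90195, 0, 0, [0, 206160]⟩) (.N 5 (.L ⟨[(0, 45135), (1, 109485), (2, 5154), (11, 45135), (18, 65337), (20, 44148), (35, 5154), (39, 114639), (41, 154620), (53, 15462), (60, 53258)], 0, 0, 4947840, 87618, 0, [0, 948336]⟩) (.N 3 (.N 0 (.L ⟨[], 0, 0, 0, 5, 0, [2, 0]⟩)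 (.L ⟨[(0, 63), (1, 3243), (2, 819), (13, 63), (15, 3243), (38, 819), (39, 4062), (41, 3306), (42, 1344), (60, 1375)], 0, 0, 60480, 42336, 819, [0, 0]⟩)) (.N 1 (.L ⟨[(0, 1911), (2, 504), (3, 1092), (5, 819), (36, 288), (38, 216), (39, 504), (60, 805)], 0, 0, 29880, 34560, 0, [0, 0]⟩) (.L ⟨[(0, 2058), (1, 1502), (2, 910), (3, 105), (5, 1953), (15, 1327), (16, 175), (36, 385), (38, 525), (39, 2412), (41, 3560), (60, 1490)], 0, 0, 60375, 67200, 0, [0, 0]⟩)))))))))))) (.N 3 (.N 6 (.L ⟨[], 0, 0, 0, 0, 0, [0, 1]⟩) (.N 6 (.L ⟨[], 0, 0, 0, 0, 0, [0, 1]⟩) (.N 0 (.L ⟨[(9, 3), (20, 3), (57, 1), (58, 1)], 0, 0, 0, 0, 0, [0, 0]⟩) (.N 4 (.L ⟨[(20, 3), (33, 3), (58, 1), (59, 1)], 0, 0, 0, 0, 0, [0, 0]⟩) (.N 5 (.L ⟨[(20, 1419), (22, 7095), (31, 16125), (33, 4419), (58, 2838), (59, 6848)], 0, 0, 681120, 0, 0, [0, 309342]⟩) (.N 5 (.N 4 (.L ⟨[(1, 1680), (11, 84),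 (13, 420), (16, 3291), (18, 780), (37, 756), (39, 1680), (41, 1680), (50, 168), (57, 168), (58, 797), (59, 252), (60, 560)], 0, 0, 40320, 0, 0, [0, 0]⟩) (.N 4 (.L ⟨[(1, 2400), (11, 144), (13, 576), (16, 6891), (18, 336), (38, 1008), (39, 2400), (41, 2400), (50, 240), (57, 240), (58, 1609), (59, 336), (60, 800), (66, 5040)], 0, 0, 92160, 0, 0, [0, 0]⟩) (.L ⟨[(15, 1050), (16, 315), (36, 180), (38, 225), (58, 455), (59, 135), (66, 1008)], 0, 0, 21600, 0, 0, [0, 0]⟩))) (.L ⟨[(15, 42), (38, 9), (58, 14), (59, 3)], 0, 0, 0, 0, 0, [0, 0]⟩))))))) (.N 4 (.L ⟨[(1, 525030), (11, 90816), (13, 53922), (20, 686796), (22, 12771), (31, 319017), (33, 294972), (39, 525030), (41, 525030), (52, 52503), (57, 48246), (58, 58179), (59, 204663), (60, 175010)], 0, 0, 0, 0, 0, [0, 1362240]⟩) (.N 5 (.N 5 (.L ⟨[(24, 6), (29, 21), (58, 2), (59, 7)], 0, 0, 240, 0, 0, [0,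 54]⟩) (.L ⟨[(0, 61929), (1, 195771), (11, 56775), (13, 20616), (18, 58767), (20, 137004), (31, 92772), (39, 195771), (41, 257700), (51, 25770), (57, 5154), (59, 30924), (60, 85900)], 0, 0, 19791360, 0, 0, [0, 412320]⟩)) (.N 6 (.N 0 (.N 1 (.L ⟨[], 0, 0, 0, 0, 0, [1, 0]⟩) (.L ⟨[(1, 6450), (9, 18177), (20, 12642), (22, 1548), (32, 1935), (39, 6450), (41, 6450), (42, 6450), (53, 645), (57, 6059), (58, 2580), (59, 645), (60, 2150)], 0, 0, 28380, 154800, 0, [51600, 0]⟩)) (.N 5 (.N 4 (.L ⟨[(0, 7826), (1, 17944), (11, 6108), (13, 1718), (18, 14680), (20, 3264), (39, 17944), (41, 25770), (51, 2577), (60, 8590)], 0, 0, 206160, 0, 0, [0, 99644]⟩) (.N 1 (.L ⟨[(0, 27), (2, 6), (3, 27), (38, 6), (39, 6), (41, 6), (60, 11)], 0, 0, 720, 129, 0, [129, 3]⟩) (.N 3 (.N 1 (.L ⟨[(0, 14526), (1, 31203), (2, 5790), (7, 1158), (9, 13368), (16, 25413), (18, 5790), (38,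 5790), (39, 36993), (41, 45729), (60, 17173)], 0, 0, 1111680, 736488, 0, [0, 0]⟩) (.L ⟨[(0, 105), (1, 405), (14, 105), (15, 405), (41, 510), (60, 170), (66, 204)], 0, 0, 8610, 12600, 1155, [0, 315]⟩)) (.L ⟨[(0, 195), (1, 252), (9, 63), (11, 132), (18, 63), (20, 189), (39, 252), (41, 447), (42, 447), (60, 149), (66, 63)], 0, 0, 7560, 1575, 0, [0, 0]⟩)))) (.N 4 (.L ⟨[(0, 7826), (1, 17944), (11, 6108), (13, 1718), (18, 14680), (20, 3264), (39, 17944), (41, 25770), (51, 2577), (60, 8590)], 0, 0, 0, 0, 0, [0, 103080]⟩) (.N 1 (.L ⟨[(0, 39), (2, 9), (3, 39), (38, 9), (39, 9), (40, 9), (41, 18), (60, 16)], 0, 0, 720, 90, 0, [276, 132]⟩) (.N 3 (.N 1 (.L ⟨[(0, 10098), (1, 9399), (2, 4320), (7, 8658), (9, 1440), (15, 6519), (16, 2880), (36, 1440), (38, 2880), (39, 13719), (41, 19497), (42, 19497), (60, 7939)], 0, 0, 263520, 345600, 0, [0, 0]⟩) (.L ⟨[(0,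 2), (1, 17), (2, 2), (14, 2), (15, 17), (38, 2), (41, 10), (60, 7), (66, 4)], 0, 0, 194, 480, 0, [0, 0]⟩)) (.L ⟨[(0, 37596), (1, 40446), (9, 17577), (11, 20019), (18, 9765), (20, 30681), (39, 40446), (41, 78042), (42, 78042), (60, 26014)], 0, 0, 234360, 164052, 0, [0, 0]⟩)))))) (.N 0 (.L ⟨[(9, 3), (20, 3), (57, 1), (58, 1)], 0, 0, 0, 0, 0, [0, 0]⟩) (.N 3 (.N 5 (.N 4 (.L ⟨[(0, 1716), (1, 10734), (11, 1245), (13, 2712), (16, 3711), (18, 7023), (39, 10734), (41, 12450), (50, 1245), (57, 747), (60, 4150)], 0, 0, 119520, 0, 0, [0, 0]⟩) (.N 5 (.L ⟨[], 0, 0, 1, 0, 0, [0, 0]⟩) (.N 1 (.L ⟨[(0, 1932), (2, 627), (7, 1932), (34, 282), (36, 345), (39, 627), (41, 1932), (60, 853)], 0, 0, 41400, 7245, 0, [1380, 0]⟩) (.N 1 (.N 0 (.L ⟨[(0, 120), (1, 310), (2, 215), (9, 120), (22, 310), (34, 215), (39, 525), (41, 430), (60, 215), (66, 2243)], 0, 0, 10105, 25800,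 0, [5160, 0]⟩) (.L ⟨[(1, 500), (2, 175), (18, 220), (20, 280), (36, 125), (38, 50), (41, 500), (60, 225), (66, 1836)], 0, 0, 12000, 8200, 0, [0, 0]⟩)) (.L ⟨[(0, 640), (1, 110), (12, 640), (15, 550), (16, 220), (34, 165), (41, 750), (42, 750), (58, 220), (59, 55), (60, 250), (66, 4049)], 0, 0, 6985, 52800, 0, [0, 0]⟩))))) (.N 6 (.N 1 (.L ⟨[(0, 164), (2, 103), (5, 299), (36, 103), (39, 103), (41, 164), (57, 45), (60, 89), (66, 90)], 0, 0, 1350, 1305, 0, [0, 0]⟩) (.N 1 (.L ⟨[(0, 1008), (1, 1008), (2, 1677), (3, 1008), (18, 672), (20, 336), (34, 336), (36, 1341), (39, 2685), (41, 2016), (60, 1231), (66, 8502)], 0, 0, 0, 80640, 0, [0, 0]⟩) (.L ⟨[(0, 315), (1, 375), (12, 315), (15, 375), (41, 690), (60, 230), (66, 1452)], 0, 0, 0, 27600, 0, [0, 2070]⟩))) (.L ⟨[(20, 5040), (38, 645), (58, 1680), (59, 215), (66, 14448)], 0, 0, 0, 0, 0, [0, 0]⟩))) (.L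 ⟨[(22, 3), (58, 1), (66, 15)], 0, 0, 0, 0, 0, [0, 0]⟩)))))))

theorem ok_P01_2p : tree_P01_2p.check prm_P01 ⟨-64, 64, -128, 128, 64, 64, -128, 128, -64, 64, -128, 128, 0, 1344⟩ = true := by decide +kernel

def tree_P01_3m : Tree := .N 6 (.N 6 (.L ⟨[], 0, 0, 0, 0, 0, [0, 1]⟩) (.L ⟨[], 0, 0, 0, 0, 0, [0, 1]⟩)) (.L ⟨[], 0, 0, 0, 0, 0, [0, 1]⟩)

theorem ok_P01_3m : tree_P01_3m.check prm_P01 ⟨-64, 64, -128, 128, -64, 64, -128, -128, -64, 64, -128, 128, 0, 1344⟩ = true := by decide +kernel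

def tree_P01_3p : Tree := .N 6 (.N 6 (.L ⟨[], 0, 0, 0, 0, 0, [0, 1]⟩) (.N 1 (.L ⟨[(0, 2100), (1, 675), (2, 504), (3, 2100), (25, 675), (34, 504), (60, 1093)], 0, 0, 30744, 0, 0, [60480, 0]⟩) (.N 5 (.L ⟨[(0, 5), (1, 6), (2, 28), (13, 5), (24, 5), (26, 1), (27, 28), (55, 1), (60, 13)], 0, 0, 480, 0, 0, [296, 0]⟩) (.N 0 (.L ⟨[(0, 1329), (2, 3303), (11, 1329), (30, 1695), (32, 1608), (39, 3303), (40, 1329), (41, 1329), (42, 1329), (60, 1544)], 0, 0, 10189, 0, 0, [106320, 0]⟩) (.N 6 (.N 6 (.N 6 (.L ⟨[], 0, 0, 0, 0, 0, [0, 1]⟩) (.L ⟨[(0, 77187), (2, 150489), (9, 35397), (11, 41790), (30, 26220), (32, 124269), (39, 150489), (40, 150489), (42, 77187), (60, 75892)], 0, 0, 443118, 0, 0, [629280, 0]⟩)) (.L ⟨[(0, 32304), (1, 555), (2, 39624), (9, 27420), (11, 4884), (26, 555), (32, 39624), (39, 40179), (40, 19092), (42, 32859), (60, 24161)], 0, 0, 213120,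 0, 0, [208569, 0]⟩)) (.L ⟨[(0, 98550), (1, 3933), (2, 235635), (9, 28842), (11, 69708), (23, 3933), (30, 61617), (32, 174018), (39, 239568), (40, 239568), (42, 102483), (60, 112706)], 0, 0, 995049, 0, 0, [1258560, 0]⟩)))))) (.N 6 (.N 5 (.L ⟨[(26, 9), (27, 42), (58, 3), (59, 14)], 0, 0, 0, 0, 0, [0, 0]⟩) (.N 1 (.L ⟨[(0, 9), (3, 42), (26, 9), (57, 11), (58, 3), (60, 3)], 0, 0, 0, 0, 0, [180, 0]⟩) (.N 2 (.N 0 (.L ⟨[(0, 310), (1, 155), (2, 8970), (11, 3565), (23, 155), (32, 8970), (39, 9125), (40, 9125), (42, 465), (57, 1085), (60, 3145), (64, 11114)], 0, 0, 0, 0, 0, [74400, 0]⟩) (.L ⟨[(1, 1240), (2, 3080), (23, 1240), (32, 2925), (34, 155), (39, 4320), (40, 4320), (42, 1240), (60, 1440), (64, 3023)], 0, 0, 0, 0, 0, [0, 0]⟩)) (.N 5 (.L ⟨[(0, 562665), (1, 100305), (9, 610020), (11, 9471), (26, 100305), (30, 783495), (39, 100305), (41, 662970), (42,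 662970), (55, 66297), (57, 18942), (59, 261165), (60, 220990)], 0, 0, 2273040, 0, 0, [0, 0]⟩) (.N 0 (.L ⟨[(0, 3225), (9, 2967), (11, 258), (32, 2067), (34, 258), (41, 3225), (42, 3225), (59, 775), (60, 1075)], 0, 0, 0, 0, 0, [2064, 0]⟩) (.L ⟨[(0, 18327), (2, 2721), (9, 16437), (11, 1890), (32, 12801), (34, 1260), (39, 2721), (41, 18327), (42, 18327), (59, 3780), (60, 7016)], 0, 0, 0, 0, 0, [0, 0]⟩)))))) (.L ⟨[(26, 15), (58, 5), (64, 336)], 0, 0, 0, 0, 0, [0, 0]⟩))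

theorem ok_P01_3p : tree_P01_3p.check prm_P01 ⟨-64, 64, -128, 128, -64, 64, 128, 128, -64, 64, -128, 128, 0, 1344⟩ = true := by decide +kernel

def tree_P01_4m : Tree := .N 6 (.N 6 (.L ⟨[], 0, 0, 0, 0, 0, [0, 1]⟩) (.N 0 (.L ⟨[(0, 144), (1, 84), (2, 423), (12, 144), (15, 84), (29, 279), (31, 144), (60, 217)], 0, 0, 0, 0, 0, [17280, 9360]⟩) (.L ⟨[(0, 14190), (2, 21408), (8, 9933), (10, 4257), (31, 9675), (33, 11733), (53, 1419), (60, 11866)], 0, 0, 0, 0, 0, [297990, 681120]⟩))) (.N 2 (.N 1 (.N 0 (.L ⟨[], 0, 0, 0, 0, 0, [1, 0]⟩) (.L ⟨[(8, 3), (33, 3), (57, 1), (59, 1)], 0, 0, 0, 0, 0, [30, 3]⟩)) (.N 3 (.L ⟨[(1, 29400), (12, 13365), (14, 600), (15, 39480), (35, 16200), (40, 29400), (41, 29400), (49, 2940), (57, 4655), (58, 3360), (59, 5400), (60, 9800), (67, 31104)], 0, 0, 0, 0, 0, [558780, 921600]⟩) (.N 0 (.L ⟨[(0, 135), (1, 1425), (14, 360), (15,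 1425), (35, 180), (39, 105), (40, 1425), (41, 1560), (51, 156), (57, 75), (59, 60), (60, 520), (67, 888)], 0, 0, 0, 0, 0, [28800, 0]⟩) (.L ⟨[(0, 36), (1, 75), (2, 36), (10, 36), (15, 75), (35, 36), (60, 49)], 0, 0, 0, 0, 0, [1470, 1372]⟩)))) (.L ⟨[(1, 788190), (14, 15480), (20, 1355790), (22, 36120), (33, 1382790), (35, 20640), (39, 788190), (41, 788190), (51, 78819), (57, 5160), (58, 201240), (59, 467810), (60, 262730)], 0, 0, 0, 0, 0, [159960, 9907200]⟩))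

theorem ok_P01_4m : tree_P01_4m.check prm_P01 ⟨-64, 64, -128, 128, -64, 64, -128, 128, -64, -64, -128, 128, 0, 1344⟩ = true := by decide +kernel

def tree_P01_4p : Tree := .N 6 (.N 6 (.L ⟨[], 0, 0, 0, 0, 0, [0, 1]⟩) (.N 5 (.L ⟨[], 0, 0, 1, 0, 0, [0, 0]⟩) (.N 3 (.L ⟨[], 0, 0, 0, 0, 0, [0, 1]⟩) (.N 5 (.L ⟨[], 0, 0, 1, 0, 0, [0, 0]⟩) (.N 2 (.L ⟨[], 0, 0, 1, 0, 3, [0, 0]⟩) (.N 3 (.L ⟨[], 0, 0, 1, 0, 6, [0, 0]⟩) (.N 2 (.L ⟨[], 0, 0, 1, 0, 2, [0, 0]⟩) (.N 0 (.L ⟨[(0, 1329), (2, 3213), (11, 1329), (30, 1953), (32, 1260), (39, 3213), (41, 1329), (42, 1329), (60, 1514)], 0, 0, 0, 49173, 1329, [106320, 0]⟩) (.N 1 (.L ⟨[(0, 42), (2, 9), (3, 42), (38, 9), (60, 17)], 0, 0, 1440, 0, 948, [471, 0]⟩) (.N 2 (.L ⟨[(0, 1971), (2, 1833), (9, 1635), (11, 336), (32, 1707), (34, 126), (39, 1833), (41, 1971), (42, 1971), (60, 1268)], 0, 0, 51786, 6678, 80640, [0, 0]⟩)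 (.N 3 (.N 5 (.L ⟨[(0, 13179), (1, 14553), (9, 5859), (11, 7320), (18, 3906), (20, 10647), (39, 14553), (41, 27732), (42, 27732), (60, 9244)], 0, 0, 937440, 64449, 517545, [0, 0]⟩) (.L ⟨[(0, 3675), (1, 2325), (9, 3102), (11, 573), (20, 1752), (22, 573), (39, 2325), (41, 6000), (42, 6000), (60, 2000)], 0, 0, 193101, 18336, 550080, [0, 0]⟩)) (.N 5 (.L ⟨[(0, 519), (1, 126), (2, 159), (9, 519), (22, 126), (32, 159), (39, 285), (41, 645), (42, 645), (60, 268)], 0, 0, 30240, 4158, 10584, [0, 0]⟩) (.N 0 (.L ⟨[(0, 17307), (1, 2901), (2, 1647), (5, 17307), (24, 1620), (26, 1281), (36, 1647), (39, 4548), (42, 20208), (60, 7285)], 0, 0, 304878, 323544, 351360, [12810, 0]⟩) (.N 1 (.L ⟨[(0, 1092), (1, 81), (2, 171), (3, 1092), (26, 81), (36, 27), (38, 144), (39, 252), (60, 448)], 0, 0, 25920, 14121, 18144, [0, 0]⟩) (.N 0 (.L ⟨[(0, 501), (1, 108), (3, 366),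 (5, 135), (26, 108), (39, 108), (42, 468), (60, 203)], 0, 0, 9234, 12636, 12960, [0, 0]⟩) (.N 2 (.L ⟨[(1, 138), (2, 648), (26, 138), (27, 405), (28, 243), (39, 786), (42, 138), (60, 262)], 0, 0, 14076, 4002, 33120, [0, 0]⟩) (.N 6 (.N 5 (.L ⟨[(0, 14444), (1, 4807), (2, 6882), (9, 12696), (11, 1748), (15, 4807), (34, 6882), (39, 11689), (41, 19251), (42, 19251), (60, 8711)], 0, 0, 839040, 76912, 378879, [0, 0]⟩) (.N 3 (.L ⟨[(0, 7897), (1, 5347), (2, 946), (7, 2150), (9, 5747), (20, 5347), (34, 946), (60, 4730)], 0, 0, 468270, 70950, 908160, [0, 0]⟩) (.N 1 (.L ⟨[(0, 1092), (2, 252), (3, 1092), (36, 27), (38, 225), (39, 252), (60, 448)], 0, 0, 25920, 12555, 13392, [0, 0]⟩) (.N 0 (.L ⟨[(0, 501), (1, 108), (3, 366), (5, 135), (26, 108), (39, 108), (42, 468), (60, 203)], 0, 0, 8991, 12825, 12960, [0, 0]⟩) (.N 2 (.L ⟨[(1, 138), (2, 648), (26, 138), (27,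 405), (28, 243), (39, 786), (42, 138), (60, 262)], 0, 0, 20930, 4232, 44160, [0, 0]⟩) (.N 6 (.N 6 (.L ⟨[], 0, 0, 0, 0, 0, [0, 1]⟩) (.L ⟨[(0, 9), (2, 9), (9, 9), (32, 9), (60, 6)], 0, 0, 76, 78, 48, [0, 120]⟩)) (.L ⟨[(0, 6), (60, 2)], 0, 0, 0, 57, 60, [0, 0]⟩))))))) (.L ⟨[(0, 5400), (1, 3225), (2, 3096), (9, 5400), (15, 3225), (34, 3096), (60, 3907)], 0, 0, 185760, 89784, 120744, [0, 0]⟩)))))))))))))))))) (.N 5 (.L ⟨[], 0, 0, 1, 0, 0, [0, 0]⟩) (.N 2 (.N 3 (.L ⟨[(19, 3225), (21, 600), (34, 1419), (58, 1275), (59, 473)], 0, 0, 10879, 0, 0, [0, 56760]⟩) (.N 3 (.L ⟨[(21, 3), (32, 3), (58, 1), (59, 1)], 0, 0, 2, 0, 30, [0, 0]⟩) (.L ⟨[(23, 1419), (30, 3225), (32, 600), (58, 473), (59, 1275)], 0, 0, 1419, 0, 28380, [0, 0]⟩))) (.N 5 (.N 6 (.L ⟨[], 0, 0, 1, 0, 0, [0, 0]⟩) (.L ⟨[(34, 3), (59, 1), (66, 15)], 0, 0, 60, 0, 0, [0, 0]⟩)) (.N 6 (.N 1 (.L ⟨[(3,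 546), (38, 117), (57, 182), (59, 39)], 0, 0, 5760, 0, 0, [0, 0]⟩) (.N 3 (.L ⟨[], 0, 0, 0, 0, 0, [0, 1]⟩) (.N 3 (.L ⟨[(0, 3882), (1, 17901), (11, 9705), (18, 10881), (20, 7020), (39, 17901), (41, 21783), (42, 21783), (57, 1941), (60, 7261)], 0, 0, 279504, 0, 29813760, [0, 0]⟩) (.N 2 (.L ⟨[(0, 3999), (9, 3225), (11, 774), (30, 1032), (32, 3417), (42, 3999), (59, 1483), (60, 1333)], 0, 0, 54180, 0, 123840, [0, 0]⟩) (.N 0 (.N 1 (.L ⟨[], 0, 0, 0, 0, 0, [1, 0]⟩) (.L ⟨[(0, 75), (9, 75), (11, 12), (32, 75), (41, 75), (42, 75), (57, 4), (59, 25), (60, 25)], 0, 0, 68, 960, 0, [228, 0]⟩)) (.N 1 (.L ⟨[(0, 10143), (1, 1311), (2, 4101), (7, 1311), (9, 8832), (15, 1311), (34, 4101), (39, 5412), (41, 11454), (42, 11454), (60, 5185)], 0, 0, 78660, 31464, 56373, [0, 0]⟩) (.N 0 (.L ⟨[(0, 9003), (2, 10029), (9, 6483), (11, 2520), (30, 630), (32, 9399), (39, 10029),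 (41, 9003), (42, 9003), (60, 6344)], 0, 0, 74340, 151200, 100800, [0, 0]⟩) (.L ⟨[(0, 18144), (1, 25767), (2, 19392), (11, 12096), (13, 6048), (15, 25767), (32, 6048), (34, 13344), (39, 45159), (40, 45159), (41, 43911), (42, 43911), (60, 21101)], 0, 0, 362880, 178416, 211680, [0, 0]⟩)))))))) (.L ⟨[(34, 3), (59, 1), (66, 15)], 0, 0, 30, 0, 0, [0, 0]⟩)))))

theorem ok_P01_4p : tree_P01_4p.check prm_P01 ⟨-64, 64, -128, 128, -64, 64, -128, 128, 64, 64, -128, 128, 0, 1344⟩ = true := by decide +kernel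

def tree_P01_5m : Tree := .N 6 (.N 6 (.L ⟨[], 0, 0, 0, 0, 0, [0, 1]⟩) (.L ⟨[(0, 9), (1, 81), (2, 9), (14, 9), (26, 81), (27, 420), (54, 9), (59, 137), (60, 33)], 0, 0, 1164, 0, 0, [1017, 5760]⟩)) (.N 2 (.L ⟨[(10, 405), (25, 9045), (26, 4725), (27, 50190), (57, 135), (58, 4590), (59, 16730), (65, 31743)], 0, 0, 0, 0, 0, [9045, 518400]⟩) (.L ⟨[(24, 945), (26, 675), (27, 6090), (58, 540), (59, 2030), (68, 3528)], 0, 0, 0, 0, 0, [0, 64800]⟩))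

theorem ok_P01_5m : tree_P01_5m.check prm_P01 ⟨-64, 64, -128, 128, -64, 64, -128, 128, -64, 64, -128, -128, 0, 1344⟩ = true := by decide +kernel

def tree_P01_5p : Tree := .N 6 (.N 6 (.L ⟨[], 0, 0, 0, 0, 0, [0, 1]⟩) (.N 1 (.L ⟨[(0, 756), (1, 72), (2, 258), (3, 855), (21, 72), (36, 126), (38, 132), (39, 330), (40, 330), (46, 33), (57, 33), (60, 362)], 0, 0, 0, 0, 0, [15840, 14355]⟩) (.N 3 (.L ⟨[], 0, 0, 0, 0, 0, [0, 1]⟩) (.N 6 (.N 2 (.L ⟨[(1, 32130), (2, 19410), (19, 19530), (21, 12600), (34, 19410), (39, 51540), (40, 51540), (42, 32130), (46, 5154), (60, 17180)], 0, 0, 0, 0, 23193, [574671, 618480]⟩) (.N 0 (.L ⟨[], 0, 0, 0, 0, 0, [1, 0]⟩) (.N 1 (.L ⟨[(0, 168), (2, 36), (3, 168), (38, 36), (60, 68)], 0, 0, 0, 0, 0, [1917, 2160]⟩) (.N 3 (.L ⟨[], 0, 0, 0, 0, 0, [0, 1]⟩) (.N 4 (.L ⟨[(0, 2124), (1, 5925), (2, 2700), (10, 2124), (15, 3225), (16, 2700),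 (35, 2700), (60, 3583)], 0, 0, 0, 0, 0, [162000, 83700]⟩) (.N 3 (.L ⟨[(1, 126), (2, 42), (15, 126), (36, 9), (38, 33), (39, 168), (40, 168), (41, 126), (42, 126), (60, 56)], 0, 0, 0, 1530, 726, [0, 5760]⟩) (.N 6 (.N 6 (.L ⟨[], 0, 0, 0, 0, 0, [0, 1]⟩) (.N 2 (.L ⟨[(1, 3), (2, 3), (21, 3), (32, 3), (60, 2)], 0, 0, 0, 0, 29, [60, 60]⟩) (.L ⟨[(0, 30084), (1, 11799), (2, 14922), (9, 24840), (11, 5244), (15, 11799), (34, 14922), (39, 26721), (41, 41883), (42, 41883), (60, 18935)], 0, 0, 0, 120612, 137655, [0, 314640]⟩))) (.L ⟨[(0, 50448), (1, 105021), (2, 60480), (11, 50448), (15, 105021), (34, 27216), (36, 33264), (39, 165501), (40, 165501), (41, 155469), (42, 155469), (60, 71983)], 0, 0, 0, 423360, 725760, [266112, 0]⟩)))))))) (.N 4 (.L ⟨[(0, 12), (1, 193), (2, 44), (14, 12), (15, 193), (38, 44), (39, 202), (40, 208), (41, 205), (42, 205), (60, 83)],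 0, 0, 0, 0, 0, [1920, 0]⟩) (.N 2 (.L ⟨[(0, 32), (1, 75), (2, 16), (11, 32), (16, 75), (34, 16), (60, 41)], 0, 0, 0, 0, 9840, [1066, 0]⟩) (.N 0 (.L ⟨[(0, 48), (1, 63), (2, 48), (11, 48), (15, 63), (34, 48), (39, 111), (40, 111), (41, 111), (42, 111), (60, 53)], 0, 0, 0, 1431, 477, [1590, 0]⟩) (.N 3 (.L ⟨[(1, 104), (2, 28), (15, 104), (36, 3), (38, 25), (39, 132), (41, 104), (60, 44)], 0, 0, 0, 1119, 1227, [0, 1440]⟩) (.L ⟨[(0, 5280), (1, 5385), (2, 3720), (9, 5280), (15, 5385), (36, 3720), (39, 9105), (40, 9105), (41, 10665), (42, 10665), (60, 4795)], 0, 0, 0, 43400, 59520, [10664, 0]⟩))))))))) (.N 6 (.N 3 (.L ⟨[], 0, 0, 0, 0, 0, [0, 1]⟩) (.N 1 (.L ⟨[(3, 42), (38, 9), (57, 14), (59, 3)], 0, 0, 0, 0, 0, [0, 0]⟩) (.N 0 (.N 1 (.L ⟨[], 0, 0, 0, 0, 0, [1, 0]⟩) (.N 3 (.N 2 (.L ⟨[(1, 8526), (11, 2268), (15, 10038), (36, 3951), (38, 126), (39, 8526),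 (40, 8526), (42, 8526), (57, 756), (58, 504), (59, 1359), (60, 2842)], 0, 0, 0, 0, 4536, [30240, 9576]⟩) (.L ⟨[(1, 504), (2, 210), (15, 504), (36, 153), (38, 57), (39, 714), (40, 714), (60, 238)], 0, 0, 0, 437760, 3249, [2280, 1425]⟩)) (.N 6 (.L ⟨[(0, 504), (1, 1449), (2, 804), (11, 1008), (15, 1449), (34, 1056), (39, 2253), (40, 2253), (41, 1953), (42, 1953), (57, 168), (59, 84), (60, 919)], 0, 0, 0, 0, 0, [20160, 0]⟩) (.N 2 (.L ⟨[(0, 1085), (1, 565), (2, 1740), (11, 1085), (17, 565), (34, 565), (36, 1175), (39, 2305), (40, 2305), (42, 1650), (60, 1130), (64, 17098)], 0, 0, 0, 0, 0, [14125, 0]⟩) (.L ⟨[(0, 35), (1, 20), (2, 35), (11, 35), (15, 20), (34, 35), (39, 55), (40, 55), (41, 55), (42, 55), (60, 30), (64, 166)], 0, 0, 0, 0, 0, [300, 0]⟩))))) (.N 2 (.L ⟨[(1, 390), (2, 99), (15, 33), (17, 357), (36, 165), (39, 489), (40, 489), (42, 390),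 (59, 22), (60, 163)], 0, 0, 0, 0, 0, [0, 0]⟩) (.N 1 (.L ⟨[(0, 74), (1, 657), (2, 379), (9, 296), (15, 657), (36, 379), (39, 1036), (40, 1036), (42, 656), (57, 74), (60, 370)], 0, 0, 0, 0, 666, [2220, 0]⟩) (.L ⟨[(0, 4752), (1, 19251), (2, 10608), (11, 7920), (15, 19251), (34, 3696), (36, 6912), (39, 29859), (40, 29859), (41, 24003), (42, 24003), (57, 1056), (60, 11537)], 0, 0, 0, 0, 14256, [24288, 0]⟩)))))) (.L ⟨[(38, 15), (59, 5), (64, 336)], 0, 0, 0, 0, 0, [0, 0]⟩))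

theorem ok_P01_5p : tree_P01_5p.check prm_P01 ⟨-64, 64, -128, 128, -64, 64, -128, 128, -64, 64, 128, 128, 0, 1344⟩ = true := by decide +kernel

end Pool.Agent.H30.P6
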