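import Pool.Agent.H30.P6.Base

/-! certificate P03 (generated) -/

set_option autoImplicit false
set_option maxRecDepth 100000

namespace Pool.Agent.H30.P6

def prm_P03 : Prm := ⟨524288, 256, base ++ [], [(0, 80000), (3, 80000)]⟩

def tree_P03_0m : Tree := .N 6 (.N 6 (.L ⟨[], 0, 0, 0, 0, 0, [1, 0]⟩) (.L ⟨[], 0, 0, 0, 0, 0, [1, 0]⟩)) (.N 6 (.L ⟨[(11, 3), (57, 1), (67, 15)], 0, 0, 0, 0, 0, [120, 0]⟩) (.N 1 (.L ⟨[], 0, 0, 0, 0, 0, [1, 0]⟩) (.L ⟨[(11, 3), (57, 1), (67, 15)], 0, 0, 0, 0, 0, [30, 0]⟩)))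

theorem ok_P03_0m : tree_P03_0m.check prm_P03 ⟨-524288, -524288, -1048576, 1048576, -524288, 524288, -1048576, 1048576, -524288, 524288, -1048576, 1048576, 0, 336⟩ = true := by decide +kernel

def tree_P03_0p : Tree := .N 6 (.N 6 (.N 6 (.L ⟨[], 0, 0, 0, 0, 0, [1, 0]⟩) (.L ⟨[(0, 3034), (1, 21890), (12, 7213), (17, 13902), (19, 7988), (40, 21890), (42, 24924), (48, 2189), (57, 1393), (60, 8308)], 0, 0, 45173, 0, 43979, [1528320, 235218]⟩)) (.N 5 (.N 4 (.N 3 (.N 2 (.L ⟨[(0, 162), (1, 150), (8, 150), (10, 12), (21, 150), (40, 150), (46, 15), (60, 104)], 0, 7200, 0, 0, 0, [0, 0]⟩) (.N 3 (.L ⟨[], 0, 30, 0, 0, 0, [0, 7]⟩) (.N 6 (.N 1 (.L ⟨[], 0, 0, 0, 0, 0, [1, 0]⟩) (.L ⟨[], 0, 0, 0, 0, 0, [1, 6]⟩)) (.L ⟨[(0, 10827), (1, 1203), (2, 22857), (8, 474), (10, 10353), (15, 1203), (31, 14343), (33, 8514), (40, 24060), (41, 12030),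 (46, 2406), (53, 1203), (60, 11629)], 0, 577440, 305562, 0, 0, [0, 44511]⟩)))) (.N 2 (.L ⟨[(0, 162), (1, 18), (2, 132), (8, 150), (10, 12), (21, 18), (33, 132), (40, 150), (46, 15), (60, 104)], 0, 0, 0, 0, 0, [0, 0]⟩) (.N 6 (.N 1 (.L ⟨[], 0, 0, 0, 0, 0, [1, 0]⟩) (.L ⟨[(0, 690), (1, 1530), (10, 690), (19, 1290), (21, 240), (40, 1530), (47, 153), (60, 740)], 0, 0, 0, 0, 0, [32436, 36720]⟩)) (.L ⟨[(0, 4010), (2, 8020), (8, 1645), (10, 2365), (31, 5375), (33, 2645), (46, 802), (53, 401), (60, 4010)], 0, 0, 12030, 0, 0, [0, 0]⟩)))) (.N 4 (.N 5 (.L ⟨[], 0, 0, 1, 0, 0, [0, 0]⟩) (.N 5 (.L ⟨[], 0, 0, 1, 0, 0, [0, 0]⟩) (.N 4 (.N 4 (.N 5 (.L ⟨[], 0, 0, 1, 0, 0, [0, 0]⟩) (.N 5 (.L ⟨[], 0, 0, 1, 0, 0, [0, 0]⟩) (.N 4 (.N 5 (.L ⟨[], 0, 0, 1, 0, 0, [0, 0]⟩) (.N 4 (.N 5 (.L ⟨[], 0, 0, 1, 0, 0, [0, 0]⟩) (.N 4 (.N 5 (.L ⟨[], 0, 0, 1, 0,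 0, [0, 0]⟩) (.N 4 (.N 4 (.N 5 (.L ⟨[], 0, 0, 1, 0, 0, [0, 0]⟩) (.N 5 (.L ⟨[], 0, 0, 1, 0, 0, [0, 0]⟩) (.N 4 (.N 5 (.L ⟨[], 0, 0, 1, 0, 0, [0, 0]⟩) (.N 4 (.N 4 (.N 5 (.L ⟨[], 0, 0, 1, 0, 0, [0, 0]⟩) (.N 4 (.N 5 (.N 4 (.N 5 (.L ⟨[], 0, 0, 1, 0, 0, [0, 0]⟩) (.N 4 (.N 5 (.L ⟨[], 0, 0, 1, 0, 0, [0, 0]⟩) (.N 4 (.N 5 (.L ⟨[], 0, 0, 1, 0, 0, [0, 0]⟩) (.N 4 (.N 5 (.L ⟨[], 0, 0, 1, 0, 0, [0, 0]⟩) (.N 4 (.N 5 (.L ⟨[], 0, 0, 1, 0, 0, [0, 0]⟩) (.N 3 (.N 2 (.L ⟨[(0, 162), (1, 150), (8, 150), (10, 12), (21, 150), (40, 150), (46, 15), (60, 104)], 0, 7200, 0, 0, 270, [0, 0]⟩) (.N 3 (.L ⟨[], 0, 30, 0, 0, 0, [0, 7]⟩) (.N 2 (.N 3 (.L ⟨[], 0, 1, 0, 0, 0, [0, 0]⟩) (.N 1 (.N 6 (.L ⟨[], 0, 0, 0, 0, 0, [1, 0]⟩) (.L ⟨[(0, 16596), (2, 14190), (6, 3225), (8, 13371), (33, 12771), (35, 1419), (46, 1419), (60, 10262)], 0, 340560, 0, 0, 0, [0, 43989]⟩))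 (.L ⟨[(0, 690), (2, 1530), (10, 690), (31, 1290), (33, 240), (40, 1530), (46, 153), (53, 69), (60, 740)], 0, 33120, 0, 0, 0, [0, 6072]⟩))) (.L ⟨[(0, 23490), (2, 10350), (6, 17370), (8, 6120), (35, 10350), (40, 10350), (41, 23490), (46, 1035), (53, 2349), (60, 11280)], 0, 441600, 0, 0, 0, [0, 348680]⟩)))) (.N 2 (.L ⟨[(0, 162), (1, 150), (8, 150), (10, 12), (21, 150), (40, 150), (46, 15), (60, 104)], 0, 0, 0, 0, 0, [0, 0]⟩) (.N 3 (.N 2 (.N 3 (.N 1 (.N 6 (.L ⟨[], 0, 0, 0, 0, 0, [1, 0]⟩) (.L ⟨[(0, 30), (2, 30), (8, 30), (33, 30), (46, 3), (60, 20)], 0, 0, 0, 0, 0, [0, 45]⟩)) (.L ⟨[(0, 690), (2, 1530), (10, 690), (31, 1290), (33, 240), (40, 1530), (46, 153), (53, 69), (60, 740)], 0, 0, 0, 0, 0, [0, 4140]⟩)) (.L ⟨[(0, 30540), (2, 42570), (8, 23445), (10, 7095), (31, 16125), (33, 26445), (46, 4257), (60, 24370)], 0, 0, 0, 0,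 0, [0, 0]⟩)) (.L ⟨[(0, 7830), (2, 3450), (6, 5790), (8, 2040), (35, 3450), (40, 3450), (41, 7830), (46, 345), (53, 783), (60, 3760)], 0, 0, 0, 0, 0, [0, 82800]⟩)) (.L ⟨[(0, 11167), (2, 14375), (8, 9275), (10, 1892), (31, 4300), (33, 10075), (60, 8514)], 0, 0, 0, 0, 0, [0, 0]⟩))))) (.L ⟨[], 0, 0, 1, 0, 0, [0, 0]⟩))) (.L ⟨[], 0, 0, 1, 0, 0, [0, 0]⟩))) (.L ⟨[], 0, 0, 1, 0, 0, [0, 0]⟩))) (.L ⟨[], 0, 0, 1, 0, 0, [0, 0]⟩))) (.L ⟨[], 0, 0, 1, 0, 0, [0, 0]⟩)) (.N 4 (.N 5 (.N 4 (.N 5 (.N 3 (.N 2 (.L ⟨[(0, 162), (1, 150), (8, 150), (10, 12), (21, 150), (40, 150), (46, 15), (60, 104)], 0, 7200, 0, 0, 270, [0, 0]⟩) (.N 3 (.L ⟨[], 0, 30, 0, 0, 0, [0, 7]⟩) (.N 2 (.N 3 (.L ⟨[], 0, 1, 0, 0, 0, [0, 0]⟩) (.N 1 (.N 6 (.L ⟨[], 0, 0, 0, 0, 0, [1, 0]⟩) (.L ⟨[(0, 16596), (2, 14190), (6, 3225), (8, 13371), (33, 12771), (35, 1419), (46, 1419),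 (60, 10262)], 0, 340560, 0, 0, 0, [0, 43989]⟩)) (.L ⟨[(0, 690), (2, 1530), (10, 690), (31, 1290), (33, 240), (40, 1530), (46, 153), (53, 69), (60, 740)], 0, 33120, 0, 0, 0, [0, 6072]⟩))) (.L ⟨[(0, 23490), (2, 10350), (6, 17370), (8, 6120), (35, 10350), (40, 10350), (41, 23490), (46, 1035), (53, 2349), (60, 11280)], 0, 441600, 0, 0, 0, [0, 348680]⟩)))) (.N 2 (.L ⟨[(0, 162), (1, 150), (8, 150), (10, 12), (21, 150), (40, 150), (46, 15), (60, 104)], 0, 0, 0, 0, 0, [0, 0]⟩) (.N 3 (.N 2 (.N 3 (.N 1 (.N 6 (.L ⟨[], 0, 0, 0, 0, 0, [1, 0]⟩) (.L ⟨[(0, 30), (2, 30), (8, 30), (33, 30), (46, 3), (60, 20)], 0, 0, 0, 0, 0, [0, 45]⟩)) (.L ⟨[(0, 690), (2, 1530), (10, 690), (31, 1290), (33, 240), (40, 1530), (46, 153), (53, 69), (60, 740)], 0, 0, 0, 0, 0, [0, 4140]⟩)) (.L ⟨[(0, 30540), (2, 42570), (8, 23445), (10, 7095), (31, 16125), (33,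 26445), (46, 4257), (60, 24370)], 0, 0, 0, 0, 0, [0, 0]⟩)) (.L ⟨[(0, 7830), (2, 3450), (6, 5790), (8, 2040), (35, 3450), (40, 3450), (41, 7830), (46, 345), (53, 783), (60, 3760)], 0, 0, 0, 0, 0, [0, 82800]⟩)) (.L ⟨[(0, 11167), (2, 14375), (8, 9275), (10, 1892), (31, 4300), (33, 10075), (60, 8514)], 0, 0, 0, 0, 0, [0, 0]⟩)))) (.N 3 (.N 2 (.L ⟨[(0, 162), (1, 150), (8, 150), (10, 12), (21, 150), (40, 150), (46, 15), (60, 104)], 0, 7200, 0, 0, 270, [0, 0]⟩) (.N 3 (.L ⟨[], 0, 30, 0, 0, 0, [0, 7]⟩) (.N 2 (.N 3 (.L ⟨[], 0, 1, 0, 0, 0, [0, 0]⟩) (.N 1 (.N 6 (.L ⟨[], 0, 0, 0, 0, 0, [1, 0]⟩) (.L ⟨[(0, 16596), (2, 14190), (6, 3225), (8, 13371), (33, 12771), (35, 1419), (46, 1419), (60, 10262)], 0, 340560, 0, 0, 0, [0, 43989]⟩)) (.L ⟨[(0, 690), (2, 1530), (10, 690), (31, 1290), (33, 240), (40, 1530), (46, 153), (53, 69), (60, 740)],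 0, 33120, 0, 0, 0, [0, 6072]⟩))) (.L ⟨[(0, 23490), (2, 10350), (6, 17370), (8, 6120), (35, 10350), (40, 10350), (41, 23490), (46, 1035), (53, 2349), (60, 11280)], 0, 441600, 0, 0, 0, [0, 348680]⟩)))) (.N 2 (.L ⟨[(0, 162), (1, 150), (8, 150), (10, 12), (21, 150), (40, 150), (46, 15), (60, 104)], 0, 0, 0, 0, 0, [0, 0]⟩) (.N 3 (.N 2 (.N 1 (.N 6 (.L ⟨[], 0, 0, 0, 0, 0, [1, 0]⟩) (.L ⟨[(0, 30), (2, 30), (8, 30), (33, 30), (46, 3), (60, 20)], 0, 0, 0, 0, 0, [0, 45]⟩)) (.L ⟨[(0, 690), (2, 1530), (10, 690), (31, 1290), (33, 240), (40, 1530), (46, 153), (53, 69), (60, 740)], 0, 0, 0, 0, 0, [0, 4140]⟩)) (.L ⟨[(0, 7830), (2, 3450), (6, 5790), (8, 2040), (35, 3450), (40, 3450), (41, 7830), (46, 345), (53, 783), (60, 3760)], 0, 0, 0, 0, 0, [0, 82800]⟩)) (.L ⟨[(0, 11167), (2, 14375), (8, 9275), (10, 1892), (31, 4300), (33, 10075),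 (60, 8514)], 0, 0, 0, 0, 0, [0, 0]⟩))))) (.N 5 (.L ⟨[], 0, 0, 1, 0, 0, [0, 0]⟩) (.N 4 (.N 3 (.N 2 (.L ⟨[(0, 162), (1, 150), (8, 150), (10, 12), (21, 150), (40, 150), (46, 15), (60, 104)], 0, 7200, 0, 0, 270, [0, 0]⟩) (.N 3 (.L ⟨[], 0, 30, 0, 0, 0, [0, 7]⟩) (.N 2 (.N 3 (.L ⟨[], 0, 1, 0, 0, 0, [0, 0]⟩) (.N 1 (.N 6 (.L ⟨[], 0, 0, 0, 0, 0, [1, 0]⟩) (.L ⟨[(0, 16596), (2, 14190), (6, 3225), (8, 13371), (33, 12771), (35, 1419), (46, 1419), (60, 10262)], 0, 340560, 0, 0, 0, [0, 43989]⟩)) (.L ⟨[(0, 690), (2, 1530), (10, 690), (31, 1290), (33, 240), (40, 1530), (46, 153), (53, 69), (60, 740)], 0, 33120, 0, 0, 0, [0, 6072]⟩))) (.L ⟨[(0, 23490), (2, 10350), (6, 17370), (8, 6120), (35, 10350), (40, 10350), (41, 23490), (46, 1035), (53, 2349), (60, 11280)], 0, 441600, 0, 0, 0, [0, 348680]⟩)))) (.N 2 (.L ⟨[(0, 162), (1, 150), (8, 150),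 (10, 12), (21, 150), (40, 150), (46, 15), (60, 104)], 0, 0, 0, 0, 0, [0, 0]⟩) (.N 3 (.N 2 (.N 3 (.N 1 (.N 6 (.L ⟨[], 0, 0, 0, 0, 0, [1, 0]⟩) (.L ⟨[(0, 30), (2, 30), (8, 30), (33, 30), (46, 3), (60, 20)], 0, 0, 0, 0, 0, [0, 45]⟩)) (.L ⟨[(0, 690), (2, 1530), (10, 690), (31, 1290), (33, 240), (40, 1530), (46, 153), (53, 69), (60, 740)], 0, 0, 0, 0, 0, [0, 4140]⟩)) (.L ⟨[(0, 30540), (2, 42570), (8, 23445), (10, 7095), (31, 16125), (33, 26445), (46, 4257), (60, 24370)], 0, 0, 0, 0, 0, [0, 0]⟩)) (.L ⟨[(0, 7830), (2, 3450), (6, 5790), (8, 2040), (35, 3450), (40, 3450), (41, 7830), (46, 345), (53, 783), (60, 3760)], 0, 0, 0, 0, 0, [0, 82800]⟩)) (.L ⟨[(0, 11167), (2, 14375), (8, 9275), (10, 1892), (31, 4300), (33, 10075), (60, 8514)], 0, 0, 0, 0, 0, [0, 0]⟩)))) (.L ⟨[], 0, 0, 1, 0, 0, [0, 0]⟩)))) (.N 4 (.N 5 (.N 2 (.N 3 (.L ⟨[(0,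 162), (1, 150), (8, 150), (10, 12), (21, 150), (40, 150), (46, 15), (60, 104)], 0, 7200, 0, 0, 270, [0, 0]⟩) (.L ⟨[(0, 162), (1, 150), (8, 150), (10, 12), (21, 150), (40, 150), (46, 15), (60, 104)], 0, 0, 0, 0, 0, [0, 0]⟩)) (.N 3 (.N 3 (.L ⟨[], 0, 30, 0, 0, 0, [0, 7]⟩) (.N 2 (.N 3 (.L ⟨[], 0, 1, 0, 0, 0, [0, 0]⟩) (.N 1 (.N 6 (.L ⟨[], 0, 0, 0, 0, 0, [1, 0]⟩) (.L ⟨[(0, 16596), (2, 14190), (6, 3225), (8, 13371), (33, 12771), (35, 1419), (46, 1419), (60, 10262)], 0, 340560, 0, 0, 0, [0, 43989]⟩)) (.L ⟨[(0, 690), (2, 1530), (10, 690), (31, 1290), (33, 240), (40, 1530), (46, 153), (53, 69), (60, 740)], 0, 33120, 0, 0, 0, [0, 6072]⟩))) (.L ⟨[(0, 23490), (2, 10350), (6, 17370), (8, 6120), (35, 10350), (40, 10350), (41, 23490), (46, 1035), (53, 2349), (60, 11280)], 0, 441600, 0, 0, 0, [0, 348680]⟩))) (.N 3 (.N 1 (.N 6 (.L ⟨[],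 0, 0, 0, 0, 0, [1, 0]⟩) (.L ⟨[(0, 10262), (2, 9460), (6, 1075), (8, 9187), (33, 8987), (35, 473), (46, 946), (60, 6574)], 0, 0, 0, 0, 0, [0, 14190]⟩)) (.L ⟨[(0, 37950), (2, 86130), (10, 37950), (31, 63690), (33, 22440), (40, 86130), (41, 37950), (46, 8613), (53, 3795), (60, 41360)], 0, 0, 0, 0, 0, [0, 165600]⟩)) (.L ⟨[(0, 11167), (2, 14375), (8, 9275), (10, 1892), (31, 4300), (33, 10075), (60, 8514)], 0, 0, 0, 0, 0, [0, 0]⟩)))) (.N 2 (.N 3 (.L ⟨[(0, 162), (1, 150), (8, 150), (10, 12), (21, 150), (40, 150), (46, 15), (60, 104)], 0, 7200, 0, 0, 270, [0, 0]⟩) (.L ⟨[(0, 162), (1, 150), (8, 150), (10, 12), (21, 150), (40, 150), (46, 15), (60, 104)], 0, 0, 0, 0, 0, [0, 0]⟩)) (.N 3 (.N 3 (.L ⟨[], 0, 30, 0, 0, 0, [0, 7]⟩) (.N 2 (.N 3 (.L ⟨[], 0, 1, 0, 0, 0, [0, 0]⟩) (.N 1 (.N 6 (.L ⟨[], 0, 0, 0, 0, 0, [1, 0]⟩) (.L ⟨[(0, 16596),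 (2, 14190), (6, 3225), (8, 13371), (33, 12771), (35, 1419), (46, 1419), (60, 10262)], 0, 340560, 0, 0, 0, [0, 43989]⟩)) (.L ⟨[(0, 690), (2, 1530), (10, 690), (31, 1290), (33, 240), (40, 1530), (46, 153), (53, 69), (60, 740)], 0, 33120, 0, 0, 0, [0, 6072]⟩))) (.L ⟨[(0, 23490), (2, 10350), (6, 17370), (8, 6120), (35, 10350), (40, 10350), (41, 23490), (46, 1035), (53, 2349), (60, 11280)], 0, 441600, 0, 0, 0, [0, 348680]⟩))) (.N 3 (.N 1 (.N 6 (.L ⟨[], 0, 0, 0, 0, 0, [1, 0]⟩) (.L ⟨[(0, 10262), (2, 9460), (6, 1075), (8, 9187), (33, 8987), (35, 473), (46, 946), (60, 6574)], 0, 0, 0, 0, 0, [0, 14190]⟩)) (.L ⟨[(0, 37950), (2, 86130), (10, 37950), (31, 63690), (33, 22440), (40, 86130), (41, 37950), (46, 8613), (53, 3795), (60, 41360)], 0, 0, 0, 0, 0, [0, 165600]⟩)) (.L ⟨[(0, 11167), (2, 14375), (8, 9275), (10, 1892), (31, 4300),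 (33, 10075), (60, 8514)], 0, 0, 0, 0, 0, [0, 0]⟩))))) (.N 5 (.N 3 (.N 2 (.L ⟨[(0, 162), (1, 150), (8, 150), (10, 12), (21, 150), (40, 150), (46, 15), (60, 104)], 0, 7200, 0, 0, 270, [0, 0]⟩) (.N 3 (.L ⟨[], 0, 30, 0, 0, 0, [0, 7]⟩) (.N 2 (.N 3 (.L ⟨[], 0, 1, 0, 0, 0, [0, 0]⟩) (.N 1 (.N 6 (.L ⟨[], 0, 0, 0, 0, 0, [1, 0]⟩) (.L ⟨[(0, 16596), (2, 14190), (6, 3225), (8, 13371), (33, 12771), (35, 1419), (46, 1419), (60, 10262)], 0, 340560, 0, 0, 0, [0, 43989]⟩)) (.L ⟨[(0, 690), (2, 1530), (10, 690), (31, 1290), (33, 240), (40, 1530), (46, 153), (53, 69), (60, 740)], 0, 33120, 0, 0, 0, [0, 6072]⟩))) (.L ⟨[(0, 23490), (2, 10350), (6, 17370), (8, 6120), (35, 10350), (40, 10350), (41, 23490), (46, 1035), (53, 2349), (60, 11280)], 0, 441600, 0, 0, 0, [0, 348680]⟩)))) (.N 2 (.L ⟨[(0, 162), (1, 150), (8, 150), (10, 12), (21, 150),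 (40, 150), (46, 15), (60, 104)], 0, 0, 0, 0, 0, [0, 0]⟩) (.N 3 (.N 2 (.N 3 (.N 1 (.N 6 (.L ⟨[], 0, 0, 0, 0, 0, [1, 0]⟩) (.L ⟨[(0, 30), (2, 30), (8, 30), (33, 30), (46, 3), (60, 20)], 0, 0, 0, 0, 0, [0, 45]⟩)) (.L ⟨[(0, 690), (2, 1530), (10, 690), (31, 1290), (33, 240), (40, 1530), (46, 153), (53, 69), (60, 740)], 0, 0, 0, 0, 0, [0, 4140]⟩)) (.L ⟨[(0, 30540), (2, 42570), (8, 23445), (10, 7095), (31, 16125), (33, 26445), (46, 4257), (60, 24370)], 0, 0, 0, 0, 0, [0, 0]⟩)) (.L ⟨[(0, 7830), (2, 3450), (6, 5790), (8, 2040), (35, 3450), (40, 3450), (41, 7830), (46, 345), (53, 783), (60, 3760)], 0, 0, 0, 0, 0, [0, 82800]⟩)) (.L ⟨[(0, 11167), (2, 14375), (8, 9275), (10, 1892), (31, 4300), (33, 10075), (60, 8514)], 0, 0, 0, 0, 0, [0, 0]⟩)))) (.N 2 (.N 3 (.L ⟨[(0, 162), (1, 150), (8, 150), (10, 12), (21, 150), (40, 150), (46, 15),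 (60, 104)], 0, 7200, 0, 0, 270, [0, 0]⟩) (.L ⟨[(0, 162), (1, 150), (8, 150), (10, 12), (21, 150), (40, 150), (46, 15), (60, 104)], 0, 0, 0, 0, 0, [0, 0]⟩)) (.N 3 (.N 3 (.L ⟨[], 0, 30, 0, 0, 0, [0, 7]⟩) (.N 2 (.N 3 (.L ⟨[], 0, 1, 0, 0, 0, [0, 0]⟩) (.N 1 (.N 6 (.L ⟨[], 0, 0, 0, 0, 0, [1, 0]⟩) (.L ⟨[(0, 16596), (2, 14190), (6, 3225), (8, 13371), (33, 12771), (35, 1419), (46, 1419), (60, 10262)], 0, 340560, 0, 0, 0, [0, 43989]⟩)) (.L ⟨[(0, 690), (2, 1530), (10, 690), (31, 1290), (33, 240), (40, 1530), (46, 153), (53, 69), (60, 740)], 0, 33120, 0, 0, 0, [0, 6072]⟩))) (.L ⟨[(0, 23490), (2, 10350), (6, 17370), (8, 6120), (35, 10350), (40, 10350), (41, 23490), (46, 1035), (53, 2349), (60, 11280)], 0, 441600, 0, 0, 0, [0, 348680]⟩))) (.N 3 (.N 2 (.N 1 (.N 6 (.L ⟨[], 0, 0, 0, 0, 0, [1, 0]⟩) (.L ⟨[(0, 30), (2, 30), (8, 30), (33,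 30), (46, 3), (60, 20)], 0, 0, 0, 0, 0, [0, 45]⟩)) (.L ⟨[(0, 690), (2, 1530), (10, 690), (31, 1290), (33, 240), (40, 1530), (46, 153), (53, 69), (60, 740)], 0, 0, 0, 0, 0, [0, 4140]⟩)) (.L ⟨[(0, 7830), (2, 3450), (6, 5790), (8, 2040), (35, 3450), (40, 3450), (41, 7830), (46, 345), (53, 783), (60, 3760)], 0, 0, 0, 0, 0, [0, 82800]⟩)) (.L ⟨[(0, 11167), (2, 14375), (8, 9275), (10, 1892), (31, 4300), (33, 10075), (60, 8514)], 0, 0, 0, 0, 0, [0, 0]⟩))))))) (.N 5 (.L ⟨[], 0, 0, 1, 0, 0, [0, 0]⟩) (.N 4 (.N 5 (.N 4 (.N 5 (.L ⟨[], 0, 0, 1, 0, 0, [0, 0]⟩) (.N 4 (.N 5 (.L ⟨[], 0, 0, 1, 0, 0, [0, 0]⟩) (.N 4 (.N 5 (.L ⟨[], 0, 0, 1, 0, 0, [0, 0]⟩) (.N 3 (.N 2 (.L ⟨[(0, 162), (1, 150), (8, 150), (10, 12), (21, 150), (40, 150), (46, 15), (60, 104)], 0, 7200, 0, 0, 270, [0, 0]⟩) (.N 3 (.L ⟨[], 0, 30, 0, 0, 0, [0, 7]⟩) (.N 2 (.N 3 (.L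 ⟨[], 0, 1, 0, 0, 0, [0, 0]⟩) (.N 1 (.N 6 (.L ⟨[], 0, 0, 0, 0, 0, [1, 0]⟩) (.L ⟨[(0, 16596), (2, 14190), (6, 3225), (8, 13371), (33, 12771), (35, 1419), (46, 1419), (60, 10262)], 0, 340560, 0, 0, 0, [0, 43989]⟩)) (.L ⟨[(0, 690), (2, 1530), (10, 690), (31, 1290), (33, 240), (40, 1530), (46, 153), (53, 69), (60, 740)], 0, 33120, 0, 0, 0, [0, 6072]⟩))) (.L ⟨[(0, 23490), (2, 10350), (6, 17370), (8, 6120), (35, 10350), (40, 10350), (41, 23490), (46, 1035), (53, 2349), (60, 11280)], 0, 441600, 0, 0, 0, [0, 348680]⟩)))) (.N 2 (.L ⟨[(0, 162), (1, 150), (8, 150), (10, 12), (21, 150), (40, 150), (46, 15), (60, 104)], 0, 0, 0, 0, 0, [0, 0]⟩) (.N 3 (.N 2 (.N 3 (.N 1 (.N 6 (.L ⟨[], 0, 0, 0, 0, 0, [1, 0]⟩) (.L ⟨[(0, 30), (2, 30), (8, 30), (33, 30), (46, 3), (60, 20)], 0, 0, 0, 0, 0, [0, 45]⟩)) (.L ⟨[(0, 690), (2, 1530), (10, 690),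 (31, 1290), (33, 240), (40, 1530), (46, 153), (53, 69), (60, 740)], 0, 0, 0, 0, 0, [0, 4140]⟩)) (.L ⟨[(0, 30540), (2, 42570), (8, 23445), (10, 7095), (31, 16125), (33, 26445), (46, 4257), (60, 24370)], 0, 0, 0, 0, 0, [0, 0]⟩)) (.L ⟨[(0, 7830), (2, 3450), (6, 5790), (8, 2040), (35, 3450), (40, 3450), (41, 7830), (46, 345), (53, 783), (60, 3760)], 0, 0, 0, 0, 0, [0, 82800]⟩)) (.L ⟨[(0, 11167), (2, 14375), (8, 9275), (10, 1892), (31, 4300), (33, 10075), (60, 8514)], 0, 0, 0, 0, 0, [0, 0]⟩))))) (.L ⟨[], 0, 0, 1, 0, 0, [0, 0]⟩))) (.L ⟨[], 0, 0, 1, 0, 0, [0, 0]⟩))) (.L ⟨[], 0, 0, 1, 0, 0, [0, 0]⟩)) (.N 3 (.N 2 (.L ⟨[(0, 162), (1, 150), (8, 150), (10, 12), (21, 150), (40, 150), (46, 15), (60, 104)], 0, 7200, 0, 0, 270, [0, 0]⟩) (.N 3 (.L ⟨[], 0, 30, 0, 0, 0, [0, 7]⟩) (.N 2 (.N 3 (.L ⟨[], 0, 1, 0, 0, 0, [0, 0]⟩) (.N 1 (.N 6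 (.L ⟨[], 0, 0, 0, 0, 0, [1, 0]⟩) (.L ⟨[(0, 16596), (2, 14190), (6, 3225), (8, 13371), (33, 12771), (35, 1419), (46, 1419), (60, 10262)], 0, 340560, 0, 0, 0, [0, 43989]⟩)) (.L ⟨[(0, 690), (2, 1530), (10, 690), (31, 1290), (33, 240), (40, 1530), (46, 153), (53, 69), (60, 740)], 0, 33120, 0, 0, 0, [0, 6072]⟩))) (.L ⟨[(0, 23490), (2, 10350), (6, 17370), (8, 6120), (35, 10350), (40, 10350), (41, 23490), (46, 1035), (53, 2349), (60, 11280)], 0, 441600, 0, 0, 0, [0, 348680]⟩)))) (.N 2 (.L ⟨[(0, 162), (1, 150), (8, 150), (10, 12), (21, 150), (40, 150), (46, 15), (60, 104)], 0, 0, 0, 0, 0, [0, 0]⟩) (.N 3 (.N 2 (.N 3 (.N 1 (.N 6 (.L ⟨[], 0, 0, 0, 0, 0, [1, 0]⟩) (.L ⟨[(0, 30), (2, 30), (8, 30), (33, 30), (46, 3), (60, 20)], 0, 0, 0, 0, 0, [0, 45]⟩)) (.L ⟨[(0, 690), (2, 1530), (10, 690), (31, 1290), (33, 240), (40, 1530), (46, 153),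 (53, 69), (60, 740)], 0, 0, 0, 0, 0, [0, 4140]⟩)) (.L ⟨[(0, 30540), (2, 42570), (8, 23445), (10, 7095), (31, 16125), (33, 26445), (46, 4257), (60, 24370)], 0, 0, 0, 0, 0, [0, 0]⟩)) (.L ⟨[(0, 7830), (2, 3450), (6, 5790), (8, 2040), (35, 3450), (40, 3450), (41, 7830), (46, 345), (53, 783), (60, 3760)], 0, 0, 0, 0, 0, [0, 82800]⟩)) (.L ⟨[(0, 11167), (2, 14375), (8, 9275), (10, 1892), (31, 4300), (33, 10075), (60, 8514)], 0, 0, 0, 0, 0, [0, 0]⟩))))) (.L ⟨[], 0, 0, 1, 0, 0, [0, 0]⟩))))) (.L ⟨[], 0, 0, 1, 0, 0, [0, 0]⟩))) (.L ⟨[], 0, 0, 1, 0, 0, [0, 0]⟩)) (.L ⟨[], 0, 0, 1, 0, 0, [0, 0]⟩))) (.L ⟨[], 0, 0, 1, 0, 0, [0, 0]⟩)))) (.L ⟨[], 0, 0, 1, 0, 0, [0, 0]⟩)) (.L ⟨[], 0, 0, 1, 0, 0, [0, 0]⟩))) (.L ⟨[], 0, 0, 1, 0, 0, [0, 0]⟩))) (.L ⟨[], 0, 0, 1, 0, 0, [0, 0]⟩))) (.L ⟨[], 0, 0, 1, 0, 0, [0, 0]⟩)))) (.L ⟨[], 0, 0, 1, 0, 0, [0,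 0]⟩)) (.L ⟨[], 0, 0, 1, 0, 0, [0, 0]⟩)))) (.L ⟨[], 0, 0, 1, 0, 0, [0, 0]⟩))) (.N 2 (.N 3 (.N 4 (.N 2 (.L ⟨[(0, 14214), (1, 9417), (2, 6063), (6, 1548), (8, 17310), (19, 9417), (35, 6063), (40, 15480), (46, 1548), (57, 1548), (60, 9898)], 0, 743040, 0, 0, 374616, [0, 0]⟩) (.L ⟨[(0, 162), (1, 150), (8, 150), (10, 12), (21, 150), (40, 150), (46, 15), (60, 104)], 0, 7200, 0, 0, 0, [0, 0]⟩)) (.L ⟨[(0, 5994), (1, 5550), (8, 5550), (10, 444), (21, 5550), (40, 5550), (46, 555), (60, 3848)], 0, 368640, 0, 0, 347832, [0, 0]⟩)) (.N 4 (.L ⟨[(0, 162), (1, 150), (8, 150), (10, 12), (21, 150), (40, 150), (46, 15), (60, 104)], 0, 0, 0, 0, 0, [0, 0]⟩) (.N 5 (.N 5 (.N 5 (.L ⟨[(0, 162), (1, 150), (8, 150), (10, 12), (21, 150), (40, 150), (46, 15), (60, 104)], 0, 0, 1920, 0, 1552, [0, 0]⟩) (.L ⟨[(0, 162), (1, 150), (8, 150), (10, 12), (21,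 150), (40, 150), (46, 15), (60, 104)], 0, 0, 0, 0, 7200, [0, 0]⟩)) (.L ⟨[(0, 1296), (1, 1032), (2, 258), (8, 1167), (10, 129), (19, 645), (21, 387), (35, 258), (40, 1290), (46, 129), (60, 862)], 0, 0, 0, 0, 61920, [0, 0]⟩)) (.L ⟨[(0, 16669), (1, 10621), (2, 7009), (8, 14906), (10, 1763), (15, 1763), (17, 8858), (35, 7009), (40, 17630), (46, 1763), (60, 11433)], 0, 0, 0, 0, 846240, [0, 0]⟩)))) (.N 3 (.N 3 (.L ⟨[], 0, 30, 0, 0, 0, [0, 7]⟩) (.N 3 (.L ⟨[], 0, 30, 0, 0, 0, [0, 7]⟩) (.N 6 (.N 1 (.L ⟨[], 0, 0, 0, 0, 0, [1, 0]⟩) (.L ⟨[], 0, 0, 0, 0, 0, [4, 15]⟩)) (.N 4 (.L ⟨[(0, 140), (1, 230), (2, 140), (10, 140), (15, 230), (35, 140), (40, 370), (41, 370), (46, 37), (53, 37), (60, 170)], 0, 4440, 0, 0, 0, [0, 259]⟩) (.N 1 (.N 5 (.L ⟨[(0, 22338), (1, 45363), (2, 19737), (6, 17130), (8, 5208), (15, 45363), (37, 11925), (38,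 7812), (40, 65100), (41, 67701), (46, 6510), (60, 29146)], 0, 621054, 1249920, 0, 0, [0, 225246]⟩) (.L ⟨[(0, 225), (1, 60), (2, 60), (3, 180), (4, 45), (15, 60), (38, 60), (40, 120), (46, 12), (60, 115)], 0, 2016, 0, 0, 2880, [0, 2712]⟩)) (.L ⟨[(0, 690), (1, 1530), (10, 690), (19, 1290), (21, 240), (40, 1530), (46, 153), (60, 740)], 0, 28458, 3672, 0, 16983, [0, 36720]⟩)))))) (.N 4 (.N 6 (.N 1 (.L ⟨[], 0, 0, 0, 0, 0, [1, 0]⟩) (.L ⟨[(0, 690), (1, 1290), (2, 240), (10, 690), (19, 1290), (33, 240), (40, 1530), (47, 153), (60, 740)], 0, 0, 0, 0, 0, [32436, 36720]⟩)) (.L ⟨[(0, 7755), (1, 3765), (2, 11595), (8, 3987), (10, 3768), (15, 3765), (33, 10827), (35, 768), (41, 11520), (46, 1536), (53, 1152), (60, 7705)], 0, 0, 0, 0, 0, [0, 0]⟩)) (.N 1 (.N 6 (.L ⟨[], 0, 0, 0, 0, 0, [1, 0]⟩) (.L ⟨[(0, 114291), (1, 220659), (2, 72591),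 (4, 26775), (6, 87516), (15, 220659), (37, 15300), (38, 57291), (40, 293250), (46, 29325), (60, 135847)], 0, 0, 4896000, 0, 0, [0, 946050]⟩)) (.N 6 (.L ⟨[(0, 2346), (1, 5400), (10, 2346), (19, 3660), (21, 1740), (40, 5400), (42, 3795), (46, 540), (60, 2582)], 0, 0, 22440, 0, 37620, [109980, 115200]⟩) (.N 5 (.L ⟨[(0, 484), (1, 1400), (2, 450), (10, 484), (15, 1400), (37, 450), (40, 1850), (47, 74), (48, 111), (60, 778)], 0, 0, 35520, 0, 2294, [0, 4329]⟩) (.L ⟨[(0, 408), (1, 2595), (2, 465), (10, 408), (15, 1830), (17, 765), (38, 465), (40, 3060), (47, 306), (60, 1156)], 0, 0, 24480, 0, 13974, [0, 18870]⟩))))))))) (.N 5 (.N 4 (.N 1 (.N 2 (.L ⟨[(1, 185502), (2, 53148), (8, 366990), (10, 6708), (21, 270642), (23, 12384), (33, 53148), (40, 238650), (48, 23865), (57, 124566), (58, 32508), (60, 79550)], 0, 3962880, 0, 0, 0,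 [0, 0]⟩) (.N 3 (.N 3 (.L ⟨[(8, 3), (33, 3), (57, 1), (59, 1)], 0, 60, 0, 0, 0, [0, 12]⟩) (.N 5 (.L ⟨[(0, 7740), (8, 22704), (10, 2064), (31, 3870), (33, 24684), (41, 4515), (53, 774), (57, 5676), (59, 9518), (60, 2580)], 0, 133128, 247680, 0, 0, [0, 0]⟩) (.L ⟨[(0, 25800), (1, 6450), (8, 52890), (15, 6450), (33, 42090), (35, 8772), (41, 32250), (46, 645), (51, 3225), (57, 9030), (59, 16954), (60, 10750)], 0, 546960, 619200, 0, 0, [0, 24510]⟩))) (.L ⟨[(0, 5775), (1, 1155), (2, 15015), (8, 3288), (10, 2487), (26, 1155), (29, 5274), (31, 9741), (46, 1617), (53, 693), (60, 7315)], 0, 0, 0, 0, 0, [0, 0]⟩))) (.L ⟨[(1, 161250), (10, 217752), (15, 199950), (33, 379800), (40, 161250), (41, 161250), (48, 16125), (51, 12900), (52, 3225), (57, 72584), (58, 12900), (59, 126600), (60, 53750)], 0, 0, 3096000, 0, 0, [0, 0]⟩)) (.N 4 (.N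 5 (.L ⟨[(8, 3), (33, 3), (57, 1), (59, 1)], 0, 0, 60, 0, 0, [0, 0]⟩) (.N 2 (.L ⟨[(1, 18361), (2, 34529), (8, 83170), (10, 1763), (17, 50095), (35, 34529), (40, 52890), (48, 5289), (57, 28311), (58, 10578), (60, 17630)], 0, 342022, 1692480, 0, 0, [0, 0]⟩) (.N 1 (.L ⟨[(1, 96750), (8, 215100), (10, 6450), (15, 125775), (35, 129774), (40, 96750), (41, 96750), (47, 9675), (51, 9675), (57, 73850), (58, 9675), (59, 43258), (60, 32250)], 0, 41925, 6192000, 0, 0, [0, 0]⟩) (.L ⟨[(1, 750), (10, 528), (15, 975), (35, 528), (40, 750), (41, 750), (48, 75), (51, 75), (57, 176), (58, 75), (59, 176), (60, 250)], 0, 0, 36000, 0, 0, [0, 0]⟩)))) (.L ⟨[], 0, 0, 1, 0, 0, [0, 0]⟩))) (.N 2 (.N 3 (.N 4 (.L ⟨[(1, 32250), (8, 65550), (19, 41925), (35, 21027), (40, 32250), (48, 3225), (57, 21850), (58, 3225), (59, 7009), (60, 10750)], 0, 387000,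 0, 0, 0, [0, 0]⟩) (.L ⟨[(1, 241230), (8, 414858), (10, 7095), (19, 44505), (21, 490458), (34, 51084), (40, 241230), (42, 241230), (48, 24123), (57, 140651), (58, 97911), (59, 17028), (60, 80410)], 0, 5448960, 452661, 0, 0, [0, 0]⟩)) (.L ⟨[(1, 25542), (2, 2838), (8, 10917), (19, 6321), (21, 19221), (34, 7095), (40, 28380), (42, 25542), (48, 2838), (57, 3639), (59, 1419), (60, 9460)], 0, 0, 42570, 0, 0, [0, 0]⟩)) (.N 4 (.N 1 (.L ⟨[(1, 32250), (8, 67950), (10, 3225), (15, 41925), (35, 42183), (40, 32250), (41, 32250), (47, 3225), (51, 3225), (57, 23725), (58, 3225), (59, 14061), (60, 10750)], 0, 19350, 0, 0, 0, [0, 0]⟩) (.L ⟨[(1, 750), (10, 528), (15, 975), (35, 528), (40, 750), (41, 750), (48, 75), (51, 75), (57, 176), (58, 75), (59, 176), (60, 250)], 0, 0, 0, 0, 0, [0, 0]⟩)) (.N 1 (.N 5 (.N 4 (.N 3 (.N 2 (.L ⟨[(0, 11004),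 (1, 44312), (2, 16198), (10, 11004), (15, 44312), (37, 14181), (38, 2017), (40, 60510), (41, 55316), (48, 6051), (60, 23838)], 0, 1936320, 887480, 0, 0, [0, 0]⟩) (.L ⟨[(1, 15120), (8, 672), (10, 3360), (15, 17640), (37, 6105), (38, 336), (40, 4956), (41, 15120), (47, 1512), (50, 1512), (57, 1344), (58, 840), (59, 2147), (60, 5040)], 0, 47208, 322560, 0, 0, [0, 0]⟩)) (.L ⟨[(0, 9834), (1, 369), (2, 3321), (6, 9834), (15, 369), (35, 1986), (37, 1335), (40, 3690), (46, 369), (60, 4508)], 0, 0, 177120, 0, 16974, [0, 0]⟩)) (.L ⟨[(1, 1170), (15, 1275), (38, 315), (40, 1170), (42, 1170), (48, 117), (58, 35), (59, 105), (60, 390)], 0, 0, 33600, 0, 0, [0, 0]⟩)) (.L ⟨[(1, 674), (2, 196), (15, 737), (36, 21), (38, 175), (40, 870), (41, 674), (48, 87), (58, 21), (60, 290)], 0, 0, 1260, 0, 0, [0, 0]⟩)) (.N 5 (.N 4 (.N 4 (.L ⟨[(1,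 2250), (10, 1200), (15, 2475), (35, 1032), (37, 225), (40, 2250), (41, 2250), (48, 225), (57, 400), (58, 75), (59, 419), (60, 750)], 0, 0, 36000, 0, 0, [0, 0]⟩) (.L ⟨[(1, 24000), (10, 10440), (15, 25800), (35, 6576), (37, 5175), (40, 24000), (41, 24000), (48, 2400), (57, 3480), (58, 600), (59, 3917), (60, 8000)], 0, 0, 460800, 0, 0, [0, 0]⟩)) (.N 1 (.N 6 (.L ⟨[(1, 12), (15, 12), (38, 3), (40, 12), (41, 12), (59, 1), (60, 4)], 0, 0, 320, 0, 0, [0, 0]⟩) (.N 3 (.L ⟨[(1, 10655), (2, 4645), (10, 9180), (15, 19835), (36, 510), (38, 4135), (40, 15300), (41, 1530), (48, 1530), (57, 3060), (58, 3060), (60, 5100), (66, 42296)], 0, 0, 489600, 0, 0, [0, 0]⟩) (.L ⟨[(1, 720), (2, 330), (10, 315), (15, 720), (36, 225), (38, 105), (40, 1050), (41, 720), (48, 105), (57, 105), (60, 350), (66, 2283)], 0, 0, 25200, 0, 0, [0, 0]⟩))) (.L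 ⟨[(0, 14), (1, 530), (2, 14), (14, 119), (15, 530), (38, 14), (40, 544), (41, 544), (57, 35), (60, 186)], 0, 0, 6720, 0, 0, [0, 0]⟩))) (.N 6 (.N 3 (.L ⟨[(1, 10770), (14, 735), (15, 13395), (38, 2520), (40, 10770), (41, 10770), (49, 1077), (57, 245), (58, 875), (59, 840), (60, 3590)], 0, 0, 134400, 0, 0, [0, 0]⟩) (.L ⟨[(1, 22770), (2, 2310), (14, 1575), (15, 22770), (38, 4200), (40, 25080), (41, 2310), (42, 22770), (49, 2508), (57, 525), (59, 630), (60, 8360)], 0, 0, 201600, 0, 0, [0, 25515]⟩)) (.L ⟨[(1, 1673), (2, 367), (10, 714), (12, 204), (15, 1979), (38, 367), (40, 2040), (41, 204), (42, 102), (49, 204), (57, 306), (58, 102), (60, 680), (66, 3638)], 0, 0, 0, 0, 0, [0, 0]⟩)))))))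

theorem ok_P03_0p : tree_P03_0p.check prm_P03 ⟨524288, 524288, -1048576, 1048576, -524288, 524288, -1048576, 1048576, -524288, 524288, -1048576, 1048576, 0, 336⟩ = true := by decide +kernel

def tree_P03_1m : Tree := .N 6 (.N 6 (.L ⟨[], 0, 0, 0, 0, 0, [1, 0]⟩) (.N 3 (.N 3 (.L ⟨[], 0, 1, 0, 0, 0, [0, 0]⟩) (.N 2 (.L ⟨[(1, 192), (2, 48), (4, 1569), (23, 96), (25, 384), (34, 48), (46, 24), (57, 523), (58, 96), (60, 80)], 0, 21936, 1176, 0, 0, [46080, 0]⟩) (.L ⟨[(0, 279), (1, 171), (2, 9), (3, 840), (26, 171), (38, 9), (45, 18), (53, 45), (57, 187), (60, 153)], 0, 17280, 3474, 0, 0, [15282, 0]⟩))) (.L ⟨[(3, 42), (26, 9), (57, 14), (58, 3)], 0, 0, 0, 0, 0, [720, 0]⟩))) (.N 3 (.N 3 (.N 6 (.L ⟨[], 0, 1, 0, 0, 0, [0, 0]⟩) (.N 2 (.L ⟨[(3, 60), (23, 15), (57, 20), (58, 5), (63, 138), (65, 75)], 0, 800, 0, 0, 0, [0, 0]⟩) (.L ⟨[(3,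 60), (22, 15), (57, 20), (58, 5), (63, 138), (68, 75)], 0, 800, 0, 0, 0, [0, 0]⟩))) (.L ⟨[(3, 42), (26, 9), (57, 14), (58, 3)], 0, 480, 0, 0, 0, [0, 0]⟩)) (.L ⟨[(3, 42), (26, 9), (57, 14), (58, 3)], 0, 0, 0, 0, 0, [0, 0]⟩))

theorem ok_P03_1m : tree_P03_1m.check prm_P03 ⟨-524288, 524288, -1048576, -1048576, -524288, 524288, -1048576, 1048576, -524288, 524288, -1048576, 1048576, 0, 336⟩ = true := by decide +kernel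

def tree_P03_1p : Tree := .N 6 (.N 6 (.N 6 (.L ⟨[], 0, 0, 0, 0, 0, [1, 0]⟩) (.L ⟨[(0, 62), (1, 1990), (12, 659), (17, 1386), (19, 604), (40, 1990), (42, 2052), (48, 199), (57, 199), (60, 684)], 0, 0, 0, 0, 10746, [191040, 49750]⟩)) (.N 0 (.N 3 (.L ⟨[(14, 9), (15, 42), (57, 3), (58, 14)], 0, 0, 0, 0, 0, [105, 720]⟩) (.L ⟨[(0, 2577), (1, 50454), (2, 26856), (12, 2577), (19, 27030), (21, 23424), (32, 10308), (34, 16548), (40, 77310), (42, 53031), (48, 7731), (60, 26629)], 0, 0, 0, 0, 0, [64425, 2473920]⟩)) (.N 3 (.N 6 (.N 2 (.L ⟨[(1, 1170), (14, 315), (15, 1275), (40, 1170), (42, 1170), (49, 117), (57, 105), (58, 35), (60, 390)], 0, 5075, 1015, 0, 6720, [0, 8400]⟩) (.L ⟨[], 0, 3, 0, 0, 0, [0, 10]⟩)) (.L ⟨[(14, 9), (15, 42), (57, 3), (58, 14)], 0, 0, 0, 0, 0, [0, 0]⟩)) (.N 2 (.N 5 (.L ⟨[(0, 35), (2, 124), (12, 12), (14,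 23), (27, 124), (40, 124), (42, 12), (60, 53)], 0, 0, 540, 0, 1284, [0, 1440]⟩) (.L ⟨[(0, 29240), (1, 118290), (2, 24760), (12, 14305), (14, 14935), (17, 118290), (32, 24760), (40, 143050), (42, 147530), (48, 14305), (60, 57430)], 0, 0, 234602, 0, 672335, [0, 1373280]⟩)) (.L ⟨[(0, 2650), (1, 7370), (10, 1050), (12, 1600), (19, 7370), (40, 7370), (42, 10020), (48, 737), (60, 3340)], 0, 0, 19162, 0, 20636, [0, 176880]⟩))))) (.N 6 (.N 3 (.L ⟨[(14, 9), (15, 42), (57, 3), (58, 14)], 0, 0, 0, 0, 0, [0, 0]⟩) (.N 5 (.L ⟨[(14, 9), (27, 42), (57, 3), (59, 14)], 0, 0, 0, 0, 0, [0, 0]⟩) (.N 3 (.N 3 (.L ⟨[(14, 9), (15, 42), (57, 3), (58, 14)], 0, 0, 0, 0, 0, [0, 0]⟩) (.N 2 (.N 0 (.L ⟨[(1, 8781), (14, 1170), (17, 7665), (19, 1116), (32, 780), (34, 1560), (40, 8781), (42, 8781), (57, 390), (59, 780), (60, 2927)], 0, 0, 0, 0, 0, [0,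 93600]⟩) (.L ⟨[(1, 5469), (14, 780), (17, 4965), (19, 504), (32, 780), (34, 780), (40, 5469), (42, 5469), (49, 260), (57, 260), (59, 520), (60, 1823)], 0, 0, 4680, 0, 0, [0, 31200]⟩)) (.N 0 (.L ⟨[], 0, 0, 0, 0, 0, [0, 1]⟩) (.L ⟨[(1, 12), (14, 3), (15, 12), (40, 12), (42, 12), (57, 1), (60, 4)], 0, 0, 0, 0, 16, [0, 120]⟩)))) (.N 6 (.N 2 (.L ⟨[(0, 382), (1, 2765), (2, 7599), (11, 1528), (21, 2765), (32, 7217), (34, 382), (39, 10364), (40, 10364), (42, 3147), (57, 382), (60, 3582)], 0, 0, 0, 0, 0, [0, 45840]⟩) (.L ⟨[(0, 1815), (1, 13359), (2, 9615), (14, 1815), (19, 11544), (21, 1815), (32, 9615), (40, 22974), (42, 15174), (60, 8263)], 0, 0, 0, 0, 21780, [0, 633600]⟩)) (.N 5 (.L ⟨[(0, 7920), (1, 2016), (13, 5904), (14, 2016), (16, 720), (18, 1296), (27, 12804), (28, 11223), (39, 2016), (41, 9936), (42, 9936), (59, 8009),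 (60, 3312)], 0, 0, 34560, 0, 0, [0, 0]⟩) (.N 0 (.L ⟨[(0, 397), (1, 126), (2, 359), (11, 271), (13, 126), (15, 126), (34, 359), (39, 485), (40, 485), (41, 523), (42, 523), (60, 294), (64, 3150)], 0, 0, 0, 0, 0, [0, 5040]⟩) (.N 2 (.L ⟨[(1, 25551), (2, 6540), (19, 15531), (21, 10020), (34, 11445), (40, 32091), (42, 25551), (59, 1635), (60, 10697)], 0, 0, 0, 0, 0, [0, 196200]⟩) (.L ⟨[(0, 55), (1, 349), (2, 325), (14, 55), (19, 239), (21, 110), (32, 325), (40, 674), (42, 404), (60, 243), (64, 165), (66, 110)], 0, 0, 0, 0, 605, [0, 6600]⟩)))))))) (.L ⟨[(14, 15), (57, 5), (64, 336)], 0, 0, 0, 0, 0, [0, 0]⟩))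

theorem ok_P03_1p : tree_P03_1p.check prm_P03 ⟨-524288, 524288, 1048576, 1048576, -524288, 524288, -1048576, 1048576, -524288, 524288, -1048576, 1048576, 0, 336⟩ = true := by decide +kernel

def tree_P03_2m : Tree := .N 6 (.N 6 (.N 6 (.L ⟨[], 0, 0, 0, 0, 0, [1, 0]⟩) (.L ⟨[(0, 151), (1, 350), (10, 126), (12, 25), (19, 350), (40, 350), (48, 35), (60, 167)], 0, 2380, 770, 0, 2625, [33600, 0]⟩)) (.N 0 (.L ⟨[(1, 54930), (14, 8400), (15, 19545), (17, 35385), (34, 5040), (36, 3360), (40, 54930), (42, 54930), (49, 5493), (57, 2800), (59, 2800), (60, 18310)], 0, 0, 0, 0, 0, [2150400, 0]⟩) (.N 6 (.L ⟨[(1, 3300), (10, 1575), (19, 2489), (21, 1216), (40, 3300), (42, 2698), (48, 330), (57, 525), (58, 135), (60, 1100)], 0, 9900, 0, 0, 19290, [57600, 0]⟩) (.N 1 (.L ⟨[(8, 3), (21, 3), (57, 1), (58, 1)], 0, 0, 0, 0, 0, [30, 0]⟩) (.L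 ⟨[(1, 3360), (10, 924), (12, 336), (17, 615), (19, 4260), (36, 504), (40, 3360), (42, 3360), (49, 336), (57, 420), (58, 505), (59, 168), (60, 1120)], 0, 0, 0, 0, 0, [40320, 0]⟩))))) (.N 1 (.N 0 (.L ⟨[], 0, 0, 0, 0, 0, [1, 0]⟩) (.L ⟨[(8, 3), (21, 3), (57, 1), (58, 1)], 0, 0, 0, 0, 0, [30, 0]⟩)) (.N 0 (.N 3 (.L ⟨[(1, 39840), (12, 528), (14, 9120), (15, 21420), (17, 48921), (34, 6960), (36, 4128), (40, 39840), (42, 39840), (49, 3984), (57, 3216), (58, 10167), (59, 3696), (60, 13280)], 0, 0, 0, 0, 0, [737280, 0]⟩) (.N 1 (.L ⟨[(1, 2550), (2, 1200), (10, 675), (19, 1345), (21, 3680), (34, 1200), (40, 3750), (42, 150), (48, 375), (57, 225), (58, 825), (60, 1250), (67, 4856)], 0, 0, 0, 0, 0, [288000, 0]⟩) (.N 4 (.N 6 (.L ⟨[(1, 62307), (2, 30297), (14, 1656), (19, 68379), (21, 552), (34, 30297), (40, 92604), (42, 2760), (49,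 7728), (57, 552), (58, 2208), (60, 30868)], 0, 0, 0, 0, 0, [529920, 372048]⟩) (.L ⟨[(1, 2250), (13, 450), (19, 2005), (21, 470), (34, 150), (36, 525), (39, 2250), (40, 2250), (42, 2250), (49, 225), (57, 150), (58, 75), (59, 225), (60, 750), (67, 4559)], 0, 0, 0, 0, 0, [18000, 0]⟩)) (.L ⟨[(1, 156390), (14, 10827), (19, 172419), (21, 63369), (32, 72249), (34, 64893), (39, 156390), (40, 156390), (42, 156390), (48, 15639), (57, 3609), (58, 26466), (59, 45714), (60, 52130)], 0, 0, 0, 0, 0, [1154880, 403005]⟩)))) (.L ⟨[(1, 283800), (10, 276705), (19, 786900), (21, 242628), (32, 17028), (34, 114939), (40, 283800), (42, 283800), (48, 28380), (57, 92235), (58, 248576), (59, 43989), (60, 94600)], 0, 0, 0, 0, 0, [5448960, 0]⟩)))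

theorem ok_P03_2m : tree_P03_2m.check prm_P03 ⟨-524288, 524288, -1048576, 1048576, -524288, -524288, -1048576, 1048576, -524288, 524288, -1048576, 1048576, 0, 336⟩ = true := by decide +kernel

def tree_P03_2p : Tree := .N 6 (.N 6 (.L ⟨[], 0, 0, 0, 0, 0, [1, 1]⟩) (.N 1 (.N 3 (.L ⟨[(0, 42), (1, 9), (3, 42), (26, 9), (60, 17)], 0, 0, 393, 0, 0, [0, 2880]⟩) (.L ⟨[(0, 420), (1, 81), (2, 9), (3, 420), (26, 81), (38, 9), (45, 9), (53, 27), (60, 170)], 0, 0, 4689, 0, 0, [3429, 8640]⟩)) (.L ⟨[(0, 24), (1, 9), (2, 18), (3, 24), (26, 9), (27, 18), (60, 17)], 0, 0, 189, 0, 0, [0, 8640]⟩))) (.N 5 (.N 4 (.N 3 (.N 3 (.L ⟨[(20, 3), (33, 3), (58, 1), (59, 1)], 0, 60, 0, 0, 0, [0, 0]⟩) (.N 1 (.N 0 (.L ⟨[], 0, 0, 0, 0, 0, [1, 0]⟩) (.L ⟨[(1, 14190), (3, 12771), (22, 18447), (31, 11481), (33, 27480), (41, 14190), (45, 1419), (53, 1419),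 (57, 4257), (58, 1419), (59, 12987), (60, 4730)], 0, 269610, 4257, 0, 0, [0, 340560]⟩)) (.L ⟨[(20, 3), (33, 3), (58, 1), (59, 1)], 0, 0, 0, 0, 0, [0, 16]⟩))) (.L ⟨[(0, 6048), (1, 14112), (11, 4704), (13, 1344), (20, 10080), (22, 4032), (29, 8229), (31, 8496), (39, 14112), (41, 20160), (53, 2016), (59, 5575), (60, 6720)], 0, 0, 0, 0, 0, [0, 0]⟩)) (.N 4 (.N 5 (.L ⟨[(20, 3), (33, 3), (58, 1), (59, 1)], 0, 0, 60, 0, 0, [0, 0]⟩) (.N 3 (.N 1 (.L ⟨[(1, 14190), (18, 30315), (20, 9600), (35, 15609), (39, 14190), (41, 14190), (51, 1419), (58, 8575), (59, 5203), (60, 4730)], 0, 0, 1816320, 0, 0, [48246, 128183]⟩) (.N 0 (.L ⟨[(11, 798), (13, 309), (16, 369), (18, 2850), (57, 369), (58, 1073)], 0, 0, 0, 0, 0, [0, 22140]⟩) (.L ⟨[(0, 84000), (1, 36000), (12, 84000), (16, 584775), (33, 2400), (35, 195696), (41, 120000), (51, 12000),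 (58, 182925), (59, 66032), (60, 40000)], 0, 0, 18432000, 0, 0, [0, 3578400]⟩))) (.L ⟨[(0, 7305), (1, 18465), (11, 4728), (13, 2577), (18, 8091), (20, 10374), (31, 7731), (39, 18465), (41, 25770), (51, 2577), (59, 2577), (60, 8590)], 0, 0, 1236960, 0, 0, [0, 0]⟩))) (.L ⟨[], 0, 0, 1, 0, 0, [0, 0]⟩))) (.N 3 (.N 3 (.L ⟨[(15, 42), (38, 9), (58, 14), (59, 3)], 0, 480, 0, 0, 0, [0, 0]⟩) (.N 0 (.L ⟨[(7, 3225), (9, 11952), (20, 11352), (22, 1419), (57, 5059), (58, 4257)], 0, 0, 0, 0, 0, [28380, 85140]⟩) (.N 1 (.L ⟨[(0, 3840930), (1, 1445700), (3, 4541580), (22, 1445700), (37, 1541430), (39, 1445700), (41, 5286630), (51, 528663), (57, 233550), (59, 513810), (60, 1762210), (62, 451530)], 0, 0, 61921890, 0, 0, [0, 119577600]⟩) (.L ⟨[(14, 9), (15, 42), (57, 3), (58, 14)], 0, 0, 0, 0, 0, [0, 1440]⟩)))) (.N 4 (.L ⟨[(0, 10059), (1,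 41481), (11, 10059), (13, 5154), (18, 32187), (20, 9294), (33, 5154), (39, 41481), (41, 51540), (51, 5154), (57, 1718), (59, 1718), (60, 17180)], 0, 0, 0, 0, 0, [0, 0]⟩) (.N 0 (.N 1 (.L ⟨[], 0, 0, 0, 0, 0, [1, 0]⟩) (.L ⟨[(7, 55), (9, 125), (22, 90), (57, 60), (58, 30), (64, 329)], 0, 0, 0, 0, 0, [450, 1800]⟩)) (.N 6 (.N 1 (.L ⟨[(0, 1092), (1, 108), (2, 144), (3, 1092), (24, 27), (26, 81), (38, 144), (39, 252), (60, 448)], 0, 0, 17280, 0, 0, [3897, 9495]⟩) (.L ⟨[(0, 231), (1, 18), (2, 54), (3, 168), (5, 63), (24, 18), (36, 27), (38, 27), (39, 72), (60, 101), (66, 72)], 0, 0, 3924, 0, 0, [0, 8640]⟩)) (.N 1 (.L ⟨[(0, 660), (1, 780), (2, 180), (7, 480), (9, 180), (22, 780), (36, 180), (39, 960), (41, 1440), (42, 565), (60, 540), (66, 3674)], 0, 0, 14400, 0, 0, [0, 8760]⟩) (.N 1 (.L ⟨[(0, 1395), (1, 3675), (2, 990), (3, 1395),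 (22, 3675), (36, 765), (38, 225), (39, 4665), (41, 5070), (60, 2020), (66, 21393)], 0, 0, 72225, 0, 0, [0, 86400]⟩) (.L ⟨[(1, 3), (22, 3), (60, 1), (66, 15)], 0, 0, 23, 0, 0, [0, 480]⟩))))))))

theorem ok_P03_2p : tree_P03_2p.check prm_P03 ⟨-524288, 524288, -1048576, 1048576, 524288, 524288, -1048576, 1048576, -524288, 524288, -1048576, 1048576, 0, 336⟩ = true := by decide +kernel

def tree_P03_3m : Tree := .N 6 (.N 6 (.L ⟨[], 0, 1, 0, 0, 0, [0, 0]⟩) (.L ⟨[], 0, 1, 0, 0, 0, [0, 0]⟩)) (.N 6 (.L ⟨[], 0, 1, 0, 0, 0, [0, 0]⟩) (.N 2 (.L ⟨[(17, 15), (58, 5), (63, 32), (65, 16)], 0, 150, 0, 0, 0, [0, 0]⟩) (.L ⟨[(16, 15), (58, 5), (63, 32), (68, 16)], 0, 150, 0, 0, 0, [0, 0]⟩)))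

theorem ok_P03_3m : tree_P03_3m.check prm_P03 ⟨-524288, 524288, -1048576, 1048576, -524288, 524288, -1048576, -1048576, -524288, 524288, -1048576, 1048576, 0, 336⟩ = true := by decide +kernel

def tree_P03_3p : Tree := .N 6 (.N 6 (.N 6 (.L ⟨[], 0, 0, 0, 0, 0, [1, 0]⟩) (.L ⟨[(0, 36), (1, 36), (2, 75), (10, 36), (23, 36), (27, 75), (60, 49)], 0, 0, 504, 0, 1116, [8640, 2124]⟩)) (.N 0 (.L ⟨[(1, 6765), (2, 8049), (23, 6765), (30, 10853), (32, 7072), (39, 3292), (40, 14814), (42, 6765), (59, 3292), (60, 4938)], 0, 0, 0, 0, 0, [790080, 289696]⟩) (.N 1 (.L ⟨[(0, 4452), (1, 1179), (2, 504), (3, 4452), (25, 675), (26, 504), (34, 504), (60, 2045)], 0, 0, 44352, 0, 1512, [60480, 0]⟩) (.L ⟨[(1, 11343), (2, 38037), (23, 6405), (25, 4938), (30, 19677), (32, 18360), (39, 49380), (40, 49380), (42, 11343), (46, 4938), (60, 16460)],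 0, 0, 79008, 0, 0, [162954, 296280]⟩)))) (.N 6 (.N 5 (.L ⟨[(26, 9), (27, 42), (58, 3), (59, 14)], 0, 0, 0, 0, 0, [0, 0]⟩) (.N 1 (.L ⟨[(0, 9), (1, 18), (3, 84), (26, 18), (57, 25), (60, 9)], 0, 0, 0, 0, 0, [540, 0]⟩) (.N 2 (.N 0 (.L ⟨[(1, 5335), (2, 6425), (23, 5335), (32, 9225), (34, 560), (39, 11760), (42, 5335), (59, 1120), (60, 3920), (64, 22637)], 0, 0, 0, 0, 0, [134400, 101920]⟩) (.L ⟨[(1, 485), (2, 1195), (23, 485), (32, 1125), (34, 70), (39, 1680), (40, 1680), (42, 485), (60, 560), (64, 1237)], 0, 0, 0, 0, 0, [0, 2100]⟩)) (.N 0 (.L ⟨[], 0, 0, 0, 0, 0, [1, 1]⟩) (.L ⟨[(0, 120), (1, 150), (2, 750), (7, 660), (26, 150), (30, 365), (32, 385), (39, 900), (40, 900), (42, 270), (44, 90), (57, 180), (60, 340), (64, 277)], 0, 0, 0, 0, 0, [0, 7200]⟩))))) (.L ⟨[(26, 15), (58, 5), (64, 336)], 0, 0, 0, 0, 0, [0, 0]⟩))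

theorem ok_P03_3p : tree_P03_3p.check prm_P03 ⟨-524288, 524288, -1048576, 1048576, -524288, 524288, 1048576, 1048576, -524288, 524288, -1048576, 1048576, 0, 336⟩ = true := by decide +kernel

def tree_P03_4m : Tree := .N 6 (.N 6 (.N 6 (.L ⟨[], 0, 0, 0, 0, 0, [1, 0]⟩) (.L ⟨[(0, 1262), (1, 1075), (2, 1800), (10, 1262), (15, 1075), (33, 1800), (40, 2875), (60, 1379)], 0, 41370, 0, 0, 0, [330960, 24822]⟩)) (.N 0 (.L ⟨[(1, 330), (14, 105), (15, 435), (40, 330), (41, 330), (52, 33), (57, 35), (58, 35), (60, 110)], 0, 0, 0, 0, 0, [16800, 0]⟩) (.N 6 (.L ⟨[(0, 645), (1, 645), (10, 645), (15, 645), (33, 990), (35, 129), (40, 645), (41, 1290), (52, 129), (59, 373), (60, 430)], 0, 10148, 0, 0, 0, [20640, 430]⟩) (.L ⟨[(1, 96750), (10, 123711), (15, 116100), (33, 210150), (35, 3225), (40, 96750), (41, 96750), (48, 9675), (51, 9675),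 (57, 41237), (58, 6450), (59, 71125), (60, 32250)], 0, 0, 0, 0, 0, [3096000, 0]⟩)))) (.N 1 (.N 0 (.L ⟨[], 0, 0, 0, 0, 0, [1, 0]⟩) (.L ⟨[(8, 3), (33, 3), (57, 1), (59, 1)], 0, 0, 0, 0, 0, [30, 0]⟩)) (.N 0 (.N 2 (.N 3 (.L ⟨[(1, 20160), (12, 2025), (14, 5535), (15, 28770), (35, 1512), (40, 20160), (41, 20160), (50, 1008), (51, 1008), (57, 2520), (58, 2870), (59, 504), (60, 6720)], 0, 0, 0, 0, 0, [483840, 0]⟩) (.L ⟨[(0, 135), (1, 1425), (14, 360), (15, 1425), (35, 180), (39, 105), (40, 1425), (41, 1560), (51, 156), (57, 75), (59, 60), (60, 520), (67, 888)], 0, 0, 0, 0, 0, [28800, 0]⟩)) (.L ⟨[(0, 1344), (1, 3456), (14, 1344), (16, 5097), (18, 5616), (33, 5664), (35, 96), (41, 4800), (51, 480), (58, 2419), (59, 1920), (60, 1600)], 0, 0, 0, 0, 0, [92160, 0]⟩)) (.L ⟨[(1, 32250), (10, 39603), (15, 41925), (33, 67950), (35, 3225),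 (41, 32250), (48, 3225), (51, 3225), (57, 13201), (58, 3225), (59, 23725), (60, 10750)], 0, 0, 0, 0, 0, [387000, 0]⟩)))

theorem ok_P03_4m : tree_P03_4m.check prm_P03 ⟨-524288, 524288, -1048576, 1048576, -524288, 524288, -1048576, 1048576, -524288, -524288, -1048576, 1048576, 0, 336⟩ = true := by decide +kernel

def tree_P03_4p : Tree := .N 6 (.N 6 (.N 3 (.L ⟨[], 0, 0, 10, 0, 15, [7, 10]⟩) (.L ⟨[], 0, 0, 30, 0, 23, [20, 15]⟩)) (.N 5 (.L ⟨[], 0, 0, 1, 0, 0, [0, 0]⟩) (.N 5 (.L ⟨[], 0, 0, 1, 0, 0, [0, 0]⟩) (.N 3 (.L ⟨[(15, 42), (38, 9), (58, 14), (59, 3)], 0, 534, 0, 0, 2880, [0, 0]⟩) (.N 2 (.L ⟨[], 0, 0, 1, 0, 3, [0, 0]⟩) (.N 1 (.L ⟨[(0, 84), (2, 18), (3, 84), (38, 18), (60, 34)], 0, 0, 2160, 0, 1665, [1062, 738]⟩) (.N 0 (.L ⟨[], 0, 0, 0, 0, 0, [3, 5]⟩) (.L ⟨[(0, 3225), (1, 5400), (2, 3096), (3, 3225), (21, 5400), (34,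 3096), (60, 3907)], 0, 0, 171908, 0, 234420, [0, 179722]⟩)))))))) (.N 5 (.L ⟨[], 0, 0, 1, 0, 0, [0, 0]⟩) (.N 2 (.N 3 (.L ⟨[(19, 3225), (21, 600), (34, 1419), (58, 1275), (59, 473)], 0, 7095, 1892, 0, 14190, [0, 0]⟩) (.N 3 (.L ⟨[(21, 3), (32, 3), (58, 1), (59, 1)], 0, 0, 2, 0, 30, [0, 0]⟩) (.L ⟨[(23, 1419), (30, 3225), (32, 600), (58, 473), (59, 1275)], 0, 0, 1419, 0, 28380, [0, 0]⟩))) (.N 5 (.N 6 (.L ⟨[], 0, 0, 1, 0, 0, [0, 0]⟩) (.L ⟨[(34, 3), (59, 1), (66, 15)], 0, 0, 60, 0, 0, [0, 0]⟩)) (.N 6 (.N 1 (.L ⟨[(3, 546), (38, 117), (57, 182), (59, 39)], 0, 0, 5760, 0, 0, [0, 0]⟩) (.N 3 (.L ⟨[(15, 42), (38, 9), (58, 14), (59, 3)], 0, 0, 105, 0, 720, [0, 0]⟩) (.N 3 (.L ⟨[(0, 3882), (1, 17901), (11, 9705), (18, 10881), (20, 7020), (39, 17901), (41, 21783), (42, 21783), (57, 1941), (60, 7261)], 0, 0, 279504, 0, 29813760, [0,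 0]⟩) (.N 0 (.L ⟨[(2, 75), (9, 69), (32, 69), (34, 6), (39, 75), (57, 23), (60, 25)], 0, 0, 60, 0, 0, [324, 720]⟩) (.N 1 (.L ⟨[(0, 10557), (2, 3987), (7, 6417), (9, 4140), (34, 3987), (39, 3987), (42, 10557), (60, 4848)], 0, 0, 71104, 0, 96960, [1616, 46864]⟩) (.L ⟨[(1, 804), (2, 2454), (23, 804), (30, 362), (32, 2092), (39, 377), (40, 3258), (42, 804), (60, 1086), (66, 1448)], 0, 0, 6154, 0, 20272, [0, 43440]⟩)))))) (.L ⟨[(34, 3), (59, 1), (66, 15)], 0, 0, 30, 0, 0, [0, 0]⟩)))))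

theorem ok_P03_4p : tree_P03_4p.check prm_P03 ⟨-524288, 524288, -1048576, 1048576, -524288, 524288, -1048576, 1048576, 524288, 524288, -1048576, 1048576, 0, 336⟩ = true := by decide +kernel

def tree_P03_5m : Tree := .N 6 (.N 6 (.N 6 (.L ⟨[], 0, 0, 0, 0, 0, [1, 0]⟩) (.L ⟨[(0, 9), (2, 42), (14, 9), (27, 42), (60, 17)], 0, 633, 480, 0, 0, [2880, 270]⟩)) (.N 3 (.N 2 (.L ⟨[(1, 4200), (2, 19110), (10, 420), (12, 7110), (23, 4200), (27, 19110), (40, 23310), (42, 4200), (47, 2331), (55, 420), (57, 2510), (60, 7770)], 0, 806400, 194040, 0, 0, [393540, 0]⟩) (.N 6 (.L ⟨[(0, 192000), (1, 18000), (2, 712290), (10, 49560), (12, 142440), (26, 18000), (29, 679290), (31, 33000), (46, 73029), (53, 21000), (60, 307430)], 0, 23040000, 12297000, 0, 0, [6627000, 8934000]⟩) (.N 3 (.L ⟨[], 0, 1, 0, 0, 0, [0, 0]⟩) (.N 0 (.L ⟨[], 0, 0, 0, 0,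 0, [2, 3]⟩) (.L ⟨[(0, 720), (1, 10080), (10, 720), (24, 1800), (26, 8280), (27, 33540), (29, 13725), (41, 10800), (46, 1008), (53, 1080), (59, 15755), (60, 3600)], 0, 691200, 169920, 0, 0, [0, 118080]⟩))))) (.L ⟨[(0, 468), (1, 522), (2, 2892), (14, 468), (26, 522), (27, 4620), (46, 90), (54, 99), (59, 576), (60, 1294)], 0, 0, 34560, 0, 0, [34560, 0]⟩))) (.N 3 (.N 3 (.N 6 (.L ⟨[], 0, 1, 0, 0, 0, [0, 0]⟩) (.N 2 (.L ⟨[(23, 15), (27, 60), (58, 5), (59, 20), (63, 138), (65, 75)], 0, 800, 0, 0, 0, [0, 0]⟩) (.L ⟨[(22, 15), (27, 60), (58, 5), (59, 20), (63, 138), (68, 75)], 0, 800, 0, 0, 0, [0, 0]⟩))) (.L ⟨[(26, 9), (27, 42), (58, 3), (59, 14)], 0, 480, 0, 0, 0, [0, 0]⟩)) (.L ⟨[(26, 9), (27, 42), (58, 3), (59, 14)], 0, 0, 0, 0, 0, [0, 0]⟩))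

theorem ok_P03_5m : tree_P03_5m.check prm_P03 ⟨-524288, 524288, -1048576, 1048576, -524288, 524288, -1048576, 1048576, -524288, 524288, -1048576, -1048576, 0, 336⟩ = true := by decide +kernel

def tree_P03_5p : Tree := .N 6 (.N 6 (.N 6 (.L ⟨[], 0, 0, 0, 0, 0, [1, 0]⟩) (.L ⟨[(0, 7032), (1, 17100), (2, 450), (10, 7032), (17, 600), (19, 16500), (38, 450), (40, 17550), (48, 1755), (60, 8194)], 0, 0, 0, 0, 128400, [576000, 329400]⟩)) (.N 6 (.N 0 (.L ⟨[], 0, 0, 0, 0, 0, [1, 0]⟩) (.N 1 (.L ⟨[], 0, 0, 0, 0, 0, [1, 0]⟩) (.N 3 (.L ⟨[(1, 4080), (15, 4710), (38, 1155), (40, 4080), (41, 4080), (48, 408), (58, 210), (59, 385), (60, 1360)], 0, 27440, 0, 0, 33600, [5110, 31605]⟩) (.L ⟨[(1, 11548), (2, 4502), (15, 9490), (17, 2058), (36, 2790), (38, 1712), (39, 16050), (40, 16050), (42, 11548), (46, 1605), (60, 5350)], 0, 0, 0, 0, 58101,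 [52644, 102720]⟩)))) (.N 3 (.L ⟨[(15, 42), (38, 9), (58, 14), (59, 3)], 0, 0, 0, 0, 0, [0, 0]⟩) (.N 1 (.L ⟨[(3, 42), (38, 9), (57, 14), (59, 3)], 0, 0, 0, 0, 0, [0, 0]⟩) (.N 0 (.L ⟨[(1, 882), (2, 537), (19, 882), (34, 474), (36, 63), (39, 1419), (40, 1419), (60, 473)], 0, 0, 0, 0, 0, [14364, 15120]⟩) (.N 2 (.L ⟨[(1, 265), (2, 95), (17, 265), (36, 95), (40, 360), (42, 180), (48, 36), (60, 120)], 0, 0, 0, 0, 864, [972, 1080]⟩) (.L ⟨[(0, 1218), (1, 1071), (2, 693), (3, 1218), (17, 1071), (36, 495), (38, 198), (40, 1764), (60, 994)], 0, 0, 0, 0, 10791, [0, 23760]⟩))))))) (.N 6 (.N 3 (.L ⟨[(15, 42), (38, 9), (58, 14), (59, 3)], 0, 0, 0, 0, 0, [0, 0]⟩) (.N 1 (.L ⟨[(3, 42), (38, 9), (57, 14), (59, 3)], 0, 0, 0, 0, 0, [0, 0]⟩) (.N 0 (.N 1 (.L ⟨[], 0, 0, 0, 0, 0, [1, 0]⟩) (.N 2 (.N 4 (.L ⟨[(1, 885), (2, 585), (15, 885), (36,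 315), (38, 270), (39, 1470), (40, 1470), (60, 490), (64, 4152)], 0, 0, 0, 0, 7920, [8190, 10800]⟩) (.L ⟨[(0, 3318), (1, 1200), (2, 1587), (5, 1200), (7, 2118), (15, 1200), (36, 1587), (39, 2787), (60, 2035), (64, 2400)], 0, 0, 0, 0, 9216000, [0, 110400]⟩)) (.L ⟨[], 0, 0, 0, 0, 0, [1, 5]⟩))) (.N 2 (.L ⟨[(1, 474), (2, 99), (15, 33), (17, 441), (36, 198), (39, 573), (40, 573), (42, 474), (59, 33), (60, 191)], 0, 0, 0, 0, 0, [0, 33]⟩) (.L ⟨[(0, 336), (1, 1338), (2, 885), (9, 840), (15, 1338), (34, 168), (36, 717), (39, 2223), (40, 2223), (42, 1674), (57, 168), (60, 853)], 0, 0, 0, 0, 168, [0, 5040]⟩))))) (.L ⟨[(38, 15), (59, 5), (64, 336)], 0, 0, 0, 0, 0, [0, 0]⟩))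

theorem ok_P03_5p : tree_P03_5p.check prm_P03 ⟨-524288, 524288, -1048576, 1048576, -524288, 524288, -1048576, 1048576, -524288, 524288, 1048576, 1048576, 0, 336⟩ = true := by decide +kernel

end Pool.Agent.H30.P6
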