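import Pool.Agent.H30.P6.Base

/-! certificate P13 (generated) -/

set_option autoImplicit false
set_option maxRecDepth 100000

namespace Pool.Agent.H30.P6

def prm_P13 : Prm := ⟨32, 256, base ++ [], [(1, 80000), (3, 80000)]⟩

def tree_P13_0m : Tree := .N 6 (.N 6 (.L ⟨[], 1, 0, 0, 0, 0, [0, 1]⟩) (.N 1 (.L ⟨[], 1, 0, 0, 0, 0, [0, 0]⟩) (.L ⟨[], 1, 0, 0, 0, 0, [0, 5]⟩))) (.N 1 (.L ⟨[], 1, 0, 0, 0, 0, [0, 0]⟩) (.N 2 (.N 1 (.N 6 (.L ⟨[], 1, 0, 0, 0, 0, [0, 0]⟩) (.L ⟨[(11, 3), (57, 1), (67, 15)], 60, 0, 0, 0, 0, [0, 0]⟩)) (.N 3 (.L ⟨[(14, 9), (15, 42), (57, 3), (58, 14)], 0, 0, 0, 0, 0, [195, 360]⟩) (.L ⟨[(23, 3), (58, 1), (67, 15)], 56, 0, 0, 0, 0, [0, 480]⟩))) (.N 3 (.L ⟨[(11, 1419), (18, 3225), (20, 600), (57, 473), (58, 1275)], 10879, 0, 0, 0, 0, [56760, 0]⟩) (.L ⟨[(7, 6450), (9, 2619), (20, 1419), (22, 2838), (57, 3023), (58, 1419)], 0, 0, 0,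 0, 0, [0, 85140]⟩))))

theorem ok_P13_0m : tree_P13_0m.check prm_P13 ⟨-32, -32, -64, 64, -32, 32, -64, 64, -32, 32, -64, 64, 0, 336⟩ = true := by decide +kernel

def tree_P13_0p : Tree := .N 6 (.N 6 (.L ⟨[], 0, 0, 0, 0, 0, [1, 0]⟩) (.N 3 (.L ⟨[], 0, 0, 0, 0, 0, [1, 0]⟩) (.N 1 (.L ⟨[(0, 1454), (1, 378), (2, 82), (3, 1454), (25, 181), (26, 197), (36, 34), (38, 48), (40, 460), (42, 1832), (46, 46), (60, 638)], 0, 0, 11576, 0, 0, [30720, 0]⟩) (.N 6 (.L ⟨[(0, 1512), (1, 3003), (2, 2157), (8, 1512), (21, 2229), (23, 774), (32, 2157), (40, 5160), (42, 4515), (46, 516), (60, 2224)], 0, 0, 17802, 0, 0, [61920, 37152]⟩) (.N 2 (.L ⟨[(1, 3), (2, 3), (21, 3), (32, 3), (60, 2)], 0, 0, 0, 0, 0, [60, 0]⟩) (.L ⟨[(0, 268494), (1, 285606), (2, 4644), (8, 251079), (10, 17415), (21, 235473), (23, 50133), (32, 4644), (40, 290250), (42, 554100), (46, 29025), (60,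 186248)], 0, 0, 3473712, 0, 0, [4458240, 3685014]⟩)))))) (.N 2 (.L ⟨[(1, 3169530), (8, 5500530), (10, 87720), (21, 5419290), (23, 165120), (36, 41280), (38, 36120), (40, 3169530), (42, 3169530), (48, 316953), (57, 1862750), (58, 804960), (59, 25800), (60, 1056510)], 0, 0, 0, 0, 0, [39628800, 0]⟩) (.N 3 (.N 6 (.L ⟨[], 0, 0, 0, 0, 0, [1, 0]⟩) (.N 6 (.L ⟨[], 0, 0, 0, 0, 0, [1, 0]⟩) (.N 2 (.L ⟨[], 0, 0, 0, 0, 0, [1, 0]⟩) (.N 3 (.L ⟨[], 0, 0, 0, 0, 0, [1, 0]⟩) (.N 1 (.N 1 (.L ⟨[(3, 525), (24, 225), (57, 175), (58, 75), (62, 126)], 0, 0, 0, 0, 0, [7560, 0]⟩) (.N 5 (.L ⟨[(0, 420), (1, 2180), (2, 820), (10, 420), (22, 2180), (27, 2275), (41, 2600), (42, 2600), (46, 300), (54, 260), (59, 485), (60, 1140), (62, 2262)], 0, 0, 27820, 0, 0, [153600, 51880]⟩) (.L ⟨[(0, 29400), (2, 3300), (6, 29400), (36, 825), (38, 2475), (60, 10900), (62, 7812)], 0, 0,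 219450, 0, 0, [792000, 561000]⟩))) (.L ⟨[(10, 3), (57, 1), (66, 15)], 0, 0, 0, 0, 0, [60, 40]⟩)))))) (.N 4 (.L ⟨[(0, 32250), (8, 46182), (10, 5418), (31, 6450), (33, 56382), (41, 32250), (53, 3225), (57, 6450), (59, 20944), (60, 10750)], 0, 0, 0, 0, 0, [387000, 0]⟩) (.N 5 (.L ⟨[(0, 104784), (1, 55596), (2, 119364), (10, 104784), (26, 55596), (27, 47628), (29, 476595), (40, 38880), (46, 17496), (54, 16038), (59, 134953), (60, 93248)], 0, 0, 14929920, 0, 0, [4180572, 0]⟩) (.N 2 (.L ⟨[(0, 7731), (1, 41586), (2, 9954), (10, 5154), (12, 2577), (19, 29118), (21, 12468), (34, 9954), (40, 51540), (42, 49317), (48, 5154), (60, 19757)], 0, 0, 219045, 0, 0, [309240, 0]⟩) (.N 1 (.L ⟨[(0, 4857), (2, 1080), (3, 4380), (4, 477), (36, 108), (38, 972), (40, 1080), (46, 108), (60, 1979), (62, 72)], 0, 0, 69120, 0, 0, [22248, 19656]⟩) (.N 4 (.L ⟨[(0, 5670),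 (1, 14500), (2, 4340), (12, 5670), (15, 14500), (35, 4340), (40, 18840), (41, 20170), (51, 2017), (60, 8170)], 0, 0, 121020, 0, 0, [112952, 0]⟩) (.N 3 (.N 1 (.N 5 (.L ⟨[(0, 34), (1, 140), (2, 30), (10, 34), (15, 140), (38, 30), (40, 170), (47, 17), (60, 68), (66, 102)], 0, 0, 4080, 0, 612, [0, 952]⟩) (.L ⟨[(1, 42), (2, 9), (15, 42), (38, 9), (60, 17)], 0, 0, 340, 0, 510, [17, 374]⟩)) (.L ⟨[(0, 420), (1, 1620), (14, 420), (15, 1620), (40, 1620), (42, 2040), (48, 162), (60, 680), (66, 168)], 0, 0, 6885, 0, 5103, [486, 19440]⟩)) (.L ⟨[(0, 25530), (1, 50955), (2, 48945), (10, 25530), (21, 43185), (23, 7770), (32, 48945), (40, 99900), (42, 76485), (46, 9990), (60, 41810), (66, 95946)], 0, 0, 532800, 0, 0, [0, 460650]⟩)))))))))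

theorem ok_P13_0p : tree_P13_0p.check prm_P13 ⟨32, 32, -64, 64, -32, 32, -64, 64, -32, 32, -64, 64, 0, 336⟩ = true := by decide +kernel

def tree_P13_1m : Tree := .N 6 (.N 6 (.L ⟨[], 0, 0, 0, 0, 0, [1, 0]⟩) (.L ⟨[(3, 42), (26, 9), (57, 14), (58, 3)], 0, 0, 0, 0, 0, [480, 0]⟩)) (.N 2 (.L ⟨[(3, 6090), (25, 945), (26, 675), (57, 2030), (58, 540), (65, 3528)], 0, 0, 0, 0, 0, [64800, 0]⟩) (.L ⟨[(3, 6090), (24, 945), (26, 675), (57, 2030), (58, 540), (68, 3528)], 0, 0, 0, 0, 0, [64800, 0]⟩))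

theorem ok_P13_1m : tree_P13_1m.check prm_P13 ⟨-32, 32, -64, -64, -32, 32, -64, 64, -32, 32, -64, 64, 0, 336⟩ = true := by decide +kernel

def tree_P13_1p : Tree := .N 6 (.N 6 (.L ⟨[], 0, 0, 0, 0, 0, [1, 0]⟩) (.N 3 (.L ⟨[], 0, 0, 0, 0, 0, [1, 0]⟩) (.N 2 (.N 0 (.L ⟨[(0, 2748), (1, 17451), (2, 10029), (10, 2748), (19, 3822), (21, 13629), (32, 7281), (34, 2748), (40, 27480), (42, 20199), (48, 2748), (60, 10076)], 0, 0, 0, 0, 74196, [49464, 659520]⟩) (.L ⟨[(0, 2340), (1, 15675), (2, 13695), (10, 1170), (12, 1170), (21, 15675), (32, 13695), (40, 29370), (42, 18015), (48, 2937), (60, 10570)], 0, 0, 0, 0, 32760, [179010, 280800]⟩)) (.L ⟨[(0, 3270), (1, 7830), (10, 3270), (19, 3990), (21, 3840), (40, 7830), (42, 11100), (48, 783), (60, 3700)], 0, 0, 39150, 0, 23490, [20358, 375840]⟩)))) (.N 6 (.N 3 (.L ⟨[], 0, 0, 0, 0, 0, [1, 0]⟩) (.N 5 (.L ⟨[(14,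 9), (27, 42), (57, 3), (59, 14)], 0, 0, 0, 0, 0, [0, 0]⟩) (.N 3 (.N 3 (.L ⟨[(14, 9), (15, 42), (57, 3), (58, 14)], 0, 0, 0, 0, 0, [0, 0]⟩) (.N 2 (.N 0 (.L ⟨[(1, 8781), (14, 1170), (17, 7665), (19, 1116), (32, 780), (34, 1560), (40, 8781), (42, 8781), (57, 390), (59, 780), (60, 2927)], 0, 0, 0, 0, 0, [0, 93600]⟩) (.L ⟨[(1, 5469), (14, 780), (17, 4965), (19, 504), (32, 780), (34, 780), (40, 5469), (42, 5469), (49, 260), (57, 260), (59, 520), (60, 1823)], 0, 0, 4680, 0, 0, [0, 31200]⟩)) (.N 0 (.L ⟨[], 0, 0, 0, 0, 0, [0, 1]⟩) (.L ⟨[(1, 12), (14, 3), (15, 12), (40, 12), (42, 12), (57, 1), (60, 4)], 0, 0, 0, 0, 16, [0, 120]⟩)))) (.N 6 (.N 2 (.L ⟨[(0, 382), (1, 2765), (2, 7599), (11, 1528), (21, 2765), (32, 7217), (34, 382), (39, 10364), (40, 10364), (42, 3147), (57, 382), (60, 3582)], 0, 0, 0, 0, 0, [0, 45840]⟩) (.L ⟨[(0, 1815), (1, 13359), (2,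 9615), (14, 1815), (19, 11544), (21, 1815), (32, 9615), (40, 22974), (42, 15174), (60, 8263)], 0, 0, 0, 0, 21780, [0, 633600]⟩)) (.N 5 (.L ⟨[(0, 7920), (1, 2016), (13, 5904), (14, 2016), (16, 720), (18, 1296), (27, 12804), (28, 11223), (39, 2016), (41, 9936), (42, 9936), (59, 8009), (60, 3312)], 0, 0, 34560, 0, 0, [0, 0]⟩) (.N 0 (.L ⟨[(0, 397), (1, 126), (2, 359), (11, 271), (13, 126), (15, 126), (34, 359), (39, 485), (40, 485), (41, 523), (42, 523), (60, 294), (64, 3150)], 0, 0, 0, 0, 0, [0, 5040]⟩) (.N 2 (.L ⟨[(1, 25551), (2, 6540), (19, 15531), (21, 10020), (34, 11445), (40, 32091), (42, 25551), (59, 1635), (60, 10697)], 0, 0, 0, 0, 0, [0, 196200]⟩) (.L ⟨[(0, 55), (1, 349), (2, 325), (14, 55), (19, 239), (21, 110), (32, 325), (40, 674), (42, 404), (60, 243), (64, 165), (66, 110)], 0, 0, 0, 0, 605, [0, 6600]⟩)))))))) (.L ⟨[(14, 15), (57,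 5), (64, 336)], 0, 0, 0, 0, 0, [0, 0]⟩))

theorem ok_P13_1p : tree_P13_1p.check prm_P13 ⟨-32, 32, 64, 64, -32, 32, -64, 64, -32, 32, -64, 64, 0, 336⟩ = true := by decide +kernel

def tree_P13_2m : Tree := .N 6 (.N 6 (.L ⟨[], 0, 0, 0, 0, 0, [1, 0]⟩) (.N 3 (.L ⟨[], 0, 0, 0, 0, 0, [1, 0]⟩) (.N 0 (.N 1 (.L ⟨[(0, 114240), (1, 78315), (2, 90705), (3, 114240), (23, 78315), (32, 28170), (34, 62535), (39, 28170), (40, 169020), (42, 192555), (46, 16902), (60, 94420)], 5408640, 0, 0, 0, 0, [2738124, 0]⟩) (.N 3 (.L ⟨[(1, 13545), (2, 15495), (21, 13545), (32, 9765), (34, 5730), (39, 29040), (40, 29040), (42, 13545), (46, 2904), (60, 9680)], 124872, 0, 0, 0, 0, [696960, 194568]⟩) (.N 6 (.L ⟨[(0, 14709), (1, 15723), (2, 25887), (3, 14709), (23, 15723), (32, 21726), (34, 4161), (40, 41610), (42, 30432), (46, 4161), (60, 18773)], 253821, 0, 0, 0, 112347, [316236,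 499320]⟩) (.L ⟨[(0, 1452), (1, 7509), (2, 7011), (3, 1452), (21, 7509), (32, 2577), (34, 4434), (39, 14520), (40, 14520), (42, 8961), (46, 1452), (60, 5324)], 76956, 0, 0, 0, 4356, [0, 87120]⟩)))) (.L ⟨[(0, 76989), (1, 264774), (2, 165876), (4, 76989), (21, 264774), (32, 54810), (34, 111066), (40, 430650), (42, 341763), (46, 43065), (60, 169213)], 0, 0, 0, 0, 0, [3758400, 0]⟩)))) (.N 3 (.N 6 (.L ⟨[], 0, 0, 0, 0, 0, [1, 0]⟩) (.N 6 (.L ⟨[], 0, 0, 0, 0, 0, [1, 0]⟩) (.N 0 (.N 1 (.L ⟨[(6, 16125), (8, 4419), (21, 1419), (23, 7095), (57, 6848), (58, 2838)], 681120, 0, 0, 0, 0, [309342, 0]⟩) (.N 1 (.N 0 (.N 0 (.L ⟨[(14, 60), (17, 315), (57, 20), (58, 105), (67, 336)], 3200, 0, 0, 0, 0, [0, 1940]⟩) (.L ⟨[(1, 24000), (14, 10080), (17, 71925), (19, 3120), (34, 1200), (36, 6720), (40, 24000), (42, 24000), (49, 2400), (57, 3360), (58, 17015), (59, 2640),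 (60, 8000), (67, 50832)], 921600, 0, 0, 0, 0, [0, 0]⟩)) (.L ⟨[(1, 1680), (12, 756), (17, 3291), (19, 780), (34, 84), (36, 420), (40, 1680), (42, 1680), (49, 168), (57, 252), (58, 797), (59, 168), (60, 560)], 40320, 0, 0, 0, 0, [0, 0]⟩)) (.L ⟨[(14, 9), (15, 42), (57, 3), (58, 14)], 0, 0, 0, 0, 0, [0, 0]⟩))) (.L ⟨[(8, 3), (21, 3), (57, 1), (58, 1)], 0, 0, 0, 0, 0, [0, 0]⟩)))) (.N 0 (.N 1 (.N 1 (.L ⟨[(4, 21), (25, 6), (57, 7), (58, 2)], 240, 0, 0, 0, 0, [54, 0]⟩) (.L ⟨[(1, 195771), (2, 61929), (6, 92772), (19, 58767), (21, 137004), (34, 56775), (36, 20616), (40, 257700), (42, 195771), (48, 25770), (57, 30924), (59, 5154), (60, 85900)], 19791360, 0, 0, 0, 0, [412320, 0]⟩)) (.N 6 (.N 3 (.N 3 (.N 1 (.N 0 (.L ⟨[], 1, 0, 0, 0, 0, [0, 2]⟩) (.L ⟨[(1, 212469), (2, 45231), (19, 151785), (21, 60684), (34, 81309), (36, 10308), (40, 257700), (42, 212469),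 (48, 25770), (59, 15462), (60, 85900)], 2278068, 0, 0, 0, 0, [2473920, 572094]⟩)) (.L ⟨[(1, 41451), (2, 10089), (19, 30855), (21, 10596), (34, 15243), (36, 2577), (40, 51540), (42, 41451), (48, 5154), (59, 2577), (60, 17180)], 0, 0, 0, 0, 0, [618480, 376242]⟩)) (.N 0 (.L ⟨[(1, 176715), (2, 106755), (19, 107415), (21, 69300), (34, 106755), (39, 283470), (40, 283470), (42, 176715), (46, 28347), (60, 94490)], 2167257, 0, 0, 0, 0, [0, 2473920]⟩) (.L ⟨[(1, 16065), (2, 9705), (19, 9765), (21, 6300), (34, 9705), (39, 25770), (40, 25770), (42, 16065), (47, 2577), (60, 8590)], 77310, 0, 0, 0, 0, [0, 0]⟩))) (.N 4 (.L ⟨[(1, 15273), (2, 13767), (3, 4356), (21, 15273), (32, 3717), (34, 10050), (39, 29040), (40, 29040), (42, 15273), (46, 2904), (57, 1452), (60, 9680)], 174240, 0, 0, 0, 0, [0, 152460]⟩) (.L ⟨[(1, 6450), (21, 4902), (23, 1548), (32, 8502),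 (39, 6450), (40, 6450), (42, 6450), (46, 645), (59, 2834), (60, 2150)], 38700, 0, 0, 0, 35475, [0, 37410]⟩))) (.N 4 (.N 3 (.N 1 (.N 0 (.N 1 (.L ⟨[], 1, 0, 0, 0, 0, [0, 0]⟩) (.L ⟨[(1, 6750), (19, 2530), (21, 4220), (34, 600), (36, 1425), (40, 6750), (42, 6750), (48, 675), (59, 675), (60, 2250), (67, 7994)], 72000, 0, 0, 0, 0, [0, 63450]⟩)) (.L ⟨[(1, 10734), (2, 1716), (17, 3711), (19, 7023), (34, 1245), (36, 2712), (40, 12450), (42, 10734), (49, 1245), (59, 747), (60, 4150)], 119520, 0, 0, 0, 0, [0, 0]⟩)) (.L ⟨[(1, 940800), (14, 30240), (19, 960960), (21, 30240), (34, 90720), (36, 198915), (40, 940800), (42, 940800), (48, 94080), (57, 10080), (58, 16800), (59, 96545), (60, 313600), (67, 492072)], 0, 0, 0, 0, 0, [0, 6451200]⟩)) (.L ⟨[(1, 2520), (3, 1185), (23, 2520), (34, 972), (39, 2520), (40, 2520), (42, 2520), (46, 252), (57, 395), (59, 324),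 (60, 840), (67, 8748)], 9792, 0, 0, 0, 4860, [0, 17280]⟩)) (.L ⟨[(21, 3), (32, 3), (58, 1), (59, 1)], 0, 0, 0, 0, 0, [0, 0]⟩)))) (.L ⟨[(1, 525030), (6, 319017), (8, 294972), (21, 686796), (23, 12771), (34, 90816), (36, 53922), (40, 525030), (42, 525030), (47, 52503), (57, 204663), (58, 58179), (59, 48246), (60, 175010)], 0, 0, 0, 0, 0, [1362240, 0]⟩)))

theorem ok_P13_2m : tree_P13_2m.check prm_P13 ⟨-32, 32, -64, 64, -32, -32, -64, 64, -32, 32, -64, 64, 0, 336⟩ = true := by decide +kernel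

def tree_P13_2p : Tree := .N 6 (.N 6 (.L ⟨[], 0, 0, 0, 0, 0, [1, 0]⟩) (.N 3 (.L ⟨[], 0, 0, 0, 0, 0, [1, 0]⟩) (.N 3 (.L ⟨[(0, 57), (1, 24), (3, 60), (5, 33), (24, 12), (26, 12), (39, 24), (57, 12), (60, 27)], 0, 0, 632, 0, 0, [740, 1920]⟩) (.L ⟨[(0, 1864), (1, 400), (2, 25), (5, 1198), (7, 666), (24, 200), (26, 200), (38, 25), (39, 425), (41, 2264), (42, 2264), (60, 763)], 0, 0, 16725, 0, 0, [0, 24000]⟩)))) (.N 3 (.N 6 (.L ⟨[], 0, 0, 0, 0, 0, [1, 0]⟩) (.N 6 (.L ⟨[], 0, 0, 0, 0, 0, [1, 0]⟩) (.N 0 (.L ⟨[(9, 3), (20, 3), (57, 1), (58, 1)], 0, 0, 0, 0, 0, [0, 0]⟩) (.N 1 (.N 1 (.L ⟨[(3, 75), (22, 36), (57, 25), (58, 12), (68, 180)], 0, 0, 0, 0, 0, [1440, 0]⟩) (.L ⟨[(3, 10275), (22, 1800), (24, 3600), (57, 3425), (58, 1800), (62, 3366)], 0, 0, 0, 0, 0, [0, 864000]⟩)) (.L ⟨[(12, 270), (14, 135), (15, 1050), (57, 135), (58, 350), (66, 1008)], 0, 0,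 0, 0, 0, [9450, 16200]⟩))))) (.N 4 (.L ⟨[(1, 525030), (11, 90816), (13, 53922), (20, 686796), (22, 12771), (31, 319017), (33, 294972), (39, 525030), (41, 525030), (52, 52503), (57, 48246), (58, 58179), (59, 204663), (60, 175010)], 0, 0, 0, 0, 0, [1362240, 0]⟩) (.N 5 (.N 5 (.L ⟨[(24, 6), (29, 21), (58, 2), (59, 7)], 0, 0, 240, 0, 0, [54, 0]⟩) (.L ⟨[(0, 61929), (1, 195771), (11, 56775), (13, 20616), (18, 58767), (20, 137004), (31, 92772), (39, 195771), (41, 257700), (51, 25770), (57, 5154), (59, 30924), (60, 85900)], 0, 0, 19791360, 0, 0, [412320, 0]⟩)) (.N 0 (.N 1 (.L ⟨[(1, 6369), (7, 23634), (9, 900), (22, 8394), (38, 675), (39, 6369), (41, 6369), (57, 8178), (58, 675), (59, 225), (60, 2123)], 0, 0, 80100, 0, 0, [0, 108000]⟩) (.L ⟨[(7, 6450), (9, 2619), (20, 1419), (22, 2838), (57, 3023), (58, 1419)], 0, 0, 0, 0, 0, [0, 85140]⟩)) (.N 6 (.N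 1 (.L ⟨[(0, 753), (1, 108), (2, 108), (3, 204), (5, 549), (24, 108), (36, 72), (38, 36), (39, 216), (60, 323)], 0, 0, 8640, 0, 0, [0, 5868]⟩) (.L ⟨[(0, 231), (1, 18), (2, 54), (3, 168), (5, 63), (24, 18), (36, 27), (38, 27), (39, 72), (60, 101), (66, 72)], 0, 0, 3924, 0, 0, [0, 8640]⟩)) (.N 1 (.L ⟨[(0, 660), (1, 780), (2, 180), (7, 480), (9, 180), (22, 780), (36, 180), (39, 960), (41, 1440), (42, 565), (60, 540), (66, 3674)], 0, 0, 14400, 0, 0, [0, 8760]⟩) (.N 1 (.L ⟨[(0, 1395), (1, 3675), (2, 990), (3, 1395), (22, 3675), (36, 765), (38, 225), (39, 4665), (41, 5070), (60, 2020), (66, 21393)], 0, 0, 72225, 0, 0, [0, 86400]⟩) (.L ⟨[(1, 3), (22, 3), (60, 1), (66, 15)], 0, 0, 23, 0, 0, [0, 480]⟩))))))))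

theorem ok_P13_2p : tree_P13_2p.check prm_P13 ⟨-32, 32, -64, 64, 32, 32, -64, 64, -32, 32, -64, 64, 0, 336⟩ = true := by decide +kernel

def tree_P13_3m : Tree := .N 6 (.N 6 (.L ⟨[], 0, 0, 0, 0, 0, [1, 0]⟩) (.L ⟨[], 0, 0, 0, 0, 0, [1, 0]⟩)) (.L ⟨[], 0, 0, 0, 0, 0, [1, 0]⟩)

theorem ok_P13_3m : tree_P13_3m.check prm_P13 ⟨-32, 32, -64, 64, -32, 32, -64, -64, -32, 32, -64, 64, 0, 336⟩ = true := by decide +kernel

def tree_P13_3p : Tree := .N 6 (.N 6 (.L ⟨[], 0, 0, 0, 0, 0, [1, 0]⟩) (.N 1 (.L ⟨[(0, 1584), (1, 702), (2, 108), (3, 2559), (25, 216), (26, 486), (34, 108), (39, 810), (40, 810), (42, 2286), (44, 81), (57, 325), (60, 798)], 25920, 0, 7560, 0, 0, [0, 0]⟩) (.N 5 (.L ⟨[(1, 3450), (2, 11160), (24, 138), (26, 3312), (27, 11805), (28, 3702), (39, 14610), (42, 3450), (55, 345), (59, 1449), (60, 4870)], 73485, 0, 132480, 0, 0, [0, 51681]⟩)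 (.N 2 (.N 0 (.L ⟨[(1, 11160), (2, 29160), (3, 3975), (23, 11160), (32, 29160), (39, 40320), (40, 40320), (42, 11160), (45, 4032), (57, 1325), (60, 13440)], 197425, 0, 0, 0, 10600, [0, 318000]⟩) (.L ⟨[(0, 9279), (1, 13203), (2, 28407), (3, 9279), (23, 13203), (32, 24246), (34, 4161), (39, 41610), (40, 41610), (42, 22482), (46, 4161), (60, 16963)], 0, 0, 41610, 0, 20805, [0, 249660]⟩)) (.N 0 (.L ⟨[(0, 42), (1, 9), (3, 42), (26, 9), (60, 17)], 480, 0, 339, 0, 339, [0, 1440]⟩) (.L ⟨[(0, 6625), (1, 2625), (2, 1220), (3, 6625), (25, 2625), (34, 1220), (42, 9250), (60, 3490)], 0, 0, 35380, 0, 27328, [0, 117120]⟩)))))) (.N 6 (.N 1 (.L ⟨[(3, 42), (26, 9), (57, 14), (58, 3)], 0, 0, 0, 0, 0, [0, 0]⟩) (.N 5 (.L ⟨[(26, 9), (27, 42), (58, 3), (59, 14)], 0, 0, 0, 0, 0, [0, 0]⟩) (.N 2 (.N 2 (.L ⟨[(1, 783), (2, 1617), (5, 1224), (23, 783), (32, 1602), (34,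 447), (39, 2400), (40, 2400), (42, 783), (44, 240), (57, 408), (59, 144), (60, 800)], 7608, 0, 0, 0, 0, [0, 11520]⟩) (.N 0 (.L ⟨[(1, 10912), (2, 26048), (5, 40923), (25, 7552), (26, 3360), (32, 32096), (34, 1008), (39, 36960), (40, 36960), (42, 10912), (44, 3696), (57, 13641), (59, 2352), (60, 12320)], 0, 0, 0, 0, 0, [0, 322560]⟩) (.L ⟨[(1, 21), (2, 51), (23, 21), (32, 51), (39, 72), (40, 52), (42, 21), (60, 24), (64, 47)], 0, 0, 0, 0, 27, [0, 90]⟩))) (.N 0 (.L ⟨[(1, 1008), (2, 936), (3, 1833), (5, 4050), (26, 1008), (32, 1512), (34, 72), (39, 1944), (42, 1008), (57, 1961), (59, 216), (60, 648)], 0, 0, 0, 0, 0, [0, 69120]⟩) (.L ⟨[(0, 120), (1, 150), (2, 750), (7, 660), (26, 150), (30, 365), (32, 385), (39, 900), (40, 900), (42, 270), (44, 90), (57, 180), (60, 340), (64, 277)], 0, 0, 0, 0, 0, [0, 7200]⟩))))) (.L ⟨[(26, 15), (58, 5), (64, 336)],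 0, 0, 0, 0, 0, [0, 0]⟩))

theorem ok_P13_3p : tree_P13_3p.check prm_P13 ⟨-32, 32, -64, 64, -32, 32, 64, 64, -32, 32, -64, 64, 0, 336⟩ = true := by decide +kernel

def tree_P13_4m : Tree := .N 6 (.N 6 (.L ⟨[], 0, 0, 0, 0, 0, [1, 0]⟩) (.N 3 (.L ⟨[], 0, 0, 0, 0, 0, [1, 0]⟩) (.N 1 (.L ⟨[(0, 2025), (1, 225), (2, 672), (4, 1425), (6, 600), (24, 225), (35, 672), (53, 225), (60, 974)], 54000, 0, 0, 0, 0, [52875, 0]⟩) (.N 0 (.N 2 (.L ⟨[(0, 237750), (1, 143835), (2, 88365), (8, 221496), (10, 16254), (17, 55728), (19, 88107), (33, 11610), (35, 76755), (40, 232200), (46, 23220), (60, 156650)], 4458240, 0, 0, 0, 0, [2117664, 4096008]⟩) (.L ⟨[(0, 42), (1, 9), (3, 42), (26, 9), (60, 17)], 0, 0, 0, 0, 0, [0, 4320]⟩)) (.L ⟨[(0, 30), (2, 30), (8, 30), (33, 30), (53, 3), (60, 20)], 0, 0, 0, 0, 0, [720, 0]⟩))))) (.N 2 (.N 3 (.N 6 (.L ⟨[], 0, 0, 0, 0, 0, [1, 0]⟩)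 (.N 6 (.L ⟨[], 0, 0, 0, 0, 0, [1, 0]⟩) (.N 2 (.N 3 (.L ⟨[], 0, 0, 0, 0, 0, [1, 0]⟩) (.N 2 (.N 2 (.N 3 (.L ⟨[], 0, 0, 0, 0, 0, [1, 0]⟩) (.N 3 (.L ⟨[], 0, 0, 0, 0, 0, [1, 0]⟩) (.N 1 (.N 0 (.L ⟨[(1, 14190), (6, 92622), (8, 6144), (23, 22704), (25, 4257), (35, 8514), (46, 1419), (57, 32922), (58, 4257), (59, 2838), (60, 4730)], 2724480, 0, 0, 0, 0, [696729, 0]⟩) (.L ⟨[(0, 1419), (2, 28380), (6, 64500), (8, 12000), (35, 28380), (47, 1419), (48, 1419), (57, 25027), (60, 9933)], 0, 0, 0, 0, 0, [681120, 0]⟩)) (.L ⟨[(1, 14850), (2, 21900), (15, 14850), (35, 21900), (39, 36750), (40, 36750), (48, 3675), (53, 735), (60, 12250), (61, 19512), (67, 8820)], 159495, 0, 0, 0, 0, [352800, 47775]⟩)))) (.L ⟨[], 0, 0, 0, 0, 0, [1, 0]⟩)) (.L ⟨[], 0, 0, 0, 0, 0, [1, 0]⟩))) (.L ⟨[], 0, 0, 0, 0, 0, [1, 0]⟩)))) (.N 0 (.N 1 (.L ⟨[(0, 119364), (1, 55596), (2, 104784),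 (3, 47628), (4, 476595), (26, 55596), (35, 104784), (41, 38880), (45, 16038), (53, 17496), (57, 134953), (60, 93248)], 14929920, 0, 0, 0, 0, [4180572, 0]⟩) (.N 2 (.N 5 (.L ⟨[(0, 214), (1, 836), (12, 15), (14, 199), (15, 836), (40, 836), (41, 696), (53, 105), (60, 350)], 14400, 0, 0, 0, 0, [1530, 0]⟩) (.N 1 (.N 0 (.L ⟨[(0, 90), (1, 375), (2, 180), (10, 90), (15, 375), (37, 180), (40, 555), (41, 465), (60, 215), (67, 258)], 10800, 0, 0, 0, 0, [0, 3195]⟩) (.L ⟨[(0, 504), (1, 2100), (2, 675), (10, 504), (15, 2100), (37, 675), (60, 1093)], 40500, 0, 0, 0, 0, [16200, 675]⟩)) (.L ⟨[(0, 546), (1, 4695), (2, 651), (14, 546), (15, 4695), (38, 651), (40, 5346), (41, 5241), (60, 1964), (67, 42)], 40320, 0, 0, 0, 0, [0, 21042]⟩))) (.L ⟨[(0, 1305), (1, 11745), (2, 3732), (11, 1305), (18, 6261), (20, 5484), (35, 3732), (39, 15477), (41, 13050), (51, 1305),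 (60, 5594)], 60030, 0, 0, 0, 0, [78300, 10440]⟩))) (.L ⟨[(2, 14190), (6, 3870), (8, 24546), (33, 19866), (35, 2838), (40, 14190), (46, 1419), (57, 9472), (59, 2838), (60, 4730)], 0, 0, 0, 0, 0, [170280, 0]⟩))) (.L ⟨[(1, 3169530), (13, 41280), (14, 36120), (20, 5419290), (22, 165120), (33, 5500530), (35, 87720), (39, 3169530), (41, 3169530), (51, 316953), (57, 25800), (58, 804960), (59, 1862750), (60, 1056510)], 0, 0, 0, 0, 0, [39628800, 0]⟩))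

theorem ok_P13_4m : tree_P13_4m.check prm_P13 ⟨-32, 32, -64, 64, -32, 32, -64, 64, -32, -32, -64, 64, 0, 336⟩ = true := by decide +kernel

def tree_P13_4p : Tree := .N 6 (.N 6 (.L ⟨[], 0, 0, 0, 0, 0, [1, 0]⟩) (.N 3 (.L ⟨[], 0, 0, 0, 0, 0, [1, 0]⟩) (.N 5 (.L ⟨[], 0, 0, 1, 0, 0, [0, 0]⟩) (.N 2 (.L ⟨[(1, 4257), (2, 8514), (9, 7095), (11, 1419), (23, 4257), (30, 7482), (32, 15615), (39, 12771), (40, 12771), (42, 4257), (57, 2838), (59, 4861), (60, 4257)], 0, 0, 363264, 0, 681120, [0, 0]⟩) (.N 5 (.L ⟨[], 0, 0, 1, 0, 0, [0, 0]⟩) (.N 3 (.L ⟨[], 0, 0, 1, 0, 6, [0, 0]⟩) (.N 0 (.L ⟨[(0, 96837), (1, 8613), (2, 65337), (7, 203571), (26, 8613), (34, 65337), (39, 73950), (42, 105450), (43, 7395), (57, 35578), (60, 56929)], 0, 0, 2672640, 0, 2484720, [0, 1761141]⟩) (.L ⟨[(0, 1296), (1, 276), (3, 810), (5, 486), (26, 276), (39, 276), (42, 1572), (60, 524)],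 0, 0, 21459, 0, 33120, [0, 16008]⟩)))))))) (.N 5 (.L ⟨[], 0, 0, 1, 0, 0, [0, 0]⟩) (.N 2 (.N 3 (.L ⟨[(19, 3225), (21, 600), (34, 1419), (58, 1275), (59, 473)], 0, 0, 10879, 0, 0, [56760, 0]⟩) (.N 3 (.L ⟨[(21, 3), (32, 3), (58, 1), (59, 1)], 0, 0, 2, 0, 30, [0, 0]⟩) (.L ⟨[(23, 1419), (30, 3225), (32, 600), (58, 473), (59, 1275)], 0, 0, 1419, 0, 28380, [0, 0]⟩))) (.N 5 (.N 6 (.L ⟨[], 0, 0, 1, 0, 0, [0, 0]⟩) (.L ⟨[(34, 3), (59, 1), (66, 15)], 0, 0, 60, 0, 0, [0, 0]⟩)) (.N 6 (.N 1 (.L ⟨[(3, 546), (38, 117), (57, 182), (59, 39)], 0, 0, 5760, 0, 0, [0, 0]⟩) (.N 3 (.L ⟨[], 0, 0, 0, 0, 0, [1, 0]⟩) (.N 3 (.L ⟨[(0, 3882), (1, 17901), (11, 9705), (18, 10881), (20, 7020), (39, 17901), (41, 21783), (42, 21783), (57, 1941), (60, 7261)], 0, 0, 279504, 0, 29813760, [0, 0]⟩) (.N 0 (.L ⟨[(2, 774), (7, 1032), (9, 579), (32, 387), (34, 516), (39, 774), (57, 537),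 (59, 43), (60, 258)], 0, 0, 6106, 0, 0, [0, 10320]⟩) (.N 1 (.L ⟨[(0, 10557), (2, 3987), (7, 6417), (9, 4140), (34, 3987), (39, 3987), (42, 10557), (60, 4848)], 0, 0, 72720, 0, 96960, [0, 45248]⟩) (.L ⟨[(1, 804), (2, 2454), (23, 804), (30, 362), (32, 2092), (39, 377), (40, 3258), (42, 804), (60, 1086), (66, 1448)], 0, 0, 6154, 0, 20272, [0, 43440]⟩)))))) (.L ⟨[(34, 3), (59, 1), (66, 15)], 0, 0, 30, 0, 0, [0, 0]⟩)))))

theorem ok_P13_4p : tree_P13_4p.check prm_P13 ⟨-32, 32, -64, 64, -32, 32, -64, 64, 32, 32, -64, 64, 0, 336⟩ = true := by decide +kernel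

def tree_P13_5m : Tree := .N 6 (.N 6 (.L ⟨[], 0, 0, 0, 0, 0, [1, 0]⟩) (.L ⟨[(26, 9), (27, 42), (58, 3), (59, 14)], 0, 0, 0, 0, 0, [480, 0]⟩)) (.N 2 (.L ⟨[(25, 945), (26, 675), (27, 6090), (58, 540), (59, 2030), (65, 3528)], 0, 0, 0, 0, 0, [64800, 0]⟩) (.L ⟨[(24, 945), (26, 675), (27, 6090), (58, 540), (59, 2030), (68, 3528)], 0, 0, 0, 0, 0, [64800, 0]⟩))

theorem ok_P13_5m : tree_P13_5m.check prm_P13 ⟨-32, 32, -64, 64, -32, 32, -64, 64, -32, 32, -64, -64, 0, 336⟩ = true := by decide +kernel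

def tree_P13_5p : Tree := .N 6 (.N 6 (.L ⟨[], 0, 0, 0, 0, 0, [1, 0]⟩) (.N 3 (.L ⟨[], 0, 0, 0, 0, 0, [1, 0]⟩) (.N 1 (.N 2 (.N 0 (.L ⟨[(0, 420), (2, 90), (3, 420), (38, 90), (46, 9), (60, 170)], 8640, 0, 0, 0, 4086, [2367, 0]⟩) (.L ⟨[(0, 420), (2, 90), (3, 420), (38, 90), (46, 9), (60, 170)], 0, 0, 0, 0, 4320, [2502, 0]⟩)) (.L ⟨[(0, 429), (2, 180), (3, 780), (38, 180), (39, 180), (40, 180), (41, 360), (45, 18), (57, 117), (60, 203)], 1647, 0, 0, 0, 4320, [9, 3987]⟩)) (.N 2 (.N 4 (.N 0 (.L ⟨[(0, 237), (1, 27), (2, 63), (3, 237), (15, 27), (38, 63), (39, 90), (40, 90), (41, 180), (46, 9), (60, 109)], 0, 0, 0, 0, 4320, [1089, 3960]⟩) (.L ⟨[(0, 34), (1, 134), (2, 36), (3, 34), (15, 134), (38, 36), (46, 17), (60, 68)], 0, 0, 0, 0, 2040, [0, 1309]⟩)) (.L ⟨[(0, 2055), (1, 144), (2, 432), (3, 372), (4, 1683), (23, 144), (37, 288), (38, 144), (60, 877)],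 0, 0, 0, 0, 138240, [0, 30384]⟩)) (.N 0 (.L ⟨[(0, 84), (2, 18), (3, 84), (38, 18), (60, 34)], 603, 0, 0, 0, 1422, [0, 4320]⟩) (.L ⟨[(0, 1227), (1, 747), (2, 513), (3, 1227), (15, 747), (36, 135), (38, 378), (40, 1260), (46, 126), (60, 829)], 0, 0, 0, 0, 14994, [882, 30240]⟩)))))) (.N 6 (.N 3 (.L ⟨[], 0, 0, 0, 0, 0, [1, 0]⟩) (.N 1 (.L ⟨[(3, 42), (38, 9), (57, 14), (59, 3)], 0, 0, 0, 0, 0, [0, 0]⟩) (.N 3 (.N 3 (.L ⟨[(15, 42), (38, 9), (58, 14), (59, 3)], 0, 0, 0, 0, 0, [0, 0]⟩) (.N 2 (.N 4 (.N 0 (.L ⟨[(1, 444), (2, 72), (3, 252), (15, 444), (36, 63), (38, 144), (39, 516), (40, 516), (41, 444), (57, 84), (59, 45), (60, 172)], 0, 0, 0, 0, 4176, [0, 4320]⟩) (.L ⟨[(1, 42), (2, 9), (15, 42), (38, 9), (60, 17)], 0, 0, 0, 0, 510, [68, 17]⟩)) (.L ⟨[], 0, 0, 0, 0, 30, [1, 0]⟩)) (.L ⟨[(1, 249099), (2, 8256), (7, 28896), (9, 99168), (15, 249099), (36,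 90816), (38, 28896), (39, 257355), (40, 257355), (41, 249099), (42, 249099), (57, 42688), (59, 37152), (60, 85785)], 0, 0, 0, 0, 326112, [0, 990720]⟩))) (.N 6 (.N 1 (.N 2 (.N 0 (.L ⟨[(0, 5160), (1, 11796), (2, 16374), (3, 30513), (23, 11796), (34, 10740), (36, 5634), (39, 28170), (40, 28170), (42, 16956), (46, 2817), (57, 8451), (60, 11110)], 109863, 0, 0, 0, 0, [0, 338040]⟩) (.L ⟨[(1, 62352), (2, 61638), (3, 74394), (21, 62352), (34, 37752), (36, 23886), (39, 123990), (40, 123990), (46, 12399), (57, 24798), (60, 41330)], 0, 0, 0, 0, 0, [0, 743940]⟩)) (.L ⟨[(0, 567), (2, 318), (7, 504), (9, 252), (34, 318), (39, 318), (40, 318), (42, 567), (57, 63), (60, 295)], 0, 0, 0, 0, 441, [0, 1890]⟩)) (.N 2 (.N 0 (.L ⟨[(1, 30249), (2, 24711), (3, 16488), (21, 27918), (23, 2331), (34, 24711), (39, 54960), (40, 54960), (42, 30249), (46, 5496), (57, 5496),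 (60, 18320)], 49464, 0, 0, 0, 0, [0, 659520]⟩) (.L ⟨[(1, 3213), (2, 2031), (19, 2709), (21, 504), (34, 2031), (39, 5244), (40, 5244), (60, 1748)], 0, 0, 0, 0, 9576, [0, 15120]⟩)) (.L ⟨[(0, 8793), (2, 4218), (7, 4107), (9, 5019), (34, 4218), (39, 4218), (40, 4218), (42, 8793), (57, 111), (60, 4337), (64, 5163)], 0, 0, 0, 0, 16317, [0, 53280]⟩))) (.N 1 (.L ⟨[(1, 2016), (2, 7920), (3, 12804), (5, 11223), (17, 720), (19, 1296), (36, 5904), (38, 2016), (39, 9936), (40, 9936), (42, 2016), (57, 8009), (60, 3312)], 34560, 0, 0, 0, 0, [0, 0]⟩) (.N 3 (.N 4 (.N 2 (.L ⟨[(1, 525), (2, 540), (15, 525), (36, 180), (38, 360), (39, 1065), (40, 1065), (60, 355), (64, 6528), (67, 180)], 1440, 0, 0, 0, 10800, [0, 6480]⟩) (.L ⟨[(0, 9), (2, 9), (3, 2), (5, 7), (36, 2), (38, 7), (39, 9), (41, 9), (60, 6), (64, 140)], 0, 0, 0, 0, 72, [0, 240]⟩)) (.L ⟨[(1, 46400),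 (2, 36400), (9, 18285), (11, 22080), (15, 39155), (17, 7245), (34, 43645), (39, 82800), (40, 82800), (42, 46400), (57, 13455), (59, 2415), (60, 27600), (64, 32697)], 0, 0, 0, 0, 0, [0, 0]⟩)) (.L ⟨[(0, 10655), (2, 11845), (7, 1000), (9, 17155), (34, 9345), (36, 2500), (39, 11845), (40, 11845), (42, 10655), (57, 2500), (60, 7500), (64, 58787)], 24000, 0, 0, 0, 0, [0, 0]⟩))))))) (.L ⟨[(38, 15), (59, 5), (64, 336)], 0, 0, 0, 0, 0, [0, 0]⟩))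

theorem ok_P13_5p : tree_P13_5p.check prm_P13 ⟨-32, 32, -64, 64, -32, 32, -64, 64, -32, 32, 64, 64, 0, 336⟩ = true := by decide +kernel

end Pool.Agent.H30.P6
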