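import Pool.Agent.H30.P6.Cube
import Pool.Agent.H30.P6.TF0
import Pool.Agent.H30.P6.TF1
import Pool.Agent.H30.P6.TF3
import Pool.Agent.H30.P6.TF5
import Pool.Agent.H30.P6.TF7
import Pool.Agent.H30.P6.TF9
import Pool.Agent.H30.P6.TF11
import Pool.Agent.H30.P6.TE0
import Pool.Agent.H30.P6.TE1
import Pool.Agent.H30.P6.TP01
import Pool.Agent.H30.P6.TP03
import Pool.Agent.H30.P6.TP13
import Pool.Agent.H30.P6.TDa
import Pool.Agent.H30.P6.TDb
import Pool.Agent.H30.P6.TDc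

/-! conclusions of the certificates (generated) -/

set_option autoImplicit false

namespace Pool.Agent.H30.P6

theorem no_F0 {z : Pt} (hz : Hyp prm_F0 z) (hb : Bd z) (h2 : 0 ≤ z.X2) : False := by
  obtain ⟨T, W0, W1, W2, W3, W4, W5, hT, hs, h⟩ := cube_boxes 32 512 672 (by norm_num) (by norm_num) (by norm_num) hb
  have S := fun t b h1 h2 => tree_sound (P := prm_F0) (by decide) (by decide) hz hT hs t b h1 h2
  have p2 := hs.pos2 (by norm_num) hT h2
  rcases h with h | h | h | h | h | h | h | h | h | h | h | h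
  · exact S _ _ ok_F0_0m (h.pos2 p2)
  · exact S _ _ ok_F0_0p (h.pos2 p2)
  · exact S _ _ ok_F0_1m (h.pos2 p2)
  · exact S _ _ ok_F0_1p (h.pos2 p2)
  · have := h.h2.2; push_cast at this; linarith
  · exact S _ _ ok_F0_2p h
  · exact S _ _ ok_F0_3m (h.pos2 p2)
  · exact S _ _ ok_F0_3p (h.pos2 p2)
  · exact S _ _ ok_F0_4m (h.pos2 p2)
  · exact S _ _ ok_F0_4p (h.pos2 p2)
  · exact S _ _ ok_F0_5m (h.pos2 p2)
  · exact S _ _ ok_F0_5p (h.pos2 p2)

theorem no_F1 {z : Pt} (hz : Hyp prm_F1 z) (hb : Bd z) : False := by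
  obtain ⟨T, W0, W1, W2, W3, W4, W5, hT, hs, h⟩ := cube_boxes 64 512 672 (by norm_num) (by norm_num) (by norm_num) hb
  have S := fun t b h1 h2 => tree_sound (P := prm_F1) (by decide) (by decide) hz hT hs t b h1 h2
  rcases h with h | h | h | h | h | h | h | h | h | h | h | h
  · exact S _ _ ok_F1_0m h
  · exact S _ _ ok_F1_0p h
  · exact S _ _ ok_F1_1m h
  · exact S _ _ ok_F1_1p h
  · exact S _ _ ok_F1_2m h
  · exact S _ _ ok_F1_2p h
  · exact S _ _ ok_F1_3m h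
  · exact S _ _ ok_F1_3p h
  · exact S _ _ ok_F1_4m h
  · exact S _ _ ok_F1_4p h
  · exact S _ _ ok_F1_5m h
  · exact S _ _ ok_F1_5p h

theorem no_F3 {z : Pt} (hz : Hyp prm_F3 z) (hb : Bd z) : False := by
  obtain ⟨T, W0, W1, W2, W3, W4, W5, hT, hs, h⟩ := cube_boxes 64 512 672 (by norm_num) (by norm_num) (by norm_num) hb
  have S := fun t b h1 h2 => tree_sound (P := prm_F3) (by decide) (by decide) hz hT hs t b h1 h2
  rcases h with h | h | h | h | h | h | h | h | h | h | h | h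
  · exact S _ _ ok_F3_0m h
  · exact S _ _ ok_F3_0p h
  · exact S _ _ ok_F3_1m h
  · exact S _ _ ok_F3_1p h
  · exact S _ _ ok_F3_2m h
  · exact S _ _ ok_F3_2p h
  · exact S _ _ ok_F3_3m h
  · exact S _ _ ok_F3_3p h
  · exact S _ _ ok_F3_4m h
  · exact S _ _ ok_F3_4p h
  · exact S _ _ ok_F3_5m h
  · exact S _ _ ok_F3_5p h

theorem no_F5 {z : Pt} (hz : Hyp prm_F5 z) (hb : Bd z) : False := by
  obtain ⟨T, W0, W1, W2, W3, W4, W5, hT, hs, h⟩ := cube_boxes 32 256 336 (by norm_num) (by norm_num) (by norm_num) hb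
  have S := fun t b h1 h2 => tree_sound (P := prm_F5) (by decide) (by decide) hz hT hs t b h1 h2
  rcases h with h | h | h | h | h | h | h | h | h | h | h | h
  · exact S _ _ ok_F5_0m h
  · exact S _ _ ok_F5_0p h
  · exact S _ _ ok_F5_1m h
  · exact S _ _ ok_F5_1p h
  · exact S _ _ ok_F5_2m h
  · exact S _ _ ok_F5_2p h
  · exact S _ _ ok_F5_3m h
  · exact S _ _ ok_F5_3p h
  · exact S _ _ ok_F5_4m h
  · exact S _ _ ok_F5_4p h
  · exact S _ _ ok_F5_5m h
  · exact S _ _ ok_F5_5p h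

theorem no_F7 {z : Pt} (hz : Hyp prm_F7 z) (hb : Bd z) : False := by
  obtain ⟨T, W0, W1, W2, W3, W4, W5, hT, hs, h⟩ := cube_boxes 64 512 672 (by norm_num) (by norm_num) (by norm_num) hb
  have S := fun t b h1 h2 => tree_sound (P := prm_F7) (by decide) (by decide) hz hT hs t b h1 h2
  rcases h with h | h | h | h | h | h | h | h | h | h | h | h
  · exact S _ _ ok_F7_0m h
  · exact S _ _ ok_F7_0p h
  · exact S _ _ ok_F7_1m h
  · exact S _ _ ok_F7_1p h
  · exact S _ _ ok_F7_2m h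
  · exact S _ _ ok_F7_2p h
  · exact S _ _ ok_F7_3m h
  · exact S _ _ ok_F7_3p h
  · exact S _ _ ok_F7_4m h
  · exact S _ _ ok_F7_4p h
  · exact S _ _ ok_F7_5m h
  · exact S _ _ ok_F7_5p h

theorem no_F9 {z : Pt} (hz : Hyp prm_F9 z) (hb : Bd z) : False := by
  obtain ⟨T, W0, W1, W2, W3, W4, W5, hT, hs, h⟩ := cube_boxes 32 256 336 (by norm_num) (by norm_num) (by norm_num) hb
  have S := fun t b h1 h2 => tree_sound (P := prm_F9) (by decide) (by decide) hz hT hs t b h1 h2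
  rcases h with h | h | h | h | h | h | h | h | h | h | h | h
  · exact S _ _ ok_F9_0m h
  · exact S _ _ ok_F9_0p h
  · exact S _ _ ok_F9_1m h
  · exact S _ _ ok_F9_1p h
  · exact S _ _ ok_F9_2m h
  · exact S _ _ ok_F9_2p h
  · exact S _ _ ok_F9_3m h
  · exact S _ _ ok_F9_3p h
  · exact S _ _ ok_F9_4m h
  · exact S _ _ ok_F9_4p h
  · exact S _ _ ok_F9_5m h
  · exact S _ _ ok_F9_5p h

theorem no_F11 {z : Pt} (hz : Hyp prm_F11 z) (hb : Bd z) (h2 : 0 ≤ z.X2) : False := by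
  obtain ⟨T, W0, W1, W2, W3, W4, W5, hT, hs, h⟩ := cube_boxes 32 256 336 (by norm_num) (by norm_num) (by norm_num) hb
  have S := fun t b h1 h2 => tree_sound (P := prm_F11) (by decide) (by decide) hz hT hs t b h1 h2
  have p2 := hs.pos2 (by norm_num) hT h2
  rcases h with h | h | h | h | h | h | h | h | h | h | h | h
  · exact S _ _ ok_F11_0m (h.pos2 p2)
  · exact S _ _ ok_F11_0p (h.pos2 p2)
  · exact S _ _ ok_F11_1m (h.pos2 p2)
  · exact S _ _ ok_F11_1p (h.pos2 p2)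
  · have := h.h2.2; push_cast at this; linarith
  · exact S _ _ ok_F11_2p h
  · exact S _ _ ok_F11_3m (h.pos2 p2)
  · exact S _ _ ok_F11_3p (h.pos2 p2)
  · exact S _ _ ok_F11_4m (h.pos2 p2)
  · exact S _ _ ok_F11_4p (h.pos2 p2)
  · exact S _ _ ok_F11_5m (h.pos2 p2)
  · exact S _ _ ok_F11_5p (h.pos2 p2)

theorem no_E0 {z : Pt} (hz : Hyp prm_E0 z) (hb : Bd z) : False := by
  obtain ⟨T, W0, W1, W2, W3, W4, W5, hT, hs, h⟩ := cube_boxes 524288 8192 10752 (by norm_num) (by norm_num) (by norm_num) hb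
  have S := fun t b h1 h2 => tree_sound (P := prm_E0) (by decide) (by decide) hz hT hs t b h1 h2
  rcases h with h | h | h | h | h | h | h | h | h | h | h | h
  · exact S _ _ ok_E0_0m h
  · exact S _ _ ok_E0_0p h
  · exact S _ _ ok_E0_1m h
  · exact S _ _ ok_E0_1p h
  · exact S _ _ ok_E0_2m h
  · exact S _ _ ok_E0_2p h
  · exact S _ _ ok_E0_3m h
  · exact S _ _ ok_E0_3p h
  · exact S _ _ ok_E0_4m h
  · exact S _ _ ok_E0_4p h
  · exact S _ _ ok_E0_5m h
  · exact S _ _ ok_E0_5p h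

theorem no_E1 {z : Pt} (hz : Hyp prm_E1 z) (hb : Bd z) (h2 : 0 ≤ z.X2) : False := by
  obtain ⟨T, W0, W1, W2, W3, W4, W5, hT, hs, h⟩ := cube_boxes 32 512 672 (by norm_num) (by norm_num) (by norm_num) hb
  have S := fun t b h1 h2 => tree_sound (P := prm_E1) (by decide) (by decide) hz hT hs t b h1 h2
  have p2 := hs.pos2 (by norm_num) hT h2
  rcases h with h | h | h | h | h | h | h | h | h | h | h | h
  · exact S _ _ ok_E1_0m (h.pos2 p2)
  · exact S _ _ ok_E1_0p (h.pos2 p2)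
  · exact S _ _ ok_E1_1m (h.pos2 p2)
  · exact S _ _ ok_E1_1p (h.pos2 p2)
  · have := h.h2.2; push_cast at this; linarith
  · exact S _ _ ok_E1_2p h
  · exact S _ _ ok_E1_3m (h.pos2 p2)
  · exact S _ _ ok_E1_3p (h.pos2 p2)
  · exact S _ _ ok_E1_4m (h.pos2 p2)
  · exact S _ _ ok_E1_4p (h.pos2 p2)
  · exact S _ _ ok_E1_5m (h.pos2 p2)
  · exact S _ _ ok_E1_5p (h.pos2 p2)

theorem no_P01 {z : Pt} (hz : Hyp prm_P01 z) (hb : Bd z) : False := by
  obtain ⟨T, W0, W1, W2, W3, W4, W5, hT, hs, h⟩ := cube_boxes 64 1024 1344 (by norm_num) (by norm_num) (by norm_num) hb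
  have S := fun t b h1 h2 => tree_sound (P := prm_P01) (by decide) (by decide) hz hT hs t b h1 h2
  rcases h with h | h | h | h | h | h | h | h | h | h | h | h
  · exact S _ _ ok_P01_0m h
  · exact S _ _ ok_P01_0p h
  · exact S _ _ ok_P01_1m h
  · exact S _ _ ok_P01_1p h
  · exact S _ _ ok_P01_2m h
  · exact S _ _ ok_P01_2p h
  · exact S _ _ ok_P01_3m h
  · exact S _ _ ok_P01_3p h
  · exact S _ _ ok_P01_4m h
  · exact S _ _ ok_P01_4p h
  · exact S _ _ ok_P01_5m h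
  · exact S _ _ ok_P01_5p h

theorem no_P03 {z : Pt} (hz : Hyp prm_P03 z) (hb : Bd z) : False := by
  obtain ⟨T, W0, W1, W2, W3, W4, W5, hT, hs, h⟩ := cube_boxes 524288 256 336 (by norm_num) (by norm_num) (by norm_num) hb
  have S := fun t b h1 h2 => tree_sound (P := prm_P03) (by decide) (by decide) hz hT hs t b h1 h2
  rcases h with h | h | h | h | h | h | h | h | h | h | h | h
  · exact S _ _ ok_P03_0m h
  · exact S _ _ ok_P03_0p h
  · exact S _ _ ok_P03_1m h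
  · exact S _ _ ok_P03_1p h
  · exact S _ _ ok_P03_2m h
  · exact S _ _ ok_P03_2p h
  · exact S _ _ ok_P03_3m h
  · exact S _ _ ok_P03_3p h
  · exact S _ _ ok_P03_4m h
  · exact S _ _ ok_P03_4p h
  · exact S _ _ ok_P03_5m h
  · exact S _ _ ok_P03_5p h

theorem no_P13 {z : Pt} (hz : Hyp prm_P13 z) (hb : Bd z) : False := by
  obtain ⟨T, W0, W1, W2, W3, W4, W5, hT, hs, h⟩ := cube_boxes 32 256 336 (by norm_num) (by norm_num) (by norm_num) hb
  have S := fun t b h1 h2 => tree_sound (P := prm_P13) (by decide) (by decide) hz hT hs t b h1 h2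
  rcases h with h | h | h | h | h | h | h | h | h | h | h | h
  · exact S _ _ ok_P13_0m h
  · exact S _ _ ok_P13_0p h
  · exact S _ _ ok_P13_1m h
  · exact S _ _ ok_P13_1p h
  · exact S _ _ ok_P13_2m h
  · exact S _ _ ok_P13_2p h
  · exact S _ _ ok_P13_3m h
  · exact S _ _ ok_P13_3p h
  · exact S _ _ ok_P13_4m h
  · exact S _ _ ok_P13_4p h
  · exact S _ _ ok_P13_5m h
  · exact S _ _ ok_P13_5p h

theorem no_Da {z : Pt} (hz : Hyp prm_Da z) (hb : Bd z) : False := by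
  obtain ⟨T, W0, W1, W2, W3, W4, W5, hT, hs, h⟩ := cube_boxes 64 1024 1344 (by norm_num) (by norm_num) (by norm_num) hb
  have S := fun t b h1 h2 => tree_sound (P := prm_Da) (by decide) (by decide) hz hT hs t b h1 h2
  rcases h with h | h | h | h | h | h | h | h | h | h | h | h
  · exact S _ _ ok_Da_0m h
  · exact S _ _ ok_Da_0p h
  · exact S _ _ ok_Da_1m h
  · exact S _ _ ok_Da_1p h
  · exact S _ _ ok_Da_2m h
  · exact S _ _ ok_Da_2p h
  · exact S _ _ ok_Da_3m h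
  · exact S _ _ ok_Da_3p h
  · exact S _ _ ok_Da_4m h
  · exact S _ _ ok_Da_4p h
  · exact S _ _ ok_Da_5m h
  · exact S _ _ ok_Da_5p h

theorem no_Db {z : Pt} (hz : Hyp prm_Db z) (hb : Bd z) : False := by
  obtain ⟨T, W0, W1, W2, W3, W4, W5, hT, hs, h⟩ := cube_boxes 32 256 336 (by norm_num) (by norm_num) (by norm_num) hb
  have S := fun t b h1 h2 => tree_sound (P := prm_Db) (by decide) (by decide) hz hT hs t b h1 h2
  rcases h with h | h | h | h | h | h | h | h | h | h | h | h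
  · exact S _ _ ok_Db_0m h
  · exact S _ _ ok_Db_0p h
  · exact S _ _ ok_Db_1m h
  · exact S _ _ ok_Db_1p h
  · exact S _ _ ok_Db_2m h
  · exact S _ _ ok_Db_2p h
  · exact S _ _ ok_Db_3m h
  · exact S _ _ ok_Db_3p h
  · exact S _ _ ok_Db_4m h
  · exact S _ _ ok_Db_4p h
  · exact S _ _ ok_Db_5m h
  · exact S _ _ ok_Db_5p h

theorem no_Dc {z : Pt} (hz : Hyp prm_Dc z) (hb : Bd z) : False := by
  obtain ⟨T, W0, W1, W2, W3, W4, W5, hT, hs, h⟩ := cube_boxes 32 256 336 (by norm_num) (by norm_num) (by norm_num) hb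
  have S := fun t b h1 h2 => tree_sound (P := prm_Dc) (by decide) (by decide) hz hT hs t b h1 h2
  rcases h with h | h | h | h | h | h | h | h | h | h | h | h
  · exact S _ _ ok_Dc_0m h
  · exact S _ _ ok_Dc_0p h
  · exact S _ _ ok_Dc_1m h
  · exact S _ _ ok_Dc_1p h
  · exact S _ _ ok_Dc_2m h
  · exact S _ _ ok_Dc_2p h
  · exact S _ _ ok_Dc_3m h
  · exact S _ _ ok_Dc_3p h
  · exact S _ _ ok_Dc_4m h
  · exact S _ _ ok_Dc_4p h
  · exact S _ _ ok_Dc_5m h
  · exact S _ _ ok_Dc_5p h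

end Pool.Agent.H30.P6
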