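import Pool.Agent.H30.P6.Cfg
import Pool.Agent.H30.P6.No

/-!
# Results in rational coordinates
-/

set_option autoImplicit false

noncomputable section

namespace Pool.Agent.H30.P6

variable {a b X1 Y1 X2 Y2 X3 Y3 V1 V2 V3 p q r s h k E : ℝ}

theorem Cfg.bd (c : Cfg a b X1 Y1 X2 Y2 X3 Y3 V1 V2 V3 p q r s h k E)
    (hne : ¬ (X1 = 0 ∧ Y1 = 0 ∧ X2 = 0 ∧ Y2 = 0 ∧ X3 = 0 ∧ Y3 = 0)) :
    Bd (Cfg.pt a b X1 Y1 X2 Y2 X3 Y3 V1 V2 V3 p q r s h k E) := by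
  have ux : a ^ 2 ≤ 64 / 75 := by nlinarith [c.u1, sq_nonneg b]
  have uy : b ^ 2 ≤ 64 / 25 := by nlinarith [c.u1, sq_nonneg a]
  have u1 : a ≤ 924 / 1000 := by nlinarith
  have u2 : -(924 / 1000) ≤ a := by nlinarith
  have u3 : b ≤ 8 / 5 := by nlinarith
  have u4 : -(8 / 5) ≤ b := by nlinarith
  obtain ⟨a0, a1, a2, a3, a4, a5, a6, a7, a8, a9, a10, a11, a12⟩ := c.v1
  obtain ⟨b0, b1, b2, b3, b4, b5, b6, b7, b8, b9, b10, b11, b12⟩ := c.v2
  obtain ⟨c0, c1, c2, c3, c4, c5, c6, c7, c8, c9, c10, c11, c12⟩ := c.v3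
  have B1 := c.b1
  have B2 := c.b2
  have B3 := c.b3
  refine ⟨hne, abs_le.2 ⟨?_, ?_⟩, abs_le.2 ⟨?_, ?_⟩, abs_le.2 ⟨?_, ?_⟩, abs_le.2 ⟨?_, ?_⟩, abs_le.2 ⟨?_, ?_⟩,
    abs_le.2 ⟨?_, ?_⟩⟩ <;> simp only [Cfg.pt] <;> linarith

theorem Cfg.hyp (c : Cfg a b X1 Y1 X2 Y2 X3 Y3 V1 V2 V3 p q r s h k E) {P : Prm}
    (hrows : ∀ R ∈ P.rows, R ∈ base ∨ R.ev (Cfg.pt a b X1 Y1 X2 Y2 X3 Y3 V1 V2 V3 p q r s h k E) ≤ 0)
    (hfar : ∀ f ∈ P.far, f.1 < 5 ∧
      (f.2 : ℝ) ≤ 10000 * (4 + gq (Cfg.pt a b X1 Y1 X2 Y2 X3 Y3 V1 V2 V3 p q r s h k E) f.1)) :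
    Hyp P (Cfg.pt a b X1 Y1 X2 Y2 X3 Y3 V1 V2 V3 p q r s h k E) where
  rows := fun R hR => (hrows R hR).elim (fun h => base_le c R h) id
  V1 := by simp only [Cfg.pt]; linarith [c.v1.f0]
  V2 := by simp only [Cfg.pt]; linarith [c.v2.f0]
  V3 := by simp only [Cfg.pt]; linarith [c.v3.f0]
  p := by simp only [Cfg.pt]; linarith [c.p0]
  q := by simp only [Cfg.pt]; linarith [c.q0]
  r := by simp only [Cfg.pt]; linarith [c.r0]
  s := by simp only [Cfg.pt]; linarith [c.s0]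
  h := by simp only [Cfg.pt]; linarith [c.h1.1]
  k := by simp only [Cfg.pt]; linarith [c.k1.1]
  F := by simp only [Cfg.pt, fan]; ring
  pk := fun j hj => by
    have := c.g1; have := c.g2; have := c.g3; have := c.g12; have := c.g23
    interval_cases j <;> simp only [gq, Cfg.pt] <;> nlinarith
  far := hfar

/-- faces of the potential: general step -/
theorem Cfg.face (c : Cfg a b X1 Y1 X2 Y2 X3 Y3 V1 V2 V3 p q r s h k E) {P : Prm} {gx gy : Int}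
    (hP : P.rows = base ++ [⟨0, 0, 0, 0, 0, 0, 0, -gx, -gy, 0, 0, 0, 0, 0, 0, 0, 0, 0, 1, 0, 0⟩]) (hPf : P.far = [])
    (hV : (gx : ℝ) * (X1 + a) + gy * (Y1 + b) ≤ 50 * V1)
    (no : Hyp P (Cfg.pt a b X1 Y1 X2 Y2 X3 Y3 V1 V2 V3 p q r s h k E) →
      Bd (Cfg.pt a b X1 Y1 X2 Y2 X3 Y3 V1 V2 V3 p q r s h k E) → False) :
    (gx : ℝ) * a + gy * b ≤ 50 * E := by
  by_contra hcon
  push Not at hcon
  by_cases hne : X1 = 0 ∧ Y1 = 0 ∧ X2 = 0 ∧ Y2 = 0 ∧ X3 = 0 ∧ Y3 = 0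
  · obtain ⟨e1, e2, e3, e4, e5, e6⟩ := hne
    have := c.o1
    have := c.r0
    have := c.s0
    have := c.k1.1
    rw [e1, e2] at hV
    simp only [fan, e1, e2, e3, e4, e5, e6] at *
    linarith
  · refine no (c.hyp ?_ ?_) (c.bd hne)
    · intro R hR
      rw [hP, List.mem_append, List.mem_singleton] at hR
      rcases hR with hR | hR
      · exact Or.inl hR
      · right
        rw [hR]
        simp only [Row.ev, Cfg.pt]
        push_cast
        linarith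
    · rw [hPf]; simp

theorem Cfg.dp (c : Cfg a b X1 Y1 X2 Y2 X3 Y3 V1 V2 V3 p q r s h k E) : VLe a b E := by
  have c' := c.mirror
  have F0 : -24 * b ≤ 50 * E := by
    rcases le_total 0 X2 with h2 | h2
    · have := c.face (P := prm_F0) (gx := 0) (gy := -24) rfl rfl (by push_cast; linarith [c.v1.f1])
        (fun hz hb => no_F0 hz hb h2)
      push_cast at this; linarith
    · have := c'.face (P := prm_F0) (gx := 0) (gy := -24) rfl rfl (by push_cast; linarith [c'.v1.f1])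
        (fun hz hb => no_F0 hz hb (by simp only [Cfg.pt]; linarith))
      push_cast at this; linarith
  have F11 : 112 * b ≤ 50 * E := by
    rcases le_total 0 X2 with h2 | h2
    · have := c.face (P := prm_F11) (gx := 0) (gy := 112) rfl rfl (by push_cast; linarith [c.v1.f12])
        (fun hz hb => no_F11 hz hb h2)
      push_cast at this; linarith
    · have := c'.face (P := prm_F11) (gx := 0) (gy := 112) rfl rfl (by push_cast; linarith [c'.v1.f12])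
        (fun hz hb => no_F11 hz hb (by simp only [Cfg.pt]; linarith))
      push_cast at this; linarith
  have F1 := c.face (P := prm_F1) (gx := 16) (gy := -16) rfl rfl (by push_cast; linarith [c.v1.f2])
    (fun hz hb => no_F1 hz hb)
  have F2 := c'.face (P := prm_F1) (gx := 16) (gy := -16) rfl rfl (by push_cast; linarith [c'.v1.f2])
    (fun hz hb => no_F1 hz hb)
  have F3 := c.face (P := prm_F3) (gx := 25) (gy := -11) rfl rfl (by push_cast; linarith [c.v1.f4])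
    (fun hz hb => no_F3 hz hb)
  have F4 := c'.face (P := prm_F3) (gx := 25) (gy := -11) rfl rfl (by push_cast; linarith [c'.v1.f4])
    (fun hz hb => no_F3 hz hb)
  have F5 := c.face (P := prm_F5) (gx := 43) (gy := 0) rfl rfl (by push_cast; linarith [c.v1.f6])
    (fun hz hb => no_F5 hz hb)
  have F6 := c'.face (P := prm_F5) (gx := 43) (gy := 0) rfl rfl (by push_cast; linarith [c'.v1.f6])
    (fun hz hb => no_F5 hz hb)
  have F7 := c.face (P := prm_F7) (gx := 75) (gy := 25) rfl rfl (by push_cast; linarith [c.v1.f8])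
    (fun hz hb => no_F7 hz hb)
  have F8 := c'.face (P := prm_F7) (gx := 75) (gy := 25) rfl rfl (by push_cast; linarith [c'.v1.f8])
    (fun hz hb => no_F7 hz hb)
  have F9 := c.face (P := prm_F9) (gx := 56) (gy := 56) rfl rfl (by push_cast; linarith [c.v1.f10])
    (fun hz hb => no_F9 hz hb)
  have F10 := c'.face (P := prm_F9) (gx := 56) (gy := 56) rfl rfl (by push_cast; linarith [c'.v1.f10])
    (fun hz hb => no_F9 hz hb)
  push_cast at F1 F2 F3 F4 F5 F6 F7 F8 F9 F10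
  exact ⟨by linarith, F0, by linarith, by linarith, by linarith, by linarith, by linarith, by linarith, by linarith,
    by linarith, by linarith, by linarith, F11⟩

/-- far edges: general step -/
theorem Cfg.nofar (c : Cfg a b X1 Y1 X2 Y2 X3 Y3 V1 V2 V3 p q r s h k E) {P : Prm} (hP : P.rows = base ++ [])
    (hfar : ∀ f ∈ P.far, f.1 < 5 ∧ 40000 < f.2 ∧
      (f.2 : ℝ) ≤ 10000 * (4 + gq (Cfg.pt a b X1 Y1 X2 Y2 X3 Y3 V1 V2 V3 p q r s h k E) f.1)) (hn : P.far ≠ [])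
    (no : Hyp P (Cfg.pt a b X1 Y1 X2 Y2 X3 Y3 V1 V2 V3 p q r s h k E) →
      Bd (Cfg.pt a b X1 Y1 X2 Y2 X3 Y3 V1 V2 V3 p q r s h k E) → False) : False := by
  by_cases hne : X1 = 0 ∧ Y1 = 0 ∧ X2 = 0 ∧ Y2 = 0 ∧ X3 = 0 ∧ Y3 = 0
  · obtain ⟨e1, e2, e3, e4, e5, e6⟩ := hne
    obtain ⟨f, hf⟩ := List.exists_mem_of_ne_nil _ hn
    obtain ⟨h1, h2, h3⟩ := hfar f hf
    have h4 : (40000 : ℝ) < f.2 := by exact_mod_cast h2
    have h5 : gq (Cfg.pt a b X1 Y1 X2 Y2 X3 Y3 V1 V2 V3 p q r s h k E) f.1 = 0 := by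
      rw [e1, e2, e3, e4, e5, e6]
      generalize f.1 = j at *
      interval_cases j <;> simp [gq, Cfg.pt]
    rw [h5] at h3
    linarith
  · refine no (c.hyp ?_ ?_) (c.bd hne)
    · intro R hR
      rw [hP, List.append_nil] at hR
      exact Or.inl hR
    · exact fun f hf => ⟨(hfar f hf).1, (hfar f hf).2.2⟩

theorem Cfg.far0 (c : Cfg a b X1 Y1 X2 Y2 X3 Y3 V1 V2 V3 p q r s h k E) :
    3 * (1 + X1) ^ 2 + (1 + Y1) ^ 2 < 86436 / 10000 := by
  by_contra hcon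
  push Not at hcon
  refine c.nofar (P := prm_E0) rfl ?_ (by simp [prm_E0]) (fun hz hb => no_E0 hz hb)
  intro f hf
  simp only [prm_E0, List.mem_singleton] at hf
  subst hf
  refine ⟨by norm_num, by norm_num, ?_⟩
  simp only [gq, Cfg.pt]; push_cast; nlinarith

theorem Cfg.far1 (c : Cfg a b X1 Y1 X2 Y2 X3 Y3 V1 V2 V3 p q r s h k E) :
    3 * X2 ^ 2 + (2 + Y2) ^ 2 < 86436 / 10000 := by
  by_contra hcon
  push Not at hcon
  have key : ∀ {a b X1 Y1 X2 Y2 X3 Y3 V1 V2 V3 p q r s h k E : ℝ},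
      Cfg a b X1 Y1 X2 Y2 X3 Y3 V1 V2 V3 p q r s h k E → 0 ≤ X2 →
      86436 / 10000 ≤ 3 * X2 ^ 2 + (2 + Y2) ^ 2 → False := by
    intro a b X1 Y1 X2 Y2 X3 Y3 V1 V2 V3 p q r s h k E c h2 hcon
    refine c.nofar (P := prm_E1) rfl ?_ (by simp [prm_E1]) (fun hz hb => no_E1 hz hb h2)
    intro f hf
    simp only [prm_E1, List.mem_singleton] at hf
    subst hf
    refine ⟨by norm_num, by norm_num, ?_⟩
    simp only [gq, Cfg.pt]; push_cast; nlinarith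
  rcases le_total 0 X2 with h2 | h2
  · exact key c h2 hcon
  · exact key c.mirror (by linarith) (by linarith)

theorem Cfg.p01 (c : Cfg a b X1 Y1 X2 Y2 X3 Y3 V1 V2 V3 p q r s h k E) :
    ¬ (8 ≤ 3 * (1 + X1) ^ 2 + (1 + Y1) ^ 2 ∧ 8 ≤ 3 * X2 ^ 2 + (2 + Y2) ^ 2) := by
  rintro ⟨g1, g2⟩
  refine c.nofar (P := prm_P01) rfl ?_ (by simp [prm_P01]) (fun hz hb => no_P01 hz hb)
  intro f hf
  simp only [prm_P01, List.mem_cons, List.not_mem_nil, or_false] at hf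
  rcases hf with rfl | rfl <;> refine ⟨by norm_num, by norm_num, ?_⟩ <;> simp only [gq, Cfg.pt] <;> push_cast <;>
    nlinarith

theorem Cfg.p03 (c : Cfg a b X1 Y1 X2 Y2 X3 Y3 V1 V2 V3 p q r s h k E) :
    ¬ (8 ≤ 3 * (1 + X1) ^ 2 + (1 + Y1) ^ 2 ∧ 8 ≤ 3 * (-1 + X2 - X1) ^ 2 + (1 + Y2 - Y1) ^ 2) := by
  rintro ⟨g1, g2⟩
  refine c.nofar (P := prm_P03) rfl ?_ (by simp [prm_P03]) (fun hz hb => no_P03 hz hb)
  intro f hf
  simp only [prm_P03, List.mem_cons, List.not_mem_nil, or_false] at hf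
  rcases hf with rfl | rfl <;> refine ⟨by norm_num, by norm_num, ?_⟩ <;> simp only [gq, Cfg.pt] <;> push_cast <;>
    nlinarith

theorem Cfg.p13 (c : Cfg a b X1 Y1 X2 Y2 X3 Y3 V1 V2 V3 p q r s h k E) :
    ¬ (8 ≤ 3 * X2 ^ 2 + (2 + Y2) ^ 2 ∧ 8 ≤ 3 * (-1 + X2 - X1) ^ 2 + (1 + Y2 - Y1) ^ 2) := by
  rintro ⟨g1, g2⟩
  refine c.nofar (P := prm_P13) rfl ?_ (by simp [prm_P13]) (fun hz hb => no_P13 hz hb)
  intro f hf
  simp only [prm_P13, List.mem_cons, List.not_mem_nil, or_false] at hf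
  rcases hf with rfl | rfl <;> refine ⟨by norm_num, by norm_num, ?_⟩ <;> simp only [gq, Cfg.pt] <;> push_cast <;>
    nlinarith

/-- directions: general step; the row `-(x X_m + y Y_m) - c0 ≤ 0` -/
theorem Cfg.nodir (c : Cfg a b X1 Y1 X2 Y2 X3 Y3 V1 V2 V3 p q r s h k E) {P : Prm} {R0 : Row}
    (hP : P.rows = base ++ [R0]) (hPf : P.far = [])
    (h0 : R0.ev (Cfg.pt a b X1 Y1 X2 Y2 X3 Y3 V1 V2 V3 p q r s h k E) ≤ 0)
    (hne : ¬ (X1 = 0 ∧ Y1 = 0 ∧ X2 = 0 ∧ Y2 = 0 ∧ X3 = 0 ∧ Y3 = 0))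
    (no : Hyp P (Cfg.pt a b X1 Y1 X2 Y2 X3 Y3 V1 V2 V3 p q r s h k E) →
      Bd (Cfg.pt a b X1 Y1 X2 Y2 X3 Y3 V1 V2 V3 p q r s h k E) → False) : False := by
  refine no (c.hyp ?_ ?_) (c.bd hne)
  · intro R hR
    rw [hP, List.mem_append, List.mem_singleton] at hR
    rcases hR with hR | hR
    · exact Or.inl hR
    · right; rw [hR]; exact h0
  · rw [hPf]; simp

theorem Cfg.da (c : Cfg a b X1 Y1 X2 Y2 X3 Y3 V1 V2 V3 p q r s h k E) : 1 + Y1 < 3 * (1 + X1) := by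
  by_contra hcon
  push Not at hcon
  refine c.nodir (P := prm_Da) rfl rfl ?_ ?_ (fun hz hb => no_Da hz hb)
  · simp only [Row.ev, Cfg.pt]; push_cast; linarith
  · rintro ⟨e1, e2, -⟩; rw [e1, e2] at hcon; linarith

theorem Cfg.db (c : Cfg a b X1 Y1 X2 Y2 X3 Y3 V1 V2 V3 p q r s h k E) : 0 < 1 + Y1 := by
  by_contra hcon
  push Not at hcon
  refine c.nodir (P := prm_Db) rfl rfl ?_ ?_ (fun hz hb => no_Db hz hb)
  · simp only [Row.ev, Cfg.pt]; push_cast; linarith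
  · rintro ⟨e1, e2, -⟩; rw [e2] at hcon; linarith

theorem Cfg.dc (c : Cfg a b X1 Y1 X2 Y2 X3 Y3 V1 V2 V3 p q r s h k E) : 3 * X2 < 2 + Y2 := by
  by_contra hcon
  push Not at hcon
  refine c.nodir (P := prm_Dc) rfl rfl ?_ ?_ (fun hz hb => no_Dc hz hb)
  · simp only [Row.ev, Cfg.pt]; push_cast; linarith
  · rintro ⟨-, -, e3, e4, -⟩; rw [e3, e4] at hcon; linarith

end Pool.Agent.H30.P6
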