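import Pool.Agent.H30.P6.Chk

/-!
# Soundness of the checker
-/

set_option autoImplicit false

namespace Pool.Agent.H30.P6

/-- values of the unknowns -/
structure Pt where
  F : ℝ
  X1 : ℝ
  Y1 : ℝ
  X2 : ℝ
  Y2 : ℝ
  X3 : ℝ
  Y3 : ℝ
  a : ℝ
  b : ℝ
  V1 : ℝ
  V2 : ℝ
  V3 : ℝ
  p : ℝ
  q : ℝ
  r : ℝ
  s : ℝ
  h : ℝ
  k : ℝ
  E : ℝ

/-- value of a row -/
def Row.ev (r : Row) (z : Pt) : ℝ :=
  r.f * z.F + r.x1 * z.X1 + r.y1 * z.Y1 + r.x2 * z.X2 + r.y2 * z.Y2 + r.x3 * z.X3 + r.y3 * z.Y3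
    + r.a * z.a + r.b * z.b + r.v1 * z.V1 + r.v2 * z.V2 + r.v3 * z.V3 + r.p * z.p + r.q * z.q
    + r.r * z.r + r.s * z.s + r.h * z.h + r.k * z.k + r.e * z.E + r.c + r.d

theorem Row.zero_ev (z : Pt) : Row.zero.ev z = 0 := by simp [Row.zero, Row.ev]

theorem Row.fma_ev (n : Int) (r acc : Row) (z : Pt) :
    (Row.fma n r acc).ev z = acc.ev z + n * r.ev z := by
  simp only [Row.fma, Row.ev]; push_cast; ring

theorem comb_ev {rows : List Row} {z : Pt} (h : ∀ r ∈ rows, r.ev z ≤ 0) :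
    ∀ l : List (Nat × Nat), (comb rows l).ev z ≤ 0 := by
  intro l
  induction l with
  | nil => exact (Row.zero_ev z).le
  | cons x l ih =>
    obtain ⟨i, n⟩ := x
    rw [comb, Row.fma_ev]
    have h1 : (rows.getD i Row.zero).ev z ≤ 0 := by
      rw [List.getD_eq_getElem?_getD]
      cases hi : rows[i]? with
      | none => simpa using (Row.zero_ev z).le
      | some r => simpa using h r (List.mem_of_getElem? hi)
    have h2 : (0 : ℝ) ≤ ((Int.ofNat n : Int) : ℝ) := by simp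
    nlinarith [mul_nonneg h2 (neg_nonneg.2 h1)]

/-- `2 lin + quad` of the five edges -/
def gq (z : Pt) : Nat → ℝ
  | 0 => 2 * (3 * z.X1 + z.Y1) + (3 * z.X1 ^ 2 + z.Y1 ^ 2)
  | 1 => 2 * (2 * z.Y2) + (3 * z.X2 ^ 2 + z.Y2 ^ 2)
  | 2 => 2 * (-3 * z.X3 + z.Y3) + (3 * z.X3 ^ 2 + z.Y3 ^ 2)
  | 3 => 2 * (-3 * (z.X2 - z.X1) + (z.Y2 - z.Y1)) + (3 * (z.X2 - z.X1) ^ 2 + (z.Y2 - z.Y1) ^ 2)
  | _ => 2 * (-3 * (z.X3 - z.X2) - (z.Y3 - z.Y2)) + (3 * (z.X3 - z.X2) ^ 2 + (z.Y3 - z.Y2) ^ 2)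

/-- the hypotheses of the contradiction -/
structure Hyp (P : Prm) (z : Pt) : Prop where
  rows : ∀ r ∈ P.rows, r.ev z ≤ 0
  V1 : 0 ≤ z.V1
  V2 : 0 ≤ z.V2
  V3 : 0 ≤ z.V3
  p : 0 ≤ z.p
  q : 0 ≤ z.q
  r : 0 ≤ z.r
  s : 0 ≤ z.s
  h : 0 ≤ z.h
  k : 0 ≤ z.k
  F : z.F = 25 * (z.X1 - z.X3 + z.Y2) + 25 / 2 * (z.X1 * z.Y2 - z.Y1 * z.X2 + z.X2 * z.Y3 - z.Y2 * z.X3)
  pk : ∀ j, j < 5 → 0 ≤ gq z j
  far : ∀ f ∈ P.far, f.1 < 5 ∧ (f.2 : ℝ) ≤ 10000 * (4 + gq z f.1)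

theorem farS_nonneg (j : Nat) : ∀ (F : List (Nat × Nat)) (t : List Nat), 0 ≤ farS j F t := by
  intro F
  induction F with
  | nil => intro t; cases t <;> simp [farS]
  | cons x F ih =>
    intro t
    obtain ⟨e, Q⟩ := x
    cases t with
    | nil => simp [farS]
    | cons n t =>
      have := ih t
      simp only [farS]
      split_ifs <;> simp <;> omega

theorem far_sum (g : Nat → ℝ) : ∀ (F : List (Nat × Nat)) (t : List Nat),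
    (∀ f ∈ F, f.1 < 5 ∧ (f.2 : ℝ) ≤ 10000 * (4 + g f.1)) →
    (farC F t : ℝ) ≤ 10000 * ((farS 0 F t : ℝ) * g 0 + (farS 1 F t : ℝ) * g 1 + (farS 2 F t : ℝ) * g 2
      + (farS 3 F t : ℝ) * g 3 + (farS 4 F t : ℝ) * g 4) := by
  intro F
  induction F with
  | nil => intro t _; cases t <;> simp [farS, farC]
  | cons x F ih =>
    intro t h
    obtain ⟨e, Q⟩ := x
    cases t with
    | nil => simp [farS, farC]
    | cons n t =>
      have h1 := ih t (fun f hf => h f (List.mem_cons_of_mem _ hf))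
      obtain ⟨h2, h3⟩ := h (e, Q) List.mem_cons_self
      simp only at h2 h3
      have hn : (0 : ℝ) ≤ (n : ℝ) := Nat.cast_nonneg n
      have h4 := mul_le_mul_of_nonneg_left h3 hn
      simp only [farS, farC]
      interval_cases e <;> push_cast <;> simp <;> linarith

theorem imin_le {a lo hi : Int} {x : ℝ} (h1 : (lo : ℝ) ≤ x) (h2 : x ≤ hi) :
    ((imin a lo hi : Int) : ℝ) ≤ a * x := by
  cases a with
  | ofNat n =>
    simp only [imin]; push_cast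
    exact mul_le_mul_of_nonneg_left h1 (Nat.cast_nonneg n)
  | negSucc n =>
    simp only [imin]
    have : ((Int.negSucc n : Int) : ℝ) ≤ 0 := by
      exact_mod_cast (Int.negSucc_lt_zero n).le
    push_cast at this ⊢
    nlinarith

/-- the aggregated form -/
def AA (K T : ℝ) (b : Box) (R : Row) (s0 s1 s2 s3 s4 W0 W1 W2 W3 W4 W5 : ℝ) : ℝ :=
  25 * R.f * (2 * (W0 - W4 + W3) * K + T * (W0 * W3 - W1 * W2 + W2 * W5 - W3 * W4))
    + 2 * (R.x1 * W0 + R.y1 * W1 + R.x2 * W2 + R.y2 * W3 + R.x3 * W4 + R.y3 * W5) * K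
    - s0 * (2 * (3 * W0 + W1) * K + T * (3 * ((b.l0 + b.h0) * W0 - b.l0 * b.h0) + ((b.l1 + b.h1) * W1 - b.l1 * b.h1)))
    - s1 * (2 * (2 * W3) * K + T * (3 * ((b.l2 + b.h2) * W2 - b.l2 * b.h2) + ((b.l3 + b.h3) * W3 - b.l3 * b.h3)))
    - s2 * (2 * (-3 * W4 + W5) * K + T * (3 * ((b.l4 + b.h4) * W4 - b.l4 * b.h4) + ((b.l5 + b.h5) * W5 - b.l5 * b.h5)))
    - s3 * (2 * (-3 * (W2 - W0) + (W3 - W1)) * K
        + T * (3 * ((b.l2 - b.h0 + (b.h2 - b.l0)) * (W2 - W0) - (b.l2 - b.h0) * (b.h2 - b.l0))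
          + ((b.l3 - b.h1 + (b.h3 - b.l1)) * (W3 - W1) - (b.l3 - b.h1) * (b.h3 - b.l1))))
    - s4 * (2 * (-3 * (W4 - W2) - (W5 - W3)) * K
        + T * (3 * ((b.l4 - b.h2 + (b.h4 - b.l2)) * (W4 - W2) - (b.l4 - b.h2) * (b.h4 - b.l2))
          + ((b.l5 - b.h3 + (b.h5 - b.l3)) * (W5 - W3) - (b.l5 - b.h3) * (b.h5 - b.l3))))

theorem corner_le (K T : Int) (b : Box) (R : Row) (s0 s1 s2 s3 s4 x y : Int) {W0 W1 W4 W5 : ℝ}
    (h0 : (b.l0 : ℝ) ≤ W0 ∧ W0 ≤ b.h0) (h1 : (b.l1 : ℝ) ≤ W1 ∧ W1 ≤ b.h1)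
    (h4 : (b.l4 : ℝ) ≤ W4 ∧ W4 ≤ b.h4) (h5 : (b.l5 : ℝ) ≤ W5 ∧ W5 ≤ b.h5) :
    ((corner K T b R s0 s1 s2 s3 s4 x y : Int) : ℝ) ≤ AA K T b R s0 s1 s2 s3 s4 W0 W1 x y W4 W5 := by
  have e0 := imin_le (a := 25 * R.f * (2 * K + T * y) + 2 * R.x1 * K - s0 * (6 * K + 3 * T * (b.l0 + b.h0))
    + s3 * (-6 * K + 3 * T * (b.l2 - b.h0 + (b.h2 - b.l0)))) h0.1 h0.2
  have e1 := imin_le (a := -(25 * R.f * T * x) + 2 * R.y1 * K - s0 * (2 * K + T * (b.l1 + b.h1))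
    + s3 * (2 * K + T * (b.l3 - b.h1 + (b.h3 - b.l1)))) h1.1 h1.2
  have e4 := imin_le (a := -(25 * R.f * (2 * K + T * y)) + 2 * R.x3 * K - s2 * (-6 * K + 3 * T * (b.l4 + b.h4))
    - s4 * (-6 * K + 3 * T * (b.l4 - b.h2 + (b.h4 - b.l2)))) h4.1 h4.2
  have e5 := imin_le (a := 25 * R.f * T * x + 2 * R.y3 * K - s2 * (2 * K + T * (b.l5 + b.h5))
    - s4 * (-2 * K + T * (b.l5 - b.h3 + (b.h5 - b.l3)))) h5.1 h5.2
  simp only [corner, AA]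
  push_cast at e0 e1 e4 e5 ⊢
  nlinarith [e0, e1, e4, e5]

/-- affine functions of two variables on a rectangle -/
theorem affine2 {p q r x y x0 x1 y0 y1 : ℝ} (hx : x0 ≤ x ∧ x ≤ x1) (hy : y0 ≤ y ∧ y ≤ y1)
    (h00 : 0 < p + q * x0 + r * y0) (h01 : 0 < p + q * x0 + r * y1) (h10 : 0 < p + q * x1 + r * y0)
    (h11 : 0 < p + q * x1 + r * y1) : 0 < p + q * x + r * y := by
  rcases le_total 0 q with hq | hq <;> rcases le_total 0 r with hr | hr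
  · linarith [mul_le_mul_of_nonneg_left hx.1 hq, mul_le_mul_of_nonneg_left hy.1 hr]
  · linarith [mul_le_mul_of_nonneg_left hx.1 hq, mul_le_mul_of_nonpos_left hy.2 hr]
  · linarith [mul_le_mul_of_nonpos_left hx.2 hq, mul_le_mul_of_nonneg_left hy.1 hr]
  · linarith [mul_le_mul_of_nonpos_left hx.2 hq, mul_le_mul_of_nonpos_left hy.2 hr]

/-- real form of `okVal` -/
theorem okVal_pos {κ T tb c C A : Int} {B : ℝ} (h : okVal κ T tb c C A = true) (hT : 0 ≤ T) (htb : 0 < tb)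
    (hB : (A : ℝ) ≤ B) :
    (T = 0 → c = 0 ∧ 0 < B * tb * 10000 + C * κ) ∧
    (0 < T → 0 < B * T * tb * 10000 + 20000 * c * κ * tb + C * κ * T) := by
  have htb' : (0 : ℝ) < tb := by exact_mod_cast htb
  constructor
  · intro h0
    rw [okVal, if_pos h0, Bool.and_eq_true, decide_eq_true_eq, decide_eq_true_eq] at h
    refine ⟨h.1, ?_⟩
    have h2 : (0 : ℝ) < A * tb * 10000 + C * κ := by exact_mod_cast h.2
    have := mul_le_mul_of_nonneg_right hB htb'.le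
    linarith
  · intro h0
    rw [okVal, if_neg (ne_of_gt h0), decide_eq_true_eq] at h
    have h2 : (0 : ℝ) < A * T * tb * 10000 + 20000 * c * κ * tb + C * κ * T := by exact_mod_cast h
    have h3 : (0 : ℝ) ≤ (T : ℝ) * tb := by
      have : (0 : ℝ) < T := by exact_mod_cast h0
      positivity
    have := mul_le_mul_of_nonneg_right hB h3
    nlinarith

/-- membership of `(T, W)` in a box -/
structure InBox (b : Box) (T W0 W1 W2 W3 W4 W5 : ℝ) : Prop where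
  h0 : (b.l0 : ℝ) ≤ W0 ∧ W0 ≤ b.h0
  h1 : (b.l1 : ℝ) ≤ W1 ∧ W1 ≤ b.h1
  h2 : (b.l2 : ℝ) ≤ W2 ∧ W2 ≤ b.h2
  h3 : (b.l3 : ℝ) ≤ W3 ∧ W3 ≤ b.h3
  h4 : (b.l4 : ℝ) ≤ W4 ∧ W4 ≤ b.h4
  h5 : (b.l5 : ℝ) ≤ W5 ∧ W5 ≤ b.h5
  hT : (b.ta : ℝ) ≤ T ∧ T ≤ b.tb

/-- positivity of the aggregated form at an end of the interval -/
theorem okEnd_pos {D D' T : Int} {b : Box} {R : Row} {s0 s1 s2 s3 s4 C : Int}
    (h : okEnd D D' T b R s0 s1 s2 s3 s4 C = true) (hT : 0 ≤ T) (htb : 0 < b.tb)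
    {T' W0 W1 W2 W3 W4 W5 : ℝ} (hb : InBox b T' W0 W1 W2 W3 W4 W5) :
    (T = 0 → R.c = 0 ∧ 0 < AA (D * D' : ℝ) T b R s0 s1 s2 s3 s4 W0 W1 W2 W3 W4 W5 * b.tb * 10000
      + C * (D * D * D' * D')) ∧
    (0 < T → 0 < AA (D * D' : ℝ) T b R s0 s1 s2 s3 s4 W0 W1 W2 W3 W4 W5 * T * b.tb * 10000
      + 20000 * R.c * (D * D * D' * D') * b.tb + C * (D * D * D' * D') * T) := by
  rw [okEnd, Bool.and_eq_true, Bool.and_eq_true, Bool.and_eq_true] at h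
  obtain ⟨⟨⟨h1, h2⟩, h3⟩, h4⟩ := h
  have c1 := okVal_pos h1 hT htb (corner_le (D * D') T b R s0 s1 s2 s3 s4 b.l2 b.l3 hb.h0 hb.h1 hb.h4 hb.h5)
  have c2 := okVal_pos h2 hT htb (corner_le (D * D') T b R s0 s1 s2 s3 s4 b.l2 b.h3 hb.h0 hb.h1 hb.h4 hb.h5)
  have c3 := okVal_pos h3 hT htb (corner_le (D * D') T b R s0 s1 s2 s3 s4 b.h2 b.l3 hb.h0 hb.h1 hb.h4 hb.h5)
  have c4 := okVal_pos h4 hT htb (corner_le (D * D') T b R s0 s1 s2 s3 s4 b.h2 b.h3 hb.h0 hb.h1 hb.h4 hb.h5)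
  push_cast at c1 c2 c3 c4
  have key : ∀ x y : ℝ, AA (D * D' : ℝ) T b R s0 s1 s2 s3 s4 W0 W1 x y W4 W5 =
      AA (D * D' : ℝ) T b R s0 s1 s2 s3 s4 W0 W1 0 0 W4 W5
      + (AA (D * D' : ℝ) T b R s0 s1 s2 s3 s4 W0 W1 1 0 W4 W5 - AA (D * D' : ℝ) T b R s0 s1 s2 s3 s4 W0 W1 0 0 W4 W5) * x
      + (AA (D * D' : ℝ) T b R s0 s1 s2 s3 s4 W0 W1 0 1 W4 W5 - AA (D * D' : ℝ) T b R s0 s1 s2 s3 s4 W0 W1 0 0 W4 W5) * y := by
    intro x y
    simp only [AA]; ring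
  set A0 := AA (D * D' : ℝ) T b R s0 s1 s2 s3 s4 W0 W1 0 0 W4 W5
  set A1 := AA (D * D' : ℝ) T b R s0 s1 s2 s3 s4 W0 W1 1 0 W4 W5
  set A2 := AA (D * D' : ℝ) T b R s0 s1 s2 s3 s4 W0 W1 0 1 W4 W5
  rw [key] at c1 c2 c3 c4
  rw [key W2 W3]
  constructor
  · intro h0
    refine ⟨(c1.1 h0).1, ?_⟩
    have d1 := (c1.1 h0).2
    have d2 := (c2.1 h0).2
    have d3 := (c3.1 h0).2
    have d4 := (c4.1 h0).2
    have := affine2 (p := A0 * b.tb * 10000 + C * (D * D * D' * D')) (q := (A1 - A0) * b.tb * 10000)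
      (r := (A2 - A0) * b.tb * 10000) hb.h2 hb.h3 (by linarith) (by linarith) (by linarith) (by linarith)
    linarith
  · intro h0
    have d1 := c1.2 h0
    have d2 := c2.2 h0
    have d3 := c3.2 h0
    have d4 := c4.2 h0
    have := affine2 (p := A0 * T * b.tb * 10000 + 20000 * R.c * (D * D * D' * D') * b.tb + C * (D * D * D' * D') * T)
      (q := (A1 - A0) * T * b.tb * 10000)
      (r := (A2 - A0) * T * b.tb * 10000) hb.h2 hb.h3 (by linarith) (by linarith) (by linarith) (by linarith)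
    linarith

theorem sec_le {x lo hi : ℝ} (h1 : lo ≤ x) (h2 : x ≤ hi) : x ^ 2 ≤ (lo + hi) * x - lo * hi := by
  nlinarith [mul_nonneg (sub_nonneg.2 h1) (sub_nonneg.2 h2)]

theorem qbound {K T L A B SA SB G : ℝ} (hG : G = T * (2 * L * K) + T ^ 2 * (3 * A ^ 2 + B ^ 2))
    (a1 : A ^ 2 ≤ SA) (a2 : B ^ 2 ≤ SB) : G ≤ T * (2 * L * K + T * (3 * SA + SB)) := by
  have h : 3 * A ^ 2 + B ^ 2 ≤ 3 * SA + SB := by linarith
  have := mul_le_mul_of_nonneg_left h (sq_nonneg T)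
  rw [hG]
  calc T * (2 * L * K) + T ^ 2 * (3 * A ^ 2 + B ^ 2) ≤ T * (2 * L * K) + T ^ 2 * (3 * SA + SB) := by linarith
    _ = _ := by ring

/-- concavity in `T` -/
theorem conc {α β T ta tb c C κ : ℝ} (ht : 0 ≤ ta) (hab : ta < tb) (hT : 0 < T) (hTa : ta ≤ T) (hTb : T ≤ tb)
    (hc : c ≤ 0) (hC : 0 ≤ C) (hκ : 0 < κ)
    (PA0 : ta = 0 → c = 0 ∧ 0 < α * tb * 10000 + C * κ)
    (PA1 : 0 < ta → 0 < (α + β * ta) * ta * tb * 10000 + 20000 * c * κ * tb + C * κ * ta)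
    (PB : 0 < (α + β * tb) * tb * tb * 10000 + 20000 * c * κ * tb + C * κ * tb)
    (main : T * (α + β * T) * 10000 + 20000 * c * κ + C * κ ≤ 0) : False := by
  have htb : 0 < tb := lt_of_le_of_lt ht hab
  have main2 : T * (α + β * T) * 10000 * tb + 20000 * c * κ * tb + C * κ * T ≤ 0 := by
    have := mul_le_mul_of_nonneg_right main htb.le
    have h5 : C * κ * T ≤ C * κ * tb := mul_le_mul_of_nonneg_left hTb (by positivity)
    linarith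
  rcases eq_or_lt_of_le ht with h0 | h0
  · obtain ⟨hc0, B0⟩ := PA0 h0.symm
    rw [hc0] at main2 PB
    have B1 : 0 < ((α + β * tb) * tb * 10000 + C * κ) := by
      have : 0 < tb * ((α + β * tb) * tb * 10000 + C * κ) := by
        calc 0 < _ := PB
          _ = _ := by ring
      exact (mul_pos_iff_of_pos_left htb).1 this
    have BT : 0 < ((α + β * T) * tb * 10000 + C * κ) := by
      have : 0 < tb * ((α + β * T) * tb * 10000 + C * κ) := by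
        have e : tb * ((α + β * T) * tb * 10000 + C * κ)
            = (tb - T) * (α * tb * 10000 + C * κ) + T * ((α + β * tb) * tb * 10000 + C * κ) := by ring
        rw [e]
        have := mul_nonneg (sub_nonneg.2 hTb) B0.le
        have := mul_pos hT B1
        linarith
      exact (mul_pos_iff_of_pos_left htb).1 this
    have h1 := mul_pos hT BT
    have h2 : T * ((α + β * T) * tb * 10000 + C * κ) = T * (α + β * T) * 10000 * tb + 20000 * 0 * κ * tb + C * κ * T := by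
      ring
    linarith
  · have PA' := PA1 h0
    have ident : (T * (α + β * T) * 10000 * tb + 20000 * c * κ * tb + C * κ * T)
          * (ta * tb * (tb - ta))
        = ((α + β * ta) * ta * tb * 10000 + 20000 * c * κ * tb + C * κ * ta) * (T * tb * (tb - T))
        + ((α + β * tb) * tb * tb * 10000 + 20000 * c * κ * tb + C * κ * tb) * (T * ta * (T - ta))
        + 20000 * (-c) * κ * tb * ((tb - ta) * (T - ta) * (tb - T)) := by ring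
    have g1 : 0 ≤ T * tb * (tb - T) := mul_nonneg (by positivity) (by linarith)
    have g2 : 0 ≤ T * ta * (T - ta) := mul_nonneg (by positivity) (by linarith)
    have g3 : 0 ≤ 20000 * (-c) * κ * tb * ((tb - ta) * (T - ta) * (tb - T)) := by
      have : (0 : ℝ) ≤ -c := by linarith
      have h6 : (0 : ℝ) ≤ (tb - ta) * (T - ta) * (tb - T) :=
        mul_nonneg (mul_nonneg (by linarith) (by linarith)) (by linarith)
      positivity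
    have g5 : 0 < ta * tb * (tb - ta) := mul_pos (by positivity) (by linarith)
    have h8 : (T * (α + β * T) * 10000 * tb + 20000 * c * κ * tb + C * κ * T)
          * (ta * tb * (tb - ta)) ≤ 0 := mul_nonpos_of_nonpos_of_nonneg main2 g5.le
    rw [ident] at h8
    rcases eq_or_lt_of_le g1 with h9 | h9
    · have h11 : T = tb := by
        have : T * tb * (tb - T) = 0 := h9.symm
        have h12 : T * tb ≠ 0 := by positivity
        have := (mul_eq_zero.1 this).resolve_left h12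
        linarith
      have h10 : 0 < T * ta * (T - ta) := mul_pos (by positivity) (by linarith)
      have := mul_pos PB h10
      rw [← h9] at h8
      linarith
    · have := mul_pos PA' h9
      have := mul_nonneg PB.le g2
      linarith

/-- scaled values -/
structure Scl (K T : ℝ) (z : Pt) (W0 W1 W2 W3 W4 W5 : ℝ) : Prop where
  e0 : z.X1 * K = T * W0
  e1 : z.Y1 * K = T * W1
  e2 : z.X2 * K = T * W2
  e3 : z.Y2 * K = T * W3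
  e4 : z.X3 * K = T * W4
  e5 : z.Y3 * K = T * W5

theorem q0 {K T : ℝ} {z : Pt} {W0 W1 W2 W3 W4 W5 : ℝ} {b : Box} (hs : Scl K T z W0 W1 W2 W3 W4 W5)
    (hb : InBox b T W0 W1 W2 W3 W4 W5) : K ^ 2 * gq z 0 ≤ T * (2 * (3 * W0 + W1) * K
      + T * (3 * ((b.l0 + b.h0) * W0 - b.l0 * b.h0) + ((b.l1 + b.h1) * W1 - b.l1 * b.h1))) := by
  refine qbound (L := 3 * W0 + W1) (A := W0) (B := W1) ?_ (sec_le hb.h0.1 hb.h0.2) (sec_le hb.h1.1 hb.h1.2)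
  have : K ^ 2 * gq z 0 = 2 * (3 * (z.X1 * K) + z.Y1 * K) * K + (3 * (z.X1 * K) ^ 2 + (z.Y1 * K) ^ 2) := by
    simp only [gq]; ring
  rw [this, hs.e0, hs.e1]; ring

theorem q1 {K T : ℝ} {z : Pt} {W0 W1 W2 W3 W4 W5 : ℝ} {b : Box} (hs : Scl K T z W0 W1 W2 W3 W4 W5)
    (hb : InBox b T W0 W1 W2 W3 W4 W5) : K ^ 2 * gq z 1 ≤ T * (2 * (2 * W3) * K
      + T * (3 * ((b.l2 + b.h2) * W2 - b.l2 * b.h2) + ((b.l3 + b.h3) * W3 - b.l3 * b.h3))) := by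
  refine qbound (L := 2 * W3) (A := W2) (B := W3) ?_ (sec_le hb.h2.1 hb.h2.2) (sec_le hb.h3.1 hb.h3.2)
  have : K ^ 2 * gq z 1 = 2 * (2 * (z.Y2 * K)) * K + (3 * (z.X2 * K) ^ 2 + (z.Y2 * K) ^ 2) := by
    simp only [gq]; ring
  rw [this, hs.e2, hs.e3]; ring

theorem q2 {K T : ℝ} {z : Pt} {W0 W1 W2 W3 W4 W5 : ℝ} {b : Box} (hs : Scl K T z W0 W1 W2 W3 W4 W5)
    (hb : InBox b T W0 W1 W2 W3 W4 W5) : K ^ 2 * gq z 2 ≤ T * (2 * (-3 * W4 + W5) * K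
      + T * (3 * ((b.l4 + b.h4) * W4 - b.l4 * b.h4) + ((b.l5 + b.h5) * W5 - b.l5 * b.h5))) := by
  refine qbound (L := -3 * W4 + W5) (A := W4) (B := W5) ?_ (sec_le hb.h4.1 hb.h4.2) (sec_le hb.h5.1 hb.h5.2)
  have : K ^ 2 * gq z 2 = 2 * (-3 * (z.X3 * K) + z.Y3 * K) * K + (3 * (z.X3 * K) ^ 2 + (z.Y3 * K) ^ 2) := by
    simp only [gq]; ring
  rw [this, hs.e4, hs.e5]; ring

theorem q3 {K T : ℝ} {z : Pt} {W0 W1 W2 W3 W4 W5 : ℝ} {b : Box} (hs : Scl K T z W0 W1 W2 W3 W4 W5)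
    (hb : InBox b T W0 W1 W2 W3 W4 W5) : K ^ 2 * gq z 3 ≤ T * (2 * (-3 * (W2 - W0) + (W3 - W1)) * K
        + T * (3 * ((b.l2 - b.h0 + (b.h2 - b.l0)) * (W2 - W0) - (b.l2 - b.h0) * (b.h2 - b.l0))
          + ((b.l3 - b.h1 + (b.h3 - b.l1)) * (W3 - W1) - (b.l3 - b.h1) * (b.h3 - b.l1)))) := by
  refine qbound (L := -3 * (W2 - W0) + (W3 - W1)) (A := W2 - W0) (B := W3 - W1) ?_
    (sec_le (by linarith [hb.h2.1, hb.h0.2]) (by linarith [hb.h2.2, hb.h0.1]))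
    (sec_le (by linarith [hb.h3.1, hb.h1.2]) (by linarith [hb.h3.2, hb.h1.1]))
  have : K ^ 2 * gq z 3 = 2 * (-3 * (z.X2 * K - z.X1 * K) + (z.Y2 * K - z.Y1 * K)) * K
      + (3 * (z.X2 * K - z.X1 * K) ^ 2 + (z.Y2 * K - z.Y1 * K) ^ 2) := by
    simp only [gq]; ring
  rw [this, hs.e0, hs.e1, hs.e2, hs.e3]; ring

theorem q4 {K T : ℝ} {z : Pt} {W0 W1 W2 W3 W4 W5 : ℝ} {b : Box} (hs : Scl K T z W0 W1 W2 W3 W4 W5)
    (hb : InBox b T W0 W1 W2 W3 W4 W5) : K ^ 2 * gq z 4 ≤ T * (2 * (-3 * (W4 - W2) - (W5 - W3)) * K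
        + T * (3 * ((b.l4 - b.h2 + (b.h4 - b.l2)) * (W4 - W2) - (b.l4 - b.h2) * (b.h4 - b.l2))
          + ((b.l5 - b.h3 + (b.h5 - b.l3)) * (W5 - W3) - (b.l5 - b.h3) * (b.h5 - b.l3)))) := by
  refine qbound (L := -3 * (W4 - W2) - (W5 - W3)) (A := W4 - W2) (B := W5 - W3) ?_
    (sec_le (by linarith [hb.h4.1, hb.h2.2]) (by linarith [hb.h4.2, hb.h2.1]))
    (sec_le (by linarith [hb.h5.1, hb.h3.2]) (by linarith [hb.h5.2, hb.h3.1]))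
  have : K ^ 2 * gq z 4 = 2 * (-3 * (z.X3 * K - z.X2 * K) - (z.Y3 * K - z.Y2 * K)) * K
      + (3 * (z.X3 * K - z.X2 * K) ^ 2 + (z.Y3 * K - z.Y2 * K) ^ 2) := by
    simp only [gq]; ring
  rw [this, hs.e2, hs.e3, hs.e4, hs.e5]; ring

theorem row_eq {K T : ℝ} {z : Pt} {W0 W1 W2 W3 W4 W5 : ℝ} (hs : Scl K T z W0 W1 W2 W3 W4 W5) (R : Row)
    (hF : z.F = 25 * (z.X1 - z.X3 + z.Y2) + 25 / 2 * (z.X1 * z.Y2 - z.Y1 * z.X2 + z.X2 * z.Y3 - z.Y2 * z.X3)) :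
    K ^ 2 * (2 * (R.f * z.F + R.x1 * z.X1 + R.y1 * z.Y1 + R.x2 * z.X2 + R.y2 * z.Y2 + R.x3 * z.X3 + R.y3 * z.Y3))
      = T * (25 * R.f * (2 * (W0 - W4 + W3) * K + T * (W0 * W3 - W1 * W2 + W2 * W5 - W3 * W4))
      + 2 * (R.x1 * W0 + R.y1 * W1 + R.x2 * W2 + R.y2 * W3 + R.x3 * W4 + R.y3 * W5) * K) := by
  have : K ^ 2 * (2 * (R.f * z.F + R.x1 * z.X1 + R.y1 * z.Y1 + R.x2 * z.X2 + R.y2 * z.Y2 + R.x3 * z.X3 + R.y3 * z.Y3))
      = R.f * (50 * K * (z.X1 * K - z.X3 * K + z.Y2 * K)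
          + 25 * ((z.X1 * K) * (z.Y2 * K) - (z.Y1 * K) * (z.X2 * K) + (z.X2 * K) * (z.Y3 * K) - (z.Y2 * K) * (z.X3 * K)))
        + 2 * K * (R.x1 * (z.X1 * K) + R.y1 * (z.Y1 * K) + R.x2 * (z.X2 * K) + R.y2 * (z.Y2 * K)
          + R.x3 * (z.X3 * K) + R.y3 * (z.Y3 * K)) := by
    rw [hF]; ring
  rw [this, hs.e0, hs.e1, hs.e2, hs.e3, hs.e4, hs.e5]; ring

theorem main_ineq {K T : ℝ} {z : Pt} {W0 W1 W2 W3 W4 W5 : ℝ} {b : Box} {R : Row} {s0 s1 s2 s3 s4 C fc : ℝ}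
    (hK : 0 < K) (hs : Scl K T z W0 W1 W2 W3 W4 W5) (hb : InBox b T W0 W1 W2 W3 W4 W5)
    (hF : z.F = 25 * (z.X1 - z.X3 + z.Y2) + 25 / 2 * (z.X1 * z.Y2 - z.Y1 * z.X2 + z.X2 * z.Y3 - z.Y2 * z.X3))
    (n0 : 0 ≤ s0) (n1 : 0 ≤ s1) (n2 : 0 ≤ s2) (n3 : 0 ≤ s3) (n4 : 0 ≤ s4)
    (hpk : fc ≤ 10000 * (s0 * gq z 0 + s1 * gq z 1 + s2 * gq z 2 + s3 * gq z 3 + s4 * gq z 4))
    (hrow : 2 * (R.f * z.F + R.x1 * z.X1 + R.y1 * z.Y1 + R.x2 * z.X2 + R.y2 * z.Y2 + R.x3 * z.X3 + R.y3 * z.Y3)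
      + 2 * R.c + 2 * R.d ≤ 0) (hC : C = 20000 * R.d + fc) :
    T * AA K T b R s0 s1 s2 s3 s4 W0 W1 W2 W3 W4 W5 * 10000 + 20000 * R.c * K ^ 2 + C * K ^ 2 ≤ 0 := by
  have hK2 : 0 < K ^ 2 := by positivity
  have m0 := mul_le_mul_of_nonneg_left (q0 hs hb) n0
  have m1 := mul_le_mul_of_nonneg_left (q1 hs hb) n1
  have m2 := mul_le_mul_of_nonneg_left (q2 hs hb) n2
  have m3 := mul_le_mul_of_nonneg_left (q3 hs hb) n3
  have m4 := mul_le_mul_of_nonneg_left (q4 hs hb) n4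
  have m5 := mul_le_mul_of_nonneg_left hpk hK2.le
  have m6 := mul_le_mul_of_nonneg_left hrow hK2.le
  have hrow2 := row_eq hs R hF
  have : T * AA K T b R s0 s1 s2 s3 s4 W0 W1 W2 W3 W4 W5
      = T * (25 * R.f * (2 * (W0 - W4 + W3) * K + T * (W0 * W3 - W1 * W2 + W2 * W5 - W3 * W4))
      + 2 * (R.x1 * W0 + R.y1 * W1 + R.x2 * W2 + R.y2 * W3 + R.x3 * W4 + R.y3 * W5) * K)
        - s0 * (T * (2 * (3 * W0 + W1) * K
      + T * (3 * ((b.l0 + b.h0) * W0 - b.l0 * b.h0) + ((b.l1 + b.h1) * W1 - b.l1 * b.h1))))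
        - s1 * (T * (2 * (2 * W3) * K
      + T * (3 * ((b.l2 + b.h2) * W2 - b.l2 * b.h2) + ((b.l3 + b.h3) * W3 - b.l3 * b.h3))))
        - s2 * (T * (2 * (-3 * W4 + W5) * K
      + T * (3 * ((b.l4 + b.h4) * W4 - b.l4 * b.h4) + ((b.l5 + b.h5) * W5 - b.l5 * b.h5))))
        - s3 * (T * (2 * (-3 * (W2 - W0) + (W3 - W1)) * K
        + T * (3 * ((b.l2 - b.h0 + (b.h2 - b.l0)) * (W2 - W0) - (b.l2 - b.h0) * (b.h2 - b.l0))
          + ((b.l3 - b.h1 + (b.h3 - b.l1)) * (W3 - W1) - (b.l3 - b.h1) * (b.h3 - b.l1)))))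
        - s4 * (T * (2 * (-3 * (W4 - W2) - (W5 - W3)) * K
        + T * (3 * ((b.l4 - b.h2 + (b.h4 - b.l2)) * (W4 - W2) - (b.l4 - b.h2) * (b.h4 - b.l2))
          + ((b.l5 - b.h3 + (b.h5 - b.l3)) * (W5 - W3) - (b.l5 - b.h3) * (b.h5 - b.l3))))) := by
    simp only [AA]; ring
  rw [this, ← hrow2, hC]
  clear this hrow2 hrow hpk
  generalize K ^ 2 = k2 at *
  generalize gq z 0 = g0 at *
  generalize gq z 1 = g1 at *
  generalize gq z 2 = g2 at *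
  generalize gq z 3 = g3 at *
  generalize gq z 4 = g4 at *
  linarith [m0, m1, m2, m3, m4, m5, m6]

/-- soundness of a leaf -/
theorem leaf_sound {P : Prm} (hD : 0 < P.D) (hD' : 0 < P.D') {b : Box} {zc : Cert} {z : Pt}
    (h : okLeaf P b zc = true) (hz : Hyp P z) {T W0 W1 W2 W3 W4 W5 : ℝ} (hT : 0 < T)
    (hb : InBox b T W0 W1 W2 W3 W4 W5) (hs : Scl (P.D * P.D') T z W0 W1 W2 W3 W4 W5) : False := by
  simp only [okLeaf, Bool.and_eq_true, decide_eq_true_eq] at h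
  obtain ⟨⟨⟨⟨⟨hR, hC⟩, hta⟩, htab⟩, hA⟩, hB⟩ := h
  have hcomb := comb_ev hz.rows zc.l
  set R := comb P.rows zc.l with hRdef
  simp only [okRow, Bool.and_eq_true, decide_eq_true_eq] at hR
  obtain ⟨⟨⟨⟨⟨⟨⟨⟨⟨⟨⟨⟨⟨ra, rb⟩, re⟩, rv1⟩, rv2⟩, rv3⟩, rp⟩, rq⟩, rr⟩, rs⟩, rh⟩, rk⟩, rc⟩, rd⟩ := hR
  have htb : 0 < b.tb := lt_of_le_of_lt hta htab
  have hfar := far_sum (gq z) P.far zc.t hz.far
  set S0 : Int := Int.ofNat zc.s0 + farS 0 P.far zc.t with hS0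
  set S1 : Int := Int.ofNat zc.s1 + farS 1 P.far zc.t with hS1
  set S2 : Int := Int.ofNat zc.s2 + farS 2 P.far zc.t with hS2
  set S3 : Int := Int.ofNat zc.s3 + farS 3 P.far zc.t with hS3
  set S4 : Int := Int.ofNat zc.s4 + farS 4 P.far zc.t with hS4
  set C : Int := 20000 * R.d + farC P.far zc.t with hCdef
  have nn : ∀ (j n : Nat), 0 ≤ Int.ofNat n + farS j P.far zc.t := fun j n => by
    have := farS_nonneg j P.far zc.t
    have h2 : 0 ≤ Int.ofNat n := Int.natCast_nonneg n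
    omega
  have n0 : (0 : ℝ) ≤ S0 := by exact_mod_cast nn 0 zc.s0
  have n1 : (0 : ℝ) ≤ S1 := by exact_mod_cast nn 1 zc.s1
  have n2 : (0 : ℝ) ≤ S2 := by exact_mod_cast nn 2 zc.s2
  have n3 : (0 : ℝ) ≤ S3 := by exact_mod_cast nn 3 zc.s3
  have n4 : (0 : ℝ) ≤ S4 := by exact_mod_cast nn 4 zc.s4
  have hpk : (farC P.far zc.t : ℝ) ≤ 10000 * (S0 * gq z 0 + S1 * gq z 1 + S2 * gq z 2 + S3 * gq z 3 + S4 * gq z 4) := by
    have p0 := mul_nonneg (Nat.cast_nonneg (α := ℝ) zc.s0) (hz.pk 0 (by norm_num))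
    have p1 := mul_nonneg (Nat.cast_nonneg (α := ℝ) zc.s1) (hz.pk 1 (by norm_num))
    have p2 := mul_nonneg (Nat.cast_nonneg (α := ℝ) zc.s2) (hz.pk 2 (by norm_num))
    have p3 := mul_nonneg (Nat.cast_nonneg (α := ℝ) zc.s3) (hz.pk 3 (by norm_num))
    have p4 := mul_nonneg (Nat.cast_nonneg (α := ℝ) zc.s4) (hz.pk 4 (by norm_num))
    rw [hS0, hS1, hS2, hS3, hS4]
    push_cast
    simp only [Int.ofNat_eq_natCast, Int.cast_natCast]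
    linarith
  have hDr : (0 : ℝ) < P.D := by exact_mod_cast hD
  have hDr' : (0 : ℝ) < P.D' := by exact_mod_cast hD'
  have hrow : 2 * (R.f * z.F + R.x1 * z.X1 + R.y1 * z.Y1 + R.x2 * z.X2 + R.y2 * z.Y2 + R.x3 * z.X3 + R.y3 * z.Y3)
      + 2 * R.c + 2 * R.d ≤ 0 := by
    have ra' : (R.a : ℝ) = 0 := by exact_mod_cast ra
    have rb' : (R.b : ℝ) = 0 := by exact_mod_cast rb
    have re' : (R.e : ℝ) = 0 := by exact_mod_cast re
    have t1 := mul_nonneg (show (0 : ℝ) ≤ R.v1 by exact_mod_cast rv1) hz.V1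
    have t2 := mul_nonneg (show (0 : ℝ) ≤ R.v2 by exact_mod_cast rv2) hz.V2
    have t3 := mul_nonneg (show (0 : ℝ) ≤ R.v3 by exact_mod_cast rv3) hz.V3
    have t4 := mul_nonneg (show (0 : ℝ) ≤ R.p by exact_mod_cast rp) hz.p
    have t5 := mul_nonneg (show (0 : ℝ) ≤ R.q by exact_mod_cast rq) hz.q
    have t6 := mul_nonneg (show (0 : ℝ) ≤ R.r by exact_mod_cast rr) hz.r
    have t7 := mul_nonneg (show (0 : ℝ) ≤ R.s by exact_mod_cast rs) hz.s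
    have t8 := mul_nonneg (show (0 : ℝ) ≤ R.h by exact_mod_cast rh) hz.h
    have t9 := mul_nonneg (show (0 : ℝ) ≤ R.k by exact_mod_cast rk) hz.k
    have := hcomb
    rw [Row.ev, ra', rb', re'] at this
    linarith
  have hCr : (C : ℝ) = 20000 * R.d + farC P.far zc.t := by rw [hCdef]; push_cast; ring
  have hCn : (0 : ℝ) ≤ C := by exact_mod_cast hC
  have main := main_ineq (by positivity) hs hb hz.F n0 n1 n2 n3 n4 hpk hrow hCr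
  have PA := okEnd_pos hA hta htb hb
  have PB := (okEnd_pos hB htb.le htb hb).2 htb
  have hlin : ∀ T : ℝ, AA (P.D * P.D') T b R S0 S1 S2 S3 S4 W0 W1 W2 W3 W4 W5
      = AA (P.D * P.D') 0 b R S0 S1 S2 S3 S4 W0 W1 W2 W3 W4 W5
        + (AA (P.D * P.D') 1 b R S0 S1 S2 S3 S4 W0 W1 W2 W3 W4 W5
          - AA (P.D * P.D') 0 b R S0 S1 S2 S3 S4 W0 W1 W2 W3 W4 W5) * T := by
    intro T; simp only [AA]; ring
  have hKK : (P.D : ℝ) * P.D * P.D' * P.D' = (P.D * P.D') ^ 2 := by ring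
  rw [hKK] at PB PA
  rw [hlin] at main PB
  refine conc (by exact_mod_cast hta) (by exact_mod_cast htab) hT hb.hT.1 hb.hT.2 (by exact_mod_cast rc) hCn
    (κ := (P.D * P.D') ^ 2) (by positivity) ?_ ?_ PB main
  · intro h0
    have h1 : b.ta = 0 := by exact_mod_cast h0
    obtain ⟨h2, h3⟩ := PA.1 h1
    refine ⟨by exact_mod_cast h2, ?_⟩
    rw [h1, Int.cast_zero] at h3
    exact h3
  · intro h0
    have h1 : 0 < b.ta := by exact_mod_cast h0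
    have h3 := PA.2 h1
    rw [hlin] at h3
    exact h3

theorem tree_sound {P : Prm} (hD : 0 < P.D) (hD' : 0 < P.D') {z : Pt} (hz : Hyp P z)
    {T W0 W1 W2 W3 W4 W5 : ℝ} (hT : 0 < T) (hs : Scl (P.D * P.D') T z W0 W1 W2 W3 W4 W5) :
    ∀ (t : Tree) (b : Box), t.check P b = true → InBox b T W0 W1 W2 W3 W4 W5 → False := by
  intro t
  induction t with
  | L zc => intro b h hb; exact leaf_sound hD hD' h hz hT hb hs
  | N a l r ihl ihr =>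
    intro b h hb
    rw [Tree.check, Bool.and_eq_true] at h
    obtain ⟨hl, hr⟩ := h
    obtain ⟨h0, h1, h2, h3, h4, h5, h6⟩ := hb
    match a, hl, hr with
    | 0, hl, hr =>
      rcases le_total W0 (((b.l0 + b.h0) / 2 : Int) : ℝ) with hc | hc
      · exact ihl _ hl ⟨⟨h0.1, hc⟩, h1, h2, h3, h4, h5, h6⟩
      · exact ihr _ hr ⟨⟨hc, h0.2⟩, h1, h2, h3, h4, h5, h6⟩
    | 1, hl, hr =>
      rcases le_total W1 (((b.l1 + b.h1) / 2 : Int) : ℝ) with hc | hc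
      · exact ihl _ hl ⟨h0, ⟨h1.1, hc⟩, h2, h3, h4, h5, h6⟩
      · exact ihr _ hr ⟨h0, ⟨hc, h1.2⟩, h2, h3, h4, h5, h6⟩
    | 2, hl, hr =>
      rcases le_total W2 (((b.l2 + b.h2) / 2 : Int) : ℝ) with hc | hc
      · exact ihl _ hl ⟨h0, h1, ⟨h2.1, hc⟩, h3, h4, h5, h6⟩
      · exact ihr _ hr ⟨h0, h1, ⟨hc, h2.2⟩, h3, h4, h5, h6⟩
    | 3, hl, hr =>
      rcases le_total W3 (((b.l3 + b.h3) / 2 : Int) : ℝ) with hc | hc
      · exact ihl _ hl ⟨h0, h1, h2, ⟨h3.1, hc⟩, h4, h5, h6⟩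
      · exact ihr _ hr ⟨h0, h1, h2, ⟨hc, h3.2⟩, h4, h5, h6⟩
    | 4, hl, hr =>
      rcases le_total W4 (((b.l4 + b.h4) / 2 : Int) : ℝ) with hc | hc
      · exact ihl _ hl ⟨h0, h1, h2, h3, ⟨h4.1, hc⟩, h5, h6⟩
      · exact ihr _ hr ⟨h0, h1, h2, h3, ⟨hc, h4.2⟩, h5, h6⟩
    | 5, hl, hr =>
      rcases le_total W5 (((b.l5 + b.h5) / 2 : Int) : ℝ) with hc | hc
      · exact ihl _ hl ⟨h0, h1, h2, h3, h4, ⟨h5.1, hc⟩, h6⟩
      · exact ihr _ hr ⟨h0, h1, h2, h3, h4, ⟨hc, h5.2⟩, h6⟩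
    | (n + 6), hl, hr =>
      rcases le_total T (((b.ta + b.tb) / 2 : Int) : ℝ) with hc | hc
      · exact ihl _ hl ⟨h0, h1, h2, h3, h4, h5, ⟨h6.1, hc⟩⟩
      · exact ihr _ hr ⟨h0, h1, h2, h3, h4, h5, ⟨hc, h6.2⟩⟩

end Pool.Agent.H30.P6
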