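import Pool.Agent.H30.P6.Base

/-! certificate Dc (generated) -/

set_option autoImplicit false
set_option maxRecDepth 100000

namespace Pool.Agent.H30.P6

def prm_Dc : Prm := ⟨32, 256, base ++ [⟨0, 0, 0, -3, 1, 0, 0, 0, 0, 0, 0, 0, 0, 0, 0, 0, 0, 0, 0, 0, 2⟩], []⟩

def tree_Dc_0m : Tree := .N 6 (.N 6 (.L ⟨[(69, 1)], 1, 0, 0, 1, 0, []⟩) (.L ⟨[(11, 1419), (18, 3225), (20, 600), (57, 473), (58, 1275), (69, 56760)], 56760, 0, 0, 17501, 0, []⟩)) (.L ⟨[(9, 489), (11, 1968), (18, 4845), (20, 819), (57, 819), (58, 1888), (65, 819), (69, 49140)], 45864, 0, 0, 0, 0, []⟩)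

theorem ok_Dc_0m : tree_Dc_0m.check prm_Dc ⟨-32, -32, -64, 64, -32, 32, -64, 64, -32, 32, -64, 64, 0, 336⟩ = true := by decide +kernel

def tree_Dc_0p : Tree := .N 6 (.N 6 (.L ⟨[(69, 2)], 0, 1, 0, 0, 0, []⟩) (.N 6 (.L ⟨[(69, 2)], 0, 1, 0, 0, 0, []⟩) (.N 3 (.N 3 (.L ⟨[], 0, 1, 0, 0, 0, []⟩) (.N 2 (.L ⟨[(69, 5)], 0, 3, 0, 0, 0, []⟩) (.N 2 (.L ⟨[(69, 5)], 0, 3, 0, 0, 0, []⟩) (.N 2 (.L ⟨[(69, 5)], 0, 3, 0, 0, 0, []⟩) (.N 5 (.N 4 (.L ⟨[(0, 180213), (1, 61017), (2, 415548), (10, 180213), (15, 61017), (31, 232587), (33, 212760), (41, 241230), (53, 24123), (59, 9933), (60, 218926)], 0, 10897920, 6919044, 0, 0, []⟩) (.L ⟨[(0, 600), (1, 1250), (2, 748), (10, 600), (15, 1250), (35, 748), (41, 1850), (51, 185), (60, 866)], 0, 31080, 118400, 0, 0, []⟩)) (.N 4 (.L ⟨[(0, 600), (1, 1250), (2, 748), (10, 600), (15, 1250), (35, 748), (41, 1850), (51, 185),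 (60, 866)], 0, 22200, 0, 0, 0, []⟩) (.N 4 (.N 4 (.L ⟨[(0, 4200), (1, 8750), (2, 5236), (10, 4200), (15, 8750), (35, 5236), (41, 12950), (51, 1295), (60, 6062), (69, 10730)], 0, 177600, 129130, 0, 0, []⟩) (.N 5 (.N 6 (.L ⟨[(0, 9590), (1, 37510), (2, 12225), (10, 5822), (12, 3768), (15, 37510), (37, 11283), (38, 942), (40, 49735), (41, 47100), (51, 4710), (60, 19775), (69, 1808640)], 0, 1447854, 900552, 0, 0, []⟩) (.L ⟨[(0, 6118), (1, 22142), (2, 4863), (10, 4234), (12, 1884), (15, 22142), (37, 7689), (40, 27005), (41, 28260), (51, 2826), (59, 942), (60, 11041)], 0, 170502, 452160, 0, 0, []⟩)) (.N 6 (.L ⟨[(0, 28), (1, 572), (14, 28), (15, 572), (37, 3), (38, 114), (40, 572), (41, 600), (51, 60), (59, 39), (60, 200), (69, 23040)], 0, 13938, 6771, 0, 0, []⟩) (.L ⟨[(0, 140), (1, 3040), (14, 140), (15, 3040), (37, 15), (38, 615), (40, 3040), (41,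 3180), (50, 318), (59, 210), (60, 1060)], 0, 3600, 0, 0, 0, []⟩)))) (.N 5 (.L ⟨[(0, 140), (1, 3940), (14, 140), (15, 3940), (37, 15), (38, 840), (40, 3940), (41, 4080), (51, 408), (59, 285), (60, 1360)], 0, 7200, 230400, 0, 0, []⟩) (.N 6 (.L ⟨[(1, 2670), (14, 105), (15, 2985), (38, 630), (40, 2670), (41, 2670), (50, 267), (57, 35), (58, 105), (59, 210), (60, 890), (69, 134400)], 0, 72940, 48020, 0, 0, []⟩) (.L ⟨[(1, 906), (14, 42), (15, 927), (38, 189), (40, 906), (41, 906), (50, 14), (57, 14), (58, 7), (59, 63), (60, 302)], 0, 0, 13440, 0, 0, []⟩)))))))))) (.L ⟨[(69, 1)], 0, 0, 0, 0, 0, []⟩)))) (.N 2 (.L ⟨[(69, 2)], 0, 1, 0, 0, 0, []⟩) (.N 5 (.N 4 (.N 3 (.N 3 (.L ⟨[(8, 3), (33, 3), (57, 1), (59, 1)], 0, 60, 0, 0, 0, []⟩) (.N 5 (.L ⟨[(0, 1290), (8, 5934), (10, 387), (31, 645), (33, 6414), (41, 1290), (53, 129), (57, 1677), (59, 2353), (60,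 430)], 0, 26187, 61920, 0, 0, []⟩) (.N 1 (.L ⟨[(0, 2580), (1, 1290), (8, 4902), (10, 387), (15, 1290), (33, 4092), (35, 1161), (41, 3870), (46, 129), (51, 387), (57, 903), (59, 1751), (60, 1290)], 0, 54180, 61920, 0, 0, []⟩) (.L ⟨[(0, 7740), (1, 14190), (10, 14319), (15, 14190), (33, 22230), (35, 2193), (40, 14190), (41, 21930), (51, 2193), (57, 2193), (59, 8141), (60, 7310)], 0, 168861, 263160, 0, 0, []⟩)))) (.L ⟨[(0, 14190), (2, 14190), (10, 14190), (31, 32250), (33, 6000), (46, 1419), (53, 1419), (59, 8020), (60, 9460), (69, 170280)], 0, 0, 0, 0, 0, []⟩)) (.N 4 (.N 6 (.N 1 (.L ⟨[(1, 96750), (8, 215100), (10, 6450), (15, 125775), (35, 129774), (40, 96750), (41, 96750), (47, 9675), (51, 9675), (57, 73850), (58, 9675), (59, 43258), (60, 32250)], 0, 45150, 198144000, 0, 0, []⟩) (.L ⟨[(1, 750), (10, 528), (15, 975), (35, 528), (40, 750), (41,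 750), (48, 75), (51, 75), (57, 176), (58, 75), (59, 176), (60, 250)], 0, 0, 1152000, 0, 0, []⟩)) (.L ⟨[(8, 3), (33, 3), (57, 1), (59, 1)], 0, 0, 60, 0, 0, []⟩)) (.L ⟨[], 0, 0, 1, 0, 0, []⟩))) (.N 4 (.N 1 (.L ⟨[(1, 32250), (8, 67950), (10, 3225), (15, 41925), (35, 42183), (40, 32250), (41, 32250), (47, 3225), (51, 3225), (57, 23725), (58, 3225), (59, 14061), (60, 10750)], 0, 19350, 0, 0, 0, []⟩) (.L ⟨[(1, 750), (10, 528), (15, 975), (35, 528), (40, 750), (41, 750), (48, 75), (51, 75), (57, 176), (58, 75), (59, 176), (60, 250)], 0, 0, 0, 0, 0, []⟩)) (.N 1 (.N 5 (.N 4 (.N 3 (.N 2 (.L ⟨[(0, 11004), (1, 44312), (2, 16198), (10, 11004), (15, 44312), (37, 14181), (38, 2017), (40, 60510), (41, 55316), (48, 6051), (60, 23838)], 0, 1936320, 887480, 0, 0, []⟩) (.L ⟨[(1, 15120), (8, 672), (10, 3360), (15, 17640), (37, 6105), (38, 336), (40, 4956), (41,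 15120), (47, 1512), (50, 1512), (57, 1344), (58, 840), (59, 2147), (60, 5040)], 0, 47208, 322560, 0, 0, []⟩)) (.L ⟨[(0, 5040), (1, 2940), (2, 2250), (6, 5040), (15, 2940), (37, 2250), (46, 519), (60, 3410), (69, 14532)], 0, 0, 124560, 0, 0, []⟩)) (.L ⟨[(1, 1170), (15, 1275), (38, 315), (40, 1170), (41, 1170), (48, 117), (58, 35), (59, 105), (60, 390), (69, 3395)], 0, 0, 33600, 0, 0, []⟩)) (.L ⟨[(1, 60), (15, 60), (38, 15), (40, 60), (41, 60), (47, 6), (59, 5), (60, 20), (69, 25)], 0, 0, 150, 0, 0, []⟩)) (.N 5 (.N 4 (.N 4 (.L ⟨[(1, 2250), (10, 1200), (15, 2475), (35, 1032), (37, 225), (40, 2250), (41, 2250), (48, 225), (57, 400), (58, 75), (59, 419), (60, 750)], 0, 0, 36000, 0, 0, []⟩) (.L ⟨[(1, 126000), (10, 54600), (15, 138600), (35, 32592), (37, 29475), (40, 126000), (41, 126000), (48, 12600), (57, 18200), (58, 4200), (59, 20689), (60,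 42000), (69, 58800)], 0, 0, 2688000, 0, 0, []⟩)) (.N 1 (.N 6 (.L ⟨[(1, 12), (15, 12), (38, 3), (40, 12), (41, 12), (59, 1), (60, 4)], 0, 0, 320, 0, 0, []⟩) (.N 3 (.L ⟨[(1, 3270), (10, 1620), (15, 3945), (36, 135), (38, 810), (40, 3270), (41, 270), (48, 327), (57, 540), (58, 225), (59, 315), (60, 1090), (66, 7404)], 0, 0, 86400, 0, 0, []⟩) (.L ⟨[(1, 720), (2, 330), (10, 315), (15, 720), (36, 225), (38, 105), (40, 1050), (41, 720), (48, 105), (57, 105), (60, 350), (66, 2283)], 0, 0, 25200, 0, 0, []⟩))) (.L ⟨[(0, 14), (1, 530), (2, 14), (14, 119), (15, 530), (38, 14), (40, 544), (41, 544), (57, 35), (60, 186)], 0, 0, 6720, 0, 0, []⟩))) (.N 6 (.N 3 (.L ⟨[(1, 390), (14, 30), (15, 495), (38, 90), (40, 390), (41, 390), (49, 39), (57, 10), (58, 35), (59, 30), (60, 130), (69, 170)], 0, 0, 4800, 0, 0, []⟩) (.L ⟨[(1, 6747), (2, 903), (14, 561), (15,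 6747), (38, 1158), (40, 7650), (41, 6747), (42, 903), (49, 765), (57, 187), (59, 85), (60, 2550), (69, 289)], 0, 0, 65280, 0, 1241, []⟩)) (.L ⟨[(1, 7980), (2, 420), (10, 3555), (12, 225), (15, 7980), (38, 1680), (40, 8400), (41, 840), (42, 420), (49, 840), (57, 1260), (59, 420), (60, 2800), (66, 15759)], 0, 0, 0, 0, 0, []⟩)))))))

theorem ok_Dc_0p : tree_Dc_0p.check prm_Dc ⟨32, 32, -64, 64, -32, 32, -64, 64, -32, 32, -64, 64, 0, 336⟩ = true := by decide +kernel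

def tree_Dc_1m : Tree := .N 6 (.N 6 (.L ⟨[(69, 2)], 0, 1, 0, 0, 0, []⟩) (.N 3 (.N 6 (.L ⟨[(69, 3)], 0, 2, 0, 0, 0, []⟩) (.N 3 (.L ⟨[], 0, 1, 0, 0, 0, []⟩) (.N 6 (.N 4 (.L ⟨[(0, 1251), (1, 4959), (3, 8763), (22, 4959), (33, 1242), (35, 4347), (39, 4959), (41, 6210), (53, 621), (57, 2504), (59, 1863), (60, 2070), (69, 202446)], 44091, 298080, 135378, 0, 0, []⟩) (.L ⟨[(1, 4560), (3, 21465), (22, 7980), (35, 5292), (37, 3600), (39, 4560), (41, 4560), (53, 456), (57, 7155), (58, 1140), (59, 2964), (60, 1520), (69, 875520)], 29412, 696768, 335160, 0, 0, []⟩)) (.L ⟨[(3, 42), (26, 9), (57, 14), (58, 3)], 0, 576, 0, 0, 0, []⟩)))) (.L ⟨[(69, 1)], 0, 0, 0, 0, 0, []⟩))) (.N 2 (.L ⟨[(69, 2)], 0, 1, 0, 0, 0, []⟩) (.N 3 (.N 3 (.N 6 (.L ⟨[], 0, 1, 0, 0, 0, []⟩) (.L ⟨[(3, 60), (22, 15), (57, 20), (58, 5), (63, 138), (68, 75)], 0, 800, 0, 0, 0, []⟩)) (.L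 ⟨[(3, 5250), (24, 270), (26, 945), (57, 1750), (58, 405), (68, 1008)], 0, 64800, 0, 0, 0, []⟩)) (.L ⟨[(3, 42), (26, 9), (57, 14), (58, 3)], 0, 0, 0, 0, 0, []⟩)))

theorem ok_Dc_1m : tree_Dc_1m.check prm_Dc ⟨-32, 32, -64, -64, -32, 32, -64, 64, -32, 32, -64, 64, 0, 336⟩ = true := by decide +kernel

def tree_Dc_1p : Tree := .N 6 (.N 6 (.L ⟨[(69, 2)], 0, 1, 0, 0, 0, []⟩) (.N 6 (.L ⟨[(14, 9), (15, 42), (57, 3), (58, 14), (69, 2880)], 0, 1080, 0, 0, 0, []⟩) (.L ⟨[(14, 9), (15, 42), (57, 3), (58, 14), (69, 960)], 0, 0, 0, 0, 0, []⟩))) (.N 6 (.N 6 (.L ⟨[(14, 9), (15, 42), (57, 3), (58, 14), (69, 960)], 0, 0, 0, 0, 0, []⟩) (.N 6 (.L ⟨[(14, 9), (15, 42), (57, 3), (58, 14), (69, 960)], 0, 0, 0, 0, 0, []⟩) (.L ⟨[(14, 15), (57, 5), (64, 336)], 0, 0, 0, 0, 0, []⟩))) (.L ⟨[(14, 15), (57, 5), (64, 336)], 0, 0, 0, 0, 0, []⟩))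

theorem ok_Dc_1p : tree_Dc_1p.check prm_Dc ⟨-32, 32, 64, 64, -32, 32, -64, 64, -32, 32, -64, 64, 0, 336⟩ = true := by decide +kernel

def tree_Dc_2m : Tree := .N 6 (.N 6 (.L ⟨[(69, 2)], 0, 1, 0, 0, 0, []⟩) (.L ⟨[(69, 2)], 0, 1, 0, 0, 0, []⟩)) (.L ⟨[(69, 1)], 0, 0, 0, 0, 0, []⟩)

theorem ok_Dc_2m : tree_Dc_2m.check prm_Dc ⟨-32, 32, -64, 64, -32, -32, -64, 64, -32, 32, -64, 64, 0, 336⟩ = true := by decide +kernel

def tree_Dc_2p : Tree := .N 6 (.N 6 (.L ⟨[(69, 2)], 0, 1, 0, 0, 0, []⟩) (.N 3 (.N 6 (.L ⟨[(69, 3)], 0, 2, 0, 0, 0, []⟩) (.N 3 (.L ⟨[], 0, 1, 0, 0, 0, []⟩) (.N 1 (.N 0 (.L ⟨[], 15, 0, 0, 4, 0, []⟩) (.N 5 (.N 4 (.N 5 (.L ⟨[(0, 7475), (1, 27025), (2, 24354), (3, 7475), (22, 27025), (31, 29497), (33, 27632), (39, 51379), (41, 34500), (53, 3450), (59, 10925), (60, 19618)], 0, 1104000, 809600, 533025, 0, []⟩) (.L ⟨[(0, 34803), (1, 158547),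 (2, 88167), (3, 34803), (20, 135345), (22, 23202), (33, 89157), (35, 45414), (39, 246714), (41, 193350), (53, 19335), (59, 15468), (60, 93839)], 0, 3712320, 3445497, 2552220, 0, []⟩)) (.L ⟨[(0, 450), (1, 900), (2, 582), (3, 450), (20, 900), (35, 582), (39, 525), (41, 1350), (51, 135), (60, 644)], 0, 21600, 86400, 20610, 0, []⟩)) (.N 4 (.L ⟨[(0, 72525), (1, 99975), (2, 74799), (3, 72525), (20, 91350), (22, 8625), (35, 74799), (41, 172500), (51, 17250), (60, 82433)], 0, 1923375, 0, 2070000, 0, []⟩) (.N 3 (.L ⟨[(1, 50850), (2, 14280), (15, 21765), (16, 29085), (37, 6780), (38, 7500), (39, 65130), (41, 50850), (51, 5085), (60, 21710)], 0, 1735680, 1025927, 476521, 0, []⟩) (.N 6 (.L ⟨[(0, 7266), (1, 11634), (2, 5727), (3, 7266), (15, 7056), (16, 4578), (37, 3333), (38, 2394), (41, 18900), (51, 1890), (60, 8209), (69, 1935360)], 0, 946008, 390852,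 245070, 0, []⟩) (.L ⟨[(0, 8400), (1, 7140), (2, 4707), (3, 8400), (15, 3402), (16, 3738), (37, 2733), (38, 1974), (41, 15540), (51, 1554), (60, 6749)], 0, 0, 322560, 243474, 0, []⟩)))))) (.L ⟨[(69, 7)], 0, 0, 0, 480, 0, []⟩)))) (.L ⟨[(69, 1)], 0, 0, 0, 0, 0, []⟩))) (.N 5 (.N 4 (.N 3 (.N 4 (.L ⟨[(20, 3), (33, 3), (58, 1), (59, 1)], 0, 0, 0, 0, 0, []⟩) (.N 5 (.L ⟨[(20, 14190), (22, 24123), (31, 54825), (33, 24390), (58, 12771), (59, 26405)], 0, 435633, 681120, 0, 0, []⟩) (.N 4 (.L ⟨[(20, 3), (33, 3), (58, 1), (59, 1)], 0, 0, 0, 0, 0, []⟩) (.N 3 (.L ⟨[(18, 3225), (20, 3438), (33, 2838), (35, 1419), (58, 2221), (59, 1419)], 0, 85140, 62436, 0, 0, []⟩) (.N 6 (.N 6 (.N 1 (.N 0 (.L ⟨[], 15, 0, 0, 2, 0, []⟩) (.L ⟨[(1, 1500), (18, 208), (20, 1292), (33, 840), (35, 330), (39, 1481), (41, 1500), (51, 150), (59, 390), (60, 500)], 0, 10140, 28800, 10020,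 0, []⟩)) (.N 0 (.L ⟨[], 0, 0, 0, 1, 0, []⟩) (.L ⟨[(0, 25800), (1, 6450), (10, 25800), (15, 45150), (33, 14400), (35, 20124), (41, 32250), (51, 3225), (58, 12900), (59, 11508), (60, 10750)], 0, 90300, 970725, 1548000, 0, []⟩))) (.L ⟨[(20, 3), (33, 3), (58, 1), (59, 1)], 0, 0, 30, 0, 0, []⟩)) (.L ⟨[(20, 3), (33, 3), (58, 1), (59, 1)], 0, 0, 0, 0, 0, []⟩)))))) (.L ⟨[(0, 6048), (1, 14112), (11, 4704), (13, 1344), (20, 10080), (22, 4032), (29, 8229), (31, 8496), (39, 14112), (41, 20160), (53, 2016), (59, 5575), (60, 6720)], 0, 0, 0, 0, 0, []⟩)) (.N 4 (.N 5 (.L ⟨[(20, 3), (33, 3), (58, 1), (59, 1)], 0, 0, 60, 0, 0, []⟩) (.N 3 (.N 3 (.L ⟨[(18, 3225), (20, 600), (35, 1419), (58, 1275), (59, 473)], 0, 27907, 56760, 0, 0, []⟩) (.N 6 (.N 1 (.L ⟨[(1, 306000), (9, 34425), (18, 263400), (20, 168825), (35, 164856), (39, 306000), (41, 306000), (51, 30600),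 (57, 11475), (58, 42075), (59, 54952), (60, 102000)], 0, 0, 14688000, 2295000, 0, []⟩) (.N 0 (.L ⟨[(11, 1419), (18, 3225), (20, 600), (57, 473), (58, 1275)], 0, 0, 0, 56760, 0, []⟩) (.L ⟨[(0, 804), (1, 876), (10, 84), (12, 720), (15, 2415), (35, 756), (41, 1680), (51, 168), (58, 513), (59, 252), (60, 560)], 0, 0, 80640, 46368, 0, []⟩))) (.L ⟨[(20, 3), (33, 3), (58, 1), (59, 1)], 0, 0, 60, 0, 0, []⟩))) (.L ⟨[(0, 7305), (1, 18465), (11, 4728), (13, 2577), (18, 8091), (20, 10374), (31, 7731), (39, 18465), (41, 25770), (51, 2577), (59, 2577), (60, 8590)], 0, 0, 1236960, 0, 0, []⟩))) (.L ⟨[], 0, 0, 1, 0, 0, []⟩))) (.N 3 (.N 3 (.L ⟨[(15, 42), (38, 9), (58, 14), (59, 3)], 0, 480, 0, 0, 0, []⟩) (.N 4 (.N 5 (.N 4 (.L ⟨[(20, 3), (33, 3), (58, 1), (59, 1)], 0, 0, 0, 0, 0, []⟩) (.N 5 (.N 6 (.N 1 (.L ⟨[(1, 38250), (9, 3825), (18, 32925), (20, 20625),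 (35, 20607), (39, 38250), (41, 38250), (51, 3825), (57, 1275), (58, 5100), (59, 6869), (60, 12750)], 0, 0, 0, 306000, 0, []⟩) (.N 0 (.L ⟨[(11, 1419), (18, 3225), (20, 600), (57, 473), (58, 1275)], 0, 0, 0, 56760, 0, []⟩) (.L ⟨[(0, 804), (1, 876), (10, 84), (12, 720), (15, 2415), (35, 756), (41, 1680), (51, 168), (58, 513), (59, 252), (60, 560)], 0, 0, 0, 40320, 0, []⟩))) (.L ⟨[(20, 3), (33, 3), (58, 1), (59, 1)], 0, 0, 0, 0, 0, []⟩)) (.L ⟨[(1, 14190), (11, 2838), (13, 1419), (18, 47214), (20, 9048), (35, 17028), (39, 14190), (41, 14190), (51, 1419), (57, 1419), (58, 14024), (59, 5676), (60, 4730)], 0, 0, 0, 0, 0, []⟩))) (.L ⟨[(1, 14190), (11, 4257), (18, 45795), (20, 8520), (35, 17028), (41, 14190), (50, 1419), (57, 1419), (58, 13375), (59, 5676), (60, 4730)], 0, 0, 0, 0, 0, []⟩)) (.N 5 (.N 4 (.N 6 (.N 3 (.N 3 (.L ⟨[(16, 585), (18, 600),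 (35, 168), (37, 210), (58, 395), (59, 126)], 0, 20160, 9576, 0, 0, []⟩) (.N 1 (.L ⟨[(1, 52920), (9, 7056), (16, 12768), (18, 57792), (35, 5880), (37, 16155), (39, 52920), (41, 52920), (50, 5292), (57, 2352), (58, 5880), (59, 7345), (60, 17640)], 0, 0, 1128960, 433944, 0, []⟩) (.L ⟨[(0, 2520), (12, 1413), (14, 11187), (15, 58170), (35, 504), (37, 1008), (41, 2520), (50, 252), (57, 3360), (58, 19390), (59, 504), (60, 840)], 0, 0, 67704, 2580480, 0, []⟩))) (.N 0 (.N 1 (.L ⟨[(0, 5482), (1, 2818), (2, 3511), (3, 8802), (5, 1660), (22, 2818), (37, 3511), (39, 6329), (41, 8300), (51, 830), (57, 1660), (60, 3937)], 398400, 0, 250660, 250660, 0, []⟩) (.L ⟨[(11, 1419), (18, 3225), (20, 600), (57, 473), (58, 1275)], 5203, 0, 0, 56760, 0, []⟩)) (.N 1 (.L ⟨[(0, 90), (1, 100), (2, 65), (3, 90), (18, 100), (37, 65), (41, 190), (51, 19), (60, 85)], 0, 0,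 4560, 3002, 0, []⟩) (.L ⟨[(0, 35190), (1, 133680), (12, 27930), (14, 7260), (15, 177240), (35, 7260), (37, 36300), (41, 168870), (50, 16887), (58, 14520), (59, 14520), (60, 56290)], 0, 0, 3136320, 3484800, 0, []⟩)))) (.L ⟨[(1, 270), (11, 27), (13, 54), (16, 243), (18, 345), (35, 48), (37, 69), (39, 270), (41, 270), (50, 27), (57, 27), (58, 106), (59, 39), (60, 90)], 0, 0, 5760, 0, 0, []⟩)) (.N 5 (.L ⟨[], 0, 0, 1, 0, 0, []⟩) (.N 3 (.L ⟨[(15, 42), (38, 9), (58, 14), (59, 3)], 0, 0, 720, 0, 0, []⟩) (.N 6 (.N 4 (.N 1 (.L ⟨[(1, 7740), (9, 2352), (15, 2322), (16, 6321), (38, 1677), (39, 7740), (41, 7740), (50, 774), (57, 784), (58, 301), (59, 559), (60, 2580)], 0, 0, 165120, 38485, 0, []⟩) (.N 0 (.L ⟨[(11, 1419), (18, 3225), (20, 600), (57, 473), (58, 1275)], 5203, 0, 0, 56760, 0, []⟩) (.L ⟨[(1, 150), (14, 21), (15, 171), (38, 21), (40, 150),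 (41, 150), (50, 15), (57, 7), (58, 7), (59, 7), (60, 50)], 0, 0, 3360, 2996, 0, []⟩))) (.L ⟨[(15, 42), (38, 9), (58, 14), (59, 3)], 0, 0, 1440, 0, 0, []⟩)) (.N 4 (.L ⟨[(1, 17280), (11, 1584), (13, 3600), (15, 28092), (16, 20025), (38, 7344), (39, 17280), (41, 17280), (50, 1728), (57, 1728), (58, 10279), (59, 2448), (60, 5760)], 0, 0, 552960, 0, 0, []⟩) (.L ⟨[(15, 1470), (36, 135), (38, 270), (58, 490), (59, 135), (66, 504)], 0, 0, 21600, 0, 0, []⟩)))))) (.N 3 (.L ⟨[(15, 42), (38, 9), (58, 14), (59, 3)], 0, 0, 0, 0, 0, []⟩) (.N 6 (.N 5 (.N 4 (.N 0 (.L ⟨[(1, 141900), (9, 76920), (11, 15351), (18, 160605), (20, 10320), (38, 17415), (39, 141900), (41, 141900), (51, 14190), (57, 30757), (58, 9675), (59, 5805), (60, 47300)], 0, 0, 0, 1238400, 0, []⟩) (.N 1 (.L ⟨[(0, 35), (1, 21), (2, 16), (3, 35), (15, 21), (37, 6), (38, 10), (41, 56), (60, 24)],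 0, 0, 0, 720, 0, []⟩) (.L ⟨[(1, 1260), (14, 120), (15, 1260), (37, 135), (38, 105), (41, 1260), (50, 126), (57, 40), (59, 80), (60, 420)], 0, 0, 0, 19200, 0, []⟩))) (.N 1 (.N 0 (.L ⟨[(3, 42), (38, 9), (57, 14), (59, 3)], 339, 0, 0, 360, 0, []⟩) (.L ⟨[(0, 60), (1, 18), (2, 18), (3, 60), (15, 18), (38, 18), (39, 36), (41, 36), (60, 32)], 0, 0, 1080, 1026, 45, []⟩)) (.N 0 (.L ⟨[(11, 1419), (18, 3225), (20, 600), (57, 473), (58, 1275)], 5203, 0, 0, 56760, 0, []⟩) (.L ⟨[(1, 786), (14, 84), (15, 849), (38, 126), (40, 786), (41, 786), (57, 28), (58, 21), (59, 42), (60, 262)], 0, 0, 10416, 13440, 1316, []⟩)))) (.L ⟨[(15, 42), (38, 9), (58, 14), (59, 3)], 0, 0, 0, 0, 0, []⟩)) (.L ⟨[(15, 42), (38, 9), (58, 14), (59, 3)], 0, 0, 0, 0, 0, []⟩)))))) (.N 4 (.L ⟨[(0, 10059), (1, 41481), (11, 10059), (13, 5154), (18, 32187), (20, 9294), (33, 5154), (39,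 41481), (41, 51540), (51, 5154), (57, 1718), (59, 1718), (60, 17180)], 0, 0, 0, 0, 0, []⟩) (.N 6 (.N 3 (.N 5 (.N 0 (.N 1 (.L ⟨[(0, 15237), (1, 13053), (2, 1728), (7, 39429), (9, 1728), (22, 13053), (38, 1728), (39, 14781), (41, 28290), (57, 8640), (60, 10006)], 338688, 0, 414720, 371520, 0, []⟩) (.L ⟨[(7, 3225), (9, 600), (22, 1419), (57, 1275), (58, 473)], 0, 0, 0, 56760, 0, []⟩)) (.N 1 (.L ⟨[(0, 31410), (1, 4530), (2, 4275), (5, 31410), (22, 4530), (38, 4275), (39, 8805), (41, 35940), (51, 3594), (60, 13405)], 0, 0, 575040, 214442, 0, []⟩) (.N 1 (.L ⟨[(0, 31343), (1, 61477), (2, 15708), (7, 22537), (9, 8806), (16, 48380), (18, 13097), (37, 4522), (38, 11186), (39, 77185), (41, 92820), (52, 9282), (60, 36176)], 0, 0, 1827840, 1745016, 0, []⟩) (.L ⟨[(0, 105), (1, 405), (14, 105), (15, 405), (41, 510), (60, 170), (66, 204)], 0, 0, 6405, 12600,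 420, []⟩)))) (.N 0 (.N 1 (.L ⟨[(0, 133), (1, 557), (2, 138), (5, 92), (7, 1817), (22, 557), (36, 92), (38, 46), (39, 695), (41, 690), (57, 592), (60, 276)], 6670, 0, 7866, 11040, 0, []⟩) (.L ⟨[(7, 3225), (9, 600), (22, 1419), (57, 1275), (58, 473)], 0, 0, 0, 56760, 0, []⟩)) (.N 1 (.L ⟨[(0, 14760), (1, 906), (2, 3033), (3, 1359), (5, 13401), (22, 906), (36, 1359), (38, 1674), (39, 3939), (41, 15666), (60, 6233)], 0, 0, 217440, 124575, 0, []⟩) (.N 1 (.L ⟨[(0, 2901), (1, 2972), (2, 994), (5, 385), (7, 2516), (15, 518), (16, 2454), (38, 994), (39, 3966), (41, 5873), (42, 3059), (60, 2289)], 0, 0, 76622, 107520, 0, []⟩) (.L ⟨[(0, 2), (1, 17), (2, 2), (14, 2), (15, 17), (38, 2), (41, 10), (60, 7), (66, 4)], 0, 0, 194, 480, 0, []⟩))))) (.L ⟨[(69, 1)], 0, 0, 0, 0, 0, []⟩)) (.N 0 (.L ⟨[(9, 3), (20, 3), (57, 1), (58, 1)], 0, 0, 0, 0, 0, []⟩) (.N 3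 (.N 5 (.N 4 (.L ⟨[(0, 1716), (1, 10734), (11, 1245), (13, 2712), (16, 3711), (18, 7023), (39, 10734), (41, 12450), (50, 1245), (57, 747), (60, 4150)], 0, 0, 119520, 0, 0, []⟩) (.N 5 (.L ⟨[], 0, 0, 1, 0, 0, []⟩) (.N 1 (.L ⟨[(0, 1932), (2, 627), (7, 1932), (34, 282), (36, 345), (39, 627), (41, 1932), (60, 853)], 0, 0, 41400, 8280, 0, []⟩) (.N 1 (.N 0 (.L ⟨[(0, 255), (1, 170), (2, 85), (7, 330), (9, 180), (22, 170), (34, 85), (39, 255), (41, 425), (57, 85), (60, 170), (66, 277)], 0, 0, 4250, 10200, 0, []⟩) (.L ⟨[(1, 500), (2, 175), (18, 220), (20, 280), (36, 125), (38, 50), (41, 500), (60, 225), (66, 1836)], 0, 0, 12000, 8200, 0, []⟩)) (.L ⟨[(1, 645), (12, 540), (15, 465), (16, 180), (34, 135), (41, 645), (42, 645), (57, 180), (59, 45), (60, 215), (66, 3399)], 0, 0, 5715, 43200, 0, []⟩))))) (.N 6 (.N 1 (.L ⟨[(0, 164), (2, 103), (5, 299), (36,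 103), (39, 103), (41, 164), (57, 45), (60, 89), (66, 90)], 0, 0, 1350, 1305, 0, []⟩) (.N 1 (.L ⟨[(0, 1008), (1, 1008), (2, 1677), (3, 1008), (18, 672), (20, 336), (34, 336), (36, 1341), (39, 2685), (41, 2016), (60, 1231), (66, 8502)], 0, 0, 0, 80640, 0, []⟩) (.L ⟨[(0, 105), (1, 405), (14, 105), (15, 405), (41, 510), (60, 170), (66, 204)], 0, 0, 0, 20400, 0, []⟩))) (.L ⟨[(20, 5040), (38, 645), (58, 1680), (59, 215), (66, 14448)], 0, 0, 0, 0, 0, []⟩))) (.L ⟨[(22, 3), (58, 1), (66, 15)], 0, 0, 0, 0, 0, []⟩)))))))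

theorem ok_Dc_2p : tree_Dc_2p.check prm_Dc ⟨-32, 32, -64, 64, 32, 32, -64, 64, -32, 32, -64, 64, 0, 336⟩ = true := by decide +kernel

def tree_Dc_3m : Tree := .N 6 (.N 6 (.L ⟨[], 0, 1, 0, 0, 0, []⟩) (.L ⟨[], 0, 1, 0, 0, 0, []⟩)) (.N 2 (.L ⟨[(69, 2)], 0, 3, 0, 0, 0, []⟩) (.N 2 (.L ⟨[], 0, 1, 0, 0, 0, []⟩) (.L ⟨[(18, 645), (20, 120), (58, 255), (68, 1419)], 0, 12800, 0, 0, 0, []⟩)))

theorem ok_Dc_3m : tree_Dc_3m.check prm_Dc ⟨-32, 32, -64, 64, -32, 32, -64, -64, -32, 32, -64, 64, 0, 336⟩ = true := by decide +kernel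

def tree_Dc_3p : Tree := .N 6 (.N 6 (.L ⟨[(69, 1)], 0, 0, 0, 0, 0, []⟩) (.L ⟨[(69, 1)], 0, 0, 0, 0, 0, []⟩)) (.L ⟨[(69, 1)], 0, 0, 0, 0, 0, []⟩)

theorem ok_Dc_3p : tree_Dc_3p.check prm_Dc ⟨-32, 32, -64, 64, -32, 32, 64, 64, -32, 32, -64, 64, 0, 336⟩ = true := by decide +kernel

def tree_Dc_4m : Tree := .N 6 (.N 6 (.L ⟨[(69, 2)], 0, 1, 0, 0, 0, []⟩) (.N 6 (.L ⟨[(69, 2)], 0, 1, 0, 0, 0, []⟩) (.L ⟨[(20, 3), (33, 3), (58, 1), (59, 1), (69, 60)], 0, 30, 0, 0, 0, []⟩))) (.N 2 (.L ⟨[(69, 2)], 0, 1, 0, 0, 0, []⟩) (.L ⟨[(20, 3), (33, 3), (58, 1), (59, 1), (69, 30)], 0, 15, 0, 0, 0, []⟩))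

theorem ok_Dc_4m : tree_Dc_4m.check prm_Dc ⟨-32, 32, -64, 64, -32, 32, -64, 64, -32, -32, -64, 64, 0, 336⟩ = true := by decide +kernel

def tree_Dc_4p : Tree := .N 6 (.N 6 (.L ⟨[(69, 2)], 0, 1, 0, 0, 0, []⟩) (.N 6 (.L ⟨[(15, 42), (38, 9), (58, 14), (59, 3), (69, 2880)], 0, 714, 1452, 0, 0, []⟩) (.N 5 (.L ⟨[], 0, 0, 1, 0, 0, []⟩) (.N 6 (.L ⟨[(15, 42), (38, 9), (58, 14), (59, 3), (69, 960)], 0, 0, 643, 0, 0, []⟩) (.N 5 (.L ⟨[], 0, 0, 1, 0, 0, []⟩) (.L ⟨[(15, 966), (38, 207), (58, 322), (59, 69), (69, 23040)], 0, 0, 12378, 0, 0, []⟩)))))) (.N 5 (.L ⟨[], 0, 0, 1, 0, 0, []⟩) (.N 2 (.L ⟨[(17, 21), (36, 6), (58, 7), (59, 2), (69, 480)], 0, 114, 108, 0, 0, []⟩) (.N 6 (.N 5 (.L ⟨[], 0, 0, 1, 0, 0, []⟩) (.N 3 (.L ⟨[(15, 42), (38, 9), (58, 14), (59, 3)], 0, 0, 105, 0, 720, []⟩) (.N 3 (.L ⟨[(0, 1005), (1, 8640), (11, 4020), (20, 8640), (39, 8640),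 (41, 9645), (42, 9645), (57, 1005), (60, 3215), (66, 8928), (69, 279390)], 0, 0, 231150, 0, 30873600, []⟩) (.L ⟨[(69, 1)], 0, 0, 0, 0, 0, []⟩)))) (.N 5 (.L ⟨[(34, 3), (59, 1), (66, 15)], 0, 0, 60, 0, 0, []⟩) (.L ⟨[(34, 3), (59, 1), (66, 15)], 0, 0, 30, 0, 0, []⟩)))))

theorem ok_Dc_4p : tree_Dc_4p.check prm_Dc ⟨-32, 32, -64, 64, -32, 32, -64, 64, 32, 32, -64, 64, 0, 336⟩ = true := by decide +kernel

def tree_Dc_5m : Tree := .N 6 (.N 6 (.L ⟨[(69, 2)], 0, 1, 0, 0, 0, []⟩) (.N 3 (.N 6 (.L ⟨[(69, 3)], 0, 2, 0, 0, 0, []⟩) (.N 4 (.N 6 (.L ⟨[(22, 7095), (31, 16125), (33, 3000), (58, 2365), (59, 6375), (69, 171226)], 0, 227040, 137170, 0, 0, []⟩) (.L ⟨[(22, 294), (24, 75), (31, 1050), (58, 123), (59, 350), (69, 9102)], 0, 14760, 6765, 0, 0, []⟩)) (.L ⟨[], 0, 0, 1, 0, 0, []⟩))) (.L ⟨[(69, 1)], 0, 0, 0, 0, 0, []⟩))) (.N 2 (.L ⟨[(69, 2)], 0, 1, 0,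 0, 0, []⟩) (.N 3 (.N 3 (.N 6 (.L ⟨[], 0, 1, 0, 0, 0, []⟩) (.L ⟨[(22, 15), (27, 60), (58, 5), (59, 20), (63, 138), (68, 75)], 0, 800, 0, 0, 0, []⟩)) (.L ⟨[(24, 270), (26, 945), (27, 5250), (58, 405), (59, 1750), (68, 1008)], 0, 64800, 0, 0, 0, []⟩)) (.L ⟨[(26, 9), (27, 42), (58, 3), (59, 14)], 0, 0, 0, 0, 0, []⟩)))

theorem ok_Dc_5m : tree_Dc_5m.check prm_Dc ⟨-32, 32, -64, 64, -32, 32, -64, 64, -32, 32, -64, -64, 0, 336⟩ = true := by decide +kernel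

def tree_Dc_5p : Tree := .N 6 (.N 6 (.L ⟨[(69, 2)], 0, 1, 0, 0, 0, []⟩) (.N 6 (.L ⟨[(15, 42), (38, 9), (58, 14), (59, 3), (69, 2880)], 0, 1080, 0, 0, 0, []⟩) (.L ⟨[(15, 42), (38, 9), (58, 14), (59, 3), (69, 960)], 0, 0, 0, 0, 0, []⟩))) (.N 6 (.N 6 (.L ⟨[(15, 42), (38, 9), (58, 14), (59, 3), (69, 960)], 0, 0, 0, 0, 0, []⟩) (.L ⟨[(1, 79200), (9, 5040), (11, 38592), (15, 75882), (16, 138033), (36, 7632), (38, 27792), (39, 79200), (41, 79200), (42, 79200), (50, 7920), (57, 14544), (58, 44905), (59, 11808), (60, 26400), (69, 2211840)], 0, 0, 0, 0, 0, []⟩)) (.L ⟨[(38, 15), (59, 5), (64, 336)], 0, 0, 0, 0, 0, []⟩))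

theorem ok_Dc_5p : tree_Dc_5p.check prm_Dc ⟨-32, 32, -64, 64, -32, 32, -64, 64, -32, 32, 64, 64, 0, 336⟩ = true := by decide +kernel

end Pool.Agent.H30.P6
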